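import Pool.Agent.Lib.MP_361a6f_ag.FL.Stat

/-!
# Abelian varieties in characteristic `p` whose endomorphism algebra has the centre `ℚ`: the
definitions used in the statement
-/

open CategoryTheory AlgebraicGeometry MonoidalCategory CartesianMonoidalCategory

universe u v w w'

namespace Pool.Agent.Lib.MP_361a6f_ag.FL.EQ

open Pool.Agent.Lib.MP_361a6f_ag.H3 Pool.Agent.Lib.MP_361a6f_ag.SQ

variable {k : Type u} [Field k] {k' : Type v} [Field k']

/-- The power of `X` that belongs to a formal product `P` of copies of one factor. -/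
noncomputable abbrev pw (X : Sch k) (P : Prd 1) : Sch k := P.obj fun _ => X

/-- The endomorphism `F × ⋯ × F` of a power of `X`. -/
noncomputable def pwMap {X : Sch k} (F : Sch.Mor X X) : (P : Prd 1) → Sch.Mor (pw X P) (pw X P)
  | .leaf _ => F
  | .prod P Q => pwMap F P ⊗ₘ pwMap F Q

/-- `X` has a morphism `X × X → X` with a two-sided unit, for instance the group law of an abelian
variety. -/
def Unital (X : Sch k) : Prop :=
  ∃ (m : Sch.Mor (X.prod X) X) (e : Sch.Mor (Sch.point k) X),
    lift (toUnit X ≫ e) (𝟙 X) ≫ m = 𝟙 X ∧ lift (𝟙 X) (toUnit X ≫ e) ≫ m = 𝟙 X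

/-- The maps `T P` from the cohomology of the powers of `X` to the cohomology of the powers of `X'`
are linear, and `T (P × Q)` is the tensor product of `T P` and `T Q`. -/
structure Tensor (W : CohomologyData.{u, 0, w} k ℂ) (X : Sch k)
    (W' : CohomologyData.{v, 0, w'} k' ℂ) (X' : Sch k')
    (T : ∀ P : Prd 1, W.coh (pw X P) → W'.coh (pw X' P)) : Prop where
  add : ∀ P x y, T P (x + y) = T P x + T P y
  scal : ∀ P c x, T P (W.scal c x) = W'.scal c (T P x)
  ext : ∀ P Q y x, T (.prod P Q) (W.ext y x) = W'.ext (T P y) (T Q x)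

/-- The symmetries of the cohomology of the powers of `X`: tensor powers of linear maps
`H^*(X) → H^*(X)` which preserve the degree, that fix all algebraic classes on all powers of
`X`. -/
structure IsSym (W : CohomologyData.{u, 0, w} k ℂ) (X : Sch k)
    (T : ∀ P : Prd 1, W.coh (pw X P) → W.coh (pw X P)) : Prop where
  tensor : Tensor W X W X T
  deg : ∀ i x, W.Deg X i x → W.Deg X i (T (.leaf 0) x)
  alg : ∀ P l z, W.IsAlg (pw X P) l z → T P z = z

/-- The image `pr₂_* (pr₁^* x · z)` of a class `x` under a correspondence `z`. -/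
noncomputable def act (W : CohomologyData.{u, 0, w} k ℂ) {X : Sch k} (z : W.coh (X.prod X))
    (x : W.coh X) : W.coh X :=
  W.pf (X.pr₂ X) (W.cup (W.pb (X.pr₁ X) x) z)

/-- `U` is a stable subspace of `H^1(X)`: it is mapped to itself by all algebraic correspondences of
codimension `n = dim X` and has only finitely many images under the symmetries. -/
structure Stable (W : CohomologyData.{u, 0, w} k ℂ) (X : Sch k) (n : ℕ)
    (U : Submodule ℂ (W.coh X)) : Prop where
  le : U ≤ W.gr X 1
  act : ∀ z, W.IsAlg (X.prod X) n z → ∀ x ∈ U, act W z x ∈ U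
  fin : {S : Set (W.coh X) | ∃ T, IsSym W X T ∧
    ∀ y, y ∈ S ↔ ∃ x ∈ U, T (.leaf 0) x = y}.Finite

/-- A specialisation of `X` to `X'`: an isomorphism of the cohomology algebras that preserves the
degree and the trace, whose tensor powers map algebraic classes to algebraic classes. -/
structure IsSpec (W : CohomologyData.{u, 0, w} k ℂ) (X : Sch k)
    (W' : CohomologyData.{v, 0, w'} k' ℂ) (X' : Sch k')
    (s : ∀ P : Prd 1, W.coh (pw X P) → W'.coh (pw X' P)) : Prop where
  tensor : Tensor W X W' X' s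
  bij : Function.Bijective (s (.leaf 0))
  cup : ∀ x y, s (.leaf 0) (W.cup x y) = W'.cup (s (.leaf 0) x) (s (.leaf 0) y)
  deg : ∀ i x, W.Deg X i x → W'.Deg X' i (s (.leaf 0) x)
  tr : ∀ x, W'.Tr (s (.leaf 0) x) = W.Tr x
  alg : ∀ P l z, W.IsAlg (pw X P) l z → W'.IsAlg (pw X' P) l (s P z)

/-- The quotient of two different eigenvalues of `F^*` on `H^1(X')` is not a root of unity. -/
def RatioFree (W' : CohomologyData.{v, 0, w'} k' ℂ) {X' : Sch k'} (F : Sch.Mor X' X') : Prop :=
  ∀ (a b : ℂ) (x y : W'.coh X'), W'.Deg X' 1 x → W'.Deg X' 1 y → x ≠ 0 → y ≠ 0 →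
    W'.pb F x = W'.scal a x → W'.pb F y = W'.scal b y → ∀ n : ℕ, 0 < n → a ^ n = b ^ n → a = b

/-- A linear map that preserves `H^1(X')` and commutes there with all algebraic correspondences of
codimension `n = dim X'` is a polynomial in `F^*` on `H^1(X')`. (Tate's theorem on the
endomorphisms of abelian varieties over finite fields; automatic if `F^*` has distinct eigenvalues
on `H^1(X')`.) -/
def Commutant (W' : CohomologyData.{v, 0, w'} k' ℂ) {X' : Sch k'} (n : ℕ) (F : Sch.Mor X' X') :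
    Prop :=
  ∀ φ : W'.coh X' →ₗ[ℂ] W'.coh X', (∀ x, W'.Deg X' 1 x → W'.Deg X' 1 (φ x)) →
    (∀ z, W'.IsAlg (X'.prod X') n z → ∀ x, W'.Deg X' 1 x → φ (act W' z x) = act W' z (φ x)) →
    ∃ p : Polynomial ℂ, ∀ x, W'.Deg X' 1 x →
      φ x = Polynomial.aeval ((W'.pull F).toLinearMap : Module.End ℂ (W'.coh X')) p x

/-- Varieties `X` and `X'` of dimension `g`, a divisor class `ξ` on `X`, a family of maps `s` from
the cohomology of the powers of `X` to that of the powers of `X'`, and an endomorphism `F` of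
`X'`. -/
structure Data (W : CohomologyData.{u, 0, w} k ℂ) (W' : CohomologyData.{v, 0, w'} k' ℂ) where
  X : Sch k
  g : ℕ
  ξ : W.coh X
  X' : Sch k'
  s : ∀ P : Prd 1, W.coh (pw X P) → W'.coh (pw X' P)
  F : Sch.Mor X' X'
  q : ℕ

/-- The hypotheses: `X` is an abelian variety (a unital law and `H^0(X) = ℂ` are enough), `ξ` is a
divisor class of positive degree, `s` is a specialisation, `F` is (a power of) the Frobenius
endomorphism over the field with `q` elements: `F × ⋯ × F` multiplies the specialisations of the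
algebraic classes of codimension `l` by `q^l`; `X'` has the property of Tate's theorem, and the
Hodge index theorem holds for `X' × X'` and the specialisation of `ξ`. -/
structure Hyp {W : CohomologyData.{u, 0, w} k ℂ} (𝒱 : VarietyClass k)
    {W' : CohomologyData.{v, 0, w'} k' ℂ} (𝒱' : VarietyClass k') (D : Data W W') : Prop where
  mem : 𝒱.mem D.X D.g
  conn : ∀ x, W.Deg D.X 0 x → ∃ c, x = W.scal c 1
  unital : Unital D.X
  div : PositiveDivisor W D.X D.g D.ξ
  mem' : 𝒱'.mem D.X' D.g
  spec : IsSpec W D.X W' D.X' D.s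
  pos : 0 < D.q
  frob : ∀ P l z, W.IsAlg (pw D.X P) l z →
    W'.pb (pwMap D.F P) (D.s P z) = W'.scal ((D.q : ℂ) ^ l) (D.s P z)
  ratio : RatioFree W' D.F
  tate : Commutant W' D.g D.F
  index : HodgeCodim W' (D.X'.prod D.X') (D.g + D.g)
    (W'.pb (D.X'.pr₁ D.X') (D.s (.leaf 0) D.ξ) + W'.pb (D.X'.pr₂ D.X') (D.s (.leaf 0) D.ξ)) 1

/-- `Q1` for `(Y, η)`, in all codimensions and for all algebraic classes. -/
def Q1 (W : CohomologyData.{u, 0, w} k ℂ) (Y : Sch k) (n : ℕ) (η : W.coh Y) : Prop :=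
  ∀ j x, 2 * j ≤ n → W.IsAlg Y j x → W.cup (η ^ (n - 2 * j + 1)) x = 0 → x ≠ 0 →
    RatPos ((-1) ^ j * W.Tr (W.cup (η ^ (n - 2 * j)) (W.cup x x)))

/-- Numerical and homological equivalence agree on `Y`, with complex coefficients. -/
def NumHom (W : CohomologyData.{u, 0, w} k ℂ) (Y : Sch k) : Prop :=
  ∀ j x, x ∈ Submodule.span ℂ {z | W.IsAlg Y j z} →
    (∀ l y, W.IsAlg Y l y → W.Tr (W.cup x y) = 0) → x = 0

end Pool.Agent.Lib.MP_361a6f_ag.FL.EQ

namespace Pool.Agent.Lib.MP_361a6f_ag.FL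

open Pool.Agent.Lib.MP_361a6f_ag.H3 Pool.Agent.Lib.MP_361a6f_ag.SQ

/-- **Theorem E+.** If `H^1(X)` has no stable subspace except `0` and `H^1(X)` then `Q1` holds for
all algebraic classes on all powers of `X`, and numerical equivalence is homological equivalence. -/
def ThmEGeoStatement : Prop :=
  ∀ {k : Type u} [Field k] (W : CohomologyData.{u, 0, w} k ℂ) (𝒱 : VarietyClass k)
    (_ : IsWeilCohomology W 𝒱) {k' : Type v} [Field k'] (W' : CohomologyData.{v, 0, w'} k' ℂ)
    (𝒱' : VarietyClass k') (_ : IsWeilCohomology W' 𝒱') (D : EQ.Data W W') (_ : EQ.Hyp 𝒱 𝒱' D)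
    (_ : ∀ U, EQ.Stable W D.X D.g U → U = ⊥ ∨ U = W.gr D.X 1)
    (P : Prd 1) (η : W.coh (EQ.pw D.X P)) (_ : IsPol W (fun _ => D.ξ) P η),
    EQ.Q1 W (EQ.pw D.X P) (P.dim fun _ => D.g) η ∧ EQ.NumHom W (EQ.pw D.X P)

end Pool.Agent.Lib.MP_361a6f_ag.FL
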