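import Pool.Agent.Lib.MP_361a6f_ag.FL.E.EndM

/-!
# Theorem E, general form, the end for a part of the algebraic classes

The same as in `EndC`, for algebraic classes in given sets `Z P` which are stable under the adjoints
of the pull-backs.
-/

open CategoryTheory AlgebraicGeometry MonoidalCategory CartesianMonoidalCategory

universe u v w

set_option autoImplicit false
set_option linter.unusedSectionVars false

namespace Pool.Agent.Lib.MP_361a6f_ag.FL

open Pool.Agent.Lib.MP_361a6f_ag.H3 Pool.Agent.Lib.MP_361a6f_ag.SQ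
  Pool.Agent.Lib.MP_361a6f_ag.PP

namespace EndM

open EndE EndC

variable {k : Type u} [Field k] {m : ℕ} {W : CohomologyData.{u, 0, w} k ℂ} {𝒱 : VarietyClass k}
  (H : Host W 𝒱 m)

/-- the sets `Z P` are stable under the adjoints of the pull-backs along coordinate morphisms -/
def PushSt (Z : ∀ P : Prd m, Set (W.coh (P.obj H.X))) : Prop :=
  ∀ (P Q : Prd m) (f : Sch.Mor (P.obj H.X) (Q.obj H.X)), CoordMor H.X 3 P Q f → ∀ z ∈ Z P,
    ∃ z'' ∈ Z Q, ∀ x : W.coh (Q.obj H.X), H.psiP Q x z'' = H.psiP P (W.pull f x) z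

/-- the algebraic classes are stable -/
theorem pushSt_tot : PushSt H fun P => {z | z ∈ tot W (P.obj H.X)} :=
  fun P Q f _ z hz => push_star H P Q f z hz

/-- If the parts of degree one of the classes in `Z` are fixed then these classes are fixed. -/
theorem Fam.fix_set {σ : ℂ →+* ℂ}
    {A : ∀ P : Prd m, W.coh (P.obj H.X) →ₛₗ[σ] W.coh (P.obj H.X)} (S : Fam H σ A)
    (hAb : ∀ a, AbelianType W (H.X a) (H.n a)) {Z : ∀ P : Prd m, Set (W.coh (P.obj H.X))}
    (hZ : ∀ P, ∀ z ∈ Z P, z ∈ tot W (P.obj H.X)) (hpush : PushSt H Z)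
    (hfix : ∀ (P : Prd m), ∀ z ∈ Z P, A P (Z1 H P z) = Z1 H P z)
    (P : Prd m) (z : W.coh (P.obj H.X)) (hz : z ∈ Z P) : A P z = z := by
  have ge := ge H
  have hzt : z ∈ tot W (P.obj H.X) := hZ P z hz
  have hlin : ∀ x y v : W.coh (P.obj H.X), H.psiP P (x + y) v = H.psiP P x v + H.psiP P y v :=
    fun x y v => psi_add_left _ x y v
  have hsm : ∀ (t : ℂ) (x v : W.coh (P.obj H.X)), H.psiP P (t • x) v = t * H.psiP P x v :=
    fun t x v => psi_smul_left _ t x v
  -- the classes orthogonal to `A z - z`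
  let T : Submodule ℂ (W.coh (P.obj H.X)) :=
    { carrier := {y | H.psiP P (A P y) (A P z) = H.psiP P (A P y) z}
      add_mem' := fun {x y} hx hy => by
        change H.psiP P (A P (x + y)) (A P z) = H.psiP P (A P (x + y)) z
        rw [map_add, hlin, hlin, hx, hy]
      zero_mem' := by
        change H.psiP P (A P 0) (A P z) = H.psiP P (A P 0) z
        have h0 : ∀ v : W.coh (P.obj H.X), H.psiP P (0 : W.coh (P.obj H.X)) v = 0 := fun v => by
          have := hsm 0 0 v
          rwa [zero_smul, zero_mul] at this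
        rw [map_zero, h0, h0]
      smul_mem' := fun t x hx => by
        change H.psiP P (A P (t • x)) (A P z) = H.psiP P (A P (t • x)) z
        rw [LinearMap.map_smulₛₗ, hsm, hsm, hx] }
  have hT : T = ⊤ := by
    refine span_top H ge staB hAb P T ?_ ?_
    · -- the class `1`
      change H.psiP P (A P 1) (A P z) = H.psiP P (A P 1) z
      rw [S.psi, S.one]
      have h1 : H.psiP P 1 z = W.tr (P.obj H.X) (H.starP P z) := by
        change W.tr (P.obj H.X) (1 * H.starP P z) = _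
        rw [one_mul]
      obtain ⟨DP, hPalg⟩ := H.lamP P
      have hsz : H.starP P z ∈ tot W (P.obj H.X) :=
        AlgOp.apply H.hW (H.memP P) (algOp_star H.hW (H.memP P) hPalg DP) hzt
      obtain ⟨q, hq⟩ := tot_tr H.hW (H.memP P) hsz
      rw [h1, hq]
      simp
    · rintro y ⟨n, b, f, w, hf, hw, rfl⟩
      obtain ⟨F, hF, hE⟩ := exists_map H P n b f hf
      rw [← hE]
      obtain ⟨x, hxd, hx⟩ : ∃ x : Fin (GP.N n b).size → H.I, D1 H x ∧
          GP.E' H n b w = H.E (GP.N n b) x := by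
        refine ⟨w ∘ Fin.cast (GP.size_N n b), fun i => ?_, ?_⟩
        · rw [Function.comp_apply, hw]
        · rw [GP.E_eq]
          rfl
      rw [hx]
      change H.psiP P (A P (W.pull F (H.E (GP.N n b) x))) (A P z)
        = H.psiP P (A P (W.pull F (H.E (GP.N n b) x))) z
      obtain ⟨z'', hz'', key⟩ := hpush P (GP.N n b) F hF z hz
      have e1 : A P (W.pull F (H.E (GP.N n b) x))
          = W.pull F (A (GP.N n b) (H.E (GP.N n b) x)) := S.pull P (GP.N n b) F hF _
      have e2 := S.e1 (GP.N n b) x hxd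
      have e3 := hfix (GP.N n b) z'' hz''
      rw [S.psi, ← key, ← psi_Z1 H ge (GP.N n b) (tc_E1 H ge (GP.N n b) hxd) z'',
        ← S.psi, e3, psi_Z1 H ge (GP.N n b) e2 z'', key, e1]
  refine sub_eq_zero.1 (nd_right H P (A P z - z) fun y => ?_)
  obtain ⟨y₀, rfl⟩ := S.surj P y
  have hy : H.psiP P (A P y₀) (A P z) = H.psiP P (A P y₀) z := by
    have : y₀ ∈ T := by rw [hT]; trivial
    exact this
  have h3 := psi_add_right (W := W) (X := P.obj H.X) (ξ := P.pol W H.ξ) (Lam := H.LamP P)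
    (H.lamP P).1.slm.internal (A P y₀) (A P z - z) z
  rw [sub_add_cancel] at h3
  have h4 : H.psiP P (A P y₀) (A P z)
      = H.psiP P (A P y₀) (A P z - z) + H.psiP P (A P y₀) z := h3
  rw [hy] at h4
  exact add_right_cancel (h4.symm.trans (zero_add _).symm)

/-! ### The twisted real structures -/

/-- `EndC.Tw` for the classes in `Z` -/
structure TwA (Z : ∀ P : Prd m, Set (W.coh (P.obj H.X))) (c : Matrix H.I H.I ℂ)
    (J : ∀ P : Prd m, W.coh (P.obj H.X) →ₛₗ[starRingEnd ℂ] W.coh (P.obj H.X))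
    (C : ∀ P : Prd m, W.coh (P.obj H.X) →ₗ[ℂ] W.coh (P.obj H.X)) : Prop where
  rs : ∀ P, IsRS W (P.obj H.X) (P.dim H.n) (P.pol W H.ξ) (H.LamP P) (J P)
  hr : ∀ P, HRStr W (P.obj H.X) (P.dim H.n) (P.pol W H.ξ) (J P)
  jprod : ∀ (P Q : Prd m) (y : W.coh (P.obj H.X)) (x : W.coh (Q.obj H.X)),
    J (.prod P Q) (W.ext y x) = W.ext (J P y) (J Q x)
  jmul : ∀ P (x y : W.coh (P.obj H.X)), J P (x * y) = J P x * J P y
  one : ∀ P, C P 1 = 1
  mul : ∀ P (x y : W.coh (P.obj H.X)), C P (x * y) = C P x * C P y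
  gr : ∀ P i (x : W.coh (P.obj H.X)), x ∈ W.gr (P.obj H.X) i → C P x ∈ W.gr (P.obj H.X) i
  tr : ∀ P (x : W.coh (P.obj H.X)), W.tr (P.obj H.X) (C P x) = W.tr (P.obj H.X) x
  prod : ∀ (P Q : Prd m) (y : W.coh (P.obj H.X)) (x : W.coh (Q.obj H.X)),
    C (.prod P Q) (W.ext y x) = W.ext (C P y) (C Q x)
  on1 : ∀ (a : Fin m) (v : W.coh (H.X a)), v ∈ W.gr (H.X a) 1 →
    H.tc (.leaf a) (C (.leaf a) v) = gT c (H.tc (.leaf a) v)
  alg : ∀ P : Prd m, ∀ z ∈ Z P, J P z = C P z
  sq : ∀ P : Prd m, ∀ z ∈ Z P, C P (C P z) = z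

theorem exists_twA (hAb : ∀ a, AbelianType W (H.X a) (H.n a))
    (hpd : ∀ a, PositiveDivisor W (H.X a) (H.n a) (H.ξ a))
    {Z : ∀ P : Prd m, Set (W.coh (P.obj H.X))}
    (hZ : ∀ P, ∀ z ∈ Z P, z ∈ tot W (P.obj H.X)) (hpush : PushSt H Z)
    {g c : Matrix H.I H.I ℂ} (hg : IsG H.D g) (hc : IsG H.D c)
    (hfix : ∀ (P : Prd m), ∀ z ∈ Z P,
      GJ.JT H.D g (cut H (H.tc P z)) = gT c (cut H (H.tc P z)))
    (hsq : ∀ (P : Prd m), ∀ z ∈ Z P, gT c (gT c (cut H (H.tc P z))) = cut H (H.tc P z)) :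
    ∃ J C, TwA H Z c J C := by
  have ge := ge H
  have a1 := alg1
  have a2 := alg2
  have hext : ∀ a, ExtFacts W (H.X a) := fun a => by
    obtain ⟨q, hq, hqt⟩ := (hpd a).2
    have hqt' : W.tr (H.X a) (H.ξ a ^ H.n a) = (q : ℂ) := hqt
    have hq0 : (q : ℂ) ≠ 0 := by exact_mod_cast hq.ne'
    exact Ext1.extFacts H.hW (H.mem a) (hAb a) ⟨_, by rw [hqt']; exact hq0⟩
  -- the real structures
  choose Jl hJl using fun a => JaT.exists_leaf H alg1 hg ge staB a (hext a)
  have hl : ∀ a, IsRS W (H.X a) (H.n a) (H.ξ a) (H.Lam a) (Jl a) := fun a =>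
    JaT.leaf_rs H alg1 hg ge staB AV48.hr a (hAb a) (hext a) (hpd a) (hJl a)
  have rs := fun P => (JaT.JR H Jl hl mainRsp P).2
  have hprod := JaT.JR_prod H Jl hl mainRsp
  have hmul0 : ∀ (a : Fin m) (x y : W.coh (H.X a)), (JaT.JR H Jl hl mainRsp (.leaf a)).1 (x * y)
      = (JaT.JR H Jl hl mainRsp (.leaf a)).1 x * (JaT.JR H Jl hl mainRsp (.leaf a)).1 y :=
    fun a => (hJl a).mul
  have hon1 : ∀ (a : Fin m), ∀ v ∈ W.gr (H.X a) 1, (JaT.JR H Jl hl mainRsp (.leaf a)).1 v
      = GJ.J H alg1 g (.leaf a) v := fun a => (hJl a).on1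
  obtain ⟨J, hJ⟩ : ∃ J : ∀ P : Prd m, W.coh (P.obj H.X) →ₛₗ[starRingEnd ℂ] W.coh (P.obj H.X),
      ∀ P, (JaT.JR H Jl hl mainRsp P).1 = J P := ⟨fun P => (JaT.JR H Jl hl mainRsp P).1,
        fun _ => rfl⟩
  simp only [hJ] at rs hprod hmul0 hon1
  have hmul := mul_all H rs hprod hmul0
  have hs : ∀ P, Function.Surjective (J P) := fun P => Jl85.surj_of_rs H (rs P)
  have hinj : ∀ P (x : W.coh (P.obj H.X)), J P x = 0 → x = 0 := by
    intro P x hx
    by_contra h0
    obtain ⟨r, hr, h⟩ := (rs P).pos x h0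
    rw [hx] at h
    have h1 : psi W (P.obj H.X) (P.pol W H.ξ) (H.LamP P) (rs P).slm.internal x 0 = 0 := by
      rw [psi, map_zero, mul_zero, map_zero]
    rw [h1] at h
    exact hr.ne' (by exact_mod_cast h.symm)
  have hinj' : ∀ P (x y : W.coh (P.obj H.X)), J P x = J P y → x = y := by
    intro P x y hxy
    exact sub_eq_zero.1 (hinj P _ (by rw [map_sub, hxy, sub_self]))
  -- the families for `c` and its inverse
  have hci := (a1.G_inv H.D c hc)
  obtain ⟨K₁, S₁⟩ := exists_K H a1 hg hci.1 ge hAb hpd hext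
  obtain ⟨K₂, S₂⟩ := exists_K H a1 hg hc ge hAb hpd hext
  have fix₁ : ∀ (P : Prd m) (z : W.coh (P.obj H.X)), z ∈ Z P → K₁ P z = z :=
    fun P z hz => (EndM.fam_of_ksys H a1 a2 hg hci.1 S₁).fix_set H hAb hZ hpush
      (fun P z hz => by
        have h1 : K₁ P (Z1 H P z) = jc H a1 g c⁻¹ P (Z1 H P z) :=
          K_sum H a1 a2 hg hci.1 ge S₁ P fun w hw => cut_off H _ hw
        rw [h1]
        refine ge.inj P ?_
        rw [tc_jc H a1 hg hci.1 ge, tc_Z1 H ge, TT, hfix P z hz, ← a1.gT_mul, hci.2.2,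
          a1.gT_one]) P z hz
  have fix₂ : ∀ (P : Prd m) (z : W.coh (P.obj H.X)), z ∈ Z P → K₂ P z = z :=
    fun P z hz => (EndM.fam_of_ksys H a1 a2 hg hc S₂).fix_set H hAb hZ hpush
      (fun P z hz => by
        have h1 : K₂ P (Z1 H P z) = jc H a1 g c P (Z1 H P z) :=
          K_sum H a1 a2 hg hc ge S₂ P fun w hw => cut_off H _ hw
        rw [h1]
        refine ge.inj P ?_
        rw [tc_jc H a1 hg hc ge, tc_Z1 H ge, TT, hfix P z hz, hsq P z hz]) P z hz
  -- the inverse of `J`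
  choose R hR using hs
  have hRJ : ∀ P x, R P (J P x) = x := fun P x => hinj' P _ _ (hR P (J P x))
  let C : ∀ P : Prd m, W.coh (P.obj H.X) →ₗ[ℂ] W.coh (P.obj H.X) := fun P =>
    { toFun := fun x => K₂ P (R P x)
      map_add' := fun x y => by
        have e : R P (x + y) = R P x + R P y := hinj' P _ _ (by rw [map_add, hR, hR, hR])
        rw [e, map_add]
      map_smul' := fun t x => by
        have e : R P (t • x) = starRingEnd ℂ t • R P x := hinj' P _ _ (by
          rw [LinearMap.map_smulₛₗ, hR, hR, Complex.conj_conj])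
        rw [e, LinearMap.map_smulₛₗ, Complex.conj_conj, RingHom.id_apply] }
  have hC : ∀ P x, C P (J P x) = K₂ P x := fun P x => by
    change K₂ P (R P (J P x)) = K₂ P x
    rw [hRJ]
  have hJ1 : ∀ P, J P 1 = 1 := fun P => (rs P).one
  have hJgr : ∀ (P : Prd m) (i : ℕ), ∀ v ∈ W.gr (P.obj H.X) i, ∃ y ∈ W.gr (P.obj H.X) i, J P y = v := fun P i =>
    surj_gr H.hW (H.memP P) i (J P) (fun x hx => (rs P).gr i x hx) (fun x _ hx0 => hinj P x hx0)
  have hone : ∀ P, C P 1 = 1 := fun P => by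
    have := hC P 1
    rwa [hJ1, S₂.js.one] at this
  have hCmul : ∀ P (x y : W.coh (P.obj H.X)), C P (x * y) = C P x * C P y := by
    intro P x y
    rw [← hR P x, ← hR P y, ← hmul, hC, hC, hC, S₂.mul]
  have hCgr : ∀ P i (x : W.coh (P.obj H.X)), x ∈ W.gr (P.obj H.X) i →
      C P x ∈ W.gr (P.obj H.X) i := by
    intro P i x hx
    obtain ⟨y, hy, rfl⟩ := hJgr P i x hx
    rw [hC]
    exact S₂.js.gr P i y hy
  have hCprod : ∀ (P Q : Prd m) (y : W.coh (P.obj H.X)) (x : W.coh (Q.obj H.X)),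
      C (.prod P Q) (W.pull (fst (P.obj H.X) (Q.obj H.X)) y
        * W.pull (snd (P.obj H.X) (Q.obj H.X)) x)
      = W.pull (fst (P.obj H.X) (Q.obj H.X)) (C P y)
        * W.pull (snd (P.obj H.X) (Q.obj H.X)) (C Q x) := by
    intro P Q y x
    have h1 := hC (.prod P Q) (W.pull (fst (P.obj H.X) (Q.obj H.X)) (R P y)
      * W.pull (snd (P.obj H.X) (Q.obj H.X)) (R Q x))
    rw [hprod, S₂.js.prod, hR, hR] at h1
    exact h1
  have hCon : ∀ (a : Fin m) (v : W.coh (H.X a)), v ∈ W.gr (H.X a) 1 →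
      H.tc (.leaf a) (C (.leaf a) v) = gT c (H.tc (.leaf a) v) := by
    intro a v hv
    obtain ⟨y, hy, hyv⟩ := hJgr (.leaf a) 1 v hv
    have e1 : C (.leaf a) v = K₂ (.leaf a) y := by rw [← hyv, hC]
    have e2 : K₂ (.leaf a) y = jc H a1 g c (.leaf a) y := S₂.on1 a y hy
    have e3 : J (.leaf a) y = GJ.J H alg1 g (.leaf a) y := hon1 a y hy
    rw [e1, e2, tc_jc H a1 hg hc ge, ← hyv, e3, GJ.tc_J H alg1 hg ge]
    rfl
  -- `C ∘ K₁ = J`
  let B : ∀ P : Prd m, W.coh (P.obj H.X) →ₛₗ[starRingEnd ℂ] W.coh (P.obj H.X) := fun P =>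
    { toFun := fun x => C P (K₁ P x)
      map_add' := fun x y => by rw [map_add, map_add]
      map_smul' := fun t x => by rw [LinearMap.map_smulₛₗ, map_smul] }
  have hB : ∀ P x, B P x = J P x := by
    intro P
    induction P with
    | leaf a =>
      refine ext_leaf (hAb a) (B (.leaf a)) (J (.leaf a)) ?_ (hJ1 (.leaf a)) ?_
        (hmul (.leaf a)) ?_
      · have e := congrArg (C (.leaf a)) (S₁.js.one (.leaf a))
        exact e.trans (hone (.leaf a))
      · intro x y
        have e := congrArg (C (.leaf a)) (S₁.mul (.leaf a) x y)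
        exact e.trans (hCmul (.leaf a) (K₁ (.leaf a) x) (K₁ (.leaf a) y))
      · intro v hv
        refine ge.inj (.leaf a) ?_
        have e1 : K₁ (.leaf a) v = jc H a1 g c⁻¹ (.leaf a) v := S₁.on1 a v hv
        have e2 : K₁ (.leaf a) v ∈ W.gr (H.X a) 1 := S₁.js.gr (.leaf a) 1 v hv
        have e3 : J (.leaf a) v = GJ.J H alg1 g (.leaf a) v := hon1 a v hv
        have e4 := hCon a (K₁ (.leaf a) v) e2
        have e5 := tc_jc H a1 hg hci.1 ge (.leaf a) v
        have e6 : gT c (H.tc (.leaf a) (K₁ (.leaf a) v)) = GJ.JT H.D g (H.tc (.leaf a) v) := by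
          rw [e1]
          refine (congrArg (gT c) e5).trans ?_
          rw [TT, ← a1.gT_mul, hci.2.1, a1.gT_one]
        refine (e4.trans e6).trans ?_
        exact ((congrArg (H.tc (.leaf a)) e3).trans
          (GJ.tc_J H alg1 hg ge (.leaf a) v)).symm
    | prod P Q hP hQ =>
      intro x
      refine ext_semi H.hW (H.memP P) (H.memP Q) (B (.prod P Q)) (J (.prod P Q)) (fun y x => ?_) x
      have e1 := hprod P Q y x
      have e2 := congrArg (C (.prod P Q)) (S₁.js.prod P Q y x)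
      have e3 := hCprod P Q (K₁ P y) (K₁ Q x)
      have e4 : C P (K₁ P y) = J P y := hP y
      have e5 : C Q (K₁ Q x) = J Q x := hQ x
      rw [e4, e5] at e3
      exact (e2.trans e3).trans e1.symm
  have halg : ∀ P : Prd m, ∀ z ∈ Z P, J P z = C P z := by
    intro P z hz
    rw [← hB P z]
    change C P (K₁ P z) = C P z
    rw [fix₁ P z hz]
  refine ⟨J, C, rs, fun P => hrStr_of_rs H.hW (H.memP P) (H.lamP P).2 (H.lamP P).1 (rs P)
    (hmul P), hprod, hmul, hone, hCmul, hCgr, ?_, hCprod, hCon, halg, ?_⟩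
  · intro P x
    rw [← hR P x, hC]
    have h1 := (rs P).tr (R P x) 1
    have h2 := S₂.js.tr P (R P x) 1
    rw [hJ1, mul_one, mul_one] at h1
    rw [S₂.js.one, mul_one, mul_one] at h2
    rw [h1, h2]
  · intro P z hz
    rw [← halg P z hz, hC, fix₂ P z hz]

namespace TwA

variable {H} {Z : ∀ P : Prd m, Set (W.coh (P.obj H.X))} {c : Matrix H.I H.I ℂ}
  {J : ∀ P : Prd m, W.coh (P.obj H.X) →ₛₗ[starRingEnd ℂ] W.coh (P.obj H.X)}
  {C : ∀ P : Prd m, W.coh (P.obj H.X) →ₗ[ℂ] W.coh (P.obj H.X)} (T : TwA H Z c J C)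

include T

/-- `J = C` on the real span of the classes -/
theorem real_span (P : Prd m) {x : W.coh (P.obj H.X)} (hx : x ∈ Submodule.span ℝ (Z P)) :
    J P x = C P x := by
  induction hx using Submodule.span_induction with
  | mem z hz => exact T.alg P z hz
  | zero => rw [map_zero, map_zero]
  | add a b _ _ ha hb => rw [map_add, map_add, ha, hb]
  | smul t a _ ha =>
    have e : t • a = (t : ℂ) • a := (Complex.coe_smul t a).symm
    rw [e, LinearMap.map_smulₛₗ, Complex.conj_ofReal, ha, map_smul]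

/-- **Positivity**: the form twisted by `C`, on the real span of the classes -/
theorem pos (P : Prd m) (η : W.coh (P.obj H.X)) (hη : IsPol W H.ξ P η) (j : ℕ)
    (hj : 2 * j ≤ P.dim H.n) (x : W.coh (P.obj H.X))
    (hx : x ∈ Submodule.span ℝ {z | W.IsAlg (P.obj H.X) j z ∧ z ∈ Z P})
    (hx1 : W.cup (η ^ (P.dim H.n - 2 * j + 1)) x = 0) (hx0 : x ≠ 0) :
    ∃ r : ℝ, 0 < r ∧
      (-1) ^ j * W.Tr (W.cup (η ^ (P.dim H.n - 2 * j)) (W.cup x (C P x))) = (r : ℂ) := by
  obtain ⟨L, hL⟩ := pol_rs H T.rs T.jprod hη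
  have hηa := GQ.pol_alg H hη
  have hcomm : ∀ (r : ℕ) (x : W.coh (P.obj H.X)), η ^ r * x = x * η ^ r := by
    intro r x
    induction r with
    | zero => simp
    | succ r ih =>
      rw [pow_succ, mul_assoc, H.hW.alg_comm (H.memP P) hηa x, ← mul_assoc, ih, mul_assoc]
  have hxg : x ∈ W.gr (P.obj H.X) (2 * j) := by
    clear hx0 hx1
    induction hx using Submodule.span_induction with
    | mem z hz => exact H.hW.alg_gr (H.memP P) hz.1
    | zero => exact zero_mem _
    | add a b _ _ ha hb => exact add_mem ha hb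
    | smul t a _ ha =>
      have e : t • a = (t : ℂ) • a := (Complex.coe_smul t a).symm
      rw [e]
      exact Submodule.smul_mem _ _ ha
  have hJx : J P x = C P x := T.real_span P (Submodule.span_mono (fun z hz => hz.2) hx)
  obtain ⟨r, hr, h⟩ := pos_rs H.hW (H.memP P) hcomm hL hj hxg hx1 hx0
  refine ⟨r, hr, ?_⟩
  rw [hJx, StaB.sgn_even] at h
  exact h

end TwA

/-! ### Numerical equivalence -/

/-- `ψ` is symmetric on algebraic classes -/
theorem psi_symm (P : Prd m) {t x : W.coh (P.obj H.X)} (ht : t ∈ tot W (P.obj H.X)) :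
    H.psiP P x t = H.psiP P t x := by
  obtain ⟨DP, hPalg⟩ := H.lamP P
  refine tot_induction H.hW (P := fun t => H.psiP P x t = H.psiP P t x) ht ?_ ?_
  · intro l t ht
    have h := GB.psi_symm_gr H.hW staB (H.memP P) hPalg DP x (H.hW.alg_gr (H.memP P) ht)
    rw [(even_two_mul l).neg_one_pow, one_mul] at h
    exact h
  · intro a b ha hb
    have h1 := psi_add_right (W := W) (X := P.obj H.X) (ξ := P.pol W H.ξ) (Lam := H.LamP P)
      (H.lamP P).1.slm.internal x a b
    have h2 := psi_add_left (W := W) (X := P.obj H.X) (ξ := P.pol W H.ξ) (Lam := H.LamP P)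
      (H.lamP P).1.slm.internal a b x
    have h1' : H.psiP P x (a + b) = H.psiP P x a + H.psiP P x b := h1
    have h2' : H.psiP P (a + b) x = H.psiP P a x + H.psiP P b x := h2
    rw [h1', h2', ha, hb]

/-- the adjoints of the pull-backs on complex combinations -/
theorem push_span {Z : ∀ P : Prd m, Set (W.coh (P.obj H.X))} (hpush : PushSt H Z) (P Q : Prd m)
    (f : Sch.Mor (P.obj H.X) (Q.obj H.X)) (hf : CoordMor H.X 3 P Q f) {z : W.coh (P.obj H.X)}
    (hz : z ∈ Submodule.span ℂ (Z P)) : ∃ z'' ∈ Submodule.span ℂ (Z Q),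
      ∀ x : W.coh (Q.obj H.X), H.psiP Q x z'' = H.psiP P (W.pull f x) z := by
  have add : ∀ (R : Prd m) (x a b : W.coh (R.obj H.X)),
      H.psiP R x (a + b) = H.psiP R x a + H.psiP R x b := fun R x a b => psi_add_right _ x a b
  have sm : ∀ (R : Prd m) (t : ℂ) (x a : W.coh (R.obj H.X)),
      H.psiP R x (t • a) = t * H.psiP R x a := fun R t x a => psi_smul_right _ t x a
  induction hz using Submodule.span_induction with
  | mem z hz =>
    obtain ⟨z'', h1, h2⟩ := hpush P Q f hf z hz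
    exact ⟨z'', Submodule.subset_span h1, h2⟩
  | zero =>
    refine ⟨0, zero_mem _, fun x => ?_⟩
    have h1 := sm Q 0 x 0
    have h2 := sm P 0 (W.pull f x) 0
    rw [zero_smul, zero_mul] at h1 h2
    rw [h1, h2]
  | add a b _ _ ha hb =>
    obtain ⟨a', h1, h2⟩ := ha
    obtain ⟨b', h3, h4⟩ := hb
    exact ⟨a' + b', add_mem h1 h3, fun x => by rw [add, add, h2, h4]⟩
  | smul t a _ ha =>
    obtain ⟨a', h1, h2⟩ := ha
    exact ⟨t • a', Submodule.smul_mem _ _ h1, fun x => by rw [sm, sm, h2]⟩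

theorem psi_span_symm {Z : ∀ P : Prd m, Set (W.coh (P.obj H.X))}
    (hZ : ∀ P, ∀ z ∈ Z P, z ∈ tot W (P.obj H.X)) (P : Prd m) {t x : W.coh (P.obj H.X)}
    (ht : t ∈ Submodule.span ℂ (Z P)) : H.psiP P x t = H.psiP P t x := by
  have add : ∀ x a b : W.coh (P.obj H.X),
      H.psiP P x (a + b) = H.psiP P x a + H.psiP P x b := fun x a b => psi_add_right _ x a b
  have add' : ∀ x a b : W.coh (P.obj H.X),
      H.psiP P (a + b) x = H.psiP P a x + H.psiP P b x := fun x a b => psi_add_left _ a b x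
  have sm : ∀ (t : ℂ) (x a : W.coh (P.obj H.X)),
      H.psiP P x (t • a) = t * H.psiP P x a := fun t x a => psi_smul_right _ t x a
  have sm' : ∀ (t : ℂ) (x a : W.coh (P.obj H.X)),
      H.psiP P (t • a) x = t * H.psiP P a x := fun t x a => psi_smul_left _ t a x
  induction ht using Submodule.span_induction with
  | mem t ht => exact psi_symm H P (hZ P t ht)
  | zero =>
    have h1 := sm 0 x 0
    have h2 := sm' 0 x 0
    rw [zero_smul, zero_mul] at h1 h2
    rw [h1, h2]
  | add a b _ _ ha hb => rw [add, add', ha, hb]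
  | smul c a _ ha => rw [sm, sm', ha]

/-- **Numerical and homological equivalence agree** on the complex span of the classes in `Z`, if
this is true for the tensors of degree one. -/
theorem num_of_nd {W : CohomologyData.{u, 0, w} k ℂ} {𝒱 : VarietyClass k} (H : Host W 𝒱 1)
    (hAb : ∀ a, AbelianType W (H.X a) (H.n a)) {Z : ∀ P : Prd 1, Set (W.coh (P.obj H.X))}
    (hZ : ∀ P, ∀ z ∈ Z P, z ∈ tot W (P.obj H.X)) (hpush : PushSt H Z)
    (hnd : ∀ (P : Prd 1),
      ∀ u ∈ Submodule.span ℂ ((fun z : W.coh (P.obj H.X) => cut1 H (H.tc P z)) '' Z P), u ≠ 0 →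
      ∃ v, E.atS H.D (0, 1) (fun L u => u ∈ H.At L) P.size v ∧
        psiT (E.subD H.D (0, 1)) u v ≠ 0)
    (P : Prd 1) {x : W.coh (P.obj H.X)} (hx : x ∈ Submodule.span ℂ (Z P))
    (hnum : ∀ y ∈ tot W (P.obj H.X), W.tr (P.obj H.X) (x * y) = 0) : x = 0 := by
  have hnum' : ∀ t ∈ tot W (P.obj H.X), H.psiP P t x = 0 := by
    intro t ht
    rw [← psi_symm H P ht]
    obtain ⟨DP, hPalg⟩ := H.lamP P
    exact hnum _ (AlgOp.apply H.hW (H.memP P) (algOp_star H.hW (H.memP P) hPalg DP) ht)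
  have hlin : ∀ a b v : W.coh (P.obj H.X), H.psiP P (a + b) v = H.psiP P a v + H.psiP P b v :=
    fun a b v => psi_add_left _ a b v
  have hsm : ∀ (t : ℂ) (a v : W.coh (P.obj H.X)), H.psiP P (t • a) v = t * H.psiP P a v :=
    fun t a v => psi_smul_left _ t a v
  let T : Submodule ℂ (W.coh (P.obj H.X)) :=
    { carrier := {y | H.psiP P y x = 0}
      add_mem' := fun {a b} ha hb => by
        change H.psiP P (a + b) x = 0
        rw [hlin, ha, hb, add_zero]
      zero_mem' := by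
        change H.psiP P 0 x = 0
        have := hsm 0 0 x
        rwa [zero_smul, zero_mul] at this
      smul_mem' := fun t a ha => by
        change H.psiP P (t • a) x = 0
        rw [hsm, ha, mul_zero] }
  have hT : T = ⊤ := by
    refine span_top H (ge H) staB hAb P T ?_ ?_
    · exact hnum' 1 (one_tot H.hW (H.memP P))
    · rintro y ⟨n, b, f, w, hf, hw, rfl⟩
      obtain ⟨F, hF, hE⟩ := exists_map H P n b f hf
      rw [← hE]
      obtain ⟨v, hvd, hv⟩ : ∃ v : Fin (GP.N n b).size → H.I, D1 H v ∧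
          GP.E' H n b w = H.E (GP.N n b) v := by
        refine ⟨w ∘ Fin.cast (GP.size_N n b), fun i => ?_, ?_⟩
        · rw [Function.comp_apply, hw]
        · rw [GP.E_eq]
          rfl
      rw [hv]
      change H.psiP P (W.pull F (H.E (GP.N n b) v)) x = 0
      obtain ⟨x'', hx'', key⟩ := push_span H hpush P (GP.N n b) F hF hx
      rw [← key]
      -- the tensor of degree one of `x''`
      have h1 : cut1 H (H.tc (GP.N n b) x'') = 0 := by
        by_contra h0
        have h2 : cut1 H (H.tc (GP.N n b) x'') ∈ Submodule.span ℂ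
            ((fun z : W.coh ((GP.N n b).obj H.X) => cut1 H (H.tc (GP.N n b) z)) ''
              Z (GP.N n b)) := by
          have h3 : ∀ z ∈ Submodule.span ℂ (Z (GP.N n b)),
              cut1 H (H.tc (GP.N n b) z) ∈ Submodule.span ℂ
              ((fun z : W.coh ((GP.N n b).obj H.X) => cut1 H (H.tc (GP.N n b) z)) ''
                Z (GP.N n b)) := by
            intro z hz
            induction hz using Submodule.span_induction with
            | mem z hz => exact Submodule.subset_span ⟨z, hz, rfl⟩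
            | zero =>
              rw [map_zero]
              exact zero_mem _
            | add a b _ _ ha hb =>
              rw [map_add]
              exact add_mem ha hb
            | smul c a _ ha =>
              rw [map_smul]
              exact Submodule.smul_mem _ c ha
          exact h3 _ hx''
        obtain ⟨v', hv', hne⟩ := hnd (GP.N n b) _ h2 h0
        obtain ⟨y', hy', hy1⟩ := PosL.at_fit H (gr ge H) (ge H) (GP.N n b) hv'
        have hy2 : H.tc (GP.N n b) y' = E.ext0 H.D (0, 1) v' := by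
          funext w'
          rw [hy1, if_neg]
          rintro ⟨j, hj⟩
          exact hj (Subsingleton.elim _ _)
        apply hne
        have e1 : psiT (E.subD H.D (0, 1)) (cut1 H (H.tc (GP.N n b) x'')) v'
            = H.psiP (GP.N n b) x'' y' := by
          rw [← E.psiT_ext, ext_cut1, ← hy2, ← tc_Z1 H (ge H), (ge H).psi_tc]
          have e2 := psi_Z1 H (ge H) (GP.N n b) (x := y') (fun w' hw' => by
            rw [hy2]
            exact E.ext0_off v' fun h => hw' ((on_iff H w').1 h)) x''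
          have e3 : H.psiP (GP.N n b) (Z1 H (GP.N n b) x'') y'
              = H.psiP (GP.N n b) y' (Z1 H (GP.N n b) x'') := psi_symm H (GP.N n b) hy'
          rw [e3, e2, ← psi_symm H (GP.N n b) hy']
        rw [e1, psi_symm H (GP.N n b) hy', key]
        refine hnum' _ ?_
        exact tot_pull H.hW (H.memP P) (H.memP (GP.N n b)) F hy'
      have h4 : Z1 H (GP.N n b) x'' = 0 := by
        refine (ge H).inj (GP.N n b) ?_
        rw [tc_Z1 H (ge H), ← ext_cut1, h1, map_zero, map_zero]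
      rw [← psi_Z1 H (ge H) (GP.N n b) (tc_E1 H (ge H) (GP.N n b) hvd) x'', h4]
      have := psi_smul_right (W := W) (X := (GP.N n b).obj H.X) (ξ := (GP.N n b).pol W H.ξ)
        (Lam := H.LamP (GP.N n b)) (H.lamP (GP.N n b)).1.slm.internal 0
        (H.E (GP.N n b) v) 0
      rwa [zero_smul, zero_mul] at this
  refine nd_right H P x fun y => ?_
  have : y ∈ T := by rw [hT]; trivial
  exact this

/-! ### One factor -/

/-- `EndC.exists_tw1` for the classes in `Z` -/
theorem exists_twA1 {W : CohomologyData.{u, 0, w} k ℂ} {𝒱 : VarietyClass k} (H : Host W 𝒱 1)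
    (hAb : ∀ a, AbelianType W (H.X a) (H.n a))
    (hpd : ∀ a, PositiveDivisor W (H.X a) (H.n a) (H.ξ a))
    {Z : ∀ P : Prd 1, Set (W.coh (P.obj H.X))}
    (hZ : ∀ P, ∀ z ∈ Z P, z ∈ tot W (P.obj H.X)) (hpush : PushSt H Z)
    {x C : Matrix (E.Sub H.D (0, 1)) (E.Sub H.D (0, 1)) ℂ}
    (hx : IsG (E.subD H.D (0, 1)) x) (hC : IsG (E.subD H.D (0, 1)) C)
    (heq : ∀ (P : Prd 1), ∀ z ∈ Z P,
      gT x (jT (E.subD H.D (0, 1)) (gT x⁻¹ (cut1 H (H.tc P z)))) = gT C (cut1 H (H.tc P z)))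
    (hsq : ∀ (P : Prd 1), ∀ z ∈ Z P,
      gT C (gT C (cut1 H (H.tc P z))) = cut1 H (H.tc P z)) :
    ∃ J Cf, TwA H Z (mex H.D (0, 1) C) J Cf := by
  refine exists_twA H hAb hpd hZ hpush (isG_mex x hx) (isG_mex C hC) (fun P z hz => ?_)
    fun P z hz => ?_
  · rw [← ext_cut1, JT_ext x alg1 hx, heq P z hz, gT_mex]
  · rw [← ext_cut1, gT_mex, gT_mex, hsq P z hz]

end EndM

end Pool.Agent.Lib.MP_361a6f_ag.FL
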