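import Pool.Agent.Lib.MP_361a6f_ag.FL.E.StatE

/-!
# Theorem B+ in one codimension: the classes detected by the divisor classes of the reduction
-/

open CategoryTheory AlgebraicGeometry MonoidalCategory CartesianMonoidalCategory

universe u v w w'

namespace Pool.Agent.Lib.MP_361a6f_ag.FL

open Pool.Agent.Lib.MP_361a6f_ag.H3 Pool.Agent.Lib.MP_361a6f_ag.SQ

/-- `Q1` for `(Y, η)` in codimension `j`, for all algebraic classes. -/
def EQ.Q1At {k : Type u} [Field k] (W : CohomologyData.{u, 0, w} k ℂ) (Y : Sch k) (n : ℕ)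
    (η : W.coh Y) (j : ℕ) : Prop :=
  ∀ x, 2 * j ≤ n → W.IsAlg Y j x → W.cup (η ^ (n - 2 * j + 1)) x = 0 → x ≠ 0 →
    RatPos ((-1) ^ j * W.Tr (W.cup (η ^ (n - 2 * j)) (W.cup x x)))

/-- Numerical and homological equivalence agree in codimension `j` on `Y`, with complex
coefficients. -/
def EQ.NumHomAt {k : Type u} [Field k] (W : CohomologyData.{u, 0, w} k ℂ) (Y : Sch k) (j : ℕ) :
    Prop :=
  ∀ x, x ∈ Submodule.span ℂ {z | W.IsAlg Y j z} →
    (∀ l y, W.IsAlg Y l y → W.Tr (W.cup x y) = 0) → x = 0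

/-- The specialisation of every algebraic class `z ≠ 0` of codimension `j` on a product of `2 j`
copies of `X` has a non-zero intersection number with a product of divisor classes. -/
def EQ.DetectedAt {k : Type u} [Field k] {W : CohomologyData.{u, 0, w} k ℂ} {k' : Type v}
    [Field k'] {W' : CohomologyData.{v, 0, w'} k' ℂ} (D : EQ.Data W W') (j : ℕ) : Prop :=
  ∀ P : Prd 1, P.size = 2 * j → ∀ z, W.IsAlg (EQ.pw D.X P) j z → z ≠ 0 →
    ∃ L : List (W'.coh (EQ.pw D.X' P)), (∀ d ∈ L, W'.IsAlg (EQ.pw D.X' P) 1 d) ∧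
      W'.Tr (W'.cup (D.s P z) L.prod) ≠ 0

/-- **Theorem B+ in codimension `j`.** If the specialisations of the non-zero algebraic classes of
codimension `j` on the products of `2 j` copies of `X` have non-zero intersection numbers with
products of divisor classes of the reduction, then on all powers of `X` the statement `Q1` holds in
codimension `j` for all algebraic classes, and numerical equivalence is homological equivalence in
codimension `j`. (No condition on the endomorphisms of `X`.) -/
def ThmBJGeoStatement : Prop :=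
  ∀ {k : Type u} [Field k] (W : CohomologyData.{u, 0, w} k ℂ) (𝒱 : VarietyClass k)
    (_ : IsWeilCohomology W 𝒱) {k' : Type v} [Field k'] (W' : CohomologyData.{v, 0, w'} k' ℂ)
    (𝒱' : VarietyClass k') (_ : IsWeilCohomology W' 𝒱') (D : EQ.Data W W') (_ : EQ.Hyp 𝒱 𝒱' D)
    (j : ℕ) (_ : EQ.DetectedAt D j)
    (P : Prd 1) (η : W.coh (EQ.pw D.X P)) (_ : IsPol W (fun _ => D.ξ) P η),
    EQ.Q1At W (EQ.pw D.X P) (P.dim fun _ => D.g) η j ∧ EQ.NumHomAt W (EQ.pw D.X P) j

end Pool.Agent.Lib.MP_361a6f_ag.FL
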