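import Pool.Agent.Lib.MP_361a6f_ag.FL.E.EndH
import Pool.Agent.Lib.MP_361a6f_ag.FL.E.StatE

/-!
# Theorem E, the end: numerical and homological equivalence with complex coefficients
-/

open CategoryTheory AlgebraicGeometry MonoidalCategory CartesianMonoidalCategory

universe u v w

set_option autoImplicit false
set_option linter.unusedSectionVars false

namespace Pool.Agent.Lib.MP_361a6f_ag.FL

open Pool.Agent.Lib.MP_361a6f_ag.H3 Pool.Agent.Lib.MP_361a6f_ag.SQ
  Pool.Agent.Lib.MP_361a6f_ag.PP

namespace EndE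

variable {k : Type u} [Field k] {m : ℕ} {W : CohomologyData.{u, 0, w} k ℂ} {𝒱 : VarietyClass k}

/-- Numerically trivial complex combinations of algebraic classes are zero. -/
theorem endNC (H : Host W 𝒱 m) (hAb : ∀ a, AbelianType W (H.X a) (H.n a))
    (hpd : ∀ a, PositiveDivisor W (H.X a) (H.n a) (H.ξ a)) (hpos : Pos1 H) (P : Prd m)
    {x : W.coh (P.obj H.X)}
    (hx : x ∈ Submodule.span ℂ {z : W.coh (P.obj H.X) | z ∈ tot W (P.obj H.X)})
    (hnum : ∀ y ∈ tot W (P.obj H.X), W.tr (P.obj H.X) (x * y) = 0) : x = 0 := by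
  obtain ⟨J, rs, -, -, hfix⟩ := endE H hAb hpd hpos
  by_contra h0
  obtain ⟨r, hr, h⟩ := (rs P).pos x h0
  obtain ⟨DP, hPalg⟩ := H.lamP P
  have key : ∀ y ∈ Submodule.span ℂ {z : W.coh (P.obj H.X) | z ∈ tot W (P.obj H.X)},
      H.psiP P x (J P y) = 0 := by
    intro y hy
    induction hy using Submodule.span_induction with
    | mem z hz =>
      rw [hfix P z hz]
      exact hnum _ (AlgOp.apply H.hW (H.memP P) (algOp_star H.hW (H.memP P) hPalg DP) hz)
    | zero =>
      have h1 := psi_smul_right (W := W) (X := P.obj H.X) (ξ := P.pol W H.ξ) (Lam := H.LamP P)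
        (H.lamP P).1.slm.internal 0 x 0
      rw [zero_smul, zero_mul] at h1
      rw [map_zero]
      exact h1
    | add a b _ _ ha hb =>
      have h1 := psi_add_right (W := W) (X := P.obj H.X) (ξ := P.pol W H.ξ) (Lam := H.LamP P)
        (H.lamP P).1.slm.internal x (J P a) (J P b)
      rw [map_add]
      refine h1.trans ?_
      change H.psiP P x (J P a) + H.psiP P x (J P b) = 0
      rw [ha, hb, add_zero]
    | smul c a _ ha =>
      have h1 := psi_smul_right (W := W) (X := P.obj H.X) (ξ := P.pol W H.ξ) (Lam := H.LamP P)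
        (H.lamP P).1.slm.internal (starRingEnd ℂ c) x (J P a)
      rw [LinearMap.map_smulₛₗ]
      refine h1.trans ?_
      change starRingEnd ℂ c * H.psiP P x (J P a) = 0
      rw [ha, mul_zero]
  have h2 : H.psiP P x (J P x) = (r : ℂ) := h
  rw [key x hx] at h2
  exact hr.ne' (by exact_mod_cast h2.symm)

/-- The same for classes of one codimension and with the words of the statement. -/
theorem numHom (H : Host W 𝒱 m) (hAb : ∀ a, AbelianType W (H.X a) (H.n a))
    (hpd : ∀ a, PositiveDivisor W (H.X a) (H.n a) (H.ξ a)) (hpos : Pos1 H) (P : Prd m) :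
    EQ.NumHom W (P.obj H.X) := by
  intro j x hx hnum
  refine endNC H hAb hpd hpos P (Submodule.span_mono (fun z hz => ?_) hx) fun y hy => ?_
  · exact alg_le_tot H.hW _ j hz
  · refine tot_induction H.hW (P := fun y => W.tr (P.obj H.X) (x * y) = 0) hy ?_ ?_
    · intro l y hy
      exact hnum l y hy
    · intro y y' h h'
      rw [mul_add, map_add, h, h', add_zero]

/-- `Q1` in the words of the statement. -/
theorem q1 (H : Host W 𝒱 m) (hAb : ∀ a, AbelianType W (H.X a) (H.n a))
    (hpd : ∀ a, PositiveDivisor W (H.X a) (H.n a) (H.ξ a)) (hpos : Pos1 H) (P : Prd m)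
    (η : W.coh (P.obj H.X)) (hη : IsPol W H.ξ P η) : EQ.Q1 W (P.obj H.X) (P.dim H.n) η :=
  fun j x hj hx hx1 hx0 => endQ H hAb hpd hpos P η hη j hj x hx trivial hx1 hx0

end EndE

end Pool.Agent.Lib.MP_361a6f_ag.FL
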