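import Pool.Agent.Lib.MP_361a6f_ag.FL.E.Defs
import Pool.Agent.Lib.MP_361a6f_ag.FL.Alg1
import Pool.Agent.Lib.MP_361a6f_ag.FL.Tan
import Pool.Agent.Lib.MP_361a6f_ag.FL.B.MinG

/-!
# The polar decomposition in the group, and the stabiliser of a minimal tuple
-/

set_option autoImplicit false
set_option linter.unusedSectionVars false

open Filter Topology Matrix
open scoped ComplexOrder

namespace Pool.Agent.Lib.MP_361a6f_ag.FL.E

namespace Pol

variable {I Λ : Type} [Fintype I] [DecidableEq I] [DecidableEq Λ] {D : Dat I Λ}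

theorem conj_pow {U : Matrix I I ℂ} (hU : Uᴴ * U = 1) (hU' : U * Uᴴ = 1) (M : Matrix I I ℂ)
    (n : ℕ) : (U * M * Uᴴ) ^ n = U * M ^ n * Uᴴ := by
  induction n with
  | zero => rw [pow_zero, pow_zero, Matrix.mul_one, hU']
  | succ n ih =>
    rw [pow_succ, ih, pow_succ]
    calc U * M ^ n * Uᴴ * (U * M * Uᴴ) = U * M ^ n * (Uᴴ * U) * M * Uᴴ := by
          simp only [Matrix.mul_assoc]
      _ = U * (M ^ n * M) * Uᴴ := by rw [hU]; simp only [Matrix.mul_assoc, Matrix.one_mul]

theorem aeval_conj {U : Matrix I I ℂ} (hU : Uᴴ * U = 1) (hU' : U * Uᴴ = 1) (d : I → ℂ)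
    (q : Polynomial ℂ) : Polynomial.aeval (U * diagonal d * Uᴴ) q =
      U * diagonal (fun i => q.eval (d i)) * Uᴴ := by
  induction q using Polynomial.induction_on' with
  | add p q hp hq =>
    rw [map_add, hp, hq]
    have h1 : diagonal (fun i => (p + q).eval (d i)) =
        diagonal (fun i => p.eval (d i)) + diagonal (fun i => q.eval (d i)) := by
      rw [diagonal_add]
      congr 1
      funext i
      exact Polynomial.eval_add
    rw [h1, Matrix.mul_add, Matrix.add_mul]
  | monomial n a =>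
    rw [Polynomial.aeval_monomial, conj_pow hU hU', diagonal_pow, Algebra.algebraMap_eq_smul_one,
      smul_mul_assoc, Matrix.one_mul]
    have h1 : diagonal (fun i => (Polynomial.monomial n a).eval (d i)) =
        a • diagonal (d ^ n) := by
      rw [← diagonal_smul]
      congr 1
      funext i
      rw [Polynomial.eval_monomial]
      rfl
    rw [h1, Matrix.mul_smul, Matrix.smul_mul]

theorem psi_star : (Psi D)ᴴ = (Psi D).transpose := by
  ext i j
  rw [conjTranspose_apply, transpose_apply]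
  unfold Psi
  rw [Matrix.of_apply]
  split_ifs with h
  · rcases D.s_val j with h' | h' <;> rw [h'] <;> simp
  · simp

/-- the group is closed under the hermitian adjoint -/
theorem isG_adj {y : Matrix I I ℂ} (hy : IsG D y) : IsG D yᴴ := by
  refine ⟨fun i j hij => ?_, ?_⟩
  · rw [conjTranspose_apply, hy.1 j i (Ne.symm hij), star_zero]
  · have h1 : ((Psi D).transpose * y.transpose * Psi D) * y = 1 := by
      rw [Matrix.mul_assoc, Matrix.mul_assoc, ← Matrix.mul_assoc y.transpose, hy.2,
        Tan.Psi_transpose_mul]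
    have h2 : y * ((Psi D).transpose * y.transpose * Psi D) = 1 := mul_eq_one_comm.1 h1
    have h3 : y * (Psi D).transpose * y.transpose = (Psi D).transpose := by
      calc y * (Psi D).transpose * y.transpose
          = y * (Psi D).transpose * y.transpose * (Psi D * (Psi D).transpose) := by
            rw [Tan.Psi_mul_transpose, Matrix.mul_one]
        _ = (y * ((Psi D).transpose * y.transpose * Psi D)) * (Psi D).transpose := by
            simp only [Matrix.mul_assoc]
        _ = _ := by rw [h2, Matrix.one_mul]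
    have h6 := congrArg Matrix.conjTranspose h3
    simp only [conjTranspose_mul] at h6
    have h7 : ((Psi D).transpose)ᴴ = Psi D := by
      rw [← psi_star, conjTranspose_conjTranspose]
    have h8 : (y.transpose)ᴴ = (yᴴ).transpose := by
      ext i j
      simp [conjTranspose_apply, transpose_apply]
    rw [h7, h8, ← Matrix.mul_assoc] at h6
    exact h6

/-- the block condition for polynomials in an element of the group -/
theorem blk_aeval {P : Matrix I I ℂ} (hP : IsG D P) (q : Polynomial ℂ) (i j : I)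
    (hij : D.typ i ≠ D.typ j) : (Polynomial.aeval P q) i j = 0 := by
  have hpow : ∀ n : ℕ, IsG D (P ^ n) := by
    intro n
    induction n with
    | zero => rw [pow_zero]; exact alg1.G_one D
    | succ n ih => rw [pow_succ]; exact alg1.G_mul D _ _ ih hP
  induction q using Polynomial.induction_on' with
  | add p q hp hq => rw [map_add, Matrix.add_apply, hp, hq, add_zero]
  | monomial n a =>
    rw [Polynomial.aeval_monomial, Algebra.algebraMap_eq_smul_one, smul_mul_assoc,
      Matrix.one_mul, Matrix.smul_apply, (hpow n).1 i j hij, smul_zero]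

/-- `Ψ q(P) = q(Q)ᵀ Ψ` if `Ψ P = Qᵀ Ψ` -/
theorem psi_aeval {P Q : Matrix I I ℂ} (h : Psi D * P = Q.transpose * Psi D)
    (q : Polynomial ℂ) : Psi D * Polynomial.aeval P q =
      (Polynomial.aeval Q q).transpose * Psi D := by
  have hpow : ∀ n : ℕ, Psi D * P ^ n = (Q ^ n).transpose * Psi D := by
    intro n
    induction n with
    | zero => rw [pow_zero, pow_zero, Matrix.transpose_one, Matrix.mul_one, Matrix.one_mul]
    | succ n ih =>
      rw [pow_succ, ← Matrix.mul_assoc, ih, Matrix.mul_assoc, h, ← Matrix.mul_assoc, pow_succ',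
        Matrix.transpose_mul]
  induction q using Polynomial.induction_on' with
  | add p q hp hq =>
    rw [map_add, map_add, Matrix.mul_add, hp, hq, Matrix.transpose_add, Matrix.add_mul]
  | monomial n a =>
    rw [Polynomial.aeval_monomial, Polynomial.aeval_monomial, Algebra.algebraMap_eq_smul_one,
      smul_mul_assoc, smul_mul_assoc, Matrix.one_mul, Matrix.one_mul, Matrix.transpose_smul,
      Matrix.mul_smul, Matrix.smul_mul, hpow]

/-- the logarithm of a positive element of the group is in the Lie algebra -/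
theorem log_mem {P U : Matrix I I ℂ} {p : I → ℝ} (hU : Uᴴ * U = 1) (hU' : U * Uᴴ = 1)
    (hp : ∀ i, 0 < p i) (hPU : P = U * diagonal (fun i => (p i : ℂ)) * Uᴴ) (hP : IsG D P) :
    IsLie D (U * diagonal (fun i => ((Real.log (p i) / 2 : ℝ) : ℂ)) * Uᴴ) := by
  classical
  set S : Finset ℝ := Finset.univ.image p ∪ Finset.univ.image (fun i => (p i)⁻¹) with hSd
  set q : Polynomial ℝ := Lagrange.interpolate S id (fun r => Real.log r / 2) with hq
  have hev : ∀ r ∈ S, q.eval r = Real.log r / 2 := fun r hr =>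
    Lagrange.eval_interpolate_at_node (v := id) (fun r => Real.log r / 2)
      (Set.injOn_id _) hr
  set Q : Polynomial ℂ := q.map (algebraMap ℝ ℂ) with hQ
  have hevQ : ∀ r ∈ S, Q.eval (r : ℂ) = ((Real.log r / 2 : ℝ) : ℂ) := by
    intro r hr
    have h1 : Q.eval ((algebraMap ℝ ℂ) r) = (algebraMap ℝ ℂ) (q.eval r) := by
      rw [hQ, Polynomial.eval_map_algebraMap, Polynomial.aeval_algebraMap_apply]
      rfl
    rw [hev r hr] at h1
    exact h1
  have e1 : U * diagonal (fun i => ((Real.log (p i) / 2 : ℝ) : ℂ)) * Uᴴ =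
      Polynomial.aeval P Q := by
    rw [hPU, aeval_conj hU hU']
    congr 3
    funext i
    exact (hevQ (p i) (Finset.mem_union_left _ (Finset.mem_image_of_mem _
      (Finset.mem_univ i)))).symm
  set P' : Matrix I I ℂ := U * diagonal (fun i => (((p i)⁻¹ : ℝ) : ℂ)) * Uᴴ with hP'
  have e2 : P' * P = 1 := by
    rw [hP', hPU]
    calc U * diagonal (fun i => (((p i)⁻¹ : ℝ) : ℂ)) * Uᴴ *
          (U * diagonal (fun i => (p i : ℂ)) * Uᴴ)
        = U * (diagonal (fun i => (((p i)⁻¹ : ℝ) : ℂ)) * ((Uᴴ * U) *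
          diagonal (fun i => (p i : ℂ)))) * Uᴴ := by simp only [Matrix.mul_assoc]
      _ = 1 := by
        rw [hU, Matrix.one_mul, diagonal_mul_diagonal]
        have h3 : (fun i => (((p i)⁻¹ : ℝ) : ℂ) * (p i : ℂ)) = fun _ => 1 := by
          funext i
          rw [← Complex.ofReal_mul, inv_mul_cancel₀ (hp i).ne', Complex.ofReal_one]
        rw [h3, diagonal_one, Matrix.mul_one, hU']
  have e3 : Polynomial.aeval P' Q =
      -(U * diagonal (fun i => ((Real.log (p i) / 2 : ℝ) : ℂ)) * Uᴴ) := by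
    rw [hP', aeval_conj hU hU', ← Matrix.neg_mul, ← Matrix.mul_neg, diagonal_neg]
    congr 3
    funext i
    rw [hevQ _ (Finset.mem_union_right _ (Finset.mem_image_of_mem (fun i => (p i)⁻¹)
      (Finset.mem_univ i))), Real.log_inv]
    push_cast
    ring
  have e4 : Psi D * P = P'.transpose * Psi D := by
    have h1 : P'.transpose * P.transpose = 1 := by
      rw [← Matrix.transpose_mul]
      rw [mul_eq_one_comm.1 e2, Matrix.transpose_one]
    calc Psi D * P = P'.transpose * P.transpose * (Psi D * P) := by rw [h1, Matrix.one_mul]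
      _ = P'.transpose * (P.transpose * Psi D * P) := by simp only [Matrix.mul_assoc]
      _ = _ := by rw [hP.2]
  refine ⟨fun i j hij => ?_, ?_⟩
  · rw [e1]
    exact blk_aeval hP Q i j hij
  · have h1 := psi_aeval e4 Q
    rw [← e1, e3, Matrix.transpose_neg, Matrix.neg_mul] at h1
    rw [h1, add_neg_cancel]

theorem exp_conj_diag {U : Matrix I I ℂ} (_ : Uᴴ * U = 1) (hU' : U * Uᴴ = 1) (a : I → ℂ) :
    NormedSpace.exp (U * diagonal a * Uᴴ) = U * diagonal (fun i => Complex.exp (a i)) * Uᴴ := by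
  have h1 : Uᴴ = U⁻¹ := (Matrix.inv_eq_right_inv hU').symm
  rw [h1, Matrix.exp_conj U _ (IsUnit.of_mul_eq_one _ hU'), Matrix.exp_diagonal]
  congr 3
  funext i
  rw [Pi.coe_exp, Complex.exp_eq_exp_ℂ]

theorem exp_isUnit (X : Matrix I I ℂ) : NormedSpace.exp (-X) * NormedSpace.exp X = 1 := by
  rw [← Matrix.exp_add_of_commute _ _ ((Commute.refl X).neg_left), neg_add_cancel,
    NormedSpace.exp_zero]

/-- the polar decomposition -/
theorem polar {y : Matrix I I ℂ} (hy : IsG D y) : ∃ (U : Matrix I I ℂ) (a : I → ℝ),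
    Uᴴ * U = 1 ∧ U * Uᴴ = 1 ∧ IsLie D (U * diagonal (fun i => (a i : ℂ)) * Uᴴ) ∧
    IsK D (y * NormedSpace.exp (-(U * diagonal (fun i => (a i : ℂ)) * Uᴴ))) := by
  obtain ⟨-, h1, h2⟩ := alg1.G_inv D y hy
  have hinj : Function.Injective y.mulVec := by
    intro v w hvw
    have h3 := congrArg (y⁻¹).mulVec hvw
    simpa only [Matrix.mulVec_mulVec, h2, Matrix.one_mulVec] using h3
  have hpos : (yᴴ * y).PosDef := Matrix.PosDef.conjTranspose_mul_self y hinj
  set hH := hpos.isHermitian with hHd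
  set U : Matrix I I ℂ := (hH.eigenvectorUnitary : Matrix I I ℂ) with hUd
  set p : I → ℝ := hH.eigenvalues with hpd
  have hU : Uᴴ * U = 1 := by
    have := Matrix.UnitaryGroup.star_mul_self hH.eigenvectorUnitary
    exact this
  have hU' : U * Uᴴ = 1 := mul_eq_one_comm.1 hU
  have hp : ∀ i, 0 < p i := fun i => hpos.eigenvalues_pos i
  have hPU : yᴴ * y = U * diagonal (fun i => (p i : ℂ)) * Uᴴ := by
    have h3 := hH.spectral_theorem
    rw [Unitary.conjStarAlgAut_apply] at h3
    exact h3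
  have hPG : IsG D (yᴴ * y) := alg1.G_mul D _ _ (isG_adj hy) hy
  have hL := log_mem hU hU' hp hPU hPG
  refine ⟨U, fun i => Real.log (p i) / 2, hU, hU', hL, ?_⟩
  set X := U * diagonal (fun i => ((Real.log (p i) / 2 : ℝ) : ℂ)) * Uᴴ with hX
  have hLn : IsLie D (-X) := by
    have := alg1.Lie_smul D (-1) X hL
    rwa [neg_one_smul] at this
  refine ⟨alg1.G_mul D _ _ hy (alg1.G_exp D _ hLn), ?_⟩
  have hXn : -X = U * diagonal (fun i => ((-(Real.log (p i) / 2) : ℝ) : ℂ)) * Uᴴ := by
    rw [hX, ← Matrix.neg_mul, ← Matrix.mul_neg, diagonal_neg]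
    congr 3
    funext i
    push_cast
    ring
  have hE : NormedSpace.exp (-X) =
      U * diagonal (fun i => ((Real.exp (-(Real.log (p i) / 2)) : ℝ) : ℂ)) * Uᴴ := by
    rw [hXn, exp_conj_diag hU hU']
    congr 3
    funext i
    rw [Complex.ofReal_exp]
  have hEs : (NormedSpace.exp (-X))ᴴ = NormedSpace.exp (-X) := by
    rw [hE]
    simp only [conjTranspose_mul, conjTranspose_conjTranspose, diagonal_conjTranspose,
      Matrix.mul_assoc]
    congr 3
    funext i
    exact Complex.conj_ofReal _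
  rw [conjTranspose_mul, hEs]
  calc NormedSpace.exp (-X) * yᴴ * (y * NormedSpace.exp (-X))
      = NormedSpace.exp (-X) * (yᴴ * y) * NormedSpace.exp (-X) := by
        simp only [Matrix.mul_assoc]
    _ = U * (diagonal (fun i => ((Real.exp (-(Real.log (p i) / 2)) : ℝ) : ℂ)) * ((Uᴴ * U) *
        (diagonal (fun i => (p i : ℂ)) * ((Uᴴ * U) *
        diagonal (fun i => ((Real.exp (-(Real.log (p i) / 2)) : ℝ) : ℂ)))))) * Uᴴ := by
        rw [hE, hPU]
        simp only [Matrix.mul_assoc]
    _ = 1 := by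
        rw [hU, Matrix.one_mul, Matrix.one_mul, diagonal_mul_diagonal, diagonal_mul_diagonal]
        have h3 : (fun i => ((Real.exp (-(Real.log (p i) / 2)) : ℝ) : ℂ) *
            ((p i : ℂ) * ((Real.exp (-(Real.log (p i) / 2)) : ℝ) : ℂ))) = fun _ => 1 := by
          funext i
          rw [← Complex.ofReal_mul, ← Complex.ofReal_mul, ← Complex.ofReal_one]
          congr 1
          rw [mul_left_comm, ← Real.exp_add]
          have h4 : -(Real.log (p i) / 2) + -(Real.log (p i) / 2) = -Real.log (p i) := by ring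
          rw [h4, Real.exp_neg, Real.exp_log (hp i), mul_inv_cancel₀ (hp i).ne']
        rw [h3, diagonal_one, Matrix.mul_one, hU']

variable {ι : Type} [Fintype ι] {len : ι → ℕ}

theorem gT_diag (z : I → ℂ) {L : ℕ} (u : Ten I L) (w : Fin L → I) :
    gT (diagonal z) u w = (∏ j, z (w j)) * u w := by
  unfold gT
  rw [Finset.sum_eq_single w]
  · congr 1
    refine Finset.prod_congr rfl fun j _ => ?_
    rw [diagonal_apply_eq]
  · intro w' _ hw'
    obtain ⟨j, hj⟩ := Function.ne_iff.1 hw'
    rw [Finset.prod_eq_zero (Finset.mem_univ j), zero_mul]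
    exact diagonal_apply_ne _ (Ne.symm hj)
  · intro h
    exact absurd (Finset.mem_univ w) h

theorem aT_diag (z : I → ℂ) {L : ℕ} (u : Ten I L) (w : Fin L → I) :
    aT (diagonal z) u w = (∑ j, z (w j)) * u w := by
  unfold aT
  rw [Finset.sum_mul]
  refine Finset.sum_congr rfl fun j _ => ?_
  rw [Finset.sum_eq_single (w j)]
  · rw [diagonal_apply_eq, Function.update_eq_self]
  · intro i _ hi
    rw [diagonal_apply_ne _ (Ne.symm hi), zero_mul]
  · intro h
    exact absurd (Finset.mem_univ _) h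

theorem hT_unit {U : Matrix I I ℂ} (hU : Uᴴ * U = 1) {L : ℕ} (u v : Ten I L) :
    hT (gT U u) (gT U v) = hT u v := by
  rw [alg1.hT_gT, ← alg1.gT_mul, hU, alg1.gT_one]

/-- if the norm of `exp(X) s` is the norm of `s`, `X` hermitian, `s` minimal, then `X s = 0` -/
theorem kn {s : Tup I len} (hs : Minimal D s) {U : Matrix I I ℂ} {a : I → ℝ}
    (hU : Uᴴ * U = 1) (hU' : U * Uᴴ = 1)
    (hX : IsLie D (U * diagonal (fun i => (a i : ℂ)) * Uᴴ))
    (hn : hS (gS (NormedSpace.exp (U * diagonal (fun i => (a i : ℂ)) * Uᴴ)) s)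
      (gS (NormedSpace.exp (U * diagonal (fun i => (a i : ℂ)) * Uᴴ)) s) = hS s s) :
    aS (U * diagonal (fun i => (a i : ℂ)) * Uᴴ) s = 0 := by
  set v : Tup I len := gS Uᴴ s with hv
  have hUv : ∀ i, gT U (v i) = s i := by
    intro i
    change gT U (gT Uᴴ (s i)) = s i
    rw [← alg1.gT_mul, hU', alg1.gT_one]
  have hUinv : U⁻¹ = Uᴴ := Matrix.inv_eq_right_inv hU'
  have e1 : ∀ i, aT (U * diagonal (fun i => (a i : ℂ)) * Uᴴ) (s i) =
      gT U (aT (diagonal (fun i => (a i : ℂ))) (v i)) := by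
    intro i
    rw [alg1.gT_aT U _ _ (by rw [hUinv]; exact hU'), hUinv, hUv]
  have e2 : ∀ i, gT (NormedSpace.exp (U * diagonal (fun i => (a i : ℂ)) * Uᴴ)) (s i) =
      gT U (gT (diagonal (fun i => Complex.exp (a i : ℂ))) (v i)) := by
    intro i
    rw [exp_conj_diag hU hU', alg1.gT_mul, alg1.gT_mul]
    rfl
  let A : (i : ι) → (Fin (len i) → I) → ℝ := fun i w => ∑ j, a (w j)
  have f1 : hS (aS (U * diagonal (fun i => (a i : ℂ)) * Uᴴ) s) s =
      ((∑ i, ∑ w, A i w * ‖v i w‖ ^ 2 : ℝ) : ℂ) := by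
    unfold hS
    rw [Complex.ofReal_sum]
    refine Finset.sum_congr rfl fun i _ => ?_
    change hT (aT (U * diagonal (fun i => (a i : ℂ)) * Uᴴ) (s i)) (s i) = _
    rw [e1]
    nth_rewrite 1 [← hUv i]
    rw [hT_unit hU]
    unfold hT
    rw [Complex.ofReal_sum]
    refine Finset.sum_congr rfl fun w _ => ?_
    rw [aT_diag, mul_assoc, Complex.mul_conj, Complex.normSq_eq_norm_sq, Complex.ofReal_mul]
    congr 1
    exact (Complex.ofReal_sum _ _).symm
  have f2 : hS (gS (NormedSpace.exp (U * diagonal (fun i => (a i : ℂ)) * Uᴴ)) s)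
      (gS (NormedSpace.exp (U * diagonal (fun i => (a i : ℂ)) * Uᴴ)) s) =
      ((∑ i, ∑ w, Real.exp (2 * A i w) * ‖v i w‖ ^ 2 : ℝ) : ℂ) := by
    unfold hS
    rw [Complex.ofReal_sum]
    refine Finset.sum_congr rfl fun i _ => ?_
    change hT (gT (NormedSpace.exp (U * diagonal (fun i => (a i : ℂ)) * Uᴴ)) (s i))
      (gT (NormedSpace.exp (U * diagonal (fun i => (a i : ℂ)) * Uᴴ)) (s i)) = _
    rw [e2, hT_unit hU]
    unfold hT
    rw [Complex.ofReal_sum]
    refine Finset.sum_congr rfl fun w _ => ?_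
    rw [gT_diag, Complex.mul_conj, Complex.normSq_eq_norm_sq, norm_mul, norm_prod, mul_pow]
    have h1 : ∏ j, ‖Complex.exp (a (w j) : ℂ)‖ = Real.exp (A i w) := by
      rw [Real.exp_sum]
      refine Finset.prod_congr rfl fun j _ => ?_
      rw [Complex.norm_exp, Complex.ofReal_re]
    rw [h1, ← Real.exp_nat_mul]
    push_cast
    rfl
  have f3 : hS s s = ((∑ i, ∑ w, ‖v i w‖ ^ 2 : ℝ) : ℂ) := by
    unfold hS
    rw [Complex.ofReal_sum]
    refine Finset.sum_congr rfl fun i _ => ?_
    rw [← hUv i, hT_unit hU, alg1.hT_self]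
  have g1 : ∑ i, ∑ w, A i w * ‖v i w‖ ^ 2 = 0 := by
    have := hs _ hX
    rw [f1] at this
    exact_mod_cast this
  have g2 : ∑ i, ∑ w, Real.exp (2 * A i w) * ‖v i w‖ ^ 2 = ∑ i, ∑ w, ‖v i w‖ ^ 2 := by
    rw [f2, f3] at hn
    exact_mod_cast hn
  have g3 : ∑ i, ∑ w, (Real.exp (2 * A i w) - 1 - 2 * A i w) * ‖v i w‖ ^ 2 = 0 := by
    have h1 : ∀ i, ∀ w : Fin (len i) → I,
        (Real.exp (2 * A i w) - 1 - 2 * A i w) * ‖v i w‖ ^ 2 =
        Real.exp (2 * A i w) * ‖v i w‖ ^ 2 - ‖v i w‖ ^ 2 - 2 * (A i w * ‖v i w‖ ^ 2) := by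
      intro i w
      ring
    simp only [h1, Finset.sum_sub_distrib, ← Finset.mul_sum]
    rw [g2, g1]
    ring
  have hnn : ∀ i, ∀ w : Fin (len i) → I,
      0 ≤ (Real.exp (2 * A i w) - 1 - 2 * A i w) * ‖v i w‖ ^ 2 := by
    intro i w
    refine mul_nonneg ?_ (by positivity)
    have := Real.add_one_le_exp (2 * A i w)
    linarith
  have g4 : ∀ i, ∀ w : Fin (len i) → I,
      (Real.exp (2 * A i w) - 1 - 2 * A i w) * ‖v i w‖ ^ 2 = 0 := by
    intro i w
    have h3 := (Finset.sum_eq_zero_iff_of_nonneg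
      (fun i _ => Finset.sum_nonneg fun w _ => hnn i w)).1 g3 i (Finset.mem_univ i)
    exact (Finset.sum_eq_zero_iff_of_nonneg (fun w _ => hnn i w)).1 h3 w (Finset.mem_univ w)
  funext i
  change aT (U * diagonal (fun i => (a i : ℂ)) * Uᴴ) (s i) = 0
  rw [e1]
  have h5 : aT (diagonal (fun i => (a i : ℂ))) (v i) = 0 := by
    funext w
    rw [aT_diag]
    rcases mul_eq_zero.1 (g4 i w) with h | h
    · have h6 : A i w = 0 := by
        by_contra hne
        have := Real.add_one_lt_exp (x := 2 * A i w) (by simpa using hne)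
        linarith
      have h7 : (∑ j, ((a (w j) : ℝ) : ℂ)) = 0 := by
        rw [← Complex.ofReal_sum]
        exact_mod_cast h6
      rw [h7, zero_mul]
      rfl
    · have h6 : v i w = 0 := by simpa using h
      rw [h6, mul_zero]
      rfl
  rw [h5]
  have := alg1.gT_smul U 0 (0 : Ten I (len i))
  rwa [zero_smul, zero_smul] at this

end Pol

end Pool.Agent.Lib.MP_361a6f_ag.FL.E
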