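import Pool.Agent.Lib.MP_361a6f_ag.FL.E.DefsP
import Pool.Agent.Lib.MP_361a6f_ag.FL.E.Pol
import Pool.Agent.Lib.MP_361a6f_ag.FL.B.Tab
import Pool.Agent.Lib.MP_361a6f_ag.FL.B.CpbH

/-!
# Theorem E+, row P4: the Lie algebra of the stabiliser and the endomorphisms are irreducible
-/

set_option autoImplicit false
set_option linter.unusedSectionVars false

open Filter Topology Matrix

namespace Pool.Agent.Lib.MP_361a6f_ag.FL.E

namespace P4

variable {I Λ : Type} [Fintype I] [DecidableEq I] [DecidableEq Λ] {D : Dat I Λ}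
  {ι : Type} [Fintype ι] {len : ι → ℕ}

/-- the matrices that preserve a subspace -/
def pres (U : Submodule ℂ (I → ℂ)) : Subalgebra ℂ (Matrix I I ℂ) where
  carrier := {M | ∀ v ∈ U, M.mulVec v ∈ U}
  mul_mem' := by
    intro a b ha hb v hv
    rw [← Matrix.mulVec_mulVec]
    exact ha _ (hb v hv)
  add_mem' := by
    intro a b ha hb v hv
    rw [Matrix.add_mulVec]
    exact U.add_mem (ha v hv) (hb v hv)
  algebraMap_mem' := by
    intro r v hv
    rw [Algebra.algebraMap_eq_smul_one, Matrix.smul_mulVec, Matrix.one_mulVec]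
    exact U.smul_mem r hv

theorem pres_closed (U : Submodule ℂ (I → ℂ)) : IsClosed (pres U : Set (Matrix I I ℂ)) := by
  have h1 : (pres U : Set (Matrix I I ℂ)) =
      ⋂ v ∈ U, {M : Matrix I I ℂ | M.mulVec v ∈ U} := by
    ext M
    simp only [Set.mem_iInter]
    rfl
  rw [h1]
  refine isClosed_iInter fun v => isClosed_iInter fun _ => ?_
  have h2 : IsClosed (U : Set (I → ℂ)) := Submodule.closed_of_finiteDimensional U
  exact h2.preimage (Continuous.matrix_mulVec continuous_id continuous_const)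

theorem exp_pres {U : Submodule ℂ (I → ℂ)} {A : Matrix I I ℂ} (h : ∀ v ∈ U, A.mulVec v ∈ U) :
    ∀ v ∈ U, (NormedSpace.exp A).mulVec v ∈ U :=
  NormedSpace.exp_mem (s := pres U) (pres_closed U) (x := A) h

theorem map_exp {U : Submodule ℂ (I → ℂ)} {A : Matrix I I ℂ} (h : ∀ v ∈ U, A.mulVec v ∈ U) :
    U.map (Matrix.toLin' (NormedSpace.exp A)) = U := by
  have hn : ∀ v ∈ U, (-A).mulVec v ∈ U := by
    intro v hv
    rw [Matrix.neg_mulVec]
    exact U.neg_mem (h v hv)
  refine le_antisymm ?_ ?_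
  · rintro _ ⟨v, hv, rfl⟩
    rw [Matrix.toLin'_apply]
    exact exp_pres h v hv
  · intro v hv
    refine ⟨(NormedSpace.exp (-A)).mulVec v, exp_pres hn v hv, ?_⟩
    rw [Matrix.toLin'_apply, Matrix.mulVec_mulVec, mul_eq_one_comm.1 (Pol.exp_isUnit A),
      Matrix.one_mulVec]

theorem map_mul (U : Submodule ℂ (I → ℂ)) (x y : Matrix I I ℂ) :
    U.map (Matrix.toLin' (x * y)) = (U.map (Matrix.toLin' y)).map (Matrix.toLin' x) := by
  rw [Matrix.toLin'_mul, Submodule.map_comp]

/-- finitely many images under the compact stabiliser -/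
theorem fin_cpt {s : Tup I len} (H : HMb D s) {U : Submodule ℂ (I → ℂ)}
    (hU : ∀ A ∈ stab D s, ∀ v ∈ U, A.mulVec v ∈ U) :
    {U' : Submodule ℂ (I → ℂ) | ∃ k : H.K, U' = U.map (Matrix.toLin' (H.mat k))}.Finite := by
  let S : Subgroup H.K :=
    { carrier := {k | U.map (Matrix.toLin' (H.mat k)) = U}
      mul_mem' := by
        intro a b ha hb
        change U.map (Matrix.toLin' (H.mat (a * b))) = U
        rw [_root_.map_mul H.mat a b, map_mul, hb]
        exact ha
      one_mem' := by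
        change U.map (Matrix.toLin' (H.mat 1)) = U
        rw [map_one, Matrix.toLin'_one, Submodule.map_id]
      inv_mem' := by
        intro a ha
        change U.map (Matrix.toLin' (H.mat a⁻¹)) = U
        have h1 : U.map (Matrix.toLin' (H.mat (a⁻¹ * a))) = U := by
          rw [inv_mul_cancel, map_one, Matrix.toLin'_one, Submodule.map_id]
        rw [_root_.map_mul H.mat, map_mul] at h1
        rwa [show U.map (Matrix.toLin' (H.mat a)) = U from ha] at h1 }
  have hS : IsOpen (S : Set H.K) := by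
    refine S.isOpen_of_mem_nhds (g := 1) ?_
    filter_upwards [tanb alg1 H 1 one_pos] with k hk
    obtain ⟨A, hA, -, -, h4⟩ := hk
    change U.map (Matrix.toLin' (H.mat k)) = U
    rw [h4]
    exact map_exp (hU A hA)
  have hfin : Finite (H.K ⧸ S) := S.quotient_finite_of_isOpen hS
  let f : H.K ⧸ S → Submodule ℂ (I → ℂ) :=
    Quotient.lift (fun k => U.map (Matrix.toLin' (H.mat k))) (by
      intro a b hab
      have h1 : a⁻¹ * b ∈ S := QuotientGroup.leftRel_apply.1 hab
      have h2 : U.map (Matrix.toLin' (H.mat (a⁻¹ * b))) = U := h1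
      change U.map (Matrix.toLin' (H.mat a)) = U.map (Matrix.toLin' (H.mat b))
      have h3 : b = a * (a⁻¹ * b) := by group
      rw [h3, _root_.map_mul H.mat a, map_mul, h2])
  refine (Set.finite_range f).subset ?_
  rintro _ ⟨k, rfl⟩
  exact ⟨QuotientGroup.mk k, rfl⟩

/-- finitely many images under the whole stabiliser of a minimal tuple -/
theorem fin_orb {s : Tup I len} (hs : Minimal D s) {U : Submodule ℂ (I → ℂ)}
    (hU : ∀ A ∈ stab D s, ∀ v ∈ U, A.mulVec v ∈ U) :
    {U' : Submodule ℂ (I → ℂ) | ∃ y, IsG D y ∧ gS y s = s ∧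
      U' = U.map (Matrix.toLin' y)}.Finite := by
  obtain ⟨H⟩ := cptbH D s
  refine (fin_cpt H hU).subset ?_
  rintro _ ⟨y, hy, hys, rfl⟩
  obtain ⟨V, a, hV, hV', hX, hK⟩ := Pol.polar hy
  set X := V * diagonal (fun i => (a i : ℂ)) * Vᴴ with hXd
  have e1 : y = (y * NormedSpace.exp (-X)) * NormedSpace.exp X := by
    rw [Matrix.mul_assoc, Pol.exp_isUnit, Matrix.mul_one]
  have hunit : ∀ {k : Matrix I I ℂ}, k.conjTranspose * k = 1 → ∀ u : Tup I len,
      hS (gS k u) (gS k u) = hS u u := by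
    intro k hk u
    unfold hS
    exact Finset.sum_congr rfl fun i _ => Pol.hT_unit hk _ _
  have e2 : gS (y * NormedSpace.exp (-X)) (gS (NormedSpace.exp X) s) = s := by
    funext i
    change gT (y * NormedSpace.exp (-X)) (gT (NormedSpace.exp X) (s i)) = s i
    rw [← alg1.gT_mul, ← e1]
    exact congrFun hys i
  have hn : hS (gS (NormedSpace.exp X) s) (gS (NormedSpace.exp X) s) = hS s s := by
    rw [← hunit hK.2, e2]
  have h0 : aS X s = 0 := Pol.kn hs hV hV' hX hn
  have hXs : X ∈ stab D s := ⟨hX, h0⟩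
  have e3 : gS (NormedSpace.exp X) s = s := MinG.gS_exp_fix alg1 h0
  rw [e3] at e2
  obtain ⟨k, hk⟩ := H.surj _ ⟨hK, e2⟩
  refine ⟨k, ?_⟩
  rw [hk]
  conv_lhs => rw [e1]
  rw [map_mul, map_exp (hU X hXs)]

theorem gT_two (y : Matrix I I ℂ) (z : Ten I 2) (i j : I) :
    gT y z ![i, j] = (y * (Matrix.of fun a b => z ![a, b]) * yᵀ) i j := by
  unfold gT
  rw [← (finTwoArrowEquiv I).symm.sum_comp, Fintype.sum_prod_type, Matrix.mul_apply,
    Finset.sum_comm]
  refine Finset.sum_congr rfl fun b _ => ?_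
  rw [Matrix.mul_apply, Finset.sum_mul]
  refine Finset.sum_congr rfl fun a _ => ?_
  rw [Fin.prod_univ_two, Matrix.of_apply, Matrix.transpose_apply]
  change y i a * y j b * z ![a, b] = y i a * z ![a, b] * y j b
  ring

theorem opM_eq (z : Ten I 2) : opM D z = (Matrix.of fun a b => z ![a, b]) * (Psi D)ᵀ := by
  ext i j
  rw [Matrix.mul_apply, Finset.sum_eq_single (D.τ j)]
  · rw [Matrix.transpose_apply]
    unfold opM Psi
    rw [Matrix.of_apply, Matrix.of_apply, if_pos rfl]
  · intro k _ hk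
    rw [Matrix.transpose_apply]
    change z ![i, k] * (if k = D.τ j then D.s j else 0) = 0
    rw [if_neg hk, mul_zero]
  · intro h
    exact absurd (Finset.mem_univ _) h

/-- a tensor of length `2` fixed by an element of the group commutes with it -/
theorem comm_fix {y : Matrix I I ℂ} (hy : IsG D y) {z : Ten I 2} (hz : gT y z = z) :
    opM D z * y = y * opM D z := by
  set Z : Matrix I I ℂ := Matrix.of fun a b => z ![a, b] with hZ
  have h1 : y * Z * yᵀ = Z := by
    ext i j
    rw [← gT_two, hz]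
    rfl
  have h2 : yᵀ * (Psi D)ᵀ * y = (Psi D)ᵀ := by
    have h3 := congrArg Matrix.transpose hy.2
    rw [Matrix.transpose_mul, Matrix.transpose_mul, Matrix.transpose_transpose,
      ← Matrix.mul_assoc] at h3
    exact h3
  rw [opM_eq, ← hZ]
  calc Z * (Psi D)ᵀ * y = (y * Z * yᵀ) * (Psi D)ᵀ * y := by rw [h1]
    _ = y * Z * (yᵀ * (Psi D)ᵀ * y) := by simp only [Matrix.mul_assoc]
    _ = y * (Z * (Psi D)ᵀ) := by rw [h2, Matrix.mul_assoc]

end P4

open P4 in
/-- Row P4. -/
theorem p4 : P4Statement := by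
  intro I Λ _ _ _ D At Bt l Γ β _ lb b hS m hm ι _ len t s x k hL U hU hUE
  obtain ⟨hxi, hx1, hx2⟩ := alg1.G_inv D x hL.lvl.grp
  have hfixx : ∀ z, At 2 z → gT x z = z := by
    intro z hz
    have h1 := hL.lvl.span 2 hm z hz
    refine Submodule.span_induction ?_ ?_ ?_ ?_ h1
    · rintro _ ⟨i, hi, rfl⟩
      have h2 : gT x (s i) = t i := congrFun hL.lvl.eq i
      rw [hL.two i hi] at h2
      have h3 : ∀ {L : ℕ} (h : len i = L), gT x (h ▸ t i : Ten I L) = h ▸ t i := by
        rintro _ rfl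
        exact h2
      exact h3 hi
    · have := alg1.gT_smul x 0 (0 : Ten I 2)
      rwa [zero_smul, zero_smul] at this
    · intro u v _ _ hu hv
      rw [alg1.gT_add, hu, hv]
    · intro c u _ hu
      rw [alg1.gT_smul, hu]
  have hfin : {U' : Submodule ℂ (I → ℂ) | ∃ γ ∈ Γ, U' =
      (U.map (Matrix.toLin' x)).map (Matrix.toLin' γ)}.Finite := by
    refine ((fin_orb hL.lvl.min hU).image fun V => V.map (Matrix.toLin' x)).subset ?_
    rintro _ ⟨γ, hγ, rfl⟩
    refine ⟨U.map (Matrix.toLin' (x⁻¹ * γ * x)), ⟨x⁻¹ * γ * x, ?_, ?_, rfl⟩, ?_⟩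
    · exact alg1.G_mul D _ _ (alg1.G_mul D _ _ hxi (hS.grp γ hγ)) hL.lvl.grp
    · funext i
      have hti : gT x (s i) = t i := congrFun hL.lvl.eq i
      have hsi : gT x⁻¹ (t i) = s i := by
        rw [← hti, ← alg1.gT_mul, hx2, alg1.gT_one]
      change gT (x⁻¹ * γ * x) (s i) = s i
      rw [alg1.gT_mul, alg1.gT_mul, hti, hS.gfix γ hγ _ _ (hL.lvl.mem i), hsi]
    · change (U.map (Matrix.toLin' (x⁻¹ * γ * x))).map (Matrix.toLin' x) =
        (U.map (Matrix.toLin' x)).map (Matrix.toLin' γ)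
      rw [← P4.map_mul, ← P4.map_mul]
      congr 2
      rw [← Matrix.mul_assoc, ← Matrix.mul_assoc, hx1, Matrix.one_mul]
  have hst : ∀ z, At 2 z → ∀ v ∈ U.map (Matrix.toLin' x),
      (opM D z).mulVec v ∈ U.map (Matrix.toLin' x) := by
    rintro z hz _ ⟨v, hv, rfl⟩
    refine ⟨(opM D z).mulVec v, hUE z hz v hv, ?_⟩
    rw [Matrix.toLin'_apply, Matrix.toLin'_apply, Matrix.mulVec_mulVec, Matrix.mulVec_mulVec,
      comm_fix hL.lvl.grp (hfixx z hz)]
  have hinj : Function.Injective (Matrix.toLin' x) := by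
    intro v w h
    rw [Matrix.toLin'_apply, Matrix.toLin'_apply] at h
    have h3 := congrArg (x⁻¹).mulVec h
    rwa [Matrix.mulVec_mulVec, Matrix.mulVec_mulVec, hx2, Matrix.one_mulVec,
      Matrix.one_mulVec] at h3
  rcases hS.orbit _ hst hfin with h | h
  · left
    rw [eq_bot_iff]
    intro v hv
    have h4 : Matrix.toLin' x v ∈ U.map (Matrix.toLin' x) := ⟨v, hv, rfl⟩
    rw [h, Submodule.mem_bot] at h4
    exact hinj (h4.trans (map_zero _).symm)
  · right
    rw [eq_top_iff]
    intro v _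
    have h4 : Matrix.toLin' x v ∈ U.map (Matrix.toLin' x) := by
      rw [h]
      exact Submodule.mem_top
    obtain ⟨w, hw, h5⟩ := h4
    rw [← hinj h5]
    exact hw

end Pool.Agent.Lib.MP_361a6f_ag.FL.E
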