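import Pool.Agent.Lib.MP_361a6f_ag.FL.E.DefsG
import Pool.Agent.Lib.MP_361a6f_ag.FL.E.P4

/-!
# General form of Theorem E+, row G4: finitely many images under the stabiliser
-/

set_option autoImplicit false

namespace Pool.Agent.Lib.MP_361a6f_ag.FL.E

/-- Row G4. -/
theorem g4 : G4Statement := by
  intro I Λ ι _ _ _ _ len D s Δ hs hΔ U hU
  refine (P4.fin_orb hs hU).subset ?_
  rintro _ ⟨y, hy, rfl⟩
  exact ⟨y, (hΔ y hy).1, (hΔ y hy).2, rfl⟩

end Pool.Agent.Lib.MP_361a6f_ag.FL.E
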