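import Pool.Agent.Lib.MP_361a6f_ag.FL.E.DefsP
import Pool.Agent.Lib.MP_361a6f_ag.FL.Alg1

/-!
# Theorem E+, row P4b: the endomorphisms commute with the stabiliser and with `diag k`
-/

set_option autoImplicit false
set_option linter.unusedSectionVars false

namespace Pool.Agent.Lib.MP_361a6f_ag.FL.E

namespace P4b

variable {I Λ : Type} [Fintype I] [DecidableEq I] [DecidableEq Λ] {D : Dat I Λ}

theorem aT_two (A : Matrix I I ℂ) (z : Ten I 2) (i j : I) :
    aT A z ![i, j] = ∑ k, A i k * z ![k, j] + ∑ k, A j k * z ![i, k] := by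
  unfold aT
  rw [Fin.sum_univ_two]
  have h0 : ∀ k, Function.update ![i, j] 0 k = ![k, j] := fun k => by
    funext r
    fin_cases r <;> rfl
  have h1 : ∀ k, Function.update ![i, j] 1 k = ![i, k] := fun k => by
    funext r
    fin_cases r <;> rfl
  simp only [h0, h1]
  rfl

theorem gT_two_diag (l : I → ℂ) (z : Ten I 2) (i j : I) :
    gT (Matrix.diagonal l) z ![i, j] = l i * l j * z ![i, j] := by
  unfold gT
  rw [Finset.sum_eq_single ![i, j]]
  · rw [Fin.prod_univ_two]
    congr 2
    · exact Matrix.diagonal_apply_eq l i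
    · exact Matrix.diagonal_apply_eq l j
  · intro w _ hw
    have h : ∃ r : Fin 2, ![i, j] r ≠ w r := by
      by_contra hc
      push Not at hc
      exact hw (funext fun r => (hc r).symm)
    obtain ⟨r, hr⟩ := h
    rw [Finset.prod_eq_zero (Finset.mem_univ r) (Matrix.diagonal_apply_ne l hr), zero_mul]
  · intro h
    exact absurd (Finset.mem_univ _) h

/-- elements of the Lie algebra -/
theorem lie_eq (ho : ∀ i, D.odd (D.typ i)) {A : Matrix I I ℂ} (hA : IsLie D A) (j k : I) :
    D.s k * A k j = -(D.s j * A (D.τ j) (D.τ k)) := by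
  have h1 := congrFun (congrFun hA.2 (D.τ k)) j
  rw [Matrix.add_apply, Matrix.mul_apply, Matrix.mul_apply, Matrix.zero_apply,
    Finset.sum_eq_single (D.τ j), Finset.sum_eq_single k] at h1
  · unfold Psi at h1
    rw [Matrix.of_apply, Matrix.of_apply, Matrix.transpose_apply, if_pos (D.τ_τ j).symm,
      if_pos (D.τ_τ k).symm, (D.odd_τ j (ho j)).2, (D.odd_τ k (ho k)).2] at h1
    linear_combination -h1
  · intro i _ hi
    unfold Psi
    rw [Matrix.of_apply, if_neg, zero_mul]
    rw [D.τ_τ]
    exact hi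
  · intro h
    exact absurd (Finset.mem_univ _) h
  · intro i _ hi
    unfold Psi
    rw [Matrix.of_apply, if_neg, mul_zero]
    intro h
    exact hi (by rw [h, D.τ_τ])
  · intro h
    exact absurd (Finset.mem_univ _) h

/-- a tensor killed by `A` commutes with `A` -/
theorem comm_of (ho : ∀ i, D.odd (D.typ i)) {A : Matrix I I ℂ} (hA : IsLie D A) {z : Ten I 2}
    (hz : aT A z = 0) : opM D z * A = A * opM D z := by
  ext i j
  rw [Matrix.mul_apply, Matrix.mul_apply]
  have h1 := congrFun hz ![i, D.τ j]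
  rw [aT_two, Pi.zero_apply] at h1
  have h2 : ∑ k, opM D z i k * A k j = -(D.s j * ∑ k, A (D.τ j) k * z ![i, k]) := by
    rw [Finset.mul_sum, ← Finset.sum_neg_distrib]
    refine Finset.sum_bij (fun k _ => D.τ k) (fun _ _ => Finset.mem_univ _) ?_ ?_ ?_
    · intro a _ b _ h
      rw [← D.τ_τ a, ← D.τ_τ b, h]
    · intro b _
      exact ⟨D.τ b, Finset.mem_univ _, D.τ_τ b⟩
    · intro k _
      unfold opM
      linear_combination z ![i, D.τ k] * lie_eq ho hA j k
  have h3 : ∑ k, A i k * opM D z k j = D.s j * ∑ k, A i k * z ![k, D.τ j] := by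
    rw [Finset.mul_sum]
    refine Finset.sum_congr rfl fun k _ => ?_
    unfold opM
    ring
  rw [h2, h3]
  linear_combination -D.s j * h1

/-- a tensor fixed by `diag l` commutes with `diag k` -/
theorem comm_diag {l k : I → ℂ} (hτ : ∀ i, l (D.τ i) * l i = 1)
    (hk : ∀ i j, l i = l j → k i = k j) {z : Ten I 2} (hz : gT (Matrix.diagonal l) z = z) :
    opM D z * Matrix.diagonal k = Matrix.diagonal k * opM D z := by
  ext i j
  rw [Matrix.mul_diagonal, Matrix.diagonal_mul]
  by_cases h : z ![i, D.τ j] = 0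
  · unfold opM
    rw [h, zero_mul, zero_mul, mul_zero]
  · have h1 := congrFun hz ![i, D.τ j]
    rw [gT_two_diag] at h1
    have h2 : l i * l (D.τ j) = 1 := mul_right_cancel₀ h (h1.trans (one_mul _).symm)
    have h3 : l (D.τ j) ≠ 0 := fun e => by
      rw [e, mul_zero] at h2
      exact zero_ne_one h2
    have h4 : l i = l j := mul_right_cancel₀ h3 (h2.trans ((mul_comm _ _).trans (hτ j)).symm)
    rw [hk i j h4]
    ring

end P4b

open P4b in
/-- Row P4b. -/
theorem p4b : P4bStatement := by
  intro I Λ _ _ _ D At Bt l Γ β _ lb b hP m hm ι _ len t s x k hL z hz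
  refine ⟨fun A hA => comm_of hP.odd hA.1 ?_, comm_diag hP.tau hL.blk (hP.fix 2 z hz)⟩
  have h1 := hL.lvl.span 2 hm z hz
  clear hz
  induction h1 using Submodule.span_induction with
  | mem v hv =>
    obtain ⟨i, h, rfl⟩ := hv
    have h2 : aT A (t i) = 0 := by
      rw [← hL.two i h]
      exact congrFun hA.2 i
    have h3 : ∀ (L : ℕ) (e : len i = L), aT A (e ▸ t i : Ten I L) = 0 := by
      intro L e
      subst e
      exact h2
    exact h3 2 h
  | zero =>
    have := alg1.aT_smul A 0 (0 : Ten I 2)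
    rwa [zero_smul, zero_smul] at this
  | add u v _ _ hu hv => rw [alg1.aT_add, hu, hv, add_zero]
  | smul c u _ hu => rw [alg1.aT_smul, hu, smul_zero]

end Pool.Agent.Lib.MP_361a6f_ag.FL.E
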