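import Pool.Agent.Lib.MP_361a6f_ag.FL.E.DefsG
import Pool.Agent.Lib.MP_361a6f_ag.FL.E.P4b

/-!
# Theorem E+, general form, row G4b: the endomorphisms commute with the stabiliser, `diag k`, `x`
-/

set_option autoImplicit false
set_option linter.unusedSectionVars false

namespace Pool.Agent.Lib.MP_361a6f_ag.FL.E

namespace G4b

variable {I Λ : Type} [Fintype I] [DecidableEq I] [DecidableEq Λ] {D : Dat I Λ}

/-- the matrix of a tensor of length two -/
def mat2 (z : Ten I 2) : Matrix I I ℂ := Matrix.of fun i j => z ![i, j]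

theorem mat2_apply (z : Ten I 2) (i j : I) : mat2 z i j = z ![i, j] := rfl

theorem opM_eq (z : Ten I 2) : opM D z = mat2 z * (Psi D).transpose := by
  ext i j
  rw [Matrix.mul_apply, Finset.sum_eq_single (D.τ j)]
  · rw [Matrix.transpose_apply, Psi, Matrix.of_apply, if_pos rfl]
    rfl
  · intro k _ hk
    rw [Matrix.transpose_apply, Psi, Matrix.of_apply, if_neg hk, mul_zero]
  · intro h
    exact absurd (Finset.mem_univ _) h

theorem mat2_gT (y : Matrix I I ℂ) (z : Ten I 2) :
    mat2 (gT y z) = y * mat2 z * y.transpose := by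
  ext i j
  rw [mat2_apply, Matrix.mul_apply]
  simp only [Matrix.mul_apply, Finset.sum_mul, Matrix.transpose_apply, mat2_apply]
  unfold gT
  rw [Finset.sum_comm, ← Fintype.sum_prod_type' (f := fun a b => y i a * z ![a, b] * y j b)]
  refine Fintype.sum_equiv (finTwoArrowEquiv I) _ _ fun w => ?_
  rw [Fin.prod_univ_two]
  have h1 : w = ![w 0, w 1] := by
    funext r
    fin_cases r <;> rfl
  have h2 : z ![w 0, w 1] = z w := by rw [← h1]
  change y i (w 0) * y j (w 1) * z w = y i (w 0) * z ![w 0, w 1] * y j (w 1)
  rw [h2]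
  ring

/-- a tensor fixed by `y` commutes with `y` -/
theorem comm_fix {y : Matrix I I ℂ} (hy : IsG D y) {z : Ten I 2} (hz : gT y z = z) :
    opM D z * y = y * opM D z := by
  obtain ⟨-, h1, h2⟩ := alg1.G_inv D y hy
  have h3 : y.transpose * (Psi D).transpose * y = (Psi D).transpose := by
    have := congrArg Matrix.transpose hy.2
    rwa [Matrix.transpose_mul, Matrix.transpose_mul, Matrix.transpose_transpose,
      ← Matrix.mul_assoc] at this
  have h4 : y * mat2 z * y.transpose = mat2 z := by rw [← mat2_gT, hz]
  rw [opM_eq]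
  calc mat2 z * (Psi D).transpose * y
      = (y * mat2 z * y.transpose) * (Psi D).transpose * y := by rw [h4]
    _ = y * mat2 z * (y.transpose * (Psi D).transpose * y) := by
        simp only [Matrix.mul_assoc]
    _ = y * (mat2 z * (Psi D).transpose) := by rw [h3, Matrix.mul_assoc]

end G4b

open P4b G4b in
/-- Row G4b. -/
theorem g4b : G4bStatement := by
  intro I Λ _ _ _ D At Bt l Γ β _ lb b hP m hm ι _ len t s x k hL z hz
  have hspan := hL.lvl.span 2 hm z hz
  refine ⟨fun A hA => comm_of hP.odd hA.1 ?_, comm_diag hP.tau hL.blk (hP.fix 2 z hz),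
    comm_fix hL.lvl.grp ?_⟩
  · clear hz
    induction hspan using Submodule.span_induction with
    | mem v hv =>
      obtain ⟨i, h, rfl⟩ := hv
      have h2 : aT A (t i) = 0 := by
        rw [← hL.two i h]
        exact congrFun hA.2 i
      have h3 : ∀ (L : ℕ) (e : len i = L), aT A (e ▸ t i : Ten I L) = 0 := by
        intro L e
        subst e
        exact h2
      exact h3 2 h
    | zero =>
      have := alg1.aT_smul A 0 (0 : Ten I 2)
      rwa [zero_smul, zero_smul] at this
    | add u v _ _ hu hv => rw [alg1.aT_add, hu, hv, add_zero]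
    | smul c u _ hu => rw [alg1.aT_smul, hu, smul_zero]
  · clear hz
    induction hspan using Submodule.span_induction with
    | mem v hv =>
      obtain ⟨i, h, rfl⟩ := hv
      have h2 : gT x (t i) = t i := by
        have h4 : gT x (s i) = t i := congrFun hL.lvl.eq i
        rw [hL.two i h] at h4
        exact h4
      have h3 : ∀ (L : ℕ) (e : len i = L), gT x (e ▸ t i : Ten I L) = e ▸ t i := by
        intro L e
        subst e
        exact h2
      exact h3 2 h
    | zero =>
      have := alg1.gT_smul x 0 (0 : Ten I 2)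
      rwa [zero_smul, zero_smul] at this
    | add u v _ _ hu hv => rw [alg1.gT_add, hu, hv]
    | smul c u _ hu => rw [alg1.gT_smul, hu]

end Pool.Agent.Lib.MP_361a6f_ag.FL.E
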