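import Mathlib

/-!
# Theorem E, Lemma R, elementary form

`h` is a space of complex matrices closed under commutators and conjugate transposition, it
contains a diagonal matrix with distinct entries, and it is normalised by `diag κ`.  If the letters
of two words are connected by entries of elements of `h` and all diagonal elements of `h` have the
same weight on the two words, then `κ` has the same product on the two words.
-/

set_option maxHeartbeats 400000

open Matrix

namespace Pool.Agent.Lib.MP_361a6f_ag.FL.E.LemR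

set_option linter.unusedSectionVars false

variable {I : Type} [Fintype I] [DecidableEq I]

/-- the square norm of a matrix -/
noncomputable def nrm (x : Matrix I I ℂ) : ℝ := ∑ i, ∑ j, ‖x i j‖ ^ 2

theorem nrm_nonneg (x : Matrix I I ℂ) : 0 ≤ nrm x :=
  Finset.sum_nonneg fun _ _ => Finset.sum_nonneg fun _ _ => by positivity

theorem nrm_pos {x : Matrix I I ℂ} (hx : x ≠ 0) : 0 < nrm x := by
  obtain ⟨i, j, hij⟩ : ∃ i j, x i j ≠ 0 := by
    by_contra hc
    push Not at hc
    exact hx (by ext i j; simpa using hc i j)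
  have h1 : 0 < ‖x i j‖ ^ 2 := by positivity
  have h2 : ‖x i j‖ ^ 2 ≤ ∑ j, ‖x i j‖ ^ 2 :=
    Finset.single_le_sum (f := fun j => ‖x i j‖ ^ 2) (fun _ _ => by positivity)
      (Finset.mem_univ j)
  have h3 : ∑ j, ‖x i j‖ ^ 2 ≤ nrm x :=
    Finset.single_le_sum (f := fun i => ∑ j, ‖x i j‖ ^ 2)
      (fun _ _ => Finset.sum_nonneg fun _ _ => by positivity) (Finset.mem_univ i)
  linarith

theorem trace_self (x : Matrix I I ℂ) : (x * xᴴ).trace = (nrm x : ℂ) := by
  simp only [Matrix.trace, Matrix.diag_apply, Matrix.mul_apply, Matrix.conjTranspose_apply, nrm]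
  push_cast
  refine Finset.sum_congr rfl fun i _ => Finset.sum_congr rfl fun j _ => ?_
  rw [← Complex.conj_mul', mul_comm]
  rfl

/-- an element of a subalgebra of functions that is `1` at `p` and supported on the points that
the subalgebra does not separate from `p` -/
theorem exists_bump {S : Type} [Fintype S] (A : Subalgebra ℂ (S → ℂ)) (p : S) :
    ∃ e ∈ A, e p = 1 ∧ ∀ q, e q ≠ 0 → ∀ f ∈ A, f q = f p := by
  classical
  have h1 : ∀ q : S, ∃ e ∈ A, e p = 1 ∧ (e q ≠ 0 → ∀ f ∈ A, f q = f p) := by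
    intro q
    by_cases hq : ∀ f ∈ A, f q = f p
    · exact ⟨1, A.one_mem, rfl, fun _ => hq⟩
    · push Not at hq
      obtain ⟨f, hf, hfq⟩ := hq
      have hne : f p - f q ≠ 0 := sub_ne_zero.2 (Ne.symm hfq)
      refine ⟨(f p - f q)⁻¹ • (f - algebraMap ℂ (S → ℂ) (f q)), ?_, ?_, ?_⟩
      · exact A.smul_mem (A.sub_mem hf (A.algebraMap_mem _)) _
      · simp [Pi.algebraMap_apply, inv_mul_cancel₀ hne]
      · intro h0
        exact absurd (by simp [Pi.algebraMap_apply]) h0
  choose e he h1p h2 using h1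
  refine ⟨∏ q, e q, A.prod_mem fun q _ => he q, ?_, ?_⟩
  · rw [Finset.prod_apply]
    exact Finset.prod_eq_one fun q _ => h1p q
  · intro q hq
    rw [Finset.prod_apply] at hq
    exact h2 q (Finset.prod_ne_zero_iff.1 hq q (Finset.mem_univ q))

/-- the situation; `tor` says that an element of `h` that commutes with all diagonal elements of
`h` is diagonal -/
structure Sit (h : Submodule ℂ (Matrix I I ℂ)) (κ : I → ℂ) : Prop where
  lie : ∀ A ∈ h, ∀ B ∈ h, A * B - B * A ∈ h
  star : ∀ A ∈ h, Aᴴ ∈ h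
  ne : ∀ i, κ i ≠ 0
  ad : ∀ A ∈ h, diagonal κ * A * diagonal (fun i => (κ i)⁻¹) ∈ h
  tor : ∀ X ∈ h, (∀ T, diagonal T ∈ h → ∀ i j, X i j ≠ 0 → T i = T j) →
    ∀ i j, X i j ≠ 0 → i = j

/-- a diagonal element with distinct entries gives the last hypothesis -/
theorem Sit.of_inj {h : Submodule ℂ (Matrix I I ℂ)} {κ : I → ℂ}
    (hlie : ∀ A ∈ h, ∀ B ∈ h, A * B - B * A ∈ h) (hstar : ∀ A ∈ h, Aᴴ ∈ h)
    (hκ : ∀ i, κ i ≠ 0)
    (hk : ∀ A ∈ h, diagonal κ * A * diagonal (fun i => (κ i)⁻¹) ∈ h)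
    (a : I → ℂ) (ha : Function.Injective a) (hA : diagonal a ∈ h) : Sit h κ :=
  ⟨hlie, hstar, hκ, hk, fun _ _ hX i j hij => ha (hX a hA i j hij)⟩

/-- `x` is homogeneous of type `(α, c)` -/
structure Hom (h : Submodule ℂ (Matrix I I ℂ)) (κ : I → ℂ) (x : Matrix I I ℂ)
    (α : (I → ℂ) → ℂ) (c : ℂ) : Prop where
  mem : x ∈ h
  ne : x ≠ 0
  wt : ∀ i j, x i j ≠ 0 → ∀ T, diagonal T ∈ h → T i - T j = α T
  kk : ∀ i j, x i j ≠ 0 → κ i = c * κ j

section

variable {h : Submodule ℂ (Matrix I I ℂ)} {κ : I → ℂ}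

/-- the multipliers that preserve `h` -/
def mult (h : Submodule ℂ (Matrix I I ℂ)) : Subalgebra ℂ (I × I → ℂ) where
  carrier := {m | ∀ x ∈ h, (Matrix.of fun i j => m (i, j) * x i j) ∈ h}
  mul_mem' := by
    intro m n hm hn x hx
    have h1 := hm _ (hn x hx)
    refine (congrArg (· ∈ h) ?_).mp h1
    ext i j
    simp [mul_assoc]
  one_mem' := by
    intro x hx
    refine (congrArg (· ∈ h) ?_).mp hx
    ext i j
    simp
  add_mem' := by
    intro m n hm hn x hx
    have h1 := h.add_mem (hm x hx) (hn x hx)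
    refine (congrArg (· ∈ h) ?_).mp h1
    ext i j
    simp [add_mul]
  zero_mem' := by
    intro x hx
    refine (congrArg (· ∈ h) ?_).mp h.zero_mem
    ext i j
    simp
  algebraMap_mem' := by
    intro r x hx
    refine (congrArg (· ∈ h) ?_).mp (h.smul_mem r hx)
    ext i j
    simp [Pi.algebraMap_apply]

theorem mult_T (S : Sit h κ) {T : I → ℂ} (hT : diagonal T ∈ h) :
    (fun p : I × I => T p.1 - T p.2) ∈ mult h := by
  intro x hx
  refine (congrArg (· ∈ h) ?_).mp (S.lie _ hT x hx)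
  ext i j
  simp [Matrix.diagonal_mul, Matrix.mul_diagonal]
  ring

theorem mult_k (S : Sit h κ) : (fun p : I × I => κ p.1 * (κ p.2)⁻¹) ∈ mult h := by
  intro x hx
  refine (congrArg (· ∈ h) ?_).mp (S.ad x hx)
  ext i j
  simp [Matrix.diagonal_mul, Matrix.mul_diagonal]
  ring

/-- every entry of an element of `h` is an entry of a homogeneous element -/
theorem exists_hom (S : Sit h κ) {x : Matrix I I ℂ} (hx : x ∈ h) {i j : I}
    (hij : x i j ≠ 0) : ∃ y, Hom h κ y (fun T => T i - T j) (κ i * (κ j)⁻¹) ∧ y i j ≠ 0 := by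
  obtain ⟨e, he, he1, he2⟩ := exists_bump (mult h) (i, j)
  have hy : (Matrix.of fun i j => e (i, j) * x i j) i j ≠ 0 := by
    simpa [he1] using hij
  refine ⟨Matrix.of fun i j => e (i, j) * x i j, ⟨he x hx, ?_, ?_, ?_⟩, hy⟩
  · intro h0
    rw [h0] at hy
    exact hy rfl
  · intro k l hkl T hT
    have h1 : e (k, l) ≠ 0 := by
      intro h0
      apply hkl
      simp [h0]
    exact he2 (k, l) h1 _ (mult_T S hT)
  · intro k l hkl
    have h1 : e (k, l) ≠ 0 := by
      intro h0
      apply hkl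
      simp [h0]
    have h2 : κ k * (κ l)⁻¹ = κ i * (κ j)⁻¹ := he2 (k, l) h1 _ (mult_k S)
    have h3 := S.ne l
    rw [← h2, mul_assoc, inv_mul_cancel₀ h3, mul_one]

/-- the real diagonal matrix `[x, x*]` -/
noncomputable def tt (x : Matrix I I ℂ) (i : I) : ℂ := (x * xᴴ - xᴴ * x) i i

theorem tt_eq (x : Matrix I I ℂ) (i : I) :
    tt x i = ((∑ k, (‖x i k‖ ^ 2 - ‖x k i‖ ^ 2) : ℝ) : ℂ) := by
  simp only [tt, Matrix.sub_apply, Matrix.mul_apply, Matrix.conjTranspose_apply]
  rw [← Finset.sum_sub_distrib]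
  push_cast
  refine Finset.sum_congr rfl fun k _ => ?_
  rw [← Complex.conj_mul', ← Complex.conj_mul', mul_comm (x i k)]
  rfl

theorem diag_tt (S : Sit h κ) {x : Matrix I I ℂ} {α : (I → ℂ) → ℂ} {c : ℂ}
    (hx : Hom h κ x α c) : x * xᴴ - xᴴ * x = diagonal (tt x) := by
  have hmem : x * xᴴ - xᴴ * x ∈ h := S.lie _ hx.mem _ (S.star _ hx.mem)
  have key : ∀ i j, (x * xᴴ - xᴴ * x) i j ≠ 0 → i = j := by
    refine S.tor _ hmem fun T hT i j hij => ?_
    by_contra hne
    apply hij
    simp only [Matrix.sub_apply, Matrix.mul_apply, Matrix.conjTranspose_apply]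
    have h1 : ∀ k, x i k * star (x j k) = 0 := by
      intro k
      by_contra h0
      have h2 : x i k ≠ 0 := left_ne_zero_of_mul h0
      have h3 : x j k ≠ 0 := by
        intro h4
        apply h0
        simp [h4]
      have h5 := hx.wt i k h2 T hT
      have h6 := hx.wt j k h3 T hT
      exact hne (by linear_combination h5 - h6)
    have h2 : ∀ k, star (x k i) * x k j = 0 := by
      intro k
      by_contra h0
      have h2 : x k j ≠ 0 := right_ne_zero_of_mul h0
      have h3 : x k i ≠ 0 := by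
        intro h4
        apply h0
        simp [h4]
      have h5 := hx.wt k j h2 T hT
      have h6 := hx.wt k i h3 T hT
      exact hne (by linear_combination h5 - h6)
    simp only [h1, h2, Finset.sum_const_zero, sub_zero]
  ext i j
  by_cases hij : i = j
  · subst hij
    rw [Matrix.diagonal_apply_eq]
    rfl
  · rw [Matrix.diagonal_apply_ne _ hij]
    by_contra h0
    exact hij (key i j h0)

theorem mem_tt (S : Sit h κ) {x : Matrix I I ℂ} {α : (I → ℂ) → ℂ} {c : ℂ}
    (hx : Hom h κ x α c) : diagonal (tt x) ∈ h := by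
  rw [← diag_tt S hx]
  exact S.lie _ hx.mem _ (S.star _ hx.mem)

/-- the trace of a diagonal element of `h` against `[x, x*]` -/
theorem sum_tt {x : Matrix I I ℂ} {α : (I → ℂ) → ℂ} {c : ℂ}
    (hx : Hom h κ x α c) {T : I → ℂ} (hT : diagonal T ∈ h) :
    ∑ i, T i * tt x i = α T * (nrm x : ℂ) := by
  have h1 : ∀ i k, (T i - T k) * ((‖x i k‖ ^ 2 : ℝ) : ℂ) = α T * ((‖x i k‖ ^ 2 : ℝ) : ℂ) := by
    intro i k
    by_cases h0 : x i k = 0
    · simp [h0]
    · rw [hx.wt i k h0 T hT]
  have h2 : ∑ i, T i * tt x i = ∑ i, ∑ k, (T i - T k) * ((‖x i k‖ ^ 2 : ℝ) : ℂ) := by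
    have h3 : ∑ i, T i * tt x i = (∑ i, ∑ k, T i * ((‖x i k‖ ^ 2 : ℝ) : ℂ))
        - ∑ i, ∑ k, T i * ((‖x k i‖ ^ 2 : ℝ) : ℂ) := by
      rw [← Finset.sum_sub_distrib]
      refine Finset.sum_congr rfl fun i _ => ?_
      rw [tt_eq, ← Finset.sum_sub_distrib]
      push_cast
      rw [Finset.mul_sum]
      refine Finset.sum_congr rfl fun k _ => ?_
      ring
    rw [h3, Finset.sum_comm (f := fun i k => T i * ((‖x k i‖ ^ 2 : ℝ) : ℂ)),
      ← Finset.sum_sub_distrib]
    refine Finset.sum_congr rfl fun i _ => ?_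
    rw [← Finset.sum_sub_distrib]
    refine Finset.sum_congr rfl fun k _ => ?_
    ring
  rw [h2]
  simp only [h1]
  rw [nrm]
  push_cast
  rw [Finset.mul_sum]
  refine Finset.sum_congr rfl fun i _ => ?_
  rw [Finset.mul_sum]

/-- the type of `[x, x*]` under `α` is a positive real number unless `α` is zero -/
theorem pos_tt (S : Sit h κ) {x : Matrix I I ℂ} {α : (I → ℂ) → ℂ} {c : ℂ}
    (hx : Hom h κ x α c) {a : I → ℂ} (hmem : diagonal a ∈ h) (ha : α a ≠ 0) :
    0 < (α (tt x)).re := by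
  have hn : 0 < nrm x := nrm_pos hx.ne
  have h1 := sum_tt hx hmem
  have h2 := sum_tt hx (mem_tt S hx)
  set r : I → ℝ := fun i => ∑ k, (‖x i k‖ ^ 2 - ‖x k i‖ ^ 2) with hr
  have h3 : ∀ i, tt x i = (r i : ℂ) := fun i => tt_eq x i
  have h4 : ∑ i, tt x i * tt x i = ((∑ i, r i * r i : ℝ) : ℂ) := by
    push_cast
    refine Finset.sum_congr rfl fun i _ => ?_
    rw [h3]
  have h5 : (∑ i, r i * r i : ℝ) = (α (tt x)).re * nrm x := by
    have h6 := congrArg Complex.re (h4.symm.trans h2)
    rw [Complex.ofReal_re, Complex.re_mul_ofReal] at h6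
    exact h6
  have h7 : 0 < ∑ i, r i * r i := by
    obtain ⟨i, hi⟩ : ∃ i, r i ≠ 0 := by
      by_contra hc
      push Not at hc
      apply ha
      have h8 : α a * (nrm x : ℂ) = 0 := by
        rw [← h1]
        refine Finset.sum_eq_zero fun i _ => ?_
        rw [h3, hc i]
        simp
      rcases mul_eq_zero.1 h8 with h9 | h9
      · exact h9
      · exact absurd (Complex.ofReal_eq_zero.1 h9) hn.ne'
    have h8 : 0 < r i * r i := mul_self_pos.2 hi
    have h9 : r i * r i ≤ ∑ i, r i * r i :=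
      Finset.single_le_sum (f := fun i => r i * r i) (fun _ _ => mul_self_nonneg _)
        (Finset.mem_univ i)
    linarith
  rw [h5] at h7
  exact (pos_iff_pos_of_mul_pos h7).2 hn

/-- two homogeneous elements with negative product of types do not commute -/
theorem comm_ne (S : Sit h κ) {x z : Matrix I I ℂ} {α β : (I → ℂ) → ℂ} {c d : ℂ}
    (hx : Hom h κ x α c) (hz : Hom h κ z β d) (hneg : (β (tt x)).re < 0) :
    x * z - z * x ≠ 0 := by
  intro h0
  have hc : x * z = z * x := sub_eq_zero.1 h0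
  have hc' : xᴴ * zᴴ = zᴴ * xᴴ := by
    have := congrArg Matrix.conjTranspose hc
    rw [Matrix.conjTranspose_mul, Matrix.conjTranspose_mul] at this
    exact this.symm
  set y := xᴴ * z - z * xᴴ with hy
  have hyH : yᴴ = zᴴ * x - x * zᴴ := by
    rw [hy, Matrix.conjTranspose_sub, Matrix.conjTranspose_mul, Matrix.conjTranspose_mul,
      Matrix.conjTranspose_conjTranspose]
  have h1 : (y * yᴴ).trace
      = (((x * xᴴ - xᴴ * x) * z - z * (x * xᴴ - xᴴ * x)) * zᴴ).trace := by
    rw [hyH, hy]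
    have e1 : (xᴴ * z * (zᴴ * x)).trace = (x * xᴴ * z * zᴴ).trace := by
      rw [show xᴴ * z * (zᴴ * x) = (xᴴ * z * zᴴ) * x by noncomm_ring, Matrix.trace_mul_comm]
      congr 1
      noncomm_ring
    have e2 : (xᴴ * z * (x * zᴴ)).trace = (xᴴ * x * z * zᴴ).trace := by
      rw [show xᴴ * z * (x * zᴴ) = xᴴ * (z * x) * zᴴ by noncomm_ring, ← hc]
      congr 1
      noncomm_ring
    have e3 : (z * xᴴ * (zᴴ * x)).trace = (z * (x * xᴴ) * zᴴ).trace := by
      rw [show z * xᴴ * (zᴴ * x) = z * (xᴴ * zᴴ) * x by noncomm_ring, Matrix.trace_mul_comm,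
        show x * (z * (xᴴ * zᴴ)) = (x * z) * (xᴴ * zᴴ) by noncomm_ring, hc]
      congr 1
      noncomm_ring
    have e4 : (z * xᴴ * (x * zᴴ)).trace = (z * (xᴴ * x) * zᴴ).trace := by
      congr 1
      noncomm_ring
    simp only [sub_mul, mul_sub, Matrix.trace_sub]
    rw [e1, e2, e3, e4]
    ring
  have h2 : (x * xᴴ - xᴴ * x) * z - z * (x * xᴴ - xᴴ * x) = β (tt x) • z := by
    rw [diag_tt S hx]
    ext i j
    simp only [Matrix.sub_apply, Matrix.diagonal_mul, Matrix.mul_diagonal, Matrix.smul_apply,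
      smul_eq_mul]
    by_cases hij : z i j = 0
    · simp [hij]
    · rw [← hz.wt i j hij _ (mem_tt S hx)]
      ring
  rw [h2, Matrix.smul_mul, Matrix.trace_smul, trace_self, trace_self, smul_eq_mul] at h1
  have h3 := congrArg Complex.re h1
  rw [Complex.ofReal_re, Complex.re_mul_ofReal] at h3
  have h4 := nrm_nonneg y
  have h5 := nrm_pos hz.ne
  have h6 := mul_neg_of_neg_of_pos hneg h5
  linarith

/-- the commutator of two homogeneous elements is homogeneous or zero -/
theorem hom_comm (S : Sit h κ) {x z : Matrix I I ℂ} {α β : (I → ℂ) → ℂ} {c d : ℂ}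
    (hx : Hom h κ x α c) (hz : Hom h κ z β d) (hne : x * z - z * x ≠ 0) :
    Hom h κ (x * z - z * x) (fun T => α T + β T) (c * d) := by
  have key : ∀ i j, (x * z - z * x) i j ≠ 0 →
      ∃ k, (x i k ≠ 0 ∧ z k j ≠ 0) ∨ (z i k ≠ 0 ∧ x k j ≠ 0) := by
    intro i j hij
    by_contra hc
    push Not at hc
    apply hij
    simp only [Matrix.sub_apply, Matrix.mul_apply]
    have h1 : ∀ k, x i k * z k j = 0 := by
      intro k
      by_cases h0 : x i k = 0
      · simp [h0]
      · rw [(hc k).1 h0, mul_zero]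
    have h2 : ∀ k, z i k * x k j = 0 := by
      intro k
      by_cases h0 : z i k = 0
      · simp [h0]
      · rw [(hc k).2 h0, mul_zero]
    simp only [h1, h2, Finset.sum_const_zero, sub_zero]
  refine ⟨S.lie _ hx.mem _ hz.mem, hne, ?_, ?_⟩
  · intro i j hij T hT
    obtain ⟨k, ⟨h1, h2⟩ | ⟨h1, h2⟩⟩ := key i j hij
    · linear_combination hx.wt i k h1 T hT + hz.wt k j h2 T hT
    · linear_combination hz.wt i k h1 T hT + hx.wt k j h2 T hT
  · intro i j hij
    obtain ⟨k, ⟨h1, h2⟩ | ⟨h1, h2⟩⟩ := key i j hij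
    · rw [hx.kk i k h1, hz.kk k j h2]
      ring
    · rw [hz.kk i k h1, hx.kk k j h2]
      ring

/-- a homogeneous element with its type -/
abbrev Tri (I : Type) : Type := Matrix I I ℂ × ((I → ℂ) → ℂ) × ℂ

/-- STEP 2: homogeneous elements whose types add up to zero have product of ratios one -/
theorem prod_one (S : Sit h κ) : ∀ (n : ℕ) (s : Multiset (Tri I)), Multiset.card s = n →
    (∀ p ∈ s, Hom h κ p.1 p.2.1 p.2.2) →
    (∀ T, diagonal T ∈ h → (s.map fun p => p.2.1 T).sum = 0) →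
    (s.map fun p => p.2.2).prod = 1 := by
  intro n
  induction n with
  | zero =>
    intro s hs _ _
    rw [Multiset.card_eq_zero.1 hs]
    simp
  | succ n ih =>
    intro s hs hp hsum
    obtain ⟨p, hps⟩ : ∃ p, p ∈ s := by
      apply Multiset.exists_mem_of_ne_zero
      intro h0
      rw [h0] at hs
      simp at hs
    obtain ⟨s1, rfl⟩ := Multiset.exists_cons_of_mem hps
    have hs1 : Multiset.card s1 = n := by
      rw [Multiset.card_cons] at hs
      omega
    have hP := hp p (Multiset.mem_cons_self p s1)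
    have hp1 : ∀ q ∈ s1, Hom h κ q.1 q.2.1 q.2.2 := fun q hq => hp q (Multiset.mem_cons_of_mem hq)
    by_cases ha : ∀ T, diagonal T ∈ h → p.2.1 T = 0
    · -- the element is diagonal
      obtain ⟨i, j, hij⟩ : ∃ i j, p.1 i j ≠ 0 := by
        by_contra hc
        push Not at hc
        exact hP.ne (by ext i j; simpa using hc i j)
      have h2 : i = j := by
        refine S.tor _ hP.mem (fun T hT k l hkl => ?_) i j hij
        exact sub_eq_zero.1 ((hP.wt k l hkl T hT).trans (ha T hT))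
      subst h2
      have h3 : p.2.2 = 1 := by
        have h4 := hP.kk i i hij
        have h5 := S.ne i
        exact (mul_right_cancel₀ h5 (by rw [one_mul]; exact h4)).symm
      have h4 := ha
      rw [Multiset.map_cons, Multiset.prod_cons, h3, one_mul]
      refine ih s1 hs1 hp1 fun T hT => ?_
      have h5 := hsum T hT
      rw [Multiset.map_cons, Multiset.sum_cons, h4 T hT, zero_add] at h5
      exact h5
    · push Not at ha
      obtain ⟨a, hmem, ha⟩ := ha
      have h1 := pos_tt S hP hmem ha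
      have h2 := hsum _ (mem_tt S hP)
      rw [Multiset.map_cons, Multiset.sum_cons] at h2
      obtain ⟨q, hq, hneg⟩ : ∃ q : Tri I, q ∈ s1 ∧ (q.2.1 (tt p.1)).re < 0 := by
        by_contra hc
        push Not at hc
        have h3 := congrArg Complex.re h2
        rw [Complex.add_re, Complex.zero_re] at h3
        have h4 : ((s1.map fun q : Tri I => q.2.1 (tt p.1)).sum).re
            = (s1.map fun q : Tri I => (q.2.1 (tt p.1)).re).sum := by
          have h5 := Multiset.sum_hom (s1.map fun q : Tri I => q.2.1 (tt p.1)) Complex.reAddGroupHom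
          rw [Multiset.map_map] at h5
          exact h5.symm
        have h5 : 0 ≤ (s1.map fun q : Tri I => (q.2.1 (tt p.1)).re).sum := by
          apply Multiset.sum_nonneg
          intro r hr
          obtain ⟨q, hq, rfl⟩ := Multiset.mem_map.1 hr
          exact hc q hq
        rw [h4] at h3
        linarith
      obtain ⟨s2, rfl⟩ := Multiset.exists_cons_of_mem hq
      have hQ := hp1 q (Multiset.mem_cons_self q s2)
      have hne := comm_ne S hP hQ hneg
      have hPQ := hom_comm S hP hQ hne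
      have h6 := ih ((p.1 * q.1 - q.1 * p.1, (fun T => p.2.1 T + q.2.1 T), p.2.2 * q.2.2) ::ₘ s2)
        (by rw [Multiset.card_cons]; rw [Multiset.card_cons] at hs1; exact hs1) ?_ ?_
      · rw [Multiset.map_cons, Multiset.prod_cons] at h6
        rw [Multiset.map_cons, Multiset.prod_cons, Multiset.map_cons, Multiset.prod_cons,
          ← mul_assoc]
        exact h6
      · intro r hr
        rcases Multiset.mem_cons.1 hr with rfl | hr
        · exact hPQ
        · exact hp1 r (Multiset.mem_cons_of_mem hr)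
      · intro T hT
        have h7 := hsum T hT
        rw [Multiset.map_cons, Multiset.sum_cons, Multiset.map_cons, Multiset.sum_cons,
          ← add_assoc] at h7
        rw [Multiset.map_cons, Multiset.sum_cons]
        exact h7

/-- `i` is connected to `j` by homogeneous elements -/
def Conn (h : Submodule ℂ (Matrix I I ℂ)) (κ : I → ℂ) (i j : I) : Prop :=
  ∃ s : Multiset (Tri I), (∀ p ∈ s, Hom h κ p.1 p.2.1 p.2.2) ∧
    (∀ T, diagonal T ∈ h → T i = T j + (s.map fun p => p.2.1 T).sum) ∧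
    κ i = (s.map fun p => p.2.2).prod * κ j

theorem Conn.refl (i : I) : Conn h κ i i :=
  ⟨0, by simp, by simp, by simp⟩

/-- entries of elements of `h` connect -/
theorem Conn.step (S : Sit h κ) {i j k : I} {A : Matrix I I ℂ} (hA : A ∈ h)
    (hij : A i j ≠ 0) (hjk : Conn h κ j k) : Conn h κ i k := by
  obtain ⟨y, hy, -⟩ := exists_hom S hA hij
  obtain ⟨s, h1, h2, h3⟩ := hjk
  refine ⟨(y, (fun T => T i - T j), κ i * (κ j)⁻¹) ::ₘ s, ?_, ?_, ?_⟩
  · intro p hp
    rcases Multiset.mem_cons.1 hp with rfl | hp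
    · exact hy
    · exact h1 p hp
  · intro T hT
    rw [Multiset.map_cons, Multiset.sum_cons]
    have h4 := h2 T hT
    linear_combination h4
  · rw [Multiset.map_cons, Multiset.prod_cons]
    have h4 := S.ne j
    have h5 : κ i * (κ j)⁻¹ * κ j = κ i := by
      rw [mul_assoc, inv_mul_cancel₀ h4, mul_one]
    rw [mul_assoc, ← h3]
    exact h5.symm

/-- letters that neither `h` nor `κ` separates are connected -/
theorem Conn.same {i j k : I} (h1 : ∀ T, diagonal T ∈ h → T i = T j) (h2 : κ i = κ j)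
    (hjk : Conn h κ j k) : Conn h κ i k := by
  obtain ⟨s, h3, h4, h5⟩ := hjk
  exact ⟨s, h3, fun T hT => (h1 T hT).trans (h4 T hT), h2.trans h5⟩

/-- LEMMA R, general form: two words with connected letters and equal weights -/
theorem prod_eq (S : Sit h κ) {ι : Type} [Fintype ι] (w b : ι → I)
    (hc : ∀ j, Conn h κ (w j) (b j))
    (hw : ∀ T, diagonal T ∈ h → ∑ j, T (w j) = ∑ j, T (b j)) :
    ∏ j, κ (w j) = ∏ j, κ (b j) := by
  choose s h1 h2 h3 using hc
  have h4 := prod_one S (Multiset.card (∑ j, s j)) (∑ j, s j) rfl ?_ ?_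
  · have h5 : ((∑ j, s j).map fun p => p.2.2).prod = ∏ j, ((s j).map fun p => p.2.2).prod := by
      rw [← Multiset.coe_mapAddMonoidHom, map_sum, Multiset.prod_sum]
    rw [h5] at h4
    calc ∏ j, κ (w j) = ∏ j, (((s j).map fun p => p.2.2).prod * κ (b j)) :=
          Finset.prod_congr rfl fun j _ => h3 j
      _ = ∏ j, κ (b j) := by rw [Finset.prod_mul_distrib, h4, one_mul]
  · intro p hp
    rw [Multiset.mem_sum] at hp
    obtain ⟨j, -, hj⟩ := hp
    exact h1 j p hj
  · intro T hT
    have h5 : ((∑ j, s j).map fun p => p.2.1 T).sum = ∑ j, ((s j).map fun p => p.2.1 T).sum := by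
      rw [← Multiset.coe_mapAddMonoidHom, map_sum, Multiset.sum_sum]
    rw [h5]
    have h6 : ∀ j, ((s j).map fun p => p.2.1 T).sum = T (w j) - T (b j) := by
      intro j
      linear_combination -(h2 j T hT)
    simp only [h6]
    rw [Finset.sum_sub_distrib, hw T hT, sub_self]

end

/-- LEMMA R, blocks: a word of even length on which the diagonal part of `h` has weight zero. -/
theorem lemRB {h : Submodule ℂ (Matrix I I ℂ)} {κ : I → ℂ} (S : Sit h κ)
    (hirr : ∀ J : Set I, J.Nonempty → J ≠ Set.univ → ∃ i, i ∉ J ∧ ∃ j ∈ J,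
      (∃ X ∈ h, X i j ≠ 0) ∨ ((∀ T, diagonal T ∈ h → T i = T j) ∧ κ i = κ j))
    (i0 j0 : I) (hT : ∀ T, diagonal T ∈ h → T i0 + T j0 = 0) (hκ : κ i0 * κ j0 = 1)
    {l : ℕ} (w : Fin (l + l) → I) (hw : ∀ T, diagonal T ∈ h → ∑ j, T (w j) = 0) :
    ∏ j, κ (w j) = 1 := by
  have hall : ∀ i j : I, Conn h κ i j := by
    intro i j
    have h1 : {i | Conn h κ i j} = Set.univ := by
      by_contra hne
      obtain ⟨i, hi, k, hk, hX | ⟨hX1, hX2⟩⟩ := hirr {i | Conn h κ i j} ⟨j, Conn.refl j⟩ hne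
      · obtain ⟨X, hXh, hXik⟩ := hX
        exact hi (Conn.step S hXh hXik hk)
      · exact hi (Conn.same hX1 hX2 hk)
    have h2 : i ∈ {i | Conn h κ i j} := by
      rw [h1]
      exact Set.mem_univ i
    exact h2
  have h1 := prod_eq S w (Fin.append (fun _ : Fin l => i0) (fun _ : Fin l => j0))
    (fun j => hall _ _) ?_
  · rw [h1, Fin.prod_univ_add]
    simp only [Fin.append_left, Fin.append_right, Finset.prod_const, Finset.card_univ,
      Fintype.card_fin]
    rw [← mul_pow, hκ, one_pow]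
  · intro T hT'
    rw [hw T hT', Fin.sum_univ_add]
    simp only [Fin.append_left, Fin.append_right, Finset.sum_const, Finset.card_univ,
      Fintype.card_fin]
    rw [← smul_add, hT T hT', smul_zero]

/-- LEMMA R for one letter: a word of even length on which the diagonal part of `h` has weight
zero. -/
theorem lemR (h : Submodule ℂ (Matrix I I ℂ))
    (hlie : ∀ A ∈ h, ∀ B ∈ h, A * B - B * A ∈ h) (hstar : ∀ A ∈ h, Aᴴ ∈ h)
    (κ : I → ℂ) (hκ : ∀ i, κ i ≠ 0)
    (hk : ∀ A ∈ h, diagonal κ * A * diagonal (fun i => (κ i)⁻¹) ∈ h)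
    (a : I → ℂ) (ha : Function.Injective a) (hA : diagonal a ∈ h)
    (hirr : ∀ J : Set I, J.Nonempty →
      (∀ A ∈ h, ∀ i j, j ∈ J → A i j ≠ 0 → i ∈ J) → J = Set.univ)
    (τ : I → I) (hτκ : ∀ i, κ (τ i) * κ i = 1)
    (hτ : ∀ T, diagonal T ∈ h → ∀ i, T (τ i) = - T i)
    {l : ℕ} (w : Fin (l + l) → I) (hw : ∀ T, diagonal T ∈ h → ∑ j, T (w j) = 0) :
    ∏ j, κ (w j) = 1 := by
  have S : Sit h κ := Sit.of_inj hlie hstar hκ hk a ha hA
  rcases l with _ | l
  · simp
  refine lemRB S ?_ (w 0) (τ (w 0)) ?_ ?_ w hw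
  · intro J hJ hne
    by_contra hc
    push Not at hc
    apply hne
    refine hirr J hJ fun A hA i j hj hij => ?_
    by_contra hi
    exact hij ((hc i hi j hj).1 A hA)
  · intro T hT
    rw [hτ T hT, add_neg_cancel]
  · rw [mul_comm, hτκ]

end Pool.Agent.Lib.MP_361a6f_ag.FL.E.LemR
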