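import Pool.Agent.Lib.MP_361a6f_ag.FL.E.Defs
import Pool.Agent.Lib.MP_361a6f_ag.FL.E.LemR
import Pool.Agent.Lib.MP_361a6f_ag.FL.Alg1

/-!
# Theorem E+, unitary coordinates

A maximal commutative `*`-closed subspace `t` of `h` with `diag a` in `t` is diagonalised by a
unitary matrix `U`; `diag k` stays diagonal, and `U* h U` satisfies the hypotheses `Sit` of the
elementary Lemma R (`FL/E/LemR.lean`). The entries of matrices that commute with `h` and `diag k`
only connect letters that neither `t` nor `k` separates.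
-/

set_option autoImplicit false
set_option linter.unusedSectionVars false

open Matrix Module

namespace Pool.Agent.Lib.MP_361a6f_ag.FL.E.P5e

section

variable {I : Type} [Fintype I] [DecidableEq I]

/-- commuting hermitian matrices have a common unitary diagonalisation -/
theorem joint_diag (S : Set (Matrix I I ℂ))
    (hS : ∀ A ∈ S, Aᴴ = A) (hc : ∀ A ∈ S, ∀ B ∈ S, A * B = B * A) :
    ∃ U : Matrix I I ℂ, Uᴴ * U = 1 ∧ U * Uᴴ = 1 ∧
      ∀ A ∈ S, ∃ d : I → ℂ, A * U = U * diagonal d := by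
  classical
  let T : S → (EuclideanSpace ℂ I →ₗ[ℂ] EuclideanSpace ℂ I) := fun A => Matrix.toEuclideanLin A.1
  have hT : ∀ A, (T A).IsSymmetric := fun A => Matrix.isSymmetric_toEuclideanLin_iff.2 (hS A.1 A.2)
  have hC : Pairwise (Function.onFun Commute T) := by
    intro A B _
    show T A * T B = T B * T A
    show Matrix.toEuclideanLin A.1 ∘ₗ Matrix.toEuclideanLin B.1
      = Matrix.toEuclideanLin B.1 ∘ₗ Matrix.toEuclideanLin A.1
    rw [← Matrix.toLpLin_mul_same, ← Matrix.toLpLin_mul_same, hc A.1 A.2 B.1 B.2]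
  have hI := LinearMap.IsSymmetric.directSum_isInternal_of_pairwise_commute hT hC
  have hO := LinearMap.IsSymmetric.orthogonalFamily_iInf_eigenspaces hT
  let b := hI.collectedBasis fun γ =>
    (stdOrthonormalBasis ℂ (⨅ j, Module.End.eigenspace (T j) (γ j) : Submodule ℂ _)).toBasis
  have hb : Orthonormal ℂ b :=
    DirectSum.IsInternal.collectedBasis_orthonormal hO hI fun γ => by simp
  have := FiniteDimensional.fintypeBasisIndex b
  have hcard := Module.finrank_eq_card_basis b
  rw [finrank_euclideanSpace] at hcard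
  let e := Fintype.equivOfCardEq hcard
  have hmem : ∀ j A, T A (b (e j)) = (e j).1 A • b (e j) := by
    intro j A
    have h1 := hI.collectedBasis_mem (fun γ =>
      (stdOrthonormalBasis ℂ (⨅ j, Module.End.eigenspace (T j) (γ j) : Submodule ℂ _)).toBasis)
      (e j)
    exact Module.End.mem_eigenspace_iff.1 ((Submodule.mem_iInf _).1 h1 A)
  let U : Matrix I I ℂ := Matrix.of fun i j => (b (e j)).ofLp i
  have hU : Uᴴ * U = 1 := by
    ext i j
    have h1 := (orthonormal_iff_ite.1 hb) (e i) (e j)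
    rw [Matrix.mul_apply, Matrix.one_apply]
    have h2 : (inner ℂ (b (e i)) (b (e j)) : ℂ) = ∑ k, Uᴴ i k * U k j := by
      rw [EuclideanSpace.inner_eq_star_dotProduct]
      simp only [dotProduct, Matrix.conjTranspose_apply, U, Matrix.of_apply, Pi.star_apply]
      exact Finset.sum_congr rfl fun k _ => mul_comm _ _
    rw [← h2, h1]
    simp
  refine ⟨U, hU, mul_eq_one_comm.1 hU, fun A hA => ⟨fun j => (e j).1 ⟨A, hA⟩, ?_⟩⟩
  ext i j
  rw [Matrix.mul_diagonal, Matrix.mul_apply]
  have h1 := congrArg (fun v => v.ofLp i) (hmem j ⟨A, hA⟩)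
  simp only [T, Matrix.toLpLin_apply, PiLp.smul_apply, smul_eq_mul] at h1
  rw [mul_comm]
  exact h1

/-- `t` is a commutative subspace of `h` closed under `*` -/
structure Tor (h t : Submodule ℂ (Matrix I I ℂ)) : Prop where
  le : t ≤ h
  star : ∀ A ∈ t, Aᴴ ∈ t
  comm : ∀ A ∈ t, ∀ B ∈ t, A * B = B * A

theorem exists_tor (h : Submodule ℂ (Matrix I I ℂ)) (hstar : ∀ A ∈ h, Aᴴ ∈ h)
    (a0 : Matrix I I ℂ) (ha0 : a0 ∈ h) (hh : a0ᴴ = a0) :
    ∃ t, Tor h t ∧ a0 ∈ t ∧ ∀ X ∈ h, (∀ A ∈ t, A * X = X * A) → X ∈ t := by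
  have h0 : Tor h (Submodule.span ℂ {a0}) := by
    refine ⟨(Submodule.span_singleton_le_iff_mem _ _).2 ha0, ?_, ?_⟩
    · intro A hA
      obtain ⟨c, rfl⟩ := Submodule.mem_span_singleton.1 hA
      rw [conjTranspose_smul, hh]
      exact Submodule.smul_mem _ _ (Submodule.mem_span_singleton_self a0)
    · intro A hA B hB
      obtain ⟨c, rfl⟩ := Submodule.mem_span_singleton.1 hA
      obtain ⟨d, rfl⟩ := Submodule.mem_span_singleton.1 hB
      rw [smul_mul_assoc, mul_smul_comm, smul_mul_assoc, mul_smul_comm, smul_comm]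
  obtain ⟨t, ⟨ht, hat⟩, hmax⟩ := WellFounded.has_min
    (wellFounded_gt (α := Submodule ℂ (Matrix I I ℂ))) {t | Tor h t ∧ a0 ∈ t}
    ⟨_, h0, Submodule.mem_span_singleton_self a0⟩
  have key : ∀ X ∈ h, Xᴴ = X → (∀ A ∈ t, A * X = X * A) → X ∈ t := by
    intro X hX hXX hc
    have h1 : Tor h (t ⊔ Submodule.span ℂ {X}) := by
      have hform : ∀ A ∈ t ⊔ Submodule.span ℂ {X}, ∃ B ∈ t, ∃ c : ℂ, A = B + c • X := by
        intro A hA
        obtain ⟨B, hB, C, hC, rfl⟩ := Submodule.mem_sup.1 hA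
        obtain ⟨c, rfl⟩ := Submodule.mem_span_singleton.1 hC
        exact ⟨B, hB, c, rfl⟩
      refine ⟨sup_le ht.le ((Submodule.span_singleton_le_iff_mem _ _).2 hX), ?_, ?_⟩
      · intro A hA
        obtain ⟨B, hB, c, rfl⟩ := hform A hA
        rw [conjTranspose_add, conjTranspose_smul, hXX]
        exact Submodule.add_mem_sup (ht.star B hB)
          (Submodule.smul_mem _ _ (Submodule.mem_span_singleton_self X))
      · intro A hA A' hA'
        obtain ⟨B, hB, c, rfl⟩ := hform A hA
        obtain ⟨B', hB', c', rfl⟩ := hform A' hA'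
        simp only [add_mul, mul_add, smul_mul_assoc, mul_smul_comm, ht.comm B hB B' hB',
          hc B hB, hc B' hB', smul_add]
        rw [smul_comm c c' (X * X)]
        abel
    have h2 := hmax _ ⟨h1, Submodule.mem_sup_left hat⟩
    by_contra hXt
    apply h2
    refine lt_of_le_of_ne le_sup_left fun he => hXt ?_
    rw [he]
    exact Submodule.mem_sup_right (Submodule.mem_span_singleton_self X)
  refine ⟨t, ht, hat, fun X hX hc => ?_⟩
  have hc' : ∀ A ∈ t, A * Xᴴ = Xᴴ * A := by
    intro A hA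
    have h1 := congrArg conjTranspose (hc Aᴴ (ht.star A hA))
    rw [conjTranspose_mul, conjTranspose_mul, conjTranspose_conjTranspose] at h1
    exact h1.symm
  have h1 := key (X + Xᴴ) (h.add_mem hX (hstar X hX))
    (by rw [conjTranspose_add, conjTranspose_conjTranspose, add_comm])
    (fun A hA => by rw [mul_add, add_mul, hc A hA, hc' A hA])
  have h2 := key (Complex.I • (X - Xᴴ)) (h.smul_mem _ (h.sub_mem hX (hstar X hX)))
    (by
      rw [conjTranspose_smul, conjTranspose_sub, conjTranspose_conjTranspose, Complex.star_def,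
        Complex.conj_I, neg_smul, ← smul_neg, neg_sub])
    (fun A hA => by rw [mul_smul_comm, smul_mul_assoc, mul_sub, sub_mul, hc A hA, hc' A hA])
  have h3 : X = (1 / 2 : ℂ) • ((X + Xᴴ) + (-Complex.I) • (Complex.I • (X - Xᴴ))) := by
    rw [smul_smul, neg_mul, Complex.I_mul_I, neg_neg, one_smul, add_add_sub_cancel, ← two_smul ℂ X,
      smul_smul]
    norm_num
  rw [h3]
  exact t.smul_mem _ (t.add_mem h1 (t.smul_mem _ h2))

/-- the action of a diagonal matrix on a tensor -/
theorem gT_diag {L : ℕ} (κ : I → ℂ) (u : Ten I L) (w : Fin L → I) :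
    gT (diagonal κ) u w = (∏ j, κ (w j)) * u w := by
  unfold gT
  rw [Finset.sum_eq_single w]
  · simp
  · intro w' _ hw
    obtain ⟨i, hi⟩ := Function.ne_iff.1 hw
    refine mul_eq_zero_of_left (Finset.prod_eq_zero (Finset.mem_univ i) ?_) _
    exact diagonal_apply_ne _ (Ne.symm hi)
  · intro h
    exact absurd (Finset.mem_univ w) h

theorem aT_diag {L : ℕ} (T : I → ℂ) (u : Ten I L) (w : Fin L → I) :
    aT (diagonal T) u w = (∑ j, T (w j)) * u w := by
  unfold aT
  rw [Finset.sum_mul]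
  refine Finset.sum_congr rfl fun i _ => ?_
  rw [Finset.sum_eq_single (w i)]
  · simp
  · intro j _ hj
    rw [diagonal_apply_ne _ (Ne.symm hj), zero_mul]
  · intro h
    exact absurd (Finset.mem_univ (w i)) h

end

/-- the subspace `U* S U` -/
def conjS {I : Type} [Fintype I] (U : Matrix I I ℂ)
    (S : Submodule ℂ (Matrix I I ℂ)) : Submodule ℂ (Matrix I I ℂ) :=
  S.comap
    ({ toFun := fun X => U * X * Uᴴ
       map_add' := fun X Y => by rw [mul_add, add_mul]
       map_smul' := fun c X => by rw [mul_smul_comm, smul_mul_assoc, RingHom.id_apply] } :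
      Matrix I I ℂ →ₗ[ℂ] Matrix I I ℂ)

theorem mem_conjS {I : Type} [Fintype I] {U : Matrix I I ℂ}
    {S : Submodule ℂ (Matrix I I ℂ)} {X : Matrix I I ℂ} :
    X ∈ conjS U S ↔ U * X * Uᴴ ∈ S := Iff.rfl

/-- unitary coordinates adapted to `S`, `E` and `diag k` -/
structure Frame {I : Type} [Fintype I] [DecidableEq I] (S : Submodule ℂ (Matrix I I ℂ))
    (E : Set (Matrix I I ℂ)) (k : I → ℂ) (U : Matrix I I ℂ) (κ : I → ℂ) : Prop where
  u1 : Uᴴ * U = 1
  u2 : U * Uᴴ = 1
  kU : diagonal k * U = U * diagonal κ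
  val : ∀ i, ∃ j, κ i = k j
  mem : ∀ A ∈ S, Uᴴ * A * U ∈ conjS U S
  sit : LemR.Sit (conjS U S) κ
  same : ∀ e ∈ E, ∀ i j, (Uᴴ * e * U) i j ≠ 0 →
    (∀ T, diagonal T ∈ conjS U S → T i = T j) ∧ κ i = κ j
  kill : ∀ (L : ℕ) (u : Ten I L), (∀ A ∈ S, aT A u = 0) →
    ∀ X ∈ conjS U S, aT X (gT Uᴴ u) = 0
  eqv : ∀ i j, (∀ T, diagonal T ∈ conjS U S → T i = T j) → κ i = κ j

theorem exists_frame {I : Type} [Fintype I] [DecidableEq I] (S : Submodule ℂ (Matrix I I ℂ))
    (E : Set (Matrix I I ℂ)) (hlie : ∀ x ∈ S, ∀ y ∈ S, x * y - y * x ∈ S)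
    (hstar : ∀ x ∈ S, x.conjTranspose ∈ S) (hE : ∀ e ∈ E, ∀ A ∈ S, e * A = A * e)
    (a : I → ℂ) (hreal : ∀ i, (starRingEnd ℂ) (a i) = a i) (ha : Matrix.diagonal a ∈ S)
    (k : I → ℂ) (hk : ∀ i, k i ≠ 0) (hak : ∀ i j, a i = a j → k i = k j)
    (hEk : ∀ e ∈ E, e * Matrix.diagonal k = Matrix.diagonal k * e)
    (had : ∀ A ∈ S, Matrix.diagonal k * A * Matrix.diagonal (fun i => (k i)⁻¹) ∈ S) :
    ∃ (U : Matrix I I ℂ) (κ : I → ℂ), Frame S E k U κ := by
  have a1 : Alg1 := alg1
  obtain ⟨t, ht, hat, hmax⟩ := exists_tor S hstar (diagonal a) ha (by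
    rw [diagonal_conjTranspose]
    congr 1
    funext i
    exact hreal i)
  obtain ⟨U, hU1, hU2, hd⟩ := joint_diag {A | A ∈ t ∧ Aᴴ = A} (fun A hA => hA.2)
    (fun A hA B hB => ht.comm A hA.1 B hB.1)
  -- all of `t` is diagonalised
  have hdt : ∀ A ∈ t, ∃ d : I → ℂ, A * U = U * diagonal d := by
    intro A hA
    obtain ⟨d1, hd1⟩ := hd (A + Aᴴ) ⟨t.add_mem hA (ht.star A hA), by
      rw [conjTranspose_add, conjTranspose_conjTranspose, add_comm]⟩
    obtain ⟨d2, hd2⟩ := hd (Complex.I • (A - Aᴴ))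
      ⟨t.smul_mem _ (t.sub_mem hA (ht.star A hA)), by
        rw [conjTranspose_smul, conjTranspose_sub, conjTranspose_conjTranspose, Complex.star_def,
          Complex.conj_I, neg_smul, ← smul_neg, neg_sub]⟩
    refine ⟨fun i => (1 / 2 : ℂ) * (d1 i + (-Complex.I) * d2 i), ?_⟩
    have h3 : A = (1 / 2 : ℂ) • ((A + Aᴴ) + (-Complex.I) • (Complex.I • (A - Aᴴ))) := by
      rw [smul_smul, neg_mul, Complex.I_mul_I, neg_neg, one_smul, add_add_sub_cancel,
        ← two_smul ℂ A, smul_smul]
      norm_num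
    rw [h3, smul_mul_assoc, add_mul, smul_mul_assoc (-Complex.I), hd1, hd2]
    ext i j
    simp only [Matrix.smul_apply, Matrix.add_apply, Matrix.mul_diagonal, smul_eq_mul]
    ring
  obtain ⟨a', ha'⟩ := hdt _ hat
  have hcol : ∀ j, ∃ i, U i j ≠ 0 := by
    intro j
    by_contra hc
    push Not at hc
    have h1 := congrFun (congrFun hU1 j) j
    rw [Matrix.mul_apply, Matrix.one_apply_eq] at h1
    simp [hc] at h1
  choose r hr using hcol
  have hent : ∀ i j, U i j ≠ 0 → a i = a' j := by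
    intro i j hij
    have h1 := congrFun (congrFun ha' i) j
    rw [Matrix.diagonal_mul, Matrix.mul_diagonal, mul_comm] at h1
    exact mul_left_cancel₀ hij h1
  set κ : I → ℂ := fun j => k (r j) with hκdef
  have hκe : ∀ i j, U i j ≠ 0 → k i = κ j := fun i j hij =>
    hak i (r j) ((hent i j hij).trans (hent (r j) j (hr j)).symm)
  have hκ : diagonal k * U = U * diagonal κ := by
    ext i j
    rw [Matrix.diagonal_mul, Matrix.mul_diagonal]
    by_cases h0 : U i j = 0
    · simp [h0]
    · rw [hκe i j h0, mul_comm]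
  have hκ' : diagonal (fun i => (κ i)⁻¹) * Uᴴ = Uᴴ * diagonal (fun i => (k i)⁻¹) := by
    ext i j
    rw [Matrix.diagonal_mul, Matrix.mul_diagonal, Matrix.conjTranspose_apply]
    by_cases h0 : U j i = 0
    · simp [h0]
    · rw [hκe j i h0, mul_comm]
  have hUk : Uᴴ * diagonal k = diagonal κ * Uᴴ := by
    calc Uᴴ * diagonal k = Uᴴ * (diagonal k * U) * Uᴴ := by
          rw [Matrix.mul_assoc, Matrix.mul_assoc, hU2, Matrix.mul_one]
      _ = diagonal κ * Uᴴ := by rw [hκ, ← Matrix.mul_assoc, hU1, Matrix.one_mul]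
  set h' : Submodule ℂ (Matrix I I ℂ) := conjS U S with hh'
  have hm : ∀ X, X ∈ h' ↔ U * X * Uᴴ ∈ S := fun X => Iff.rfl
  have hmS : ∀ A ∈ S, Uᴴ * A * U ∈ h' := by
    intro A hA
    rw [hm]
    have e : U * (Uᴴ * A * U) * Uᴴ = A := by
      calc U * (Uᴴ * A * U) * Uᴴ = (U * Uᴴ) * A * (U * Uᴴ) := by noncomm_ring
        _ = A := by rw [hU2, Matrix.one_mul, Matrix.mul_one]
    rw [e]
    exact hA
  have emul : ∀ A B, U * (A * B) * Uᴴ = (U * A * Uᴴ) * (U * B * Uᴴ) := by
    intro A B
    calc U * (A * B) * Uᴴ = U * A * 1 * B * Uᴴ := by rw [Matrix.mul_one]; noncomm_ring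
      _ = (U * A * Uᴴ) * (U * B * Uᴴ) := by rw [← hU1]; noncomm_ring
  have hsit : LemR.Sit h' κ := by
    refine ⟨?_, ?_, fun i => hk _, ?_, ?_⟩
    · intro A hA B hB
      rw [hm] at hA hB ⊢
      rw [mul_sub, sub_mul, emul, emul]
      exact hlie _ hA _ hB
    · intro A hA
      rw [hm] at hA ⊢
      have h1 := hstar _ hA
      rw [conjTranspose_mul, conjTranspose_mul, conjTranspose_conjTranspose,
        ← Matrix.mul_assoc] at h1
      exact h1
    · intro A hA
      rw [hm] at hA ⊢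
      have h1 := had _ hA
      have e : U * (diagonal κ * A * diagonal (fun i => (κ i)⁻¹)) * Uᴴ
          = diagonal k * (U * A * Uᴴ) * diagonal (fun i => (k i)⁻¹) := by
        calc U * (diagonal κ * A * diagonal (fun i => (κ i)⁻¹)) * Uᴴ
            = (U * diagonal κ) * A * (diagonal (fun i => (κ i)⁻¹) * Uᴴ) := by
              simp only [Matrix.mul_assoc]
          _ = diagonal k * (U * A * Uᴴ) * diagonal (fun i => (k i)⁻¹) := by
              rw [← hκ, hκ']
              simp only [Matrix.mul_assoc]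
      rw [e]
      exact h1
    · intro X hX hT
      have hXt : U * X * Uᴴ ∈ t := by
        refine hmax _ ((hm X).1 hX) fun A hA => ?_
        obtain ⟨d, hdA⟩ := hdt A hA
        have eA : A = U * diagonal d * Uᴴ := by
          rw [← hdA, Matrix.mul_assoc, hU2, Matrix.mul_one]
        have hdm : diagonal d ∈ h' := by
          rw [hm, ← eA]
          exact ht.le hA
        have h1 := hT d hdm
        have h2 : diagonal d * X = X * diagonal d := by
          ext i j
          rw [Matrix.diagonal_mul, Matrix.mul_diagonal]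
          by_cases h0 : X i j = 0
          · simp [h0]
          · rw [h1 i j h0, mul_comm]
        rw [eA, ← emul, ← emul, h2]
      obtain ⟨d, hdX⟩ := hdt _ hXt
      have e : X = diagonal d := by
        have h1 : U * X * Uᴴ * U = U * X := by
          rw [Matrix.mul_assoc, hU1, Matrix.mul_one]
        rw [h1] at hdX
        calc X = Uᴴ * (U * X) := by rw [← Matrix.mul_assoc, hU1, Matrix.one_mul]
          _ = diagonal d := by rw [hdX, ← Matrix.mul_assoc, hU1, Matrix.one_mul]
      intro i j hij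
      by_contra hne
      rw [e, diagonal_apply_ne _ hne] at hij
      exact hij rfl
  -- the entries of the endomorphisms
  have hsame : ∀ e ∈ E, ∀ i j, (Uᴴ * e * U) i j ≠ 0 →
      (∀ T, diagonal T ∈ h' → T i = T j) ∧ κ i = κ j := by
    intro e he i j hij
    refine ⟨fun T hT => ?_, ?_⟩
    · have h1 := hE e he _ ((hm _).1 hT)
      have h2 : (Uᴴ * e * U) * diagonal T = diagonal T * (Uᴴ * e * U) := by
        calc (Uᴴ * e * U) * diagonal T
            = Uᴴ * (e * (U * diagonal T * Uᴴ)) * U := by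
              calc (Uᴴ * e * U) * diagonal T = (Uᴴ * e * U) * diagonal T * (Uᴴ * U) := by
                    rw [hU1, Matrix.mul_one]
                _ = _ := by simp only [Matrix.mul_assoc]
          _ = Uᴴ * ((U * diagonal T * Uᴴ) * e) * U := by rw [h1]
          _ = diagonal T * (Uᴴ * e * U) := by
              calc Uᴴ * ((U * diagonal T * Uᴴ) * e) * U
                  = (Uᴴ * U) * (diagonal T * (Uᴴ * e * U)) := by simp only [Matrix.mul_assoc]
                _ = _ := by rw [hU1, Matrix.one_mul]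
      have h3 := congrFun (congrFun h2 i) j
      rw [Matrix.diagonal_mul, Matrix.mul_diagonal, mul_comm] at h3
      exact (mul_right_cancel₀ hij h3).symm
    · have h2 : (Uᴴ * e * U) * diagonal κ = diagonal κ * (Uᴴ * e * U) := by
        calc (Uᴴ * e * U) * diagonal κ = Uᴴ * e * (U * diagonal κ) := by
              simp only [Matrix.mul_assoc]
          _ = Uᴴ * (e * diagonal k) * U := by
              rw [← hκ]
              simp only [Matrix.mul_assoc]
          _ = Uᴴ * diagonal k * e * U := by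
              rw [hEk e he]
              simp only [Matrix.mul_assoc]
          _ = diagonal κ * (Uᴴ * e * U) := by
              rw [hUk]
              simp only [Matrix.mul_assoc]
      have h3 := congrFun (congrFun h2 i) j
      rw [Matrix.diagonal_mul, Matrix.mul_diagonal, mul_comm] at h3
      exact (mul_right_cancel₀ hij h3).symm
  have heqv : ∀ i j, (∀ T, diagonal T ∈ h' → T i = T j) → κ i = κ j := by
    intro i j hT
    have h1 : diagonal a' ∈ h' := by
      have e : diagonal a' = Uᴴ * diagonal a * U := by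
        rw [Matrix.mul_assoc, ha', ← Matrix.mul_assoc, hU1, Matrix.one_mul]
      rw [e]
      exact hmS _ ha
    have h2 := hT a' h1
    exact hak _ _ (by rw [hent _ _ (hr i), hent _ _ (hr j), h2])
  refine ⟨U, κ, hU1, hU2, hκ, fun i => ⟨r i, rfl⟩, hmS, hsit, hsame, fun L u hu X hX => ?_,
    heqv⟩
  have hg : (Uᴴ)⁻¹ = U := Matrix.inv_eq_right_inv hU1
  have h1 := a1.gT_aT Uᴴ (U * X * Uᴴ) u (by rw [hg, hU1])
  rw [hu _ ((hm X).1 hX), hg] at h1
  have e : Uᴴ * (U * X * Uᴴ) * U = X := by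
    calc Uᴴ * (U * X * Uᴴ) * U = (Uᴴ * U) * X * (Uᴴ * U) := by simp only [Matrix.mul_assoc]
      _ = X := by rw [hU1, Matrix.one_mul, Matrix.mul_one]
  rw [e] at h1
  rw [← h1]
  funext w
  simp [gT]

end Pool.Agent.Lib.MP_361a6f_ag.FL.E.P5e
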