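import Pool.Agent.Lib.MP_361a6f_ag.FL.E.DefsP
import Pool.Agent.Lib.MP_361a6f_ag.FL.E.Frame43

/-!
# Theorem E+, row P5, elementary proof

In the unitary coordinates of `FL/E/Frame43.lean` the elementary Lemma R applies: all letters are
connected, so the product of `k` over a word of weight zero depends only on the length of the word,
and it is multiplicative.
-/

set_option autoImplicit false
set_option linter.unusedSectionVars false

open Matrix Module

namespace Pool.Agent.Lib.MP_361a6f_ag.FL.E.P5e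

/-- a multiplicative function on a semigroup of natural numbers is a power -/
theorem exists_c (Z : ℕ → ℂ → Prop) (z0 : Z 0 1) (uniq : ∀ L z z', Z L z → Z L z' → z = z')
    (mul : ∀ L L' z z', Z L z → Z L' z' → Z (L + L') (z * z')) (ne : ∀ L z, Z L z → z ≠ 0) :
    ∃ c : ℂ, ∀ L z, Z L z → z = c ^ L := by
  classical
  have hpow : ∀ n L z, Z L z → Z (n * L) (z ^ n) := by
    intro n L z hz
    induction n with
    | zero => simpa using z0
    | succ n ih =>
      have h1 := mul _ _ _ _ ih hz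
      rw [← pow_succ] at h1
      rw [Nat.succ_mul]
      exact h1
  by_cases hpos : ∃ L, 0 < L ∧ ∃ z, Z L z
  · obtain ⟨L0, hL0, y, hy⟩ := hpos
    have hD : ∃ d, 0 < d ∧ ∃ L1 L2 z1 z2, Z L1 z1 ∧ Z L2 z2 ∧ L1 = L2 + d :=
      ⟨L0, hL0, L0, 0, y, 1, hy, z0, by omega⟩
    obtain ⟨hd, L1, L2, z1, z2, h1, h2, h12⟩ := Nat.find_spec hD
    set d := Nat.find hD with hdd
    obtain ⟨c, hc⟩ := IsAlgClosed.exists_pow_nat_eq (z1 / z2) hd
    refine ⟨c, fun L z hz => ?_⟩
    have h3 := mul _ _ _ _ hz (hpow (L / d) L2 z2 h2)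
    have h4 := hpow (L / d) L1 z1 h1
    have h5 := Nat.div_add_mod L d
    have h6 : L + L / d * L2 = L / d * L1 + L % d := by
      rw [h12]
      calc L + L / d * L2 = (d * (L / d) + L % d) + L / d * L2 := by rw [h5]
        _ = L / d * (L2 + d) + L % d := by ring
    have h7 : L % d = 0 := by
      by_contra hne
      exact Nat.find_min hD (Nat.mod_lt L hd)
        ⟨Nat.pos_of_ne_zero hne, _, _, _, _, h3, h4, h6⟩
    rw [h7, add_zero] at h6
    rw [h6] at h3
    have h8 := uniq _ _ _ h3 h4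
    have h9 : z2 ^ (L / d) ≠ 0 := pow_ne_zero _ (ne _ _ h2)
    have h10 : z = (z1 / z2) ^ (L / d) := by
      rw [div_pow, eq_div_iff h9, h8]
    rw [h7, add_zero] at h5
    rw [h10, ← hc, ← pow_mul, h5]
  · refine ⟨1, fun L z hz => ?_⟩
    have hL : L = 0 := by
      by_contra hne
      exact hpos ⟨L, Nat.pos_of_ne_zero hne, z, hz⟩
    subst hL
    rw [uniq _ _ _ hz z0, pow_zero]

/-- Row P5. -/
theorem p5 : P5Statement := by
  intro I _ _ S E hlie _ hstar hE hirr a hreal ha k hk hak hEk had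
  have a1 : Alg1 := alg1
  obtain ⟨U, κ, F⟩ := exists_frame S E hlie hstar hE a hreal ha k hk hak hEk had
  have hU1 := F.u1
  have hU2 := F.u2
  have hκ := F.kU
  have hsit := F.sit
  have hsame := F.same
  have hmS := F.mem
  have hm : ∀ X, X ∈ conjS U S ↔ U * X * Uᴴ ∈ S := fun X => Iff.rfl
  set h' : Submodule ℂ (Matrix I I ℂ) := conjS U S with hh'
  have hall : ∀ i j : I, LemR.Conn h' κ i j := by
    intro i0 j0
    by_contra hnot
    set J : Set I := {i | LemR.Conn h' κ i j0} with hJ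
    have hj0 : j0 ∈ J := LemR.Conn.refl j0
    have hi0 : i0 ∉ J := hnot
    let W : Submodule ℂ (I → ℂ) :=
      { carrier := {v | ∀ i, i ∉ J → (Uᴴ *ᵥ v) i = 0}
        add_mem' := by
          intro v v' hv hv' i hi
          rw [Matrix.mulVec_add, Pi.add_apply, hv i hi, hv' i hi, add_zero]
        zero_mem' := by
          intro i _
          rw [Matrix.mulVec_zero, Pi.zero_apply]
        smul_mem' := by
          intro c v hv i hi
          rw [Matrix.mulVec_smul, Pi.smul_apply, hv i hi, smul_zero] }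
    have hW : ∀ v, v ∈ W ↔ ∀ i, i ∉ J → (Uᴴ *ᵥ v) i = 0 := fun v => Iff.rfl
    have hst : ∀ B : Matrix I I ℂ, (∀ i, i ∉ J → ∀ j ∈ J, (Uᴴ * B * U) i j = 0) →
        ∀ v ∈ W, B.mulVec v ∈ W := by
      intro B hB v hv i hi
      have e : Uᴴ *ᵥ (B *ᵥ v) = (Uᴴ * B * U) *ᵥ (Uᴴ *ᵥ v) := by
        rw [Matrix.mulVec_mulVec, Matrix.mulVec_mulVec]
        congr 1
        calc Uᴴ * B = Uᴴ * B * (U * Uᴴ) := by rw [hU2, Matrix.mul_one]
          _ = Uᴴ * B * U * Uᴴ := by simp only [Matrix.mul_assoc]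
      rw [e, Matrix.mulVec, dotProduct]
      refine Finset.sum_eq_zero fun j _ => ?_
      by_cases hj : j ∈ J
      · rw [hB i hi j hj, zero_mul]
      · rw [hv j hj, mul_zero]
    have hWS : ∀ A ∈ S, ∀ v ∈ W, A.mulVec v ∈ W := by
      intro A hA
      refine hst A fun i hi j hj => ?_
      by_contra h0
      exact hi (LemR.Conn.step hsit (hmS A hA) h0 hj)
    have hWE : ∀ e ∈ E, ∀ v ∈ W, e.mulVec v ∈ W := by
      intro e he
      refine hst e fun i hi j hj => ?_
      by_contra h0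
      obtain ⟨h1, h2⟩ := hsame e he i j h0
      exact hi (LemR.Conn.same h1 h2 hj)
    rcases hirr W hWS hWE with h1 | h1
    · have h2 : U *ᵥ Pi.single j0 1 ∈ W := by
        intro i hi
        rw [Matrix.mulVec_mulVec, hU1, Matrix.one_mulVec]
        refine Pi.single_eq_of_ne ?_ _
        rintro rfl
        exact hi hj0
      rw [h1, Submodule.mem_bot] at h2
      have h3 := congrArg (fun v => (Uᴴ *ᵥ v) j0) h2
      simp only [Matrix.mulVec_mulVec, hU1, Matrix.one_mulVec, Pi.single_eq_same,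
        Matrix.mulVec_zero, Pi.zero_apply] at h3
      exact one_ne_zero h3
    · have h2 : U *ᵥ Pi.single i0 1 ∈ W := by
        rw [h1]
        exact Submodule.mem_top
      have h3 := h2 i0 hi0
      rw [Matrix.mulVec_mulVec, hU1, Matrix.one_mulVec, Pi.single_eq_same] at h3
      exact one_ne_zero h3
  -- the constant
  obtain ⟨c, hc⟩ : ∃ c : ℂ, ∀ L z, (∃ w : Fin L → I,
      (∀ T, diagonal T ∈ h' → ∑ j, T (w j) = 0) ∧ ∏ j, κ (w j) = z) → z = c ^ L := by
    refine exists_c (fun L z => ∃ w : Fin L → I,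
      (∀ T, diagonal T ∈ h' → ∑ j, T (w j) = 0) ∧ ∏ j, κ (w j) = z)
      ⟨Fin.elim0, fun T _ => by simp, by simp⟩ ?_ ?_ ?_
    · rintro L z z' ⟨w, hw, rfl⟩ ⟨w', hw', rfl⟩
      exact LemR.prod_eq hsit w w' (fun j => hall _ _) fun T hT => by rw [hw T hT, hw' T hT]
    · rintro L L' z z' ⟨w, hw, rfl⟩ ⟨w', hw', rfl⟩
      refine ⟨Fin.append w w', fun T hT => ?_, ?_⟩
      · rw [Fin.sum_univ_add]
        simp only [Fin.append_left, Fin.append_right]
        rw [hw T hT, hw' T hT, add_zero]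
      · rw [Fin.prod_univ_add]
        simp only [Fin.append_left, Fin.append_right]
    · rintro L z ⟨w, -, rfl⟩
      exact Finset.prod_ne_zero_iff.2 fun j _ => hsit.ne _
  · refine ⟨c, fun L u hu => ?_⟩
    have hu' : ∀ X ∈ h', aT X (gT Uᴴ u) = 0 := F.kill L u hu
    have h2 : gT (diagonal κ) (gT Uᴴ u) = c ^ L • gT Uᴴ u := by
      funext w
      rw [gT_diag, Pi.smul_apply, smul_eq_mul]
      by_cases h0 : gT Uᴴ u w = 0
      · rw [h0, mul_zero, mul_zero]
      · have h4 : ∀ T, diagonal T ∈ h' → ∑ j, T (w j) = 0 := by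
          intro T hT
          have h3 := congrFun (hu' _ hT) w
          rw [aT_diag, Pi.zero_apply] at h3
          exact (mul_eq_zero.1 h3).resolve_right h0
        rw [hc L (∏ j, κ (w j)) ⟨w, h4, rfl⟩]
    calc gT (diagonal k) u = gT (diagonal k) (gT (U * Uᴴ) u) := by rw [hU2, a1.gT_one]
      _ = gT (diagonal k * U) (gT Uᴴ u) := by rw [a1.gT_mul, a1.gT_mul]
      _ = gT U (gT (diagonal κ) (gT Uᴴ u)) := by rw [hκ, a1.gT_mul]
      _ = c ^ L • gT (U * Uᴴ) u := by rw [h2, a1.gT_smul, a1.gT_mul]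
      _ = c ^ L • u := by rw [hU2, a1.gT_one]

end Pool.Agent.Lib.MP_361a6f_ag.FL.E.P5e
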