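import Pool.Agent.Lib.MP_361a6f_ag.FL.E.LemG

/-!
# Theorem E3: letters in different pieces share a weight

In the situation of `FL/E/LemR.lean`, assume that `κ` does not separate letters with the same
weight.  If the difference of the weights of two letters is a sum of types of homogeneous elements,
then the ratio of the values of `κ` is the product of the ratios, even if the letters are not
connected.
-/

set_option maxHeartbeats 400000
set_option linter.unusedSectionVars false

open Matrix

namespace Pool.Agent.Lib.MP_361a6f_ag.FL.E.LemR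

variable {I : Type} [Fintype I] [DecidableEq I]

variable {S : Submodule ℂ (Matrix I I ℂ)} {k : I → ℂ}

theorem exists_of_tt_pos {x : Matrix I I ℂ} {i : I} (h : 0 < (tt x i).re) : ∃ l, x i l ≠ 0 := by
  by_contra hc
  push Not at hc
  rw [tt_eq, Complex.ofReal_re] at h
  have h1 : ∑ l, (‖x i l‖ ^ 2 - ‖x l i‖ ^ 2) ≤ 0 := by
    refine Finset.sum_nonpos fun l _ => ?_
    rw [hc l, norm_zero]
    have := sq_nonneg ‖x l i‖
    linarith
  linarith

theorem exists_of_tt_neg {x : Matrix I I ℂ} {i : I} (h : (tt x i).re < 0) : ∃ l, x l i ≠ 0 := by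
  by_contra hc
  push Not at hc
  rw [tt_eq, Complex.ofReal_re] at h
  have h1 : 0 ≤ ∑ l, (‖x i l‖ ^ 2 - ‖x l i‖ ^ 2) := by
    refine Finset.sum_nonneg fun l _ => ?_
    rw [hc l, norm_zero]
    have := sq_nonneg ‖x i l‖
    linarith
  linarith

/-- the diagonal matrix dual to a sum of types -/
noncomputable def dual (s : Multiset (Tri I)) : I → ℂ :=
  (s.map fun p => ((nrm p.1 : ℝ) : ℂ)⁻¹ • tt p.1).sum

theorem dual_cons (p : Tri I) (s : Multiset (Tri I)) :
    dual (p ::ₘ s) = ((nrm p.1 : ℝ) : ℂ)⁻¹ • tt p.1 + dual s := by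
  rw [dual, Multiset.map_cons, Multiset.sum_cons, dual]

theorem dual_mem (hS : Sit S k) (s : Multiset (Tri I))
    (hs : ∀ p ∈ s, Hom S k p.1 p.2.1 p.2.2) : diagonal (dual s) ∈ S := by
  induction s using Multiset.induction_on with
  | empty =>
    have h1 : dual (0 : Multiset (Tri I)) = 0 := by simp [dual]
    rw [h1]
    have h2 : (diagonal (0 : I → ℂ) : Matrix I I ℂ) = 0 := by
      rw [← Matrix.diagonal_zero]
      rfl
    rw [h2]
    exact S.zero_mem
  | cons p s ih =>
    rw [dual_cons]
    have h1 := S.smul_mem ((nrm p.1 : ℝ) : ℂ)⁻¹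
      (mem_tt hS (hs p (Multiset.mem_cons_self p s)))
    have h2 := ih fun q hq => hs q (Multiset.mem_cons_of_mem hq)
    refine (congrArg (· ∈ S) ?_).mp (S.add_mem h1 h2)
    rw [← Matrix.diagonal_smul, Matrix.diagonal_add]
    rfl

theorem dual_real (s : Multiset (Tri I)) (i : I) : (dual s i).im = 0 := by
  induction s using Multiset.induction_on with
  | empty => simp [dual]
  | cons p s ih =>
    rw [dual_cons, Pi.add_apply, Complex.add_im, ih, add_zero, Pi.smul_apply, smul_eq_mul, tt_eq,
      ← Complex.ofReal_inv, ← Complex.ofReal_mul, Complex.ofReal_im]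

theorem sum_dual (s : Multiset (Tri I)) (hs : ∀ p ∈ s, Hom S k p.1 p.2.1 p.2.2) {T : I → ℂ}
    (hT : diagonal T ∈ S) : ∑ i, T i * dual s i = (s.map fun p => p.2.1 T).sum := by
  induction s using Multiset.induction_on with
  | empty => simp [dual]
  | cons p s ih =>
    have hP := hs p (Multiset.mem_cons_self p s)
    rw [Multiset.map_cons, Multiset.sum_cons, dual_cons,
      ← ih fun q hq => hs q (Multiset.mem_cons_of_mem hq)]
    have h1 := sum_tt hP hT
    have h2 : ((nrm p.1 : ℝ) : ℂ) ≠ 0 := Complex.ofReal_ne_zero.2 (nrm_pos hP.ne).ne'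
    calc ∑ i, T i * (((nrm p.1 : ℝ) : ℂ)⁻¹ • tt p.1 + dual s) i
        = ((nrm p.1 : ℝ) : ℂ)⁻¹ * (∑ i, T i * tt p.1 i) + ∑ i, T i * dual s i := by
          rw [Finset.mul_sum, ← Finset.sum_add_distrib]
          refine Finset.sum_congr rfl fun i _ => ?_
          rw [Pi.add_apply, Pi.smul_apply, smul_eq_mul]
          ring
      _ = p.2.1 T + ∑ i, T i * dual s i := by
          rw [h1]
          congr 1
          rw [mul_comm (p.2.1 T), ← mul_assoc, inv_mul_cancel₀ h2, one_mul]

theorem exists_of_dual_pos (s : Multiset (Tri I)) (i j : I)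
    (h : 0 < (dual s i).re - (dual s j).re) :
    ∃ p ∈ s, 0 < nrm p.1 → 0 < (tt p.1 i).re - (tt p.1 j).re := by
  induction s using Multiset.induction_on with
  | empty => simp [dual] at h
  | cons p s ih =>
    by_cases h1 : 0 < (dual s i).re - (dual s j).re
    · obtain ⟨q, hq, h2⟩ := ih h1
      exact ⟨q, Multiset.mem_cons_of_mem hq, h2⟩
    · refine ⟨p, Multiset.mem_cons_self p s, fun hn => ?_⟩
      rw [dual_cons, Pi.add_apply, Pi.add_apply, Complex.add_re, Complex.add_re, Pi.smul_apply,
        Pi.smul_apply, smul_eq_mul, smul_eq_mul, ← Complex.ofReal_inv, Complex.re_ofReal_mul,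
        Complex.re_ofReal_mul] at h
      have h2 : 0 < (nrm p.1)⁻¹ * ((tt p.1 i).re - (tt p.1 j).re) := by
        rw [mul_sub]
        linarith
      exact (pos_iff_pos_of_mul_pos h2).1 (inv_pos.2 hn)

/-- SHARE: no connection between `i` and `j` is assumed -/
theorem share (hS : Sit S k) (hEQ : ∀ i j, (∀ T, diagonal T ∈ S → T i = T j) → k i = k j) :
    ∀ (n : ℕ) (s : Multiset (Tri I)), Multiset.card s = n →
      (∀ p ∈ s, Hom S k p.1 p.2.1 p.2.2) → ∀ i j,
      (∀ T, diagonal T ∈ S → T i - T j = (s.map fun p => p.2.1 T).sum) →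
      k i = (s.map fun p => p.2.2).prod * k j := by
  intro n
  induction n with
  | zero =>
    intro s hs _ i j hT
    rw [Multiset.card_eq_zero.1 hs] at hT ⊢
    rw [Multiset.map_zero, Multiset.prod_zero, one_mul]
    refine hEQ i j fun T hT' => sub_eq_zero.1 ?_
    rw [hT T hT', Multiset.map_zero, Multiset.sum_zero]
  | succ n ih =>
    intro s hs hp i j hT
    by_cases h0 : ∀ T, diagonal T ∈ S → T i = T j
    · rw [prod_one hS _ s rfl hp fun T hT' => by rw [← hT T hT', h0 T hT', sub_self], one_mul]
      exact hEQ i j h0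
    · push Not at h0
      obtain ⟨T0, hT0, hne⟩ := h0
      have hmem := dual_mem hS s hp
      have h1 : ∑ l, dual s l * dual s l = dual s i - dual s j := by
        rw [hT _ hmem, sum_dual s hp hmem]
      have h2 : ∀ l, dual s l = ((dual s l).re : ℂ) := by
        intro l
        apply Complex.ext
        · rw [Complex.ofReal_re]
        · rw [Complex.ofReal_im, dual_real]
      have h3 : (∑ l, (dual s l).re * (dual s l).re : ℝ) = (dual s i).re - (dual s j).re := by
        have h4 := congrArg Complex.re h1
        rw [Complex.sub_re] at h4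
        rw [← h4]
        have h5 : ∑ l, dual s l * dual s l
            = ((∑ l, (dual s l).re * (dual s l).re : ℝ) : ℂ) := by
          push_cast
          refine Finset.sum_congr rfl fun l _ => ?_
          rw [← h2 l]
        rw [h5, Complex.ofReal_re]
      have h4 : 0 < ∑ l, (dual s l).re * (dual s l).re := by
        obtain ⟨l, hl⟩ : ∃ l, (dual s l).re ≠ 0 := by
          by_contra hc
          push Not at hc
          apply hne
          apply sub_eq_zero.1
          rw [hT T0 hT0, ← sum_dual s hp hT0]
          refine Finset.sum_eq_zero fun l _ => ?_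
          rw [h2 l, hc l, Complex.ofReal_zero, mul_zero]
        have h8 : 0 < (dual s l).re * (dual s l).re := mul_self_pos.2 hl
        have h9 : (dual s l).re * (dual s l).re ≤ ∑ l, (dual s l).re * (dual s l).re :=
          Finset.single_le_sum (f := fun l => (dual s l).re * (dual s l).re)
            (fun _ _ => mul_self_nonneg _) (Finset.mem_univ l)
        linarith
      rw [h3] at h4
      obtain ⟨p, hps, h5⟩ := exists_of_dual_pos s i j h4
      have hP := hp p hps
      have h6 := h5 (nrm_pos hP.ne)
      obtain ⟨s1, rfl⟩ := Multiset.exists_cons_of_mem hps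
      have hs1 : Multiset.card s1 = n := by
        rw [Multiset.card_cons] at hs
        omega
      have hp1 : ∀ q ∈ s1, Hom S k q.1 q.2.1 q.2.2 := fun q hq =>
        hp q (Multiset.mem_cons_of_mem hq)
      rw [Multiset.map_cons, Multiset.prod_cons]
      by_cases h7 : 0 < (tt p.1 i).re
      · obtain ⟨l, hl⟩ := exists_of_tt_pos h7
        have h8 := ih s1 hs1 hp1 l j (by
          intro T hT'
          have h9 := hT T hT'
          rw [Multiset.map_cons, Multiset.sum_cons] at h9
          have h10 := hP.wt i l hl T hT'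
          linear_combination h9 - h10)
        rw [hP.kk i l hl, h8]
        ring
      · obtain ⟨l, hl⟩ := exists_of_tt_neg (x := p.1) (i := j) (by linarith)
        have h8 := ih s1 hs1 hp1 i l (by
          intro T hT'
          have h9 := hT T hT'
          rw [Multiset.map_cons, Multiset.sum_cons] at h9
          have h10 := hP.wt l j hl T hT'
          linear_combination h9 - h10)
        rw [h8, hP.kk l j hl]
        ring

theorem QQ.share (hS : Sit S k) (hEQ : ∀ i j, (∀ T, diagonal T ∈ S → T i = T j) → k i = k j)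
    {i j : I} {z : ℂˣ} (h : QQ S k (fun T => T i - T j) z) : k i = z * k j := by
  obtain ⟨s, hs1, hs2, hs3⟩ := h
  rw [hs3]
  exact LemR.share hS hEQ _ s rfl hs1 i j hs2

/-- a word of even length whose letters lie in at most three pieces -/
theorem words3 (hS : Sit S k) (hEQ : ∀ i j, (∀ T, diagonal T ∈ S → T i = T j) → k i = k j)
    {B : Type} [Fintype B] [DecidableEq B] (hB : Fintype.card B ≤ 3) (q : I → B)
    (hneg : ∀ i, ∃ j, (∀ T, diagonal T ∈ S → T i + T j = 0) ∧ k i * k j = 1)
    (hq : ∀ i j, q i = q j → ∃ z : ℂˣ, QQ S k (fun T => T i + T j) z)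
    {ι : Type} [DecidableEq ι] (w : ι → I) :
    ∀ (n : ℕ) (F : Finset ι), F.card = 2 * n → ∀ z : ℂˣ,
      QQ S k (fun T => ∑ j ∈ F, T (w j)) z → (z : ℂ) = ∏ j ∈ F, k (w j) := by
  have hadd : ∀ i j (z : ℂˣ), QQ S k (fun T => T i + T j) z → (z : ℂ) = k i * k j := by
    intro i j z hz
    obtain ⟨j', hj1, hj2⟩ := hneg j
    have h1 : QQ S k (fun T => T i - T j') z := hz.congr (fun T hT => by
      linear_combination -(hj1 T hT)) rfl
    have h2 := QQ.share hS hEQ h1
    have h3 : k j ≠ 0 := left_ne_zero_of_mul_eq_one hj2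
    rw [h2]
    linear_combination (-(z : ℂ)) * hj2
  intro n
  induction n with
  | zero =>
    intro F hF z hz
    have h1 : F = ∅ := Finset.card_eq_zero.1 (by omega)
    subst h1
    rw [Finset.prod_empty]
    have h2 := hz.uniq hS fun T _ => by simp
    rw [h2, Units.val_one]
  | succ n ih =>
    intro F hF z hz
    -- two letters `a`, `b` with `T a + T b` in the lattice
    have key : ∀ a ∈ F, ∀ b ∈ F, a ≠ b →
        (∃ z' : ℂˣ, QQ S k (fun T => T (w a) + T (w b)) z') → (z : ℂ) = ∏ j ∈ F, k (w j) := by
      rintro a ha b hb hab ⟨z', hz'⟩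
      have hb' : b ∈ F.erase a := Finset.mem_erase.2 ⟨Ne.symm hab, hb⟩
      have hc : ((F.erase a).erase b).card = 2 * n := by
        rw [Finset.card_erase_of_mem hb', Finset.card_erase_of_mem ha, hF]
        omega
      have h1 : QQ S k (fun T => ∑ j ∈ (F.erase a).erase b, T (w j)) (z * z'⁻¹) := by
        refine (hz.add (hz'.neg hS)).congr (fun T _ => ?_) rfl
        have e1 := Finset.add_sum_erase F (fun j => T (w j)) ha
        have e2 := Finset.add_sum_erase (F.erase a) (fun j => T (w j)) hb'
        rw [← e1, ← e2]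
        ring
      have h2 := ih _ hc _ h1
      have h3 := hadd _ _ _ hz'
      have e1 := Finset.mul_prod_erase F (fun j => k (w j)) ha
      have e2 := Finset.mul_prod_erase (F.erase a) (fun j => k (w j)) hb'
      rw [← e1, ← e2, ← h2, Units.val_mul, ← mul_assoc, ← h3]
      rw [mul_comm (z : ℂ), ← mul_assoc, Units.mul_inv, one_mul]
    rcases n with _ | n
    · -- two letters
      obtain ⟨a, b, hab, rfl⟩ := Finset.card_eq_two.1 hF
      refine key a (by simp) b (by simp) hab ⟨z, hz.congr (fun T _ => ?_) rfl⟩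
      rw [Finset.sum_pair hab]
    · obtain ⟨a, ha, b, hb, hab, hqab⟩ := Finset.exists_ne_map_eq_of_card_lt_of_maps_to
        (s := F) (t := (Finset.univ : Finset B)) (by rw [Finset.card_univ]; omega)
        (f := fun j => q (w j)) (fun _ _ => Finset.mem_univ _)
      exact key a ha b hb hab (hq _ _ hqab)

end Pool.Agent.Lib.MP_361a6f_ag.FL.E.LemR
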