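import Pool.Agent.Lib.MP_361a6f_ag.FL.E.DefsH
import Pool.Agent.Lib.MP_361a6f_ag.FL.E.Share
import Pool.Agent.Lib.MP_361a6f_ag.FL.E.P5e

/-!
# Theorem E3, row H5

The unitary transport is the one of `FL/E/P5e.lean`. The letters are divided into classes: `i` and
`j` are equivalent if the difference of their weights is a sum of types. The coordinate subspaces
of unions of classes are stable, so there are at most three classes and none of them is isotropic;
`LemR.words3` gives the result.
-/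

set_option autoImplicit false
set_option linter.unusedSectionVars false

open Matrix Module

namespace Pool.Agent.Lib.MP_361a6f_ag.FL.E.H5

open P5e

variable {I : Type} [Fintype I] [DecidableEq I]

/-- the coordinate subspace of a set of letters in the basis `U` -/
def co (U : Matrix I I ℂ) (J : Set I) : Submodule ℂ (I → ℂ) where
  carrier := {v | ∀ i, i ∉ J → (Uᴴ *ᵥ v) i = 0}
  add_mem' := by
    intro v v' hv hv' i hi
    rw [Matrix.mulVec_add, Pi.add_apply, hv i hi, hv' i hi, add_zero]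
  zero_mem' := by
    intro i _
    rw [Matrix.mulVec_zero, Pi.zero_apply]
  smul_mem' := by
    intro c v hv i hi
    rw [Matrix.mulVec_smul, Pi.smul_apply, hv i hi, smul_zero]

theorem mem_co {U : Matrix I I ℂ} {J : Set I} {v : I → ℂ} :
    v ∈ co U J ↔ ∀ i, i ∉ J → (Uᴴ *ᵥ v) i = 0 := Iff.rfl

theorem co_stable {U : Matrix I I ℂ} (hU2 : U * Uᴴ = 1) {J : Set I} (B : Matrix I I ℂ)
    (hB : ∀ i, i ∉ J → ∀ j ∈ J, (Uᴴ * B * U) i j = 0) : ∀ v ∈ co U J, B.mulVec v ∈ co U J := by
  intro v hv i hi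
  have e : Uᴴ *ᵥ (B *ᵥ v) = (Uᴴ * B * U) *ᵥ (Uᴴ *ᵥ v) := by
    rw [Matrix.mulVec_mulVec, Matrix.mulVec_mulVec]
    congr 1
    calc Uᴴ * B = Uᴴ * B * (U * Uᴴ) := by rw [hU2, Matrix.mul_one]
      _ = Uᴴ * B * U * Uᴴ := by simp only [Matrix.mul_assoc]
  rw [e, Matrix.mulVec, dotProduct]
  refine Finset.sum_eq_zero fun j _ => ?_
  by_cases hj : j ∈ J
  · rw [hB i hi j hj, zero_mul]
  · rw [hv j hj, mul_zero]

theorem co_ne_bot {U : Matrix I I ℂ} (hU1 : Uᴴ * U = 1) {J : Set I} {j : I} (hj : j ∈ J) :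
    co U J ≠ ⊥ := by
  intro h
  have h2 : U *ᵥ Pi.single j 1 ∈ co U J := by
    intro i hi
    rw [Matrix.mulVec_mulVec, hU1, Matrix.one_mulVec]
    refine Pi.single_eq_of_ne ?_ _
    rintro rfl
    exact hi hj
  rw [h, Submodule.mem_bot] at h2
  have h3 := congrArg (fun v => (Uᴴ *ᵥ v) j) h2
  simp only [Matrix.mulVec_mulVec, hU1, Matrix.one_mulVec, Pi.single_eq_same,
    Matrix.mulVec_zero, Pi.zero_apply] at h3
  exact one_ne_zero h3

theorem co_indep {U : Matrix I I ℂ} (hU2 : U * Uᴴ = 1) {A : Type} (f : I → A) :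
    iSupIndep fun a => co U {i | f i = a} := by
  intro a
  rw [Submodule.disjoint_def]
  intro v hv hv'
  have h1 : (⨆ b, ⨆ (_ : b ≠ a), co U {i | f i = b}) ≤ co U {i | f i ≠ a} := by
    refine iSup_le fun b => iSup_le fun hb => ?_
    intro w hw i hi
    refine hw i fun hi' => hi ?_
    rw [Set.mem_ofPred_eq] at hi'
    rw [Set.mem_ofPred_eq, hi']
    exact hb
  have h2 := h1 hv'
  have h3 : Uᴴ *ᵥ v = 0 := by
    funext i
    by_cases hi : f i = a
    · exact h2 i fun h => h hi
    · exact hv i hi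
  calc v = (U * Uᴴ) *ᵥ v := by rw [hU2, Matrix.one_mulVec]
    _ = 0 := by rw [← Matrix.mulVec_mulVec, h3, Matrix.mulVec_zero]

theorem co_top {U : Matrix I I ℂ} (hU1 : Uᴴ * U = 1) (hU2 : U * Uᴴ = 1) {A : Type} [Fintype A]
    (f : I → A) : (⨆ a, co U {i | f i = a}) = ⊤ := by
  classical
  rw [eq_top_iff]
  intro v _
  have h1 : v = ∑ a : A, U *ᵥ (fun i => if f i = a then (Uᴴ *ᵥ v) i else 0) := by
    rw [← Matrix.mulVec_sum]
    have h2 : (∑ a : A, fun i => if f i = a then (Uᴴ *ᵥ v) i else 0) = Uᴴ *ᵥ v := by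
      funext i
      rw [Finset.sum_apply, Finset.sum_ite_eq Finset.univ (f i) fun _ => (Uᴴ *ᵥ v) i,
        if_pos (Finset.mem_univ _)]
    rw [h2, Matrix.mulVec_mulVec, hU2, Matrix.one_mulVec]
  rw [h1]
  refine Submodule.sum_mem _ fun a _ => ?_
  refine Submodule.mem_iSup_of_mem a ?_
  intro i hi
  rw [Matrix.mulVec_mulVec, hU1, Matrix.one_mulVec]
  exact if_neg hi

theorem co_iso {U : Matrix I I ℂ} (hU2 : U * Uᴴ = 1) {P : Matrix I I ℂ} {J : Set I}
    (h : ∀ i ∈ J, ∀ j ∈ J, (Uᵀ * P * U) i j = 0) :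
    ∀ v ∈ co U J, ∀ w ∈ co U J, dotProduct v (P.mulVec w) = 0 := by
  intro v hv w hw
  have e1 : v = U *ᵥ (Uᴴ *ᵥ v) := by rw [Matrix.mulVec_mulVec, hU2, Matrix.one_mulVec]
  have e2 : w = U *ᵥ (Uᴴ *ᵥ w) := by rw [Matrix.mulVec_mulVec, hU2, Matrix.one_mulVec]
  have e3 : dotProduct v (P.mulVec w)
      = dotProduct (Uᴴ *ᵥ v) ((Uᵀ * P * U) *ᵥ (Uᴴ *ᵥ w)) := by
    rw [← Matrix.mulVec_mulVec, ← Matrix.mulVec_mulVec, Matrix.dotProduct_mulVec _ Uᵀ,
      Matrix.vecMul_transpose, ← e1, ← e2]
  rw [e3, dotProduct]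
  refine Finset.sum_eq_zero fun i _ => ?_
  by_cases hi : i ∈ J
  · have h1 : ((Uᵀ * P * U) *ᵥ (Uᴴ *ᵥ w)) i = 0 := by
      rw [Matrix.mulVec, dotProduct]
      refine Finset.sum_eq_zero fun j _ => ?_
      by_cases hj : j ∈ J
      · rw [h i hi j hj, zero_mul]
      · rw [hw j hj, mul_zero]
    rw [h1, mul_zero]
  · rw [hv i hi, zero_mul]

/-- Row H5. -/
theorem h5 : H5Statement := by
  intro I _ _ S E P hlie hstar hE hSP hP a hreal ha k hnorm hak hEk hkP had hiso hfour
  classical
  have a1 : Alg1 := alg1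
  have hk : ∀ i, k i ≠ 0 := by
    intro i h0
    have h1 := hnorm i
    rw [h0, norm_zero] at h1
    exact zero_ne_one h1
  obtain ⟨t, ht, hat, hmax⟩ := exists_tor S hstar (diagonal a) ha (by
    rw [diagonal_conjTranspose]
    congr 1
    funext i
    exact hreal i)
  obtain ⟨U, hU1, hU2, hd⟩ := joint_diag {A | A ∈ t ∧ Aᴴ = A} (fun A hA => hA.2)
    (fun A hA B hB => ht.comm A hA.1 B hB.1)
  -- all of `t` is diagonalised
  have hdt : ∀ A ∈ t, ∃ d : I → ℂ, A * U = U * diagonal d := by
    intro A hA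
    obtain ⟨d1, hd1⟩ := hd (A + Aᴴ) ⟨t.add_mem hA (ht.star A hA), by
      rw [conjTranspose_add, conjTranspose_conjTranspose, add_comm]⟩
    obtain ⟨d2, hd2⟩ := hd (Complex.I • (A - Aᴴ))
      ⟨t.smul_mem _ (t.sub_mem hA (ht.star A hA)), by
        rw [conjTranspose_smul, conjTranspose_sub, conjTranspose_conjTranspose, Complex.star_def,
          Complex.conj_I, neg_smul, ← smul_neg, neg_sub]⟩
    refine ⟨fun i => (1 / 2 : ℂ) * (d1 i + (-Complex.I) * d2 i), ?_⟩
    have h3 : A = (1 / 2 : ℂ) • ((A + Aᴴ) + (-Complex.I) • (Complex.I • (A - Aᴴ))) := by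
      rw [smul_smul, neg_mul, Complex.I_mul_I, neg_neg, one_smul, add_add_sub_cancel,
        ← two_smul ℂ A, smul_smul]
      norm_num
    rw [h3, smul_mul_assoc, add_mul, smul_mul_assoc (-Complex.I), hd1, hd2]
    ext i j
    simp only [Matrix.smul_apply, Matrix.add_apply, Matrix.mul_diagonal, smul_eq_mul]
    ring
  obtain ⟨a', ha'⟩ := hdt _ hat
  have hcol : ∀ j, ∃ i, U i j ≠ 0 := by
    intro j
    by_contra hc
    push Not at hc
    have h1 := congrFun (congrFun hU1 j) j
    rw [Matrix.mul_apply, Matrix.one_apply_eq] at h1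
    simp [hc] at h1
  choose r hr using hcol
  have hent : ∀ i j, U i j ≠ 0 → a i = a' j := by
    intro i j hij
    have h1 := congrFun (congrFun ha' i) j
    rw [Matrix.diagonal_mul, Matrix.mul_diagonal, mul_comm] at h1
    exact mul_left_cancel₀ hij h1
  set κ : I → ℂ := fun j => k (r j) with hκdef
  have hκe : ∀ i j, U i j ≠ 0 → k i = κ j := fun i j hij =>
    hak i (r j) ((hent i j hij).trans (hent (r j) j (hr j)).symm)
  have hκ : diagonal k * U = U * diagonal κ := by
    ext i j
    rw [Matrix.diagonal_mul, Matrix.mul_diagonal]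
    by_cases h0 : U i j = 0
    · simp [h0]
    · rw [hκe i j h0, mul_comm]
  have hκ' : diagonal (fun i => (κ i)⁻¹) * Uᴴ = Uᴴ * diagonal (fun i => (k i)⁻¹) := by
    ext i j
    rw [Matrix.diagonal_mul, Matrix.mul_diagonal, Matrix.conjTranspose_apply]
    by_cases h0 : U j i = 0
    · simp [h0]
    · rw [hκe j i h0, mul_comm]
  have hUk : Uᴴ * diagonal k = diagonal κ * Uᴴ := by
    calc Uᴴ * diagonal k = Uᴴ * (diagonal k * U) * Uᴴ := by
          rw [Matrix.mul_assoc, Matrix.mul_assoc, hU2, Matrix.mul_one]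
      _ = diagonal κ * Uᴴ := by rw [hκ, ← Matrix.mul_assoc, hU1, Matrix.one_mul]
  let φ : Matrix I I ℂ →ₗ[ℂ] Matrix I I ℂ :=
    { toFun := fun X => U * X * Uᴴ
      map_add' := fun X Y => by rw [mul_add, add_mul]
      map_smul' := fun c X => by rw [mul_smul_comm, smul_mul_assoc, RingHom.id_apply] }
  let h' : Submodule ℂ (Matrix I I ℂ) := S.comap φ
  have hm : ∀ X, X ∈ h' ↔ U * X * Uᴴ ∈ S := fun X => Iff.rfl
  have hmS : ∀ A ∈ S, Uᴴ * A * U ∈ h' := by
    intro A hA
    rw [hm]
    have e : U * (Uᴴ * A * U) * Uᴴ = A := by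
      calc U * (Uᴴ * A * U) * Uᴴ = (U * Uᴴ) * A * (U * Uᴴ) := by noncomm_ring
        _ = A := by rw [hU2, Matrix.one_mul, Matrix.mul_one]
    rw [e]
    exact hA
  have emul : ∀ A B, U * (A * B) * Uᴴ = (U * A * Uᴴ) * (U * B * Uᴴ) := by
    intro A B
    calc U * (A * B) * Uᴴ = U * A * 1 * B * Uᴴ := by rw [Matrix.mul_one]; noncomm_ring
      _ = (U * A * Uᴴ) * (U * B * Uᴴ) := by rw [← hU1]; noncomm_ring
  have hsit : LemR.Sit h' κ := by
    refine ⟨?_, ?_, fun i => hk _, ?_, ?_⟩
    · intro A hA B hB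
      rw [hm] at hA hB ⊢
      rw [mul_sub, sub_mul, emul, emul]
      exact hlie _ hA _ hB
    · intro A hA
      rw [hm] at hA ⊢
      have h1 := hstar _ hA
      rw [conjTranspose_mul, conjTranspose_mul, conjTranspose_conjTranspose,
        ← Matrix.mul_assoc] at h1
      exact h1
    · intro A hA
      rw [hm] at hA ⊢
      have h1 := had _ hA
      have e : U * (diagonal κ * A * diagonal (fun i => (κ i)⁻¹)) * Uᴴ
          = diagonal k * (U * A * Uᴴ) * diagonal (fun i => (k i)⁻¹) := by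
        calc U * (diagonal κ * A * diagonal (fun i => (κ i)⁻¹)) * Uᴴ
            = (U * diagonal κ) * A * (diagonal (fun i => (κ i)⁻¹) * Uᴴ) := by
              simp only [Matrix.mul_assoc]
          _ = diagonal k * (U * A * Uᴴ) * diagonal (fun i => (k i)⁻¹) := by
              rw [← hκ, hκ']
              simp only [Matrix.mul_assoc]
      rw [e]
      exact h1
    · intro X hX hT
      have hXt : U * X * Uᴴ ∈ t := by
        refine hmax _ ((hm X).1 hX) fun A hA => ?_
        obtain ⟨d, hdA⟩ := hdt A hA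
        have eA : A = U * diagonal d * Uᴴ := by
          rw [← hdA, Matrix.mul_assoc, hU2, Matrix.mul_one]
        have hdm : diagonal d ∈ h' := by
          rw [hm, ← eA]
          exact ht.le hA
        have h1 := hT d hdm
        have h2 : diagonal d * X = X * diagonal d := by
          ext i j
          rw [Matrix.diagonal_mul, Matrix.mul_diagonal]
          by_cases h0 : X i j = 0
          · simp [h0]
          · rw [h1 i j h0, mul_comm]
        rw [eA, ← emul, ← emul, h2]
      obtain ⟨d, hdX⟩ := hdt _ hXt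
      have e : X = diagonal d := by
        have h1 : U * X * Uᴴ * U = U * X := by
          rw [Matrix.mul_assoc, hU1, Matrix.mul_one]
        rw [h1] at hdX
        calc X = Uᴴ * (U * X) := by rw [← Matrix.mul_assoc, hU1, Matrix.one_mul]
          _ = diagonal d := by rw [hdX, ← Matrix.mul_assoc, hU1, Matrix.one_mul]
      intro i j hij
      by_contra hne
      rw [e, diagonal_apply_ne _ hne] at hij
      exact hij rfl
  -- the entries of the endomorphisms
  have hsame : ∀ e ∈ E, ∀ i j, (Uᴴ * e * U) i j ≠ 0 →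
      (∀ T, diagonal T ∈ h' → T i = T j) ∧ κ i = κ j := by
    intro e he i j hij
    refine ⟨fun T hT => ?_, ?_⟩
    · have h1 := hE e he _ ((hm _).1 hT)
      have h2 : (Uᴴ * e * U) * diagonal T = diagonal T * (Uᴴ * e * U) := by
        calc (Uᴴ * e * U) * diagonal T
            = Uᴴ * (e * (U * diagonal T * Uᴴ)) * U := by
              calc (Uᴴ * e * U) * diagonal T = (Uᴴ * e * U) * diagonal T * (Uᴴ * U) := by
                    rw [hU1, Matrix.mul_one]
                _ = _ := by simp only [Matrix.mul_assoc]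
          _ = Uᴴ * ((U * diagonal T * Uᴴ) * e) * U := by rw [h1]
          _ = diagonal T * (Uᴴ * e * U) := by
              calc Uᴴ * ((U * diagonal T * Uᴴ) * e) * U
                  = (Uᴴ * U) * (diagonal T * (Uᴴ * e * U)) := by simp only [Matrix.mul_assoc]
                _ = _ := by rw [hU1, Matrix.one_mul]
      have h3 := congrFun (congrFun h2 i) j
      rw [Matrix.diagonal_mul, Matrix.mul_diagonal, mul_comm] at h3
      exact (mul_right_cancel₀ hij h3).symm
    · have h2 : (Uᴴ * e * U) * diagonal κ = diagonal κ * (Uᴴ * e * U) := by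
        calc (Uᴴ * e * U) * diagonal κ = Uᴴ * e * (U * diagonal κ) := by
              simp only [Matrix.mul_assoc]
          _ = Uᴴ * (e * diagonal k) * U := by
              rw [← hκ]
              simp only [Matrix.mul_assoc]
          _ = Uᴴ * diagonal k * e * U := by
              rw [hEk e he]
              simp only [Matrix.mul_assoc]
          _ = diagonal κ * (Uᴴ * e * U) := by
              rw [hUk]
              simp only [Matrix.mul_assoc]
      have h3 := congrFun (congrFun h2 i) j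
      rw [Matrix.diagonal_mul, Matrix.mul_diagonal, mul_comm] at h3
      exact (mul_right_cancel₀ hij h3).symm
  -- letters with equal weights have the same value of `κ`
  have hEQ : ∀ i j, (∀ T, diagonal T ∈ h' → T i = T j) → κ i = κ j := by
    intro i j hij
    have h1 : diagonal a' ∈ h' := by
      rw [hm, ← ha', Matrix.mul_assoc, hU2, Matrix.mul_one]
      exact ha
    have h2 := hij a' h1
    exact hak _ _ (((hent _ _ (hr i)).trans h2).trans (hent _ _ (hr j)).symm)
  -- the form in the new basis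
  set P' : Matrix I I ℂ := Uᵀ * P * U with hP'
  have hUt : Uᵀ * (Uᴴ)ᵀ = 1 := by
    rw [← Matrix.transpose_mul, hU1, Matrix.transpose_one]
  have hTP : ∀ T, diagonal T ∈ h' → ∀ i j, P' i j ≠ 0 → T i + T j = 0 := by
    intro T hT i j hij
    have h1 := hSP _ ((hm _).1 hT)
    have h2 : (diagonal T)ᵀ * P' + P' * diagonal T = 0 := by
      have h3 := congrArg (fun X => Uᵀ * X * U) h1
      simp only [mul_add, add_mul, Matrix.mul_zero, Matrix.zero_mul, Matrix.transpose_mul] at h3
      have e1 : Uᵀ * ((Uᴴ)ᵀ * ((diagonal T)ᵀ * Uᵀ) * P) * U = (diagonal T)ᵀ * P' := by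
        calc Uᵀ * ((Uᴴ)ᵀ * ((diagonal T)ᵀ * Uᵀ) * P) * U
            = (Uᵀ * (Uᴴ)ᵀ) * ((diagonal T)ᵀ * (Uᵀ * P * U)) := by simp only [Matrix.mul_assoc]
          _ = (diagonal T)ᵀ * P' := by rw [hUt, Matrix.one_mul]
      have e2 : Uᵀ * (P * (U * diagonal T * Uᴴ)) * U = P' * diagonal T := by
        calc Uᵀ * (P * (U * diagonal T * Uᴴ)) * U
            = (Uᵀ * P * U) * (diagonal T * (Uᴴ * U)) := by simp only [Matrix.mul_assoc]
          _ = P' * diagonal T := by rw [hU1, Matrix.mul_one]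
      rw [e1, e2] at h3
      exact h3
    have h3 := congrFun (congrFun h2 i) j
    rw [Matrix.diagonal_transpose, Matrix.add_apply, Matrix.diagonal_mul, Matrix.mul_diagonal,
      Matrix.zero_apply] at h3
    have h4 : (T i + T j) * P' i j = 0 := by linear_combination h3
    exact (mul_eq_zero.1 h4).resolve_right hij
  have hκP : ∀ i j, P' i j ≠ 0 → κ i * κ j = 1 := by
    intro i j hij
    have h2 : (diagonal κ)ᵀ * P' * diagonal κ = P' := by
      calc (diagonal κ)ᵀ * P' * diagonal κ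
          = (U * diagonal κ)ᵀ * P * (U * diagonal κ) := by
            rw [Matrix.transpose_mul, hP']
            simp only [Matrix.mul_assoc]
        _ = Uᵀ * ((diagonal k)ᵀ * P * diagonal k) * U := by
            rw [← hκ, Matrix.transpose_mul]
            simp only [Matrix.mul_assoc]
        _ = P' := by rw [hkP]
    have h3 := congrFun (congrFun h2 i) j
    rw [Matrix.diagonal_transpose, Matrix.mul_diagonal, Matrix.diagonal_mul] at h3
    have h4 : (κ i * κ j - 1) * P' i j = 0 := by linear_combination h3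
    exact sub_eq_zero.1 ((mul_eq_zero.1 h4).resolve_right hij)
  have hneg : ∀ i, ∃ j, (∀ T, diagonal T ∈ h' → T i + T j = 0) ∧ κ i * κ j = 1 := by
    intro i
    have hunit : IsUnit P' := by
      have h1 : IsUnit U := ⟨⟨U, Uᴴ, hU2, hU1⟩, rfl⟩
      have h2 : IsUnit Uᵀ := ⟨⟨Uᵀ, (Uᴴ)ᵀ, hUt, by
        rw [← Matrix.transpose_mul, hU2, Matrix.transpose_one]⟩, rfl⟩
      exact (h2.mul hP).mul h1
    obtain ⟨j, hj⟩ : ∃ j, P' i j ≠ 0 := by
      by_contra hc
      push Not at hc
      obtain ⟨v, hv⟩ := hunit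
      have h1 : (P' * (↑v⁻¹ : Matrix I I ℂ)) i i = 1 := by
        rw [← hv, Units.mul_inv, Matrix.one_apply_eq]
      rw [Matrix.mul_apply] at h1
      simp [hc] at h1
    exact ⟨j, fun T hT => hTP T hT i j hj, hκP i j hj⟩
  -- the classes
  let sd : Setoid I :=
    { r := fun i j => ∃ z : ℂˣ, LemR.QQ h' κ (fun T => T i - T j) z
      iseqv :=
        { refl := fun i => ⟨1, LemR.QQ.zero fun T _ => sub_self _⟩
          symm := by
            rintro i j ⟨z, hz⟩
            exact ⟨z⁻¹, (hz.neg hsit).congr (fun T _ => by ring) rfl⟩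
          trans := by
            rintro i j l ⟨z, hz⟩ ⟨z', hz'⟩
            exact ⟨z * z', (hz.add hz').congr (fun T _ => by ring) rfl⟩ } }
  let B : Type := Quotient sd
  let q : I → B := Quotient.mk sd
  have hq0 : ∀ i j, q i = q j → ∃ z : ℂˣ, LemR.QQ h' κ (fun T => T i - T j) z :=
    fun i j h => Quotient.exact h
  let _ : Fintype B := Fintype.ofFinite _
  have hedge : ∀ A ∈ S, ∀ i j, (Uᴴ * A * U) i j ≠ 0 → q i = q j := by
    intro A hA i j hij
    apply Quotient.sound
    obtain ⟨y, hy, -⟩ := LemR.exists_hom hsit (hmS A hA) hij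
    refine ⟨Units.mk0 (κ i) (hsit.ne i) * (Units.mk0 (κ j) (hsit.ne j))⁻¹,
      {(y, (fun T => T i - T j), κ i * (κ j)⁻¹)}, ?_, ?_, ?_⟩
    · intro p hp
      rw [Multiset.mem_singleton] at hp
      subst hp
      exact hy
    · intro T _
      rw [Multiset.map_singleton, Multiset.sum_singleton]
    · rw [Multiset.map_singleton, Multiset.prod_singleton, Units.val_mul,
        Units.val_inv_eq_inv_val]
      rfl
  have hedgeE : ∀ e ∈ E, ∀ i j, (Uᴴ * e * U) i j ≠ 0 → q i = q j := by
    intro e he i j hij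
    apply Quotient.sound
    exact ⟨1, LemR.QQ.zero fun T hT => by rw [(hsame e he i j hij).1 T hT, sub_self]⟩
  -- coordinate subspaces of unions of classes are stable
  have hstS : ∀ J : Set I, (∀ i j, q i = q j → j ∈ J → i ∈ J) →
      (∀ A ∈ S, ∀ v ∈ co U J, A.mulVec v ∈ co U J) ∧
      (∀ e ∈ E, ∀ v ∈ co U J, e.mulVec v ∈ co U J) := by
    intro J hJ
    refine ⟨fun A hA => co_stable hU2 A fun i hi j hj => ?_,
      fun e he => co_stable hU2 e fun i hi j hj => ?_⟩
    · by_contra h0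
      exact hi (hJ i j (hedge A hA i j h0) hj)
    · by_contra h0
      exact hi (hJ i j (hedgeE e he i j h0) hj)
  have hqadd : ∀ i j, q i = q j → ∃ z : ℂˣ, LemR.QQ h' κ (fun T => T i + T j) z := by
    intro i j hij
    have h1 : ¬ ∀ x ∈ {x | q x = q i}, ∀ y ∈ {y | q y = q i}, (Uᵀ * P * U) x y = 0 := by
      intro h2
      obtain ⟨h3, h4⟩ := hstS {x | q x = q i} fun x y hxy hy => hxy.trans hy
      exact co_ne_bot hU1 (J := {x | q x = q i}) (j := i) rfl (hiso _ h3 h4 (co_iso hU2 h2))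
    push Not at h1
    obtain ⟨x, hx, y, hy, hxy⟩ := h1
    obtain ⟨z1, hz1⟩ := hq0 i x (Eq.symm hx)
    obtain ⟨z2, hz2⟩ := hq0 j y (hij.symm.trans (Eq.symm hy))
    refine ⟨z1 * z2, (hz1.add hz2).congr (fun T hT => ?_) rfl⟩
    have h5 := hTP T hT x y hxy
    linear_combination h5
  -- at most three classes
  have hB : Fintype.card B ≤ 3 := by
    by_contra hc
    have h1 : Fintype.card (Fin 4) ≤ Fintype.card B := by
      rw [Fintype.card_fin]
      omega
    obtain ⟨e⟩ := Function.Embedding.nonempty_of_card_le h1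
    have hsur : Function.Surjective (Function.invFun e) :=
      Function.invFun_surjective e.injective
    refine hfour (fun x => co U {i | Function.invFun e (q i) = x}) (fun x => ?_) (fun x => ?_)
      (co_indep hU2 fun i => Function.invFun e (q i))
      (co_top hU1 hU2 fun i => Function.invFun e (q i))
    · refine hstS _ fun i j hij hj => ?_
      show Function.invFun e (q i) = x
      rw [hij]
      exact hj
    · obtain ⟨b, hb⟩ := hsur x
      obtain ⟨i, hi⟩ := Quotient.exists_rep b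
      refine co_ne_bot hU1 (j := i) ?_
      show Function.invFun e (q i) = x
      rw [← hb]
      exact congrArg _ hi
  intro L u hL hu
  obtain ⟨n, hn⟩ := hL
  have hone : ∀ w : Fin L → I, (∀ T, diagonal T ∈ h' → ∑ j, T (w j) = 0) →
      ∏ j, κ (w j) = 1 := by
    intro w hw
    have h1 := LemR.words3 hsit hEQ hB q hneg hqadd w n Finset.univ (by
      rw [Finset.card_univ, Fintype.card_fin]
      omega) 1 (LemR.QQ.zero hw)
    rw [Units.val_one] at h1
    exact h1.symm
  have hg : (Uᴴ)⁻¹ = U := Matrix.inv_eq_right_inv hU1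
  have hu' : ∀ X ∈ h', aT X (gT Uᴴ u) = 0 := by
    intro X hX
    have h1 := a1.gT_aT Uᴴ (U * X * Uᴴ) u (by rw [hg, hU1])
    rw [hu _ ((hm X).1 hX), hg] at h1
    have e : Uᴴ * (U * X * Uᴴ) * U = X := by
      calc Uᴴ * (U * X * Uᴴ) * U = (Uᴴ * U) * X * (Uᴴ * U) := by simp only [Matrix.mul_assoc]
        _ = X := by rw [hU1, Matrix.one_mul, Matrix.mul_one]
    rw [e] at h1
    rw [← h1]
    funext w
    simp [gT]
  have h2 : gT (diagonal κ) (gT Uᴴ u) = gT Uᴴ u := by
    funext w
    rw [gT_diag]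
    by_cases h0 : gT Uᴴ u w = 0
    · rw [h0, mul_zero]
    · have h4 : ∀ T, diagonal T ∈ h' → ∑ j, T (w j) = 0 := by
        intro T hT
        have h3 := congrFun (hu' _ hT) w
        rw [aT_diag, Pi.zero_apply] at h3
        exact (mul_eq_zero.1 h3).resolve_right h0
      rw [hone w h4, one_mul]
  calc gT (diagonal k) u = gT (diagonal k) (gT (U * Uᴴ) u) := by rw [hU2, a1.gT_one]
    _ = gT (diagonal k * U) (gT Uᴴ u) := by rw [a1.gT_mul, a1.gT_mul]
    _ = gT U (gT (diagonal κ) (gT Uᴴ u)) := by rw [hκ, a1.gT_mul]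
    _ = gT (U * Uᴴ) u := by rw [h2, a1.gT_mul]
    _ = u := by rw [hU2, a1.gT_one]

end Pool.Agent.Lib.MP_361a6f_ag.FL.E.H5
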