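import Pool.Agent.Lib.MP_361a6f_ag.FL.E.Defs

/-!
# Row E3: the stabiliser contains a diagonal matrix with distinct entries

A homomorphism `ℂˣ → ℂ` that separates finitely many elements whose ratios have infinite order.
-/

open scoped TensorProduct nonZeroDivisors

namespace Pool.Agent.Lib.MP_361a6f_ag.FL.E

namespace E3

/-- finitely many elements of `G` whose differences have infinite order are separated by a
homomorphism to `ℚ` -/
theorem exists_hom {G I : Type} [AddCommGroup G] [Finite I] (l : I → G)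
    (h : ∀ i j, i ≠ j → ∀ n : ℕ, 0 < n → n • l i ≠ n • l j) :
    ∃ φ : G →+ ℚ, ∀ i j, i ≠ j → φ (l i) ≠ φ (l j) := by
  classical
  let T : G →ₗ[ℤ] ℚ ⊗[ℤ] G := TensorProduct.mk ℤ ℚ G 1
  have hloc : IsLocalizedModule ℤ⁰ T := IsLocalization.tensorProduct_isLocalizedModule ℤ⁰ ℚ
  let v : {p : I × I // p.1 ≠ p.2} → ℚ ⊗[ℤ] G := fun p => T (l p.1.1 - l p.1.2)
  have hv : ∀ p, v p ≠ 0 := by
    intro p hp
    obtain ⟨c, hc⟩ := (IsLocalizedModule.eq_zero_iff ℤ⁰ T).1 hp
    have hc' : (c : ℤ) • l p.1.1 = (c : ℤ) • l p.1.2 := by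
      have h1 : (c : ℤ) • (l p.1.1 - l p.1.2) = 0 := hc
      rwa [smul_sub, sub_eq_zero] at h1
    have hc0 : (c : ℤ) ≠ 0 := nonZeroDivisors.ne_zero c.2
    refine h p.1.1 p.1.2 p.2 (c : ℤ).natAbs (Int.natAbs_pos.2 hc0) ?_
    rcases Int.natAbs_eq (c : ℤ) with h2 | h2
    · rw [h2, natCast_zsmul, natCast_zsmul] at hc'
      exact hc'
    · rw [h2, neg_smul, neg_smul, natCast_zsmul, natCast_zsmul, neg_inj] at hc'
      exact hc'
  obtain ⟨f, hf⟩ := Module.exists_dual_forall_apply_ne_zero (K := ℚ) v hv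
  refine ⟨(f.toAddMonoidHom).comp T.toAddMonoidHom, fun i j hij he => ?_⟩
  refine hf ⟨(i, j), hij⟩ ?_
  have he' : f (T (l i)) = f (T (l j)) := he
  have h3 : v ⟨(i, j), hij⟩ = T (l i) - T (l j) := map_sub T _ _
  rw [h3, map_sub, he', sub_self]

theorem gT_diag {I : Type} [Fintype I] [DecidableEq I] (l : I → ℂ) {L : ℕ} (u : Ten I L)
    (w : Fin L → I) : gT (Matrix.diagonal l) u w = (∏ i, l (w i)) * u w := by
  simp only [gT]
  rw [Finset.sum_eq_single w]
  · simp [Matrix.diagonal_apply_eq]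
  · intro w' _ hw'
    have : ∃ i, w i ≠ w' i := by
      by_contra hcon
      push Not at hcon
      exact hw' (funext fun i => (hcon i).symm)
    obtain ⟨i, hi⟩ := this
    rw [Finset.prod_eq_zero (Finset.mem_univ i) (Matrix.diagonal_apply_ne l hi), zero_mul]
  · intro hw
    exact absurd (Finset.mem_univ w) hw

theorem aT_diag {I : Type} [Fintype I] [DecidableEq I] (a : I → ℂ) {L : ℕ} (u : Ten I L)
    (w : Fin L → I) : aT (Matrix.diagonal a) u w = (∑ i, a (w i)) * u w := by
  simp only [aT]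
  rw [Finset.sum_mul]
  refine Finset.sum_congr rfl fun i _ => ?_
  rw [Finset.sum_eq_single (w i)]
  · rw [Matrix.diagonal_apply_eq, Function.update_eq_self]
  · intro j _ hj
    rw [Matrix.diagonal_apply_ne a (Ne.symm hj), zero_mul]
  · intro hw
    exact absurd (Finset.mem_univ _) hw

theorem isLie_diag {I Λ : Type} [Fintype I] [DecidableEq I] [DecidableEq Λ] (D : Dat I Λ)
    (a : I → ℂ) (ha : ∀ i, a (D.τ i) + a i = 0) : IsLie D (Matrix.diagonal a) := by
  refine ⟨fun i j hij => Matrix.diagonal_apply_ne a fun h => hij (by rw [h]), ?_⟩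
  ext i j
  rw [Matrix.diagonal_transpose, Matrix.add_apply, Matrix.diagonal_mul, Matrix.mul_diagonal,
    Matrix.zero_apply]
  simp only [Psi, Matrix.of_apply]
  by_cases h : j = D.τ i
  · rw [if_pos h, h]
    have := ha i
    linear_combination D.s i * this
  · rw [if_neg h]
    ring

end E3

open E3

/-- Row E3. -/
theorem e3 : E3Statement := by
  intro I Λ ι _ _ _ _ len D s l _ _ htau hratio hfix
  have hne : ∀ i, l i ≠ 0 := fun i h0 => by
    have := htau i
    rw [h0, mul_zero] at this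
    exact zero_ne_one this
  let u : I → ℂˣ := fun i => Units.mk0 (l i) (hne i)
  have hu : ∀ i, ((u i : ℂˣ) : ℂ) = l i := fun i => rfl
  obtain ⟨φ, hφ⟩ := exists_hom (G := Additive ℂˣ) (fun i => Additive.ofMul (u i)) (by
    intro i j hij n hn he
    have h1 : u i ^ n = u j ^ n := by
      have h2 : Additive.ofMul (u i ^ n) = Additive.ofMul (u j ^ n) := he
      exact Additive.ofMul.injective h2
    have h3 := congrArg (fun x : ℂˣ => (x : ℂ)) h1
    simp only [Units.val_pow_eq_pow_val, hu] at h3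
    exact hratio i j hij n hn h3)
  let a : I → ℂ := fun i => ((φ (Additive.ofMul (u i)) : ℚ) : ℂ)
  refine ⟨a, ?_, ?_, ?_⟩
  · intro i j hij
    by_contra hne'
    have h1 : ((φ (Additive.ofMul (u i)) : ℚ) : ℂ) = ((φ (Additive.ofMul (u j)) : ℚ) : ℂ) := hij
    exact hφ i j hne' (Rat.cast_injective h1)
  · refine isLie_diag D a fun i => ?_
    have h1 : u (D.τ i) * u i = 1 := Units.ext (by
      rw [Units.val_mul, hu, hu, Units.val_one]
      exact htau i)
    have h2 : φ (Additive.ofMul (u (D.τ i)) + Additive.ofMul (u i)) = 0 := by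
      rw [← ofMul_mul, h1, ofMul_one, map_zero]
    rw [map_add] at h2
    have h3 : ((φ (Additive.ofMul (u (D.τ i))) + φ (Additive.ofMul (u i)) : ℚ) : ℂ) = 0 := by
      rw [h2, Rat.cast_zero]
    rw [Rat.cast_add] at h3
    exact h3
  · funext i w
    show aT (Matrix.diagonal a) (s i) w = 0
    rw [aT_diag]
    by_cases h0 : s i w = 0
    · rw [h0, mul_zero]
    have h1 : gT (Matrix.diagonal l) (s i) w = s i w := congrFun (congrFun hfix i) w
    rw [gT_diag] at h1
    have h2 : ∏ j, l (w j) = 1 := by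
      have h3 : (∏ j, l (w j)) * s i w = 1 * s i w := by rw [h1, one_mul]
      exact mul_right_cancel₀ h0 h3
    have h4 : ∏ j, u (w j) = 1 := Units.ext (by
      rw [Units.coe_prod, Units.val_one]
      exact h2)
    have h5 : φ (∑ j, Additive.ofMul (u (w j))) = 0 := by
      rw [← ofMul_prod, h4, ofMul_one, map_zero]
    rw [map_sum] at h5
    have h6 : ((∑ j, φ (Additive.ofMul (u (w j))) : ℚ) : ℂ) = 0 := by rw [h5, Rat.cast_zero]
    rw [Rat.cast_sum] at h6
    have h7 : ∑ j, a (w j) = 0 := h6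
    rw [h7, zero_mul]

end Pool.Agent.Lib.MP_361a6f_ag.FL.E
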