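import Pool.Agent.Lib.MP_361a6f_ag.FL.E.E2
import Pool.Agent.Lib.MP_361a6f_ag.FL.E.E3

/-!
# Theorem E, row E6: the assembly
-/

set_option autoImplicit false
set_option linter.unusedSectionVars false

open Filter Topology

namespace Pool.Agent.Lib.MP_361a6f_ag.FL.E

namespace Six

open Qps

variable {I Λ : Type} [Fintype I] [DecidableEq I] [DecidableEq Λ] {D : Dat I Λ}
  {At : (L : ℕ) → Ten I L → Prop}

/-! ### Positivity from `J₀ s = s` -/

theorem jG_psi (a1 : Alg1) {x : Matrix I I ℂ} (hx : IsG D x) {L : ℕ} (u v : Ten I L) :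
    psiT D (jG D x u) (jG D x v) = (starRingEnd ℂ) (psiT D u v) := by
  rw [jG, jG, a1.psiT_gT D x _ _ hx, a1.psiT_jT_jT, a1.psiT_gT D x⁻¹ _ _ (a1.G_inv D x hx).1]

theorem jG_mem (a1 : Alg1) (x : Matrix I I ℂ) {L : ℕ} {T : Set (Ten I L)}
    (hT : ∀ b ∈ T, jG D x b = b) {u : Ten I L} (hu : u ∈ Submodule.span ℂ T) :
    jG D x u ∈ Submodule.span ℂ T := by
  induction hu using Submodule.span_induction with
  | mem u hu =>
    rw [hT u hu]
    exact Submodule.subset_span hu
  | zero =>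
    have h := jG_smul (D := D) a1 x 0 (0 : Ten I L)
    rw [zero_smul, map_zero, zero_smul] at h
    rw [h]
    exact zero_mem _
  | add a b _ _ ha hb =>
    rw [jG_add a1]
    exact add_mem ha hb
  | smul c a _ ha =>
    rw [jG_smul a1]
    exact Submodule.smul_mem _ _ ha

/-- If the tensors in `T` are members fixed by `x J₀ x⁻¹` and span all members of the system over
`ℂ`, then `ψ` is positive on the real combinations of members. -/
theorem pos_of (a1 : Alg1) (S : ASys D At) {L : ℕ}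
    (nd : ∀ u ∈ Submodule.span ℂ {u : Ten I L | At L u}, u ≠ 0 →
      ∃ v ∈ Submodule.span ℂ {u : Ten I L | At L u}, psiT D u v ≠ 0)
    {x : Matrix I I ℂ} (hx : IsG D x) {T : Set (Ten I L)} (hTA : ∀ b ∈ T, At L b)
    (hspan : ∀ u, At L u → u ∈ Submodule.span ℂ T) (hT : ∀ b ∈ T, jG D x b = b)
    (u : Ten I L) (hu : u ∈ Submodule.span ℝ {u | At L u}) (hu0 : u ≠ 0) :
    ∃ r : ℝ, 0 < r ∧ psiT D u u = (r : ℂ) := by
  have hAT : Submodule.span ℂ {u : Ten I L | At L u} ≤ Submodule.span ℂ T :=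
    Submodule.span_le.2 fun u hu => hspan u hu
  have hTA' : Submodule.span ℂ T ≤ Submodule.span ℂ {u : Ten I L | At L u} :=
    Submodule.span_mono hTA
  have huC : u ∈ Submodule.span ℂ {u : Ten I L | At L u} :=
    Submodule.span_subset_span ℝ ℂ _ hu
  have huT := hAT huC
  have hJu : jG D x u = u := by
    by_contra hne
    obtain ⟨v, hv, hv0⟩ := nd (jG D x u - u) (sub_mem (hTA' (jG_mem a1 x hT huT)) huC)
      (sub_ne_zero.2 hne)
    refine hv0 ?_
    have key : ∀ v ∈ Submodule.span ℂ T, psiT D (jG D x u - u) v = 0 := by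
      intro v hv
      induction hv using Submodule.span_induction with
      | mem b hb =>
        have h1 : psiT D (jG D x u) b = psiT D u b := by
          have h2 := jG_psi a1 hx u b
          rw [hT b hb] at h2
          rw [h2]
          exact Complex.conj_eq_iff_im.2 (psi_real S (hTA b hb) hu)
        rw [← psiL_apply, map_sub, LinearMap.sub_apply, psiL_apply, psiL_apply, h1, sub_self]
      | zero => rw [← psiL_apply, map_zero]
      | add a b _ _ ha hb => rw [← psiL_apply, map_add, psiL_apply, psiL_apply, ha, hb, add_zero]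
      | smul c a _ ha => rw [← psiL_apply, map_smul, psiL_apply, ha, smul_zero]
    exact key v (hAT hv)
  obtain ⟨hxi, hx1, hx2⟩ := a1.G_inv D x hx
  obtain ⟨v, hv⟩ : ∃ v, v = gT x⁻¹ u := ⟨_, rfl⟩
  have hxv : gT x v = u := by rw [hv, ← a1.gT_mul, hx1, a1.gT_one]
  have hJv : jT D v = v := by
    have h1 : gT x (jT D v) = gT x v := by
      rw [hxv, hv]
      exact hJu
    have h2 := congrArg (gT x⁻¹) h1
    rwa [← a1.gT_mul, ← a1.gT_mul, hx2, a1.gT_one, a1.gT_one] at h2
  have hv0 : v ≠ 0 := by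
    rintro rfl
    refine hu0 ?_
    have h := a1.gT_smul x 0 (0 : Ten I L)
    rw [zero_smul, zero_smul] at h
    rw [← hxv, h]
  have h1 : psiT D u u = ((∑ w, ‖v w‖ ^ 2 : ℝ) : ℂ) := by
    calc psiT D u u = psiT D (gT x v) (gT x v) := by rw [hxv]
      _ = psiT D v v := a1.psiT_gT D x v v hx
      _ = psiT D v (jT D v) := by rw [hJv]
      _ = FL.hT v v := a1.psiT_jT D v v
      _ = _ := a1.hT_self v
  refine ⟨_, ?_, h1⟩
  obtain ⟨w, hw⟩ : ∃ w, v w ≠ 0 := by
    by_contra h
    push Not at h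
    exact hv0 (funext h)
  exact Finset.sum_pos' (fun w _ => by positivity) ⟨w, Finset.mem_univ w, by positivity⟩

/-- the same for a tuple -/
theorem pos_tup (a1 : Alg1) (S : ASys D At) {L : ℕ}
    (nd : ∀ u ∈ Submodule.span ℂ {u : Ten I L | At L u}, u ≠ 0 →
      ∃ v ∈ Submodule.span ℂ {u : Ten I L | At L u}, psiT D u v ≠ 0)
    {ι : Type} [Fintype ι] {len : ι → ℕ} {t s : Tup I len} {x : Matrix I I ℂ}
    (hmem : ∀ i, At (len i) (t i))
    (hspan : ∀ u, At L u →
      u ∈ Submodule.span ℂ {v : Ten I L | ∃ i, ∃ h : len i = L, v = h ▸ t i})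
    (hx : IsG D x) (hxs : gS x s = t) (hJ : jS D s = s)
    (u : Ten I L) (hu : u ∈ Submodule.span ℝ {u | At L u}) (hu0 : u ≠ 0) :
    ∃ r : ℝ, 0 < r ∧ psiT D u u = (r : ℂ) := by
  refine pos_of a1 S nd hx (T := {v : Ten I L | ∃ i, ∃ h : len i = L, v = h ▸ t i}) ?_ hspan ?_ u hu
    hu0
  · rintro _ ⟨i, rfl, rfl⟩
    exact hmem i
  · rintro _ ⟨i, rfl, rfl⟩
    obtain ⟨-, hx1, hx2⟩ := a1.G_inv D x hx
    have h1 : gT x (s i) = t i := congrFun hxs i
    have h2 : jT D (s i) = s i := congrFun hJ i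
    change gT x (jT D (gT x⁻¹ (t i))) = t i
    rw [← h1, ← a1.gT_mul x⁻¹, hx2, a1.gT_one, h2]

/-! ### The parity of the lengths -/

theorem s_mul (ho : ∀ i, D.odd (D.typ i)) (i : I) : D.s (D.τ i) * D.s i = -1 := by
  rw [(D.odd_τ i (ho i)).2]
  rcases D.s_val i with h | h <;> rw [h] <;> norm_num

theorem s_conj (i : I) : (starRingEnd ℂ) (D.s i) = D.s i := by
  rcases D.s_val i with h | h <;> rw [h] <;> simp

theorem jj (ho : ∀ i, D.odd (D.typ i)) {L : ℕ} (u : Ten I L) :
    jT D (jT D u) = fun w => (-1) ^ L * u w := by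
  funext w
  have h1 : (D.τ ∘ (D.τ ∘ w)) = w := by
    funext i
    exact D.τ_τ (w i)
  have h2 : sg D (D.τ ∘ w) * (starRingEnd ℂ) (sg D w) = (-1) ^ L := by
    rw [sg, sg, map_prod, ← Finset.prod_mul_distrib]
    have h3 : ∀ i ∈ (Finset.univ : Finset (Fin L)),
        D.s ((D.τ ∘ w) i) * (starRingEnd ℂ) (D.s (w i)) = -1 := fun i _ => by
      rw [s_conj]
      exact s_mul ho (w i)
    rw [Finset.prod_congr rfl h3, Finset.prod_const, Finset.card_univ, Fintype.card_fin]
  simp only [jT]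
  rw [h1, map_mul, Complex.conj_conj, ← mul_assoc, h2]

/-- a member of odd length is zero -/
theorem odd_zero (ho : ∀ i, D.odd (D.typ i)) {L : ℕ} (hL : Odd L) {u : Ten I L}
    (hu : jT D (jT D u) = u) : u = 0 := by
  rw [jj ho, hL.neg_one_pow] at hu
  funext w
  have h1 := congrFun hu w
  rw [Pi.zero_apply]
  have h2 : (2 : ℂ) * u w = 0 := by linear_combination -h1
  rcases mul_eq_zero.1 h2 with h | h
  · norm_num at h
  · exact h

/-! ### `J₀ s = s` -/

theorem s_ne (i : I) : D.s i ≠ 0 := by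
  rcases D.s_val i with h | h <;> rw [h] <;> norm_num

theorem diag_tau {d : I → ℂ} (hd : IsG D (Matrix.diagonal d)) (i : I) :
    d i * d (D.τ i) = 1 := by
  have h1 := congrFun (congrFun hd.2 i) (D.τ i)
  rw [Matrix.diagonal_transpose, Matrix.mul_diagonal, Matrix.diagonal_mul] at h1
  simp only [Psi, Matrix.of_apply, if_true] at h1
  have h3 : (d i * d (D.τ i) - 1) * D.s i = 0 := by linear_combination h1
  exact sub_eq_zero.1 ((mul_eq_zero.1 h3).resolve_right (s_ne i))

theorem lie_tau {A : Matrix I I ℂ} (hA : IsLie D A) (i : I) : A i i + A (D.τ i) (D.τ i) = 0 := by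
  have h2 := congrFun (congrFun hA.2 i) (D.τ i)
  rw [Matrix.add_apply, Matrix.mul_apply, Matrix.mul_apply, Matrix.zero_apply] at h2
  rw [Finset.sum_eq_single i, Finset.sum_eq_single (D.τ i)] at h2
  · rw [Matrix.transpose_apply] at h2
    simp only [Psi, Matrix.of_apply, if_true] at h2
    have h3 : (A i i + A (D.τ i) (D.τ i)) * D.s i = 0 := by linear_combination h2
    exact (mul_eq_zero.1 h3).resolve_right (s_ne i)
  · intro j _ hj
    simp only [Psi, Matrix.of_apply]
    rw [if_neg hj, zero_mul]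
  · intro h
    exact absurd (Finset.mem_univ _) h
  · intro j _ hj
    simp only [Psi, Matrix.of_apply]
    rw [if_neg, mul_zero]
    intro h
    exact hj (by rw [← D.τ_τ j, ← h, D.τ_τ])
  · intro h
    exact absurd (Finset.mem_univ _) h

theorem lie_trace {A : Matrix I I ℂ} (hA : IsLie D A) : A.trace = 0 := by
  have h1 : ∑ i, A (D.τ i) (D.τ i) = ∑ i, A i i :=
    Equiv.sum_comp (Function.Involutive.toPerm D.τ D.τ_τ) fun i => A i i
  have h2 : ∑ i, (A i i + A (D.τ i) (D.τ i)) = 0 :=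
    Finset.sum_eq_zero fun i _ => lie_tau hA i
  rw [Finset.sum_add_distrib, h1] at h2
  have h3 : A.trace = ∑ i, A i i := rfl
  rw [h3]
  have h4 : (2 : ℂ) * ∑ i, A i i = 0 := by rw [two_mul]; exact h2
  rcases mul_eq_zero.1 h4 with h | h
  · norm_num at h
  · exact h

variable {ι : Type} [Fintype ι] {len : ι → ℕ}

/-- the Lie algebra of the stabiliser as a subspace -/
def stabS (a1 : Alg1) (D : Dat I Λ) (s : Tup I len) : Submodule ℂ (Matrix I I ℂ) where
  carrier := stab D s
  zero_mem' := by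
    refine ⟨⟨fun _ _ _ => rfl, by simp⟩, funext fun i => ?_⟩
    have h := a1.smul_aT (0 : ℂ) (0 : Matrix I I ℂ) (s i)
    rw [zero_smul, zero_smul] at h
    exact h
  add_mem' := by
    rintro A B ⟨hA, hA'⟩ ⟨hB, hB'⟩
    refine ⟨⟨fun i j h => by rw [Matrix.add_apply, hA.1 i j h, hB.1 i j h, add_zero], ?_⟩,
      funext fun i => ?_⟩
    · rw [Matrix.transpose_add, add_mul, mul_add]
      have h1 := hA.2
      have h2 := hB.2
      calc A.transpose * Psi D + B.transpose * Psi D + (Psi D * A + Psi D * B)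
          = (A.transpose * Psi D + Psi D * A) + (B.transpose * Psi D + Psi D * B) := by abel
        _ = 0 := by rw [h1, h2, add_zero]
    · have h1 : aT A (s i) = 0 := congrFun hA' i
      have h2 : aT B (s i) = 0 := congrFun hB' i
      change aT (A + B) (s i) = 0
      rw [a1.add_aT, h1, h2, add_zero]
  smul_mem' := by
    rintro c A ⟨hA, hA'⟩
    refine ⟨⟨fun i j h => by rw [Matrix.smul_apply, hA.1 i j h, smul_zero], ?_⟩,
      funext fun i => ?_⟩
    · rw [Matrix.transpose_smul, smul_mul_assoc, mul_smul_comm, ← smul_add, hA.2, smul_zero]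
    · have h1 : aT A (s i) = 0 := congrFun hA' i
      change aT (c • A) (s i) = 0
      rw [a1.smul_aT, h1, smul_zero]

theorem mem_stabS {a1 : Alg1} {s : Tup I len} {A : Matrix I I ℂ} :
    A ∈ stabS a1 D s ↔ A ∈ stab D s := Iff.rfl

/-- the bracket of two elements of the Lie algebra of the stabiliser -/
theorem stab_br (a1 : Alg1) {s : Tup I len} {A B : Matrix I I ℂ} (hA : A ∈ stab D s)
    (hB : B ∈ stab D s) : A * B - B * A ∈ stab D s := by
  refine ⟨Two.lie_br hA.1 hB.1, funext fun i => ?_⟩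
  have h1 : aT A (s i) = 0 := congrFun hA.2 i
  have h2 : aT B (s i) = 0 := congrFun hB.2 i
  have h3 := a1.aT_comm A B (s i)
  have h4 : ∀ C : Matrix I I ℂ, aT C (0 : Ten I (len i)) = 0 := fun C => by
    have h := a1.aT_smul C (0 : ℂ) (0 : Ten I (len i))
    rw [zero_smul, zero_smul] at h
    exact h
  rw [h1, h2, h4, h4, sub_zero] at h3
  exact h3.symm

/-- `diag k = c exp(diag b)` with `diag b` in the Lie algebra of the stabiliser fixes `s` -/
theorem fix_of (ho : ∀ i, D.odd (D.typ i)) {s : Tup I len} {k b : I → ℂ} {c : ℂ}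
    (hev : ∀ i, jT D (jT D (s i)) = s i) (hk : IsG D (Matrix.diagonal k))
    (hb : Matrix.diagonal b ∈ stab D s) (hkc : ∀ i, k i = c * Complex.exp (b i)) :
    gS (Matrix.diagonal k) s = s := by
  funext i
  change gT (Matrix.diagonal k) (s i) = s i
  rcases Nat.even_or_odd (len i) with he | hod
  swap
  · rw [odd_zero ho hod (hev i)]
    funext w
    rw [E3.gT_diag]
    simp
  funext w
  rw [E3.gT_diag]
  by_cases h0 : s i w = 0
  · rw [h0, mul_zero]
  have h1 : (∑ j, b (w j)) * s i w = 0 := by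
    rw [← E3.aT_diag]
    exact congrFun (congrFun hb.2 i) w
  have h2 : ∑ j, b (w j) = 0 := (mul_eq_zero.1 h1).resolve_right h0
  have h3 : ∏ j, k (w j) = c ^ len i := by
    have h4 : ∀ j ∈ (Finset.univ : Finset (Fin (len i))), k (w j) = c * Complex.exp (b (w j)) :=
      fun j _ => hkc (w j)
    rw [Finset.prod_congr rfl h4, Finset.prod_mul_distrib, Finset.prod_const, Finset.card_univ,
      Fintype.card_fin, ← Complex.exp_sum, h2, Complex.exp_zero, mul_one]
  have h5 : c ^ len i = 1 := by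
    rcases Nat.eq_zero_or_pos (len i) with hz | hp
    · rw [hz, pow_zero]
    obtain ⟨j, -⟩ : ∃ j : Fin (len i), True := ⟨⟨0, hp⟩, trivial⟩
    have h6 := diag_tau hk (w j)
    have h7 : b (w j) + b (D.τ (w j)) = 0 := by
      have h := lie_tau hb.1 (w j)
      rwa [Matrix.diagonal_apply_eq, Matrix.diagonal_apply_eq] at h
    rw [hkc, hkc] at h6
    have h8 : c ^ 2 = 1 := by
      have h9 : c ^ 2 * Complex.exp (b (w j) + b (D.τ (w j))) = 1 := by
        rw [Complex.exp_add]
        linear_combination h6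
      rwa [h7, Complex.exp_zero, mul_one] at h9
    obtain ⟨r, hr⟩ := he
    rw [hr, ← two_mul, pow_mul, h8, one_pow]
  rw [h3, h5, one_mul]

end Six

/-- Row E6. -/
theorem e6 : E6Statement := by
  intro e1 e2 e3 e4 e5 I Λ _ _ _ D At Bt l Γ hE L u hu hu0
  obtain ⟨ι, _, len, t, s, x, k, h⟩ := e1 D At Bt l Γ hE L
  obtain ⟨a, ha, haS⟩ := e3 D s l hE.typ_eq hE.odd hE.tau hE.ratio h.fix
  have irr := e4 D At Bt l Γ hE L len t s x k h ⟨a, ha, haS⟩
  have hk0 : ∀ i, k i ≠ 0 := fun i h0 => by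
    have h1 := Six.diag_tau h.cpt.1 i
    rw [h0, zero_mul] at h1
    exact zero_ne_one h1
  obtain ⟨b, c, hb, hkc⟩ := e5 (Six.stabS alg1 D s) (fun A hA B hB => Six.stab_br alg1 hA hB)
    (fun A hA => Six.lie_trace hA.1) irr a ha haS k hk0 (e2 D s k h.min h.cpt h.key)
  have hev : ∀ i, jT D (jT D (s i)) = s i := by
    intro i
    -- `J₀²` is `(-1)^L`, which commutes with `x`
    have h1 := hE.sys.even _ _ (h.mem i)
    have h2 : gT x (s i) = t i := congrFun h.eq i
    obtain ⟨-, hx1, hx2⟩ := alg1.G_inv D x h.grp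
    have h3 : s i = gT x⁻¹ (t i) := by rw [← h2, ← alg1.gT_mul, hx2, alg1.gT_one]
    rw [Six.jj hE.odd] at h1 ⊢
    have h4 : (fun w => (-1 : ℂ) ^ len i * s i w) = ((-1 : ℂ) ^ len i) • s i := rfl
    have h5 : (fun w => (-1 : ℂ) ^ len i * t i w) = ((-1 : ℂ) ^ len i) • t i := rfl
    rw [h4]
    rw [h5] at h1
    rw [h3, ← alg1.gT_smul, h1]
  have hfix := Six.fix_of hE.odd hev h.cpt.1 hb hkc
  exact Six.pos_tup alg1 hE.sys (hE.nd L) h.mem (h.span L le_rfl) h.grp h.eq
    (h.key.symm.trans hfix) u hu hu0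

end Pool.Agent.Lib.MP_361a6f_ag.FL.E
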