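import Pool.Agent.Lib.MP_361a6f_ag.FL.E.DefsP
import Pool.Agent.Lib.MP_361a6f_ag.FL.E.E6
import Pool.Agent.Lib.MP_361a6f_ag.FL.Al2

/-!
# Theorem E+, row P6: the assembly
-/

set_option autoImplicit false
set_option linter.unusedSectionVars false

open Filter Topology

namespace Pool.Agent.Lib.MP_361a6f_ag.FL.E

namespace Six

variable {I Λ : Type} [Fintype I] [DecidableEq I] [DecidableEq Λ] {D : Dat I Λ}

theorem s_sq (i : I) : D.s i * D.s i = 1 := by
  rcases D.s_val i with h | h <;> rw [h] <;> norm_num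

/-- the entries of an element of the Lie algebra -/
theorem lie_entry {A : Matrix I I ℂ} (hA : IsLie D A) (i j : I) :
    A (D.τ j) i * D.s (D.τ j) + D.s i * A (D.τ i) j = 0 := by
  have h2 := congrFun (congrFun hA.2 i) j
  rw [Matrix.add_apply, Matrix.mul_apply, Matrix.mul_apply, Matrix.zero_apply] at h2
  rw [Finset.sum_eq_single (D.τ j), Finset.sum_eq_single (D.τ i)] at h2
  · rw [Matrix.transpose_apply] at h2
    simp only [Psi, Matrix.of_apply, if_true, D.τ_τ] at h2
    exact h2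
  · intro l _ hl
    simp only [Psi, Matrix.of_apply]
    rw [if_neg hl, zero_mul]
  · intro h
    exact absurd (Finset.mem_univ _) h
  · intro l _ hl
    simp only [Psi, Matrix.of_apply]
    rw [if_neg, mul_zero]
    intro h
    exact hl (by rw [h, D.τ_τ])
  · intro h
    exact absurd (Finset.mem_univ _) h

/-- the invariant tensors of length `2` are killed by the Lie algebra -/
theorem aT_om (hty : ∀ i j, D.typ i = D.typ j) {A : Matrix I I ℂ} (hA : IsLie D A) (α : Λ) :
    aT A (om D α) = 0 := by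
  funext w
  by_cases hα : D.typ (w 0) = α
  swap
  · have h1 : om D α = 0 := by
      funext v
      simp only [om, Pi.zero_apply]
      rw [if_neg]
      rintro ⟨h, -⟩
      exact hα (by rw [← h]; exact hty _ _)
    have h := alg1.aT_smul A (0 : ℂ) (0 : Ten I 2)
    rw [zero_smul, zero_smul] at h
    rw [h1, h]
  have hom : ∀ v : Fin 2 → I, om D α v = if v 1 = D.τ (v 0) then D.s (v 0) else 0 := by
    intro v
    simp only [om]
    by_cases h : v 1 = D.τ (v 0)
    · rw [if_pos ⟨by rw [hty (v 0) (w 0)]; exact hα, h⟩, if_pos h]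
    · rw [if_neg (fun h' => h h'.2), if_neg h]
  simp only [aT, Fin.sum_univ_two, hom, Pi.zero_apply]
  rw [Finset.sum_eq_single (D.τ (w 1)), Finset.sum_eq_single (D.τ (w 0))]
  · have e1 : Function.update w 0 (D.τ (w 1)) 1 = w 1 :=
      Function.update_of_ne (by decide) _ _
    have e2 : Function.update w 0 (D.τ (w 1)) 0 = D.τ (w 1) := Function.update_self _ _ _
    have e3 : Function.update w 1 (D.τ (w 0)) 1 = D.τ (w 0) := Function.update_self _ _ _
    have e4 : Function.update w 1 (D.τ (w 0)) 0 = w 0 :=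
      Function.update_of_ne (by decide) _ _
    rw [e1, e2, e3, e4, D.τ_τ, if_pos rfl, if_pos rfl]
    have h1 := lie_entry hA (D.τ (w 1)) (D.τ (w 0))
    rw [D.τ_τ, D.τ_τ] at h1
    have h2 := s_sq (D := D) (w 0)
    have h3 := s_sq (D := D) (D.τ (w 1))
    linear_combination D.s (w 0) * D.s (D.τ (w 1)) * h1
      - A (w 0) (D.τ (w 1)) * D.s (D.τ (w 1)) * h2
      - A (w 1) (D.τ (w 0)) * D.s (w 0) * h3
  · intro j _ hj
    rw [Function.update_self, Function.update_of_ne (by decide), if_neg, mul_zero]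
    exact hj
  · intro h
    exact absurd (Finset.mem_univ _) h
  · intro j _ hj
    rw [Function.update_self, Function.update_of_ne (by decide), if_neg, mul_zero]
    intro h
    exact hj (by rw [h, D.τ_τ])
  · intro h
    exact absurd (Finset.mem_univ _) h

theorem gT_zero (g : Matrix I I ℂ) {L : ℕ} : gT g (0 : Ten I L) = 0 := by
  have h := alg1.gT_smul g (0 : ℂ) (0 : Ten I L)
  rwa [zero_smul, zero_smul] at h

/-- `diag k` that acts by `c ^ L` on the tensors killed by the stabiliser fixes `s` -/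
theorem fix_of_pow {ι : Type} [Fintype ι] {len : ι → ℕ} (hty : ∀ i j, D.typ i = D.typ j)
    (ho : ∀ i, D.odd (D.typ i)) {s : Tup I len} {k : I → ℂ} {c : ℂ}
    (hev : ∀ i, jT D (jT D (s i)) = s i) (hk : IsG D (Matrix.diagonal k))
    (hc : ∀ (L : ℕ) (u : Ten I L), (∀ A ∈ stab D s, aT A u = 0) →
      gT (Matrix.diagonal k) u = c ^ L • u) :
    gS (Matrix.diagonal k) s = s := by
  funext i
  change gT (Matrix.diagonal k) (s i) = s i
  have h1 := hc (len i) (s i) fun A hA => congrFun hA.2 i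
  rcases Nat.even_or_odd (len i) with he | hod
  swap
  · rw [odd_zero ho hod (hev i), gT_zero]
  by_cases h0 : s i = 0
  · rw [h0, gT_zero]
  rcases Nat.eq_zero_or_pos (len i) with hz | hp
  · have h2 : c ^ len i = 1 := by rw [hz, pow_zero]
    rw [h1, h2, one_smul]
  obtain ⟨w, -⟩ : ∃ w, s i w ≠ 0 := by
    by_contra h
    push Not at h
    exact h0 (funext h)
  have h2 : c ^ 2 • om D (D.typ (w ⟨0, hp⟩)) = om D (D.typ (w ⟨0, hp⟩)) := by
    rw [← hc 2 _ fun A hA => aT_om hty hA.1 _]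
    exact alg2.om_gT D _ _ hk
  have h3 := congrFun h2 ![w ⟨0, hp⟩, D.τ (w ⟨0, hp⟩)]
  rw [Pi.smul_apply] at h3
  have h4 : om D (D.typ (w ⟨0, hp⟩)) ![w ⟨0, hp⟩, D.τ (w ⟨0, hp⟩)] = D.s (w ⟨0, hp⟩) :=
    if_pos ⟨rfl, rfl⟩
  rw [h4, smul_eq_mul] at h3
  have h5 : (c ^ 2 - 1) * D.s (w ⟨0, hp⟩) = 0 := by linear_combination h3
  have h6 : c ^ 2 = 1 := sub_eq_zero.1 ((mul_eq_zero.1 h5).resolve_right (s_ne _))
  obtain ⟨r, hr⟩ := he
  have h7 : c ^ len i = 1 := by rw [hr, ← two_mul, pow_mul, h6, one_pow]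
  rw [h1, h7, one_smul]

/-- `J₀²` is the identity on `s = x⁻¹ t` if it is on `t` -/
theorem even_of {ι : Type} [Fintype ι] {len : ι → ℕ} (ho : ∀ i, D.odd (D.typ i)) {t s : Tup I len}
    {x : Matrix I I ℂ} (hx : IsG D x) (hxs : gS x s = t) (ht : ∀ i, jT D (jT D (t i)) = t i)
    (i : ι) : jT D (jT D (s i)) = s i := by
  have h1 := ht i
  have h2 : gT x (s i) = t i := congrFun hxs i
  obtain ⟨-, hx1, hx2⟩ := alg1.G_inv D x hx
  have h3 : s i = gT x⁻¹ (t i) := by rw [← h2, ← alg1.gT_mul, hx2, alg1.gT_one]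
  rw [jj ho] at h1 ⊢
  have h4 : (fun w => (-1 : ℂ) ^ len i * s i w) = ((-1 : ℂ) ^ len i) • s i := rfl
  have h5 : (fun w => (-1 : ℂ) ^ len i * t i w) = ((-1 : ℂ) ^ len i) • t i := rfl
  rw [h4]
  rw [h5] at h1
  rw [h3, ← alg1.gT_smul, h1]

end Six

/-- Row P6. -/
theorem p6 : P6Statement := by
  intro p1 p2 e2 p3 p4 p4b p5 I Λ _ _ _ D At Bt l Γ β _ lb b hE L u hu hu0
  obtain ⟨ι, _, len, t, s, x, k, h⟩ := p1 D At Bt l Γ lb b hE (max L 2)
  have hL := h.lvl
  have hk := hL.cpt.1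
  obtain ⟨a, ha, har, haS⟩ := p3 D s l hE.typ_eq hE.odd hE.tau hE.ratio hL.fix
  have irr := p4 D At Bt l Γ lb b hE _ (le_max_right L 2) len t s x k h
  have com := p4b D At Bt l Γ lb b hE _ (le_max_right L 2) len t s x k h
  have hk0 : ∀ i, k i ≠ 0 := fun i h0 => by
    have h1 := Six.diag_tau hk i
    rw [h0, zero_mul] at h1
    exact zero_ne_one h1
  obtain ⟨c, hc⟩ := p5 (Six.stabS alg1 D s) {e | ∃ z, At 2 z ∧ e = opM D z}
    (fun A hA B hB => Six.stab_br alg1 hA hB) (fun A hA => Six.lie_trace hA.1)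
    (p2 D s hL.min)
    (by
      rintro _ ⟨z, hz, rfl⟩ A hA
      exact (com z hz).1 A hA)
    (fun U h1 h2 => irr U h1 fun z hz v hv => h2 _ ⟨z, hz, rfl⟩ v hv) a har haS k hk0
    (fun i j hij => h.blk i j ((ha i j).1 hij))
    (by
      rintro _ ⟨z, hz, rfl⟩
      exact (com z hz).2)
    (e2 D s k hL.min hL.cpt hL.key)
  have hev := Six.even_of hE.odd hL.grp hL.eq fun i => hE.sys.even _ _ (hL.mem i)
  have hfix := Six.fix_of_pow hE.typ_eq hE.odd hev hk hc
  exact Six.pos_tup alg1 hE.sys (hE.nd L) hL.mem (hL.span L (le_max_left L 2)) hL.grp hL.eq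
    (hL.key.symm.trans hfix) u hu hu0

end Pool.Agent.Lib.MP_361a6f_ag.FL.E
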