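import Pool.Agent.Lib.MP_361a6f_ag.FL.E.DefsH
import Pool.Agent.Lib.MP_361a6f_ag.FL.E.P6

/-!
# Theorem E3: the assembly (row H6), and the irreducible case (row HP)
-/

set_option autoImplicit false
set_option linter.unusedSectionVars false

open Filter Topology

namespace Pool.Agent.Lib.MP_361a6f_ag.FL.E

namespace Hsix

variable {I Λ : Type} [Fintype I] [DecidableEq I] [DecidableEq Λ] {D : Dat I Λ}
  {At : (L : ℕ) → Ten I L → Prop} {Γ : Set (Matrix I I ℂ)}

/-- the conjugates of the elements of `Γ` -/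
def conjS (Γ : Set (Matrix I I ℂ)) (x : Matrix I I ℂ) : Set (Matrix I I ℂ) :=
  {y | ∃ γ ∈ Γ, y = x⁻¹ * γ * x}

/-- transport of stable subspaces -/
theorem stabU_map {x : Matrix I I ℂ} (hx1 : x * x⁻¹ = 1)
    (hcom : ∀ z, At 2 z → opM D z * x = x * opM D z) {U : Submodule ℂ (I → ℂ)}
    (hU : ∀ z, At 2 z → ∀ v ∈ U, (opM D z).mulVec v ∈ U)
    (hfin : {U' : Submodule ℂ (I → ℂ) | ∃ y ∈ conjS Γ x, U' = U.map (Matrix.toLin' y)}.Finite) :
    StabU D At Γ (U.map (Matrix.toLin' x)) := by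
  constructor
  · rintro z hz _ ⟨v, hv, rfl⟩
    refine ⟨(opM D z).mulVec v, hU z hz v hv, ?_⟩
    rw [Matrix.toLin'_apply, Matrix.toLin'_apply, Matrix.mulVec_mulVec, Matrix.mulVec_mulVec,
      hcom z hz]
  · refine (hfin.image fun U' => U'.map (Matrix.toLin' x)).subset ?_
    rintro _ ⟨γ, hγ, rfl⟩
    refine ⟨U.map (Matrix.toLin' (x⁻¹ * γ * x)), ⟨_, ⟨γ, hγ, rfl⟩, rfl⟩, ?_⟩
    change Submodule.map (Matrix.toLin' x) (Submodule.map (Matrix.toLin' (x⁻¹ * γ * x)) U) =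
      Submodule.map (Matrix.toLin' γ) (Submodule.map (Matrix.toLin' x) U)
    rw [← Submodule.map_comp, ← Submodule.map_comp, ← Matrix.toLin'_mul, ← Matrix.toLin'_mul,
      ← mul_assoc, ← mul_assoc, hx1, one_mul]

/-- the conjugates fix `s` -/
theorem conjS_fix {ι : Type} [Fintype ι] {len : ι → ℕ} {t s : Tup I len} {x : Matrix I I ℂ}
    (hx : IsG D x) (hxs : gS x s = t) (hG : ∀ γ ∈ Γ, IsG D γ)
    (hfix : ∀ γ ∈ Γ, ∀ L u, At L u → gT γ u = u) (hmem : ∀ i, At (len i) (t i)) :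
    ∀ y ∈ conjS Γ x, IsG D y ∧ gS y s = s := by
  rintro _ ⟨γ, hγ, rfl⟩
  obtain ⟨hxi, hx1, hx2⟩ := alg1.G_inv D x hx
  refine ⟨alg1.G_mul D _ _ (alg1.G_mul D _ _ hxi (hG γ hγ)) hx, funext fun i => ?_⟩
  have h1 : gT x (s i) = t i := congrFun hxs i
  change gT (x⁻¹ * γ * x) (s i) = s i
  rw [alg1.gT_mul, alg1.gT_mul, h1, hfix γ hγ _ _ (hmem i), ← h1, ← alg1.gT_mul, hx2, alg1.gT_one]

/-- the form is preserved -/
theorem psi_map {x : Matrix I I ℂ} (hx : IsG D x) (v w : I → ℂ) :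
    dotProduct (x.mulVec v) ((Psi D).mulVec (x.mulVec w)) = dotProduct v ((Psi D).mulVec w) := by
  conv_rhs => rw [← hx.2]
  rw [← Matrix.mulVec_mulVec, ← Matrix.mulVec_mulVec, Matrix.dotProduct_mulVec v x.transpose,
    Matrix.vecMul_transpose]

theorem psi_unit : IsUnit (Psi D) := by
  have h : Psi D * (Psi D).transpose = 1 := by
    ext i j
    rw [Matrix.mul_apply, Finset.sum_eq_single (D.τ i)]
    · rw [Matrix.transpose_apply]
      simp only [Psi, Matrix.of_apply, if_true]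
      by_cases hij : i = j
      · subst hij
        rw [if_pos rfl, Matrix.one_apply_eq, Six.s_sq]
      · rw [if_neg, mul_zero, Matrix.one_apply_ne hij]
        intro h
        exact hij (by rw [← D.τ_τ i, h, D.τ_τ])
    · intro l _ hl
      simp only [Psi, Matrix.of_apply]
      rw [if_neg hl, zero_mul]
    · intro h
      exact absurd (Finset.mem_univ _) h
  exact IsUnit.of_mul_eq_one _ h

end Hsix

/-- Row H6. -/
theorem h6 : H6Statement := by
  intro g1 p2 e2 p3 g4 g4b h5 I Λ _ _ _ D At Bt l Γ β _ lb b hE L u hu hu0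
  obtain ⟨ι, _, len, t, s, x, k, h⟩ := g1 D At Bt l Γ lb b hE.toCSys (max L 2)
  have hL := h.lvl
  have hk := hL.cpt.1
  obtain ⟨a, ha, har, haS⟩ := p3 D s l hE.typ_eq hE.odd hE.tau hE.ratio hL.fix
  have com := g4b D At Bt l Γ lb b hE.toCSys _ (le_max_right L 2) len t s x k h
  obtain ⟨hxi, hx1, hx2⟩ := alg1.G_inv D x hL.grp
  have hkn : ∀ i, ‖k i‖ = 1 := by
    intro i
    have h1 := congrFun (congrFun hL.cpt.2 i) i
    rw [Matrix.mul_diagonal, Matrix.conjTranspose_apply, Matrix.diagonal_apply_eq,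
      Matrix.one_apply_eq] at h1
    have h2 : ((‖k i‖ ^ 2 : ℝ) : ℂ) = 1 := by
      rw [← h1, mul_comm, Complex.ofReal_pow]
      exact (Complex.mul_conj' (k i)).symm
    have h3 : ‖k i‖ ^ 2 = 1 := by exact_mod_cast h2
    have h4 : (0 : ℝ) ≤ ‖k i‖ := norm_nonneg _
    nlinarith
  -- stable subspaces
  have hst : ∀ U : Submodule ℂ (I → ℂ), (∀ A ∈ stab D s, ∀ v ∈ U, A.mulVec v ∈ U) →
      (∀ e ∈ {e | ∃ z, At 2 z ∧ e = opM D z}, ∀ v ∈ U, e.mulVec v ∈ U) →
      StabU D At Γ (U.map (Matrix.toLin' x)) := by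
    intro U h1 h2
    exact Hsix.stabU_map hx1 (fun z hz => (com z hz).2.2) (fun z hz => h2 _ ⟨z, hz, rfl⟩)
      (g4 D s (Hsix.conjS Γ x) hL.min
        (Hsix.conjS_fix hL.grp hL.eq hE.grp hE.gfix hL.mem) U h1)
  have hinj : Function.Injective (Matrix.toLin' x) := by
    intro v w hvw
    have h1 := congrArg (Matrix.toLin' x⁻¹) hvw
    rwa [← LinearMap.comp_apply, ← LinearMap.comp_apply, ← Matrix.toLin'_mul, hx2,
      Matrix.toLin'_one, LinearMap.id_apply, LinearMap.id_apply] at h1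
  have hbot : ∀ U : Submodule ℂ (I → ℂ), U.map (Matrix.toLin' x) = ⊥ → U = ⊥ := by
    intro U h1
    rw [eq_bot_iff]
    intro v hv
    have h2 : Matrix.toLin' x v ∈ U.map (Matrix.toLin' x) := ⟨v, hv, rfl⟩
    rw [h1, Submodule.mem_bot] at h2
    rw [Submodule.mem_bot]
    exact hinj (by rw [h2, map_zero])
  have h5' := h5 (Six.stabS alg1 D s) {e | ∃ z, At 2 z ∧ e = opM D z} (Psi D)
    (fun A hA B hB => Six.stab_br alg1 hA hB) (p2 D s hL.min)
    (by
      rintro _ ⟨z, hz, rfl⟩ A hA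
      exact (com z hz).1 A hA)
    (fun A hA => hA.1.2) Hsix.psi_unit a har haS k hkn
    (fun i j hij => h.blk i j ((ha i j).1 hij))
    (by
      rintro _ ⟨z, hz, rfl⟩
      exact (com z hz).2.1)
    hk.2 (e2 D s k hL.min hL.cpt hL.key)
    (by
      intro U h1 h2 h3
      have h4 := hE.h1 (U.map (Matrix.toLin' x)) (hst U h1 h2) (by
        rintro _ ⟨v, hv, rfl⟩ _ ⟨w, hw, rfl⟩
        rw [Matrix.toLin'_apply, Matrix.toLin'_apply, Hsix.psi_map hL.grp]
        exact h3 v hv w hw)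
      exact hbot U h4)
    (by
      intro U h1 h2 h3 h4
      refine hE.h2 (fun i => (U i).map (Matrix.toLin' x)) (fun i => hst (U i) (h1 i).1 (h1 i).2)
        (fun i hi => h2 i (hbot (U i) hi)) ?_ ?_
      · let e : (I → ℂ) ≃ₗ[ℂ] (I → ℂ) := Matrix.toLin'OfInv hx2 hx1
        exact h3.map_orderIso (Submodule.orderIsoMapComap e)
      · rw [← Submodule.map_iSup, h4, Submodule.map_top, LinearMap.range_eq_top]
        intro v
        refine ⟨Matrix.toLin' x⁻¹ v, ?_⟩
        rw [← LinearMap.comp_apply, ← Matrix.toLin'_mul, hx1, Matrix.toLin'_one,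
          LinearMap.id_apply])
  have hev := Six.even_of hE.odd hL.grp hL.eq fun i => hE.sys.even _ _ (hL.mem i)
  have hfix : gS (Matrix.diagonal k) s = s := by
    funext i
    change gT (Matrix.diagonal k) (s i) = s i
    rcases Nat.even_or_odd (len i) with he | hod
    · exact h5' (len i) (s i) he fun A hA => congrFun hA.2 i
    · rw [Six.odd_zero hE.odd hod (hev i), Six.gT_zero]
  exact Six.pos_tup alg1 hE.sys (hE.nd L) hL.mem (hL.span L (le_max_left L 2)) hL.grp hL.eq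
    (hL.key.symm.trans hfix) u hu hu0

/-- Row HP. -/
theorem hToP : HtoPStatement := by
  intro hH I Λ _ _ _ D At Bt l Γ β _ lb b hP
  refine hH D At Bt l Γ lb b
    { sys := hP.sys, typ_eq := hP.typ_eq, odd := hP.odd, norm := hP.norm, tau := hP.tau,
      ratio := hP.ratio, fix := hP.fix, rsys := hP.rsys, sub := hP.sub, bmem := hP.bmem,
      base := hP.base, comm := hP.comm, grp := hP.grp, gfix := hP.gfix, nd := hP.nd,
      h1 := ?_, h2 := ?_ }
  · intro U hU hiso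
    rcases hP.orbit U hU.1 hU.2 with h | h
    · exact h
    · rw [h] at hiso ⊢
      rw [eq_bot_iff]
      intro v _
      have h1 : ∀ w : I → ℂ, dotProduct v ((Psi D).mulVec w) = 0 := fun w =>
        hiso v trivial w trivial
      obtain ⟨y, hy⟩ := Hsix.psi_unit (D := D)
      have h2 : ∀ w : I → ℂ, dotProduct v w = 0 := by
        intro w
        have h3 := h1 ((↑y⁻¹ : Matrix I I ℂ).mulVec w)
        rwa [Matrix.mulVec_mulVec, ← hy, Units.mul_inv, Matrix.one_mulVec] at h3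
      exact (Submodule.mem_bot ℂ).2 (dotProduct_eq_zero v h2)
  · intro U h1 h2 h3 _
    have h4 : ∀ i, U i = ⊤ := fun i => (hP.orbit (U i) (h1 i).1 (h1 i).2).resolve_left (h2 i)
    have h5 := (iSupIndep_def.1 h3) 0
    have h6 : (⨆ j, ⨆ (_ : j ≠ 0), U j) = ⊤ := by
      rw [eq_top_iff, ← h4 1]
      exact le_iSup₂_of_le (1 : Fin 4) (by decide) le_rfl
    rw [h6, disjoint_top] at h5
    exact h2 0 h5

end Pool.Agent.Lib.MP_361a6f_ag.FL.E
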