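import Pool.Agent.Lib.MP_361a6f_ag.FL.E.Defs
import Pool.Agent.Lib.MP_361a6f_ag.FL.Alg1
import Pool.Agent.Lib.MP_361a6f_ag.FL.Clo

/-!
# Theorem E, row E2: the Lie algebra of the stabiliser of a minimal tuple
-/

set_option autoImplicit false
set_option linter.unusedSectionVars false

open Filter Topology

namespace Pool.Agent.Lib.MP_361a6f_ag.FL.E

namespace Two

variable {I Λ ι : Type} [Fintype I] [DecidableEq I] [DecidableEq Λ] [Fintype ι] {len : ι → ℕ}

theorem aS_zero_right (h : Alg1) (A : Matrix I I ℂ) : aS A (0 : Tup I len) = 0 := by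
  funext i
  have h1 := h.aT_smul A (0 : ℂ) (0 : Ten I (len i))
  rw [zero_smul, zero_smul] at h1
  exact h1

theorem eq_zero_of_hS {u : Tup I len} (h : Alg1) (h0 : hS u u = 0) : u = 0 := by
  have h1 : hS u u = ((∑ i, ∑ w, ‖u i w‖ ^ 2 : ℝ) : ℂ) := by
    unfold hS
    push_cast
    refine Finset.sum_congr rfl fun i _ => ?_
    rw [h.hT_self]
    push_cast
    rfl
  rw [h1] at h0
  have h2 : ∑ i, ∑ w, ‖u i w‖ ^ 2 = 0 := by exact_mod_cast h0
  funext i w
  have h3 := (Finset.sum_eq_zero_iff_of_nonneg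
    (fun i _ => Finset.sum_nonneg fun w _ => by positivity)).1 h2 i (Finset.mem_univ i)
  have h4 := (Finset.sum_eq_zero_iff_of_nonneg (fun w _ => by positivity)).1 h3 w
    (Finset.mem_univ w)
  exact norm_eq_zero.1 (pow_eq_zero_iff (two_ne_zero) |>.1 h4)

variable {D : Dat I Λ}

/-- the bracket -/
theorem lie_br {A B : Matrix I I ℂ} (hA : IsLie D A) (hB : IsLie D B) :
    IsLie D (A * B - B * A) := by
  have hblock : ∀ X Y : Matrix I I ℂ, (∀ i j, D.typ i ≠ D.typ j → X i j = 0) →
      (∀ i j, D.typ i ≠ D.typ j → Y i j = 0) → ∀ i j, D.typ i ≠ D.typ j → (X * Y) i j = 0 := by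
    intro X Y hX hY i j hij
    rw [Matrix.mul_apply]
    refine Finset.sum_eq_zero fun k _ => ?_
    by_cases hk : D.typ i = D.typ k
    · rw [hY k j (fun h => hij (hk.trans h)), mul_zero]
    · rw [hX i k hk, zero_mul]
  have eA : A.transpose * Psi D = -(Psi D * A) := eq_neg_of_add_eq_zero_left hA.2
  have eB : B.transpose * Psi D = -(Psi D * B) := eq_neg_of_add_eq_zero_left hB.2
  refine ⟨fun i j hij => ?_, ?_⟩
  · rw [Matrix.sub_apply, hblock A B hA.1 hB.1 i j hij, hblock B A hB.1 hA.1 i j hij, sub_zero]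
  · rw [Matrix.transpose_sub, Matrix.transpose_mul, Matrix.transpose_mul, sub_mul,
      Matrix.mul_assoc, Matrix.mul_assoc, eA, eB, Matrix.mul_neg, Matrix.mul_neg,
      ← Matrix.mul_assoc, ← Matrix.mul_assoc, eA, eB, Matrix.mul_sub]
    simp only [Matrix.neg_mul, Matrix.mul_assoc, neg_neg]
    abel

/-- the stabiliser of a minimal tuple is closed under the hermitian adjoint -/
theorem stab_adj (h : Alg1) {s : Tup I len} (hs : Minimal D s) {A : Matrix I I ℂ}
    (hA : A ∈ stab D s) : A.conjTranspose ∈ stab D s := by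
  refine ⟨h.Lie_adj D A hA.1, eq_zero_of_hS h ?_⟩
  have h1 : hS (aS A.conjTranspose s) (aS A.conjTranspose s)
      = hS (aS A (aS A.conjTranspose s)) s := by
    unfold hS
    refine Finset.sum_congr rfl fun i _ => ?_
    exact (h.hT_aT A (aT A.conjTranspose (s i)) (s i)).symm
  have h2 : aS A (aS A.conjTranspose s)
      = aS (A * A.conjTranspose - A.conjTranspose * A) s := by
    funext i
    have h3 := h.aT_comm A A.conjTranspose (s i)
    have h4 : aT A (s i) = 0 := congrFun hA.2 i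
    have h5 : aT A.conjTranspose (aT A (s i)) = 0 := by
      rw [h4]
      exact congrFun (aS_zero_right (len := fun _ : Unit => len i) h A.conjTranspose) ()
    rw [h5, sub_zero] at h3
    exact h3
  rw [h1, h2]
  exact hs _ (lie_br hA.1 (h.Lie_adj D A hA.1))

theorem jT_eq_zero {L : ℕ} {u : Ten I L} (h : Alg1) (h0 : jT D u = 0) : u = 0 := by
  have h1 := h.hT_jT_jT D u u
  rw [h0] at h1
  have h2 : hT (0 : Ten I L) (0 : Ten I L) = 0 := by simp [hT]
  rw [h2] at h1
  have h3 : hS (len := fun _ : Unit => L) (fun _ => u) (fun _ => u) = 0 := by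
    simp only [hS, Finset.univ_unique, Finset.sum_singleton]
    exact h1.symm
  exact congrFun (eq_zero_of_hS h h3) ()

end Two

open Two in
/-- Row E2. -/
theorem e2 : E2Statement := by
  intro I Λ ι _ _ _ _ len D s k hs hk hks A hA
  have h := alg1
  obtain ⟨hinv, hkk, hkk'⟩ := h.G_inv D _ hk.1
  have hk0 : ∀ i, k i ≠ 0 := by
    intro i h0
    have h1 := congrFun (congrFun hkk i) i
    rw [Matrix.diagonal_mul, h0, zero_mul, Matrix.one_apply_eq] at h1
    exact zero_ne_one h1
  have einv : (Matrix.diagonal k)⁻¹ = Matrix.diagonal (fun i => (k i)⁻¹) := by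
    refine Matrix.inv_eq_left_inv ?_
    rw [Matrix.diagonal_mul_diagonal]
    have : (fun i => (k i)⁻¹ * k i) = fun _ => (1 : ℂ) := by
      funext i
      exact inv_mul_cancel₀ (hk0 i)
    rw [this, Matrix.diagonal_one]
  rw [← einv]
  refine ⟨CloT.Lie_conj h _ _ hk.1 hA.1, ?_⟩
  have hadj := (stab_adj h hs hA).2
  funext i
  change aT (Matrix.diagonal k * A * (Matrix.diagonal k)⁻¹) (s i) = 0
  have hki : IsK D (Matrix.diagonal k)⁻¹ := by
    refine ⟨hinv, ?_⟩
    have h1 : (Matrix.diagonal k)⁻¹ = (Matrix.diagonal k).conjTranspose :=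
      Matrix.inv_eq_left_inv hk.2
    rw [h1, Matrix.conjTranspose_conjTranspose, ← h1]
    exact hkk
  -- `v = k⁻¹ s` and `J₀ v = s`
  obtain ⟨v, hv⟩ : ∃ v, v = gT (Matrix.diagonal k)⁻¹ (s i) := ⟨_, rfl⟩
  have hkv : gT (Matrix.diagonal k) v = s i := by
    rw [hv, ← h.gT_mul, hkk, h.gT_one]
  have hJv : jT D v = s i := by
    have h1 : gT (Matrix.diagonal k) (s i) = jT D (s i) := congrFun hks i
    have h2 : jT D v = gT (Matrix.diagonal k)⁻¹ (jT D (s i)) := by
      rw [hv]
      exact h.jT_gT D _ _ hki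
    rw [h2, ← h1, ← h.gT_mul, hkk', h.gT_one]
  have hAv : aT A v = 0 := by
    refine jT_eq_zero (D := D) h ?_
    rw [h.jT_aT D A v hA.1, hJv]
    have h3 : aT (-A.conjTranspose) (s i) = (-1 : ℂ) • aT A.conjTranspose (s i) := by
      rw [← h.smul_aT, neg_one_smul]
    have h4 : aT A.conjTranspose (s i) = 0 := congrFun hadj i
    rw [h3, h4, smul_zero]
  have h5 := h.gT_aT (Matrix.diagonal k) A v hkk
  rw [hkv, hAv] at h5
  rw [← h5]
  have h6 := h.gT_smul (Matrix.diagonal k) (0 : ℂ) (0 : Ten I (len i))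
  rw [zero_smul, zero_smul] at h6
  exact h6

end Pool.Agent.Lib.MP_361a6f_ag.FL.E
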