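import Pool.Agent.Lib.MP_361a6f_ag.FL.E.DefsP
import Pool.Agent.Lib.MP_361a6f_ag.FL.E.E2

/-!
# Theorem E+, row P2
-/

set_option autoImplicit false

namespace Pool.Agent.Lib.MP_361a6f_ag.FL.E

/-- **Row P2.** -/
theorem p2 : P2Statement := by
  intro I Λ ι _ _ _ _ len D s hs A hA
  exact Two.stab_adj alg1 hs hA

end Pool.Agent.Lib.MP_361a6f_ag.FL.E
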