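import Pool.Agent.Lib.MP_361a6f_ag.FL.E.DefsP
import Pool.Agent.Lib.MP_361a6f_ag.FL.E.E3

/-!
# Row P3: the stabiliser contains a real diagonal matrix that separates the eigenvalues
-/

namespace Pool.Agent.Lib.MP_361a6f_ag.FL.E

open E3

namespace P3

/-- finitely many elements of `G`, any two different ones with a difference of infinite order, are
separated by a homomorphism to `ℚ` -/
theorem exists_hom {G I : Type} [AddCommGroup G] [Finite I] (l : I → G)
    (h : ∀ i j, l i ≠ l j → ∀ n : ℕ, 0 < n → n • l i ≠ n • l j) :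
    ∃ φ : G →+ ℚ, ∀ i j, l i ≠ l j → φ (l i) ≠ φ (l j) := by
  have hfin : Finite (Set.range l) := Set.finite_range l
  obtain ⟨φ, hφ⟩ := E3.exists_hom (fun x : Set.range l => (x : G)) (by
    rintro ⟨_, i, rfl⟩ ⟨_, j, rfl⟩ hij n hn
    exact h i j (fun h' => hij (Subtype.ext h')) n hn)
  refine ⟨φ, fun i j hij => ?_⟩
  exact hφ ⟨l i, i, rfl⟩ ⟨l j, j, rfl⟩ (fun h' => hij (congrArg Subtype.val h'))

end P3

/-- Row P3. -/
theorem p3 : P3Statement := by
  intro I Λ ι _ _ _ _ len D s l _ _ htau hratio hfix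
  have hne : ∀ i, l i ≠ 0 := fun i h0 => by
    have := htau i
    rw [h0, mul_zero] at this
    exact zero_ne_one this
  let u : I → ℂˣ := fun i => Units.mk0 (l i) (hne i)
  have hu : ∀ i, ((u i : ℂˣ) : ℂ) = l i := fun i => rfl
  obtain ⟨φ, hφ⟩ := P3.exists_hom (G := Additive ℂˣ) (fun i => Additive.ofMul (u i)) (by
    intro i j hij n hn he
    have h0 : l i ≠ l j := fun h' => hij (congrArg Additive.ofMul (Units.ext h'))
    have h1 : u i ^ n = u j ^ n := by
      have h2 : Additive.ofMul (u i ^ n) = Additive.ofMul (u j ^ n) := he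
      exact Additive.ofMul.injective h2
    have h3 := congrArg (fun x : ℂˣ => (x : ℂ)) h1
    simp only [Units.val_pow_eq_pow_val, hu] at h3
    exact hratio i j h0 n hn h3)
  let a : I → ℂ := fun i => ((φ (Additive.ofMul (u i)) : ℚ) : ℂ)
  refine ⟨a, fun i j => ⟨fun hij => ?_, fun hij => ?_⟩, fun i => ?_, ?_, ?_⟩
  · by_contra hne'
    have h1 : ((φ (Additive.ofMul (u i)) : ℚ) : ℂ) = ((φ (Additive.ofMul (u j)) : ℚ) : ℂ) := hij
    refine hφ i j (fun h' => hne' ?_) (Rat.cast_injective h1)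
    have h2 : u i = u j := Additive.ofMul.injective h'
    exact congrArg (fun x : ℂˣ => (x : ℂ)) h2
  · have h2 : u i = u j := Units.ext hij
    show ((φ (Additive.ofMul (u i)) : ℚ) : ℂ) = ((φ (Additive.ofMul (u j)) : ℚ) : ℂ)
    rw [h2]
  · exact map_ratCast (starRingEnd ℂ) _
  · refine isLie_diag D a fun i => ?_
    have h1 : u (D.τ i) * u i = 1 := Units.ext (by
      rw [Units.val_mul, hu, hu, Units.val_one]
      exact htau i)
    have h2 : φ (Additive.ofMul (u (D.τ i)) + Additive.ofMul (u i)) = 0 := by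
      rw [← ofMul_mul, h1, ofMul_one, map_zero]
    rw [map_add] at h2
    have h3 : ((φ (Additive.ofMul (u (D.τ i))) + φ (Additive.ofMul (u i)) : ℚ) : ℂ) = 0 := by
      rw [h2, Rat.cast_zero]
    rw [Rat.cast_add] at h3
    exact h3
  · funext i w
    show aT (Matrix.diagonal a) (s i) w = 0
    rw [aT_diag]
    by_cases h0 : s i w = 0
    · rw [h0, mul_zero]
    have h1 : gT (Matrix.diagonal l) (s i) w = s i w := congrFun (congrFun hfix i) w
    rw [gT_diag] at h1
    have h2 : ∏ j, l (w j) = 1 := by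
      have h3 : (∏ j, l (w j)) * s i w = 1 * s i w := by rw [h1, one_mul]
      exact mul_right_cancel₀ h0 h3
    have h4 : ∏ j, u (w j) = 1 := Units.ext (by
      rw [Units.coe_prod, Units.val_one]
      exact h2)
    have h5 : φ (∑ j, Additive.ofMul (u (w j))) = 0 := by
      rw [← ofMul_prod, h4, ofMul_one, map_zero]
    rw [map_sum] at h5
    have h6 : ((∑ j, φ (Additive.ofMul (u (w j))) : ℚ) : ℂ) = 0 := by rw [h5, Rat.cast_zero]
    rw [Rat.cast_sum] at h6
    have h7 : ∑ j, a (w j) = 0 := h6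
    rw [h7, zero_mul]

end Pool.Agent.Lib.MP_361a6f_ag.FL.E
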