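import Pool.Agent.Lib.MP_361a6f_ag.FL.E.G1
import Pool.Agent.Lib.MP_361a6f_ag.FL.E.P2
import Pool.Agent.Lib.MP_361a6f_ag.FL.E.P3
import Pool.Agent.Lib.MP_361a6f_ag.FL.E.G4
import Pool.Agent.Lib.MP_361a6f_ag.FL.E.G4b
import Pool.Agent.Lib.MP_361a6f_ag.FL.E.H5
import Pool.Agent.Lib.MP_361a6f_ag.FL.E.H6

/-!
# Theorem E3 in coordinates

`ψ` is positive definite on the real span of every system of the kind `HSys`.
-/

namespace Pool.Agent.Lib.MP_361a6f_ag.FL.E

/-- THEOREM E3 in coordinates. -/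
theorem mainH : ThmHStatement := h6 g1 p2 e2 p3 g4 g4b H5.h5

/-- The irreducible case. -/
theorem mainP_of_H : ThmPStatement := hToP mainH

end Pool.Agent.Lib.MP_361a6f_ag.FL.E
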