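import Pool.Agent.Lib.MP_361a6f_ag.FL.E.DefsG

/-!
# Theorem E3 in coordinates (34, finding 5317): at most three pieces

`HSys` is `PSys` with the irreducibility replaced by: (h1) no nonzero isotropic stable subspace,
(h2) the space is not a direct sum of four nonzero stable subspaces. Here `U` is stable if it is
stable under the endomorphisms `opM D z`, `z` in `At 2`, and has finitely many images under `Γ`.
-/

open Filter Topology MeasureTheory

namespace Pool.Agent.Lib.MP_361a6f_ag.FL.E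

/-- stable under the endomorphisms, finitely many images under `Γ` -/
def StabU {I Λ : Type} [Fintype I] [DecidableEq I] (D : Dat I Λ)
    (At : (L : ℕ) → Ten I L → Prop) (Γ : Set (Matrix I I ℂ)) (U : Submodule ℂ (I → ℂ)) : Prop :=
  (∀ z, At 2 z → ∀ v ∈ U, (opM D z).mulVec v ∈ U) ∧
    {U' : Submodule ℂ (I → ℂ) | ∃ x ∈ Γ, U' = U.map (Matrix.toLin' x)}.Finite

/-- the data of Theorem E3 -/
structure HSys {I Λ : Type} [Fintype I] [DecidableEq I] [DecidableEq Λ] (D : Dat I Λ)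
    (At Bt : (L : ℕ) → Ten I L → Prop) (l : I → ℂ) (Γ : Set (Matrix I I ℂ)) {β : Type} [Fintype β]
    (lb : β → ℕ) (b : Tup I lb) : Prop extends CSys D At Bt l Γ lb b where
  h1 : ∀ U : Submodule ℂ (I → ℂ), StabU D At Γ U →
    (∀ v ∈ U, ∀ w ∈ U, dotProduct v ((Psi D).mulVec w) = 0) → U = ⊥
  h2 : ∀ U : Fin 4 → Submodule ℂ (I → ℂ), (∀ i, StabU D At Γ (U i)) → (∀ i, U i ≠ ⊥) →
    iSupIndep U → (⨆ i, U i) = ⊤ → False

/-- THEOREM E3 in coordinates: `ψ` is positive definite on the real span of the system. -/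
def ThmHStatement : Prop :=
  ∀ {I Λ : Type} [Fintype I] [DecidableEq I] [DecidableEq Λ] (D : Dat I Λ)
    (At Bt : (L : ℕ) → Ten I L → Prop) (l : I → ℂ) (Γ : Set (Matrix I I ℂ))
    {β : Type} [Fintype β] (lb : β → ℕ) (b : Tup I lb),
    HSys D At Bt l Γ lb b → ∀ (L : ℕ) (u : Ten I L), u ∈ Submodule.span ℝ {u | At L u} → u ≠ 0 →
      ∃ r : ℝ, 0 < r ∧ psiT D u u = (r : ℂ)

/-- Row H5 (34, 43): `S` a Lie algebra of matrices closed under `*` that preserves the invertible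
form `P`, `E` commutes with `S` and `diag k`, no nonzero isotropic `(S, E)`-stable subspace, not a
direct sum of four nonzero `(S, E)`-stable subspaces. Then `diag k` fixes the tensors of even length
killed by `S`. -/
def H5Statement : Prop :=
  ∀ {I : Type} [Fintype I] [DecidableEq I] (S : Submodule ℂ (Matrix I I ℂ))
    (E : Set (Matrix I I ℂ)) (P : Matrix I I ℂ),
    (∀ x ∈ S, ∀ y ∈ S, x * y - y * x ∈ S) → (∀ x ∈ S, x.conjTranspose ∈ S) →
    (∀ e ∈ E, ∀ A ∈ S, e * A = A * e) → (∀ A ∈ S, A.transpose * P + P * A = 0) → IsUnit P →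
    ∀ a : I → ℂ, (∀ i, (starRingEnd ℂ) (a i) = a i) → Matrix.diagonal a ∈ S →
    ∀ k : I → ℂ, (∀ i, ‖k i‖ = 1) → (∀ i j, a i = a j → k i = k j) →
    (∀ e ∈ E, e * Matrix.diagonal k = Matrix.diagonal k * e) →
    (Matrix.diagonal k).transpose * P * Matrix.diagonal k = P →
    (∀ A ∈ S, Matrix.diagonal k * A * Matrix.diagonal (fun i => (k i)⁻¹) ∈ S) →
    (∀ U : Submodule ℂ (I → ℂ), (∀ A ∈ S, ∀ v ∈ U, A.mulVec v ∈ U) →
      (∀ e ∈ E, ∀ v ∈ U, e.mulVec v ∈ U) →
      (∀ v ∈ U, ∀ w ∈ U, dotProduct v (P.mulVec w) = 0) → U = ⊥) →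
    (∀ U : Fin 4 → Submodule ℂ (I → ℂ), (∀ i, (∀ A ∈ S, ∀ v ∈ U i, A.mulVec v ∈ U i) ∧
      (∀ e ∈ E, ∀ v ∈ U i, e.mulVec v ∈ U i)) → (∀ i, U i ≠ ⊥) → iSupIndep U →
      (⨆ i, U i) = ⊤ → False) →
    ∀ (L : ℕ) (u : Ten I L), Even L → (∀ A ∈ S, aT A u = 0) → gT (Matrix.diagonal k) u = u

/-- Row H6: the assembly. -/
def H6Statement : Prop :=
  G1Statement → P2Statement → E2Statement → P3Statement → G4Statement → G4bStatement →
    H5Statement → ThmHStatement

/-- Row HP: the irreducible case is contained in Theorem E3. -/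
def HtoPStatement : Prop := ThmHStatement → ThmPStatement

end Pool.Agent.Lib.MP_361a6f_ag.FL.E
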