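import Pool.Agent.Lib.MP_361a6f_ag.FL.E.NSys
import Pool.Agent.Lib.MP_361a6f_ag.FL.E.DefsH

/-!
# Theorem E3 and the general form for the data as they come from geometry

`ofH` and `ofG` transport `ThmHStatement` and `ThmGStatement` to the data `NSys` in an arbitrary
adapted basis.
-/

open Filter Topology MeasureTheory

set_option autoImplicit false
set_option linter.unusedSectionVars false

namespace Pool.Agent.Lib.MP_361a6f_ag.FL.E

variable {I Λ : Type} [Fintype I] [DecidableEq I] [DecidableEq Λ]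

/-- the core of the data is `CSys` -/
theorem NCore.toCSys {D : Dat I Λ} {At Bt : (L : ℕ) → Ten I L → Prop} {l : I → ℂ}
    {Γ : Set (Matrix I I ℂ)} {β : Type} [Fintype β] {lb : β → ℕ} {b : Tup I lb}
    (S : NCore D At Bt l Γ lb b) : CSys D At Bt l Γ lb b :=
  { sys := S.sys, typ_eq := S.typ_eq, odd := S.odd, norm := S.norm, tau := S.tau,
    ratio := S.ratio, fix := S.fix, rsys := S.rsys, sub := S.sub, bmem := S.bmem,
    base := S.base, comm := S.comm, grp := S.grp, gfix := S.gfix, nd := S.nd }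

namespace QS

variable {D : Dat I Λ} {Y : Matrix I I ℂ}

/-- the form `ψ` on vectors is preserved -/
theorem iso_G (hG : IsG D Y) (v w : I → ℂ) :
    dotProduct (Y.mulVec v) ((Psi D).mulVec (Y.mulVec w)) = dotProduct v ((Psi D).mulVec w) := by
  rw [Matrix.mulVec_mulVec, ← Matrix.vecMul_transpose, ← Matrix.dotProduct_mulVec,
    Matrix.mulVec_mulVec, ← Matrix.mul_assoc, hG.2]

theorem toLin_inj (a1 : Alg1) (hG : IsG D Y) : Function.Injective (Matrix.toLin' Y) := by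
  intro v w h
  have h1 := congrArg (Matrix.toLin' Y⁻¹) h
  rwa [← LinearMap.comp_apply, ← LinearMap.comp_apply, ← Matrix.toLin'_mul,
    (a1.G_inv D Y hG).2.2, Matrix.toLin'_one, LinearMap.id_apply, LinearMap.id_apply] at h1

theorem map_top (a1 : Alg1) (hG : IsG D Y) :
    (⊤ : Submodule ℂ (I → ℂ)).map (Matrix.toLin' Y) = ⊤ := by
  rw [Submodule.map_top, LinearMap.range_eq_top]
  intro v
  refine ⟨Y⁻¹.mulVec v, ?_⟩
  rw [Matrix.toLin'_apply, Matrix.mulVec_mulVec, (a1.G_inv D Y hG).2.1, Matrix.one_mulVec]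

/-- the algebra of the endomorphisms after transport -/
theorem endS_tr (hodd : ∀ i, D.odd (D.typ i)) (a1 : Alg1) (hG : IsG D Y)
    (At : (L : ℕ) → Ten I L → Prop) {e : Matrix I I ℂ}
    (he : e ∈ endS D (fun L u => At L (gT Y u))) : Y * e * Y⁻¹ ∈ endS D At := by
  induction he using Submodule.span_induction with
  | mem x hx =>
    obtain ⟨z, hz, rfl⟩ := hx
    rw [← opM_gT hodd a1 hG]
    exact Submodule.subset_span ⟨_, hz, rfl⟩
  | zero => rw [Matrix.mul_zero, Matrix.zero_mul]; exact Submodule.zero_mem _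
  | add x y _ _ hx hy =>
    rw [Matrix.mul_add, Matrix.add_mul]
    exact Submodule.add_mem _ hx hy
  | smul c x _ hx =>
    rw [Matrix.mul_smul, Matrix.smul_mul]
    exact Submodule.smul_mem _ c hx

/-- conversely -/
theorem endS_back (hodd : ∀ i, D.odd (D.typ i)) (a1 : Alg1) (hG : IsG D Y)
    (At : (L : ℕ) → Ten I L → Prop) {e : Matrix I I ℂ}
    (he : e ∈ endS D At) : Y⁻¹ * e * Y ∈ endS D (fun L u => At L (gT Y u)) := by
  obtain ⟨hY1, hY2, hY3⟩ := a1.G_inv D Y hG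
  induction he using Submodule.span_induction with
  | mem x hx =>
    obtain ⟨z, hz, rfl⟩ := hx
    refine Submodule.subset_span ⟨gT Y⁻¹ z, ?_, ?_⟩
    · show At 2 (gT Y (gT Y⁻¹ z))
      rw [psi_outer_gT a1 hG]
      exact hz
    · have h := opM_gT hodd a1 hG (gT Y⁻¹ z)
      rw [psi_outer_gT a1 hG] at h
      rw [h]
      have : Y⁻¹ * (Y * opM D (gT Y⁻¹ z) * Y⁻¹) * Y
          = (Y⁻¹ * Y) * opM D (gT Y⁻¹ z) * (Y⁻¹ * Y) := by
        simp only [Matrix.mul_assoc]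
      rw [this, hY3, Matrix.one_mul, Matrix.mul_one]
  | zero => rw [Matrix.mul_zero, Matrix.zero_mul]; exact Submodule.zero_mem _
  | add x y _ _ hx hy =>
    rw [Matrix.mul_add, Matrix.add_mul]
    exact Submodule.add_mem _ hx hy
  | smul c x _ hx =>
    rw [Matrix.mul_smul, Matrix.smul_mul]
    exact Submodule.smul_mem _ c hx

/-- a matrix commuting with the endomorphisms, after transport -/
theorem comm_tr (hodd : ∀ i, D.odd (D.typ i)) (a1 : Alg1) (hG : IsG D Y)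
    {At : (L : ℕ) → Ten I L → Prop} {e : Matrix I I ℂ}
    (he : ∀ z, At 2 (gT Y z) → e * opM D z = opM D z * e) (z : Ten I 2) (hz : At 2 z) :
    (Y * e * Y⁻¹) * opM D z = opM D z * (Y * e * Y⁻¹) := by
  obtain ⟨hY1, hY2, hY3⟩ := a1.G_inv D Y hG
  have h := opM_gT hodd a1 hG (gT Y⁻¹ z)
  rw [psi_outer_gT a1 hG] at h
  have h1 := he (gT Y⁻¹ z) (by rw [psi_outer_gT a1 hG]; exact hz)
  rw [h]
  have h2 : Y * e * Y⁻¹ * (Y * opM D (gT Y⁻¹ z) * Y⁻¹)
      = Y * (e * (Y⁻¹ * Y) * opM D (gT Y⁻¹ z)) * Y⁻¹ := by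
    simp only [Matrix.mul_assoc]
  have h3 : Y * opM D (gT Y⁻¹ z) * Y⁻¹ * (Y * e * Y⁻¹)
      = Y * (opM D (gT Y⁻¹ z) * (Y⁻¹ * Y) * e) * Y⁻¹ := by
    simp only [Matrix.mul_assoc]
  rw [h2, h3, hY3, Matrix.mul_one, Matrix.mul_one, h1]

theorem comm_back (hodd : ∀ i, D.odd (D.typ i)) (a1 : Alg1) (hG : IsG D Y)
    {At : (L : ℕ) → Ten I L → Prop} {e : Matrix I I ℂ}
    (he : ∀ z, At 2 z → e * opM D z = opM D z * e) (z : Ten I 2) (hz : At 2 (gT Y z)) :
    (Y⁻¹ * e * Y) * opM D z = opM D z * (Y⁻¹ * e * Y) := by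
  obtain ⟨hY1, hY2, hY3⟩ := a1.G_inv D Y hG
  have h1 := he _ hz
  rw [opM_gT hodd a1 hG] at h1
  have h2 : Y⁻¹ * e * Y * opM D z = Y⁻¹ * (e * (Y * opM D z * Y⁻¹)) * Y := by
    have : Y⁻¹ * (e * (Y * opM D z * Y⁻¹)) * Y = Y⁻¹ * e * Y * opM D z * (Y⁻¹ * Y) := by
      simp only [Matrix.mul_assoc]
    rw [this, hY3, Matrix.mul_one]
  have h3 : opM D z * (Y⁻¹ * e * Y) = Y⁻¹ * (Y * opM D z * Y⁻¹ * e) * Y := by
    have : Y⁻¹ * (Y * opM D z * Y⁻¹ * e) * Y = (Y⁻¹ * Y) * opM D z * (Y⁻¹ * e * Y) := by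
      simp only [Matrix.mul_assoc]
    rw [this, hY3, Matrix.one_mul]
  rw [h2, h3, h1]

end QS

open QS

/-- **Theorem E3 (at most three pieces) for the data from geometry.** -/
theorem ofH (hY : YStatement) (a1 : Alg1) (a2 : Alg2) (hH : ThmHStatement) {D : Dat I Λ}
    {At Ct : (L : ℕ) → Ten I L → Prop} {F : Matrix I I ℂ} {Γ : Set (Matrix I I ℂ)}
    (S : NSys D At Ct F Γ)
    (h1 : ∀ U : Submodule ℂ (I → ℂ), StabU D At Γ U →
      (∀ v ∈ U, ∀ w ∈ U, dotProduct v ((Psi D).mulVec w) = 0) → U = ⊥)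
    (h2 : ∀ U : Fin 4 → Submodule ℂ (I → ℂ), (∀ i, StabU D At Γ (U i)) → (∀ i, U i ≠ ⊥) →
      iSupIndep U → (⨆ i, U i) = ⊤ → False)
    (L : ℕ) (u : Ten I L) (hu : u ∈ Submodule.span ℝ {u | At L u}) (hu0 : u ≠ 0) :
    ∃ r : ℝ, 0 < r ∧ psiT D u u = (r : ℂ) := by
  obtain ⟨Y, l, β, _, lb, b, hG, C⟩ := exists_core hY a1 a2 S
  obtain ⟨hY1, hY2, hY3⟩ := a1.G_inv D Y hG
  have hinj := toLin_inj a1 hG
  have hHS : HSys D (fun L u => At L (gT Y u)) (fun L u => Rsp.Bt Ct L (gT Y u)) l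
      {x' | ∃ x ∈ Γ, x' = Y⁻¹ * x * Y} lb b :=
    { toCSys := C.toCSys
      h1 := by
        intro U hU hiso
        have h3 := h1 _ (orb S.odd a1 hG hU.1 hU.2) (by
          rintro _ ⟨v, hv, rfl⟩ _ ⟨w, hw, rfl⟩
          rw [Matrix.toLin'_apply, Matrix.toLin'_apply, iso_G hG]
          exact hiso v hv w hw)
        rw [← map_back a1 hG U, h3, Submodule.map_bot]
      h2 := by
        intro U hU hne hind hsup
        refine h2 (fun i => (U i).map (Matrix.toLin' Y))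
          (fun i => orb S.odd a1 hG (hU i).1 (hU i).2) ?_ ?_ ?_
        · intro i h3
          exact hne i (by rw [← map_back a1 hG (U i), h3, Submodule.map_bot])
        · exact LinearMap.iSupIndep_map _ hinj hind
        · rw [← Submodule.map_iSup, hsup, map_top a1 hG] }
  rw [← spanR a1 hG At L] at hu
  obtain ⟨u', hu', rfl⟩ := hu
  have h4 := hH D _ _ _ _ _ _ hHS L u' hu' (fun h => hu0 (by rw [h, map_zero]))
  obtain ⟨r, hr, h5⟩ := h4
  refine ⟨r, hr, ?_⟩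
  rw [← h5]
  exact a1.psiT_gT D Y u' u' hG

/-- **The general form for the data from geometry.** -/
theorem ofG (hY : YStatement) (a1 : Alg1) (a2 : Alg2) (hT : ThmGStatement) {D : Dat I Λ}
    {At Ct : (L : ℕ) → Ten I L → Prop} {F : Matrix I I ℂ} {Γ : Set (Matrix I I ℂ)}
    (S : NSys D At Ct F Γ)
    (orbit : ∀ U : Submodule ℂ (I → ℂ), (∀ z, At 2 z → ∀ v ∈ U, (opM D z).mulVec v ∈ U) →
      {U' : Submodule ℂ (I → ℂ) | ∃ x ∈ Γ, U' = U.map (Matrix.toLin' x)}.Finite →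
      ∃ e ∈ endS D At, e * e = e ∧ (∀ z, At 2 z → e * opM D z = opM D z * e) ∧
        U = LinearMap.range (Matrix.toLin' e)) :
    ∃ C ∈ endS D At, IsG D C ∧ (∀ z, At 2 z → C * opM D z = opM D z * C) ∧
      (∀ L u, At L u → gT C (gT C u) = u) ∧
      ∀ (L : ℕ) (u : Ten I L), u ∈ Submodule.span ℝ {u | At L u} → u ≠ 0 →
        ∃ r : ℝ, 0 < r ∧ psiT D u (gT C u) = (r : ℂ) := by
  obtain ⟨Y, l, β, _, lb, b, hG, K⟩ := exists_core hY a1 a2 S
  obtain ⟨hY1, hY2, hY3⟩ := a1.G_inv D Y hG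
  have hGS : GSys D (fun L u => At L (gT Y u)) (fun L u => Rsp.Bt Ct L (gT Y u)) l
      {x' | ∃ x ∈ Γ, x' = Y⁻¹ * x * Y} lb b :=
    { toCSys := K.toCSys
      orbit := by
        intro U hUst hU
        obtain ⟨h3, h4⟩ := orb S.odd a1 hG hUst hU
        obtain ⟨e, he, hee, hec, heU⟩ := orbit _ h3 h4
        refine ⟨Y⁻¹ * e * Y, endS_back S.odd a1 hG At he, ?_, comm_back S.odd a1 hG hec, ?_⟩
        · have : Y⁻¹ * e * Y * (Y⁻¹ * e * Y) = Y⁻¹ * (e * (Y * Y⁻¹) * e) * Y := by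
            simp only [Matrix.mul_assoc]
          rw [this, hY2, Matrix.mul_one, hee]
        · rw [← map_back a1 hG U, heU, Matrix.toLin'_mul, Matrix.toLin'_mul,
            LinearMap.range_comp_of_range_eq_top, LinearMap.range_comp]
          rw [← Submodule.map_top]
          exact map_top a1 hG }
  obtain ⟨C, hC, hCG, hCc, hC2, hpos⟩ := hT D _ _ _ _ _ _ hGS
  refine ⟨Y * C * Y⁻¹, endS_tr S.odd a1 hG At hC,
    a1.G_mul D _ _ (a1.G_mul D _ _ hG hCG) hY1, comm_tr S.odd a1 hG hCc, ?_, ?_⟩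
  · intro L u hu
    have h3 : At L (gT Y (gT Y⁻¹ u)) := by
      rw [psi_outer_gT a1 hG]
      exact hu
    have h4 := hC2 L _ h3
    have h5 : ∀ v : Ten I L, gT (Y * C * Y⁻¹) v = gT Y (gT C (gT Y⁻¹ v)) := by
      intro v
      rw [a1.gT_mul, a1.gT_mul]
    rw [h5, h5, gT_inv_gT a1 hG, h4, psi_outer_gT a1 hG]
  · intro L u hu hu0
    rw [← spanR a1 hG At L] at hu
    obtain ⟨u', hu', rfl⟩ := hu
    obtain ⟨r, hr, h5⟩ := hpos L u' hu' (fun h => hu0 (by rw [h, map_zero]))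
    refine ⟨r, hr, ?_⟩
    have h6 : gT (Y * C * Y⁻¹) (gT Y u') = gT Y (gT C u') := by
      rw [a1.gT_mul, a1.gT_mul, gT_inv_gT a1 hG]
    show psiT D (gT Y u') (gT (Y * C * Y⁻¹) (gT Y u')) = _
    rw [h6, a1.psiT_gT D Y _ _ hG, h5]

end Pool.Agent.Lib.MP_361a6f_ag.FL.E
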