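import Pool.Agent.Lib.MP_361a6f_ag.FL.E.NdP
import Pool.Agent.Lib.MP_361a6f_ag.FL.E.DefsH

/-!
# Nondegeneracy, in the form of the field `nd` of `HSys`
-/

open Matrix

set_option linter.unusedSectionVars false

namespace Pool.Agent.Lib.MP_361a6f_ag.FL.E.Nd

open OL (CA)

variable {I Λ : Type} [Fintype I] [DecidableEq I] [DecidableEq Λ] {D : Dat I Λ}
  {At : (L : ℕ) → Ten I L → Prop}

/-- the orthogonal of a subspace -/
def perp (D : Dat I Λ) (U : Submodule ℂ (I → ℂ)) : Submodule ℂ (I → ℂ) where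
  carrier := {u | ∀ v ∈ U, v ⬝ᵥ (Psi D *ᵥ u) = 0}
  add_mem' := by
    intro a b ha hb v hv
    rw [Matrix.mulVec_add, dotProduct_add, ha v hv, hb v hv, add_zero]
  zero_mem' := by
    intro v _
    rw [Matrix.mulVec_zero, dotProduct_zero]
  smul_mem' := by
    intro c a ha v hv
    rw [Matrix.mulVec_smul, dotProduct_smul, ha v hv, smul_zero]

theorem mem_perp {U : Submodule ℂ (I → ℂ)} {u : I → ℂ} :
    u ∈ perp D U ↔ ∀ v ∈ U, v ⬝ᵥ (Psi D *ᵥ u) = 0 := Iff.rfl

theorem eq_top_of_perp (ho : ∀ i, D.odd (D.typ i)) {U : Submodule ℂ (I → ℂ)}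
    (h : perp D U = ⊥) : U = ⊤ := by
  by_contra hne
  obtain ⟨f, hf, hle⟩ := Submodule.exists_le_ker_of_lt_top U (lt_top_iff_ne_top.2 hne)
  let ξ : I → ℂ := fun i => f (Pi.single i 1)
  have hfξ : ∀ v, f v = v ⬝ᵥ ξ := by
    intro v
    conv_lhs => rw [← Finset.univ_sum_single v]
    rw [map_sum, dotProduct]
    refine Finset.sum_congr rfl fun i _ => ?_
    have : (Pi.single i (v i) : I → ℂ) = v i • (Pi.single i 1 : I → ℂ) := by
      rw [← Pi.single_smul, smul_eq_mul, mul_one]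
    rw [this, map_smul, smul_eq_mul]
  have h1 : -(Psi D *ᵥ ξ) ∈ perp D U := by
    rw [mem_perp]
    intro v hv
    rw [Matrix.mulVec_neg, Matrix.mulVec_mulVec, Psi_mul_Psi ho, Matrix.neg_mulVec,
      Matrix.one_mulVec, neg_neg, ← hfξ]
    exact LinearMap.mem_ker.1 (hle hv)
  rw [h, Submodule.mem_bot, neg_eq_zero] at h1
  have h2 : ξ = 0 := by
    have h3 : Psi D *ᵥ (Psi D *ᵥ ξ) = 0 := by rw [h1, Matrix.mulVec_zero]
    rw [Matrix.mulVec_mulVec, Psi_mul_Psi ho, Matrix.neg_mulVec, Matrix.one_mulVec,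
      neg_eq_zero] at h3
    exact h3
  apply hf
  ext v
  simp [hfξ, h2]

/-- a subspace stable under an element of the group is mapped onto itself -/
theorem map_eq_of_stable {x : Matrix I I ℂ} (hx : IsG D x) {U : Submodule ℂ (I → ℂ)}
    (h : ∀ v ∈ U, x *ᵥ v ∈ U) : U.map (Matrix.toLin' x) = U := by
  have hle : U.map (Matrix.toLin' x) ≤ U := by
    rintro _ ⟨v, hv, rfl⟩
    exact h v hv
  have hinj : Function.Injective (Matrix.toLin' x) := by
    intro a b hab
    have h1 : x *ᵥ a = x *ᵥ b := hab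
    have h2 := congrArg (fun z => dag D x *ᵥ z) h1
    simp only [Matrix.mulVec_mulVec, dag_mul_self hx, Matrix.one_mulVec] at h2
    exact h2
  exact Submodule.eq_of_le_of_finrank_eq hle
    (LinearEquiv.finrank_eq (Submodule.equivMapOfInjective _ hinj U)).symm

theorem dag_stable {x : Matrix I I ℂ} (hx : IsG D x) {U : Submodule ℂ (I → ℂ)}
    (h : ∀ v ∈ U, x *ᵥ v ∈ U) (v : I → ℂ) (hv : v ∈ U) : dag D x *ᵥ v ∈ U := by
  have h1 : v ∈ U.map (Matrix.toLin' x) := by rw [map_eq_of_stable hx h]; exact hv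
  obtain ⟨w, hw, rfl⟩ := h1
  rw [Matrix.toLin'_apply, Matrix.mulVec_mulVec, dag_mul_self hx, Matrix.one_mulVec]
  exact hw

theorem perp_stable (ho : ∀ i, D.odd (D.typ i)) {g : Matrix I I ℂ} {U : Submodule ℂ (I → ℂ)}
    (h : ∀ v ∈ U, dag D g *ᵥ v ∈ U) (u : I → ℂ) (hu : u ∈ perp D U) : g *ᵥ u ∈ perp D U := by
  rw [mem_perp] at hu ⊢
  intro v hv
  have h1 := hu _ (h v hv)
  rw [Matrix.mulVec_mulVec, Psi_mul_eq ho, ← Matrix.mulVec_mulVec, Matrix.dotProduct_mulVec,
    ← Matrix.mulVec_transpose, Matrix.transpose_transpose]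
  exact h1

theorem opM_op (M : Matrix I I ℂ) : opM D (op D M) = M := by
  ext i j
  change (M * Psi D) i (D.τ j) * D.s j = M i j
  rw [mul_Psi, D.τ_τ, mul_assoc, AL2.s_mul_s, mul_one]

/-- stability under the operators of the members gives stability under those of the span -/
theorem stable_span {U : Submodule ℂ (I → ℂ)}
    (h : ∀ z, At 2 z → ∀ v ∈ U, (opM D z).mulVec v ∈ U) (z : Ten I 2) (hz : z ∈ CA At 2)
    (v : I → ℂ) (hv : v ∈ U) : (opM D z).mulVec v ∈ U := by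
  unfold CA at hz
  induction hz using Submodule.span_induction with
  | mem z hz => exact h z hz v hv
  | zero =>
    have : opM D (0 : Ten I 2) = 0 := by ext i j; simp [opM]
    rw [this, Matrix.zero_mulVec]; exact zero_mem _
  | add a b _ _ ha hb =>
    have : opM D (a + b) = opM D a + opM D b := by ext i j; simp [opM, add_mul]
    rw [this, Matrix.add_mulVec]; exact add_mem ha hb
  | smul c a _ ha =>
    have : opM D (c • a) = c • opM D a := by ext i j; simp [opM, mul_assoc]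
    rw [this, Matrix.smul_mulVec]; exact Submodule.smul_mem _ _ ha

/-- the field `nd` follows from `h1` -/
theorem nd_of_h1 (S : ASys D At) (ho : ∀ i, D.odd (D.typ i))
    (he : ∀ i j, D.typ i = D.typ j) (Γ : Set (Matrix I I ℂ)) (grp : ∀ x ∈ Γ, IsG D x)
    (gfix : ∀ x ∈ Γ, ∀ L u, At L u → gT x u = u)
    (h1 : ∀ U : Submodule ℂ (I → ℂ), StabU D At Γ U →
      (∀ v ∈ U, ∀ w ∈ U, dotProduct v ((Psi D).mulVec w) = 0) → U = ⊥) :
    ∀ L, ∀ u ∈ Submodule.span ℂ {u | At L u}, u ≠ 0 →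
      ∃ v ∈ Submodule.span ℂ {u | At L u}, psiT D u v ≠ 0 := by
  intro L u hu h0
  refine nd S ho he (Γ ∪ {M | IsUnit M.det ∧ op D M ∈ CA At 2}) ?_ ?_ L u hu h0
  · rintro g (hg | ⟨hg1, hg2⟩)
    · exact pres_of_fix (grp g hg) (gfix g hg)
    · exact pres_of_mem S ho he hg1 hg2
  intro U hst hco
  have hop : ∀ M : Matrix I I ℂ, op D M ∈ CA At 2 → ∀ v ∈ U, M *ᵥ v ∈ U :=
    fun M hM v hv => stable_of_units S he
      (fun M h1 h2 v hv => hst M (Or.inr ⟨h1, h2⟩) v hv) M hM v hv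
  have hle : ∀ u ∈ perp D U, u ∈ U := fun u hu => hco u hu
  refine eq_top_of_perp ho (h1 (perp D U) ⟨?_, ?_⟩ ?_)
  · intro z hz u hu
    refine perp_stable ho (fun v hv => ?_) u hu
    exact hop _ (op_dag_mem S ho (by rw [op_opM]; exact sub_CA hz)) v hv
  · refine (Set.finite_singleton (perp D U)).subset ?_
    rintro U' ⟨x, hx, rfl⟩
    refine map_eq_of_stable (grp x hx) fun v hv => ?_
    exact perp_stable ho (dag_stable (grp x hx) fun v hv => hst x (Or.inl hx) v hv) v hv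
  · intro v hv w hw
    exact hw v (hle v hv)

end Pool.Agent.Lib.MP_361a6f_ag.FL.E.Nd
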