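import Pool.Agent.Lib.MP_361a6f_ag.FL.E.StatE
import Pool.Agent.Lib.MP_361a6f_ag.FL.B.HopF
import Pool.Agent.Lib.MP_361a6f_ag.FL.GB26
import Pool.Agent.Lib.MP_361a6f_ag.FL.A.Cmp

/-!
# Theorem E: the host of one variety

`Core W X g ξ` holds the adapted basis of `H^*(X)`; `Core.host` is the host with `X := fun _ => X`
by definition. It exists for `X` with a unital law, `H^0(X) = ℂ` and a divisor class of positive
degree. The basis vectors of degree `1` are a basis of `H^1(X)`.
-/

open CategoryTheory AlgebraicGeometry MonoidalCategory CartesianMonoidalCategory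

universe u v w u' w'

set_option autoImplicit false
set_option linter.unusedSectionVars false

namespace Pool.Agent.Lib.MP_361a6f_ag.FL.E.Hst

open Pool.Agent.Lib.MP_361a6f_ag.H3 Pool.Agent.Lib.MP_361a6f_ag.SQ
  Pool.Agent.Lib.MP_361a6f_ag.PP

section core

variable {k : Type u} [Field k]

/-- an adapted basis of the cohomology of one variety -/
structure Core (W : CohomologyData.{u, 0, w} k ℂ) (X : Sch k) (g : ℕ) (ξ : W.coh X) where
  Lam : Module.End ℂ (W.coh X)
  lam : LamData W X g ξ Lam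
  I : Type
  [fin : Fintype I]
  [dec : DecidableEq I]
  D : Dat I (Fin 1 × ℕ)
  odd_iff : ∀ l, D.odd l ↔ Odd l.2
  e : I → W.coh X
  e_gr : ∀ x, e x ∈ W.gr X (D.typ x).2
  e_psi : ∀ x y, psi W X ξ Lam lam.slm.internal (e x) (e y) = if y = D.τ x then D.s x else 0
  e_span : Submodule.span ℂ (Set.range e) = ⊤

attribute [instance] Core.fin Core.dec

variable {W : CohomologyData.{u, 0, w} k ℂ} {𝒱 : VarietyClass k} {X : Sch k} {g : ℕ} {ξ : W.coh X}

/-- the host -/
noncomputable def Core.host (c : Core W X g ξ) (hW : IsWeilCohomology W 𝒱) (hX : 𝒱.mem X g)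
    (hξ : ξ ∈ W.alg X 1) : Host W 𝒱 1 where
  hW := hW
  X := fun _ => X
  n := fun _ => g
  mem := fun _ => hX
  ξ := fun _ => ξ
  ξ_alg := fun _ => hξ
  Lam := fun _ => c.Lam
  lam := fun _ => c.lam
  I := c.I
  D := c.D
  odd_iff := c.odd_iff
  e := fun _ => c.e
  e_ne := fun a _ h => absurd (Subsingleton.elim _ a) h
  e_gr := fun _ => c.e_gr
  e_psi := fun _ _ _ _ _ => c.e_psi _ _
  e_span := fun _ => c.e_span

/-- existence, from hard Lefschetz and `Λ` -/
theorem exists_core (hW : IsWeilCohomology W 𝒱) (hX : 𝒱.mem X g) (hξ : ξ ∈ W.alg X 1)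
    (hL : HardLefschetz W X g ξ) (hΛ : AlgebraicLambda W X g ξ) : Nonempty (Core W X g ξ) := by
  obtain ⟨H, h1, h2, h3⟩ := gb26.{u, w} hW (m := 1) (X := fun _ => X) (n := fun _ => g)
    (fun _ => hX) (ξ := fun _ => ξ) (fun _ => hξ) (fun _ => hL) (fun _ => hΛ)
  obtain ⟨hW', X', n', mem, ξ', ξ_alg, Lam, lam, I, D, odd_iff, e, e_ne, e_gr, e_psi, e_span⟩ := H
  dsimp only at h1 h2 h3
  subst h1
  subst h2
  have h4 := eq_of_heq h3
  subst h4
  exact ⟨{ Lam := Lam 0
           lam := lam 0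
           I := I
           D := D
           odd_iff := odd_iff
           e := e 0
           e_gr := e_gr 0
           e_psi := fun x y => e_psi 0 x y (Subsingleton.elim _ _) (Subsingleton.elim _ _)
           e_span := e_span 0 }⟩

end core

/-! ### The basis of `H^1` -/

section basis

variable {k : Type u} [Field k] {m : ℕ} {W : CohomologyData.{u, 0, w} k ℂ} {𝒱 : VarietyClass k}
  (H : Host W 𝒱 m) (a : Fin m)

theorem e_one (i : {x : H.I // H.D.typ x = (a, 1)}) : H.e a i.1 ∈ W.gr (H.X a) 1 := by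
  have h1 := H.e_gr a i.1
  rw [i.2] at h1
  exact h1

theorem lin_one : LinearIndependent ℂ fun i : {x : H.I // H.D.typ x = (a, 1)} => H.e a i.1 :=
  CMP.lin_indep (H := H) (a := a)

theorem span_one : Submodule.span ℂ
    (Set.range fun i : {x : H.I // H.D.typ x = (a, 1)} => H.e a i.1) = W.gr (H.X a) 1 := by
  apply le_antisymm
  · rw [Submodule.span_le]
    rintro _ ⟨i, rfl⟩
    exact e_one H a i
  · intro v hv
    obtain ⟨c, hc, hc'⟩ := CMP.expand_one (ge H) hv
    rw [hc']
    refine Submodule.sum_mem _ fun x _ => ?_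
    by_cases h : H.D.typ x = (a, 1)
    · exact Submodule.smul_mem _ _ (Submodule.subset_span ⟨⟨x, h⟩, rfl⟩)
    · rw [hc x h, zero_smul]
      exact zero_mem _

/-- the basis vectors of degree `1` as a basis of `H^1` -/
noncomputable def basis1 : Module.Basis {x : H.I // H.D.typ x = (a, 1)} ℂ (W.gr (H.X a) 1) :=
  Module.Basis.mk (v := fun i => (⟨H.e a i.1, e_one H a i⟩ : W.gr (H.X a) 1))
    (by
      refine LinearIndependent.of_comp (W.gr (H.X a) 1).subtype ?_
      exact lin_one H a)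
    (by
      rintro ⟨v, hv⟩ -
      have h1 : v ∈ Submodule.span ℂ
          (Set.range fun i : {x : H.I // H.D.typ x = (a, 1)} => H.e a i.1) := by
        rw [span_one]
        exact hv
      have h2 : (Submodule.span ℂ (Set.range fun i : {x : H.I // H.D.typ x = (a, 1)} =>
          (⟨H.e a i.1, e_one H a i⟩ : W.gr (H.X a) 1))).map (W.gr (H.X a) 1).subtype =
          Submodule.span ℂ (Set.range fun i : {x : H.I // H.D.typ x = (a, 1)} => H.e a i.1) := by
        rw [Submodule.map_span, ← Set.range_comp]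
        rfl
      rw [← h2] at h1
      obtain ⟨v', hv', h3⟩ := h1
      have h4 : v' = ⟨v, hv⟩ := Subtype.ext h3
      rw [← h4]
      exact hv')

theorem basis1_apply (i : {x : H.I // H.D.typ x = (a, 1)}) :
    ((basis1 H a i : W.gr (H.X a) 1) : W.coh (H.X a)) = H.e a i.1 := by
  unfold basis1
  rw [Module.Basis.mk_apply]

/-- the number of the letters of degree `1` -/
theorem card_one : Fintype.card {x : H.I // H.D.typ x = (a, 1)} =
    Module.finrank ℂ (W.gr (H.X a) 1) := (Module.finrank_eq_card_basis (basis1 H a)).symm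

theorem card_two {g : ℕ} (hA : AbelianType W (H.X a) g) :
    Fintype.card {x : H.I // H.D.typ x = (a, 1)} = 2 * g := (card_one H a).trans hA.rank

/-- the letters of degree `1` are odd -/
theorem odd_one : H.D.odd (a, 1) := (H.odd_iff _).mpr (Nat.odd_iff.mpr rfl)

end basis

/-! ### From the hypotheses of Theorem E -/

section hyp

variable {k : Type u} [Field k] {k' : Type v} [Field k'] {W : CohomologyData.{u, 0, w} k ℂ}
  {𝒱 : VarietyClass k} {W' : CohomologyData.{v, 0, w'} k' ℂ} {𝒱' : VarietyClass k'}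

/-- `H^*(X)` is generated by `H^1(X)`, of dimension `2 g` -/
theorem abelianType (hW : IsWeilCohomology W 𝒱) {D : EQ.Data W W'} (h : EQ.Hyp 𝒱 𝒱' D) :
    AbelianType W D.X D.g :=
  abelianType_of_unital hW h.mem h.conn h.unital h.div

/-- hard Lefschetz, `Λ`, and a Hodge-Riemann structure on `H^*(X)` -/
theorem facts (hW : IsWeilCohomology W 𝒱) {D : EQ.Data W W'} (h : EQ.Hyp 𝒱 𝒱' D) :
    HardLefschetz W D.X D.g D.ξ ∧ AlgebraicLambda W D.X D.g D.ξ ∧
      ∃ j : W.coh D.X →ₛₗ[starRingEnd ℂ] W.coh D.X, HRStr W D.X D.g D.ξ j :=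
  unital hW h.mem h.conn h.unital h.div

/-- the host exists; `c.host hW h.mem h.div.1` has `X := fun _ => D.X` and so on by definition -/
theorem exists_core_hyp (hW : IsWeilCohomology W 𝒱) {D : EQ.Data W W'} (h : EQ.Hyp 𝒱 𝒱' D) :
    Nonempty (Core W D.X D.g D.ξ) :=
  exists_core hW h.mem h.div.1 (facts hW h).1 (facts hW h).2.1

/-- the host, in the form with equations -/
theorem exists_host (hW : IsWeilCohomology W 𝒱) {D : EQ.Data W W'} (h : EQ.Hyp 𝒱 𝒱' D) :
    ∃ H : Host W 𝒱 1, H.X = (fun _ => D.X) ∧ H.n = (fun _ => D.g) ∧ HEq H.ξ (fun _ : Fin 1 => D.ξ) := by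
  obtain ⟨c⟩ := exists_core_hyp hW h
  exact ⟨c.host hW h.mem h.div.1, rfl, rfl, HEq.rfl⟩

end hyp

end Pool.Agent.Lib.MP_361a6f_ag.FL.E.Hst
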