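import Pool.Agent.Lib.MP_361a6f_ag.FL.E.StatE

/-!
# Theorem E3: at most three pieces
-/

open CategoryTheory AlgebraicGeometry MonoidalCategory CartesianMonoidalCategory

universe u v w w'

namespace Pool.Agent.Lib.MP_361a6f_ag.FL

open Pool.Agent.Lib.MP_361a6f_ag.H3 Pool.Agent.Lib.MP_361a6f_ag.SQ

/-- No stable subspace of `H^1(X)` except `0` is isotropic for the form `Tr(ξ^(n-1) x y)`, and
`H^1(X)` is not the direct sum of four stable subspaces different from `0`. (For abelian varieties: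
the centre of the endomorphism algebra is a product of totally real fields, of dimension at most `3`
over `ℚ`.) -/
structure EQ.FewPieces {k : Type u} [Field k] (W : CohomologyData.{u, 0, w} k ℂ) (X : Sch k)
    (n : ℕ) (ξ : W.coh X) : Prop where
  iso : ∀ U, EQ.Stable W X n U →
    (∀ x ∈ U, ∀ y ∈ U, W.Tr (W.cup (ξ ^ (n - 1)) (W.cup x y)) = 0) → U = ⊥
  four : ∀ U : Fin 4 → Submodule ℂ (W.coh X), (∀ i, EQ.Stable W X n (U i)) → (∀ i, U i ≠ ⊥) →
    iSupIndep U → ⨆ i, U i ≠ W.gr X 1

/-- **Theorem E3.** If `H^1(X)` has no isotropic stable subspace except `0` and is not the direct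
sum of four stable subspaces different from `0` then `Q1` holds for all algebraic classes on all
powers of `X`, and numerical equivalence is homological equivalence. -/
def ThmE3GeoStatement : Prop :=
  ∀ {k : Type u} [Field k] (W : CohomologyData.{u, 0, w} k ℂ) (𝒱 : VarietyClass k)
    (_ : IsWeilCohomology W 𝒱) {k' : Type v} [Field k'] (W' : CohomologyData.{v, 0, w'} k' ℂ)
    (𝒱' : VarietyClass k') (_ : IsWeilCohomology W' 𝒱') (D : EQ.Data W W') (_ : EQ.Hyp 𝒱 𝒱' D)
    (_ : EQ.FewPieces W D.X D.g D.ξ)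
    (P : Prd 1) (η : W.coh (EQ.pw D.X P)) (_ : IsPol W (fun _ => D.ξ) P η),
    EQ.Q1 W (EQ.pw D.X P) (P.dim fun _ => D.g) η ∧ EQ.NumHom W (EQ.pw D.X P)

end Pool.Agent.Lib.MP_361a6f_ag.FL
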