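import Pool.Agent.Lib.MP_361a6f_ag.FL.E.OrbP
import Pool.Agent.Lib.MP_361a6f_ag.FL.E.DefsH
import Pool.Agent.Lib.MP_361a6f_ag.FL.E.StatH
import Pool.Agent.Lib.MP_361a6f_ag.FL.E.Hst
import Pool.Agent.Lib.MP_361a6f_ag.FL.B.HrO
import Pool.Agent.Lib.MP_361a6f_ag.FL.AtRow

/-!
# Theorem E+, row G8: stable subspaces of `H^1(X)` and of the coordinate space
-/

open CategoryTheory AlgebraicGeometry MonoidalCategory CartesianMonoidalCategory

universe u v w u' w'

set_option autoImplicit false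
set_option linter.unusedSectionVars false

namespace Pool.Agent.Lib.MP_361a6f_ag.FL.E

open Pool.Agent.Lib.MP_361a6f_ag.H3 Pool.Agent.Lib.MP_361a6f_ag.SQ
  Pool.Agent.Lib.MP_361a6f_ag.PP

noncomputable section

namespace Orb

variable {k : Type u} [Field k] {W : CohomologyData.{u, 0, w} k ℂ} {𝒱 : VarietyClass k}
  {X : Sch k} {g : ℕ} {ξ : W.coh X} (c : Hst.Core W X g ξ) (hW : IsWeilCohomology W 𝒱)
  (hX : 𝒱.mem X g) (hξ : ξ ∈ W.alg X 1)
  (Γ : Set (Matrix c.I c.I ℂ)) (hΓ : ∀ M ∈ Γ, ∀ i j, c.D.typ i ≠ c.D.typ j → M i j = 0)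
  (hsym : ∀ T, EQ.IsSym W X T → ∃ M ∈ Γ, ∀ z : W.coh X,
    (c.host hW hX hξ).tc (.leaf 0) (T (.leaf 0) z) = gT M ((c.host hW hX hξ).tc (.leaf 0) z))

/-- the classes of degree `1` with given coordinates -/
abbrev cl1 : (Sub c.D (lt 1) → ℂ) →ₗ[ℂ] W.coh X := cls (c.host hW hX hξ) 1

include hΓ hsym in
/-- a stable subspace of the coordinate space gives a stable subspace of `H^1(X)` -/
theorem stable_core {U : Submodule ℂ (Sub c.D (lt 1) → ℂ)}
    (hU : StabU (subD c.D (lt 1)) (atS c.D (lt 1) fun L u => u ∈ (c.host hW hX hξ).At L)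
      (blk '' Γ) U) :
    EQ.Stable W X g (U.map (cl1 c hW hX hξ)) where
  le := by
    rintro _ ⟨v, -, rfl⟩
    exact cls_gr (H := c.host hW hX hξ) v
  act := fun z hz x hx => stable_alg (H := c.host hW hX hξ) (d := 1) staB (ge _) (at_ _) hz hU.1 x hx
  fin := by
    have h := finite_of (H := c.host hW hX hξ) (d := 1) (ge _) U Γ hΓ
      (fun T => ∃ T', EQ.IsSym W X T' ∧ T = T' (.leaf 0))
      (by
        rintro _ ⟨T', hT', rfl⟩
        exact hsym T' hT') hU.2
    refine h.subset ?_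
    rintro S ⟨T, hT, hS⟩
    exact ⟨T (.leaf 0), ⟨T, hT, rfl⟩, hS⟩

include hΓ hsym in
/-- the irreducible case -/
theorem orbit_core (irr : ∀ U, EQ.Stable W X g U → U = ⊥ ∨ U = W.gr X 1)
    (U : Submodule ℂ (Sub c.D (lt 1) → ℂ))
    (hU : StabU (subD c.D (lt 1)) (atS c.D (lt 1) fun L u => u ∈ (c.host hW hX hξ).At L)
      (blk '' Γ) U) : U = ⊥ ∨ U = ⊤ :=
  eq_of_map (H := c.host hW hX hξ) (d := 1) (ge _) U
    (irr _ (stable_core c hW hX hξ Γ hΓ hsym hU))

/-- the form in the coordinates -/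
theorem psi_cl1 (v w : Sub c.D (lt 1) → ℂ) :
    psi W X ξ c.Lam c.lam.slm.internal (cl1 c hW hX hξ v) (cl1 c hW hX hξ w) =
      dotProduct v ((Psi (subD c.D (lt 1))).mulVec w) := by
  have h1 : psi W X ξ c.Lam c.lam.slm.internal (cl1 c hW hX hξ v) (cl1 c hW hX hξ w) =
      ∑ i : Sub c.D (lt 1), ∑ j : Sub c.D (lt 1), v i * (w j *
        psi W X ξ c.Lam c.lam.slm.internal (c.e i.1) (c.e j.1)) := by
    change W.tr X ((∑ i : Sub c.D (lt 1), v i • c.e i.1) * PP.star c.lam.slm.internal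
      (Lop W X ξ) c.Lam (∑ j : Sub c.D (lt 1), w j • c.e j.1)) = _
    rw [Finset.sum_mul, map_sum]
    refine Finset.sum_congr rfl fun i _ => ?_
    rw [map_sum, Finset.mul_sum, map_sum]
    refine Finset.sum_congr rfl fun j _ => ?_
    rw [map_smul, smul_mul_assoc, mul_smul_comm, map_smul, map_smul, smul_eq_mul, smul_eq_mul]
    rfl
  rw [h1]
  unfold dotProduct Matrix.mulVec dotProduct
  refine Finset.sum_congr rfl fun i _ => ?_
  rw [Finset.mul_sum]
  refine Finset.sum_congr rfl fun j _ => ?_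
  rw [c.e_psi]
  change v i * (w j * if (j : c.I) = c.D.τ i then c.D.s i else 0) =
    v i * ((if j = (subD c.D (lt 1)).τ i then (subD c.D (lt 1)).s i else 0) * w j)
  by_cases h : (j : c.I) = c.D.τ i
  · rw [if_pos h, if_pos (show j = (subD c.D (lt 1)).τ i from Subtype.ext h)]
    change v i * (w j * c.D.s i) = v i * (c.D.s i * w j)
    ring
  · rw [if_neg h, if_neg (show ¬ j = (subD c.D (lt 1)).τ i from fun e => h (congrArg _ e))]
    ring

include hΓ hsym in
/-- the condition (h1) -/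
theorem h1_core (hpos : PositiveDivisor W X g ξ) (few : EQ.FewPieces W X g ξ)
    (U : Submodule ℂ (Sub c.D (lt 1) → ℂ))
    (hU : StabU (subD c.D (lt 1)) (atS c.D (lt 1) fun L u => u ∈ (c.host hW hX hξ).At L)
      (blk '' Γ) U)
    (h0 : ∀ v ∈ U, ∀ w ∈ U, dotProduct v ((Psi (subD c.D (lt 1))).mulVec w) = 0) : U = ⊥ := by
  have hS := stable_core c hW hX hξ Γ hΓ hsym hU
  have hb : U.map (cl1 c hW hX hξ) = ⊥ := by
    rcases Nat.eq_zero_or_pos g with hg | hg
    · rw [eq_bot_iff]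
      intro x hx
      exact hW.top_gr hX (hS.le hx) (by omega)
    · refine few.iso _ hS ?_
      rintro _ ⟨v, hv, rfl⟩ _ ⟨w, hw, rfl⟩
      have h1 := psi_one hW hX hpos c.lam hg (cl1 c hW hX hξ v) (w := cl1 c hW hX hξ w)
        (cls_gr (H := c.host hW hX hξ) w)
      rw [psi_cl1, h0 v hv w hw] at h1
      have h2 : ((g - 1).factorial : ℂ)⁻¹ ≠ 0 :=
        inv_ne_zero (Nat.cast_ne_zero.2 (Nat.factorial_ne_zero _))
      have h3 := (mul_eq_zero.1 h1.symm).resolve_left h2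
      exact neg_eq_zero.1 h3
  rw [eq_bot_iff]
  intro v hv
  have h1 : cl1 c hW hX hξ v ∈ U.map (cl1 c hW hX hξ) := ⟨v, hv, rfl⟩
  rw [hb, Submodule.mem_bot] at h1
  exact cls_inj (H := c.host hW hX hξ) (ge _) (h1.trans (map_zero _).symm)

/-- images of independent subspaces under an injective map -/
theorem indep_map {V V' : Type*} [AddCommGroup V] [Module ℂ V] [AddCommGroup V'] [Module ℂ V']
    {f : V →ₗ[ℂ] V'} (hf : Function.Injective f) {ι : Type*} {U : ι → Submodule ℂ V}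
    (h : iSupIndep U) : iSupIndep fun i => (U i).map f := by
  intro i
  have h1 := h i
  rw [Submodule.disjoint_def] at h1 ⊢
  intro x hx hx'
  obtain ⟨v, hv, rfl⟩ := hx
  have h2 : (⨆ (j : ι) (_ : j ≠ i), (U j).map f) = (⨆ (j : ι) (_ : j ≠ i), U j).map f := by
    simp only [Submodule.map_iSup]
  rw [h2] at hx'
  obtain ⟨w, hw, h3⟩ := hx'
  rw [hf h3] at hw
  rw [h1 v hv hw, map_zero]

include hΓ hsym in
/-- the condition (h2) -/
theorem h2_core (few : EQ.FewPieces W X g ξ)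
    (U : Fin 4 → Submodule ℂ (Sub c.D (lt 1) → ℂ))
    (hU : ∀ i, StabU (subD c.D (lt 1)) (atS c.D (lt 1) fun L u => u ∈ (c.host hW hX hξ).At L)
      (blk '' Γ) (U i)) (h0 : ∀ i, U i ≠ ⊥) (hi : iSupIndep U) (ht : (⨆ i, U i) = ⊤) : False := by
  have hinj : Function.Injective (cl1 c hW hX hξ) := cls_inj (H := c.host hW hX hξ) (ge _)
  refine few.four (fun i => (U i).map (cl1 c hW hX hξ))
    (fun i => stable_core c hW hX hξ Γ hΓ hsym (hU i)) (fun i hb => h0 i ?_)
    (indep_map hinj hi) ?_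
  · rw [eq_bot_iff]
    intro v hv
    have h1 : cl1 c hW hX hξ v ∈ (U i).map (cl1 c hW hX hξ) := ⟨v, hv, rfl⟩
    have hb' : (U i).map (cl1 c hW hX hξ) = ⊥ := hb
    rw [hb', Submodule.mem_bot] at h1
    exact hinj (h1.trans (map_zero _).symm)
  · rw [← Submodule.map_iSup, ht, Submodule.map_top]
    exact range_cls (H := c.host hW hX hξ) staB (ge _)

end Orb

end

end Pool.Agent.Lib.MP_361a6f_ag.FL.E
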