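import Pool.Agent.Lib.MP_361a6f_ag.FL.E.Defs

/-!
# Theorem E, row G1: the tensors over one letter

The indices of type `α` form a datum `subD D α`; a tensor over these indices is extended by zero
to a tensor over all indices. All operations are compatible with the extension, and a system of
tensors restricts to a system of tensors over the letter `α`.
-/

open Filter Topology MeasureTheory

set_option autoImplicit false
set_option linter.unusedSectionVars false

namespace Pool.Agent.Lib.MP_361a6f_ag.FL.E

noncomputable section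

variable {I Λ : Type} [Fintype I] [DecidableEq I] [DecidableEq Λ] (D : Dat I Λ) (α : Λ)

/-- the indices of type `α` -/
abbrev Sub : Type := {i : I // D.typ i = α}

/-- the datum of the letter `α` -/
def subD : Dat (Sub D α) Λ where
  typ i := D.typ i.1
  odd := D.odd
  τ i := ⟨D.τ i.1, (D.typ_τ i.1).trans i.2⟩
  s i := D.s i.1
  τ_τ i := Subtype.ext (D.τ_τ i.1)
  typ_τ i := D.typ_τ i.1
  s_val i := D.s_val i.1
  even_τ i h := ⟨Subtype.ext (D.even_τ i.1 h).1, (D.even_τ i.1 h).2⟩
  odd_τ i h := ⟨fun e => (D.odd_τ i.1 h).1 (congrArg Subtype.val e), (D.odd_τ i.1 h).2⟩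

theorem subD_typ (i : Sub D α) : (subD D α).typ i = α := i.2

theorem subD_τ (i : Sub D α) : (((subD D α).τ i : Sub D α) : I) = D.τ i := rfl

theorem subD_s (i : Sub D α) : (subD D α).s i = D.s i := rfl

/-- all letters of the word are `α` -/
def On {L : ℕ} (w : Fin L → I) : Prop := ∀ i, D.typ (w i) = α

instance {L : ℕ} (w : Fin L → I) : Decidable (On D α w) := Fintype.decidableForallFintype

variable {D α} in
/-- the word over `α` -/
def lft {L : ℕ} {w : Fin L → I} (h : On D α w) : Fin L → Sub D α := fun i => ⟨w i, h i⟩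

variable {D α} in
/-- the word over all indices -/
def up {L : ℕ} (w : Fin L → Sub D α) : Fin L → I := fun i => (w i : I)

variable {D α}

theorem on_up {L : ℕ} (w : Fin L → Sub D α) : On D α (up w) := fun i => (w i).2

theorem lft_up {L : ℕ} (w : Fin L → Sub D α) (h : On D α (up w)) : lft h = w := rfl

theorem up_lft {L : ℕ} {w : Fin L → I} (h : On D α w) : up (lft h) = w := rfl

theorem on_τ {L : ℕ} {w : Fin L → I} : On D α (D.τ ∘ w) ↔ On D α w := by
  constructor
  · intro h i
    rw [← D.typ_τ]
    exact h i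
  · intro h i
    exact (D.typ_τ _).trans (h i)

variable (D α) in
/-- extension by zero -/
def ext0 {L : ℕ} : Ten (Sub D α) L →ₗ[ℂ] Ten I L where
  toFun u := fun w => if h : On D α w then u (lft h) else 0
  map_add' u v := by
    funext w
    simp only [Pi.add_apply]
    split_ifs
    · rfl
    · rw [add_zero]
  map_smul' c u := by
    funext w
    simp only [Pi.smul_apply, smul_eq_mul, RingHom.id_apply]
    split_ifs
    · rfl
    · rw [mul_zero]

theorem ext0_on {L : ℕ} (u : Ten (Sub D α) L) {w : Fin L → I} (h : On D α w) :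
    ext0 D α u w = u (lft h) := dif_pos h

theorem ext0_off {L : ℕ} (u : Ten (Sub D α) L) {w : Fin L → I} (h : ¬ On D α w) :
    ext0 D α u w = 0 := dif_neg h

theorem ext0_up {L : ℕ} (u : Ten (Sub D α) L) (w : Fin L → Sub D α) :
    ext0 D α u (up w) = u w := ext0_on u (on_up w)

theorem ext0_inj {L : ℕ} {u v : Ten (Sub D α) L} (h : ext0 D α u = ext0 D α v) : u = v := by
  funext w
  rw [← ext0_up u w, h, ext0_up]

/-- equality with an extension -/
theorem eq_ext0 {L : ℕ} {x : Ten I L} {u : Ten (Sub D α) L}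
    (h1 : ∀ w : Fin L → Sub D α, x (up w) = u w) (h2 : ∀ w, ¬ On D α w → x w = 0) :
    x = ext0 D α u := by
  funext w
  by_cases h : On D α w
  · rw [ext0_on u h, ← h1 (lft h), up_lft]
  · rw [ext0_off u h, h2 w h]

/-- sums over words -/
theorem sum_on {M : Type*} [AddCommMonoid M] {L : ℕ} (f : (Fin L → I) → M)
    (hf : ∀ w, ¬ On D α w → f w = 0) :
    ∑ w, f w = ∑ w : Fin L → Sub D α, f (up w) := by
  rw [← Finset.sum_filter_add_sum_filter_not Finset.univ (fun w => On D α w),
    Finset.sum_eq_zero (s := Finset.univ.filter fun w => ¬ On D α w), add_zero]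
  · refine (Finset.sum_bij (fun (w : Fin L → Sub D α) _ => up w) ?_ ?_ ?_ ?_).symm
    · intro w _
      exact Finset.mem_filter.2 ⟨Finset.mem_univ _, on_up w⟩
    · intro w _ w' _ h
      funext i
      exact Subtype.ext (congrFun h i)
    · intro w hw
      exact ⟨lft (Finset.mem_filter.1 hw).2, Finset.mem_univ _, rfl⟩
    · intro w _
      rfl
  · intro w hw
    exact hf w (Finset.mem_filter.1 hw).2

theorem sg_up {L : ℕ} (w : Fin L → Sub D α) : sg D (up w) = sg (subD D α) w := rfl

theorem τ_up {L : ℕ} (w : Fin L → Sub D α) : D.τ ∘ up w = up ((subD D α).τ ∘ w) := rfl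

/-! ### The operations -/

theorem psiT_ext {L : ℕ} (u v : Ten (Sub D α) L) :
    psiT D (ext0 D α u) (ext0 D α v) = psiT (subD D α) u v := by
  unfold psiT
  rw [sum_on (D := D) (α := α)]
  · refine Finset.sum_congr rfl fun w _ => ?_
    rw [τ_up, ext0_up, ext0_up, sg_up]
  · intro w hw
    rw [ext0_off u hw, zero_mul, mul_zero]

theorem jT_ext {L : ℕ} (u : Ten (Sub D α) L) :
    jT D (ext0 D α u) = ext0 D α (jT (subD D α) u) := by
  refine eq_ext0 (fun w => ?_) fun w hw => ?_
  · unfold jT
    rw [τ_up, ext0_up, sg_up]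
  · unfold jT
    rw [ext0_off u (fun h => hw (on_τ.1 h)), map_zero, mul_zero]

theorem permT_ext {L : ℕ} (σ : Equiv.Perm (Fin L)) (u : Ten (Sub D α) L) :
    permT σ (ext0 D α u) = ext0 D α (permT σ u) := by
  refine eq_ext0 (fun w => ?_) fun w hw => ?_
  · change ext0 D α u (up (w ∘ σ)) = u (w ∘ σ)
    rw [ext0_up]
  · refine ext0_off u fun h => hw fun i => ?_
    have h1 := h (σ.symm i)
    rwa [Function.comp_apply, Equiv.apply_symm_apply] at h1

theorem on_append {p q : ℕ} {w : Fin (p + q) → I} : On D α w ↔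
    On D α (fun i => w (Fin.castAdd q i)) ∧ On D α (fun i => w (Fin.natAdd p i)) := by
  constructor
  · intro h
    exact ⟨fun i => h _, fun i => h _⟩
  · rintro ⟨h1, h2⟩ i
    induction i using Fin.addCases with
    | left i => exact h1 i
    | right i => exact h2 i

theorem outer_ext {p q : ℕ} (u : Ten (Sub D α) p) (v : Ten (Sub D α) q) :
    outer (ext0 D α u) (ext0 D α v) = ext0 D α (outer u v) := by
  refine eq_ext0 (fun w => ?_) fun w hw => ?_
  · change ext0 D α u (up fun i => w (Fin.castAdd q i)) *
      ext0 D α v (up fun i => w (Fin.natAdd p i)) = _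
    rw [ext0_up, ext0_up]
    rfl
  · rw [on_append, not_and_or] at hw
    unfold outer
    rcases hw with h | h
    · rw [ext0_off u h, zero_mul]
    · rw [ext0_off v h, mul_zero]

theorem up_append {p c : ℕ} (w' : Fin p → Sub D α) (w : Fin c → Sub D α) :
    Fin.append (up w') (up w) = up (Fin.append w' w) := by
  funext i
  induction i using Fin.addCases with
  | left i =>
    rw [Fin.append_left]
    exact congrArg Subtype.val (Fin.append_left w' w i).symm
  | right i =>
    rw [Fin.append_right]
    exact congrArg Subtype.val (Fin.append_right w' w i).symm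

theorem cont_ext {p c : ℕ} (u : Ten (Sub D α) p) (m : Ten (Sub D α) (p + c)) :
    cont D (ext0 D α u) (ext0 D α m) = ext0 D α (cont (subD D α) u m) := by
  refine eq_ext0 (fun w => ?_) fun w hw => ?_
  · unfold cont
    rw [sum_on (D := D) (α := α)]
    · refine Finset.sum_congr rfl fun w' _ => ?_
      rw [τ_up, up_append, ext0_up, ext0_up, sg_up]
    · intro w' hw'
      rw [ext0_off u hw', zero_mul, mul_zero]
  · unfold cont
    refine Finset.sum_eq_zero fun w' _ => ?_
    rw [ext0_off m, mul_zero, mul_zero]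
    intro h
    rw [on_append] at h
    refine hw fun i => ?_
    have h1 : D.typ (Fin.append (D.τ ∘ w') w (Fin.natAdd p i)) = α := h.2 i
    rwa [Fin.append_right] at h1

theorem om_ext : om D α = ext0 D α (om (subD D α) α) := by
  refine eq_ext0 (fun w => ?_) fun w hw => ?_
  · unfold om
    have h1 : (up w 1 = D.τ (up w 0)) ↔ (w 1 = (subD D α).τ (w 0)) := by
      constructor
      · intro h
        exact Subtype.ext h
      · intro h
        rw [up, h]
        rfl
    by_cases h : w 1 = (subD D α).τ (w 0)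
    · rw [if_pos ⟨(w 0).2, h1.2 h⟩, if_pos ⟨(w 0).2, h⟩]
      rfl
    · rw [if_neg fun e => h (h1.1 e.2), if_neg fun e => h e.2]
  · unfold om
    rw [if_neg]
    rintro ⟨h1, h2⟩
    refine hw fun i => ?_
    fin_cases i
    · exact h1
    · change D.typ (w 1) = α
      rw [h2, D.typ_τ, h1]

theorem om_other {β : Λ} (h : β ≠ α) : om (subD D α) β = 0 := by
  funext w
  unfold om
  rw [if_neg]
  · rfl
  · rintro ⟨h1, -⟩
    exact h (h1.symm.trans (w 0).2)

theorem one_ext : ext0 D α (fun _ : Fin 0 → Sub D α => (1 : ℂ)) = fun _ => 1 := by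
  funext w
  exact ext0_on _ fun i => i.elim0

/-! ### Systems -/

/-- the system over the letter `α` -/
def atS {I Λ : Type} [DecidableEq Λ] (D : Dat I Λ) (α : Λ) (At : (L : ℕ) → Ten I L → Prop)
    (L : ℕ) (u : Ten (Sub D α) L) : Prop := At L (ext0 D α u)

theorem aSys_sub {At : (L : ℕ) → Ten I L → Prop} (S : ASys D At) :
    ASys (subD D α) (atS D α At) where
  zero L := by
    unfold atS
    rw [map_zero]
    exact S.zero L
  add L u v hu hv := by
    unfold atS
    rw [map_add]
    exact S.add L _ _ hu hv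
  qsmul L q u hu := by
    unfold atS
    rw [map_smul]
    exact S.qsmul L q _ hu
  one := by
    unfold atS
    rw [one_ext]
    exact S.one
  rat u hu := by
    obtain ⟨q, hq⟩ := S.rat _ hu
    exact ⟨q, fun w => by rw [← hq (up w), ext0_up]⟩
  perm L σ u hu := by
    unfold atS
    rw [← permT_ext]
    exact S.perm L σ _ hu
  outer p q u v hu hv := by
    unfold atS
    rw [← outer_ext]
    exact S.outer p q _ _ hu hv
  cont p c u m hu hm := by
    unfold atS
    rw [← cont_ext]
    exact S.cont p c _ _ hu hm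
  om β := by
    unfold atS
    by_cases h : β = α
    · subst h
      rw [← om_ext]
      exact S.om β
    · rw [om_other h, map_zero]
      exact S.zero 2
  even L u hu := by
    apply ext0_inj
    rw [← jT_ext, ← jT_ext]
    exact S.even L _ hu

theorem rSys_sub {Bt : (L : ℕ) → Ten I L → Prop} (S : RSys D Bt) (h0 : Bt 2 0) :
    RSys (subD D α) (atS D α Bt) where
  one := by
    unfold atS
    rw [one_ext]
    exact S.one
  real u hu := by
    obtain ⟨q, hq⟩ := S.real _ hu
    exact ⟨q, fun w => by rw [← hq (up w), ext0_up]⟩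
  perm L σ u hu := by
    unfold atS
    rw [← permT_ext]
    exact S.perm L σ _ hu
  outer p q u v hu hv := by
    unfold atS
    rw [← outer_ext]
    exact S.outer p q _ _ hu hv
  cont p c u m hu hm := by
    unfold atS
    rw [← cont_ext]
    exact S.cont p c _ _ hu hm
  om β := by
    unfold atS
    by_cases h : β = α
    · subst h
      rw [← om_ext]
      exact S.om β
    · rw [om_other h, map_zero]
      exact h0

/-! ### Matrices -/

/-- the block of a matrix -/
def blk (y : Matrix I I ℂ) : Matrix (Sub D α) (Sub D α) ℂ :=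
  y.submatrix (Subtype.val : Sub D α → I) (Subtype.val : Sub D α → I)

theorem gT_ext {y : Matrix I I ℂ} (hy : ∀ i j, D.typ i ≠ D.typ j → y i j = 0) {L : ℕ}
    (u : Ten (Sub D α) L) : gT y (ext0 D α u) = ext0 D α (gT (blk y) u) := by
  refine eq_ext0 (fun w => ?_) fun w hw => ?_
  · unfold gT
    rw [sum_on (D := D) (α := α)]
    · refine Finset.sum_congr rfl fun w' _ => ?_
      rw [ext0_up]
      rfl
    · intro w' hw'
      rw [ext0_off u hw', mul_zero]
  · unfold gT
    refine Finset.sum_eq_zero fun w' _ => ?_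
    by_cases hw' : On D α w'
    · rw [On] at hw
      push Not at hw
      obtain ⟨i, hi⟩ := hw
      rw [Finset.prod_eq_zero (Finset.mem_univ i) (hy _ _ fun h => hi (h.trans (hw' i))), zero_mul]
    · rw [ext0_off u hw', mul_zero]

theorem blk_diagonal (l : I → ℂ) :
    (blk (Matrix.diagonal l) : Matrix (Sub D α) (Sub D α) ℂ) =
      Matrix.diagonal fun i : Sub D α => l i := by
  ext i j
  unfold blk
  rw [Matrix.submatrix_apply, Matrix.diagonal_apply, Matrix.diagonal_apply]
  by_cases h : i = j
  · rw [if_pos h, if_pos (congrArg Subtype.val h)]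
  · rw [if_neg h, if_neg fun e => h (Subtype.ext e)]

theorem blk_mul {x y : Matrix I I ℂ} (hy : ∀ i j, D.typ i ≠ D.typ j → y i j = 0) :
    (blk (x * y) : Matrix (Sub D α) (Sub D α) ℂ) = blk x * blk y := by
  ext i j
  unfold blk
  rw [Matrix.submatrix_apply, Matrix.mul_apply, Matrix.mul_apply,
    ← Finset.sum_filter_add_sum_filter_not Finset.univ (fun k => D.typ k = α),
    Finset.sum_eq_zero (s := Finset.univ.filter fun k => ¬ D.typ k = α), add_zero]
  · refine (Finset.sum_bij (fun (k : Sub D α) _ => (k : I)) ?_ ?_ ?_ ?_).symm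
    · intro k _
      exact Finset.mem_filter.2 ⟨Finset.mem_univ _, k.2⟩
    · intro k _ k' _ h
      exact Subtype.ext h
    · intro k hk
      exact ⟨⟨k, (Finset.mem_filter.1 hk).2⟩, Finset.mem_univ _, rfl⟩
    · intro k _
      rfl
  · intro k hk
    rw [hy k j fun h => (Finset.mem_filter.1 hk).2 (h.trans j.2), mul_zero]

theorem blk_psi : (blk (Psi D) : Matrix (Sub D α) (Sub D α) ℂ) = Psi (subD D α) := by
  ext i j
  unfold blk Psi
  rw [Matrix.submatrix_apply, Matrix.of_apply, Matrix.of_apply]
  by_cases h : j = (subD D α).τ i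
  · have h1 : (j : I) = D.τ i := congrArg Subtype.val h
    rw [if_pos h, if_pos h1]
    rfl
  · have h1 : ¬ (j : I) = D.τ i := fun e => h (Subtype.ext e)
    rw [if_neg h, if_neg h1]

theorem psi_block (i j : I) (h : D.typ i ≠ D.typ j) : Psi D i j = 0 := by
  unfold Psi
  rw [Matrix.of_apply, if_neg]
  rintro rfl
  exact h (D.typ_τ i).symm

theorem isG_blk {y : Matrix I I ℂ} (hy : IsG D y) :
    IsG (subD D α) (blk y : Matrix (Sub D α) (Sub D α) ℂ) := by
  refine ⟨fun i j h => absurd (i.2.trans j.2.symm) h, ?_⟩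
  have h1 : ∀ i j, D.typ i ≠ D.typ j → (Psi D * y) i j = 0 := by
    intro i j h
    rw [Matrix.mul_apply]
    refine Finset.sum_eq_zero fun k _ => ?_
    by_cases hk : D.typ i = D.typ k
    · rw [hy.1 k j fun e => h (hk.trans e), mul_zero]
    · rw [psi_block i k hk, zero_mul]
  have h2 := congrArg (fun M : Matrix I I ℂ => (blk M : Matrix (Sub D α) (Sub D α) ℂ)) hy.2
  change (blk (y.transpose * Psi D * y) : Matrix (Sub D α) (Sub D α) ℂ) = blk (Psi D) at h2
  rw [Matrix.mul_assoc, blk_mul h1, blk_mul hy.1, blk_psi, ← Matrix.mul_assoc] at h2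
  exact h2

/-- a block matrix that fixes the members fixes the members over `α` -/
theorem fix_sub {At : (L : ℕ) → Ten I L → Prop} {y : Matrix I I ℂ}
    (hy : ∀ i j, D.typ i ≠ D.typ j → y i j = 0) (h : ∀ L u, At L u → gT y u = u) (L : ℕ)
    (u : Ten (Sub D α) L) (hu : atS D α At L u) : gT (blk y) u = u := by
  apply ext0_inj
  rw [← gT_ext hy]
  exact h L _ hu

theorem fix_sub_diagonal {At : (L : ℕ) → Ten I L → Prop} {l : I → ℂ}
    (h : ∀ L u, At L u → gT (Matrix.diagonal l) u = u) (L : ℕ) (u : Ten (Sub D α) L)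
    (hu : atS D α At L u) : gT (Matrix.diagonal fun i : Sub D α => l i) u = u := by
  rw [← blk_diagonal]
  exact fix_sub (fun i j hij => Matrix.diagonal_apply_ne _ fun e => hij (by rw [e])) h L u hu

/-- the tensor of a diagonal matrix -/
theorem gten_ext (l : I → ℂ) : ext0 D α (gten (subD D α) fun i : Sub D α => l i) =
    fun w => if On D α w then gten D l w else 0 := by
  refine (eq_ext0 (fun w => ?_) fun w hw => ?_).symm
  · rw [if_pos (on_up w)]
    unfold gten
    by_cases h : w 1 = (subD D α).τ (w 0)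
    · have h1 : up w 1 = D.τ (up w 0) := congrArg Subtype.val h
      rw [if_pos h, if_pos h1]
      rfl
    · have h1 : ¬ up w 1 = D.τ (up w 0) := fun e => h (Subtype.ext e)
      rw [if_neg h, if_neg h1]
  · rw [if_neg hw]

/-! ### The restriction -/

/-- the restriction to the words over `α` -/
def res (D : Dat I Λ) (α : Λ) {L : ℕ} : Ten I L →ₗ[ℂ] Ten (Sub D α) L where
  toFun u := fun w => u (up w)
  map_add' _ _ := rfl
  map_smul' _ _ := rfl

theorem res_ext {L : ℕ} (u : Ten (Sub D α) L) : res D α (ext0 D α u) = u :=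
  funext fun w => ext0_up u w

/-- the projection to the words over `α` -/
theorem ext_res {L : ℕ} (u : Ten I L) :
    ext0 D α (res D α u) = fun w => if On D α w then u w else 0 := by
  refine (eq_ext0 (fun w => ?_) fun w hw => ?_).symm
  · rw [if_pos (on_up w)]
    rfl
  · rw [if_neg hw]

theorem psiT_res {L : ℕ} (u : Ten (Sub D α) L) (v : Ten I L) :
    psiT D (ext0 D α u) v = psiT (subD D α) u (res D α v) := by
  unfold psiT
  rw [sum_on (D := D) (α := α)]
  · refine Finset.sum_congr rfl fun w _ => ?_
    rw [τ_up, ext0_up, sg_up]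
    rfl
  · intro w hw
    rw [ext0_off u hw, zero_mul, mul_zero]

/-- nondegeneracy on the system over `α` -/
theorem nd_sub {At : (L : ℕ) → Ten I L → Prop}
    (hpr : ∀ L u, At L u → At L (fun w => if On D α w then u w else 0))
    (nd : ∀ L, ∀ u ∈ Submodule.span ℂ {u | At L u}, u ≠ 0 →
      ∃ v ∈ Submodule.span ℂ {u | At L u}, psiT D u v ≠ 0) (L : ℕ)
    (u : Ten (Sub D α) L) (hu : u ∈ Submodule.span ℂ {u | atS D α At L u}) (h0 : u ≠ 0) :
    ∃ v ∈ Submodule.span ℂ {u | atS D α At L u}, psiT (subD D α) u v ≠ 0 := by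
  have h1 : ext0 D α u ∈ Submodule.span ℂ {u | At L u} := by
    have h2 := Submodule.mem_map_of_mem (f := ext0 D α) hu
    rw [Submodule.map_span] at h2
    refine Submodule.span_mono ?_ h2
    rintro _ ⟨v, hv, rfl⟩
    exact hv
  obtain ⟨v, hv, h3⟩ := nd L _ h1 fun h => h0 (ext0_inj (h.trans (map_zero _).symm))
  refine ⟨res D α v, ?_, by rwa [← psiT_res]⟩
  have h4 := Submodule.mem_map_of_mem (f := res D α) hv
  rw [Submodule.map_span] at h4
  refine Submodule.span_mono ?_ h4
  rintro _ ⟨v, hv, rfl⟩
  change At L (ext0 D α (res D α v))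
  rw [ext_res]
  exact hpr L v hv

/-- a real combination of members supported on the words over `α` is the extension of a real
combination of members over `α` -/
theorem mem_real {At : (L : ℕ) → Ten I L → Prop}
    (hpr : ∀ L u, At L u → At L (fun w => if On D α w then u w else 0)) {L : ℕ} {u : Ten I L}
    (hu : u ∈ Submodule.span ℝ {u | At L u}) :
    res D α u ∈ Submodule.span ℝ {u | atS D α At L u} := by
  have h4 := Submodule.mem_map_of_mem (f := (res D α).restrictScalars ℝ) hu
  rw [Submodule.map_span] at h4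
  refine Submodule.span_mono ?_ h4
  rintro _ ⟨v, hv, rfl⟩
  change At L (ext0 D α (res D α v))
  rw [ext_res]
  exact hpr L v hv

end

end Pool.Agent.Lib.MP_361a6f_ag.FL.E
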