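import Pool.Agent.Lib.MP_361a6f_ag.FL.E.EndH
import Pool.Agent.Lib.MP_361a6f_ag.FL.E.Sub

/-!
# Theorem E: from the letter `(0, 1)` to the host

For one factor the tensors with all letters of degree one are the extensions by zero of the tensors
over the letter `(0, 1)`.
-/

open CategoryTheory AlgebraicGeometry MonoidalCategory CartesianMonoidalCategory

universe u v w

set_option autoImplicit false
set_option linter.unusedSectionVars false

namespace Pool.Agent.Lib.MP_361a6f_ag.FL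

open Pool.Agent.Lib.MP_361a6f_ag.H3 Pool.Agent.Lib.MP_361a6f_ag.SQ
  Pool.Agent.Lib.MP_361a6f_ag.PP

namespace EndE

variable {k : Type u} [Field k] {W : CohomologyData.{u, 0, w} k ℂ} {𝒱 : VarietyClass k}
  (H : Host W 𝒱 1)

theorem on_iff {L : ℕ} (w : Fin L → H.I) : E.On H.D (0, 1) w ↔ D1 H w := by
  constructor
  · intro h i
    rw [h i]
  · intro h i
    exact Prod.ext (Subsingleton.elim _ _) (h i)

/-- positivity over the letter `(0, 1)` -/
theorem pos1_of (h : ∀ (L : ℕ) (u : Ten (E.Sub H.D (0, 1)) L),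
    E.atS H.D (0, 1) (fun L u => u ∈ H.At L) L u → u ≠ 0 →
      ∃ r : ℝ, 0 < r ∧ psiT (E.subD H.D (0, 1)) u u = (r : ℂ)) : Pos1 H := by
  intro L u hu hu1 hu0
  have e : u = E.ext0 H.D (0, 1) (fun w => u (E.up w)) :=
    E.eq_ext0 (fun _ => rfl) fun w hw => hu1 w fun hh => hw ((on_iff H w).2 hh)
  obtain ⟨r, hr, hp⟩ := h L (fun w => u (E.up w)) (by
    change E.ext0 H.D (0, 1) (fun w => u (E.up w)) ∈ H.At L
    rw [← e]
    exact hu) (by
    intro h0
    apply hu0
    rw [e, h0, map_zero])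
  rw [← E.psiT_ext, ← e] at hp
  have S := aSys_at (at_ H)
  obtain ⟨q, hq⟩ := Qps.psi_rat S hu hu
  refine ⟨q, ?_, hq⟩
  rw [hq] at hp
  have h1 : ((q : ℚ) : ℝ) = r := by exact_mod_cast hp
  have h2 : (0 : ℝ) < ((q : ℚ) : ℝ) := by rw [h1]; exact hr
  exact_mod_cast h2

end EndE

end Pool.Agent.Lib.MP_361a6f_ag.FL
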