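import Pool.Agent.Lib.MP_361a6f_ag.FL.E.AsmN
import Pool.Agent.Lib.MP_361a6f_ag.FL.E.NSysH
import Pool.Agent.Lib.MP_361a6f_ag.FL.E.NdH
import Pool.Agent.Lib.MP_361a6f_ag.FL.E.MainH
import Pool.Agent.Lib.MP_361a6f_ag.FL.E.OrbS
import Pool.Agent.Lib.MP_361a6f_ag.FL.E.EndN
import Pool.Agent.Lib.MP_361a6f_ag.FL.E.Pos
import Pool.Agent.Lib.MP_361a6f_ag.FL.E.StatH

/-!
# Theorems E+ and E3
-/

open CategoryTheory AlgebraicGeometry MonoidalCategory CartesianMonoidalCategory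

universe u v w w'

set_option autoImplicit false

namespace Pool.Agent.Lib.MP_361a6f_ag.FL.E

open Pool.Agent.Lib.MP_361a6f_ag.H3 Pool.Agent.Lib.MP_361a6f_ag.SQ
  Pool.Agent.Lib.MP_361a6f_ag.PP

section hyp

variable {k : Type u} [Field k] {k' : Type v} [Field k'] {W : CohomologyData.{u, 0, w} k ℂ}
  {𝒱 : VarietyClass k} {W' : CohomologyData.{v, 0, w'} k' ℂ} {𝒱' : VarietyClass k'}
  (hW : IsWeilCohomology W 𝒱) (hW' : IsWeilCohomology W' 𝒱') {D : EQ.Data W W'}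
  (h : EQ.Hyp 𝒱 𝒱' D) (c : Hst.Core W D.X D.g D.ξ)

/-- the host of `X` -/
noncomputable abbrev hst : Host W 𝒱 1 := c.host hW h.mem h.div.1

/-- the data from geometry -/
theorem nsys_hyp (Γ : Set (Matrix (Sub c.D (0, 1)) (Sub c.D (0, 1)) ℂ))
    (grp : ∀ x ∈ Γ, IsG (subD c.D (0, 1)) x)
    (gfix : ∀ x ∈ Γ, ∀ L u, At1 (hst hW h c) L u → gT x u = u)
    (nd : ∀ L, ∀ u ∈ Submodule.span ℂ {u | At1 (hst hW h c) L u}, u ≠ 0 →
      ∃ v ∈ Submodule.span ℂ {u | At1 (hst hW h c) L u}, psiT (subD c.D (0, 1)) u v ≠ 0) :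
    NSys (subD c.D (0, 1)) (At1 (hst hW h c))
      (At1 (host2 (hst hW h c) (spcOf h.spec D.ξ) hW' h.mem'))
      (FM (hst hW h c) (spcOf h.spec D.ξ) hW' h.mem' D.F D.q) Γ :=
  nsys (hst hW h c) (spcOf h.spec D.ξ) hW' h.mem' D.F h.pos h.conn h.div (pull_xi h)
    (fun P l z hz => frH_alg h P l z hz) h.index h.tate
    (fun a b ⟨x, hx, hx0, hFx⟩ ⟨y, hy, hy0, hFy⟩ hab n hn he =>
      hab (h.ratio a b x y hx hy hx0 hy0 hFx hFy n hn he)) Γ grp gfix nd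

/-- the matrices of the symmetries -/
structure IsMats (Γ : Set (Matrix c.I c.I ℂ)) : Prop where
  blk : ∀ M ∈ Γ, ∀ i j, c.D.typ i ≠ c.D.typ j → M i j = 0
  sym : ∀ T, EQ.IsSym W D.X T → ∃ M ∈ Γ, ∀ z : W.coh D.X,
    (hst hW h c).tc (.leaf 0) (T (.leaf 0) z) = gT M ((hst hW h c).tc (.leaf 0) z)
  grp : ∀ M ∈ Γ, IsG c.D M
  fix : ∀ M ∈ Γ, ∀ L, ∀ u ∈ (hst hW h c).At L, gT M u = u

include hW' in
/-- positivity -/
theorem pos1_hyp {Γ : Set (Matrix c.I c.I ℂ)} (hΓ : IsMats hW h c Γ)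
    (few : EQ.FewPieces W D.X D.g D.ξ) : EndE.Pos1 (hst hW h c) := by
  have grp : ∀ x ∈ (E.blk '' Γ : Set (Matrix (Sub c.D (0, 1)) (Sub c.D (0, 1)) ℂ)),
      IsG (subD c.D (0, 1)) x := by
    rintro _ ⟨M, hM, rfl⟩
    exact isG_blk (hΓ.grp M hM)
  have gfix : ∀ x ∈ (E.blk '' Γ : Set (Matrix (Sub c.D (0, 1)) (Sub c.D (0, 1)) ℂ)),
      ∀ L u, At1 (hst hW h c) L u → gT x u = u := by
    rintro _ ⟨M, hM, rfl⟩ L u hu
    exact fix_sub (hΓ.blk M hM) (At := fun L u => u ∈ (hst hW h c).At L)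
      (fun L u hu => hΓ.fix M hM L u hu) L u hu
  have h1 := Orb.h1_core c hW h.mem h.div.1 Γ hΓ.blk hΓ.sym h.div few
  have h2 := Orb.h2_core c hW h.mem h.div.1 Γ hΓ.blk hΓ.sym few
  have odd : ∀ i : Sub c.D (0, 1), (subD c.D (0, 1)).odd ((subD c.D (0, 1)).typ i) := by
    intro i
    show c.D.odd (c.D.typ i.1)
    rw [i.2]
    exact Hst.odd_one (hst hW h c) 0
  have nd := Nd.nd_of_h1 (aSys_sub (α := ((0, 1) : Fin 1 × ℕ)) (aSys_at (at_ (hst hW h c)))) odd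
    (fun i j => i.2.trans j.2.symm) _ grp gfix h1
  have N := nsys_hyp hW hW' h c _ grp gfix nd
  exact EndE.pos1_of _ fun L u hu h0 =>
    ofH mainY alg1 alg2 mainH N h1 h2 L u (Submodule.subset_span hu) h0

/-- Theorem E+ and E3 from positivity -/
theorem of_pos1 (hp : EndE.Pos1 (hst hW h c)) (P : Prd 1) (η : W.coh (EQ.pw D.X P))
    (hη : IsPol W (fun _ => D.ξ) P η) :
    EQ.Q1 W (EQ.pw D.X P) (P.dim fun _ => D.g) η ∧ EQ.NumHom W (EQ.pw D.X P) :=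
  ⟨EndE.q1 (hst hW h c) (fun _ => Hst.abelianType hW h) (fun _ => h.div) hp P η hη,
    EndE.numHom (hst hW h c) (fun _ => Hst.abelianType hW h) (fun _ => h.div) hp P⟩

end hyp

/-- the row of the matrices of the symmetries -/
def SymMatsStatement : Prop :=
  ∀ {k : Type u} [Field k] {k' : Type v} [Field k'] {W : CohomologyData.{u, 0, w} k ℂ}
    {𝒱 : VarietyClass k} {W' : CohomologyData.{v, 0, w'} k' ℂ} {𝒱' : VarietyClass k'}
    (hW : IsWeilCohomology W 𝒱) {D : EQ.Data W W'} (h : EQ.Hyp 𝒱 𝒱' D)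
    (c : Hst.Core W D.X D.g D.ξ), ∃ Γ, IsMats hW h c Γ

/-- **Theorem E3** (needs the row of the symmetries) -/
theorem thmE3Geo_of (sym : SymMatsStatement.{u, v, w, w'}) : ThmE3GeoStatement.{u, v, w, w'} := by
  intro k _ W 𝒱 hW k' _ W' 𝒱' hW' D h few P η hη
  obtain ⟨c⟩ := Hst.exists_core_hyp hW h
  obtain ⟨Γ, hΓ⟩ := sym hW h c
  exact of_pos1 hW h c (pos1_hyp hW hW' h c hΓ few) P η hη

end Pool.Agent.Lib.MP_361a6f_ag.FL.E
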