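import Pool.Agent.Lib.MP_361a6f_ag.FL.E.Defs
import Pool.Agent.Lib.MP_361a6f_ag.FL.Alg1
import Pool.Agent.Lib.MP_361a6f_ag.FL.Al2

/-!
# Theorem E for an arbitrary matrix of Frobenius

A symplectic basis of eigenvectors, and the transport of the data to this basis.
-/

open Filter Topology MeasureTheory

set_option autoImplicit false
set_option linter.unusedSectionVars false

namespace Pool.Agent.Lib.MP_361a6f_ag.FL.E

variable {I Λ : Type} [Fintype I] [DecidableEq I] [DecidableEq Λ]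

/-- the matrix `F` as a tensor of length `2` -/
def mten (D : Dat I Λ) (F : Matrix I I ℂ) : Ten I 2 :=
  fun w => F (w 0) (D.τ (w 1)) * D.s (D.τ (w 1))

/-- the data of Theorem E, for a matrix `F` which need not be diagonal -/
structure MSys (D : Dat I Λ) (At Bt : (L : ℕ) → Ten I L → Prop) (F : Matrix I I ℂ) (l : I → ℂ)
    (Γ : Set (Matrix I I ℂ)) : Prop where
  sys : ASys D At
  typ_eq : ∀ i j, D.typ i = D.typ j
  odd : ∀ i, D.odd (D.typ i)
  frob : IsG D F
  eig : ∀ i, ∃ v : I → ℂ, v ≠ 0 ∧ F.mulVec v = l i • v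
  norm : ∀ i, ‖l i‖ = 1
  ratio : ∀ i j, i ≠ j → ∀ n : ℕ, 0 < n → l i ^ n ≠ l j ^ n
  fix : ∀ L u, At L u → gT F u = u
  rsys : RSys D Bt
  sub : ∀ L u, At L u → Bt L u
  mten : Bt 2 (mten D F)
  grp : ∀ x ∈ Γ, IsG D x
  gfix : ∀ x ∈ Γ, ∀ L u, At L u → gT x u = u
  orbit : ∀ U : Submodule ℂ (I → ℂ),
    {U' : Submodule ℂ (I → ℂ) | ∃ x ∈ Γ, U' = U.map (Matrix.toLin' x)}.Finite → U = ⊥ ∨ U = ⊤
  nd : ∀ L, ∀ u ∈ Submodule.span ℂ {u | At L u}, u ≠ 0 →
    ∃ v ∈ Submodule.span ℂ {u | At L u}, psiT D u v ≠ 0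

section perm

/-- two involutions without fixed points are conjugate -/
theorem exists_conj (σ τ : Equiv.Perm I) (hσ : ∀ i, σ (σ i) = i) (hτ : ∀ i, τ (τ i) = i)
    (hσ' : ∀ i, σ i ≠ i) (hτ' : ∀ i, τ i ≠ i) : ∃ π : Equiv.Perm I, ∀ i, π (τ i) = σ (π i) := by
  have h : ∀ ρ : Equiv.Perm I, (∀ i, ρ (ρ i) = i) → (∀ i, ρ i ≠ i) →
      ρ.cycleType = Multiset.replicate (Fintype.card I / 2) 2 := by
    intro ρ h1 h2
    have h3 : ∀ n ∈ ρ.cycleType, n = 2 := by
      intro n hn
      have h4 : n ∣ orderOf ρ := Equiv.Perm.dvd_of_mem_cycleType hn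
      have h5 : orderOf ρ ∣ 2 := by
        rw [orderOf_dvd_iff_pow_eq_one]
        ext i
        rw [pow_two, Equiv.Perm.mul_apply, h1, Equiv.Perm.one_apply]
      have h6 := Equiv.Perm.two_le_of_mem_cycleType hn
      have h7 := Nat.le_of_dvd (by norm_num) (h4.trans h5)
      omega
    have h4 := Multiset.eq_replicate_card.2 h3
    have h5 : ρ.cycleType.sum = ρ.support.card := Equiv.Perm.sum_cycleType ρ
    have h6 : ρ.support = Finset.univ := by
      ext i
      simp only [Equiv.Perm.mem_support, Finset.mem_univ, iff_true]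
      exact h2 i
    rw [h4, Multiset.sum_replicate, h6, Finset.card_univ, smul_eq_mul] at h5
    have h7 : ρ.cycleType.card = Fintype.card I / 2 := by omega
    rw [h4, h7]
  have h1 : IsConj τ σ := Equiv.Perm.isConj_of_cycleType_eq (by
    rw [h τ hτ hτ', h σ hσ hσ'])
  obtain ⟨π, hπ⟩ := isConj_iff.1 h1
  refine ⟨π, fun i => ?_⟩
  have h2 : π⁻¹ (π i) = i := π.symm_apply_apply i
  rw [← hπ, Equiv.Perm.mul_apply, Equiv.Perm.mul_apply, h2]

end perm

section basis

theorem Psi_apply (D : Dat I Λ) (i j : I) : Psi D i j = if j = D.τ i then D.s i else 0 := rfl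

theorem Psi_transpose (D : Dat I Λ) (hodd : ∀ i, D.odd (D.typ i)) :
    (Psi D).transpose = -Psi D := by
  ext i j
  rw [Matrix.transpose_apply, Matrix.neg_apply, Psi_apply, Psi_apply]
  by_cases h : i = D.τ j
  · have h2 : j = D.τ i := by rw [h, D.τ_τ]
    rw [if_pos h, if_pos h2, h, (D.odd_τ j (hodd j)).2, neg_neg]
  · have h2 : ¬ j = D.τ i := fun h2 => h (by rw [h2, D.τ_τ])
    rw [if_neg h, if_neg h2, neg_zero]

theorem s_sq (D : Dat I Λ) (i : I) : D.s i * D.s i = 1 := by
  rcases D.s_val i with h | h <;> rw [h] <;> norm_num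

theorem Psi_sq (D : Dat I Λ) (hodd : ∀ i, D.odd (D.typ i)) : Psi D * -Psi D = 1 := by
  rw [← Psi_transpose D hodd]
  ext i j
  rw [Matrix.mul_apply, Finset.sum_eq_single (D.τ i)]
  · rw [Matrix.transpose_apply, Psi_apply, Psi_apply, if_pos rfl]
    by_cases h : i = j
    · rw [h, if_pos rfl, Matrix.one_apply_eq, s_sq]
    · have h2 : ¬ D.τ i = D.τ j := fun h2 => h (by
        have := congrArg D.τ h2
        rwa [D.τ_τ, D.τ_τ] at this)
      rw [if_neg h2, mul_zero, Matrix.one_apply_ne h]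
  · intro b _ hb
    rw [Psi_apply, if_neg hb, zero_mul]
  · intro h
    exact absurd (Finset.mem_univ _) h

/-- a symplectic basis of eigenvectors -/
theorem exists_basis (D : Dat I Λ) (hodd : ∀ i, D.odd (D.typ i))
    (htyp : ∀ i j, D.typ i = D.typ j) (F : Matrix I I ℂ) (hF : IsG D F) (l : I → ℂ)
    (hl : Function.Injective l) (heig : ∀ i, ∃ v : I → ℂ, v ≠ 0 ∧ F.mulVec v = l i • v) :
    ∃ (Y : Matrix I I ℂ) (π : Equiv.Perm I), IsG D Y ∧
      F * Y = Y * Matrix.diagonal (l ∘ π) ∧ ∀ i, l (π (D.τ i)) * l (π i) = 1 := by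
  classical
  choose v hv0 hv using heig
  set V : Matrix I I ℂ := Matrix.of fun a i => v i a with hV
  have hVcol : ∀ i, (fun a => V a i) = v i := fun i => rfl
  -- the basis
  have hli : LinearIndependent ℂ v := by
    refine Module.End.eigenvectors_linearIndependent' (Matrix.toLin' F) l hl v fun i => ?_
    rw [Module.End.hasEigenvector_iff, Module.End.mem_eigenspace_iff]
    exact ⟨by rw [Matrix.toLin'_apply, hv], hv0 i⟩
  have hVu : IsUnit V := by
    rw [← Matrix.linearIndependent_cols_iff_isUnit]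
    exact hli
  -- the Gram matrix
  set Gm : Matrix I I ℂ := V.transpose * Psi D * V with hGm
  have hFV : F * V = V * Matrix.diagonal l := by
    ext a i
    rw [Matrix.mul_diagonal]
    have h1 := congrFun (hv i) a
    rw [Pi.smul_apply, smul_eq_mul] at h1
    rw [Matrix.mul_apply]
    have h2 : F.mulVec (v i) a = ∑ b, F a b * V b i := rfl
    rw [← h2, h1, mul_comm]
    rfl
  have hGl : ∀ i j, l i * l j * Gm i j = Gm i j := by
    intro i j
    have h1 : (F * V).transpose * Psi D * (F * V) = Gm := by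
      rw [Matrix.transpose_mul, hGm]
      calc V.transpose * F.transpose * Psi D * (F * V)
          = V.transpose * (F.transpose * Psi D * F) * V := by simp only [Matrix.mul_assoc]
        _ = V.transpose * Psi D * V := by rw [hF.2]
    rw [hFV, Matrix.transpose_mul, Matrix.diagonal_transpose] at h1
    have h2 : Matrix.diagonal l * V.transpose * Psi D * (V * Matrix.diagonal l)
        = Matrix.diagonal l * Gm * Matrix.diagonal l := by
      rw [hGm]; simp only [Matrix.mul_assoc]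
    rw [h2] at h1
    have h3 := congrFun (congrFun h1 i) j
    rw [Matrix.mul_diagonal, Matrix.diagonal_mul] at h3
    linear_combination h3
  have hGs : ∀ i j, Gm j i = -Gm i j := by
    intro i j
    have h1 : Gm.transpose = -Gm := by
      rw [hGm, Matrix.transpose_mul, Matrix.transpose_mul, Matrix.transpose_transpose,
        Psi_transpose D hodd]
      simp only [Matrix.neg_mul, Matrix.mul_neg, Matrix.mul_assoc]
    exact congrFun (congrFun h1 i) j
  have hGu : IsUnit Gm := by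
    have h1 : IsUnit (Psi D) := ⟨⟨Psi D, -Psi D, Psi_sq D hodd, by
      rw [Matrix.neg_mul, ← Matrix.mul_neg, Psi_sq D hodd]⟩, rfl⟩
    exact ((Matrix.isUnit_transpose V).2 hVu |>.mul h1).mul hVu
  have hne : ∀ i, ∃ j, Gm i j ≠ 0 := by
    intro i
    by_contra h
    push Not at h
    have h1 : Gm.det = 0 := Matrix.det_eq_zero_of_row_eq_zero i h
    have h2 := (Matrix.isUnit_iff_isUnit_det Gm).1 hGu
    rw [h1] at h2
    exact not_isUnit_zero h2
  choose σ₀ hσ₀ using hne
  have hone : ∀ i, l i * l (σ₀ i) = 1 := fun i => by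
    have h1 := hGl i (σ₀ i)
    exact mul_right_cancel₀ (hσ₀ i) (by rw [h1, one_mul])
  have hl0 : ∀ i, l i ≠ 0 := fun i h => by
    have := hone i
    rw [h, zero_mul] at this
    exact zero_ne_one this
  have huniq : ∀ i j, l i * l j = 1 → j = σ₀ i := fun i j h =>
    hl (mul_left_cancel₀ (hl0 i) (h.trans (hone i).symm))
  have hσσ : ∀ i, σ₀ (σ₀ i) = i := fun i =>
    (huniq (σ₀ i) i (by rw [mul_comm]; exact hone i)).symm
  have hσne : ∀ i, σ₀ i ≠ i := fun i h => by
    have h1 := hσ₀ i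
    rw [h] at h1
    have h2 := hGs i i
    exact h1 (by linear_combination h2 / 2)
  let σ : Equiv.Perm I := ⟨σ₀, σ₀, hσσ, hσσ⟩
  let τ : Equiv.Perm I := ⟨D.τ, D.τ, D.τ_τ, D.τ_τ⟩
  obtain ⟨π, hπ⟩ := exists_conj σ τ hσσ D.τ_τ hσne fun i => (D.odd_τ i (hodd i)).1
  have hπ' : ∀ i, π (D.τ i) = σ₀ (π i) := hπ
  -- the scalars
  set a : I → ℂ := fun i => Gm (π i) (σ₀ (π i)) with ha
  have ha0 : ∀ i, a i ≠ 0 := fun i => hσ₀ (π i)
  have haτ : ∀ i, a (D.τ i) = -a i := fun i => by
    show Gm (π (D.τ i)) (σ₀ (π (D.τ i))) = -Gm (π i) (σ₀ (π i))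
    rw [hπ', hσσ, hGs]
  set c : I → ℂ := fun i => if D.s i = 1 then (a i)⁻¹ else 1 with hc
  have hcc : ∀ i, c i * c (D.τ i) * a i = D.s i := by
    intro i
    have hs := (D.odd_τ i (hodd i)).2
    rcases D.s_val i with h | h
    · have h1 : c i = (a i)⁻¹ := if_pos h
      have h2 : c (D.τ i) = 1 := if_neg (by rw [hs, h]; norm_num)
      rw [h1, h2, mul_one, inv_mul_cancel₀ (ha0 i), h]
    · have h1 : c i = 1 := if_neg (by rw [h]; norm_num)
      have h2 : c (D.τ i) = (a (D.τ i))⁻¹ := if_pos (by rw [hs, h]; norm_num)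
      rw [h1, h2, haτ, h, one_mul, ← neg_inv, neg_mul, inv_mul_cancel₀ (ha0 i)]
  refine ⟨Matrix.of fun b i => c i * V b (π i), π, ⟨fun i j h => absurd (htyp i j) h, ?_⟩, ?_, ?_⟩
  · ext i j
    have h1 : ((Matrix.of fun b i => c i * V b (π i)).transpose * Psi D *
        (Matrix.of fun b i => c i * V b (π i))) i j = c i * c j * Gm (π i) (π j) := by
      rw [hGm, Matrix.mul_apply, Matrix.mul_apply, Finset.mul_sum]
      refine Finset.sum_congr rfl fun b _ => ?_
      rw [Matrix.mul_apply, Matrix.mul_apply, Finset.sum_mul, Finset.sum_mul, Finset.mul_sum]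
      refine Finset.sum_congr rfl fun b' _ => ?_
      rw [Matrix.transpose_apply, Matrix.transpose_apply, Matrix.of_apply, Matrix.of_apply]
      ring
    rw [h1, Psi_apply]
    by_cases h : j = D.τ i
    · subst h
      rw [if_pos rfl, hπ', ← hcc i]
    · rw [if_neg h]
      have h2 : Gm (π i) (π j) = 0 := by
        by_contra h3
        have h4 := hGl (π i) (π j)
        have h5 : l (π i) * l (π j) = 1 := mul_right_cancel₀ h3 (by rw [h4, one_mul])
        have h6 := huniq _ _ h5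
        rw [← hπ'] at h6
        exact h (π.injective h6)
      rw [h2, mul_zero]
  · ext b i
    rw [Matrix.mul_diagonal, Matrix.mul_apply]
    have h1 := congrFun (congrFun hFV b) (π i)
    rw [Matrix.mul_diagonal, Matrix.mul_apply] at h1
    rw [Matrix.of_apply, Function.comp_apply, mul_assoc, ← h1, Finset.mul_sum]
    refine Finset.sum_congr rfl fun b' _ => ?_
    rw [Matrix.of_apply]
    ring
  · intro i
    rw [hπ', mul_comm]
    exact hone (π i)

end basis

section transport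

variable {D : Dat I Λ} {Y : Matrix I I ℂ}

theorem gT_zero (a1 : Alg1) (g : Matrix I I ℂ) {L : ℕ} : gT g (0 : Ten I L) = 0 := by
  have h := a1.gT_smul g (0 : ℂ) (0 : Ten I L)
  rwa [zero_smul, zero_smul] at h

theorem gT_perm (g : Matrix I I ℂ) {L : ℕ} (σ : Equiv.Perm (Fin L)) (u : Ten I L) :
    gT g (permT σ u) = permT σ (gT g u) := by
  funext w
  simp only [gT, permT]
  refine Fintype.sum_equiv (Equiv.arrowCongr σ.symm (Equiv.refl I)) _ _ fun w' => ?_
  have h1 : (Equiv.arrowCongr σ.symm (Equiv.refl I)) w' = w' ∘ σ := by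
    funext i
    rfl
  rw [h1]
  congr 1
  refine (Fintype.prod_equiv σ _ _ fun i => ?_).symm
  rfl

theorem gT_const (g : Matrix I I ℂ) (u : Ten I 0) : gT g u = u := by
  funext w
  rw [gT, Fintype.sum_unique]
  have h1 : (default : Fin 0 → I) = w := Subsingleton.elim _ _
  rw [h1, Fin.prod_univ_zero, one_mul]

/-- `J₀ J₀` on tensors of odd letters -/
theorem jT_jT (D : Dat I Λ) (hodd : ∀ i, D.odd (D.typ i)) {L : ℕ} (u : Ten I L) :
    jT D (jT D u) = (-1 : ℂ) ^ L • u := by
  funext w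
  have h1 : D.τ ∘ (D.τ ∘ w) = w := funext fun i => D.τ_τ (w i)
  have h2 : (starRingEnd ℂ) (sg D w) = sg D w := by
    rw [sg, map_prod]
    refine Finset.prod_congr rfl fun i _ => ?_
    rcases D.s_val (w i) with h | h <;> rw [h] <;> simp
  have h3 : sg D (D.τ ∘ w) * sg D w = (-1) ^ L := by
    rw [sg, sg, ← Finset.prod_mul_distrib]
    rw [Finset.prod_congr rfl fun i _ => show D.s ((D.τ ∘ w) i) * D.s (w i) = -1 by
      rw [Function.comp_apply, (D.odd_τ (w i) (hodd (w i))).2]
      have := s_sq D (w i)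
      linear_combination -this]
    rw [Finset.prod_const, Finset.card_univ, Fintype.card_fin]
  show sg D (D.τ ∘ w) * (starRingEnd ℂ) (sg D (D.τ ∘ (D.τ ∘ w)) *
    (starRingEnd ℂ) (u (D.τ ∘ (D.τ ∘ w)))) = (-1) ^ L * u w
  rw [h1, map_mul, Complex.conj_conj, h2, ← h3]
  ring

theorem psi_outer_gT (a1 : Alg1) (hY : IsG D Y) {L : ℕ} (u : Ten I L) :
    gT Y (gT Y⁻¹ u) = u := by
  rw [← a1.gT_mul, (a1.G_inv D Y hY).2.1, a1.gT_one]

theorem gT_inv_gT (a1 : Alg1) (hY : IsG D Y) {L : ℕ} (u : Ten I L) :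
    gT Y⁻¹ (gT Y u) = u := by
  rw [← a1.gT_mul, (a1.G_inv D Y hY).2.2, a1.gT_one]

/-- transport of a system -/
theorem asys (a1 : Alg1) (a2 : Alg2) (hodd : ∀ i, D.odd (D.typ i)) (hY : IsG D Y)
    {At : (L : ℕ) → Ten I L → Prop} (S : ASys D At) : ASys D fun L u => At L (gT Y u) where
  zero L := by rw [gT_zero a1]; exact S.zero L
  add L u v hu hv := by rw [a1.gT_add]; exact S.add L _ _ hu hv
  qsmul L q u hu := by rw [a1.gT_smul]; exact S.qsmul L q _ hu
  one := by rw [gT_const]; exact S.one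
  rat u hu := by rw [gT_const] at hu; exact S.rat u hu
  perm L σ u hu := by rw [gT_perm]; exact S.perm L σ _ hu
  outer p q u v hu hv := by rw [a2.outer_gT]; exact S.outer p q _ _ hu hv
  cont p c u m hu hm := by rw [a2.cont_gT D Y u m hY]; exact S.cont p c _ _ hu hm
  om α := by rw [a2.om_gT D Y α hY]; exact S.om α
  even L u hu := by
    have h1 := S.even L _ hu
    rw [jT_jT D hodd] at h1 ⊢
    rw [← a1.gT_smul] at h1
    have h2 := congrArg (gT Y⁻¹) h1
    rwa [gT_inv_gT a1 hY, gT_inv_gT a1 hY] at h2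

theorem rsys (a1 : Alg1) (a2 : Alg2) (hY : IsG D Y)
    {Bt : (L : ℕ) → Ten I L → Prop} (S : RSys D Bt) : RSys D fun L u => Bt L (gT Y u) where
  one := by rw [gT_const]; exact S.one
  real u hu := by rw [gT_const] at hu; exact S.real u hu
  perm L σ u hu := by rw [gT_perm]; exact S.perm L σ _ hu
  outer p q u v hu hv := by rw [a2.outer_gT]; exact S.outer p q _ _ hu hv
  cont p c u m hu hm := by rw [a2.cont_gT D Y u m hY]; exact S.cont p c _ _ hu hm
  om α := by rw [a2.om_gT D Y α hY]; exact S.om α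

/-- tensors of length `2` as matrices -/
theorem gT_two (g : Matrix I I ℂ) (u : Ten I 2) (w : Fin 2 → I) :
    gT g u w = ∑ a, ∑ b, g (w 0) a * g (w 1) b * u ![a, b] := by
  rw [gT, ← (finTwoArrowEquiv I).symm.sum_comp, Fintype.sum_prod_type]
  refine Finset.sum_congr rfl fun a _ => Finset.sum_congr rfl fun b _ => ?_
  rw [Fin.prod_univ_two]
  rfl

theorem mten_eq (D : Dat I Λ) (F : Matrix I I ℂ) (w : Fin 2 → I) :
    mten D F w = (F * Psi D) (w 0) (w 1) := by
  rw [Matrix.mul_apply, Finset.sum_eq_single (D.τ (w 1))]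
  · rw [Psi_apply, D.τ_τ, if_pos rfl]
    rfl
  · intro b _ hb
    rw [Psi_apply, if_neg fun h => hb (by rw [h, D.τ_τ]), mul_zero]
  · intro h
    exact absurd (Finset.mem_univ _) h

theorem gten_eq (D : Dat I Λ) (l : I → ℂ) (w : Fin 2 → I) :
    gten D l w = (Matrix.diagonal l * Psi D) (w 0) (w 1) := by
  rw [Matrix.diagonal_mul, Psi_apply, gten]
  by_cases h : w 1 = D.τ (w 0)
  · rw [if_pos h, if_pos h]
  · rw [if_neg h, if_neg h, mul_zero]

theorem Psi_out (D : Dat I Λ) (hodd : ∀ i, D.odd (D.typ i)) {Y : Matrix I I ℂ} (hY : IsG D Y) :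
    Y * Psi D * Y.transpose = Psi D := by
  have h1 : Y.transpose * Psi D * Y = Psi D := hY.2
  have h2 : Y * (-Psi D) * Y.transpose * Psi D = 1 := by
    have h3 : (-Psi D) * Y.transpose * Psi D * Y = 1 := by
      have : (-Psi D) * Y.transpose * Psi D * Y = (-Psi D) * (Y.transpose * Psi D * Y) := by
        simp only [Matrix.mul_assoc]
      rw [this, h1, Matrix.neg_mul, ← Matrix.mul_neg, Psi_sq D hodd]
    have h4 : Y * ((-Psi D) * Y.transpose * Psi D) = 1 := mul_eq_one_comm.1 h3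
    rw [← h4]
    simp only [Matrix.mul_assoc]
  have h5 : Y * (-Psi D) * Y.transpose = -Psi D := by
    have h6 : Y * (-Psi D) * Y.transpose * Psi D * (-Psi D) = -Psi D := by rw [h2, one_mul]
    rwa [Matrix.mul_assoc, Psi_sq D hodd, Matrix.mul_one] at h6
  rw [Matrix.mul_neg, Matrix.neg_mul] at h5
  exact neg_injective h5

theorem gT_gten (hodd : ∀ i, D.odd (D.typ i)) (hY : IsG D Y) {F : Matrix I I ℂ} {l : I → ℂ}
    (h : F * Y = Y * Matrix.diagonal l) : gT Y (gten D l) = mten D F := by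
  funext w
  rw [gT_two, mten_eq, ← Psi_out D hodd hY, ← Matrix.mul_assoc, ← Matrix.mul_assoc, h,
    Matrix.mul_assoc Y, Matrix.mul_apply]
  rw [Finset.sum_comm]
  refine Finset.sum_congr rfl fun b _ => ?_
  rw [Matrix.mul_apply, Finset.sum_mul]
  refine Finset.sum_congr rfl fun a _ => ?_
  rw [gten_eq, Matrix.transpose_apply]
  have h0 : (![a, b] : Fin 2 → I) 0 = a := rfl
  have h1 : (![a, b] : Fin 2 → I) 1 = b := rfl
  rw [h0, h1]
  ring

end transport

/-- THEOREM E for a matrix of Frobenius. -/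
theorem ofMat (a1 : Alg1) (a2 : Alg2) (hE : ThmEStatement) (D : Dat I Λ)
    (At Bt : (L : ℕ) → Ten I L → Prop) (F : Matrix I I ℂ) (l : I → ℂ) (Γ : Set (Matrix I I ℂ))
    (S : MSys D At Bt F l Γ) (L : ℕ) (u : Ten I L) (hu : u ∈ Submodule.span ℝ {u | At L u})
    (hu0 : u ≠ 0) : ∃ r : ℝ, 0 < r ∧ psiT D u u = (r : ℂ) := by
  have hl : Function.Injective l := fun i j h => by
    by_contra hij
    exact S.ratio i j hij 1 one_pos (by rw [pow_one, pow_one, h])
  obtain ⟨Y, π, hY, hFY, hlπ⟩ := exists_basis D S.odd S.typ_eq F S.frob l hl S.eig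
  obtain ⟨hY1, hY2, hY3⟩ := a1.G_inv D Y hY
  have hinj : ∀ {L : ℕ} {u v : Ten I L}, gT Y u = gT Y v → u = v := fun h => by
    have := congrArg (gT Y⁻¹) h
    rwa [gT_inv_gT a1 hY, gT_inv_gT a1 hY] at this
  let At' : (L : ℕ) → Ten I L → Prop := fun L u => At L (gT Y u)
  let gL : (L : ℕ) → Ten I L →ₗ[ℂ] Ten I L := fun L =>
    { toFun := gT Y, map_add' := a1.gT_add Y, map_smul' := fun c u => a1.gT_smul Y c u }
  let gR : (L : ℕ) → Ten I L →ₗ[ℝ] Ten I L := fun L => (gL L).restrictScalars ℝ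
  have himg : ∀ L, (gL L) '' {u | At' L u} = {u | At L u} := by
    intro L
    ext v
    constructor
    · rintro ⟨w, hw, rfl⟩
      exact hw
    · intro hv
      refine ⟨gT Y⁻¹ v, ?_, psi_outer_gT a1 hY v⟩
      show At L (gT Y (gT Y⁻¹ v))
      rw [psi_outer_gT a1 hY]
      exact hv
  have hspan : ∀ L, (Submodule.span ℂ {u | At' L u}).map (gL L)
      = Submodule.span ℂ {u | At L u} := fun L => by rw [Submodule.map_span, himg]
  have hspanR : ∀ L, (Submodule.span ℝ {u | At' L u}).map (gR L)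
      = Submodule.span ℝ {u | At L u} := fun L => by
    rw [Submodule.map_span]
    exact congrArg (Submodule.span ℝ) (himg L)
  have hES : ESys D At' (fun L u => Bt L (gT Y u)) (l ∘ π)
      {x' | ∃ x ∈ Γ, x' = Y⁻¹ * x * Y} :=
    { sys := asys a1 a2 S.odd hY S.sys
      typ_eq := S.typ_eq
      odd := S.odd
      norm := fun i => S.norm (π i)
      tau := fun i => hlπ i
      ratio := fun i j hij n hn => S.ratio _ _ (fun h => hij (π.injective h)) n hn
      fix := by
        intro L u hu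
        apply hinj
        rw [← a1.gT_mul, ← hFY, a1.gT_mul]
        exact S.fix L _ hu
      rsys := rsys a1 a2 hY S.rsys
      sub := fun L u hu => S.sub L _ hu
      gten := by
        show Bt 2 (gT Y (E.gten D (l ∘ π)))
        rw [gT_gten S.odd hY hFY]
        exact S.mten
      grp := by
        rintro _ ⟨x, hx, rfl⟩
        exact a1.G_mul D _ _ (a1.G_mul D _ _ hY1 (S.grp x hx)) hY
      gfix := by
        rintro _ ⟨x, hx, rfl⟩ L u hu
        apply hinj
        rw [a1.gT_mul, a1.gT_mul, psi_outer_gT a1 hY]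
        exact S.gfix x hx L _ hu
      orbit := by
        intro U hU
        have hYb : ∀ V : Submodule ℂ (I → ℂ), (V.map (Matrix.toLin' Y)).map (Matrix.toLin' Y⁻¹)
            = V := fun V => by
          rw [← Submodule.map_comp, ← Matrix.toLin'_mul, hY3, Matrix.toLin'_one,
            Submodule.map_id]
        have hYb' : ∀ V : Submodule ℂ (I → ℂ), (V.map (Matrix.toLin' Y⁻¹)).map (Matrix.toLin' Y)
            = V := fun V => by
          rw [← Submodule.map_comp, ← Matrix.toLin'_mul, hY2, Matrix.toLin'_one,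
            Submodule.map_id]
        have h1 := S.orbit (U.map (Matrix.toLin' Y)) (by
          refine Set.Finite.subset (hU.image fun V => V.map (Matrix.toLin' Y)) ?_
          rintro _ ⟨x, hx, rfl⟩
          refine ⟨U.map (Matrix.toLin' (Y⁻¹ * x * Y)), ⟨_, ⟨x, hx, rfl⟩, rfl⟩, ?_⟩
          show (U.map (Matrix.toLin' (Y⁻¹ * x * Y))).map (Matrix.toLin' Y) = _
          rw [← Submodule.map_comp, ← Submodule.map_comp, ← Matrix.toLin'_mul,
            ← Matrix.toLin'_mul, ← Matrix.mul_assoc, ← Matrix.mul_assoc, hY2, Matrix.one_mul])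
        rcases h1 with h | h
        · left
          rw [← hYb U, h, Submodule.map_bot]
        · right
          rw [← hYb U, h, Submodule.map_top, LinearMap.range_eq_top]
          intro v
          refine ⟨Y.mulVec v, ?_⟩
          rw [Matrix.toLin'_apply, Matrix.mulVec_mulVec, hY3, Matrix.one_mulVec]
      nd := by
        intro L u hu hu0
        have h1 : gT Y u ∈ Submodule.span ℂ {u | At L u} := by
          rw [← hspan L]
          exact ⟨u, hu, rfl⟩
        have h2 : gT Y u ≠ 0 := fun h => hu0 (hinj (h.trans (gT_zero a1 Y).symm))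
        obtain ⟨v, hv, hv0⟩ := S.nd L _ h1 h2
        rw [← hspan L] at hv
        obtain ⟨v', hv', rfl⟩ := hv
        refine ⟨v', hv', ?_⟩
        rw [← a1.psiT_gT D Y u v' hY]
        exact hv0 }
  rw [← hspanR L] at hu
  obtain ⟨u', hu', rfl⟩ := hu
  have h1 := hE D At' _ _ _ hES L u' hu' (fun h => hu0 (by rw [h, map_zero]))
  obtain ⟨r, hr, h2⟩ := h1
  refine ⟨r, hr, ?_⟩
  rw [← h2]
  exact a1.psiT_gT D Y u' u' hY

end Pool.Agent.Lib.MP_361a6f_ag.FL.E
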