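import Pool.Agent.Lib.MP_361a6f_ag.FL.E.Sub
import Pool.Agent.Lib.MP_361a6f_ag.FL.E.Mat
import Pool.Agent.Lib.MP_361a6f_ag.FL.C.Gam
import Pool.Agent.Lib.MP_361a6f_ag.FL.B.HrO
import Pool.Agent.Lib.MP_361a6f_ag.FL.AtRow
import Pool.Agent.Lib.MP_361a6f_ag.FL.Al2
import Pool.Agent.Lib.MP_361a6f_ag.FL.Alg1

/-!
# Theorem E, row G5: Frobenius

`F` is a family of operators on the cohomology of the powers of `X`, compatible with exterior
products, and `F` on `X` is a symmetry of weight `q`. The matrix `gam` of the normalised operator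
has blocks, its block on the letter `(0, 1)` lies in the group, it fixes the coordinates of the
classes of degree `2 l` that `F` multiplies by `q^l`, and if `F` on `X` is the pull-back along an
endomorphism of `X`, then the tensor of this block is a real multiple of the coordinates of an
algebraic class.
-/

open CategoryTheory AlgebraicGeometry MonoidalCategory CartesianMonoidalCategory

universe u w

set_option autoImplicit false
set_option linter.unusedSectionVars false

namespace Pool.Agent.Lib.MP_361a6f_ag.FL.E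

open Pool.Agent.Lib.MP_361a6f_ag.H3 Pool.Agent.Lib.MP_361a6f_ag.SQ
  Pool.Agent.Lib.MP_361a6f_ag.PP

noncomputable section

section abs

variable {I Λ : Type} [Fintype I] [DecidableEq I] [DecidableEq Λ] (D : Dat I Λ)

theorem mten_smul (c : ℂ) (M : Matrix I I ℂ) : mten D (c • M) = c • mten D M := by
  funext w
  simp only [mten, Matrix.smul_apply, Pi.smul_apply, smul_eq_mul, mul_assoc]

/-- a matrix in the first slot of a tensor of length `2` -/
def slot0 (M : Matrix I I ℂ) : Ten I 2 →ₗ[ℂ] Ten I 2 where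
  toFun u := fun w => ∑ j, M (w 0) j * u ![j, w 1]
  map_add' u v := by
    funext w
    simp only [Pi.add_apply, mul_add, Finset.sum_add_distrib]
  map_smul' c u := by
    funext w
    simp only [Pi.smul_apply, smul_eq_mul, RingHom.id_apply, Finset.mul_sum]
    exact Finset.sum_congr rfl fun j _ => by ring

theorem slot0_apply (M : Matrix I I ℂ) (u : Ten I 2) (w : Fin 2 → I) :
    slot0 M u w = ∑ j, M (w 0) j * u ![j, w 1] := rfl

variable {D}

theorem slot0_om {M : Matrix I I ℂ} (hM : ∀ i j, D.typ i ≠ D.typ j → M i j = 0) (α : Λ) :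
    slot0 M (om D α) = ext0 D α (mten (subD D α) (blk M)) := by
  refine eq_ext0 (fun w => ?_) fun w hw => ?_
  · rw [slot0_apply, Finset.sum_eq_single (D.τ (up w 1))]
    · rw [om, if_pos]
      · rfl
      · refine ⟨?_, ?_⟩
        · rw [Matrix.cons_val_zero, D.typ_τ]
          exact (w 1).2
        · rw [Matrix.cons_val_zero, D.τ_τ]
          rfl
    · intro j _ hj
      rw [om, if_neg, mul_zero]
      rintro ⟨-, h⟩
      apply hj
      have h1 : up w 1 = D.τ j := h
      rw [h1, D.τ_τ]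
    · intro h
      exact absurd (Finset.mem_univ _) h
  · rw [slot0_apply]
    refine Finset.sum_eq_zero fun j _ => ?_
    by_cases h : D.typ (w 0) = D.typ j
    · rw [om, if_neg, mul_zero]
      rintro ⟨h1, h2⟩
      have h1' : D.typ j = α := h1
      have h2' : w 1 = D.τ j := h2
      refine hw fun i => ?_
      fin_cases i
      · exact h.trans h1'
      · change D.typ (w 1) = α
        rw [h2', D.typ_τ, h1']
    · rw [hM _ _ h, zero_mul]

end abs

section one

variable {k : Type u} [Field k] {W : CohomologyData.{u, 0, w} k ℂ} {𝒱 : VarietyClass k}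
  (hW : IsWeilCohomology W 𝒱) {X : Sch k} {n : ℕ} (hX : 𝒱.mem X n) {ξ : W.coh X}
  (hpos : PositiveDivisor W X n ξ) {Lam : Module.End ℂ (W.coh X)} (D : LamData W X n ξ Lam)
  {q : ℚ} (hq : (q : ℂ) ≠ 0) {φ : W.coh X →ₗ[ℂ] W.coh X} (hφ : SymStr W X n ξ q φ)

include hq hφ in
/-- a symmetry and the form `Tr(ξ^(n-1) x)` -/
theorem tr_scale (hn : 1 ≤ n) (x : W.coh X) :
    W.tr X (ξ ^ (n - 1) * φ x) = (q : ℂ) * W.tr X (ξ ^ (n - 1) * x) := by
  have hm : ∀ x y : W.coh X, φ (x * y) = φ x * φ y := hφ.cup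
  have ht : ∀ x : W.coh X, W.tr X (φ x) = (q : ℂ) ^ n * W.tr X x := hφ.tr
  have h3 : φ ξ = (q : ℂ) • ξ := hφ.pol
  have hp : ∀ (r : ℕ) (y : W.coh X), φ (ξ ^ r * y) = (q : ℂ) ^ r • (ξ ^ r * φ y) := by
    intro r
    induction r with
    | zero => intro y; simp
    | succ r ih =>
      intro y
      rw [pow_succ, mul_assoc, ih, hm, h3, smul_mul_assoc, mul_smul_comm, smul_smul, pow_succ,
        mul_assoc]
  have h4 := ht (ξ ^ (n - 1) * x)
  rw [hp, map_smul, smul_eq_mul] at h4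
  have h5 : (q : ℂ) ^ n = (q : ℂ) ^ (n - 1) * q := by
    rw [← pow_succ]
    congr 1
    omega
  rw [h5, mul_assoc] at h4
  exact mul_left_cancel₀ (pow_ne_zero _ hq) h4

include hW hX hpos hq hφ in
theorem psi_scale (hn : 1 ≤ n) {v w : W.coh X} (hw : w ∈ W.gr X 1) :
    psi W X ξ Lam D.slm.internal (φ v) (φ w) = (q : ℂ) * psi W X ξ Lam D.slm.internal v w := by
  have hm : ∀ x y : W.coh X, φ (x * y) = φ x * φ y := hφ.cup
  have hw' : φ w ∈ W.gr X 1 := hφ.deg 1 w hw
  rw [psi_one hW hX hpos D hn _ hw', psi_one hW hX hpos D hn _ hw, ← hm,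
    tr_scale hq hφ hn]
  ring

include hW hX hpos hq hφ in
/-- the matrix of a symmetry in an adapted basis of `H^1` -/
theorem psi_mat {I : Type} [Fintype I] [DecidableEq I] (hn : 1 ≤ n) (e : I → W.coh X)
    (he : ∀ i, e i ∈ W.gr X 1) (Ps M : Matrix I I ℂ)
    (hpsi : ∀ i j, psi W X ξ Lam D.slm.internal (e i) (e j) = Ps i j) {s : ℂ}
    (hs2 : s ^ 2 = (q : ℂ)) (hM : ∀ j, φ (e j) = s • ∑ i, M i j • e i) :
    M.transpose * Ps * M = Ps := by
  ext i j
  have h1 := psi_scale hW hX hpos D hq hφ hn (v := e i) (he j)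
  rw [hpsi, hM i, hM j] at h1
  have hb : psi W X ξ Lam D.slm.internal (s • ∑ k, M k i • e k) (s • ∑ l, M l j • e l)
      = s * (s * ∑ k, M k i * ∑ l, M l j * Ps k l) := by
    rw [psi, map_smul, map_sum, smul_mul_assoc, mul_smul_comm, map_smul, map_smul, smul_eq_mul,
      smul_eq_mul, Finset.sum_mul, map_sum]
    congr 2
    refine Finset.sum_congr rfl fun k _ => ?_
    rw [smul_mul_assoc, map_smul, smul_eq_mul, Finset.mul_sum, map_sum]
    congr 1
    refine Finset.sum_congr rfl fun l _ => ?_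
    rw [map_smul, mul_smul_comm, map_smul, smul_eq_mul, ← hpsi, psi]
  rw [hb, ← mul_assoc, ← pow_two, hs2] at h1
  rw [← mul_left_cancel₀ hq h1, Matrix.mul_assoc, Matrix.mul_apply]
  refine Finset.sum_congr rfl fun k _ => ?_
  rw [Matrix.transpose_apply, Matrix.mul_apply]
  congr 1
  refine Finset.sum_congr rfl fun l _ => ?_
  rw [mul_comm]

end one

variable {k : Type u} [Field k] {W : CohomologyData.{u, 0, w} k ℂ} {𝒱 : VarietyClass k}
  (H : Host W 𝒱 1) {F : ∀ P : Prd 1, W.coh (P.obj H.X) →ₗ[ℂ] W.coh (P.obj H.X)} {q : ℚ} {s : ℂ}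
  (hs : s ≠ 0) (hs2 : s ^ 2 = (q : ℂ))
  (hF : ∀ a, SymStr W (H.X a) (H.n a) (H.ξ a) q (F (.leaf a)))
  (hFp : ∀ (P Q : Prd 1) (y : W.coh (P.obj H.X)) (z : W.coh (Q.obj H.X)),
    F (.prod P Q) (W.ext y z) = W.ext (F P y) (F Q z))

include hF in
/-- the matrix has blocks -/
theorem gam_blocks (i j : H.I) (h : H.D.typ i ≠ H.D.typ j) : PhiF.gam H s F i j = 0 :=
  PhiF.gam_letters H (ge H) staB hF i j h

include hs hs2 hF hFp in
/-- the coordinates of a class of degree `2 l` that is multiplied by `q^l` are fixed -/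
theorem gam_fix (P : Prd 1) {l : ℕ} {z : W.coh (P.obj H.X)} (hz : z ∈ W.gr (P.obj H.X) (2 * l))
    (hFz : F P z = (q : ℂ) ^ l • z) : gT (PhiF.gam H s F) (H.tc P z) = H.tc P z := by
  have h1 := PhiF.tc_F H (ge H) staB alg1 alg2 hs hF hFp P hz
  rw [hFz, map_smul, pow_mul, hs2] at h1
  have h2 : (q : ℂ) ^ l ≠ 0 := by
    rw [← hs2]
    exact pow_ne_zero _ (pow_ne_zero _ hs)
  have h3 := congrArg (fun u => ((q : ℂ) ^ l)⁻¹ • u) h1
  simp only [smul_smul, inv_mul_cancel₀ h2, one_smul] at h3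
  exact h3.symm

include hs hF in
/-- the matrix of `F` on `H^1` -/
theorem F_one (j : Sub H.D (0, 1)) (φ : W.coh (H.X 0) →ₗ[ℂ] W.coh (H.X 0))
    (hφ : φ = F (.leaf 0)) : φ (H.e 0 (j : H.I)) =
      s • ∑ i : Sub H.D (0, 1), PhiF.gam H s F i j • H.e 0 (i : H.I) := by
  have hinj : Function.Injective (H.tc (.leaf 0)) := (ge H).inj (.leaf 0)
  let T : W.coh (H.X 0) →ₗ[ℂ] Ten H.I 1 := H.tc (.leaf 0)
  have hT : Function.Injective T := hinj
  apply hT
  funext w
  have h0 : T (φ (H.e 0 (j : H.I))) w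
      = if (H.D.typ j).1 = 0 then s ^ (H.D.typ j).2 * PhiF.gam H s F (w 0) j else 0 := by
    rw [hφ]
    exact PhiF.tc_F_e H (ge H) staB hs hF 0 (j : H.I) w
  rw [h0, if_pos (by rw [j.2]), map_smul, map_sum, Pi.smul_apply, Finset.sum_apply, j.2, pow_one,
    smul_eq_mul]
  congr 1
  have h1 : ∀ i : Sub H.D (0, 1), (T (PhiF.gam H s F i j • H.e 0 (i : H.I))) w
      = if w 0 = (i : H.I) then PhiF.gam H s F i j else 0 := by
    intro i
    have h2 : T (H.e 0 (i : H.I)) w
        = if (H.D.typ i).1 = 0 ∧ w 0 = (i : H.I) then 1 else 0 :=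
      GC.tc_e H 0 (i : H.I) w
    rw [map_smul, Pi.smul_apply, smul_eq_mul, h2]
    by_cases h3 : w 0 = (i : H.I)
    · rw [if_pos ⟨by rw [i.2], h3⟩, if_pos h3, mul_one]
    · rw [if_neg fun h => h3 h.2, if_neg h3, mul_zero]
  rw [Finset.sum_congr rfl fun i _ => h1 i]
  by_cases hw : H.D.typ (w 0) = (0, 1)
  · rw [Finset.sum_eq_single ⟨w 0, hw⟩]
    · rw [if_pos rfl]
    · intro i _ hi
      rw [if_neg]
      intro h
      exact hi (Subtype.ext h.symm)
    · intro h
      exact absurd (Finset.mem_univ _) h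
  · rw [gam_blocks H hF _ _ (by rw [j.2]; exact hw), Finset.sum_eq_zero]
    intro i _
    rw [if_neg]
    intro h
    exact hw (by rw [h, i.2])

include hs hs2 hF in
/-- the block on the letter `(0, 1)` lies in the group -/
theorem gam_one (hpos : PositiveDivisor W (H.X 0) (H.n 0) (H.ξ 0)) :
    IsG (subD H.D (0, 1)) (blk (PhiF.gam H s F) : Matrix (Sub H.D (0, 1)) (Sub H.D (0, 1)) ℂ) := by
  have hX := H.mem 0
  have hq : (q : ℂ) ≠ 0 := by
    rw [← hs2]
    exact pow_ne_zero _ hs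
  refine ⟨fun i j h => absurd (i.2.trans j.2.symm) h, ?_⟩
  have hgr : ∀ j : Sub H.D (0, 1), H.e 0 (j : H.I) ∈ W.gr (H.X 0) 1 := by
    intro j
    have h := H.e_gr 0 (j : H.I)
    rwa [j.2] at h
  have hpsi : ∀ i j : Sub H.D (0, 1),
      psi W (H.X 0) (H.ξ 0) (H.Lam 0) (H.lam 0).slm.internal (H.e 0 (i : H.I)) (H.e 0 (j : H.I))
        = Psi (subD H.D (0, 1)) i j := by
    intro i j
    rw [H.e_psi 0 i j (by rw [i.2]) (by rw [j.2]), Psi, Matrix.of_apply]
    by_cases h : (j : H.I) = H.D.τ i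
    · rw [if_pos h, if_pos (Subtype.ext h)]
      rfl
    · rw [if_neg h, if_neg fun e => h (congrArg Subtype.val e)]
  rcases isEmpty_or_nonempty (Sub H.D (0, 1)) with hE | ⟨⟨i⟩⟩
  · ext i j
    exact hE.elim i
  have hg : 1 ≤ H.n 0 := by
    by_contra hg
    have h1 : H.e 0 (i : H.I) = 0 := H.hW.top_gr hX (hgr i) (by omega)
    have h2 := H.e_psi 0 i (H.D.τ i) (by rw [i.2]) (by rw [H.D.typ_τ, i.2])
    rw [if_pos rfl, h1, psi, zero_mul, map_zero] at h2
    rcases H.D.s_val i with h | h <;> rw [h] at h2 <;> norm_num at h2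
  exact psi_mat H.hW hX hpos (H.lam 0) hq (hF 0) hg (fun i : Sub H.D (0, 1) => H.e 0 (i : H.I))
    hgr _ _ hpsi hs2 fun j => F_one H hs hF j _ rfl

/-! ### The tensor of the block -/

include hs hF in
/-- `(f × 1)^*` acts on the first slot -/
theorem tc_first (f : H.X 0 ⟶ H.X 0) (hf : ∀ z : W.coh (H.X 0), F (.leaf 0) z = W.pull f z)
    (T : W.coh (H.X 0 ⊗ H.X 0) →ₗ[ℂ] Ten H.I 2) (hT : T = H.tc (.prod (.leaf 0) (.leaf 0)))
    (z : W.coh (H.X 0 ⊗ H.X 0)) :
    T (W.pull (lift (fst (H.X 0) (H.X 0) ≫ f) (snd (H.X 0) (H.X 0))) z)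
      = slot0 (Matrix.of fun i j => s ^ (H.D.typ j).2 * PhiF.gam H s F i j) (T z) := by
  let T1 : W.coh (H.X 0) →ₗ[ℂ] Ten H.I 1 := H.tc (.leaf 0)
  have hTo : ∀ x y : W.coh (H.X 0), T (W.pull (fst (H.X 0) (H.X 0)) x *
      W.pull (snd (H.X 0) (H.X 0)) y) = (outer (T1 x) (T1 y) : Ten H.I (1 + 1)) := by
    rw [hT]
    exact (ge H).tc_outer (.leaf 0) (.leaf 0)
  have ha : ∀ a : Fin 1, a = 0 := fun a => Subsingleton.elim _ _
  have h1 : ∀ (x : H.I) (v : Fin 1 → H.I), T1 (W.pull f (H.e 0 x)) v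
      = s ^ (H.D.typ x).2 * PhiF.gam H s F (v 0) x := by
    intro x v
    rw [← hf]
    have h := PhiF.tc_F_e H (ge H) staB hs hF 0 x v
    rw [if_pos (ha _)] at h
    exact h
  have h2 : ∀ (x : H.I) (v : Fin 1 → H.I), T1 (H.e 0 x) v = if v 0 = x then 1 else 0 := by
    intro x v
    have h : T1 (H.e 0 x) v = if (H.D.typ x).1 = 0 ∧ v 0 = x then 1 else 0 :=
      GC.tc_e H 0 x v
    rw [h]
    by_cases hv : v 0 = x
    · rw [if_pos ⟨ha _, hv⟩, if_pos hv]
    · rw [if_neg fun h => hv h.2, if_neg hv]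
  have hex : z = ∑ w : Fin 2 → H.I, T z w • (W.pull (fst (H.X 0) (H.X 0)) (H.e 0 (w 0)) *
      W.pull (snd (H.X 0) (H.X 0)) (H.e 0 (w 1))) := by
    rw [hT]
    exact (ge H).expand (.prod (.leaf 0) (.leaf 0)) z
  -- both sides on the exterior products of basis vectors
  have hkey : ∀ x y : H.I, T (W.pull (lift (fst (H.X 0) (H.X 0) ≫ f) (snd (H.X 0) (H.X 0)))
      (W.pull (fst (H.X 0) (H.X 0)) (H.e 0 x) * W.pull (snd (H.X 0) (H.X 0)) (H.e 0 y)))
      = slot0 (Matrix.of fun i j => s ^ (H.D.typ j).2 * PhiF.gam H s F i j)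
        (T (W.pull (fst (H.X 0) (H.X 0)) (H.e 0 x) *
          W.pull (snd (H.X 0) (H.X 0)) (H.e 0 y))) := by
    intro x y
    rw [map_mul (W.pull _), ← W.pull_comp, ← W.pull_comp, lift_fst, lift_snd, W.pull_comp,
      hTo, hTo]
    funext w
    rw [slot0_apply, Finset.sum_eq_single x]
    · show T1 (W.pull f (H.e 0 x)) (fun i => w (Fin.castAdd 1 i)) *
          T1 (H.e 0 y) (fun i => w (Fin.natAdd 1 i))
        = Matrix.of (fun i j => s ^ (H.D.typ j).2 * PhiF.gam H s F i j) (w 0) x *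
          (T1 (H.e 0 x) (fun i => (![x, w 1] : Fin 2 → H.I) (Fin.castAdd 1 i)) *
          T1 (H.e 0 y) (fun i => (![x, w 1] : Fin 2 → H.I) (Fin.natAdd 1 i)))
      rw [h1, h2, h2, h2, Matrix.of_apply, if_pos (show (![x, w 1] : Fin 2 → H.I)
        (Fin.castAdd 1 0) = x from rfl), one_mul]
      rfl
    · intro j _ hj
      show Matrix.of (fun i j => s ^ (H.D.typ j).2 * PhiF.gam H s F i j) (w 0) j *
          (T1 (H.e 0 x) (fun i => (![j, w 1] : Fin 2 → H.I) (Fin.castAdd 1 i)) *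
          T1 (H.e 0 y) (fun i => (![j, w 1] : Fin 2 → H.I) (Fin.natAdd 1 i))) = 0
      rw [h2, if_neg (show ¬ (![j, w 1] : Fin 2 → H.I) (Fin.castAdd 1 0) = x from hj), zero_mul,
        mul_zero]
    · intro h
      exact absurd (Finset.mem_univ _) h
  conv_lhs => rw [hex]
  conv_rhs => rw [hex]
  rw [map_sum, map_sum, map_sum, map_sum]
  refine Finset.sum_congr rfl fun w _ => ?_
  rw [map_smul, map_smul, map_smul, map_smul, hkey]

include hs hF in
/-- The tensor of the block is `s⁻¹` times the coordinates of an algebraic class. -/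
theorem mten_mem (f : H.X 0 ⟶ H.X 0) (hf : ∀ z : W.coh (H.X 0), F (.leaf 0) z = W.pull f z) :
    ∃ u ∈ H.At 2, ext0 H.D (0, 1) (mten (subD H.D (0, 1)) (blk (PhiF.gam H s F))) = s⁻¹ • u := by
  -- the operator on the first slot preserves the system
  have hall : ∀ u ∈ H.At 2,
      slot0 (Matrix.of fun i j => s ^ (H.D.typ j).2 * PhiF.gam H s F i j) u ∈ H.At 2 := by
    intro u hu
    refine AddSubgroup.closure_induction (p := fun u _ =>
      slot0 (Matrix.of fun i j => s ^ (H.D.typ j).2 * PhiF.gam H s F i j) u ∈ H.At 2)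
      ?_ ?_ ?_ ?_ hu
    · rintro _ (⟨h, -⟩ | ⟨P, hP, z, hz, rfl⟩)
      · exact absurd h (by norm_num)
      · obtain rfl : P = .prod (.leaf 0) (.leaf 0) := by
          rcases P with a | ⟨P, Q⟩
          · have h1 : (1 : ℕ) = 2 := hP
            omega
          · have h1 : P.size + Q.size = 2 := hP
            have h2 := P.size_posC
            have h3 := Q.size_posC
            have hl : ∀ R : Prd 1, R.size = 1 → R = .leaf 0 := by
              intro R hR
              rcases R with a | ⟨R, S⟩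
              · rw [Subsingleton.elim a 0]
              · have h4 : R.size + S.size = 1 := hR
                have h5 := R.size_posC
                have h6 := S.size_posC
                omega
            rw [hl P (by omega), hl Q (by omega)]
        have h1 := tc_first H hs hF f hf (H.tc (.prod (.leaf 0) (.leaf 0))) rfl z
        have h2 : W.pull (lift (fst (H.X 0) (H.X 0) ≫ f) (snd (H.X 0) (H.X 0))) z
            ∈ tot W (H.X 0 ⊗ H.X 0) :=
          tot_pull H.hW (𝒱.prod (H.mem 0) (H.mem 0)) (𝒱.prod (H.mem 0) (H.mem 0)) _ hz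
        have h3 := GC.tc_mem H (P := .prod (.leaf 0) (.leaf 0)) h2
        have h4 : (H.tc (.prod (.leaf 0) (.leaf 0)))
            (W.pull (lift (fst (H.X 0) (H.X 0) ≫ f) (snd (H.X 0) (H.X 0))) z) ∈ H.At 2 := h3
        exact (congrArg (fun u : Ten H.I 2 => u ∈ H.At 2) h1).mp h4
    · rw [map_zero]
      exact zero_mem _
    · intro a b _ _ ha hb
      rw [map_add]
      exact add_mem ha hb
    · intro a _ ha
      rw [map_neg]
      exact neg_mem ha
  refine ⟨_, hall _ ((at_ H).om (0, 1)), ?_⟩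
  rw [slot0_om (D := H.D) (α := (0, 1))]
  · rw [← map_smul, ← mten_smul]
    congr 2
    ext i j
    unfold blk
    rw [Matrix.smul_apply, Matrix.submatrix_apply, Matrix.submatrix_apply, Matrix.of_apply,
      smul_eq_mul, j.2, pow_one, ← mul_assoc, inv_mul_cancel₀ hs, one_mul]
  · intro i j h
    rw [Matrix.of_apply, gam_blocks H hF i j h, mul_zero]

end

end Pool.Agent.Lib.MP_361a6f_ag.FL.E
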