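import Pool.Agent.Lib.MP_361a6f_ag.FL.E.DefsP
import Pool.Agent.Lib.MP_361a6f_ag.FL.E.Frob
import Pool.Agent.Lib.MP_361a6f_ag.FL.B.PosL
import Pool.Agent.Lib.MP_361a6f_ag.FL.A.Let
import Pool.Agent.Lib.MP_361a6f_ag.FL.GeoJ
import Pool.Agent.Lib.MP_361a6f_ag.FL.Z.Mot

/-!
# Theorem E+: Hodge index, Tate's theorem and the eigenvalues of Frobenius in coordinates

For a host of one variety `X`, on the letter `(0, 1)`: `ψ` is positive on the algebraic tensors of
length `2` if Q1 holds on `X × X` in codimension `1`; the operators of the algebraic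
correspondences on `H^1(X)` are the operators `opM` of algebraic tensors of length `2`; a matrix
that commutes with these is a polynomial in Frobenius if this is true for the operators on
`H^1(X)`.
-/

open CategoryTheory AlgebraicGeometry MonoidalCategory CartesianMonoidalCategory

universe u w

set_option autoImplicit false
set_option linter.unusedSectionVars false

namespace Pool.Agent.Lib.MP_361a6f_ag.FL.E

open Pool.Agent.Lib.MP_361a6f_ag.H3 Pool.Agent.Lib.MP_361a6f_ag.SQ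
  Pool.Agent.Lib.MP_361a6f_ag.PP

noncomputable section

variable {k : Type u} [Field k] {W : CohomologyData.{u, 0, w} k ℂ} {𝒱 : VarietyClass k}
  (H : Host W 𝒱 1)

/-! ### Hodge index -/

/-- the algebraic tensors over the letter `(0, 1)` -/
abbrev At1 (L : ℕ) (u : Ten (Sub H.D (0, 1)) L) : Prop :=
  atS H.D (0, 1) (fun L u => u ∈ H.At L) L u

theorem lop_pow1 {X : Sch k} (η : W.coh X) (r : ℕ) (x : W.coh X) :
    ((Lop W X η) ^ r) x = η ^ r * x := by
  induction r with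
  | zero => simp
  | succ r ih =>
    rw [pow_succ', Module.End.mul_apply, ih, Lop, LinearMap.mulLeft_apply, pow_succ', mul_assoc]

/-- `ψ(z, z)` for a primitive algebraic class -/
theorem pos_prim (hW : IsWeilCohomology W 𝒱) {Z : Sch k} {e : ℕ} (hZ : 𝒱.mem Z e) {η : W.coh Z}
    {Lam : Module.End ℂ (W.coh Z)} (D : LamData W Z e η Lam) {j : ℕ} (hj : 2 * j ≤ e)
    (hH : HodgeCodim W Z e η j) {z : W.coh Z} (hz : z ∈ W.alg Z j) (hΛ : Lam z = 0)
    (hz0 : z ≠ 0) : RatPos (psi W Z η Lam D.slm.internal z z) := by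
  have hzg := hW.alg_gr hZ hz
  have hprim : η ^ (e - 2 * j + 1) * z = 0 := by
    have := (sl2 D.slm).2.2.2.1 (2 * j) z (by omega) hzg hΛ
    rwa [lop_pow1] at this
  obtain ⟨q, hq, h1⟩ := PSI.star_string sl2 staB D.slm (i := j) hj hzg hΛ 0 (by omega)
  rw [pow_zero, Module.End.one_apply, Nat.sub_zero, lop_pow1] at h1
  obtain ⟨t, ht, h2⟩ := hH hj z hz hprim hz0
  have h3 : (-1 : ℂ) ^ j * W.tr Z (η ^ (e - 2 * j) * (z * z)) = (t : ℂ) := h2
  refine ⟨q * t, mul_pos hq ht, ?_⟩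
  have hzc : z * (η ^ (e - 2 * j) * z) = η ^ (e - 2 * j) * (z * z) := by
    rw [hW.alg_comm hZ hz, mul_assoc]
  rw [psi, h1, mul_smul_comm, map_smul, smul_eq_mul, hzc]
  push_cast
  rw [← h3]
  ring

theorem lam_gr1 {X : Sch k} {n : ℕ} {ξ : W.coh X} {Lam : Module.End ℂ (W.coh X)}
    (D : LamData W X n ξ Lam) {v : W.coh X} (hv : v ∈ W.gr X 1) : Lam v = 0 :=
  D.slm.Λ_low 1 v (by norm_num) hv

/-- **Hodge index**: `ψ` is positive on the algebraic tensors of length `2`. -/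
theorem pos_two (hH : HodgeCodim W (H.X 0 ⊗ H.X 0) (H.n 0 + H.n 0)
      (W.pull (fst (H.X 0) (H.X 0)) (H.ξ 0) + W.pull (snd (H.X 0) (H.X 0)) (H.ξ 0)) 1)
    (u : Ten (Sub H.D (0, 1)) 2) (hu : At1 H 2 u) (h0 : u ≠ 0) :
    RatPos (psiT (subD H.D (0, 1)) u u) := by
  rw [← psiT_ext]
  obtain ⟨z, hz, hzu⟩ := PosL.at_word H (gr ge H) (ge H) (.prod (.leaf 0) (.leaf 0))
    (fun _ => (0, 1)) (fun j => Subsingleton.elim _ _) 1
    (Fin.sum_univ_two (fun _ : Fin 2 => ((0, 1) : Fin 1 × ℕ).2)) hu (fun w hw => ext0_off u hw)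
  have hne : ext0 H.D (0, 1) u ≠ 0 := fun h => h0 (ext0_inj (h.trans (map_zero _).symm))
  -- an index of the letter `(0, 1)`
  obtain ⟨i⟩ : Nonempty (Sub H.D (0, 1)) := by
    by_contra hE
    apply h0
    funext w
    exact absurd ⟨w 0⟩ hE
  have hgr : ∀ j : H.I, H.D.typ j = (0, 1) → H.e 0 j ∈ W.gr (H.X 0) 1 := by
    intro j hj
    have h := H.e_gr 0 j
    rwa [hj] at h
  have hg : 1 ≤ H.n 0 := by
    by_contra hg
    have h1 : H.e 0 (i : H.I) = 0 := H.hW.top_gr (H.mem 0) (hgr _ i.2) (by omega)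
    have h2 := H.e_psi 0 i (H.D.τ i) (by rw [i.2]) (by rw [H.D.typ_τ, i.2])
    rw [if_pos rfl, h1, psi, zero_mul, map_zero] at h2
    rcases H.D.s_val i with h | h <;> rw [h] at h2 <;> norm_num at h2
  have hΛ : H.LamP (.prod (.leaf 0) (.leaf 0)) z = 0 := by
    rw [(ge H).expand (.prod (.leaf 0) (.leaf 0)) z, map_sum]
    refine Finset.sum_eq_zero fun w _ => ?_
    rw [map_smul, hzu]
    by_cases hw : On H.D (0, 1) w
    · have h1 : H.LamP (.prod (.leaf 0) (.leaf 0)) (H.E (.prod (.leaf 0) (.leaf 0)) w) = 0 := by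
        refine (LMP.lamProd_gen H.hW (H.mem 0) (H.mem 0) (H.Lam 0) (H.Lam 0) _ _).trans ?_
        have h2 : H.Lam 0 (H.E (.leaf 0) (fun i => w (Fin.castAdd 1 i))) = 0 :=
          lam_gr1 (H.lam 0) (hgr _ (hw _))
        have h3 : H.Lam 0 (H.E (.leaf 0) (fun i => w (Fin.natAdd 1 i))) = 0 :=
          lam_gr1 (H.lam 0) (hgr _ (hw _))
        have h4 : ∀ a b : W.coh (H.X 0), H.Lam 0 a = 0 → H.Lam 0 b = 0 →
            W.pull (fst (H.X 0) (H.X 0)) (H.Lam 0 a) * W.pull (snd (H.X 0) (H.X 0)) b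
              + W.pull (fst (H.X 0) (H.X 0)) a * W.pull (snd (H.X 0) (H.X 0)) (H.Lam 0 b) = 0 := by
          intro a b ha hb
          rw [ha, hb, map_zero, map_zero, zero_mul, mul_zero, add_zero]
        exact h4 _ _ h2 h3
      rw [h1, smul_zero]
    · rw [ext0_off u hw, zero_smul]
  rw [← hzu]
  have h5 := (ge H).psi_tc (.prod (.leaf 0) (.leaf 0)) z z
  have h6 := pos_prim H.hW (H.memP (.prod (.leaf 0) (.leaf 0)))
    (H.lamP (.prod (.leaf 0) (.leaf 0))).1 (j := 1)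
    (show 2 * 1 ≤ H.n 0 + H.n 0 by omega) hH hz hΛ (by
      intro h
      apply hne
      rw [← hzu, h]
      exact map_zero _)
  have h7 : RatPos (H.psiP (.prod (.leaf 0) (.leaf 0)) z z) := h6
  rw [← h5] at h7
  exact h7

/-! ### The operators of the algebraic correspondences -/

/-- the coordinates on `H(X)` -/
def tcl : W.coh (H.X 0) →ₗ[ℂ] Ten H.I 1 := H.tc (.leaf 0)

theorem tc1_e (x : H.I) (v : Fin 1 → H.I) (T : W.coh (H.X 0) →ₗ[ℂ] Ten H.I 1)
    (hT : T = H.tc (.leaf 0)) : T (H.e 0 x) v = if v 0 = x then 1 else 0 := by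
  have h : T (H.e 0 x) v = if (H.D.typ x).1 = 0 ∧ v 0 = x then 1 else 0 := by
    rw [hT]
    exact GC.tc_e H 0 x v
  rw [h]
  by_cases hv : v 0 = x
  · rw [if_pos ⟨Subsingleton.elim _ _, hv⟩, if_pos hv]
  · rw [if_neg fun h => hv h.2, if_neg hv]

/-- the coordinates of the image of a basis vector under an algebraic operator -/
theorem op_mat {f : W.coh (H.X 0) →ₗ[ℂ] W.coh (H.X 0)} (hf : AlgCor W (H.X 0) (H.X 0) f)
    (T : W.coh (H.X 0) →ₗ[ℂ] Ten H.I 1) (hT : T = H.tc (.leaf 0)) :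
    ∃ v ∈ H.At 2, ∀ (j : H.I) (w : Fin 1 → H.I), T (f (H.e 0 j)) w = opM H.D v (w 0) j := by
  have hX := H.mem 0
  have hSS : ∀ x, star (H.lam 0).slm.internal (Lop W (H.X 0) (H.ξ 0)) (H.Lam 0)
      (star (H.lam 0).slm.internal (Lop W (H.X 0) (H.ξ 0)) (H.Lam 0) x) = x :=
    (staB (H.lam 0).slm).2.1
  obtain ⟨γ, hγ, h⟩ := AlgCor.comp H.hW hX hX hX hf (algOp_star H.hW hX (H.ξ_alg 0) (H.lam 0))
  obtain ⟨N, a, b, hab⟩ := TRC.exists_sum H.hW hX hX γ
  have h3 : ∀ x, f x = ∑ ν, psi W (H.X 0) (H.ξ 0) (H.Lam 0) (H.lam 0).slm.internal x (a ν)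
      • b ν := by
    intro x
    rw [← GeoJ.cor_sum_star staB H.hW hX hX (H.ξ_alg 0) (H.lam 0), ← hab, cor_apply, ← h,
      LinearMap.comp_apply, hSS]
  -- the coordinates of `γ`
  let T2 : W.coh (H.X 0 ⊗ H.X 0) →ₗ[ℂ] Ten H.I 2 := H.tc (.prod (.leaf 0) (.leaf 0))
  have hTo : ∀ x y : W.coh (H.X 0), T2 (W.pull (fst (H.X 0) (H.X 0)) x *
      W.pull (snd (H.X 0) (H.X 0)) y) = (outer (T x) (T y) : Ten H.I (1 + 1)) := by
    rw [hT]
    exact (ge H).tc_outer (.leaf 0) (.leaf 0)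
  have hγm : T2 γ ∈ H.At 2 := GC.tc_mem H (P := .prod (.leaf 0) (.leaf 0)) hγ
  refine ⟨permT (Equiv.swap 0 1) (T2 γ), (at_ H).perm 2 _ _ hγm, ?_⟩
  intro j w
  -- `ψ(e_j, y)`
  have hpsi : ∀ y : W.coh (H.X 0), psi W (H.X 0) (H.ξ 0) (H.Lam 0) (H.lam 0).slm.internal
      (H.e 0 j) y = H.D.s j * T y (fun _ => H.D.τ j) := by
    intro y
    have h4 : psiT H.D (T (H.e 0 j)) (T y)
        = psi W (H.X 0) (H.ξ 0) (H.Lam 0) (H.lam 0).slm.internal (H.e 0 j) y := by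
      rw [hT]
      exact (ge H).psi_tc (.leaf 0) (H.e 0 j) y
    rw [← h4, psiT, Finset.sum_eq_single (fun _ : Fin 1 => j)]
    · rw [tc1_e H j _ T hT, if_pos rfl, one_mul, sg, Fin.prod_univ_one]
      rfl
    · intro v _ hv
      rw [tc1_e H j _ T hT, if_neg, zero_mul, mul_zero]
      intro h5
      apply hv
      funext i
      rw [Subsingleton.elim i 0, h5]
    · intro h5
      exact absurd (Finset.mem_univ _) h5
  rw [h3, map_sum, Finset.sum_apply]
  have h6 : T2 γ = ∑ ν, (outer (T (a ν)) (T (b ν)) : Ten H.I (1 + 1)) := by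
    rw [hab, map_sum]
    exact Finset.sum_congr rfl fun ν _ => hTo _ _
  have h7 : opM H.D (permT (Equiv.swap 0 1) (T2 γ)) (w 0) j
      = T2 γ ![H.D.τ j, w 0] * H.D.s j := by
    rw [opM, permT]
    congr 2
  rw [h7, h6, Finset.sum_apply, Finset.sum_mul]
  refine Finset.sum_congr rfl fun ν _ => ?_
  rw [map_smul, Pi.smul_apply, smul_eq_mul, hpsi]
  show _ = (T (a ν) (fun i => (![H.D.τ j, w 0] : Fin 2 → H.I) (Fin.castAdd 1 i)) *
    T (b ν) (fun i => (![H.D.τ j, w 0] : Fin 2 → H.I) (Fin.natAdd 1 i))) * H.D.s j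
  have h8 : (fun i : Fin 1 => (![H.D.τ j, w 0] : Fin 2 → H.I) (Fin.castAdd 1 i))
      = fun _ => H.D.τ j := by
    funext i
    rw [Subsingleton.elim i 0]
    rfl
  have h9 : (fun i : Fin 1 => (![H.D.τ j, w 0] : Fin 2 → H.I) (Fin.natAdd 1 i)) = w := by
    funext i
    rw [Subsingleton.elim i 0]
    rfl
  rw [h8, h9]
  ring

/-! ### `H^1` as the space of the vectors over the letter `(0, 1)` -/

/-- the class with given coordinates over the letter `(0, 1)` -/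
def vec1 : (Sub H.D (0, 1) → ℂ) →ₗ[ℂ] W.coh (H.X 0) where
  toFun c := ∑ j, c j • H.e 0 (j : H.I)
  map_add' c d := by
    simp only [Pi.add_apply, add_smul, Finset.sum_add_distrib]
  map_smul' r c := by
    simp only [Pi.smul_apply, smul_eq_mul, mul_smul, RingHom.id_apply, Finset.smul_sum]

theorem vec1_apply (c : Sub H.D (0, 1) → ℂ) : vec1 H c = ∑ j, c j • H.e 0 (j : H.I) := rfl

theorem vec1_gr (c : Sub H.D (0, 1) → ℂ) : vec1 H c ∈ W.gr (H.X 0) 1 := by
  rw [vec1_apply]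
  refine Submodule.sum_mem _ fun j _ => Submodule.smul_mem _ _ ?_
  have h := H.e_gr 0 (j : H.I)
  rwa [j.2] at h

/-- the coordinates over the letter `(0, 1)` -/
def crd1 : W.coh (H.X 0) →ₗ[ℂ] (Sub H.D (0, 1) → ℂ) where
  toFun y := fun j => (tcl H) y (fun _ => (j : H.I))
  map_add' x y := by
    funext j
    exact congrFun (map_add (tcl H) x y) _
  map_smul' r x := by
    funext j
    exact congrFun (map_smul (tcl H) r x) _

theorem crd1_vec1 (c : Sub H.D (0, 1) → ℂ) : crd1 H (vec1 H c) = c := by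
  rw [vec1_apply, map_sum]
  funext i
  rw [Finset.sum_apply, Finset.sum_eq_single i]
  · rw [map_smul, Pi.smul_apply, smul_eq_mul]
    have h : crd1 H (H.e 0 (i : H.I)) i = 1 := by
      refine (tc1_e H (i : H.I) (fun _ => (i : H.I)) (tcl H) rfl).trans ?_
      rw [if_pos rfl]
    rw [h, mul_one]
  · intro j _ hj
    rw [map_smul, Pi.smul_apply, smul_eq_mul]
    have h : crd1 H (H.e 0 (j : H.I)) i = 0 := by
      refine (tc1_e H (j : H.I) (fun _ => (i : H.I)) (tcl H) rfl).trans ?_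
      rw [if_neg fun e => hj (Subtype.ext e.symm)]
    rw [h, mul_zero]
  · intro h
    exact absurd (Finset.mem_univ _) h

theorem vec1_crd1 {y : W.coh (H.X 0)} (hy : y ∈ W.gr (H.X 0) 1) : vec1 H (crd1 H y) = y := by
  have hinj : Function.Injective (tcl H) :=
    (ge H).inj (.leaf 0)
  apply hinj
  refine funext fun (w : Fin 1 → H.I) => ?_
  by_cases hw : H.D.typ (w 0) = (0, 1)
  · have h1 : crd1 H (vec1 H (crd1 H y)) ⟨w 0, hw⟩ = crd1 H y ⟨w 0, hw⟩ := by
      rw [crd1_vec1]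
    have h2 : (fun _ : Fin 1 => w 0) = w := by
      funext i
      rw [Subsingleton.elim i 0]
    have h3 : ∀ x : W.coh (H.X 0), crd1 H x ⟨w 0, hw⟩
        = (tcl H) x w := fun x =>
      congrArg ((tcl H) x) h2
    rw [← h3, ← h3]
    exact h1
  · have h1 : ∀ x ∈ W.gr (H.X 0) 1,
        (tcl H) x w = 0 := by
      intro x hx
      refine GJ.tc_gr H (ge H) staB (.leaf 0) hx w ?_
      intro h
      apply hw
      have h4 : (H.D.typ (w 0)).2 = 1 := (Fin.sum_univ_one fun i : Fin 1 =>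
        (H.D.typ (w i)).2).symm.trans h
      exact Prod.ext (Subsingleton.elim _ _) h4
    rw [h1 _ (vec1_gr H _), h1 _ hy]

/-- an operator with matrix `M` over the letter `(0, 1)` -/
theorem op_vec1 {f : W.coh (H.X 0) →ₗ[ℂ] W.coh (H.X 0)} (hf : ∀ v ∈ W.gr (H.X 0) 1,
      f v ∈ W.gr (H.X 0) 1) {M : Matrix (Sub H.D (0, 1)) (Sub H.D (0, 1)) ℂ}
    (hM : ∀ i j : Sub H.D (0, 1), tcl H (f (H.e 0 (j : H.I))) (fun _ => (i : H.I)) = M i j)
    (c : Sub H.D (0, 1) → ℂ) : f (vec1 H c) = vec1 H (M.mulVec c) := by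
  have h1 : vec1 H (crd1 H (f (vec1 H c))) = f (vec1 H c) := vec1_crd1 H (hf _ (vec1_gr H c))
  rw [← h1]
  congr 1
  funext i
  have h2 : crd1 H (f (vec1 H c)) i = tcl H (f (vec1 H c)) (fun _ => (i : H.I)) := rfl
  rw [h2, vec1_apply, map_sum, map_sum, Finset.sum_apply, Matrix.mulVec, dotProduct]
  refine Finset.sum_congr rfl fun j _ => ?_
  rw [map_smul, map_smul, Pi.smul_apply, smul_eq_mul, hM, mul_comm]

/-- the operator of an algebraic correspondence of degree zero on `H^1` -/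
theorem cor_vec1 {z : W.coh (H.X 0 ⊗ H.X 0)} (hz : z ∈ W.alg (H.X 0 ⊗ H.X 0) (H.n 0)) :
    ∃ v, At1 H 2 v ∧ ∀ c, cor W z (vec1 H c) = vec1 H ((opM (subD H.D (0, 1)) v).mulVec c) := by
  have hX := H.mem 0
  have hXX := 𝒱.prod hX hX
  obtain ⟨v, hv, h⟩ := op_mat H (cor_algCor (alg_le_tot H.hW _ _ hz)) (tcl H) rfl
  have h1 := LET.at_letters H (fun _ : Fin 2 => ((0, 1) : Fin 1 × ℕ)) hv
  refine ⟨res H.D (0, 1) v, ?_, ?_⟩
  · show ext0 H.D (0, 1) (res H.D (0, 1) v) ∈ H.At 2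
    rw [ext_res]
    have e : (fun w : Fin 2 → H.I => if On H.D (0, 1) w then v w else 0)
        = fun w => if ∀ i, H.D.typ (w i) = (0, 1) then v w else 0 := by
      funext w
      by_cases hw : On H.D (0, 1) w
      · rw [if_pos hw]
        exact (if_pos hw).symm
      · rw [if_neg hw]
        exact (if_neg hw).symm
    rw [e]
    exact h1
  · refine op_vec1 H ?_ ?_
    · intro y hy
      rw [cor_apply]
      refine MotZ.push_gr H.hW hXX hX _ (i := 1 + 2 * H.n 0) (by ring) ?_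
      exact H.hW.mul_gr hXX (H.hW.pull_gr hXX hX _ hy) (H.hW.alg_gr hXX hz)
    · intro i j
      rw [h, opM, opM]
      show v ![(i : H.I), H.D.τ j] * H.D.s j = res H.D (0, 1) v ![i, (subD H.D (0, 1)).τ j] * _
      congr 1
      show v _ = v (up ![i, (subD H.D (0, 1)).τ j])
      congr 1
      funext l
      fin_cases l
      · rfl
      · rfl

variable {F : ∀ P : Prd 1, W.coh (P.obj H.X) →ₗ[ℂ] W.coh (P.obj H.X)} {q : ℚ} {s : ℂ}
  (hs : s ≠ 0) (hF : ∀ a, SymStr W (H.X a) (H.n a) (H.ξ a) q (F (.leaf a)))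
  (φ : Module.End ℂ (W.coh (H.X 0))) (hφ : φ = F (.leaf 0))

include hs hF hφ in
theorem frob_vec1 (c : Sub H.D (0, 1) → ℂ) :
    φ (vec1 H c) = vec1 H ((s • blk (PhiF.gam H s F)).mulVec c) := by
  rw [vec1_apply, map_sum, vec1_apply]
  have h1 : ∀ j : Sub H.D (0, 1), φ (c j • H.e 0 (j : H.I))
      = ∑ i : Sub H.D (0, 1), (s * PhiF.gam H s F i j * c j) • H.e 0 (i : H.I) := by
    intro j
    rw [map_smul, F_one H hs hF j φ hφ, Finset.smul_sum, Finset.smul_sum]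
    refine Finset.sum_congr rfl fun i _ => ?_
    rw [smul_smul, smul_smul]
    congr 1
    ring
  rw [Finset.sum_congr rfl fun j _ => h1 j, Finset.sum_comm]
  refine Finset.sum_congr rfl fun i _ => ?_
  rw [← Finset.sum_smul]
  rfl

include hs hF hφ in
theorem frob_poly (p : Polynomial ℂ) (c : Sub H.D (0, 1) → ℂ) :
    Polynomial.aeval φ p (vec1 H c)
      = vec1 H ((Polynomial.aeval (s • blk (PhiF.gam H s F) :
        Matrix (Sub H.D (0, 1)) (Sub H.D (0, 1)) ℂ) p).mulVec c) := by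
  induction p using Polynomial.induction_on generalizing c with
  | C a =>
    rw [Polynomial.aeval_C, Polynomial.aeval_C, Algebra.algebraMap_eq_smul_one,
      Algebra.algebraMap_eq_smul_one, Matrix.smul_mulVec, Matrix.one_mulVec, map_smul]
    rfl
  | add p r hp hr =>
    rw [map_add, map_add, LinearMap.add_apply, hp, hr, Matrix.add_mulVec, map_add]
  | monomial n a h =>
    rw [pow_succ, ← mul_assoc, map_mul (Polynomial.aeval φ) (_ * _) Polynomial.X,
      map_mul (Polynomial.aeval (_ : Matrix (Sub H.D (0, 1)) (Sub H.D (0, 1)) ℂ)) (_ * _)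
        Polynomial.X, Polynomial.aeval_X, Polynomial.aeval_X,
      Module.End.mul_apply, frob_vec1 H hs hF φ hφ, h, Matrix.mulVec_mulVec]

include hs hF hφ in
/-- **Tate's theorem in coordinates.** -/
theorem comm_of_tate
    (hT : ∀ A : Module.End ℂ (W.coh (H.X 0)), (∀ v ∈ W.gr (H.X 0) 1, A v ∈ W.gr (H.X 0) 1) →
      (∀ z ∈ W.alg (H.X 0 ⊗ H.X 0) (H.n 0), ∀ v ∈ W.gr (H.X 0) 1,
        A (cor W z v) = cor W z (A v)) →
      ∃ p : Polynomial ℂ, ∀ v ∈ W.gr (H.X 0) 1, A v = Polynomial.aeval φ p v)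
    (x : Matrix (Sub H.D (0, 1)) (Sub H.D (0, 1)) ℂ)
    (hx : ∀ v, At1 H 2 v → x * opM (subD H.D (0, 1)) v = opM (subD H.D (0, 1)) v * x) :
    ∃ p : Polynomial ℂ, x = Polynomial.aeval (blk (PhiF.gam H s F) :
      Matrix (Sub H.D (0, 1)) (Sub H.D (0, 1)) ℂ) p := by
  let A : Module.End ℂ (W.coh (H.X 0)) := vec1 H ∘ₗ Matrix.mulVecLin x ∘ₗ crd1 H
  have hA : ∀ c, A (vec1 H c) = vec1 H (x.mulVec c) := by
    intro c
    show vec1 H (Matrix.mulVecLin x (crd1 H (vec1 H c))) = _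
    rw [crd1_vec1]
    rfl
  obtain ⟨p, hp⟩ := hT A (fun v _ => vec1_gr H _) (by
    intro z hz v hv
    obtain ⟨m, hm, h⟩ := cor_vec1 H hz
    rw [← vec1_crd1 H hv, h, hA, hA, h, Matrix.mulVec_mulVec, Matrix.mulVec_mulVec, hx m hm])
  refine ⟨p.comp (Polynomial.C s * Polynomial.X), ?_⟩
  have h1 : x = Polynomial.aeval (s • blk (PhiF.gam H s F) :
      Matrix (Sub H.D (0, 1)) (Sub H.D (0, 1)) ℂ) p := by
    have h2 : ∀ c, x.mulVec c = (Polynomial.aeval (s • blk (PhiF.gam H s F) :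
        Matrix (Sub H.D (0, 1)) (Sub H.D (0, 1)) ℂ) p).mulVec c := by
      intro c
      have h3 := hp _ (vec1_gr H c)
      rw [hA, frob_poly H hs hF φ hφ] at h3
      have h4 := congrArg (crd1 H) h3
      rwa [crd1_vec1, crd1_vec1] at h4
    exact Matrix.mulVec_injective (funext h2)
  rw [h1, Polynomial.aeval_comp, map_mul, Polynomial.aeval_C, Polynomial.aeval_X,
    Algebra.algebraMap_eq_smul_one, smul_mul_assoc, one_mul]

include hs hF hφ in
/-- the eigenvalues of Frobenius -/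
theorem ratio_of (hR : ∀ a b : ℂ, (∃ v ∈ W.gr (H.X 0) 1, v ≠ 0 ∧ φ v = a • v) →
      (∃ v ∈ W.gr (H.X 0) 1, v ≠ 0 ∧ φ v = b • v) → a ≠ b → ∀ n : ℕ, 0 < n → a ^ n ≠ b ^ n)
    (μ ν : ℂ) (hμ : Module.End.HasEigenvalue (Matrix.toLin' (blk (PhiF.gam H s F) :
      Matrix (Sub H.D (0, 1)) (Sub H.D (0, 1)) ℂ)) μ)
    (hν : Module.End.HasEigenvalue (Matrix.toLin' (blk (PhiF.gam H s F) :
      Matrix (Sub H.D (0, 1)) (Sub H.D (0, 1)) ℂ)) ν) (h : μ ≠ ν) (n : ℕ) (hn : 0 < n) :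
    μ ^ n ≠ ν ^ n := by
  have hex : ∀ ρ : ℂ, Module.End.HasEigenvalue (Matrix.toLin' (blk (PhiF.gam H s F) :
      Matrix (Sub H.D (0, 1)) (Sub H.D (0, 1)) ℂ)) ρ →
      ∃ v ∈ W.gr (H.X 0) 1, v ≠ 0 ∧ φ v = (s * ρ) • v := by
    intro ρ hρ
    obtain ⟨c, hc⟩ := hρ.exists_hasEigenvector
    have hc1 : (blk (PhiF.gam H s F) :
      Matrix (Sub H.D (0, 1)) (Sub H.D (0, 1)) ℂ).mulVec c = ρ • c := hc.apply_eq_smul
    refine ⟨vec1 H c, vec1_gr H c, ?_, ?_⟩
    · intro h0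
      apply hc.2
      rw [← crd1_vec1 H c, h0, map_zero]
    · rw [frob_vec1 H hs hF φ hφ, Matrix.smul_mulVec, hc1, smul_smul, map_smul]
  have h1 := hR _ _ (hex μ hμ) (hex ν hν) (fun e => h (mul_left_cancel₀ hs e)) n hn
  intro e
  apply h1
  rw [mul_pow, mul_pow, e]

end

end Pool.Agent.Lib.MP_361a6f_ag.FL.E
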