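import Pool.Agent.Lib.MP_361a6f_ag.FL.E.Fam
import Pool.Agent.Lib.MP_361a6f_ag.FL.E.Tate

/-!
# Theorem E: the matrices of the symmetries on `H^1`
-/

open CategoryTheory AlgebraicGeometry MonoidalCategory CartesianMonoidalCategory

universe u w

set_option autoImplicit false

namespace Pool.Agent.Lib.MP_361a6f_ag.FL.E

open Pool.Agent.Lib.MP_361a6f_ag.H3 Pool.Agent.Lib.MP_361a6f_ag.SQ
  Pool.Agent.Lib.MP_361a6f_ag.PP

variable {k : Type u} [Field k] {W : CohomologyData.{u, 0, w} k ℂ} {𝒱 : VarietyClass k}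

/-- the matrices of the symmetries on `H^1` -/
def Gam (H : Host W 𝒱 1) : Set (Matrix (Sub H.D (0, 1)) (Sub H.D (0, 1)) ℂ) :=
  {M | ∃ T, SymF W H.X T ∧ ∀ c, (T (.leaf 0) (vec1 H c) : W.coh (H.X 0)) = vec1 H (M.mulVec c)}

end Pool.Agent.Lib.MP_361a6f_ag.FL.E
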