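import Pool.Agent.Lib.MP_361a6f_ag.FL.E.StatG

/-!
# The general law for all algebraic classes
-/

open CategoryTheory AlgebraicGeometry MonoidalCategory CartesianMonoidalCategory

universe u v w w'

namespace Pool.Agent.Lib.MP_361a6f_ag.FL.EQ

open Pool.Agent.Lib.MP_361a6f_ag.H3 Pool.Agent.Lib.MP_361a6f_ag.SQ

variable {k : Type u} [Field k]

/-- A symmetry of the coefficients: the maps `κ P` of the cohomology of the powers of `X` are
semilinear with respect to the automorphism `τ` of `ℂ`, `κ (P × Q)` is the tensor product of `κ P`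
and `κ Q`, the degree on `X` is preserved and all algebraic classes are fixed. (For `ℓ`-adic
cohomology: `id ⊗ τ` on `H ⊗ ℂ` for an automorphism `τ` of `ℂ` over `ℚ_ℓ`.) -/
structure IsCoef (W : CohomologyData.{u, 0, w} k ℂ) (X : Sch k) (τ : ℂ ≃+* ℂ)
    (κ : ∀ P : Prd 1, W.coh (pw X P) → W.coh (pw X P)) : Prop where
  add : ∀ P x y, κ P (x + y) = κ P x + κ P y
  scal : ∀ P c x, κ P (W.scal c x) = W.scal (τ c) (κ P x)
  ext : ∀ P Q y x, κ (.prod P Q) (W.ext y x) = W.ext (κ P y) (κ Q x)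
  deg : ∀ i x, W.Deg X i x → W.Deg X i (κ (.leaf 0) x)
  alg : ∀ P l z, W.IsAlg (pw X P) l z → κ P z = z

/-- No stable subspace `U` of `H^1(X)` except `0` satisfies `Tr(ξ^(n-1) x κ(y)) = 0` for all
`x, y` in `U`. (For abelian varieties: `τ` induces on the centre of the endomorphism algebra the
complex conjugation.) -/
def NoIsotropicFor (W : CohomologyData.{u, 0, w} k ℂ) (X : Sch k) (n : ℕ) (ξ : W.coh X)
    (κ : W.coh X → W.coh X) : Prop :=
  ∀ U, Stable W X n U →
    (∀ x ∈ U, ∀ y ∈ U, W.Tr (W.cup (ξ ^ (n - 1)) (W.cup x (κ y))) = 0) → U = ⊥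

end Pool.Agent.Lib.MP_361a6f_ag.FL.EQ

namespace Pool.Agent.Lib.MP_361a6f_ag.FL

open Pool.Agent.Lib.MP_361a6f_ag.H3 Pool.Agent.Lib.MP_361a6f_ag.SQ

/-- **The general law for all algebraic classes.** Let `κ` be a symmetry of the coefficients for
which `H^1(X)` has no isotropic stable subspace except `0`. Then numerical equivalence is
homological equivalence on all powers of `X`, and there is one central isometry `C` of the powers
of `X`, an involution on all algebraic classes, such that for every power `Y` of `X`, of dimension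
`m`, and every polarisation `η` of product type: `(-1)^j Tr(η^(m-2j) x C(x)) > 0` for all primitive
`x ≠ 0` in the real span of the algebraic classes of codimension `j`. -/
def ThmGAGeoStatement : Prop :=
  ∀ {k : Type u} [Field k] (W : CohomologyData.{u, 0, w} k ℂ) (𝒱 : VarietyClass k)
    (_ : IsWeilCohomology W 𝒱) {k' : Type v} [Field k'] (W' : CohomologyData.{v, 0, w'} k' ℂ)
    (𝒱' : VarietyClass k') (_ : IsWeilCohomology W' 𝒱') (D : EQ.Data W W') (_ : EQ.Hyp 𝒱 𝒱' D)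
    (_ : EQ.Isotypic W D.X D.g) (τ : ℂ ≃+* ℂ)
    (κ : ∀ P : Prd 1, W.coh (EQ.pw D.X P) → W.coh (EQ.pw D.X P)) (_ : EQ.IsCoef W D.X τ κ)
    (_ : EQ.NoIsotropicFor W D.X D.g D.ξ (κ (.leaf 0))),
    (∀ P, EQ.NumHom W (EQ.pw D.X P)) ∧
    ∃ C : ∀ P : Prd 1, W.coh (EQ.pw D.X P) → W.coh (EQ.pw D.X P),
      EQ.IsCentral W D.X D.g D.ξ C ∧
      (∀ P l z, W.IsAlg (EQ.pw D.X P) l z → C P (C P z) = z) ∧
      ∀ (P : Prd 1) (η : W.coh (EQ.pw D.X P)) (_ : IsPol W (fun _ => D.ξ) P η) (j : ℕ),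
        2 * j ≤ P.dim (fun _ => D.g) →
          ∀ x ∈ Submodule.span ℝ {z | W.IsAlg (EQ.pw D.X P) j z},
          W.cup (η ^ (P.dim (fun _ => D.g) - 2 * j + 1)) x = 0 → x ≠ 0 → ∃ r : ℝ, 0 < r ∧
            (-1) ^ j * W.Tr (W.cup (η ^ (P.dim (fun _ => D.g) - 2 * j)) (W.cup x (C P x))) =
              (r : ℂ)

end Pool.Agent.Lib.MP_361a6f_ag.FL
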