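import Pool.Agent.Lib.MP_361a6f_ag.FL.E.SymM
import Pool.Agent.Lib.MP_361a6f_ag.FL.E.Gam
import Pool.Agent.Lib.MP_361a6f_ag.FL.E.AsmF
import Pool.Agent.Lib.MP_361a6f_ag.FL.E.StatGA

/-!
# The matrix of a symmetry of the coefficients

For a semilinear family `κ` that fixes the algebraic classes: `κ` is given on the coordinates by
`τ` and a matrix, which belongs to the group.
-/

open CategoryTheory AlgebraicGeometry MonoidalCategory CartesianMonoidalCategory

universe u v w w'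

set_option autoImplicit false
set_option linter.unusedSectionVars false

namespace Pool.Agent.Lib.MP_361a6f_ag.FL.E

open Pool.Agent.Lib.MP_361a6f_ag.H3 Pool.Agent.Lib.MP_361a6f_ag.SQ
  Pool.Agent.Lib.MP_361a6f_ag.PP

noncomputable section

namespace KapM

/-- `τ` on the coordinates -/
def tt {I : Type} (τ : ℂ ≃+* ℂ) {L : ℕ} (u : Ten I L) : Ten I L := fun w => τ (u w)

section abs

variable {I Λ : Type} [Fintype I] [DecidableEq I] [DecidableEq Λ] {D : Dat I Λ} (τ : ℂ ≃+* ℂ)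

theorem tt_add {L : ℕ} (a b : Ten I L) : tt τ (a + b) = tt τ a + tt τ b :=
  funext fun w => map_add τ (a w) (b w)

theorem tt_zero {L : ℕ} : tt τ (0 : Ten I L) = 0 := funext fun _ => map_zero τ

theorem tt_neg {L : ℕ} (a : Ten I L) : tt τ (-a) = -tt τ a := funext fun w => map_neg τ (a w)

theorem tt_smul {L : ℕ} (c : ℂ) (a : Ten I L) : tt τ (c • a) = τ c • tt τ a :=
  funext fun w => map_mul τ c (a w)

theorem tt_outer {L L' : ℕ} (a : Ten I L) (b : Ten I L') :
    tt τ (outer a b) = outer (tt τ a) (tt τ b) := by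
  funext w
  unfold tt outer
  rw [map_mul]

theorem tau_s (i : I) : τ (D.s i) = D.s i := by
  have h := AL2.s_mul_s (D := D) i
  have h1 : (D.s i - 1) * (D.s i + 1) = 0 := by
    ring_nf
    rw [pow_two, h]
    ring
  rcases mul_eq_zero.1 h1 with h2 | h2
  · rw [sub_eq_zero.1 h2, map_one]
  · rw [eq_neg_of_add_eq_zero_left h2, map_neg, map_one]

theorem tt_om (α : Λ) : tt τ (om D α) = om D α := by
  funext w
  unfold tt om
  split_ifs
  · exact tau_s τ _
  · exact map_zero τ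

theorem tt_ext {α : Λ} {L : ℕ} (u : Ten (Sub D α) L) : tt τ (ext0 D α u) = ext0 D α (tt τ u) := by
  refine eq_ext0 (fun w => ?_) fun w hw => ?_
  · show τ (ext0 D α u (up w)) = τ (u w)
    rw [ext0_up]
  · show τ (ext0 D α u w) = 0
    rw [ext0_off u hw, map_zero]

end abs

variable {k : Type u} [Field k]

/-- a semilinear family that fixes the algebraic classes -/
structure KapF (W : CohomologyData.{u, 0, w} k ℂ) (X : Fin 1 → Sch k) (τ : ℂ ≃+* ℂ)
    (κ : ∀ P : Prd 1, W.coh (P.obj X) → W.coh (P.obj X)) : Prop where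
  add : ∀ P x y, κ P (x + y) = κ P x + κ P y
  smul : ∀ (P : Prd 1) (c : ℂ) (x : W.coh (P.obj X)), κ P (c • x) = τ c • κ P x
  ext : ∀ (P Q : Prd 1) (y : W.coh (P.obj X)) (x : W.coh (Q.obj X)),
    κ (.prod P Q) (W.pull (fst (P.obj X) (Q.obj X)) y * W.pull (snd (P.obj X) (Q.obj X)) x)
      = W.pull (fst (P.obj X) (Q.obj X)) (κ P y) * W.pull (snd (P.obj X) (Q.obj X)) (κ Q x)
  deg : ∀ i (x : W.coh (X 0)), x ∈ W.gr (X 0) i → (κ (.leaf 0) x : W.coh (X 0)) ∈ W.gr (X 0) i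
  alg : ∀ (P : Prd 1) (l : ℕ) (z : W.coh (P.obj X)), z ∈ W.alg (P.obj X) l → κ P z = z

variable {W : CohomologyData.{u, 0, w} k ℂ} {𝒱 : VarietyClass k} (H : Host W 𝒱 1)
  {τ : ℂ ≃+* ℂ} {κ : ∀ P : Prd 1, W.coh (P.obj H.X) → W.coh (P.obj H.X)}

theorem KapF.zero {X : Fin 1 → Sch k} {κ : ∀ P : Prd 1, W.coh (P.obj X) → W.coh (P.obj X)}
    (hκ : KapF W X τ κ) (P : Prd 1) : κ P 0 = 0 := by
  have h := hκ.smul P 0 0
  rw [zero_smul, map_zero, zero_smul] at h
  exact h

/-- the matrix of `κ` on `H^*(X)` -/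
def mat (κ0 : W.coh (H.X 0) → W.coh (H.X 0)) : Matrix H.I H.I ℂ :=
  fun i j => SymM.tl H (κ0 (H.e 0 j)) fun _ => i

/-- the classes on which `κ` is given by the matrix `M` -/
def loc (hκ : KapF W H.X τ κ) (M : Matrix H.I H.I ℂ) (P : Prd 1) :
    Submodule ℂ (W.coh (P.obj H.X)) where
  carrier := {z | H.tc P (κ P z) = gT M (tt τ (H.tc P z))}
  add_mem' := by
    intro a b ha hb
    show H.tc P (κ P (a + b)) = gT M (tt τ (H.tc P (a + b)))
    rw [hκ.add, map_add, map_add, tt_add, AL1A.gT_add]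
    exact congrArg₂ (· + ·) ha hb
  zero_mem' := by
    show H.tc P (κ P 0) = gT M (tt τ (H.tc P 0))
    rw [hκ.zero, map_zero, tt_zero]
    funext w
    simp [gT]
  smul_mem' := by
    intro c a ha
    show H.tc P (κ P (c • a)) = gT M (tt τ (H.tc P (c • a)))
    rw [hκ.smul, map_smul, map_smul, tt_smul, AL1A.gT_smul]
    exact congrArg (τ c • ·) ha

theorem mem_loc (hκ : KapF W H.X τ κ) (M : Matrix H.I H.I ℂ) (P : Prd 1)
    (z : W.coh (P.obj H.X)) : z ∈ loc H hκ M P ↔ H.tc P (κ P z) = gT M (tt τ (H.tc P z)) :=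
  Iff.rfl

theorem tl_kap (hκ : KapF W H.X τ κ) (z : W.coh (H.X 0)) :
    SymM.tl H (κ (.leaf 0) z) = gT (mat H (κ (.leaf 0))) (tt τ (SymM.tl H z)) := by
  have h := SymM.ind_leaf H (loc H hκ (mat H (κ (.leaf 0))) (.leaf 0)) (by
      intro j
      show SymM.tl H (κ (.leaf 0) (H.e 0 j)) =
        gT (mat H (κ (.leaf 0))) (tt τ (SymM.tl H (H.e 0 j)))
      funext w
      unfold gT
      rw [Finset.sum_eq_single (fun _ => j)]
      · show _ = _ * τ (SymM.tl H (H.e 0 j) fun _ => j)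
        rw [SymM.tl_e, if_pos rfl, map_one, mul_one, Fin.prod_univ_one]
        show SymM.tl H (κ (.leaf 0) (H.e 0 j)) w = SymM.tl H (κ (.leaf 0) (H.e 0 j)) fun _ => w 0
        have hw : w = fun _ => w 0 := by
          funext i
          exact congrArg w (Subsingleton.elim (α := Fin 1) _ _)
        rw [← hw]
      · intro w' _ hw'
        show _ * τ (SymM.tl H (H.e 0 j) w') = 0
        rw [SymM.tl_e, if_neg hw', map_zero, mul_zero]
      · intro h
        exact absurd (Finset.mem_univ _) h)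
  have hz : z ∈ loc H hκ (mat H (κ (.leaf 0))) (.leaf 0) := by
    rw [h]
    trivial
  exact hz

/-- **The coordinates of `κ P z`.** -/
theorem tc_kap (hκ : KapF W H.X τ κ) : ∀ (P : Prd 1) (z : W.coh (P.obj H.X)),
    H.tc P (κ P z) = gT (mat H (κ (.leaf 0))) (tt τ (H.tc P z))
  | .leaf a, z => by
    obtain rfl : a = 0 := Subsingleton.elim _ _
    exact tl_kap H hκ z
  | .prod P Q, z => by
    have h := Ge.ind H (.prod P Q) (loc H hκ (mat H (κ (.leaf 0))) (.prod P Q)) (by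
        intro w₀
        rw [mem_loc]
        show H.tc (.prod P Q) (κ (.prod P Q) (W.pull (fst (P.obj H.X) (Q.obj H.X))
              (H.E P (fun i => w₀ (Fin.castAdd Q.size i)))
            * W.pull (snd (P.obj H.X) (Q.obj H.X)) (H.E Q (fun i => w₀ (Fin.natAdd P.size i)))))
          = gT (mat H (κ (.leaf 0))) (tt τ (H.tc (.prod P Q)
            (W.pull (fst (P.obj H.X) (Q.obj H.X))
              (H.E P (fun i => w₀ (Fin.castAdd Q.size i)))
            * W.pull (snd (P.obj H.X) (Q.obj H.X)) (H.E Q (fun i => w₀ (Fin.natAdd P.size i))))))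
        rw [hκ.ext, Ge.tc_outer, Ge.tc_outer, tc_kap hκ P, tc_kap hκ Q]
        exact (AL2.outer_gT _ _ _).symm.trans (congrArg (gT _) (tt_outer τ _ _).symm))
    have hz : z ∈ (⊤ : Submodule ℂ (W.coh ((Prd.prod P Q).obj H.X))) := trivial
    rw [← h] at hz
    exact hz

/-- the matrix preserves the letters -/
theorem mat_typ (hκ : KapF W H.X τ κ) (i j : H.I) (h : H.D.typ i ≠ H.D.typ j) :
    mat H (κ (.leaf 0)) i j = 0 := by
  refine SymM.tl_deg H (hκ.deg _ _ (H.e_gr 0 j)) i ?_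
  intro e
  exact h (Prod.ext (Subsingleton.elim _ _) e)

/-- **The matrix fixes the coordinates of the algebraic classes.** -/
theorem mat_fix (hκ : KapF W H.X τ κ) (L : ℕ) (u : Ten H.I L) (hu : u ∈ H.At L) :
    gT (mat H (κ (.leaf 0))) (tt τ u) = u := by
  refine AddSubgroup.closure_induction
    (p := fun u _ => gT (mat H (κ (.leaf 0))) (tt τ u) = u) ?_ ?_ ?_ ?_ hu
  · rintro _ (⟨rfl, q, rfl⟩ | ⟨P, rfl, z, hz, rfl⟩)
    · funext w
      simp [gT, tt]
    · have h1 : κ P z = z := by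
        refine tot_induction H.hW (P := fun z => κ P z = z) hz (fun l z hz => hκ.alg P l z hz) ?_
        intro a b ha hb
        rw [hκ.add, ha, hb]
      have h2 := tc_kap H hκ P z
      rw [h1] at h2
      exact h2.symm
  · rw [tt_zero]
    funext w
    simp [gT]
  · intro a b _ _ ha hb
    rw [tt_add, AL1A.gT_add, ha, hb]
  · intro a _ ha
    have h1 := AL1A.gT_smul (mat H (κ (.leaf 0))) (-1) (tt τ a)
    rw [tt_neg, ← neg_one_smul ℂ (tt τ a), h1, ha, neg_one_smul]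

/-- **The matrix belongs to the group.** -/
theorem mat_isG (hat : H.AtFacts) (hκ : KapF W H.X τ κ) :
    IsG H.D (mat H (κ (.leaf 0))) :=
  SymM.isG_of_om H.D (mat_typ H hκ) fun α => by
    have h := mat_fix H hκ 2 _ (hat.om α)
    rwa [tt_om] at h

/-- the values on `H^1` -/
theorem kap_vec1 (hκ : KapF W H.X τ κ) (v : Sub H.D (0, 1) → ℂ) :
    (κ (.leaf 0) (vec1 H v) : W.coh (H.X 0)) =
      vec1 H ((E.blk (mat H (κ (.leaf 0))) : Matrix (Sub H.D (0, 1)) (Sub H.D (0, 1)) ℂ).mulVec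
        fun i => τ (v i)) := by
  let f : W.coh (H.X 0) →+ W.coh (H.X 0) :=
    { toFun := κ (.leaf 0), map_zero' := hκ.zero (.leaf 0), map_add' := hκ.add (.leaf 0) }
  have h0 : f (vec1 H v) = ∑ j : Sub H.D (0, 1), τ (v j) • f (H.e 0 (j : H.I)) := by
    rw [vec1_apply, map_sum]
    exact Finset.sum_congr rfl fun j _ => hκ.smul (.leaf 0) _ _
  have h1 : crd1 H (f (vec1 H v)) =
      (E.blk (mat H (κ (.leaf 0))) : Matrix (Sub H.D (0, 1)) (Sub H.D (0, 1)) ℂ).mulVec
        fun i => τ (v i) := by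
    funext i
    rw [h0, map_sum, Finset.sum_apply]
    unfold Matrix.mulVec dotProduct
    refine Finset.sum_congr rfl fun j _ => ?_
    rw [map_smul, Pi.smul_apply, smul_eq_mul, mul_comm]
    rfl
  rw [← h1]
  exact (vec1_crd1 H (hκ.deg 1 _ (vec1_gr H v))).symm

/-- the coordinates on `H^1` -/
theorem fix1 (hκ : KapF W H.X τ κ) (L : ℕ) (u : Ten (Sub H.D (0, 1)) L) (hu : At1 H L u) :
    gT (E.blk (mat H (κ (.leaf 0))) : Matrix (Sub H.D (0, 1)) (Sub H.D (0, 1)) ℂ)
      (fun w => τ (u w)) = u := by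
  apply ext0_inj
  rw [← gT_ext (mat_typ H hκ)]
  have h := mat_fix H hκ L _ hu
  rw [tt_ext] at h
  exact h

/-- **The matrix of a symmetry of the coefficients.** -/
theorem exists_kap (hκ : KapF W H.X τ κ) :
    ∃ M : Matrix (Sub H.D (0, 1)) (Sub H.D (0, 1)) ℂ, IsG (subD H.D (0, 1)) M ∧
      (∀ L u, At1 H L u → gT M (fun w => τ (u w)) = u) ∧
      ∀ v : Sub H.D (0, 1) → ℂ, (κ (.leaf 0) (vec1 H v) : W.coh (H.X 0)) =
        vec1 H (M.mulVec fun i => τ (v i)) :=
  ⟨_, isG_blk (mat_isG H (at_ H) hκ), fun L u hu => fix1 H hκ L u hu, fun v => kap_vec1 H hκ v⟩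

section hyp

variable {k' : Type v} [Field k'] {W' : CohomologyData.{v, 0, w'} k' ℂ} {𝒱' : VarietyClass k'}
  (hW : IsWeilCohomology W 𝒱) {D : EQ.Data W W'} (h : EQ.Hyp 𝒱 𝒱' D)
  (c : Hst.Core W D.X D.g D.ξ) {κ : ∀ P : Prd 1, W.coh (EQ.pw D.X P) → W.coh (EQ.pw D.X P)}

theorem kapF_of (hκ : EQ.IsCoef W D.X τ κ) : KapF W (fun _ => D.X) τ κ where
  add := hκ.add
  smul := hκ.scal
  ext := hκ.ext
  deg := hκ.deg
  alg := hκ.alg

/-- the same for the data of the public statement -/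
theorem exists_kap_hyp (hκ : EQ.IsCoef W D.X τ κ) :
    ∃ M : Matrix (Sub c.D (0, 1)) (Sub c.D (0, 1)) ℂ, IsG (subD c.D (0, 1)) M ∧
      (∀ L u, At1 (hst hW h c) L u → gT M (fun w => τ (u w)) = u) ∧
      ∀ v : Sub c.D (0, 1) → ℂ, (κ (.leaf 0) (vec1 (hst hW h c) v) : W.coh D.X) =
        vec1 (hst hW h c) (M.mulVec fun i => τ (v i)) :=
  exists_kap (hst hW h c) (kapF_of hκ)

end hyp

end KapM

end

end Pool.Agent.Lib.MP_361a6f_ag.FL.E
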