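import Pool.Agent.Lib.MP_361a6f_ag.FL.E.Gam
import Pool.Agent.Lib.MP_361a6f_ag.FL.E.DefsH
import Pool.Agent.Lib.MP_361a6f_ag.FL.B.HrO

/-!
# Theorem E+, row G8: stable subspaces of `H^1(X)` and of the coordinate space
-/

open CategoryTheory AlgebraicGeometry MonoidalCategory CartesianMonoidalCategory

universe u w

set_option autoImplicit false
set_option linter.unusedSectionVars false

namespace Pool.Agent.Lib.MP_361a6f_ag.FL.E.OrbF

open Pool.Agent.Lib.MP_361a6f_ag.H3 Pool.Agent.Lib.MP_361a6f_ag.SQ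
  Pool.Agent.Lib.MP_361a6f_ag.PP

noncomputable section

variable {k : Type u} [Field k] {W : CohomologyData.{u, 0, w} k ℂ} {𝒱 : VarietyClass k}
  (H : Host W 𝒱 1)

theorem vec1_inj : Function.Injective (vec1 H) := fun c d h => by
  rw [← crd1_vec1 H c, h, crd1_vec1]

theorem range_vec1 : LinearMap.range (vec1 H) = W.gr (H.X 0) 1 := by
  refine le_antisymm ?_ fun y hy => ⟨crd1 H y, vec1_crd1 H hy⟩
  rintro _ ⟨c, rfl⟩
  exact vec1_gr H c

/-- a symmetry has a matrix on `H^1` -/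
theorem exists_mat {T : W.coh (H.X 0) →ₗ[ℂ] W.coh (H.X 0)}
    (hT : ∀ x ∈ W.gr (H.X 0) 1, T x ∈ W.gr (H.X 0) 1) :
    ∃ M : Matrix (Sub H.D (0, 1)) (Sub H.D (0, 1)) ℂ, ∀ c, T (vec1 H c) = vec1 H (M.mulVec c) := by
  refine ⟨LinearMap.toMatrix' (crd1 H ∘ₗ T ∘ₗ vec1 H), fun c => ?_⟩
  rw [← Matrix.toLin'_apply, Matrix.toLin'_toMatrix', LinearMap.comp_apply, LinearMap.comp_apply,
    vec1_crd1 H (hT _ (vec1_gr H c))]

theorem exists_gamF {T : ∀ P : Prd 1, W.coh (P.obj H.X) →ₗ[ℂ] W.coh (P.obj H.X)}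
    (hT : SymF W H.X T) : ∃ M ∈ Gam H, ∀ c,
      (T (.leaf 0) (vec1 H c) : W.coh (H.X 0)) = vec1 H (M.mulVec c) := by
  obtain ⟨M, hM⟩ := exists_mat H (T := T (.leaf 0)) fun x hx => hT.deg 1 x hx
  exact ⟨M, ⟨T, hT, hM⟩, hM⟩

/-- a stable subspace of the coordinate space gives a stable subspace of `H^1(X)` -/
theorem stabF_of {U : Submodule ℂ (Sub H.D (0, 1) → ℂ)}
    (hU : StabU (subD H.D (0, 1)) (At1 H) (Gam H) U) :
    StabF W H.X (H.n 0) (U.map (vec1 H)) where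
  le := by
    rintro _ ⟨v, -, rfl⟩
    exact vec1_gr H v
  act := by
    rintro z hz _ ⟨v, hv, rfl⟩
    obtain ⟨t, ht, h⟩ := cor_vec1 H hz
    exact ⟨_, hU.1 t ht v hv, (h v).symm⟩
  fin := by
    refine (hU.2.image fun U' => ((U'.map (vec1 H) : Submodule ℂ (W.coh (H.X 0))) :
      Set (W.coh (H.X 0)))).subset ?_
    rintro S ⟨T, hT, hS⟩
    obtain ⟨M, hM, hTM⟩ := exists_gamF H hT
    refine ⟨U.map (Matrix.toLin' M), ⟨M, hM, rfl⟩, ?_⟩
    ext y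
    rw [hS y]
    constructor
    · rintro ⟨_, ⟨v, hv, rfl⟩, rfl⟩
      refine ⟨vec1 H v, ⟨v, hv, rfl⟩, ?_⟩
      rw [hTM, Matrix.toLin'_apply]
    · rintro ⟨_, ⟨v, hv, rfl⟩, rfl⟩
      refine ⟨Matrix.toLin' M v, ⟨v, hv, rfl⟩, ?_⟩
      rw [hTM, Matrix.toLin'_apply]

/-- the converse: the coordinates of a stable subspace of `H^1(X)` -/
theorem stabU_of (hAt : ∀ t, At1 H 2 t → ∃ z ∈ W.alg (H.X 0 ⊗ H.X 0) (H.n 0), ∀ c,
      cor W z (vec1 H c) = vec1 H ((opM (subD H.D (0, 1)) t).mulVec c))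
    {U : Submodule ℂ (Sub H.D (0, 1) → ℂ)} (hU : StabF W H.X (H.n 0) (U.map (vec1 H))) :
    StabU (subD H.D (0, 1)) (At1 H) (Gam H) U := by
  refine ⟨fun t ht v hv => ?_, ?_⟩
  · obtain ⟨z, hz, h⟩ := hAt t ht
    obtain ⟨u, hu, h1⟩ := hU.act z hz _ ⟨v, hv, rfl⟩
    rw [h] at h1
    rwa [← vec1_inj H h1]
  · have h1 : Set.InjOn (fun U' : Submodule ℂ (Sub H.D (0, 1) → ℂ) =>
        ((U'.map (vec1 H) : Submodule ℂ (W.coh (H.X 0))) : Set (W.coh (H.X 0)))) Set.univ := by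
      intro U' _ U'' _ h
      exact Submodule.map_injective_of_injective (vec1_inj H) (SetLike.coe_injective h)
    refine Set.Finite.of_finite_image (f := fun U' : Submodule ℂ (Sub H.D (0, 1) → ℂ) =>
      ((U'.map (vec1 H) : Submodule ℂ (W.coh (H.X 0))) : Set (W.coh (H.X 0)))) ?_
      (h1.mono (Set.subset_univ _))
    refine hU.fin.subset ?_
    rintro _ ⟨U', ⟨M, ⟨T, hT, hTM⟩, rfl⟩, rfl⟩
    refine ⟨T, hT, fun y => ?_⟩
    constructor
    · rintro ⟨_, ⟨v, hv, rfl⟩, rfl⟩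
      refine ⟨vec1 H v, ⟨v, hv, rfl⟩, ?_⟩
      rw [hTM, Matrix.toLin'_apply]
    · rintro ⟨_, ⟨v, hv, rfl⟩, rfl⟩
      refine ⟨Matrix.toLin' M v, ⟨v, hv, rfl⟩, ?_⟩
      rw [hTM, Matrix.toLin'_apply]

variable {H}

theorem eq_bot_of_vec1 {U : Submodule ℂ (Sub H.D (0, 1) → ℂ)} (h : U.map (vec1 H) = ⊥) :
    U = ⊥ := by
  rw [eq_bot_iff]
  intro v hv
  have h1 : vec1 H v ∈ U.map (vec1 H) := ⟨v, hv, rfl⟩
  rw [h, Submodule.mem_bot] at h1
  exact vec1_inj H (h1.trans (map_zero _).symm)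

theorem eq_top_of_vec1 {U : Submodule ℂ (Sub H.D (0, 1) → ℂ)}
    (h : U.map (vec1 H) = W.gr (H.X 0) 1) : U = ⊤ := by
  rw [eq_top_iff]
  intro v _
  have h1 : vec1 H v ∈ U.map (vec1 H) := by
    rw [h]
    exact vec1_gr H v
  obtain ⟨u, hu, h2⟩ := h1
  rwa [← vec1_inj H h2]

variable (H)

/-- the form in the coordinates -/
theorem psi_vec1 (v w : Sub H.D (0, 1) → ℂ) :
    psi W (H.X 0) (H.ξ 0) (H.Lam 0) (H.lam 0).slm.internal (vec1 H v) (vec1 H w) =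
      dotProduct v ((Psi (subD H.D (0, 1))).mulVec w) := by
  have h1 : psi W (H.X 0) (H.ξ 0) (H.Lam 0) (H.lam 0).slm.internal (vec1 H v) (vec1 H w) =
      ∑ i : Sub H.D (0, 1), ∑ j : Sub H.D (0, 1), v i * (w j *
        psi W (H.X 0) (H.ξ 0) (H.Lam 0) (H.lam 0).slm.internal (H.e 0 i.1) (H.e 0 j.1)) := by
    rw [vec1_apply, vec1_apply, psi, Finset.sum_mul, map_sum]
    refine Finset.sum_congr rfl fun i _ => ?_
    rw [map_sum, Finset.mul_sum, map_sum]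
    refine Finset.sum_congr rfl fun j _ => ?_
    rw [map_smul, smul_mul_assoc, mul_smul_comm, map_smul, map_smul, smul_eq_mul, smul_eq_mul]
    rfl
  rw [h1]
  unfold dotProduct Matrix.mulVec dotProduct
  refine Finset.sum_congr rfl fun i _ => ?_
  rw [Finset.mul_sum]
  refine Finset.sum_congr rfl fun j _ => ?_
  rw [H.e_psi 0 i.1 j.1 (by rw [i.2]) (by rw [j.2])]
  change v i * (w j * if (j : H.I) = H.D.τ i then H.D.s i else 0) =
    v i * ((if j = (subD H.D (0, 1)).τ i then (subD H.D (0, 1)).s i else 0) * w j)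
  by_cases h : (j : H.I) = H.D.τ i
  · rw [if_pos h, if_pos (show j = (subD H.D (0, 1)).τ i from Subtype.ext h)]
    change v i * (w j * H.D.s i) = v i * (H.D.s i * w j)
    ring
  · rw [if_neg h, if_neg (show ¬ j = (subD H.D (0, 1)).τ i from fun e => h (congrArg _ e))]
    ring

/-- an isotropic subspace of the coordinate space gives a subspace of `H^1(X)` which is isotropic
for `Tr(ξ^(n-1) x y)` -/
theorem iso_vec1 (hn : 1 ≤ H.n 0) (hpos : PositiveDivisor W (H.X 0) (H.n 0) (H.ξ 0))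
    {U : Submodule ℂ (Sub H.D (0, 1) → ℂ)}
    (h0 : ∀ v ∈ U, ∀ w ∈ U, dotProduct v ((Psi (subD H.D (0, 1))).mulVec w) = 0) :
    ∀ x ∈ U.map (vec1 H), ∀ y ∈ U.map (vec1 H),
      W.tr (H.X 0) (H.ξ 0 ^ (H.n 0 - 1) * (x * y)) = 0 := by
  rintro _ ⟨v, hv, rfl⟩ _ ⟨w, hw, rfl⟩
  have h1 := psi_one H.hW (H.mem 0) hpos (H.lam 0) hn (vec1 H v) (vec1_gr H w)
  rw [psi_vec1, h0 v hv w hw] at h1
  have h2 : ((H.n 0 - 1).factorial : ℂ)⁻¹ ≠ 0 :=
    inv_ne_zero (Nat.cast_ne_zero.2 (Nat.factorial_ne_zero _))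
  have h3 := (mul_eq_zero.1 h1.symm).resolve_left h2
  exact neg_eq_zero.1 h3

/-- images of independent subspaces under an injective map -/
theorem indep_map {V V' : Type*} [AddCommGroup V] [Module ℂ V] [AddCommGroup V'] [Module ℂ V']
    {f : V →ₗ[ℂ] V'} (hf : Function.Injective f) {ι : Type*} {U : ι → Submodule ℂ V}
    (h : iSupIndep U) : iSupIndep fun i => (U i).map f := by
  intro i
  have h1 := h i
  rw [Submodule.disjoint_def] at h1 ⊢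
  intro x hx hx'
  obtain ⟨v, hv, rfl⟩ := hx
  have h2 : (⨆ (j : ι) (_ : j ≠ i), (U j).map f) = (⨆ (j : ι) (_ : j ≠ i), U j).map f := by
    simp only [Submodule.map_iSup]
  rw [h2] at hx'
  obtain ⟨w, hw, h3⟩ := hx'
  rw [hf h3] at hw
  rw [h1 v hv hw, map_zero]

theorem iSup_vec1 {ι : Type*} {U : ι → Submodule ℂ (Sub H.D (0, 1) → ℂ)} (h : (⨆ i, U i) = ⊤) :
    (⨆ i, (U i).map (vec1 H)) = W.gr (H.X 0) 1 := by
  rw [← Submodule.map_iSup, h, Submodule.map_top, range_vec1]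

/-! ### The hypotheses of the theorems in coordinates -/

/-- the irreducible case: the field `orbit` -/
theorem orbit_of (irr : ∀ U, StabF W H.X (H.n 0) U → U = ⊥ ∨ U = W.gr (H.X 0) 1)
    (U : Submodule ℂ (Sub H.D (0, 1) → ℂ))
    (h1 : ∀ z, At1 H 2 z → ∀ v ∈ U, (opM (subD H.D (0, 1)) z).mulVec v ∈ U)
    (h2 : {U' : Submodule ℂ (Sub H.D (0, 1) → ℂ) |
      ∃ x ∈ Gam H, U' = U.map (Matrix.toLin' x)}.Finite) : U = ⊥ ∨ U = ⊤ :=
  (irr _ (stabF_of H ⟨h1, h2⟩)).imp eq_bot_of_vec1 eq_top_of_vec1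

/-- the condition (h1) -/
theorem h1_of (hpos : PositiveDivisor W (H.X 0) (H.n 0) (H.ξ 0))
    (iso : ∀ U, StabF W H.X (H.n 0) U →
      (∀ x ∈ U, ∀ y ∈ U, W.tr (H.X 0) (H.ξ 0 ^ (H.n 0 - 1) * (x * y)) = 0) → U = ⊥)
    (U : Submodule ℂ (Sub H.D (0, 1) → ℂ))
    (hU : StabU (subD H.D (0, 1)) (At1 H) (Gam H) U)
    (h0 : ∀ v ∈ U, ∀ w ∈ U, dotProduct v ((Psi (subD H.D (0, 1))).mulVec w) = 0) : U = ⊥ := by
  have hS := stabF_of H hU
  apply eq_bot_of_vec1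
  rcases Nat.eq_zero_or_pos (H.n 0) with hg | hg
  · rw [eq_bot_iff]
    intro x hx
    exact H.hW.top_gr (H.mem 0) (hS.le hx) (by omega)
  · exact iso _ hS (iso_vec1 H hg hpos h0)

/-- the condition (h2) -/
theorem h2_of (four : ∀ U : Fin 4 → Submodule ℂ (W.coh (H.X 0)),
      (∀ i, StabF W H.X (H.n 0) (U i)) → (∀ i, U i ≠ ⊥) → iSupIndep U →
        (⨆ i, U i) ≠ W.gr (H.X 0) 1)
    (U : Fin 4 → Submodule ℂ (Sub H.D (0, 1) → ℂ))
    (hU : ∀ i, StabU (subD H.D (0, 1)) (At1 H) (Gam H) (U i)) (h0 : ∀ i, U i ≠ ⊥)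
    (hi : iSupIndep U) (ht : (⨆ i, U i) = ⊤) : False :=
  four (fun i => (U i).map (vec1 H)) (fun i => stabF_of H (hU i))
    (fun i hb => h0 i (eq_bot_of_vec1 hb)) (indep_map (vec1_inj H) hi) (iSup_vec1 H ht)

end

end Pool.Agent.Lib.MP_361a6f_ag.FL.E.OrbF
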