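import Pool.Agent.Lib.MP_361a6f_ag.FL.E.StatE

/-!
# The general law: Grothendieck's form twisted by one central element is positive
-/

open CategoryTheory AlgebraicGeometry MonoidalCategory CartesianMonoidalCategory

universe u v w w'

namespace Pool.Agent.Lib.MP_361a6f_ag.FL.EQ

open Pool.Agent.Lib.MP_361a6f_ag.H3 Pool.Agent.Lib.MP_361a6f_ag.SQ

variable {k : Type u} [Field k]

/-- Every stable subspace of `H^1(X)` is the image of an idempotent which is a complex combination
of algebraic correspondences of codimension `n = dim X` and commutes with all of them. (For abelian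
varieties: Faltings, Zarhin.) -/
def Isotypic (W : CohomologyData.{u, 0, w} k ℂ) (X : Sch k) (n : ℕ) : Prop :=
  ∀ U, Stable W X n U → ∃ e ∈ Submodule.span ℂ {z | W.IsAlg (X.prod X) n z},
    (∀ x, W.Deg X 1 x → act W e (act W e x) = act W e x) ∧
    (∀ z, W.IsAlg (X.prod X) n z → ∀ x, W.Deg X 1 x →
      act W e (act W z x) = act W z (act W e x)) ∧
    ∀ y, y ∈ U ↔ ∃ x, W.Deg X 1 x ∧ act W e x = y

/-- No stable subspace of `H^1(X)` except `0` is isotropic for the form `Tr(ξ^(n-1) x y)`. (For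
abelian varieties: no factor of type IV.) -/
def NoIsotropic (W : CohomologyData.{u, 0, w} k ℂ) (X : Sch k) (n : ℕ) (ξ : W.coh X) : Prop :=
  ∀ U, Stable W X n U →
    (∀ x ∈ U, ∀ y ∈ U, W.Tr (W.cup (ξ ^ (n - 1)) (W.cup x y)) = 0) → U = ⊥

/-- A central isometry: `C P` is a linear map of the cohomology of the power `X^P`, the tensor power
of an endomorphism of the graded ring `H^*(X)`. On `H^1(X)` it commutes with all algebraic
correspondences of codimension `n = dim X`, is a complex combination of such correspondences, and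
preserves the form `Tr(ξ^(n-1) x y)`. -/
structure IsCentral (W : CohomologyData.{u, 0, w} k ℂ) (X : Sch k) (n : ℕ) (ξ : W.coh X)
    (C : ∀ P : Prd 1, W.coh (pw X P) → W.coh (pw X P)) : Prop where
  tensor : Tensor W X W X C
  one : C (.leaf 0) (1 : W.coh X) = (1 : W.coh X)
  cup : ∀ x y, C (.leaf 0) (W.cup x y) = W.cup (C (.leaf 0) x) (C (.leaf 0) y)
  deg : ∀ i x, W.Deg X i x → W.Deg X i (C (.leaf 0) x)
  comm : ∀ z, W.IsAlg (X.prod X) n z → ∀ x, W.Deg X 1 x →
    C (.leaf 0) (act W z x) = act W z (C (.leaf 0) x)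
  alg : ∃ γ ∈ Submodule.span ℂ {z | W.IsAlg (X.prod X) n z}, ∀ x, W.Deg X 1 x →
    C (.leaf 0) x = act W γ x
  form : ∀ x y, W.Deg X 1 x → W.Deg X 1 y →
    W.Tr (W.cup (ξ ^ (n - 1)) (W.cup (C (.leaf 0) x : W.coh X) (C (.leaf 0) y : W.coh X))) =
      W.Tr (W.cup (ξ ^ (n - 1)) (W.cup x y))

/-- The algebraic classes `z` of codimension `l` on the power `X^P` with `T (T z) = z` for all
central isometries `T`. -/
def Fixed (W : CohomologyData.{u, 0, w} k ℂ) (X : Sch k) (n : ℕ) (ξ : W.coh X) (P : Prd 1)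
    (l : ℕ) : Set (W.coh (pw X P)) :=
  {z | W.IsAlg (pw X P) l z ∧ ∀ T, IsCentral W X n ξ T → T P (T P z) = z}

end Pool.Agent.Lib.MP_361a6f_ag.FL.EQ

namespace Pool.Agent.Lib.MP_361a6f_ag.FL

open Pool.Agent.Lib.MP_361a6f_ag.H3 Pool.Agent.Lib.MP_361a6f_ag.SQ

/-- **The general law.** There is one central isometry `C` of the powers of `X` such that for every
power `Y` of `X`, of dimension `m`, and every polarisation `η` of product type:

* `(-1)^j Tr(η^(m-2j) x C(x)) > 0` for all primitive `x ≠ 0` in the real span of the classes of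
  codimension `j` in `Fixed` (on which `C` is an involution by the definition of `Fixed`);
* numerical equivalence is homological equivalence for the complex span of the classes in `Fixed`;
* if `H^1(X)` has no isotropic stable subspace except `0` then all algebraic classes are in
  `Fixed`. -/
def ThmGGeoStatement : Prop :=
  ∀ {k : Type u} [Field k] (W : CohomologyData.{u, 0, w} k ℂ) (𝒱 : VarietyClass k)
    (_ : IsWeilCohomology W 𝒱) {k' : Type v} [Field k'] (W' : CohomologyData.{v, 0, w'} k' ℂ)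
    (𝒱' : VarietyClass k') (_ : IsWeilCohomology W' 𝒱') (D : EQ.Data W W') (_ : EQ.Hyp 𝒱 𝒱' D)
    (_ : EQ.Isotypic W D.X D.g),
    ∃ C : ∀ P : Prd 1, W.coh (EQ.pw D.X P) → W.coh (EQ.pw D.X P),
      EQ.IsCentral W D.X D.g D.ξ C ∧
      ∀ (P : Prd 1) (η : W.coh (EQ.pw D.X P)) (_ : IsPol W (fun _ => D.ξ) P η) (j : ℕ),
        (2 * j ≤ P.dim (fun _ => D.g) →
          ∀ x ∈ Submodule.span ℝ (EQ.Fixed W D.X D.g D.ξ P j),
          W.cup (η ^ (P.dim (fun _ => D.g) - 2 * j + 1)) x = 0 → x ≠ 0 → ∃ r : ℝ, 0 < r ∧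
            (-1) ^ j * W.Tr (W.cup (η ^ (P.dim (fun _ => D.g) - 2 * j)) (W.cup x (C P x))) =
              (r : ℂ)) ∧
        (∀ x ∈ Submodule.span ℂ (EQ.Fixed W D.X D.g D.ξ P j),
          (∀ l y, W.IsAlg (EQ.pw D.X P) l y → W.Tr (W.cup x y) = 0) → x = 0) ∧
        (EQ.NoIsotropic W D.X D.g D.ξ → ∀ z, W.IsAlg (EQ.pw D.X P) j z →
          z ∈ EQ.Fixed W D.X D.g D.ξ P j)

end Pool.Agent.Lib.MP_361a6f_ag.FL
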