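import Pool.Agent.Lib.MP_361a6f_ag.FL.E.Gam
import Pool.Agent.Lib.MP_361a6f_ag.FL.E.DefsH
import Pool.Agent.Lib.MP_361a6f_ag.FL.E.StatG

/-!
# The general law: the stable subspaces and the central idempotents in coordinates
-/

open CategoryTheory AlgebraicGeometry MonoidalCategory CartesianMonoidalCategory

universe u w

set_option autoImplicit false
set_option linter.unusedSectionVars false

namespace Pool.Agent.Lib.MP_361a6f_ag.FL.E

open Pool.Agent.Lib.MP_361a6f_ag.H3 Pool.Agent.Lib.MP_361a6f_ag.SQ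
  Pool.Agent.Lib.MP_361a6f_ag.PP

noncomputable section

variable {k : Type u} [Field k] {W : CohomologyData.{u, 0, w} k ℂ} {𝒱 : VarietyClass k}

/-- on one degree, an algebraic operator that preserves this degree is the operator of a class of
codimension `n = dim X` -/
theorem alg_part (hW : IsWeilCohomology W 𝒱) {X : Sch k} {n : ℕ} (hX : 𝒱.mem X n)
    {γ : W.coh (X ⊗ X)} (hγ : γ ∈ tot W (X ⊗ X)) {i : ℕ}
    (hf : ∀ x ∈ W.gr X i, cor W γ x ∈ W.gr X i) :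
    ∃ z ∈ W.alg (X ⊗ X) n, ∀ x ∈ W.gr X i, cor W γ x = cor W z x := by
  have hXX := 𝒱.prod hX hX
  have key : ∃ z ∈ W.alg (X ⊗ X) n, ∀ x ∈ W.gr X i, ∀ l, ∀ t ∈ W.gr X l, i + l = 2 * n →
      W.tr X (cor W γ x * t) = W.tr X (cor W z x * t) := by
    refine tot_induction hW (P := fun γ => ∃ z ∈ W.alg (X ⊗ X) n, ∀ x ∈ W.gr X i, ∀ l,
      ∀ t ∈ W.gr X l, i + l = 2 * n → W.tr X (cor W γ x * t) = W.tr X (cor W z x * t)) hγ ?_ ?_
    · intro j γ hγ
      by_cases hj : j = n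
      · subst hj
        exact ⟨γ, hγ, fun _ _ _ _ _ _ => rfl⟩
      · refine ⟨0, zero_mem _, fun x hx l t ht hl => ?_⟩
        rw [cor_zero, LinearMap.zero_apply, zero_mul, map_zero, cor_apply,
          hW.push_adj hXX hX]
        exact hW.tr_gr hXX (hW.mul_gr hXX (hW.mul_gr hXX (hW.pull_gr hXX hX _ hx)
          (hW.alg_gr hXX hγ)) (hW.pull_gr hXX hX _ ht)) (by omega)
    · rintro a b ⟨z, hz, h⟩ ⟨z', hz', h'⟩
      refine ⟨z + z', add_mem hz hz', fun x hx l t ht hl => ?_⟩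
      rw [cor_add, cor_add, LinearMap.add_apply, LinearMap.add_apply, add_mul, add_mul, map_add,
        map_add, h x hx l t ht hl, h' x hx l t ht hl]
  obtain ⟨z, hz, h⟩ := key
  refine ⟨z, hz, fun x hx => ?_⟩
  have hcz : cor W z x ∈ W.gr X i := by
    rw [cor_apply]
    refine MotZ.push_gr hW hXX hX _ (i := i + 2 * n) (by ring) ?_
    exact hW.mul_gr hXX (hW.pull_gr hXX hX _ hx) (hW.alg_gr hXX hz)
  have hd : cor W γ x - cor W z x ∈ W.gr X i := sub_mem (hf x hx) hcz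
  rw [← sub_eq_zero]
  refine hW.duality hX _ fun t => ?_
  have ht : t ∈ ⨆ l, W.gr X l := by
    rw [(hW.internal hX).submodule_iSup_eq_top]
    trivial
  refine Submodule.iSup_induction (W.gr X)
    (motive := fun t => W.tr X ((cor W γ x - cor W z x) * t) = 0) ht ?_ ?_ ?_
  · intro l t ht
    by_cases hl : i + l = 2 * n
    · rw [sub_mul, map_sub, h x hx l t ht hl, sub_self]
    · exact hW.tr_gr hX (hW.mul_gr hX hd ht) hl
  · rw [mul_zero, map_zero]
  · intro a b ha hb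
    rw [mul_add, map_add, ha, hb, add_zero]

variable (H : Host W 𝒱 1)

/-- every operator of a member of length `2` is the operator of an algebraic correspondence -/
theorem cor_of_at {v : Ten (Sub H.D (0, 1)) 2} (hv : At1 H 2 v) :
    ∃ z ∈ W.alg (H.X 0 ⊗ H.X 0) (H.n 0), ∀ c,
      cor W z (vec1 H c) = vec1 H ((opM (subD H.D (0, 1)) v).mulVec c) := by
  have hX := H.mem 0
  have hXX := 𝒱.prod hX hX
  set u : Ten H.I 2 := ext0 H.D (0, 1) v with hu
  have hu2 : u ∈ H.At 2 := hv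
  let u' : Ten H.I 2 := permT (Equiv.swap (0 : Fin 2) 1) u
  obtain ⟨γ, hγ, hγw⟩ := PosL.at_fit H (gr ge H) (ge H) (.prod (.leaf 0) (.leaf 0))
    (u := u') ((at_ H).perm 2 _ _ hu2)
  let T : W.coh (H.X 0) →ₗ[ℂ] Ten H.I 1 := H.tc (.leaf 0)
  let T2 : W.coh (H.X 0 ⊗ H.X 0) →ₗ[ℂ] Ten H.I 2 := H.tc (.prod (.leaf 0) (.leaf 0))
  have hγ2 : T2 γ = permT (Equiv.swap (0 : Fin 2) 1) u := by
    funext w
    have h := hγw w
    rw [if_neg (by
      rintro ⟨i, hi⟩
      exact hi (Subsingleton.elim _ _))] at h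
    exact h
  obtain ⟨N, a, b, hab⟩ := TRC.exists_sum H.hW hX hX γ
  let st : W.coh (H.X 0) →ₗ[ℂ] W.coh (H.X 0) :=
    star (H.lam 0).slm.internal (Lop W (H.X 0) (H.ξ 0)) (H.Lam 0)
  have hfa : AlgCor W (H.X 0) (H.X 0) (cor W γ ∘ₗ st) :=
    AlgCor.comp H.hW hX hX hX (cor_algCor hγ) (algOp_star H.hW hX (H.ξ_alg 0) (H.lam 0))
  have h3 : ∀ x, (cor W γ ∘ₗ st) x = ∑ ν, psi W (H.X 0) (H.ξ 0) (H.Lam 0)
      (H.lam 0).slm.internal x (a ν) • b ν := by
    intro x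
    rw [← GeoJ.cor_sum_star staB H.hW hX hX (H.ξ_alg 0) (H.lam 0), ← hab]
    rfl
  have hTo : ∀ x y : W.coh (H.X 0), T2 (W.pull (fst (H.X 0) (H.X 0)) x *
      W.pull (snd (H.X 0) (H.X 0)) y) = (outer (T x) (T y) : Ten H.I (1 + 1)) :=
    (ge H).tc_outer (.leaf 0) (.leaf 0)
  have hpsi : ∀ (j : H.I) (y : W.coh (H.X 0)), psi W (H.X 0) (H.ξ 0) (H.Lam 0)
      (H.lam 0).slm.internal (H.e 0 j) y = H.D.s j * T y (fun _ => H.D.τ j) := by
    intro j y
    have h4 : psiT H.D (T (H.e 0 j)) (T y)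
        = psi W (H.X 0) (H.ξ 0) (H.Lam 0) (H.lam 0).slm.internal (H.e 0 j) y :=
      (ge H).psi_tc (.leaf 0) (H.e 0 j) y
    rw [← h4, psiT, Finset.sum_eq_single (fun _ : Fin 1 => j)]
    · rw [tc1_e H j _ T rfl, if_pos rfl, one_mul, sg, Fin.prod_univ_one]
      rfl
    · intro v _ hv
      rw [tc1_e H j _ T rfl, if_neg, zero_mul, mul_zero]
      intro h5
      apply hv
      funext i
      rw [Subsingleton.elim i 0, h5]
    · intro h5
      exact absurd (Finset.mem_univ _) h5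
  -- the matrix of the operator
  have hmat : ∀ (j : H.I) (w : Fin 1 → H.I), T ((cor W γ ∘ₗ st) (H.e 0 j)) w
      = u ![w 0, H.D.τ j] * H.D.s j := by
    intro j w
    rw [h3, map_sum, Finset.sum_apply]
    have h6 : T2 γ = ∑ ν, (outer (T (a ν)) (T (b ν)) : Ten H.I (1 + 1)) := by
      rw [hab, map_sum]
      exact Finset.sum_congr rfl fun ν _ => hTo _ _
    have h7 : u ![w 0, H.D.τ j] = T2 γ ![H.D.τ j, w 0] := by
      rw [hγ2, permT]
      congr 1
      funext i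
      fin_cases i
      · rfl
      · rfl
    rw [h7, h6, Finset.sum_apply, Finset.sum_mul]
    refine Finset.sum_congr rfl fun ν _ => ?_
    rw [map_smul, Pi.smul_apply, smul_eq_mul, hpsi]
    show _ = (T (a ν) (fun i => (![H.D.τ j, w 0] : Fin 2 → H.I) (Fin.castAdd 1 i)) *
      T (b ν) (fun i => (![H.D.τ j, w 0] : Fin 2 → H.I) (Fin.natAdd 1 i))) * H.D.s j
    have h8 : (fun i : Fin 1 => (![H.D.τ j, w 0] : Fin 2 → H.I) (Fin.castAdd 1 i))
        = fun _ => H.D.τ j := by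
      funext i
      rw [Subsingleton.elim i 0]
      rfl
    have h9 : (fun i : Fin 1 => (![H.D.τ j, w 0] : Fin 2 → H.I) (Fin.natAdd 1 i)) = w := by
      funext i
      rw [Subsingleton.elim i 0]
      rfl
    rw [h8, h9]
    ring
  -- it preserves `H^1`
  have hgr1 : ∀ x ∈ W.gr (H.X 0) 1, (cor W γ ∘ₗ st) x ∈ W.gr (H.X 0) 1 := by
    intro x hx
    rw [← vec1_crd1 H hx, vec1_apply, map_sum]
    refine Submodule.sum_mem _ fun j _ => ?_
    rw [map_smul]
    refine Submodule.smul_mem _ _ ?_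
    have h10 : (cor W γ ∘ₗ st) (H.e 0 (j : H.I)) = ∑ w : Fin 1 → H.I,
        T ((cor W γ ∘ₗ st) (H.e 0 (j : H.I))) w • H.e 0 (w 0) :=
      (ge H).expand (.leaf 0) _
    rw [h10]
    refine Submodule.sum_mem _ fun w _ => ?_
    by_cases hw : H.D.typ (w 0) = (0, 1)
    · refine Submodule.smul_mem _ _ ?_
      have h11 := H.e_gr 0 (w 0)
      rwa [hw] at h11
    · rw [hmat, hu, ext0_off v (fun h12 => hw (h12 0)), zero_mul, zero_smul]
      exact zero_mem _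
  obtain ⟨γ', hγ', he⟩ := hfa.exists_cor
  obtain ⟨z, hz, hzx⟩ := alg_part H.hW hX hγ' (i := 1) (fun x hx => by
    rw [← he]
    exact hgr1 x hx)
  refine ⟨z, hz, fun c => ?_⟩
  rw [← hzx _ (vec1_gr H c), ← he]
  refine op_vec1 H hgr1 ?_ c
  intro i j
  refine (hmat (j : H.I) (fun _ => (i : H.I))).trans ?_
  rw [opM, hu]
  congr 1
  refine Eq.trans (congrArg (ext0 H.D (0, 1) v) ?_) (ext0_up v ![i, (subD H.D (0, 1)).τ j])
  funext l
  fin_cases l
  · rfl
  · rfl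

/-- the operator of a complex combination of algebraic correspondences -/
theorem cor_span {e : W.coh (H.X 0 ⊗ H.X 0)}
    (he : e ∈ Submodule.span ℂ {z | z ∈ W.alg (H.X 0 ⊗ H.X 0) (H.n 0)}) :
    ∃ M ∈ endS (subD H.D (0, 1)) (At1 H), ∀ c, cor W e (vec1 H c) = vec1 H (M.mulVec c) := by
  induction he using Submodule.span_induction with
  | mem z hz =>
    obtain ⟨v, hv, h⟩ := cor_vec1 H hz
    exact ⟨_, Submodule.subset_span ⟨v, hv, rfl⟩, h⟩
  | zero =>
    refine ⟨0, zero_mem _, fun c => ?_⟩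
    rw [cor_zero, LinearMap.zero_apply, Matrix.zero_mulVec, map_zero]
  | add a b _ _ ha hb =>
    obtain ⟨M, hM, h⟩ := ha
    obtain ⟨M', hM', h'⟩ := hb
    refine ⟨M + M', add_mem hM hM', fun c => ?_⟩
    rw [cor_add, LinearMap.add_apply, h, h', Matrix.add_mulVec, map_add]
  | smul r a _ ha =>
    obtain ⟨M, hM, h⟩ := ha
    refine ⟨r • M, Submodule.smul_mem _ _ hM, fun c => ?_⟩
    rw [cor_smul, LinearMap.smul_apply, h, Matrix.smul_mulVec, map_smul]

/-- and conversely -/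
theorem span_cor {M : Matrix (Sub H.D (0, 1)) (Sub H.D (0, 1)) ℂ}
    (hM : M ∈ endS (subD H.D (0, 1)) (At1 H)) :
    ∃ e ∈ Submodule.span ℂ {z | z ∈ W.alg (H.X 0 ⊗ H.X 0) (H.n 0)},
      ∀ c, cor W e (vec1 H c) = vec1 H (M.mulVec c) := by
  induction hM using Submodule.span_induction with
  | mem M hM =>
    obtain ⟨v, hv, rfl⟩ := hM
    obtain ⟨z, hz, h⟩ := cor_of_at H hv
    exact ⟨z, Submodule.subset_span hz, h⟩
  | zero =>
    refine ⟨0, zero_mem _, fun c => ?_⟩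
    rw [cor_zero, LinearMap.zero_apply, Matrix.zero_mulVec, map_zero]
  | add a b _ _ ha hb =>
    obtain ⟨M, hM, h⟩ := ha
    obtain ⟨M', hM', h'⟩ := hb
    refine ⟨M + M', add_mem hM hM', fun c => ?_⟩
    rw [cor_add, LinearMap.add_apply, h, h', Matrix.add_mulVec, map_add]
  | smul r a _ ha =>
    obtain ⟨M, hM, h⟩ := ha
    refine ⟨r • M, Submodule.smul_mem _ _ hM, fun c => ?_⟩
    rw [cor_smul, LinearMap.smul_apply, h, Matrix.smul_mulVec, map_smul]

theorem vec1_inj {c d : Sub H.D (0, 1) → ℂ} (h : vec1 H c = vec1 H d) : c = d := by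
  rw [← crd1_vec1 H c, h, crd1_vec1]

/-- the hypothesis on the stable subspaces, for a family with one member -/
def IsotypicF (W : CohomologyData.{u, 0, w} k ℂ) (X : Fin 1 → Sch k) (n : ℕ) : Prop :=
  ∀ U, StabF W X n U → ∃ e ∈ Submodule.span ℂ {z | z ∈ W.alg (X 0 ⊗ X 0) n},
    (∀ x ∈ W.gr (X 0) 1, cor W e (cor W e x) = cor W e x) ∧
    (∀ z ∈ W.alg (X 0 ⊗ X 0) n, ∀ x ∈ W.gr (X 0) 1, cor W e (cor W z x) = cor W z (cor W e x)) ∧
    ∀ y, y ∈ U ↔ ∃ x ∈ W.gr (X 0) 1, cor W e x = y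

theorem isotypicF_of {W : CohomologyData.{u, 0, w} k ℂ} {X : Sch k} {n : ℕ}
    (h : EQ.Isotypic W X n) : IsotypicF W (fun _ => X) n := by
  intro U hU
  obtain ⟨e, he, h1, h2, h3⟩ := h U (stable_of hU)
  exact ⟨e, he, h1, h2, h3⟩

/-- the field `orbit` of the general form -/
theorem orbit_of {Γ : Set (Matrix (Sub H.D (0, 1)) (Sub H.D (0, 1)) ℂ)}
    (hiso : IsotypicF W H.X (H.n 0))
    (hst : ∀ U : Submodule ℂ (Sub H.D (0, 1) → ℂ),
      StabU (subD H.D (0, 1)) (At1 H) Γ U → StabF W H.X (H.n 0) (U.map (vec1 H)))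
    (U : Submodule ℂ (Sub H.D (0, 1) → ℂ))
    (h1 : ∀ z, At1 H 2 z → ∀ v ∈ U, (opM (subD H.D (0, 1)) z).mulVec v ∈ U)
    (h2 : {U' : Submodule ℂ (Sub H.D (0, 1) → ℂ) | ∃ x ∈ Γ,
      U' = U.map (Matrix.toLin' x)}.Finite) :
    ∃ e ∈ endS (subD H.D (0, 1)) (At1 H), e * e = e ∧
      (∀ z, At1 H 2 z → e * opM (subD H.D (0, 1)) z = opM (subD H.D (0, 1)) z * e) ∧
      U = LinearMap.range (Matrix.toLin' e) := by
  obtain ⟨e, he, hee, hec, heU⟩ := hiso _ (hst U ⟨h1, h2⟩)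
  obtain ⟨M, hM, hMe⟩ := cor_span H he
  have hinj : ∀ A B : Matrix (Sub H.D (0, 1)) (Sub H.D (0, 1)) ℂ,
      (∀ c, vec1 H (A.mulVec c) = vec1 H (B.mulVec c)) → A = B := by
    intro A B h
    exact Matrix.mulVec_injective (funext fun c => vec1_inj H (h c))
  refine ⟨M, hM, hinj _ _ fun c => ?_, fun z hz => hinj _ _ fun c => ?_, ?_⟩
  · rw [← Matrix.mulVec_mulVec, ← hMe, ← hMe, hee _ (vec1_gr H c)]
  · obtain ⟨z', hz', h⟩ := cor_of_at H hz
    rw [← Matrix.mulVec_mulVec, ← Matrix.mulVec_mulVec, ← hMe, ← h, hec z' hz' _ (vec1_gr H c),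
      ← h, hMe]
  · ext y
    constructor
    · intro hy
      obtain ⟨x, hx, hxy⟩ := (heU _).1 (Submodule.mem_map_of_mem hy)
      refine ⟨crd1 H x, ?_⟩
      rw [Matrix.toLin'_apply]
      apply vec1_inj H
      rw [← hMe, vec1_crd1 H hx, hxy]
    · rintro ⟨c, rfl⟩
      rw [Matrix.toLin'_apply]
      have h := (heU (vec1 H (M.mulVec c))).2 ⟨vec1 H c, vec1_gr H c, hMe c⟩
      obtain ⟨c', hc', he'⟩ := h
      rwa [vec1_inj H he'] at hc'

end

end Pool.Agent.Lib.MP_361a6f_ag.FL.E
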