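import Pool.Agent.Lib.MP_361a6f_ag.FL.E.StatR

/-!
# Numerical and homological equivalence for abelian varieties: the statement
-/

open CategoryTheory AlgebraicGeometry MonoidalCategory CartesianMonoidalCategory

universe u v w w'

namespace Pool.Agent.Lib.MP_361a6f_ag.FL.EQ

open Pool.Agent.Lib.MP_361a6f_ag.H3 Pool.Agent.Lib.MP_361a6f_ag.SQ

variable {k : Type u} [Field k]

/-- The Hodge index theorem for `X × X` and the sum of the two pull-backs of `ξ`. -/
def Index (W : CohomologyData.{u, 0, w} k ℂ) (X : Sch k) (g : ℕ) (ξ : W.coh X) : Prop :=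
  HodgeCodim W (X.prod X) (g + g) (W.pb (X.pr₁ X) ξ + W.pb (X.pr₂ X) ξ) 1

/-- Numerical equivalence is homological equivalence for the complex combinations of algebraic
classes of codimension `j` on `Y`. -/
def NumHomIn (W : CohomologyData.{u, 0, w} k ℂ) (Y : Sch k) (j : ℕ) : Prop :=
  ∀ x ∈ CAlg W Y j, NumTriv W x → x = 0

/-- Algebraic classes of codimension `j` on `Y` that are linearly independent over `ℚ` are linearly
independent over `ℂ`. -/
def Independent (W : CohomologyData.{u, 0, w} k ℂ) (Y : Sch k) (j : ℕ) : Prop :=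
  ∀ (n : ℕ) (z : Fin n → W.coh Y), (∀ i, W.IsAlg Y j (z i)) →
    (∀ q : Fin n → ℚ, ∑ i, W.scal (q i : ℂ) (z i) = 0 → q = 0) →
    ∀ c : Fin n → ℂ, ∑ i, W.scal (c i) (z i) = 0 → c = 0

end Pool.Agent.Lib.MP_361a6f_ag.FL.EQ

namespace Pool.Agent.Lib.MP_361a6f_ag.FL

open Pool.Agent.Lib.MP_361a6f_ag.H3 Pool.Agent.Lib.MP_361a6f_ag.SQ

/-- **Criteria for the equality of numerical and homological equivalence on the powers of an abelian
variety `X`.** For every `j` the following are equivalent:

* numerical equivalence is homological equivalence in codimension `j` on all powers of `X`;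
* on the powers with `2j` factors, algebraic classes of codimension `j` that are linearly
  independent over `ℚ` are linearly independent over `ℂ` (Tate's condition of injectivity);
* for a given specialisation of `X` (for instance the identity, or the reduction at a place), no
  algebraic class `z ≠ 0` of codimension `j` on a power of `X` with `2j` factors becomes numerically
  trivial.

These conditions hold for all `j` if and only if

* every central isometry of the powers of `X` that fixes all algebraic classes numerically has, for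
  every algebraic class, a power that fixes it;

and if and only if

* with each character of the group of the central isometries that occurs in the complex span of the
  algebraic classes on the powers of `X` the inverse character occurs. -/
def ThmUGeoStatement : Prop :=
  ∀ {k : Type u} [Field k] (W : CohomologyData.{u, 0, w} k ℂ) (𝒱 : VarietyClass k)
    (_ : IsWeilCohomology W 𝒱) {X : Sch k} {g : ℕ} {ξ : W.coh X} (_ : EQ.Hyp0 W 𝒱 X g ξ)
    (_ : EQ.Index W X g ξ),
    (∀ j, (∀ P, EQ.NumHomIn W (EQ.pw X P) j) ↔
      ∀ P : Prd 1, P.size = 2 * j → EQ.Independent W (EQ.pw X P) j) ∧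
    (∀ {k' : Type v} [Field k'] (W' : CohomologyData.{v, 0, w'} k' ℂ) (𝒱' : VarietyClass k')
      (_ : IsWeilCohomology W' 𝒱') {X' : Sch k'} (_ : 𝒱'.mem X' g)
      (s : ∀ P : Prd 1, W.coh (EQ.pw X P) → W'.coh (EQ.pw X' P)) (_ : EQ.IsSpec W X W' X' s),
      ∀ j, (∀ P, EQ.NumHomIn W (EQ.pw X P) j) ↔ ∀ P : Prd 1, P.size = 2 * j →
        ∀ z, W.IsAlg (EQ.pw X P) j z → EQ.NumTriv W' (s P z) → z = 0) ∧
    ((∀ P j, EQ.NumHomIn W (EQ.pw X P) j) ↔
      ∀ T, EQ.IsCentral W X g ξ T → EQ.FixesNum W X T → EQ.Periodic W X T) ∧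
    ((∀ P j, EQ.NumHomIn W (EQ.pw X P) j) ↔
      ∀ χ, EQ.Occurs W X g ξ χ → EQ.Occurs W X g ξ fun T => (χ T)⁻¹)

end Pool.Agent.Lib.MP_361a6f_ag.FL
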