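import Pool.Agent.Lib.MP_361a6f_ag.FL.E.Fam
import Pool.Agent.Lib.MP_361a6f_ag.FL.Ge
import Pool.Agent.Lib.MP_361a6f_ag.FL.Al1a
import Pool.Agent.Lib.MP_361a6f_ag.FL.Tan

/-!
# Theorem E, row G7: the matrices of the symmetries

For a symmetry `T` the matrix of `T (.leaf 0)` in the basis of the host preserves the letters and
the form, and fixes the coordinates of the algebraic classes.
-/

open CategoryTheory AlgebraicGeometry MonoidalCategory CartesianMonoidalCategory

universe u w

set_option autoImplicit false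
set_option linter.unusedSectionVars false

namespace Pool.Agent.Lib.MP_361a6f_ag.FL.E

open Pool.Agent.Lib.MP_361a6f_ag.H3 Pool.Agent.Lib.MP_361a6f_ag.SQ
  Pool.Agent.Lib.MP_361a6f_ag.PP

noncomputable section

namespace SymM

section abs

variable {I Λ : Type} [Fintype I] [DecidableEq I] [DecidableEq Λ] (D : Dat I Λ)

theorem om_tens (w : Fin 2 → I) :
    (∑ α ∈ Finset.univ.image D.typ, om D α w) = Psi D (w 0) (w 1) := by
  rw [Finset.sum_eq_single (D.typ (w 0))]
  · unfold om Psi
    rw [Matrix.of_apply]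
    by_cases h : w 1 = D.τ (w 0)
    · rw [if_pos ⟨rfl, h⟩, if_pos h]
    · rw [if_neg (fun e => h e.2), if_neg h]
  · intro α _ hα
    unfold om
    rw [if_neg]
    rintro ⟨e, -⟩
    exact hα e.symm
  · intro h
    exact absurd (Finset.mem_image.2 ⟨w 0, Finset.mem_univ _, rfl⟩) h

theorem gT_two (g A : Matrix I I ℂ) (i j : I) :
    gT g (fun w : Fin 2 → I => A (w 0) (w 1)) ![i, j] = (g * A * g.transpose) i j := by
  unfold gT
  rw [Matrix.mul_apply, ← (finTwoArrowEquiv I).symm.sum_comp, Fintype.sum_prod_type,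
    Finset.sum_comm]
  refine Finset.sum_congr rfl fun b _ => ?_
  rw [Matrix.mul_apply, Finset.sum_mul]
  refine Finset.sum_congr rfl fun a _ => ?_
  rw [Fin.prod_univ_two, Matrix.transpose_apply]
  show g (![i, j] 0) (![a, b] 0) * g (![i, j] 1) (![a, b] 1) * A (![a, b] 0) (![a, b] 1) = _
  simp only [Matrix.cons_val_zero, Matrix.cons_val_one]
  ring

/-- a matrix that fixes the invariant tensors of length two and preserves the letters belongs to
the group -/
theorem isG_of_om {g : Matrix I I ℂ} (hb : ∀ i j, D.typ i ≠ D.typ j → g i j = 0)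
    (h : ∀ α, gT g (om D α) = om D α) : IsG D g := by
  refine ⟨hb, ?_⟩
  have h1 : gT g (fun w : Fin 2 → I => Psi D (w 0) (w 1)) = fun w => Psi D (w 0) (w 1) := by
    have h2 : (fun w : Fin 2 → I => Psi D (w 0) (w 1)) =
        ∑ α ∈ Finset.univ.image D.typ, om D α := by
      funext w
      rw [Finset.sum_apply]
      exact (om_tens D w).symm
    have h3 : ∀ S : Finset Λ, gT g (∑ α ∈ S, om D α) = ∑ α ∈ S, om D α := by
      intro S
      induction S using Finset.induction_on with
      | empty =>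
        funext w
        simp [gT]
      | insert a S ha ih =>
        rw [Finset.sum_insert ha, AL1A.gT_add, ih, h]
    rw [h2]
    exact h3 _
  have h4 : g * Psi D * g.transpose = Psi D := by
    ext i j
    rw [← gT_two, h1]
    rfl
  -- `g (Ψ gᵀ Ψᵀ) = 1`
  have h5 : g * (Psi D * g.transpose * (Psi D).transpose) = 1 := by
    rw [← Matrix.mul_assoc, ← Matrix.mul_assoc, h4, Tan.Psi_mul_transpose]
  have h6 : Psi D * g.transpose * (Psi D).transpose * g = 1 := mul_eq_one_comm.1 h5
  have h7 : g.transpose * (Psi D).transpose * g = (Psi D).transpose := by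
    calc g.transpose * (Psi D).transpose * g
        = (Psi D).transpose * Psi D * (g.transpose * (Psi D).transpose * g) := by
          rw [Tan.Psi_transpose_mul, Matrix.one_mul]
      _ = (Psi D).transpose * (Psi D * g.transpose * (Psi D).transpose * g) := by
          simp only [Matrix.mul_assoc]
      _ = (Psi D).transpose := by rw [h6, Matrix.mul_one]
  have h9 := congrArg Matrix.transpose h7
  rw [Matrix.transpose_mul, Matrix.transpose_mul, Matrix.transpose_transpose,
    Matrix.transpose_transpose, ← Matrix.mul_assoc] at h9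
  exact h9

end abs

variable {k : Type u} [Field k] {W : CohomologyData.{u, 0, w} k ℂ} {𝒱 : VarietyClass k}
  (H : Host W 𝒱 1)

/-- the coordinates on `H^*(X)` -/
def tl : W.coh (H.X 0) →ₗ[ℂ] Ten H.I 1 := H.tc (.leaf 0)

theorem tl_apply (z : W.coh (H.X 0)) : tl H z = H.tc (.leaf 0) z := rfl

/-- the matrix of an operator on `H^*(X)` in the basis of the host -/
def mat (t : W.coh (H.X 0) →ₗ[ℂ] W.coh (H.X 0)) : Matrix H.I H.I ℂ :=
  fun i j => tl H (t (H.e 0 j)) fun _ => i

theorem not_off (P : Prd 1) (w : Fin P.size → H.I) : ¬ H.Off P w := by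
  rintro ⟨i, hi⟩
  exact hi (Subsingleton.elim _ _)

/-- the coordinates of a basis vector -/
theorem tl_e (j : H.I) (w : Fin 1 → H.I) :
    tl H (H.e 0 j) w = if w = (fun _ => j) then 1 else 0 :=
  Ge.tc_E H (.leaf 0) (fun _ => j) w (not_off H _ _)

/-- induction over the basis vectors -/
theorem ind_leaf (M : Submodule ℂ (W.coh (H.X 0))) (h : ∀ j, H.e 0 j ∈ M) : M = ⊤ :=
  Ge.ind H (.leaf 0) M fun w => h (w ⟨0, Nat.one_pos⟩)

theorem tl_op (t : W.coh (H.X 0) →ₗ[ℂ] W.coh (H.X 0)) (z : W.coh (H.X 0)) :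
    tl H (t z) = gT (mat H t) (tl H z) := by
  have h := ind_leaf H (LinearMap.eqLocus (tl H ∘ₗ t)
    ({ toFun := fun z => gT (mat H t) (tl H z)
       map_add' := fun a b => by rw [map_add, AL1A.gT_add]
       map_smul' := fun c a => by rw [map_smul, AL1A.gT_smul]; rfl } :
        W.coh (H.X 0) →ₗ[ℂ] Ten H.I 1)) (by
      intro j
      rw [LinearMap.mem_eqLocus]
      show tl H (t (H.e 0 j)) = gT (mat H t) (tl H (H.e 0 j))
      funext w
      unfold gT
      rw [Finset.sum_eq_single (fun _ => j)]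
      · rw [tl_e, if_pos rfl, mul_one, Fin.prod_univ_one]
        show tl H (t (H.e 0 j)) w = tl H (t (H.e 0 j)) fun _ => w 0
        have hw : w = fun _ => w 0 := by
          funext i
          exact congrArg w (Subsingleton.elim (α := Fin 1) _ _)
        rw [← hw]
      · intro w' _ hw'
        rw [tl_e, if_neg hw', mul_zero]
      · intro h
        exact absurd (Finset.mem_univ _) h)
  have hz : z ∈ LinearMap.eqLocus (tl H ∘ₗ t)
    ({ toFun := fun z => gT (mat H t) (tl H z)
       map_add' := fun a b => by rw [map_add, AL1A.gT_add]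
       map_smul' := fun c a => by rw [map_smul, AL1A.gT_smul]; rfl } :
        W.coh (H.X 0) →ₗ[ℂ] Ten H.I 1) := by
    rw [h]
    trivial
  exact LinearMap.mem_eqLocus.1 hz

variable {T : ∀ P : Prd 1, W.coh (P.obj H.X) →ₗ[ℂ] W.coh (P.obj H.X)}

/-- **The coordinates of `T P z`.** -/
theorem tc_sym (hT : SymF W H.X T) : ∀ (P : Prd 1) (z : W.coh (P.obj H.X)),
    H.tc P (T P z) = gT (mat H (T (.leaf 0))) (H.tc P z)
  | .leaf a, z => by
    obtain rfl : a = 0 := Subsingleton.elim _ _
    exact tl_op H (T (.leaf 0)) z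
  | .prod P Q, z => by
    have h := Ge.ind H (.prod P Q) (LinearMap.eqLocus
      (H.tc (.prod P Q) ∘ₗ T (.prod P Q))
      ({ toFun := fun z => gT (mat H (T (.leaf 0))) (H.tc (.prod P Q) z)
         map_add' := fun a b => by rw [map_add, AL1A.gT_add]
         map_smul' := fun c a => by rw [map_smul, AL1A.gT_smul]; rfl } :
          W.coh ((Prd.prod P Q).obj H.X) →ₗ[ℂ] Ten H.I (Prd.prod P Q).size)) (by
        intro w₀
        rw [LinearMap.mem_eqLocus]
        show H.tc (.prod P Q) (T (.prod P Q) (W.pull (fst (P.obj H.X) (Q.obj H.X))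
              (H.E P (fun i => w₀ (Fin.castAdd Q.size i)))
            * W.pull (snd (P.obj H.X) (Q.obj H.X)) (H.E Q (fun i => w₀ (Fin.natAdd P.size i)))))
          = gT (mat H (T (.leaf 0))) (H.tc (.prod P Q) (W.pull (fst (P.obj H.X) (Q.obj H.X))
              (H.E P (fun i => w₀ (Fin.castAdd Q.size i)))
            * W.pull (snd (P.obj H.X) (Q.obj H.X)) (H.E Q (fun i => w₀ (Fin.natAdd P.size i)))))
        rw [hT.ext, Ge.tc_outer, Ge.tc_outer, tc_sym hT P, tc_sym hT Q]
        exact (AL2.outer_gT _ _ _).symm)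
    have hz : z ∈ (⊤ : Submodule ℂ (W.coh ((Prd.prod P Q).obj H.X))) := trivial
    rw [← h] at hz
    exact LinearMap.mem_eqLocus.1 hz

/-- the coordinates of a homogeneous class -/
theorem tc_deg (P : Prd 1) {d : ℕ} {z : W.coh (P.obj H.X)} (hz : z ∈ W.gr (P.obj H.X) d)
    (w : Fin P.size → H.I) (hw : ∑ i, (H.D.typ (w i)).2 ≠ d) : H.tc P z w = 0 := by
  have hP := H.memP P
  rw [Host.tc_apply, Host.psiP, psi]
  have hE := Ge.E_gr H P (H.D.τ ∘ w)
  have h1 : ∑ i, (H.D.typ ((H.D.τ ∘ w) i)).2 = ∑ i, (H.D.typ (w i)).2 :=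
    Finset.sum_congr rfl (fun i _ => by rw [Function.comp_apply, H.D.typ_τ])
  rw [h1] at hE
  rcases lt_or_ge (2 * P.dim H.n) (∑ i, (H.D.typ (w i)).2) with h | h
  · rw [H.hW.top_gr hP hE h, map_zero, mul_zero, map_zero, mul_zero]
  · have h2 := (staB (H.lamP P).1.slm).1 _ _ h hE
    rw [H.hW.tr_gr hP (H.hW.mul_gr hP hz h2), mul_zero]
    omega

theorem tl_deg {d : ℕ} {z : W.coh (H.X 0)} (hz : z ∈ W.gr (H.X 0) d) (i : H.I)
    (hi : (H.D.typ i).2 ≠ d) : tl H z (fun _ => i) = 0 := by
  refine tc_deg H (.leaf 0) (z := z) hz (fun _ => i) ?_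
  have h1 : ∑ _j : Fin 1, (H.D.typ i).2 = (H.D.typ i).2 := Fin.sum_univ_one _
  intro e
  exact hi (h1.symm.trans e)

/-- the matrix preserves the letters -/
theorem mat_typ (hT : SymF W H.X T) (i j : H.I) (h : H.D.typ i ≠ H.D.typ j) :
    mat H (T (.leaf 0)) i j = 0 := by
  refine tl_deg H (hT.deg _ _ (H.e_gr 0 j)) i ?_
  intro e
  exact h (Prod.ext (Subsingleton.elim _ _) e)

/-- **The matrix fixes the coordinates of the algebraic classes.** -/
theorem mat_fix (hT : SymF W H.X T) (L : ℕ) (u : Ten H.I L) (hu : u ∈ H.At L) :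
    gT (mat H (T (.leaf 0))) u = u := by
  refine AddSubgroup.closure_induction (p := fun u _ => gT (mat H (T (.leaf 0))) u = u)
    ?_ ?_ ?_ ?_ hu
  · rintro _ (⟨rfl, q, rfl⟩ | ⟨P, rfl, z, hz, rfl⟩)
    · funext w
      simp [gT]
    · have h1 : T P z = z := by
        refine tot_induction H.hW (P := fun z => T P z = z) hz (fun l z hz => hT.alg P l z hz) ?_
        intro a b ha hb
        rw [map_add, ha, hb]
      have h2 := tc_sym H hT P z
      rw [h1] at h2
      exact h2.symm
  · funext w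
    simp [gT]
  · intro a b _ _ ha hb
    rw [AL1A.gT_add, ha, hb]
  · intro a _ ha
    have h1 := AL1A.gT_smul (mat H (T (.leaf 0))) (-1) a
    rw [neg_one_smul, neg_one_smul, ha] at h1
    exact h1

/-- **The matrix of a symmetry belongs to the group.** -/
theorem mat_isG (hat : H.AtFacts) (hT : SymF W H.X T) : IsG H.D (mat H (T (.leaf 0))) :=
  isG_of_om H.D (mat_typ H hT) fun α => mat_fix H hT 2 _ (hat.om α)

/-- the values on the basis -/
theorem sym_e (t : W.coh (H.X 0) →ₗ[ℂ] W.coh (H.X 0)) (j : H.I) :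
    t (H.e 0 j) = ∑ i, mat H t i j • H.e 0 i := by
  have h := Ge.expand H (.leaf 0) (t (H.e 0 j))
  refine h.trans ?_
  refine Fintype.sum_equiv (Equiv.funUnique (Fin 1) H.I) _ _ fun w => ?_
  have h1 : w = fun _ => (Equiv.funUnique (Fin 1) H.I) w := by
    funext i
    exact congrArg w (Subsingleton.elim (α := Fin 1) _ _)
  show tl H (t (H.e 0 j)) w • H.e 0 (w ⟨0, Nat.one_pos⟩) = _
  rw [h1]
  rfl

end SymM

end

end Pool.Agent.Lib.MP_361a6f_ag.FL.E
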