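import Pool.Agent.Lib.MP_361a6f_ag.FL.E.Fam
import Pool.Agent.Lib.MP_361a6f_ag.FL.C.StatF

/-!
# Theorem E: the Frobenius endomorphism of the reduction is a symmetry

`F^*` multiplies the specialisation of the divisor class by `q`; as `H^0 = ℂ` it multiplies the
trace by `q^g`. The pull-backs along `F × ⋯ × F` are compatible with exterior products.
-/

open CategoryTheory AlgebraicGeometry MonoidalCategory CartesianMonoidalCategory

universe u v w u' w'

set_option autoImplicit false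
set_option linter.unusedSectionVars false

namespace Pool.Agent.Lib.MP_361a6f_ag.FL.E

open Pool.Agent.Lib.MP_361a6f_ag.H3 Pool.Agent.Lib.MP_361a6f_ag.SQ
  Pool.Agent.Lib.MP_361a6f_ag.PP

section one

variable {k : Type u} [Field k] {W : CohomologyData.{u, 0, w} k ℂ} {𝒱 : VarietyClass k}

/-- a class of degree `2 dim X` and trace `0` is zero if `H^0(X) = ℂ` -/
theorem top_eq_zero (hW : IsWeilCohomology W 𝒱) {X : Sch k} {n : ℕ} (hX : 𝒱.mem X n)
    (hc : ∀ x ∈ W.gr X 0, ∃ c : ℂ, x = c • (1 : W.coh X)) {x : W.coh X}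
    (hx : x ∈ W.gr X (2 * n)) (h0 : W.tr X x = 0) : x = 0 := by
  refine hW.poincare.duality hX x fun y => ?_
  show W.tr X (x * y) = 0
  refine StarTr.ind (P := fun y => W.tr X (x * y) = 0) (hW.internal hX) y ?_ ?_ ?_
  · intro i y hy
    rcases Nat.eq_zero_or_pos i with rfl | hi
    · obtain ⟨c, rfl⟩ := hc y hy
      rw [mul_smul_comm, mul_one, map_smul, h0, smul_zero]
    · have h1 : x * y ∈ W.gr X (2 * n + i) := hW.graded.mul hX hx hy
      rw [hW.top_gr hX h1 (by omega), map_zero]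
  · rw [mul_zero, map_zero]
  · intro y z hy hz
    rw [mul_add, map_add, hy, hz, add_zero]

/-- a multiplicative map that preserves the degree and multiplies `ξ` by `q` multiplies the trace by
`q^n` -/
theorem tr_of_pol (hW : IsWeilCohomology W 𝒱) {X : Sch k} {n : ℕ} (hX : 𝒱.mem X n)
    (hc : ∀ x ∈ W.gr X 0, ∃ c : ℂ, x = c • (1 : W.coh X)) {ξ : W.coh X}
    (hξ : ξ ∈ W.gr X 2) (ht : W.tr X (ξ ^ n) ≠ 0) {φ : W.coh X →ₗ[ℂ] W.coh X}
    (h1 : φ 1 = 1) (hm : ∀ x y, φ (x * y) = φ x * φ y) (hd : ∀ i, ∀ x ∈ W.gr X i, φ x ∈ W.gr X i)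
    {q : ℂ} (hp : φ ξ = q • ξ) (x : W.coh X) : W.tr X (φ x) = q ^ n * W.tr X x := by
  have hpow : ∀ r : ℕ, φ (ξ ^ r) = q ^ r • ξ ^ r := by
    intro r
    induction r with
    | zero => rw [pow_zero, pow_zero, one_smul, h1]
    | succ r ih => rw [pow_succ, hm, ih, hp, smul_mul_assoc, mul_smul_comm, smul_smul, pow_succ]
  have hgr : ∀ r : ℕ, ξ ^ r ∈ W.gr X (2 * r) := by
    intro r
    induction r with
    | zero =>
      rw [pow_zero]
      exact hW.one_gr hX
    | succ r ih =>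
      rw [pow_succ]
      exact hW.graded.mul hX ih hξ
  refine StarTr.ind (P := fun x => W.tr X (φ x) = q ^ n * W.tr X x) (hW.internal hX) x ?_ ?_ ?_
  · intro i x hx
    by_cases hi : i = 2 * n
    · subst hi
      have h2 : x - (W.tr X x / W.tr X (ξ ^ n)) • ξ ^ n = 0 := by
        refine top_eq_zero hW hX hc (sub_mem hx (Submodule.smul_mem _ _ (hgr n))) ?_
        rw [map_sub, map_smul, smul_eq_mul, div_mul_cancel₀ _ ht, sub_self]
      have h3 : x = (W.tr X x / W.tr X (ξ ^ n)) • ξ ^ n := sub_eq_zero.1 h2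
      have h4 : φ x = q ^ n • x := by
        conv_lhs => rw [h3]
        conv_rhs => rw [h3]
        rw [map_smul, hpow, smul_comm]
      rw [h4, map_smul, smul_eq_mul]
    · have e1 : W.tr X x = 0 := hW.poincare.deg hX hx hi
      have e2 : W.tr X (φ x) = 0 := hW.poincare.deg hX (hd i x hx) hi
      rw [e1, e2, mul_zero]
  · rw [map_zero, map_zero, mul_zero]
  · intro x y hx hy
    rw [map_add, map_add, map_add, hx, hy, mul_add]

end one

/-- the pull-backs along `F × ⋯ × F` -/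
noncomputable def frH {k' : Type u'} [Field k'] (W' : CohomologyData.{u', 0, w'} k' ℂ) {X' : Sch k'}
    (F : X' ⟶ X') (P : Prd 1) : W'.coh (P.obj fun _ => X') →ₗ[ℂ] W'.coh (P.obj fun _ => X') :=
  (W'.pull (EQ.pwMap F P)).toLinearMap

section spc

variable {k : Type u} [Field k] {W : CohomologyData.{u, 0, w} k ℂ} {k' : Type u'} [Field k']
  {W' : CohomologyData.{u', 0, w'} k' ℂ} {𝒱 : VarietyClass k} {𝒱' : VarietyClass k'}
  {X : Fin 1 → Sch k} {X' : Sch k'} {ξ : ∀ a, W.coh (X a)} {ξ' : W'.coh X'} {n : ℕ}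

theorem frH_apply (F : X' ⟶ X') (P : Prd 1) (z : W'.coh (P.obj fun _ => X')) :
    frH W' F P z = W'.pull (EQ.pwMap F P) z := rfl

theorem frH_leaf (F : X' ⟶ X') (z : W'.coh X') :
    (frH W' F (.leaf 0) z : W'.coh X') = W'.pull F z := rfl

/-- compatibility with exterior products -/
theorem frH_ext (F : X' ⟶ X') (P Q : Prd 1) (y : W'.coh (P.obj fun _ => X'))
    (z : W'.coh (Q.obj fun _ => X')) :
    frH W' F (.prod P Q) (W'.ext y z) = W'.ext (frH W' F P y) (frH W' F Q z) := by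
  show W'.pull (EQ.pwMap F P ⊗ₘ EQ.pwMap F Q)
      (W'.pull (fst (P.obj fun _ => X') (Q.obj fun _ => X')) y *
        W'.pull (snd (P.obj fun _ => X') (Q.obj fun _ => X')) z) =
    W'.pull (fst (P.obj fun _ => X') (Q.obj fun _ => X')) (W'.pull (EQ.pwMap F P) y) *
      W'.pull (snd (P.obj fun _ => X') (Q.obj fun _ => X')) (W'.pull (EQ.pwMap F Q) z)
  rw [map_mul, ← W'.pull_comp, ← W'.pull_comp, ← W'.pull_comp, ← W'.pull_comp, tensorHom_fst,
    tensorHom_snd]

namespace Spc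

variable (S : Spc W W' X X' ξ ξ')

theorem one : S.s0 1 = 1 := by
  obtain ⟨y, hy⟩ := S.s0.surjective 1
  have h := S.mul 1 y
  rw [one_mul, hy, mul_one] at h
  exact h.symm

theorem pow (x : W.coh (X 0)) (r : ℕ) : S.s0 (x ^ r) = S.s0 x ^ r := by
  induction r with
  | zero => rw [pow_zero, pow_zero, S.one]
  | succ r ih => rw [pow_succ, pow_succ, S.mul, ih]

variable (hW : IsWeilCohomology W 𝒱) (hW' : IsWeilCohomology W' 𝒱') (hX : 𝒱.mem (X 0) n)
  (hX' : 𝒱'.mem X' n)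

include S hW hW' hX hX' in
/-- `H^0(X') = ℂ` -/
theorem conn (hc : ∀ x ∈ W.gr (X 0) 0, ∃ c : ℂ, x = c • (1 : W.coh (X 0))) :
    ∀ y ∈ W'.gr X' 0, ∃ c : ℂ, y = c • (1 : W'.coh X') := by
  intro y hy
  obtain ⟨c, hc⟩ := hc _ (StarTr.symm_gr S.s0 (hW.internal hX) (hW'.internal hX') S.gr hy)
  refine ⟨c, ?_⟩
  have h := congrArg S.s0 hc
  rwa [LinearEquiv.apply_symm_apply, map_smul, S.one] at h

include S in
/-- the specialisation of a divisor class of positive degree -/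
theorem posd (h : PositiveDivisor W (X 0) n (ξ 0)) : PositiveDivisor W' X' n ξ' := by
  constructor
  · have h1 := S.alg (.leaf 0) 1 (ξ 0) h.1
    have h2 : (S.s (.leaf 0) (ξ 0) : W'.coh X') = ξ' := (S.leaf _).trans S.xi
    rw [h2] at h1
    exact h1
  · have h1 : W'.tr X' (ξ' ^ n) = W.tr (X 0) (ξ 0 ^ n) := by
      rw [← S.xi, ← S.pow, S.tr]
    show RatPos (W'.tr X' (ξ' ^ n))
    rw [h1]
    exact h.2

include S hW hW' hX hX' in
/-- **`F^*` is a symmetry of weight `q`.** -/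
theorem symStr (hc : ∀ x ∈ W.gr (X 0) 0, ∃ c : ℂ, x = c • (1 : W.coh (X 0)))
    (hp : PositiveDivisor W (X 0) n (ξ 0)) {F : X' ⟶ X'} {q : ℚ}
    (hF : W'.pull F ξ' = (q : ℂ) • ξ') : SymStr W' X' n ξ' q (frH W' F (.leaf 0)) := by
  have hp' := S.posd hp
  have ht : W'.tr X' (ξ' ^ n) ≠ 0 := by
    obtain ⟨r, hr, h⟩ := hp'.2
    have h' : W'.tr X' (ξ' ^ n) = (r : ℂ) := h
    rw [h']
    exact_mod_cast hr.ne'
  have hd : ∀ i, ∀ x ∈ W'.gr X' i, W'.pull F x ∈ W'.gr X' i := fun i x hx =>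
    hW'.graded.pull hX' hX' F hx
  exact
    { cup := fun x y => map_mul (W'.pull F) x y
      deg := hd
      pol := hF
      tr := fun x => tr_of_pol hW' hX' (S.conn hW hW' hX hX' hc) (hW'.alg_gr hX' hp'.1) ht
        (φ := (W'.pull F).toLinearMap) (map_one (W'.pull F)) (map_mul (W'.pull F)) hd hF x }

end Spc

end spc

/-! ### The host of the reduction -/

section host

variable {k : Type u} [Field k] {W : CohomologyData.{u, 0, w} k ℂ} {k' : Type u'} [Field k']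
  {W' : CohomologyData.{u', 0, w'} k' ℂ} {𝒱 : VarietyClass k} {𝒱' : VarietyClass k'}
  (H : Host W 𝒱 1) {X' : Sch k'} {ξ' : W'.coh X'} (S : Spc W W' H.X X' H.ξ ξ')
  (hW' : IsWeilCohomology W' 𝒱') (hX' : 𝒱'.mem X' (H.n 0))

/-- the pull-backs along `F × ⋯ × F` on the second host -/
noncomputable def FrH (F : X' ⟶ X') (P : Prd 1) :
    W'.coh (P.obj (host2 H S hW' hX').X) →ₗ[ℂ] W'.coh (P.obj (host2 H S hW' hX').X) :=
  frH W' F P

/-- the premise `hF` of the Frobenius row -/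
theorem symH (hc : ∀ x ∈ W.gr (H.X 0) 0, ∃ c : ℂ, x = c • (1 : W.coh (H.X 0)))
    (hp : PositiveDivisor W (H.X 0) (H.n 0) (H.ξ 0)) {F : X' ⟶ X'} {q : ℚ}
    (hF : W'.pull F ξ' = (q : ℂ) • ξ') (a : Fin 1) :
    SymStr W' ((host2 H S hW' hX').X a) ((host2 H S hW' hX').n a) ((host2 H S hW' hX').ξ a) q
      (FrH H S hW' hX' F (.leaf a)) := by
  obtain rfl : a = 0 := Subsingleton.elim _ _
  exact S.symStr H.hW hW' (H.mem 0) hX' hc hp hF

/-- the premise `hFp` of the Frobenius row -/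
theorem extH (F : X' ⟶ X') (P Q : Prd 1) (y : W'.coh (P.obj (host2 H S hW' hX').X))
    (z : W'.coh (Q.obj (host2 H S hW' hX').X)) :
    FrH H S hW' hX' F (.prod P Q) (W'.ext y z) =
      W'.ext (FrH H S hW' hX' F P y) (FrH H S hW' hX' F Q z) :=
  frH_ext F P Q y z

/-- the premise `hf` of the Frobenius row -/
theorem leafH (F : X' ⟶ X') (z : W'.coh ((host2 H S hW' hX').X 0)) :
    FrH H S hW' hX' F (.leaf 0) z = W'.pull (Y := X') F z := rfl

end host

/-! ### From the hypotheses of the theorem -/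

section hyp

variable {k : Type u} [Field k] {k' : Type v} [Field k'] {W : CohomologyData.{u, 0, w} k ℂ}
  {𝒱 : VarietyClass k} {W' : CohomologyData.{v, 0, w'} k' ℂ} {𝒱' : VarietyClass k'}
  (hW : IsWeilCohomology W 𝒱) (hW' : IsWeilCohomology W' 𝒱') {D : EQ.Data W W'}
  (h : EQ.Hyp 𝒱 𝒱' D)

include h in
/-- `F^* ξ' = q ξ'` -/
theorem pull_xi : W'.pull D.F (D.s (.leaf 0) D.ξ) = (((D.q : ℚ) : ℂ)) • D.s (.leaf 0) D.ξ := by
  have h1 := h.frob (.leaf 0) 1 D.ξ h.div.1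
  rw [pow_one] at h1
  have h2 : (((D.q : ℚ) : ℂ)) = (D.q : ℂ) := by norm_cast
  rw [h2]
  exact h1

include h in
/-- `F × ⋯ × F` multiplies the specialisations of the algebraic classes of codimension `l` by
`q^l` -/
theorem frH_alg (P : Prd 1) (l : ℕ) (z : W.coh (EQ.pw D.X P)) (hz : z ∈ W.alg (EQ.pw D.X P) l) :
    frH W' D.F P (D.s P z) = (((D.q : ℚ) : ℂ)) ^ l • D.s P z := by
  have h2 : (((D.q : ℚ) : ℂ)) = (D.q : ℂ) := by norm_cast
  rw [h2]
  exact h.frob P l z hz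

include hW hW' h in
theorem conn_hyp : ∀ y ∈ W'.gr D.X' 0, ∃ c : ℂ, y = c • (1 : W'.coh D.X') :=
  (spcOf h.spec D.ξ).conn hW hW' h.mem h.mem' h.conn

include h in
theorem posd_hyp : PositiveDivisor W' D.X' D.g (D.s (.leaf 0) D.ξ) :=
  (spcOf h.spec D.ξ).posd (n := D.g) h.div

include hW hW' h in
/-- **`F^*` is a symmetry of weight `q` of the cohomology of `X'`.** -/
theorem symStr_hyp : SymStr W' D.X' D.g (D.s (.leaf 0) D.ξ) D.q (frH W' D.F (.leaf 0)) :=
  (spcOf h.spec D.ξ).symStr hW hW' h.mem h.mem' h.conn h.div (pull_xi h)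

end hyp

end Pool.Agent.Lib.MP_361a6f_ag.FL.E
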