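import Pool.Agent.Lib.MP_361a6f_ag.FL.E.NSys
import Pool.Agent.Lib.MP_361a6f_ag.FL.E.Tate
import Pool.Agent.Lib.MP_361a6f_ag.FL.E.FrobH
import Pool.Agent.Lib.MP_361a6f_ag.FL.E.Hst
import Pool.Agent.Lib.MP_361a6f_ag.FL.Main

/-!
# Theorem E+: the data of a host and of the host of the reduction
-/

open CategoryTheory AlgebraicGeometry MonoidalCategory CartesianMonoidalCategory

universe u u' w w'

set_option autoImplicit false

namespace Pool.Agent.Lib.MP_361a6f_ag.FL.E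

open Pool.Agent.Lib.MP_361a6f_ag.H3 Pool.Agent.Lib.MP_361a6f_ag.SQ
  Pool.Agent.Lib.MP_361a6f_ag.PP

noncomputable section

variable {k : Type u} [Field k] {W : CohomologyData.{u, 0, w} k ℂ} {k' : Type u'} [Field k']
  {W' : CohomologyData.{u', 0, w'} k' ℂ} {𝒱 : VarietyClass k} {𝒱' : VarietyClass k'}

variable (H : Host W 𝒱 1) {X' : Sch k'} {ξ' : W'.coh X'} (S : Spc W W' H.X X' H.ξ ξ')
  (hW' : IsWeilCohomology W' 𝒱') (hX' : 𝒱'.mem X' (H.n 0))
  (F : X' ⟶ X') {q : ℕ}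

/-- the square root of `q` -/
def sq (q : ℕ) : ℂ := ((Real.sqrt q : ℝ) : ℂ)

theorem sq_ne {q : ℕ} (hq : 0 < q) : sq q ≠ 0 := by
  have h : (0 : ℝ) < Real.sqrt q := Real.sqrt_pos.2 (by exact_mod_cast hq)
  unfold sq
  exact_mod_cast h.ne'

theorem sq_sq (q : ℕ) : sq q ^ 2 = ((q : ℚ) : ℂ) := by
  unfold sq
  have h : Real.sqrt q ^ 2 = (q : ℝ) := Real.sq_sqrt (Nat.cast_nonneg q)
  have h2 : ((Real.sqrt q : ℝ) : ℂ) ^ 2 = ((Real.sqrt q ^ 2 : ℝ) : ℂ) := by push_cast; ring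
  rw [h2, h]
  push_cast
  rfl

/-- the matrix of Frobenius on `H^1`, divided by the square root of `q` -/
def FM (q : ℕ) : Matrix (Sub H.D (0, 1)) (Sub H.D (0, 1)) ℂ :=
  blk (PhiF.gam (host2 H S hW' hX') (sq q) (FrH H S hW' hX' F))

/-- a matrix that fixes the coordinates of the algebraic classes fixes the algebraic tensors -/
theorem at_fix_of {M : Matrix H.I H.I ℂ}
    (hM : ∀ (P : Prd 1) (l : ℕ) (z : W.coh (P.obj H.X)), z ∈ W.alg (P.obj H.X) l →
      gT M (H.tc P z) = H.tc P z) (L : ℕ) (u : Ten H.I L) (hu : u ∈ H.At L) : gT M u = u := by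
  refine AddSubgroup.closure_induction (p := fun u _ => gT M u = u) ?_ ?_ ?_ ?_ hu
  · rintro u (⟨h, c, rfl⟩ | ⟨P, h, z, hz, rfl⟩)
    · subst h
      funext w
      unfold gT
      rw [Fintype.sum_eq_single w fun w' hw' => absurd (Subsingleton.elim _ _) hw']
      simp
    · subst h
      show gT M (H.tc P z) = H.tc P z
      refine tot_induction (P := fun z => gT M (H.tc P z) = H.tc P z) H.hW hz ?_ ?_
      · intro l z hz
        exact hM P l z hz
      · intro x y hx hy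
        rw [map_add, alg1.gT_add, hx, hy]
  · have h := alg1.gT_smul M (0 : ℂ) (0 : Ten H.I L)
    rwa [zero_smul, zero_smul] at h
  · intro a b _ _ ha hb
    rw [alg1.gT_add, ha, hb]
  · intro a _ ha
    have h := alg1.gT_smul M (-1 : ℂ) a
    rw [neg_one_smul, neg_one_smul, ha] at h
    exact h

/-- the algebraic tensors are fixed by Frobenius -/
theorem at_fix (hq : 0 < q)
    (hc : ∀ x ∈ W.gr (H.X 0) 0, ∃ c : ℂ, x = c • (1 : W.coh (H.X 0)))
    (hp : PositiveDivisor W (H.X 0) (H.n 0) (H.ξ 0))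
    (hF : W'.pull F ξ' = (((q : ℚ) : ℂ)) • ξ')
    (frob : ∀ (P : Prd 1) (l : ℕ) (z : W.coh (P.obj H.X)), z ∈ W.alg (P.obj H.X) l →
      frH W' F P (S.s P z) = (((q : ℚ) : ℂ)) ^ l • S.s P z) (L : ℕ) (u : Ten H.I L)
    (hu : u ∈ H.At L) :
    gT (PhiF.gam (host2 H S hW' hX') (sq q) (FrH H S hW' hX' F) : Matrix H.I H.I ℂ) u = u := by
  refine at_fix_of H (fun P l z hz => ?_) L u hu
  have e := tc_s H S hW' hX' (ge H) (ge (host2 H S hW' hX')) P z
  have h1 := gam_fix (host2 H S hW' hX') (sq_ne hq) (sq_sq q) (symH H S hW' hX' hc hp hF)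
    (extH H S hW' hX' F) P (l := l) (z := S.s P z)
    (hW'.alg_gr ((host2 H S hW' hX').memP P) (S.alg P l z hz)) (frob P l z hz)
  exact (congrArg (gT (PhiF.gam (host2 H S hW' hX') (sq q) (FrH H S hW' hX' F) :
    Matrix H.I H.I ℂ)) e.symm).trans (h1.trans e)

/-- the projection to the letter of degree one -/
theorem at_res {L : ℕ} {u : Ten H.I L} (hu : u ∈ H.At L) : At1 H L (res H.D (0, 1) u) := by
  show ext0 H.D (0, 1) (res H.D (0, 1) u) ∈ H.At L
  rw [ext_res]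
  have h1 := LET.at_letters H (fun _ : Fin L => ((0, 1) : Fin 1 × ℕ)) hu
  have e : (fun w : Fin L → H.I => if On H.D (0, 1) w then u w else 0)
      = fun w => if ∀ i, H.D.typ (w i) = (0, 1) then u w else 0 := by
    funext w
    by_cases hw : On H.D (0, 1) w
    · rw [if_pos hw]
      exact (if_pos hw).symm
    · rw [if_neg hw]
      exact (if_neg hw).symm
  rw [e]
  exact h1

theorem mten_real {M : Matrix (Sub H.D (0, 1)) (Sub H.D (0, 1)) ℂ} {q : ℕ}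
    (h : ∃ u ∈ H.At 2, ext0 H.D (0, 1) (mten (subD H.D (0, 1)) M) = (sq q)⁻¹ • u) :
    mten (subD H.D (0, 1)) M ∈ Submodule.span ℝ {u | At1 H 2 u} := by
  obtain ⟨u, hu, h⟩ := h
  have h1 : mten (subD H.D (0, 1)) M = (Real.sqrt q)⁻¹ • res H.D (0, 1) u := by
    funext w
    have h2 := congrFun h (up w)
    rw [ext0_up] at h2
    rw [h2]
    show (sq q)⁻¹ * u (up w) = (Real.sqrt q)⁻¹ • u (up w)
    rw [Complex.real_smul]
    unfold sq
    push_cast
    rfl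
  rw [h1]
  exact Submodule.smul_mem _ _ (Submodule.subset_span (at_res H hu))

/-- **The data of Theorem E+.** -/
theorem nsys (hq : 0 < q)
    (hc : ∀ x ∈ W.gr (H.X 0) 0, ∃ c : ℂ, x = c • (1 : W.coh (H.X 0)))
    (hp : PositiveDivisor W (H.X 0) (H.n 0) (H.ξ 0))
    (hF : W'.pull F ξ' = (((q : ℚ) : ℂ)) • ξ')
    (frob : ∀ (P : Prd 1) (l : ℕ) (z : W.coh (P.obj H.X)), z ∈ W.alg (P.obj H.X) l →
      frH W' F P (S.s P z) = (((q : ℚ) : ℂ)) ^ l • S.s P z)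
    (idx : HodgeCodim W' (X' ⊗ X') (H.n 0 + H.n 0)
      (W'.pull (fst X' X') ξ' + W'.pull (snd X' X') ξ') 1)
    (tate : ∀ A : Module.End ℂ (W'.coh X'), (∀ v ∈ W'.gr X' 1, A v ∈ W'.gr X' 1) →
      (∀ z ∈ W'.alg (X' ⊗ X') (H.n 0), ∀ v ∈ W'.gr X' 1, A (cor W' z v) = cor W' z (A v)) →
      ∃ p : Polynomial ℂ, ∀ v ∈ W'.gr X' 1, A v = Polynomial.aeval
        ((W'.pull F).toLinearMap : Module.End ℂ (W'.coh X')) p v)
    (ratio : ∀ a b : ℂ, (∃ v ∈ W'.gr X' 1, v ≠ 0 ∧ W'.pull F v = a • v) →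
      (∃ v ∈ W'.gr X' 1, v ≠ 0 ∧ W'.pull F v = b • v) → a ≠ b →
      ∀ n : ℕ, 0 < n → a ^ n ≠ b ^ n)
    (Γ : Set (Matrix (Sub H.D (0, 1)) (Sub H.D (0, 1)) ℂ))
    (grp : ∀ x ∈ Γ, IsG (subD H.D (0, 1)) x)
    (gfix : ∀ x ∈ Γ, ∀ L u, At1 H L u → gT x u = u)
    (nd : ∀ L, ∀ u ∈ Submodule.span ℂ {u | At1 H L u}, u ≠ 0 →
      ∃ v ∈ Submodule.span ℂ {u | At1 H L u}, psiT (subD H.D (0, 1)) u v ≠ 0) :
    NSys (subD H.D (0, 1)) (At1 H) (At1 (host2 H S hW' hX')) (FM H S hW' hX' F q) Γ where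
  sys := aSys_sub (aSys_at (at_ H))
  csys := aSys_sub (aSys_at (at_ (host2 H S hW' hX')))
  typ_eq i j := i.2.trans j.2.symm
  odd i := by
    show H.D.odd (H.D.typ i.1)
    rw [i.2]
    exact Hst.odd_one H 0
  sub L u hu := at_le H S hW' hX' (ge H) (ge (host2 H S hW' hX')) L hu
  frob := gam_one (host2 H S hW' hX') (sq_ne hq) (sq_sq q) (symH H S hW' hX' hc hp hF)
    (S.posd hp)
  mten := mten_real (host2 H S hW' hX') (mten_mem (host2 H S hW' hX') (sq_ne hq)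
    (symH H S hW' hX' hc hp hF) F (leafH H S hW' hX' F))
  fix L u hu := fix_sub (gam_blocks (host2 H S hW' hX') (symH H S hW' hX' hc hp hF))
    (At := fun L u => u ∈ H.At L)
    (fun L u hu => at_fix H S hW' hX' F hq hc hp hF frob L u hu) L u hu
  pos u hu h0 := pos_two (host2 H S hW' hX') idx u hu h0
  ratio μ ν hμ hν h n hn := ratio_of (host2 H S hW' hX') (sq_ne hq) (symH H S hW' hX' hc hp hF)
    (FrH H S hW' hX' F (.leaf 0)) rfl ratio μ ν hμ hν h n hn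
  comm x hx := by
    obtain ⟨p, hp⟩ := comm_of_tate (host2 H S hW' hX') (sq_ne hq) (symH H S hW' hX' hc hp hF)
      (FrH H S hW' hX' F (.leaf 0)) rfl tate x hx
    rw [Algebra.adjoin_singleton_eq_range_aeval]
    exact ⟨p, hp.symm⟩
  grp := grp
  gfix := gfix
  nd := nd

end

end Pool.Agent.Lib.MP_361a6f_ag.FL.E
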