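import Pool.Agent.Lib.MP_361a6f_ag.FL.E.StatG
import Pool.Agent.Lib.MP_361a6f_ag.PP.LMP
import Pool.Agent.Lib.MP_361a6f_ag.PP.CG1
import Pool.Agent.Lib.MP_361a6f_ag.FL.GeoDefs

/-!
# Rational functionals, linear independence over `ℚ` and over `ℂ`, and conjugation

A rational subspace `A` of a complex vector space. If rational functionals separate `A` then they
separate the complex span of `A`, and elements of `A` that are linearly independent over `ℚ` are
linearly independent over `ℂ`. If this is so then complex linear relations between elements of `A`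
remain true if the coefficients are replaced by their complex conjugates. For a specialisation `s`
of the powers of `X` the trace of `s(x) s(y)` is the trace of `x y`.
-/

open CategoryTheory AlgebraicGeometry MonoidalCategory CartesianMonoidalCategory

universe u v w u' w'

set_option autoImplicit false
set_option linter.unusedSectionVars false

namespace Pool.Agent.Lib.MP_361a6f_ag.FL.E.RatU

open Pool.Agent.Lib.MP_361a6f_ag.H3 Pool.Agent.Lib.MP_361a6f_ag.SQ
  Pool.Agent.Lib.MP_361a6f_ag.PP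

/-! ### Linear algebra -/

section la

variable {V : Type*} [AddCommGroup V] [Module ℂ V]

/-- a rational subspace -/
structure RSub (A : Set V) : Prop where
  add : ∀ x ∈ A, ∀ y ∈ A, x + y ∈ A
  smul : ∀ (q : ℚ), ∀ x ∈ A, (q : ℂ) • x ∈ A

/-- elements of `A` that are linearly independent over `ℚ` are linearly independent over `ℂ` -/
def Indep (A : Set V) : Prop :=
  ∀ (n : ℕ) (z : Fin n → V), (∀ i, z i ∈ A) →
    (∀ q : Fin n → ℚ, ∑ i, (q i : ℂ) • z i = 0 → ∀ i, q i = 0) →
    ∀ c : Fin n → ℂ, ∑ i, c i • z i = 0 → ∀ i, c i = 0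

/-- relations between elements of `A` may be conjugated -/
def ConjA (A : Set V) : Prop :=
  ∀ (n : ℕ) (c : Fin n → ℂ) (z : Fin n → V), (∀ i, z i ∈ A) → ∑ i, c i • z i = 0 →
    ∑ i, starRingEnd ℂ (c i) • z i = 0

/-- a family of functionals, rational on `A`, that separates `A` -/
structure Sep (A : Set V) {ι : Type*} (φ : ι → V →ₗ[ℂ] ℂ) : Prop where
  rat : ∀ i, ∀ x ∈ A, ∃ q : ℚ, φ i x = (q : ℂ)
  sep : ∀ x ∈ A, (∀ i, φ i x = 0) → x = 0

variable {A : Set V}

/-- the elimination of the last term -/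
theorem elim {n : ℕ} {z : Fin (n + 1) → V} {c : Fin (n + 1) → ℂ} {φ : V →ₗ[ℂ] ℂ} {r : ℚ}
    (hr : φ (z (Fin.last n)) = (r : ℂ)) (hr0 : r ≠ 0) {t : Fin n → ℚ}
    (ht : ∀ i, φ (z (Fin.castSucc i)) = (t i : ℂ)) (h0 : φ (∑ i, c i • z i) = 0) :
    ∑ i : Fin n, c (Fin.castSucc i) •
      (z (Fin.castSucc i) + ((-(t i / r) : ℚ) : ℂ) • z (Fin.last n)) = ∑ i, c i • z i := by
  have hrC : (r : ℂ) ≠ 0 := Rat.cast_ne_zero.2 hr0
  rw [map_sum, Fin.sum_univ_castSucc] at h0
  simp only [map_smul, smul_eq_mul, hr, ht] at h0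
  rw [Fin.sum_univ_castSucc]
  simp only [smul_add, smul_smul, Finset.sum_add_distrib]
  rw [← Finset.sum_smul]
  congr 2
  have h1 : c (Fin.last n) = -(∑ i : Fin n, c (Fin.castSucc i) * (t i : ℂ)) / (r : ℂ) := by
    rw [eq_div_iff hrC]
    exact eq_neg_of_add_eq_zero_right h0
  rw [h1, neg_div, Finset.sum_div, ← Finset.sum_neg_distrib]
  refine Finset.sum_congr rfl fun i _ => ?_
  push_cast
  ring

/-- **Rational functionals that separate `A` separate its complex span.** -/
theorem sep_sum (hA : RSub A) {ι : Type*} {φ : ι → V →ₗ[ℂ] ℂ} (hφ : Sep A φ) :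
    ∀ (n : ℕ) (z : Fin n → V) (_ : ∀ i, z i ∈ A) (c : Fin n → ℂ)
      (_ : ∀ i, φ i (∑ j, c j • z j) = 0), ∑ j, c j • z j = 0
  | 0, z, _, c, _ => by rw [Fin.sum_univ_zero]
  | n + 1, z, hz, c, h0 => by
    by_cases hl : z (Fin.last n) = 0
    · have e : ∑ j, c j • z j = ∑ j : Fin n, c (Fin.castSucc j) • z (Fin.castSucc j) := by
        rw [Fin.sum_univ_castSucc, hl, smul_zero, add_zero]
      rw [e]
      exact sep_sum hA hφ n (fun j => z (Fin.castSucc j)) (fun j => hz _)
        (fun j => c (Fin.castSucc j)) fun i => by rw [← e]; exact h0 i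
    · obtain ⟨i, hi⟩ : ∃ i, φ i (z (Fin.last n)) ≠ 0 := by
        by_contra hh
        push Not at hh
        exact hl (hφ.sep _ (hz _) hh)
      obtain ⟨r, hr⟩ := hφ.rat i _ (hz (Fin.last n))
      have hr0 : r ≠ 0 := by
        rintro rfl
        exact hi (by rw [hr, Rat.cast_zero])
      choose t ht using fun j : Fin n => hφ.rat i _ (hz (Fin.castSucc j))
      have e := elim (c := c) hr hr0 ht (h0 i)
      rw [← e]
      exact sep_sum hA hφ n (fun j => z (Fin.castSucc j) + ((-(t j / r) : ℚ) : ℂ) • z (Fin.last n))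
        (fun j => hA.add _ (hz _) _ (hA.smul _ _ (hz _))) (fun j => c (Fin.castSucc j))
        fun i => by rw [e]; exact h0 i

theorem sep_span (hA : RSub A) {ι : Type*} {φ : ι → V →ₗ[ℂ] ℂ} (hφ : Sep A φ) {x : V}
    (hx : x ∈ Submodule.span ℂ A) (h0 : ∀ i, φ i x = 0) : x = 0 := by
  obtain ⟨n, c, z, rfl⟩ := Submodule.mem_span_set'.1 hx
  exact sep_sum hA hφ n (fun i => (z i : V)) (fun i => (z i).2) c h0

/-- **Rational functionals that separate `A`: linear independence over `ℚ` and over `ℂ`.** -/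
theorem indep_of_sep (hA : RSub A) {ι : Type*} {φ : ι → V →ₗ[ℂ] ℂ} (hφ : Sep A φ) :
    Indep A := by
  intro n
  induction n with
  | zero => exact fun z _ _ c _ i => i.elim0
  | succ n ih =>
    intro z hz hq c hc
    have hl : z (Fin.last n) ≠ 0 := by
      intro hl
      have h1 := hq (fun i => if i = Fin.last n then 1 else 0) (by
        refine Finset.sum_eq_zero fun i _ => ?_
        by_cases hi : i = Fin.last n
        · rw [hi, hl, smul_zero]
        · rw [if_neg hi, Rat.cast_zero, zero_smul]) (Fin.last n)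
      rw [if_pos rfl] at h1
      exact one_ne_zero h1
    obtain ⟨i, hi⟩ : ∃ i, φ i (z (Fin.last n)) ≠ 0 := by
      by_contra hh
      push Not at hh
      exact hl (hφ.sep _ (hz _) hh)
    obtain ⟨r, hr⟩ := hφ.rat i _ (hz (Fin.last n))
    have hr0 : r ≠ 0 := by
      rintro rfl
      exact hi (by rw [hr, Rat.cast_zero])
    choose t ht using fun j : Fin n => hφ.rat i _ (hz (Fin.castSucc j))
    have h2 := ih (fun j => z (Fin.castSucc j) + ((-(t j / r) : ℚ) : ℂ) • z (Fin.last n))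
      (fun j => hA.add _ (hz _) _ (hA.smul _ _ (hz _))) (fun q h0 => by
        have h3 := hq (Fin.snoc (fun j => q j) (∑ j, q j * (-(t j / r)))) (by
          rw [Fin.sum_univ_castSucc]
          simp only [Fin.snoc_castSucc, Fin.snoc_last]
          refine Eq.trans ?_ h0
          simp only [smul_add, smul_smul, Finset.sum_add_distrib]
          rw [← Finset.sum_smul]
          push_cast
          rfl)
        intro j
        have h4 := h3 (Fin.castSucc j)
        rwa [Fin.snoc_castSucc] at h4) (fun j => c (Fin.castSucc j)) (by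
          rw [elim hr hr0 ht (by rw [hc, map_zero])]
          exact hc)
    rw [Fin.sum_univ_castSucc] at hc
    have h5 : ∑ j : Fin n, c (Fin.castSucc j) • z (Fin.castSucc j) = 0 :=
      Finset.sum_eq_zero fun j _ => by rw [h2 j, zero_smul]
    rw [h5, zero_add] at hc
    intro j
    refine Fin.lastCases ?_ (fun j => h2 j) j
    exact (smul_eq_zero.1 hc).resolve_right hl

/-- **Linear independence over `ℚ` and over `ℂ`: relations may be conjugated.** -/
theorem conj_of_indep (hA : Indep A) : ConjA A := by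
  intro n
  induction n with
  | zero => exact fun c z _ _ => Fin.sum_univ_zero _
  | succ n ih =>
    intro c z hz hc
    by_cases hq : ∀ q : Fin (n + 1) → ℚ, ∑ i, (q i : ℂ) • z i = 0 → ∀ i, q i = 0
    · have h1 := hA (n + 1) z hz hq c hc
      exact Finset.sum_eq_zero fun i _ => by rw [h1 i, map_zero, zero_smul]
    · push Not at hq
      obtain ⟨q, hq0, m, hm⟩ := hq
      have hmC : (q m : ℂ) ≠ 0 := Rat.cast_ne_zero.2 hm
      have e : z m = ∑ i, (-((q (m.succAbove i) : ℂ) / (q m : ℂ))) • z (m.succAbove i) := by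
        rw [Fin.sum_univ_succAbove _ m] at hq0
        have h1 : z m = -((q m : ℂ)⁻¹ • ∑ i, (q (m.succAbove i) : ℂ) • z (m.succAbove i)) := by
          rw [← smul_neg, ← eq_neg_of_add_eq_zero_left hq0, smul_smul, inv_mul_cancel₀ hmC,
            one_smul]
        rw [h1, Finset.smul_sum, ← Finset.sum_neg_distrib]
        refine Finset.sum_congr rfl fun i _ => ?_
        rw [smul_smul, neg_smul, div_eq_inv_mul]
      have hsum : ∀ d : Fin (n + 1) → ℂ, ∑ i, d i • z i =
          ∑ i, (d (m.succAbove i) - d m * ((q (m.succAbove i) : ℂ) / (q m : ℂ))) •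
            z (m.succAbove i) := by
        intro d
        rw [Fin.sum_univ_succAbove _ m]
        conv_lhs => rw [e]
        rw [Finset.smul_sum, ← Finset.sum_add_distrib]
        refine Finset.sum_congr rfl fun i _ => ?_
        rw [smul_smul, ← add_smul]
        congr 1
        ring
      rw [hsum] at hc
      have h2 := ih _ _ (fun i => hz _) hc
      rw [hsum]
      refine Eq.trans (Finset.sum_congr rfl fun i _ => ?_) h2
      congr 1
      rw [map_sub, map_mul, map_div₀, map_ratCast, map_ratCast]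

/-- a family of functionals that separates, and conjugation -/
theorem conj_of_sep (hA : RSub A) {ι : Type*} {φ : ι → V →ₗ[ℂ] ℂ} (hφ : Sep A φ) : ConjA A :=
  conj_of_indep (indep_of_sep hA hφ)

end la

/-! ### Algebraic classes and intersection numbers -/

section geo

variable {k : Type u} [Field k] {W : CohomologyData.{u, 0, w} k ℂ} {𝒱 : VarietyClass k}

theorem rsub_alg (Y : Sch k) (j : ℕ) : RSub {z : W.coh Y | W.IsAlg Y j z} where
  add _ hx _ hy := (W.alg Y j).add_mem hx hy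
  smul q _ hx := W.alg_smul q hx

/-- linear images of rational subspaces -/
theorem RSub.map {V V' : Type*} [AddCommGroup V] [Module ℂ V] [AddCommGroup V'] [Module ℂ V']
    {A : Set V} (hA : RSub A) (f : V →ₗ[ℂ] V') : RSub {y | ∃ x ∈ A, f x = y} where
  add := by
    rintro _ ⟨x, hx, rfl⟩ _ ⟨y, hy, rfl⟩
    exact ⟨x + y, hA.add x hx y hy, map_add f x y⟩
  smul := by
    rintro q _ ⟨x, hx, rfl⟩
    exact ⟨(q : ℂ) • x, hA.smul q x hx, map_smul f _ x⟩

/-- the intersection number of algebraic classes is rational -/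
theorem tr_rat (hW : IsWeilCohomology W 𝒱) {Y : Sch k} {d : ℕ} (hY : 𝒱.mem Y d) {j l : ℕ}
    {x y : W.coh Y} (hx : W.IsAlg Y j x) (hy : W.IsAlg Y l y) : ∃ q : ℚ, W.tr Y (x * y) = q := by
  have h1 : x * y ∈ W.alg Y (j + l) := hW.mul_alg hY hx hy
  by_cases h : j + l = d
  · rw [h] at h1
    exact hW.tr_alg hY h1
  · exact ⟨0, by rw [hW.tr_gr hY (hW.alg_gr hY h1) (by omega), Rat.cast_zero]⟩

/-- `x` has an intersection number different from `0` with some algebraic class, if `x ≠ 0` is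
algebraic of codimension `j` -/
def RNum (W : CohomologyData.{u, 0, w} k ℂ) (Y : Sch k) (j : ℕ) : Prop :=
  ∀ x, W.IsAlg Y j x → (∀ l y, W.IsAlg Y l y → W.Tr (W.cup x y) = 0) → x = 0

/-- the functionals `Tr(x y)`, `y` algebraic -/
noncomputable def phi (W : CohomologyData.{u, 0, w} k ℂ) (Y : Sch k) (p : Σ l, W.alg Y l) :
    W.coh Y →ₗ[ℂ] ℂ := W.tr Y ∘ₗ LinearMap.mulRight ℂ (p.2 : W.coh Y)

theorem phi_apply (Y : Sch k) (p : Σ l, W.alg Y l) (x : W.coh Y) :
    phi W Y p x = W.tr Y (x * (p.2 : W.coh Y)) := rfl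

theorem sep_num (hW : IsWeilCohomology W 𝒱) {Y : Sch k} {d : ℕ} (hY : 𝒱.mem Y d) {j : ℕ}
    (h : RNum W Y j) : Sep {z : W.coh Y | W.IsAlg Y j z} (phi W Y) where
  rat p _ hx := tr_rat hW hY hx p.2.2
  sep x hx h0 := h x hx fun l y hy => h0 ⟨l, y, hy⟩

/-- **Numerical and homological equivalence with rational and with complex coefficients.** -/
theorem num_of_rat (hW : IsWeilCohomology W 𝒱) {Y : Sch k} {d : ℕ} (hY : 𝒱.mem Y d) {j : ℕ}
    (h : RNum W Y j) {x : W.coh Y} (hx : x ∈ Submodule.span ℂ {z | W.IsAlg Y j z})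
    (h0 : ∀ l y, W.IsAlg Y l y → W.Tr (W.cup x y) = 0) : x = 0 :=
  sep_span (rsub_alg Y j) (sep_num hW hY h) hx fun p => h0 p.1 _ p.2.2

/-- **Numerical equivalence is homological equivalence: linear independence over `ℚ` and `ℂ`.** -/
theorem indep_of_num (hW : IsWeilCohomology W 𝒱) {Y : Sch k} {d : ℕ} (hY : 𝒱.mem Y d) {j : ℕ}
    (h : RNum W Y j) : Indep {z : W.coh Y | W.IsAlg Y j z} :=
  indep_of_sep (rsub_alg Y j) (sep_num hW hY h)

/-! ### Specialisations -/

variable {k' : Type u'} [Field k'] {W' : CohomologyData.{u', 0, w'} k' ℂ} {𝒱' : VarietyClass k'}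
  {X : Sch k} {X' : Sch k'} {s : ∀ P : Prd 1, W.coh (EQ.pw X P) → W'.coh (EQ.pw X' P)}

/-- the tensor product of two maps -/
structure TenM {Y Z : Sch k} {Y' Z' : Sch k'} (sY : W.coh Y → W'.coh Y') (sZ : W.coh Z → W'.coh Z')
    (T : W.coh (Y ⊗ Z) → W'.coh (Y' ⊗ Z')) : Prop where
  add : ∀ x y, T (x + y) = T x + T y
  scal : ∀ (c : ℂ) x, T (c • x) = c • T x
  ext : ∀ y z, T (W.pull (fst Y Z) y * W.pull (snd Y Z) z) =
    W'.pull (fst Y' Z') (sY y) * W'.pull (snd Y' Z') (sZ z)

section ten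

variable {Y Z : Sch k} {Y' Z' : Sch k'} {sY : W.coh Y → W'.coh Y'} {sZ : W.coh Z → W'.coh Z'}
  {T : W.coh (Y ⊗ Z) → W'.coh (Y' ⊗ Z')} (h : TenM sY sZ T)
include h

theorem TenM.zero : T 0 = 0 := by
  have h1 := h.scal 0 0
  rwa [zero_smul, zero_smul] at h1

variable (hW : IsWeilCohomology W 𝒱) (hW' : IsWeilCohomology W' 𝒱') {d e d' e' : ℕ}
  (mY : 𝒱.mem Y d) (mZ : 𝒱.mem Z e) (mY' : 𝒱'.mem Y' d') (mZ' : 𝒱'.mem Z' e')
  (gY : ∀ i, ∀ y ∈ W.gr Y i, sY y ∈ W'.gr Y' i) (gZ : ∀ i, ∀ z ∈ W.gr Z i, sZ z ∈ W'.gr Z' i)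
include hW hW' mY mZ mY' mZ' gY gZ

theorem TenM.gr {i : ℕ} {x : W.coh (Y ⊗ Z)} (hx : x ∈ W.gr (Y ⊗ Z) i) :
    T x ∈ W'.gr (Y' ⊗ Z') i := by
  refine LMP.gr_induction hW mY mZ (P := fun x => T x ∈ W'.gr (Y' ⊗ Z') i) hx ?_ ?_ ?_ ?_
  · intro p q y x hpq hy hx
    rw [h.ext, ← hpq]
    exact LMP.ext_gr hW' mY' mZ' (gY p y hy) (gZ q x hx)
  · rw [h.zero]
    exact zero_mem _
  · intro a b ha hb
    rw [h.add]
    exact add_mem ha hb
  · intro c a ha
    rw [h.scal]
    exact Submodule.smul_mem _ c ha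

theorem TenM.tr (tY : ∀ x y, W'.tr Y' (sY x * sY y) = W.tr Y (x * y))
    (tZ : ∀ x y, W'.tr Z' (sZ x * sZ y) = W.tr Z (x * y)) (x y : W.coh (Y ⊗ Z)) :
    W'.tr (Y' ⊗ Z') (T x * T y) = W.tr (Y ⊗ Z) (x * y) := by
  refine LMP.homog_induction hW mY mZ
    (P := fun x => W'.tr (Y' ⊗ Z') (T x * T y) = W.tr (Y ⊗ Z) (x * y)) x ?_ ?_ ?_ ?_
  · intro p q a b ha hb
    refine LMP.homog_induction hW mY mZ (P := fun y => W'.tr (Y' ⊗ Z')
      (T (W.pull (fst Y Z) a * W.pull (snd Y Z) b) * T y) =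
        W.tr (Y ⊗ Z) (W.pull (fst Y Z) a * W.pull (snd Y Z) b * y)) y ?_ ?_ ?_ ?_
    · intro p' q' a' b' ha' hb'
      rw [h.ext, h.ext, CG1.tr_ext_mul hW mY mZ a hb ha' b',
        CG1.tr_ext_mul hW' mY' mZ' (sY a) (gZ q b hb) (gY p' a' ha') (sZ b'), tY, tZ]
    · rw [h.zero, mul_zero, mul_zero, map_zero, map_zero]
    · intro u v hu hv
      rw [h.add, mul_add, mul_add, map_add, map_add, hu, hv]
    · intro c u hu
      rw [h.scal, mul_smul_comm, mul_smul_comm, map_smul, map_smul, hu]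
  · rw [h.zero, zero_mul, zero_mul, map_zero, map_zero]
  · intro u v hu hv
    rw [h.add, add_mul, add_mul, map_add, map_add, hu, hv]
  · intro c u hu
    rw [h.scal, smul_mul_assoc, smul_mul_assoc, map_smul, map_smul, hu]

end ten

/-- the maps `s P` as linear maps -/
noncomputable def sL (hs : EQ.Tensor W X W' X' s) (P : Prd 1) :
    W.coh (EQ.pw X P) →ₗ[ℂ] W'.coh (EQ.pw X' P) where
  toFun := s P
  map_add' := hs.add P
  map_smul' := hs.scal P

theorem tenM (hs : EQ.Tensor W X W' X' s) (P Q : Prd 1) : TenM (s P) (s Q) (s (.prod P Q)) :=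
  ⟨hs.add (.prod P Q), hs.scal (.prod P Q), hs.ext P Q⟩

variable (hW : IsWeilCohomology W 𝒱) (hW' : IsWeilCohomology W' 𝒱') {g g' : ℕ}
  (hX : 𝒱.mem X g) (hX' : 𝒱'.mem X' g') (hs : EQ.IsSpec W X W' X' s)
include hW hW' hX hX' hs

/-- a specialisation preserves the degree on all powers -/
theorem spec_gr : ∀ (P : Prd 1) (i : ℕ), ∀ x ∈ W.gr (EQ.pw X P) i, s P x ∈ W'.gr (EQ.pw X' P) i
  | .leaf a => by
    obtain rfl : a = 0 := Subsingleton.elim _ _
    exact hs.deg
  | .prod P Q => fun i x hx =>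
    (tenM hs.tensor P Q).gr hW hW'
      (FL.memP (X := fun _ => X) (n := fun _ => g) (fun _ => hX) P)
      (FL.memP (X := fun _ => X) (n := fun _ => g) (fun _ => hX) Q)
      (FL.memP (X := fun _ => X') (n := fun _ => g') (fun _ => hX') P)
      (FL.memP (X := fun _ => X') (n := fun _ => g') (fun _ => hX') Q)
      (spec_gr P) (spec_gr Q) hx

/-- **A specialisation preserves the trace of a product on all powers.** -/
theorem spec_tr : ∀ (P : Prd 1) (x y : W.coh (EQ.pw X P)),
    W'.tr (EQ.pw X' P) (s P x * s P y) = W.tr (EQ.pw X P) (x * y)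
  | .leaf a, x, y => by
    obtain rfl : a = 0 := Subsingleton.elim _ _
    exact (congrArg (W'.tr X') (hs.cup x y)).symm.trans (hs.tr (x * y))
  | .prod P Q, x, y =>
    (tenM hs.tensor P Q).tr hW hW'
      (FL.memP (X := fun _ => X) (n := fun _ => g) (fun _ => hX) P)
      (FL.memP (X := fun _ => X) (n := fun _ => g) (fun _ => hX) Q)
      (FL.memP (X := fun _ => X') (n := fun _ => g') (fun _ => hX') P)
      (FL.memP (X := fun _ => X') (n := fun _ => g') (fun _ => hX') Q)
      (spec_gr hW hW' hX hX' hs P) (spec_gr hW hW' hX hX' hs Q)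
      (spec_tr P) (spec_tr Q) x y

omit hW hW' hX hX' hs in
/-- no algebraic class `z ≠ 0` of codimension `j` on `X^P` has a numerically trivial
specialisation -/
def Alive (W : CohomologyData.{u, 0, w} k ℂ) (X : Sch k)
    (W' : CohomologyData.{u', 0, w'} k' ℂ) (X' : Sch k')
    (s : ∀ P : Prd 1, W.coh (EQ.pw X P) → W'.coh (EQ.pw X' P)) (P : Prd 1) (j : ℕ) : Prop :=
  ∀ z, W.IsAlg (EQ.pw X P) j z →
    (∀ l y, W'.IsAlg (EQ.pw X' P) l y → W'.Tr (W'.cup (s P z) y) = 0) → z = 0

/-- **Numerical equivalence is homological equivalence: no class dies.** -/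
theorem alive_of_num (P : Prd 1) {j : ℕ} (h : RNum W (EQ.pw X P) j) : Alive W X W' X' s P j :=
  fun z hz h0 => h z hz fun l y hy =>
    (spec_tr hW hW' hX hX' hs P z y).symm.trans (h0 l (s P y) (hs.alg P l y hy))

omit hX in
/-- **No class dies: linear independence over `ℚ` and over `ℂ`.** -/
theorem indep_of_alive (P : Prd 1) {j : ℕ} (h : Alive W X W' X' s P j) :
    Indep {z : W.coh (EQ.pw X P) | W.IsAlg (EQ.pw X P) j z} := by
  have mP' := FL.memP (X := fun _ => X') (n := fun _ => g') (fun _ => hX') P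
  refine indep_of_sep (rsub_alg _ j)
    (φ := fun p => phi W' (EQ.pw X' P) p ∘ₗ sL hs.tensor P) ⟨?_, ?_⟩
  · intro p x hx
    exact tr_rat hW' mP' (hs.alg P j x hx) p.2.2
  · intro x hx h0
    exact h x hx fun l y hy => h0 ⟨l, y, hy⟩

end geo

end Pool.Agent.Lib.MP_361a6f_ag.FL.E.RatU
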