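import Pool.Agent.Lib.MP_361a6f_ag.FL.E.BasF
import Pool.Agent.Lib.MP_361a6f_ag.FL.E.Mat
import Pool.Agent.Lib.MP_361a6f_ag.FL.Qps

/-!
# Theorem E+: a real structure that commutes with the algebraic operators, and an adapted basis
of eigenvectors of Frobenius

`Ct` is a rational system (the algebraic tensors over `H^1` of the reduction) on which `ψ` is
positive in length `2`, and `F` is an element of the group whose tensor is in the real span of
`Ct 2`. Then there is a `y` in the group such that `y⁻¹ Ct 2` is fixed by `J₀` and `y⁻¹ F y` is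
diagonal with entries of absolute value `1`.
-/

open Filter Topology MeasureTheory

set_option autoImplicit false
set_option linter.unusedSectionVars false

namespace Pool.Agent.Lib.MP_361a6f_ag.FL.E

variable {I Λ : Type} [Fintype I] [DecidableEq I] [DecidableEq Λ]

namespace Rea

/-! ### Matching the index sets -/

/-- two index sets with involutions and signs -/
theorem exists_match {I κ : Type} [Fintype I] [Fintype κ] {τ : I → I} {s : I → ℂ}
    {τ' : κ → κ} {s' : κ → ℂ} (h1 : ∀ i, τ (τ i) = i) (h2 : ∀ i, s i = 1 ∨ s i = -1)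
    (h3 : ∀ i, s (τ i) = -s i) (h1' : ∀ i, τ' (τ' i) = i) (h2' : ∀ i, s' i = 1 ∨ s' i = -1)
    (h3' : ∀ i, s' (τ' i) = -s' i) (hc : Fintype.card I = Fintype.card κ) :
    ∃ σ : I ≃ κ, (∀ i, σ (τ i) = τ' (σ i)) ∧ ∀ i, s' (σ i) = s i := by
  classical
  have hne : (1 : ℂ) ≠ -1 := by norm_num
  -- an index set is two copies of the set with sign `1`
  have hE : ∀ {α : Type} [Fintype α] {t : α → α} {r : α → ℂ} (_ : ∀ i, t (t i) = i)
      (_ : ∀ i, r i = 1 ∨ r i = -1) (_ : ∀ i, r (t i) = -r i),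
      Fintype.card α = 2 * Fintype.card {i // r i = 1} := by
    intro α _ t r g1 g2 g3
    have e : {i // r i = 1} ≃ {i // ¬ r i = 1} :=
      { toFun := fun i => ⟨t i, by rw [g3, i.2]; exact fun h => hne h.symm⟩
        invFun := fun i => ⟨t i, by
          rw [g3, (g2 i).resolve_left i.2, neg_neg]⟩
        left_inv := fun i => Subtype.ext (g1 i)
        right_inv := fun i => Subtype.ext (g1 i) }
    have h := Fintype.card_congr (Equiv.sumCompl (fun i => r i = 1))
    rw [Fintype.card_sum, ← Fintype.card_congr e] at h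
    omega
  have hcard : Fintype.card {i // s i = 1} = Fintype.card {i // s' i = 1} := by
    have a := hE h1 h2 h3
    have b := hE h1' h2' h3'
    omega
  let f : {i // s i = 1} ≃ {i // s' i = 1} := Fintype.equivOfCardEq hcard
  -- the map in one direction
  have mk : ∀ {α β : Type} {t : α → α} {r : α → ℂ} {t' : β → β} {r' : β → ℂ}
      (g1 : ∀ i, t (t i) = i) (g2 : ∀ i, r i = 1 ∨ r i = -1) (g3 : ∀ i, r (t i) = -r i)
      (g1' : ∀ i, t' (t' i) = i) (g3' : ∀ i, r' (t' i) = -r' i)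
      (φ : {i // r i = 1} → {i // r' i = 1}),
      ∃ σ : α → β, (∀ i, σ (t i) = t' (σ i)) ∧ (∀ i, r' (σ i) = r i) ∧
        ∀ i : {i // r i = 1}, σ i = φ i := by
    intro α β t r t' r' g1 g2 g3 g1' g3' φ
    have g4 : ∀ i, ¬ r i = 1 → r (t i) = 1 := fun i hi => by
      rw [g3, (g2 i).resolve_left hi, neg_neg]
    refine ⟨fun i => if h : r i = 1 then (φ ⟨i, h⟩ : β) else t' (φ ⟨t i, g4 i h⟩), ?_, ?_, ?_⟩
    · intro i
      by_cases h : r i = 1
      · have h' : ¬ r (t i) = 1 := by rw [g3, h]; exact fun h => hne h.symm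
        simp only [dif_pos h, dif_neg h']
        congr 3
        exact Subtype.ext (g1 i)
      · have h' := g4 i h
        simp only [dif_neg h, dif_pos h', g1']
    · intro i
      by_cases h : r i = 1
      · simp only [dif_pos h]
        rw [(φ ⟨i, h⟩).2, h]
      · simp only [dif_neg h]
        rw [g3', (φ ⟨t i, g4 i h⟩).2, (g2 i).resolve_left h]
    · rintro ⟨i, hi⟩
      simp only [dif_pos hi]
  obtain ⟨σ, a1, a2, a3⟩ := mk h1 h2 h3 h1' h3' f
  obtain ⟨ρ, b1, b2, b3⟩ := mk h1' h2' h3' h1 h3 f.symm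
  have inv : ∀ i, ρ (σ i) = i := by
    have key : ∀ i, s i = 1 → ρ (σ i) = i := by
      intro i hi
      have e1 := a3 ⟨i, hi⟩
      change σ i = f ⟨i, hi⟩ at e1
      rw [e1, b3, Equiv.symm_apply_apply]
    intro i
    rcases h2 i with hi | hi
    · exact key i hi
    · have e := key (τ i) (by rw [h3, hi, neg_neg])
      rw [a1, b1] at e
      have := congrArg τ e
      rwa [h1, h1] at this
  have inv' : ∀ i, σ (ρ i) = i := by
    have key : ∀ i, s' i = 1 → σ (ρ i) = i := by
      intro i hi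
      have e1 := b3 ⟨i, hi⟩
      change ρ i = f.symm ⟨i, hi⟩ at e1
      rw [e1, a3, Equiv.apply_symm_apply]
    intro i
    rcases h2' i with hi | hi
    · exact key i hi
    · have e := key (τ' i) (by rw [h3', hi, neg_neg])
      rw [b1, a1] at e
      have := congrArg τ' e
      rwa [h1', h1'] at this
  exact ⟨⟨σ, ρ, inv, inv'⟩, a1, a2⟩

/-! ### Vectors as tensors of length `1` -/

section one

variable {D : Dat I Λ}

/-- a vector as a tensor of length `1` -/
def tv (v : I → ℂ) : Ten I 1 := fun w => v (w 0)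

/-- `J₀` on vectors -/
noncomputable def jv (D : Dat I Λ) : (I → ℂ) →ₛₗ[starRingEnd ℂ] (I → ℂ) where
  toFun v := fun i => D.s (D.τ i) * (starRingEnd ℂ) (v (D.τ i))
  map_add' u v := by
    funext i
    simp only [Pi.add_apply, map_add]
    ring
  map_smul' c u := by
    funext i
    simp only [Pi.smul_apply, smul_eq_mul, map_mul]
    ring

theorem jv_apply (v : I → ℂ) (i : I) :
    jv D v i = D.s (D.τ i) * (starRingEnd ℂ) (v (D.τ i)) := rfl

/-- `ψ` on vectors -/
noncomputable def pv (D : Dat I Λ) : (I → ℂ) →ₗ[ℂ] (I → ℂ) →ₗ[ℂ] ℂ :=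
  LinearMap.mk₂ ℂ (fun u v => ∑ i, D.s i * (u i * v (D.τ i)))
    (fun a b c => by
      simp only [Pi.add_apply]
      rw [← Finset.sum_add_distrib]
      exact Finset.sum_congr rfl fun i _ => by ring)
    (fun r a b => by
      simp only [Pi.smul_apply, smul_eq_mul]
      rw [Finset.mul_sum]
      exact Finset.sum_congr rfl fun i _ => by ring)
    (fun a b c => by
      simp only [Pi.add_apply]
      rw [← Finset.sum_add_distrib]
      exact Finset.sum_congr rfl fun i _ => by ring)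
    (fun r a b => by
      simp only [Pi.smul_apply, smul_eq_mul]
      rw [Finset.mul_sum]
      exact Finset.sum_congr rfl fun i _ => by ring)

theorem pv_apply (u v : I → ℂ) : pv D u v = ∑ i, D.s i * (u i * v (D.τ i)) := rfl

/-- the involution as a permutation -/
def tp (D : Dat I Λ) : Equiv.Perm I := ⟨D.τ, D.τ, D.τ_τ, D.τ_τ⟩

theorem conj_s (i : I) : (starRingEnd ℂ) (D.s i) = D.s i := by
  rcases D.s_val i with h | h <;> rw [h] <;> simp

variable (hodd : ∀ i, D.odd (D.typ i))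

include hodd in
theorem hj : BasJ.HJ True (pv D) (jv D) where
  alt x y _ := by
    rw [pv_apply, pv_apply, ← Finset.sum_neg_distrib]
    refine Fintype.sum_equiv (tp D) _ _ fun i => ?_
    show D.s i * (x i * y (D.τ i)) = -(D.s (D.τ i) * (y (D.τ i) * x (D.τ (D.τ i))))
    rw [D.τ_τ, (D.odd_τ i (hodd i)).2]
    ring
  symm x y h := absurd trivial h
  conj x y := by
    rw [pv_apply, pv_apply, map_sum]
    refine Fintype.sum_equiv (tp D) _ _ fun i => ?_
    show D.s i * (jv D x i * jv D y (D.τ i))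
      = (starRingEnd ℂ) (D.s (D.τ i) * (x (D.τ i) * y (D.τ (D.τ i))))
    rw [jv_apply, jv_apply, D.τ_τ, map_mul, map_mul, conj_s]
    have h := s_sq D i
    linear_combination (D.s (D.τ i) * (starRingEnd ℂ) (x (D.τ i)) * (starRingEnd ℂ) (y i)) * h
  pos x hx := by
    have h1 : pv D x (jv D x) = ((∑ i, ‖x i‖ ^ 2 : ℝ) : ℂ) := by
      rw [pv_apply]
      push_cast
      refine Finset.sum_congr rfl fun i _ => ?_
      rw [jv_apply, D.τ_τ, ← Complex.mul_conj']
      have h := s_sq D i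
      linear_combination (x i * (starRingEnd ℂ) (x i)) * h
    refine ⟨∑ i, ‖x i‖ ^ 2, ?_, h1⟩
    obtain ⟨i, hi⟩ : ∃ i, x i ≠ 0 := by
      by_contra h
      push Not at h
      exact hx (funext h)
    exact Finset.sum_pos' (fun i _ => by positivity) ⟨i, Finset.mem_univ i, by positivity⟩

include hodd in
/-- a tensor `mten D F` fixed by `J₀` -/
theorem mten_fix {F : Matrix I I ℂ} (hf : jT D (mten D F) = mten D F) (i j : I) :
    (starRingEnd ℂ) (F (D.τ i) (D.τ j)) = D.s i * D.s j * F i j := by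
  have h := congrFun hf ![i, D.τ j]
  have e1 : jT D (mten D F) ![i, D.τ j] = sg D (D.τ ∘ ![i, D.τ j])
      * (starRingEnd ℂ) (mten D F (D.τ ∘ ![i, D.τ j])) := rfl
  have e2 : mten D F (D.τ ∘ ![i, D.τ j]) = F (D.τ i) (D.τ j) * D.s (D.τ j) := by
    show F (D.τ i) (D.τ (D.τ (D.τ j))) * D.s (D.τ (D.τ (D.τ j))) = _
    rw [D.τ_τ (D.τ j)]
  have e3 : mten D F ![i, D.τ j] = F i j * D.s j := by
    show F i (D.τ (D.τ j)) * D.s (D.τ (D.τ j)) = _
    rw [D.τ_τ]
  have e4 : sg D (D.τ ∘ ![i, D.τ j]) = D.s (D.τ i) * D.s j := by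
    rw [sg, Fin.prod_univ_two]
    show D.s (D.τ i) * D.s (D.τ (D.τ j)) = _
    rw [D.τ_τ]
  rw [e1, e2, e3, e4, map_mul, conj_s, (D.odd_τ i (hodd i)).2, (D.odd_τ j (hodd j)).2] at h
  have h3 := s_sq D j
  have h4 := s_sq D i
  linear_combination (D.s i) * h - ((starRingEnd ℂ) (F (D.τ i) (D.τ j)) * D.s i * D.s i) * h3
    - (starRingEnd ℂ) (F (D.τ i) (D.τ j)) * h4

theorem pv_eq (x y : I → ℂ) : pv D x y = dotProduct x ((Psi D).mulVec y) := by
  rw [pv_apply, dotProduct]
  refine Finset.sum_congr rfl fun i _ => ?_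
  have h : (Psi D).mulVec y i = D.s i * y (D.τ i) := by
    rw [Matrix.mulVec, dotProduct, Finset.sum_eq_single (D.τ i)]
    · rw [Psi_apply, if_pos rfl]
    · intro j _ hj
      rw [Psi_apply, if_neg hj, zero_mul]
    · intro h
      exact absurd (Finset.mem_univ _) h
  rw [h]
  ring

theorem pv_G {F : Matrix I I ℂ} (hF : IsG D F) (x y : I → ℂ) :
    pv D (F.mulVec x) (F.mulVec y) = pv D x y := by
  have h1 : ∀ z, dotProduct (F.mulVec x) z = dotProduct x (F.transpose.mulVec z) := fun z => by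
    rw [Matrix.dotProduct_mulVec, Matrix.vecMul_transpose]
  rw [pv_eq, pv_eq, h1, Matrix.mulVec_mulVec, Matrix.mulVec_mulVec, hF.2]

include hodd in
theorem jv_comm {F : Matrix I I ℂ}
    (hf : ∀ i j, (starRingEnd ℂ) (F (D.τ i) (D.τ j)) = D.s i * D.s j * F i j) (x : I → ℂ) :
    F.mulVec (jv D x) = jv D (F.mulVec x) := by
  funext i
  rw [jv_apply, Matrix.mulVec, dotProduct, Matrix.mulVec, dotProduct, map_sum, Finset.mul_sum]
  refine Fintype.sum_equiv (tp D) _ _ fun j => ?_
  show F i j * jv D x j = D.s (D.τ i) * (starRingEnd ℂ) (F (D.τ i) (D.τ j) * x (D.τ j))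
  rw [jv_apply, map_mul, hf, (D.odd_τ i (hodd i)).2, (D.odd_τ j (hodd j)).2]
  have h4 := s_sq D i
  linear_combination (D.s j * F i j * (starRingEnd ℂ) (x (D.τ j))) * h4

end one

/-! ### Diagonalisation in the compact group -/

section diag

variable {D : Dat I Λ} (hodd : ∀ i, D.odd (D.typ i)) (htyp : ∀ i j, D.typ i = D.typ j)

include hodd htyp in
/-- an element of the compact group is conjugate to a diagonal one by an element of the compact
group -/
theorem diag_K {F : Matrix I I ℂ} (hF : IsG D F)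
    (hf : ∀ i j, (starRingEnd ℂ) (F (D.τ i) (D.τ j)) = D.s i * D.s j * F i j) :
    ∃ (Y : Matrix I I ℂ) (l : I → ℂ), IsK D Y ∧ F * Y = Y * Matrix.diagonal l ∧
      (∀ i, ‖l i‖ = 1) ∧ ∀ i, l (D.τ i) * l i = 1 := by
  classical
  have hH := hj hodd
  have hB : ∀ x y, pv D (Matrix.toLin' F x) (Matrix.toLin' F y) = pv D x y := by
    intro x y
    rw [Matrix.toLin'_apply, Matrix.toLin'_apply]
    exact pv_G hF x y
  have hFJ : ∀ x, Matrix.toLin' F (jv D x) = jv D (Matrix.toLin' F x) := by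
    intro x
    rw [Matrix.toLin'_apply, Matrix.toLin'_apply]
    exact jv_comm hodd hf x
  obtain ⟨κ, iκ, fκ, b, τ', s', l', hb⟩ := BasF.exists_adaptedF hH hB hFJ
  have hcard : Fintype.card I = Fintype.card κ := by
    have h1 := Module.finrank_eq_card_basis b
    rw [Module.finrank_fintype_fun_eq_card] at h1
    exact h1
  obtain ⟨σ, hσ, hs⟩ := exists_match D.τ_τ D.s_val (fun i => (D.odd_τ i (hodd i)).2) hb.τ_τ
    hb.s_val (fun i => (hb.odd_τ trivial i).2) hcard
  set Y : Matrix I I ℂ := Matrix.of fun a i => b (σ i) a with hY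
  have hcol : ∀ i, (fun a => Y a i) = b (σ i) := fun i => rfl
  have hg : ∀ i j, pv D (b (σ i)) (b (σ j)) = Psi D i j := by
    intro i j
    rw [hb.gram, Psi_apply, hs]
    refine if_congr ?_ rfl rfl
    rw [← hσ]
    exact σ.injective.eq_iff
  have hh : ∀ x y : I → ℂ, pv D x (jv D y) = ∑ a, x a * (starRingEnd ℂ) (y a) := by
    intro x y
    rw [pv_apply]
    refine Finset.sum_congr rfl fun a _ => ?_
    rw [jv_apply, D.τ_τ]
    have h := s_sq D a
    linear_combination (x a * (starRingEnd ℂ) (y a)) * h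
  have hG : IsG D Y := by
    refine ⟨fun i j h => absurd (htyp i j) h, ?_⟩
    ext i j
    rw [← hg, pv_eq, Matrix.mul_assoc, Matrix.mul_apply, dotProduct]
    refine Finset.sum_congr rfl fun a _ => ?_
    rw [Matrix.transpose_apply]
    rfl
  have hK : Y.conjTranspose * Y = 1 := by
    ext i j
    have h1 : (Y.conjTranspose * Y) i j = pv D (b (σ j)) (jv D (b (σ i))) := by
      rw [hh, Matrix.mul_apply]
      refine Finset.sum_congr rfl fun a _ => ?_
      rw [Matrix.conjTranspose_apply]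
      exact mul_comm _ _
    rw [h1, hb.jv, map_smul, smul_eq_mul, ← hσ, hg, Psi_apply, hs, Matrix.one_apply]
    by_cases h : i = j
    · subst h
      rw [if_pos rfl, if_pos rfl, s_sq]
    · rw [if_neg h, if_neg, mul_zero]
      intro h2
      apply h
      have := congrArg D.τ h2
      rwa [D.τ_τ, D.τ_τ] at this
  have hev : ∀ i, F.mulVec (b (σ i)) = l' (σ i) • b (σ i) := fun i => by
    have := hb.ev (σ i)
    rwa [Matrix.toLin'_apply] at this
  have hnorm : ∀ k, ‖l' k‖ = 1 := by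
    intro k
    refine BasF.eig_norm hH hB hFJ (b.ne_zero k) (hb.ev k)
  refine ⟨Y, fun i => l' (σ i), ⟨hG, hK⟩, ?_, fun i => hnorm _, ?_⟩
  · ext a i
    rw [Matrix.mul_diagonal]
    have h1 := congrFun (hev i) a
    rw [Pi.smul_apply, smul_eq_mul] at h1
    show (F * Y) a i = b (σ i) a * l' (σ i)
    rw [mul_comm, ← h1]
    rfl
  · intro i
    show l' (σ (D.τ i)) * l' (σ i) = 1
    have h1 := hB (b (σ i)) (b (σ (D.τ i)))
    rw [hb.ev, hb.ev, map_smul, map_smul, LinearMap.smul_apply, hg, Psi_apply, if_pos rfl,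
      smul_eq_mul, smul_eq_mul] at h1
    have h2 := s_sq D i
    linear_combination (D.s i) * h1 + (1 - l' (σ (D.τ i)) * l' (σ i)) * h2

/-- the inverse of an element of the compact group -/
theorem K_inv (a1 : Alg1) {Y : Matrix I I ℂ} (hY : IsK D Y) : IsK D Y⁻¹ := by
  refine ⟨(a1.G_inv D Y hY.1).1, ?_⟩
  have h1 : Y * Y.conjTranspose = 1 := mul_eq_one_comm.1 hY.2
  have h2 : Y⁻¹ = Y.conjTranspose := Matrix.inv_eq_right_inv h1
  rw [h2, Matrix.conjTranspose_conjTranspose, h1]

include hodd in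
/-- transport of `mten D F` -/
theorem gT_mten {Y F G : Matrix I I ℂ} (hY : IsG D Y) (h : F * Y = Y * G) :
    gT Y (mten D G) = mten D F := by
  funext w
  rw [gT_two, mten_eq, ← Psi_out D hodd hY, ← Matrix.mul_assoc, ← Matrix.mul_assoc, h,
    Matrix.mul_assoc Y, Matrix.mul_apply]
  rw [Finset.sum_comm]
  refine Finset.sum_congr rfl fun b _ => ?_
  rw [Matrix.mul_apply, Finset.sum_mul]
  refine Finset.sum_congr rfl fun a _ => ?_
  rw [mten_eq, Matrix.transpose_apply]
  have h0 : (![a, b] : Fin 2 → I) 0 = a := rfl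
  have h1 : (![a, b] : Fin 2 → I) 1 = b := rfl
  rw [h0, h1]
  ring

end diag

end Rea

open Rea

/-- **Row E7+**: a real structure that commutes with the operators in the real span of `Ct 2`, in a
basis of eigenvectors of `F`. -/
theorem rea (hY : YStatement) (a1 : Alg1) {D : Dat I Λ} (hodd : ∀ i, D.odd (D.typ i))
    (htyp : ∀ i j, D.typ i = D.typ j) {Ct : (L : ℕ) → Ten I L → Prop} (S : ASys D Ct)
    (hpos : ∀ u, Ct 2 u → u ≠ 0 → ∃ q : ℚ, 0 < q ∧ psiT D u u = (q : ℂ))
    {F : Matrix I I ℂ} (hF : IsG D F) (hFt : mten D F ∈ Submodule.span ℝ {u | Ct 2 u}) :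
    ∃ (y : Matrix I I ℂ) (l : I → ℂ), IsG D y ∧ F * y = y * Matrix.diagonal l ∧
      (∀ i, ‖l i‖ = 1) ∧ (∀ i, l (D.τ i) * l i = 1) ∧
      ∀ u ∈ Submodule.span ℝ {u | Ct 2 u}, jT D (gT y⁻¹ u) = gT y⁻¹ u := by
  -- positivity in the lengths `≤ 2`
  have hp : ∀ L, L ≤ 2 → ∀ u, Ct L u → u ≠ 0 → ∃ q : ℚ, 0 < q ∧ psiT D u u = (q : ℂ) := by
    intro L hL u hu hu0
    rcases (show L = 0 ∨ L = 1 ∨ L = 2 by omega) with rfl | rfl | rfl
    · obtain ⟨q, hq⟩ := S.rat u hu
      have hq0 : q ≠ 0 := by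
        rintro rfl
        apply hu0
        funext w
        rw [hq]
        simp
      refine ⟨q * q, mul_self_pos.2 hq0, ?_⟩
      rw [psiT, Fintype.sum_unique, sg, Finset.univ_eq_empty, Finset.prod_empty, hq, hq]
      push_cast
      ring
    · exfalso
      apply hu0
      have h1 := S.even 1 u hu
      rw [jT_jT D hodd] at h1
      funext w
      have h2 := congrFun h1 w
      rw [Pi.smul_apply, pow_one, smul_eq_mul] at h2
      rw [Pi.zero_apply]
      linear_combination (-1 / 2 : ℂ) * h2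
    · exact hpos u hu hu0
  obtain ⟨g, hg, hfix⟩ := qps hY a1 S 2 hp
  obtain ⟨hg1, hg2, hg3⟩ := a1.G_inv D g hg
  -- the real structure fixes the real span
  have hfixR : ∀ u ∈ Submodule.span ℝ {u | Ct 2 u}, jT D (gT g⁻¹ u) = gT g⁻¹ u := by
    intro u hu
    have h1 : Qps.jG D g u = u :=
      Qps.jG_real a1 g (B := {u | Ct 2 u}) (fun b hb => hfix 2 le_rfl b hb) hu
    have h2 := congrArg (gT g⁻¹) h1
    rwa [Qps.jG, gT_inv_gT a1 hg] at h2
  -- the transported matrix
  set G : Matrix I I ℂ := g⁻¹ * F * g with hGdef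
  have hFg : F * g = g * G := by
    rw [hGdef, ← Matrix.mul_assoc, ← Matrix.mul_assoc, hg2, Matrix.one_mul]
  have hGG : IsG D G := a1.G_mul D _ _ (a1.G_mul D _ _ hg1 hF) hg
  have hGt : jT D (mten D G) = mten D G := by
    have h1 : gT g⁻¹ (mten D F) = mten D G := by
      rw [← gT_mten hodd hg hFg, gT_inv_gT a1 hg]
    rw [← h1]
    exact hfixR _ hFt
  obtain ⟨Y, l, hYK, hYl, hn, hτ⟩ := diag_K hodd htyp hGG (mten_fix hodd hGt)
  have hYi := K_inv a1 hYK
  refine ⟨g * Y, l, a1.G_mul D _ _ hg hYK.1, ?_, hn, hτ, ?_⟩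
  · rw [← Matrix.mul_assoc, hFg, Matrix.mul_assoc, hYl, Matrix.mul_assoc]
  · intro u hu
    rw [Matrix.mul_inv_rev, a1.gT_mul, a1.jT_gT D _ _ hYi, hfixR u hu]

end Pool.Agent.Lib.MP_361a6f_ag.FL.E
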