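import Pool.Agent.Lib.MP_361a6f_ag.FL.Qps

/-!
# Theorem E in coordinates: the data and the rows

`V = ℂ^I` with a symplectic form `ψ` (one odd letter), a system `At` of rational tensors fixed by
a diagonal unitary matrix `diag l` (Frobenius at one place) whose eigenvalues have pairwise ratios
of infinite order, and by a set `Γ` of elements of the group without nontrivial subspaces of finite
orbit.
-/

open Filter Topology MeasureTheory

namespace Pool.Agent.Lib.MP_361a6f_ag.FL.E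

variable {I Λ : Type} [Fintype I] [DecidableEq I] [DecidableEq Λ]

/-- a system of tensors with real contractions -/
structure RSys (D : Dat I Λ) (Bt : (L : ℕ) → Ten I L → Prop) : Prop where
  one : Bt 0 (fun _ => 1)
  real : ∀ u, Bt 0 u → ∃ r : ℝ, ∀ w, u w = (r : ℂ)
  perm : ∀ (L : ℕ) (σ : Equiv.Perm (Fin L)) (u : Ten I L), Bt L u → Bt L (permT σ u)
  outer : ∀ (p q : ℕ) (u : Ten I p) (v : Ten I q), Bt p u → Bt q v → Bt (p + q) (outer u v)
  cont : ∀ (p c : ℕ) (u : Ten I p) (m : Ten I (p + c)), Bt p u → Bt (p + c) m →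
    Bt c (cont D u m)
  om : ∀ α, Bt 2 (om D α)

/-- the matrix `diag l` as a tensor of length `2` -/
def gten (D : Dat I Λ) (l : I → ℂ) : Ten I 2 :=
  fun w => if w 1 = D.τ (w 0) then l (w 0) * D.s (w 0) else 0

/-- the data of Theorem E -/
structure ESys (D : Dat I Λ) (At Bt : (L : ℕ) → Ten I L → Prop) (l : I → ℂ)
    (Γ : Set (Matrix I I ℂ)) : Prop where
  sys : ASys D At
  typ_eq : ∀ i j, D.typ i = D.typ j
  odd : ∀ i, D.odd (D.typ i)
  norm : ∀ i, ‖l i‖ = 1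
  tau : ∀ i, l (D.τ i) * l i = 1
  ratio : ∀ i j, i ≠ j → ∀ n : ℕ, 0 < n → l i ^ n ≠ l j ^ n
  fix : ∀ L u, At L u → gT (Matrix.diagonal l) u = u
  rsys : RSys D Bt
  sub : ∀ L u, At L u → Bt L u
  gten : Bt 2 (gten D l)
  grp : ∀ x ∈ Γ, IsG D x
  gfix : ∀ x ∈ Γ, ∀ L u, At L u → gT x u = u
  orbit : ∀ U : Submodule ℂ (I → ℂ),
    {U' : Submodule ℂ (I → ℂ) | ∃ x ∈ Γ, U' = U.map (Matrix.toLin' x)}.Finite → U = ⊥ ∨ U = ⊤
  nd : ∀ L, ∀ u ∈ Submodule.span ℂ {u | At L u}, u ≠ 0 →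
    ∃ v ∈ Submodule.span ℂ {u | At L u}, psiT D u v ≠ 0

/-- THEOREM E in coordinates: `ψ` is positive definite on the real span of the system. -/
def ThmEStatement : Prop :=
  ∀ {I Λ : Type} [Fintype I] [DecidableEq I] [DecidableEq Λ] (D : Dat I Λ)
    (At Bt : (L : ℕ) → Ten I L → Prop) (l : I → ℂ) (Γ : Set (Matrix I I ℂ)),
    ESys D At Bt l Γ → ∀ (L : ℕ) (u : Ten I L), u ∈ Submodule.span ℝ {u | At L u} → u ≠ 0 →
      ∃ r : ℝ, 0 < r ∧ psiT D u u = (r : ℂ)

/-- the situation at level `m`: `t` is a tuple of members of `At` that spans `At L` for all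
`L ≤ m`, `s = x⁻¹ t` is minimal, fixed by `diag l`, and `diag k s = J₀ s` with `diag k` in the
compact group -/
structure Lvl (D : Dat I Λ) (At : (L : ℕ) → Ten I L → Prop) (l : I → ℂ) (m : ℕ)
    {ι : Type} [Fintype ι] (len : ι → ℕ) (t s : Tup I len) (x : Matrix I I ℂ) (k : I → ℂ) :
    Prop where
  mem : ∀ i, At (len i) (t i)
  span : ∀ L, L ≤ m → ∀ u, At L u →
    u ∈ Submodule.span ℂ {v : Ten I L | ∃ i, ∃ h : len i = L, v = h ▸ t i}
  grp : IsG D x
  eq : gS x s = t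
  min : Minimal D s
  fix : gS (Matrix.diagonal l) s = s
  cpt : IsK D (Matrix.diagonal k)
  key : gS (Matrix.diagonal k) s = jS D s

/-- Row E1 (84): the situation at every level exists. -/
def E1Statement : Prop :=
  ∀ {I Λ : Type} [Fintype I] [DecidableEq I] [DecidableEq Λ] (D : Dat I Λ)
    (At Bt : (L : ℕ) → Ten I L → Prop) (l : I → ℂ) (Γ : Set (Matrix I I ℂ)),
    ESys D At Bt l Γ → ∀ m : ℕ, ∃ (ι : Type) (_ : Fintype ι) (len : ι → ℕ) (t s : Tup I len)
      (x : Matrix I I ℂ) (k : I → ℂ), Lvl D At l m len t s x k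

/-- the Lie algebra of the stabiliser of `s` -/
def stab (D : Dat I Λ) {ι : Type} [Fintype ι] {len : ι → ℕ} (s : Tup I len) :
    Set (Matrix I I ℂ) := {A | IsLie D A ∧ aS A s = 0}

/-- Row E2: the Lie algebra of the stabiliser is preserved by `diag k`. -/
def E2Statement : Prop :=
  ∀ {I Λ ι : Type} [Fintype I] [DecidableEq I] [DecidableEq Λ] [Fintype ι] {len : ι → ℕ}
    (D : Dat I Λ) (s : Tup I len) (k : I → ℂ), Minimal D s → IsK D (Matrix.diagonal k) →
    gS (Matrix.diagonal k) s = jS D s → ∀ A ∈ stab D s,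
    Matrix.diagonal k * A * Matrix.diagonal (fun i => (k i)⁻¹) ∈ stab D s

/-- Row E3: the stabiliser contains a diagonal matrix with distinct entries. -/
def E3Statement : Prop :=
  ∀ {I Λ ι : Type} [Fintype I] [DecidableEq I] [DecidableEq Λ] [Fintype ι] {len : ι → ℕ}
    (D : Dat I Λ) (s : Tup I len) (l : I → ℂ), (∀ i j, D.typ i = D.typ j) →
    (∀ i, D.odd (D.typ i)) → (∀ i, l (D.τ i) * l i = 1) →
    (∀ i j, i ≠ j → ∀ n : ℕ, 0 < n → l i ^ n ≠ l j ^ n) →
    gS (Matrix.diagonal l) s = s →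
    ∃ a : I → ℂ, Function.Injective a ∧ Matrix.diagonal a ∈ stab D s

/-- Row E4: the Lie algebra of the stabiliser is irreducible. -/
def E4Statement : Prop :=
  ∀ {I Λ : Type} [Fintype I] [DecidableEq I] [DecidableEq Λ] (D : Dat I Λ)
    (At Bt : (L : ℕ) → Ten I L → Prop) (l : I → ℂ) (Γ : Set (Matrix I I ℂ)),
    ESys D At Bt l Γ → ∀ (m : ℕ) {ι : Type} [Fintype ι] (len : ι → ℕ) (t s : Tup I len)
      (x : Matrix I I ℂ) (k : I → ℂ), Lvl D At l m len t s x k →
    (∃ a : I → ℂ, Function.Injective a ∧ Matrix.diagonal a ∈ stab D s) →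
    ∀ U : Submodule ℂ (I → ℂ), (∀ A ∈ stab D s, ∀ v ∈ U, A.mulVec v ∈ U) → U = ⊥ ∨ U = ⊤

/-- Row E5 (11, LEMMA R): a diagonal matrix that normalises an irreducible Lie algebra of trace
zero with a regular diagonal element is `c exp(b)` with `b` in the Lie algebra. -/
def E5Statement : Prop :=
  ∀ {I : Type} [Fintype I] [DecidableEq I] (S : Submodule ℂ (Matrix I I ℂ)),
    (∀ x ∈ S, ∀ y ∈ S, x * y - y * x ∈ S) → (∀ x ∈ S, x.trace = 0) →
    (∀ U : Submodule ℂ (I → ℂ), (∀ A ∈ S, ∀ v ∈ U, A.mulVec v ∈ U) → U = ⊥ ∨ U = ⊤) →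
    ∀ a : I → ℂ, Function.Injective a → Matrix.diagonal a ∈ S →
    ∀ k : I → ℂ, (∀ i, k i ≠ 0) →
    (∀ A ∈ S, Matrix.diagonal k * A * Matrix.diagonal (fun i => (k i)⁻¹) ∈ S) →
    ∃ (b : I → ℂ) (c : ℂ), Matrix.diagonal b ∈ S ∧ ∀ i, k i = c * Complex.exp (b i)

/-- Row E6: the assembly. -/
def E6Statement : Prop :=
  E1Statement → E2Statement → E3Statement → E4Statement → E5Statement → ThmEStatement

end Pool.Agent.Lib.MP_361a6f_ag.FL.E
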