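import Pool.Agent.Lib.MP_361a6f_ag.FL.Qps
import Pool.Agent.Lib.MP_361a6f_ag.FL.E.Defs

/-!
# Theorem E: real spans of a rational system

The real span of a rational system of tensors is a system with real contractions.
-/

open Filter Topology MeasureTheory

set_option linter.unusedSectionVars false
set_option linter.unusedVariables false
set_option autoImplicit false

namespace Pool.Agent.Lib.MP_361a6f_ag.FL.E.Rsp

variable {I Λ : Type} [Fintype I] [DecidableEq I] [DecidableEq Λ]

/-- the real span of the members of length `L` -/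
noncomputable def RS (At : (L : ℕ) → Ten I L → Prop) (L : ℕ) : Submodule ℝ (Ten I L) :=
  Submodule.span ℝ {u | At L u}

/-- membership in the real span as a predicate -/
def Bt (At : (L : ℕ) → Ten I L → Prop) : (L : ℕ) → Ten I L → Prop := fun L u => u ∈ RS At L

variable {At : (L : ℕ) → Ten I L → Prop}

theorem mem_RS {L : ℕ} {u : Ten I L} (h : At L u) : u ∈ RS At L := Submodule.subset_span h

/-- the inclusion of the system -/
theorem sub (L : ℕ) (u : Ten I L) (h : At L u) : Bt At L u := mem_RS h

/-- monotonicity -/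
theorem mono {At' : (L : ℕ) → Ten I L → Prop} {L : ℕ} (h : ∀ u, At L u → At' L u) :
    RS At L ≤ RS At' L := Submodule.span_mono h

theorem bt_mono {At' : (L : ℕ) → Ten I L → Prop} (h : ∀ L u, At L u → At' L u) (L : ℕ)
    (u : Ten I L) (hu : Bt At L u) : Bt At' L u := mono (h L) hu

/-- members of one system in the real span of another one -/
theorem le_of_sub {At' : (L : ℕ) → Ten I L → Prop} {L : ℕ} (h : ∀ u, At L u → u ∈ RS At' L) :
    RS At L ≤ RS At' L := Submodule.span_le.mpr h

theorem bt_add {L : ℕ} {u v : Ten I L} (hu : Bt At L u) (hv : Bt At L v) : Bt At L (u + v) :=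
  (RS At L).add_mem hu hv

theorem bt_zero (L : ℕ) : Bt At L (0 : Ten I L) := (RS At L).zero_mem

/-- real multiples, with complex scalars -/
theorem smul_mem {L : ℕ} {u : Ten I L} (h : u ∈ RS At L) (c : ℝ) : (c : ℂ) • u ∈ RS At L := by
  rw [← Qps.real_smul]
  exact (RS At L).smul_mem c h

theorem bt_smul {L : ℕ} {u : Ten I L} (h : Bt At L u) (c : ℝ) : Bt At L ((c : ℂ) • u) :=
  smul_mem h c

/-- real multiples: from a nonzero real multiple -/
theorem of_smul {L : ℕ} {u : Ten I L} {c : ℝ} (hc : c ≠ 0) (h : (c : ℂ) • u ∈ RS At L) :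
    u ∈ RS At L := by
  have h1 := smul_mem h c⁻¹
  rwa [smul_smul, ← Complex.ofReal_mul, inv_mul_cancel₀ hc, Complex.ofReal_one, one_smul] at h1

variable (D : Dat I Λ)

theorem real (h : ASys D At) (u : Ten I 0) (hu : u ∈ RS At 0) : ∃ r : ℝ, ∀ w, u w = (r : ℂ) := by
  refine Submodule.span_induction (p := fun u _ => ∃ r : ℝ, ∀ w, u w = (r : ℂ)) ?_ ?_ ?_ ?_ hu
  · intro v hv
    obtain ⟨q, hq⟩ := h.rat v hv
    exact ⟨(q : ℝ), fun w => by rw [hq w]; push_cast; rfl⟩
  · exact ⟨0, fun w => by rw [Pi.zero_apply, Complex.ofReal_zero]⟩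
  · rintro a b _ _ ⟨r, hr⟩ ⟨r', hr'⟩
    exact ⟨r + r', fun w => by rw [Pi.add_apply, hr, hr', Complex.ofReal_add]⟩
  · rintro c a _ ⟨r, hr⟩
    exact ⟨c * r, fun w => by
      rw [Pi.smul_apply, hr, Complex.real_smul, Complex.ofReal_mul]⟩

theorem perm (h : ASys D At) {L : ℕ} (σ : Equiv.Perm (Fin L)) {u : Ten I L} (hu : u ∈ RS At L) :
    permT σ u ∈ RS At L := by
  refine Submodule.span_induction (p := fun u _ => permT σ u ∈ RS At L) ?_ ?_ ?_ ?_ hu
  · intro v hv
    exact mem_RS (h.perm L σ v hv)
  · exact (RS At L).zero_mem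
  · intro a b _ _ ha hb
    exact (RS At L).add_mem ha hb
  · intro c a _ ha
    exact (RS At L).smul_mem c ha

theorem outer_add_left {p q : ℕ} (a b : Ten I p) (v : Ten I q) :
    outer (a + b) v = outer a v + outer b v := by
  funext w
  simp only [outer, Pi.add_apply, add_mul]

theorem outer_add_right {p q : ℕ} (a : Ten I p) (v v' : Ten I q) :
    outer a (v + v') = outer a v + outer a v' := by
  funext w
  simp only [outer, Pi.add_apply, mul_add]

theorem outer_rsmul_left {p q : ℕ} (c : ℝ) (a : Ten I p) (v : Ten I q) :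
    outer (c • a) v = c • outer a v := by
  funext w
  simp only [outer, Pi.smul_apply, Complex.real_smul]
  ring

theorem outer_rsmul_right {p q : ℕ} (c : ℝ) (a : Ten I p) (v : Ten I q) :
    outer a (c • v) = c • outer a v := by
  funext w
  simp only [outer, Pi.smul_apply, Complex.real_smul]
  ring

theorem outer_mem (h : ASys D At) {p q : ℕ} {u : Ten I p} {v : Ten I q} (hu : u ∈ RS At p)
    (hv : v ∈ RS At q) : outer u v ∈ RS At (p + q) := by
  refine Submodule.span_induction (p := fun u _ => outer u v ∈ RS At (p + q)) ?_ ?_ ?_ ?_ hu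
  · intro a ha
    refine Submodule.span_induction (p := fun v _ => outer a v ∈ RS At (p + q)) ?_ ?_ ?_ ?_ hv
    · intro b hb
      exact mem_RS (h.outer p q a b ha hb)
    · have e : outer a (0 : Ten I q) = 0 := by
        funext w
        simp only [outer, Pi.zero_apply, mul_zero]
      rw [e]
      exact (RS At (p + q)).zero_mem
    · intro b b' _ _ hb hb'
      rw [outer_add_right]
      exact (RS At (p + q)).add_mem hb hb'
    · intro c b _ hb
      rw [outer_rsmul_right]
      exact (RS At (p + q)).smul_mem c hb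
  · have e : outer (0 : Ten I p) v = 0 := by
      funext w
      simp only [outer, Pi.zero_apply, zero_mul]
    rw [e]
    exact (RS At (p + q)).zero_mem
  · intro b b' _ _ hb hb'
    rw [outer_add_left]
    exact (RS At (p + q)).add_mem hb hb'
  · intro c b _ hb
    rw [outer_rsmul_left]
    exact (RS At (p + q)).smul_mem c hb

theorem cont_add_left {p c : ℕ} (a b : Ten I p) (m : Ten I (p + c)) :
    cont D (a + b) m = cont D a m + cont D b m := by
  funext w
  simp only [cont, Pi.add_apply]
  rw [← Finset.sum_add_distrib]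
  exact Finset.sum_congr rfl fun w' _ => by ring

theorem cont_add_right {p c : ℕ} (a : Ten I p) (m m' : Ten I (p + c)) :
    cont D a (m + m') = cont D a m + cont D a m' := by
  funext w
  simp only [cont, Pi.add_apply]
  rw [← Finset.sum_add_distrib]
  exact Finset.sum_congr rfl fun w' _ => by ring

theorem cont_rsmul_left {p c : ℕ} (r : ℝ) (a : Ten I p) (m : Ten I (p + c)) :
    cont D (r • a) m = r • cont D a m := by
  funext w
  simp only [cont, Pi.smul_apply, Complex.real_smul]
  rw [Finset.mul_sum]
  exact Finset.sum_congr rfl fun w' _ => by ring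

theorem cont_rsmul_right {p c : ℕ} (r : ℝ) (a : Ten I p) (m : Ten I (p + c)) :
    cont D a (r • m) = r • cont D a m := by
  funext w
  simp only [cont, Pi.smul_apply, Complex.real_smul]
  rw [Finset.mul_sum]
  exact Finset.sum_congr rfl fun w' _ => by ring

theorem cont_mem (h : ASys D At) {p c : ℕ} {u : Ten I p} {m : Ten I (p + c)} (hu : u ∈ RS At p)
    (hm : m ∈ RS At (p + c)) : cont D u m ∈ RS At c := by
  refine Submodule.span_induction (p := fun u _ => cont D u m ∈ RS At c) ?_ ?_ ?_ ?_ hu
  · intro a ha
    refine Submodule.span_induction (p := fun m _ => cont D a m ∈ RS At c) ?_ ?_ ?_ ?_ hm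
    · intro b hb
      exact mem_RS (h.cont p c a b ha hb)
    · have e : cont D a (0 : Ten I (p + c)) = 0 := by
        funext w
        simp only [cont, Pi.zero_apply, mul_zero, Finset.sum_const_zero]
      rw [e]
      exact (RS At c).zero_mem
    · intro b b' _ _ hb hb'
      rw [cont_add_right]
      exact (RS At c).add_mem hb hb'
    · intro r b _ hb
      rw [cont_rsmul_right]
      exact (RS At c).smul_mem r hb
  · have e : cont D (0 : Ten I p) m = 0 := by
      funext w
      simp only [cont, Pi.zero_apply, zero_mul, mul_zero, Finset.sum_const_zero]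
    rw [e]
    exact (RS At c).zero_mem
  · intro b b' _ _ hb hb'
    rw [cont_add_left]
    exact (RS At c).add_mem hb hb'
  · intro r b _ hb
    rw [cont_rsmul_left]
    exact (RS At c).smul_mem r hb

/-- **Row G3c.** The real span of a rational system is a system with real contractions. -/
theorem rsys (h : ASys D At) : RSys D (Bt At) where
  one := mem_RS h.one
  real := real D h
  perm _ σ _ hu := perm D h σ hu
  outer _ _ _ _ hu hv := outer_mem D h hu hv
  cont _ _ _ _ hu hm := cont_mem D h hu hm
  om α := mem_RS (h.om α)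

/-- the same, with the real span written out -/
theorem rsys_span (h : ASys D At) :
    RSys D fun L u => u ∈ Submodule.span ℝ {v : Ten I L | At L v} := rsys D h

/-- contractions of members of the real span are real -/
theorem psi_real (h : ASys D At) {L : ℕ} {u v : Ten I L} (hu : u ∈ RS At L) (hv : v ∈ RS At L) :
    ∃ r : ℝ, psiT D u v = (r : ℂ) := by
  obtain ⟨r, hr⟩ := real D h _ (cont_mem (c := 0) D h hu hv)
  refine ⟨r, ?_⟩
  rw [← hr Fin.elim0, Qps.cont_zero]

end Pool.Agent.Lib.MP_361a6f_ag.FL.E.Rsp
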