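import Pool.Agent.Lib.MP_361a6f_ag.FL.E.DefsP
import Pool.Agent.Lib.MP_361a6f_ag.FL.E.Rea
import Pool.Agent.Lib.MP_361a6f_ag.FL.E.Rsp

/-!
# Theorem E+ for the data as they come from geometry

`At` and `Ct` are rational systems (the algebraic tensors over `H^1` of a variety and of its
reduction) and `F` is the matrix of Frobenius. No eigenbasis, no real structure and no base tuple
are given: they are constructed from the positivity of `ψ` on `Ct 2` (Hodge index theorem on the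
square of the reduction).
-/

open Filter Topology MeasureTheory

set_option autoImplicit false
set_option linter.unusedSectionVars false

namespace Pool.Agent.Lib.MP_361a6f_ag.FL.E

variable {I Λ : Type} [Fintype I] [DecidableEq I] [DecidableEq Λ]

/-- the data of Theorem E+ as they come from geometry, without the irreducibility -/
structure NSys (D : Dat I Λ) (At Ct : (L : ℕ) → Ten I L → Prop) (F : Matrix I I ℂ)
    (Γ : Set (Matrix I I ℂ)) : Prop where
  sys : ASys D At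
  csys : ASys D Ct
  typ_eq : ∀ i j, D.typ i = D.typ j
  odd : ∀ i, D.odd (D.typ i)
  sub : ∀ L u, At L u → Ct L u
  frob : IsG D F
  mten : mten D F ∈ Submodule.span ℝ {u | Ct 2 u}
  fix : ∀ L u, At L u → gT F u = u
  /-- Hodge index -/
  pos : ∀ u, Ct 2 u → u ≠ 0 → ∃ q : ℚ, 0 < q ∧ psiT D u u = (q : ℂ)
  /-- the quotients of different eigenvalues of `F` are no roots of unity -/
  ratio : ∀ μ ν : ℂ, Module.End.HasEigenvalue (Matrix.toLin' F) μ →
    Module.End.HasEigenvalue (Matrix.toLin' F) ν → μ ≠ ν → ∀ n : ℕ, 0 < n → μ ^ n ≠ ν ^ n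
  /-- Tate -/
  comm : ∀ x : Matrix I I ℂ, (∀ u, Ct 2 u → x * opM D u = opM D u * x) →
    x ∈ Algebra.adjoin ℂ {F}
  grp : ∀ x ∈ Γ, IsG D x
  gfix : ∀ x ∈ Γ, ∀ L u, At L u → gT x u = u
  nd : ∀ L, ∀ u ∈ Submodule.span ℂ {u | At L u}, u ≠ 0 →
    ∃ v ∈ Submodule.span ℂ {u | At L u}, psiT D u v ≠ 0

/-- the data in an adapted basis of eigenvectors of Frobenius: `PSys` without `orbit` -/
structure NCore (D : Dat I Λ) (At Bt : (L : ℕ) → Ten I L → Prop) (l : I → ℂ)
    (Γ : Set (Matrix I I ℂ)) {β : Type} [Fintype β] (lb : β → ℕ) (b : Tup I lb) : Prop where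
  sys : ASys D At
  typ_eq : ∀ i j, D.typ i = D.typ j
  odd : ∀ i, D.odd (D.typ i)
  norm : ∀ i, ‖l i‖ = 1
  tau : ∀ i, l (D.τ i) * l i = 1
  ratio : ∀ i j, l i ≠ l j → ∀ n : ℕ, 0 < n → l i ^ n ≠ l j ^ n
  fix : ∀ L u, At L u → gT (Matrix.diagonal l) u = u
  rsys : RSys D Bt
  sub : ∀ L u, At L u → Bt L u
  bmem : ∀ i, Bt (lb i) (b i)
  base : IsBase D b
  comm : ∀ x, IsG D x → gS x b = b →
    ∃ z : I → ℂ, (∀ i j, l i = l j → z i = z j) ∧ x = Matrix.diagonal z
  grp : ∀ x ∈ Γ, IsG D x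
  gfix : ∀ x ∈ Γ, ∀ L u, At L u → gT x u = u
  nd : ∀ L, ∀ u ∈ Submodule.span ℂ {u | At L u}, u ≠ 0 →
    ∃ v ∈ Submodule.span ℂ {u | At L u}, psiT D u v ≠ 0

/-- with irreducibility this is `PSys` -/
theorem NCore.toPSys {D : Dat I Λ} {At Bt : (L : ℕ) → Ten I L → Prop} {l : I → ℂ}
    {Γ : Set (Matrix I I ℂ)} {β : Type} [Fintype β] {lb : β → ℕ} {b : Tup I lb}
    (S : NCore D At Bt l Γ lb b)
    (orbit : ∀ U : Submodule ℂ (I → ℂ), (∀ z, At 2 z → ∀ v ∈ U, (opM D z).mulVec v ∈ U) →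
      {U' : Submodule ℂ (I → ℂ) | ∃ x ∈ Γ, U' = U.map (Matrix.toLin' x)}.Finite →
      U = ⊥ ∨ U = ⊤) : PSys D At Bt l Γ lb b :=
  { sys := S.sys, typ_eq := S.typ_eq, odd := S.odd, norm := S.norm, tau := S.tau,
    ratio := S.ratio, fix := S.fix, rsys := S.rsys, sub := S.sub, bmem := S.bmem,
    base := S.base, comm := S.comm, grp := S.grp, gfix := S.gfix, orbit := orbit, nd := S.nd }

namespace QS

variable {D : Dat I Λ}

/-- a tensor of length `2` is `mten` of its matrix -/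
theorem mten_opM (u : Ten I 2) : mten D (opM D u) = u := by
  funext w
  have h : (![w 0, w 1] : Fin 2 → I) = w := by
    funext i
    fin_cases i <;> rfl
  show u ![w 0, D.τ (D.τ (w 1))] * D.s (D.τ (w 1)) * D.s (D.τ (w 1)) = u w
  rw [D.τ_τ, h, mul_assoc, s_sq, mul_one]

theorem opM_mten (M : Matrix I I ℂ) : opM D (mten D M) = M := by
  ext i j
  show M i (D.τ (D.τ j)) * D.s (D.τ (D.τ j)) * D.s j = M i j
  rw [D.τ_τ, mul_assoc, s_sq, mul_one]

theorem opM_add (u v : Ten I 2) : opM D (u + v) = opM D u + opM D v := by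
  ext i j
  show (u + v) ![i, D.τ j] * D.s j = u ![i, D.τ j] * D.s j + v ![i, D.τ j] * D.s j
  rw [Pi.add_apply, add_mul]

theorem opM_smul (c : ℂ) (u : Ten I 2) : opM D (c • u) = c • opM D u := by
  ext i j
  show (c • u) ![i, D.τ j] * D.s j = c * (u ![i, D.τ j] * D.s j)
  rw [Pi.smul_apply, smul_eq_mul, mul_assoc]

theorem opM_zero : opM D (0 : Ten I 2) = 0 := by
  ext i j
  show (0 : Ten I 2) ![i, D.τ j] * D.s j = 0
  rw [Pi.zero_apply, zero_mul]

/-- transport -/
theorem opM_gT (hodd : ∀ i, D.odd (D.typ i)) (a1 : Alg1) {Y : Matrix I I ℂ} (hY : IsG D Y)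
    (u : Ten I 2) : opM D (gT Y u) = Y * opM D u * Y⁻¹ := by
  obtain ⟨-, h1, h2⟩ := a1.G_inv D Y hY
  have h3 : (Y * opM D u * Y⁻¹) * Y = Y * opM D u := by
    rw [Matrix.mul_assoc (Y * opM D u), h2, Matrix.mul_one]
  have h4 := Rea.gT_mten hodd hY h3
  rw [mten_opM] at h4
  rw [h4, opM_mten]

/-- a matrix that commutes with the matrices of a set commutes with those of its span -/
theorem comm_span {x : Matrix I I ℂ} {B : Set (Ten I 2)}
    (hB : ∀ u ∈ B, x * opM D u = opM D u * x) {u : Ten I 2} (hu : u ∈ Submodule.span ℂ B) :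
    x * opM D u = opM D u * x := by
  induction hu using Submodule.span_induction with
  | mem u hu => exact hB u hu
  | zero => rw [opM_zero, Matrix.mul_zero, Matrix.zero_mul]
  | add a b _ _ ha hb => rw [opM_add, Matrix.mul_add, Matrix.add_mul, ha, hb]
  | smul c a _ ha => rw [opM_smul, Matrix.mul_smul, Matrix.smul_mul, ha]

/-- the elements of the algebra generated by a matrix conjugate to a diagonal one -/
theorem adjoin_diag {F Y : Matrix I I ℂ} {l : I → ℂ} (h2 : Y⁻¹ * Y = 1)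
    (h1 : Y * Y⁻¹ = 1) (hF : F * Y = Y * Matrix.diagonal l) {x : Matrix I I ℂ}
    (hx : x ∈ Algebra.adjoin ℂ {F}) :
    ∃ z : I → ℂ, (∀ i j, l i = l j → z i = z j) ∧ Y⁻¹ * x * Y = Matrix.diagonal z := by
  induction hx using Algebra.adjoin_induction with
  | mem x hx =>
    obtain rfl : x = F := hx
    refine ⟨l, fun i j h => h, ?_⟩
    rw [Matrix.mul_assoc, hF, ← Matrix.mul_assoc, h2, Matrix.one_mul]
  | algebraMap c =>
    refine ⟨fun _ => c, fun _ _ _ => rfl, ?_⟩
    rw [Algebra.algebraMap_eq_smul_one, Matrix.mul_smul, Matrix.mul_one, Matrix.smul_mul, h2]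
    ext i j
    rw [Matrix.smul_apply, Matrix.one_apply, Matrix.diagonal_apply, smul_eq_mul]
    split_ifs <;> simp
  | add a b _ _ ha hb =>
    obtain ⟨z, hz, hz'⟩ := ha
    obtain ⟨z', hw, hw'⟩ := hb
    refine ⟨fun i => z i + z' i, fun i j h => congrArg₂ (· + ·) (hz i j h) (hw i j h), ?_⟩
    rw [Matrix.mul_add, Matrix.add_mul, hz', hw', Matrix.diagonal_add]
  | mul a b _ _ ha hb =>
    obtain ⟨z, hz, hz'⟩ := ha
    obtain ⟨z', hw, hw'⟩ := hb
    refine ⟨fun i => z i * z' i, fun i j h => congrArg₂ (· * ·) (hz i j h) (hw i j h), ?_⟩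
    rw [← Matrix.diagonal_mul_diagonal, ← hz', ← hw']
    have : Y⁻¹ * a * Y * (Y⁻¹ * b * Y) = Y⁻¹ * a * (Y * Y⁻¹) * b * Y := by
      simp only [Matrix.mul_assoc]
    rw [this, h1, Matrix.mul_one, Matrix.mul_assoc Y⁻¹ a b]

end QS

open QS

namespace QS

variable {D : Dat I Λ} {Y : Matrix I I ℂ}

/-- the action on tensors as a linear map -/
def gLn (a1 : Alg1) (Y : Matrix I I ℂ) (L : ℕ) : Ten I L →ₗ[ℂ] Ten I L :=
  { toFun := gT Y, map_add' := a1.gT_add Y, map_smul' := fun c u => a1.gT_smul Y c u }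

theorem inj (a1 : Alg1) (hG : IsG D Y) {L : ℕ} {u v : Ten I L} (h : gT Y u = gT Y v) :
    u = v := by
  have := congrArg (gT Y⁻¹) h
  rwa [gT_inv_gT a1 hG, gT_inv_gT a1 hG] at this

theorem img (a1 : Alg1) (hG : IsG D Y) (At : (L : ℕ) → Ten I L → Prop) (L : ℕ) :
    (gLn a1 Y L) '' {u | At L (gT Y u)} = {u | At L u} := by
  ext v
  constructor
  · rintro ⟨w, hw, rfl⟩
    exact hw
  · intro hv
    refine ⟨gT Y⁻¹ v, ?_, psi_outer_gT a1 hG v⟩
    show At L (gT Y (gT Y⁻¹ v))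
    rw [psi_outer_gT a1 hG]
    exact hv

theorem spanC (a1 : Alg1) (hG : IsG D Y) (At : (L : ℕ) → Ten I L → Prop) (L : ℕ) :
    (Submodule.span ℂ {u | At L (gT Y u)}).map (gLn a1 Y L) = Submodule.span ℂ {u | At L u} := by
  rw [Submodule.map_span, img a1 hG]

theorem spanR (a1 : Alg1) (hG : IsG D Y) (At : (L : ℕ) → Ten I L → Prop) (L : ℕ) :
    (Submodule.span ℝ {u | At L (gT Y u)}).map ((gLn a1 Y L).restrictScalars ℝ)
      = Submodule.span ℝ {u | At L u} := by
  rw [Submodule.map_span]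
  exact congrArg (Submodule.span ℝ) (img a1 hG At L)

/-- stable subspaces with finitely many images -/
theorem orb (hodd : ∀ i, D.odd (D.typ i)) (a1 : Alg1) (hG : IsG D Y)
    {At : (L : ℕ) → Ten I L → Prop} {Γ : Set (Matrix I I ℂ)} {U : Submodule ℂ (I → ℂ)}
    (hUst : ∀ z, At 2 (gT Y z) → ∀ v ∈ U, (opM D z).mulVec v ∈ U)
    (hU : {U' : Submodule ℂ (I → ℂ) | ∃ x' ∈ {x' | ∃ x ∈ Γ, x' = Y⁻¹ * x * Y},
      U' = U.map (Matrix.toLin' x')}.Finite) :
    (∀ z, At 2 z → ∀ v ∈ U.map (Matrix.toLin' Y), (opM D z).mulVec v ∈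
      U.map (Matrix.toLin' Y)) ∧
    {U' : Submodule ℂ (I → ℂ) | ∃ x ∈ Γ,
      U' = (U.map (Matrix.toLin' Y)).map (Matrix.toLin' x)}.Finite := by
  obtain ⟨hY1, hY2, hY3⟩ := a1.G_inv D Y hG
  constructor
  · rintro z hz _ ⟨v, hv, rfl⟩
    have h2 : At 2 (gT Y (gT Y⁻¹ z)) := by
      rw [psi_outer_gT a1 hG]
      exact hz
    refine ⟨(opM D (gT Y⁻¹ z)).mulVec v, hUst _ h2 v hv, ?_⟩
    have h3 := opM_gT hodd a1 hG (gT Y⁻¹ z)
    rw [psi_outer_gT a1 hG] at h3
    rw [h3, Matrix.toLin'_apply, Matrix.toLin'_apply, Matrix.mulVec_mulVec,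
      Matrix.mulVec_mulVec, Matrix.mul_assoc (Y * opM D (gT Y⁻¹ z)), hY3,
      Matrix.mul_one]
  · refine Set.Finite.subset (hU.image fun V => V.map (Matrix.toLin' Y)) ?_
    rintro _ ⟨x, hx, rfl⟩
    refine ⟨U.map (Matrix.toLin' (Y⁻¹ * x * Y)), ⟨_, ⟨x, hx, rfl⟩, rfl⟩, ?_⟩
    show (U.map (Matrix.toLin' (Y⁻¹ * x * Y))).map (Matrix.toLin' Y) = _
    rw [← Submodule.map_comp, ← Submodule.map_comp, ← Matrix.toLin'_mul,
      ← Matrix.toLin'_mul, ← Matrix.mul_assoc, ← Matrix.mul_assoc, hY2, Matrix.one_mul]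

/-- the image under `Y⁻¹` of the image under `Y` -/
theorem map_back (a1 : Alg1) (hG : IsG D Y) (V : Submodule ℂ (I → ℂ)) :
    (V.map (Matrix.toLin' Y)).map (Matrix.toLin' Y⁻¹) = V := by
  rw [← Submodule.map_comp, ← Matrix.toLin'_mul, (a1.G_inv D Y hG).2.2, Matrix.toLin'_one,
    Submodule.map_id]

end QS

open QS

/-- the data in an adapted basis of eigenvectors of Frobenius -/
theorem exists_core (hY : YStatement) (a1 : Alg1) (a2 : Alg2) {D : Dat I Λ}
    {At Ct : (L : ℕ) → Ten I L → Prop} {F : Matrix I I ℂ} {Γ : Set (Matrix I I ℂ)}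
    (S : NSys D At Ct F Γ) :
    ∃ (Y : Matrix I I ℂ) (l : I → ℂ) (β : Type) (_ : Fintype β) (lb : β → ℕ) (b : Tup I lb),
      IsG D Y ∧ NCore D (fun L u => At L (gT Y u)) (fun L u => Rsp.Bt Ct L (gT Y u)) l
        {x' | ∃ x ∈ Γ, x' = Y⁻¹ * x * Y} lb b := by
  classical
  obtain ⟨Y, l, hG, hFY, hn, hτ, hj⟩ := rea hY a1 S.odd S.typ_eq S.csys S.pos S.frob S.mten
  obtain ⟨hY1, hY2, hY3⟩ := a1.G_inv D Y hG
  -- the base tuple
  obtain ⟨B, hB1, hB2, hB3⟩ := exists_linearIndependent ℂ {u : Ten I 2 | Ct 2 u}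
  have hBfin : B.Finite := hB3.setFinite
  have : Fintype B := hBfin.fintype
  let lb : Option B → ℕ := fun i => i.elim 0 (fun _ => 2)
  let b : Tup I lb := fun i => match i with
    | none => fun _ => 1
    | some x => gT Y⁻¹ x.1
  have hFl : ∀ i, Module.End.HasEigenvalue (Matrix.toLin' F) (l i) := by
    intro i
    refine Module.End.hasEigenvalue_of_hasEigenvector (x := fun a => Y a i) ?_
    rw [Module.End.hasEigenvector_iff, Module.End.mem_eigenspace_iff]
    constructor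
    · funext a
      have h1 := congrFun (congrFun hFY a) i
      rw [Matrix.mul_diagonal] at h1
      rw [Matrix.toLin'_apply, Pi.smul_apply, smul_eq_mul, mul_comm, ← h1]
      rfl
    · intro h0
      have h1 := congrFun (congrFun hY3 i) i
      rw [Matrix.one_apply_eq, Matrix.mul_apply, Finset.sum_eq_zero] at h1
      · exact zero_ne_one h1
      · intro a _
        have h2 : Y a i = 0 := congrFun h0 a
        rw [h2, mul_zero]
  refine ⟨Y, l, Option B, inferInstance, lb, b, hG, ?_⟩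
  exact
    { sys := asys a1 a2 S.odd hG S.sys
      typ_eq := S.typ_eq
      odd := S.odd
      norm := hn
      tau := hτ
      ratio := fun i j hij n hn => S.ratio _ _ (hFl i) (hFl j) hij n hn
      fix := by
        intro L u hu
        apply inj a1 hG
        rw [← a1.gT_mul, ← hFY, a1.gT_mul]
        exact S.fix L _ hu
      rsys := rsys a1 a2 hG (Rsp.rsys D S.csys)
      sub := fun L u hu => Submodule.subset_span (S.sub L _ hu)
      bmem := by
        intro i
        match i with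
        | none =>
          show Rsp.Bt Ct 0 (gT Y (fun _ => 1))
          rw [gT_const]
          exact Submodule.subset_span S.csys.one
        | some x =>
          show Rsp.Bt Ct 2 (gT Y (gT Y⁻¹ x.1))
          rw [psi_outer_gT a1 hG]
          exact Submodule.subset_span (hB1 x.2)
      base := by
        refine ⟨?_, none, rfl, fun _ => rfl⟩
        funext i
        match i with
        | none =>
          funext w
          show sg D (D.τ ∘ w) * (starRingEnd ℂ) 1 = 1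
          rw [map_one, mul_one, sg]
          exact Fin.prod_univ_zero _
        | some x =>
          exact hj x.1 (Submodule.subset_span (hB1 x.2))
      comm := by
        intro x hx hxb
        have h1 : ∀ u ∈ B, gT (Y * x * Y⁻¹) u = u := by
          intro u hu
          have h2 : gT x (gT Y⁻¹ u) = gT Y⁻¹ u := congrFun hxb (some ⟨u, hu⟩)
          rw [a1.gT_mul, a1.gT_mul, h2, psi_outer_gT a1 hG]
        have hx' : IsG D (Y * x * Y⁻¹) := a1.G_mul D _ _ (a1.G_mul D _ _ hG hx) hY1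
        obtain ⟨-, h3, h4⟩ := a1.G_inv D _ hx'
        have h5 : ∀ u ∈ B, (Y * x * Y⁻¹) * opM D u = opM D u * (Y * x * Y⁻¹) := by
          intro u hu
          have h6 := opM_gT S.odd a1 hx' u
          rw [h1 u hu] at h6
          conv_rhs => rw [h6]
          rw [Matrix.mul_assoc (Y * x * Y⁻¹ * opM D u), h4, Matrix.mul_one]
        have h7 := S.comm (Y * x * Y⁻¹) fun u hu =>
          comm_span h5 (by rw [hB2]; exact Submodule.subset_span hu)
        obtain ⟨z, hz, hz'⟩ := adjoin_diag hY3 hY2 hFY h7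
        refine ⟨z, hz, ?_⟩
        rw [← hz']
        have : Y⁻¹ * (Y * x * Y⁻¹) * Y = (Y⁻¹ * Y) * x * (Y⁻¹ * Y) := by
          simp only [Matrix.mul_assoc]
        rw [this, hY3, Matrix.one_mul, Matrix.mul_one]
      grp := by
        rintro _ ⟨x, hx, rfl⟩
        exact a1.G_mul D _ _ (a1.G_mul D _ _ hY1 (S.grp x hx)) hG
      gfix := by
        rintro _ ⟨x, hx, rfl⟩ L u hu
        apply inj a1 hG
        rw [a1.gT_mul, a1.gT_mul, psi_outer_gT a1 hG]
        exact S.gfix x hx L _ hu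
      nd := by
        intro L u hu hu0
        have h1 : gT Y u ∈ Submodule.span ℂ {u | At L u} := by
          rw [← spanC a1 hG At L]
          exact ⟨u, hu, rfl⟩
        have h2 : gT Y u ≠ 0 := fun h => hu0 (inj a1 hG (h.trans (gT_zero a1 Y).symm))
        obtain ⟨v, hv, hv0⟩ := S.nd L _ h1 h2
        rw [← spanC a1 hG At L] at hv
        obtain ⟨v', hv', rfl⟩ := hv
        refine ⟨v', hv', ?_⟩
        rw [← a1.psiT_gT D Y u v' hG]
        exact hv0 }

/-- **Theorem E+ for the data from geometry.** -/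
theorem ofN (hY : YStatement) (a1 : Alg1) (a2 : Alg2) (hP : ThmPStatement) {D : Dat I Λ}
    {At Ct : (L : ℕ) → Ten I L → Prop} {F : Matrix I I ℂ} {Γ : Set (Matrix I I ℂ)}
    (S : NSys D At Ct F Γ)
    (orbit : ∀ U : Submodule ℂ (I → ℂ), (∀ z, At 2 z → ∀ v ∈ U, (opM D z).mulVec v ∈ U) →
      {U' : Submodule ℂ (I → ℂ) | ∃ x ∈ Γ, U' = U.map (Matrix.toLin' x)}.Finite →
      U = ⊥ ∨ U = ⊤) (L : ℕ) (u : Ten I L) (hu : u ∈ Submodule.span ℝ {u | At L u})
    (hu0 : u ≠ 0) : ∃ r : ℝ, 0 < r ∧ psiT D u u = (r : ℂ) := by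
  obtain ⟨Y, l, β, _, lb, b, hG, C⟩ := exists_core hY a1 a2 S
  obtain ⟨hY1, hY2, hY3⟩ := a1.G_inv D Y hG
  have hPS := C.toPSys (by
    intro U hUst hU
    obtain ⟨h1, h2⟩ := orb S.odd a1 hG hUst hU
    rcases orbit _ h1 h2 with h | h
    · left
      rw [← map_back a1 hG U, h, Submodule.map_bot]
    · right
      rw [← map_back a1 hG U, h, Submodule.map_top, LinearMap.range_eq_top]
      intro v
      refine ⟨Y.mulVec v, ?_⟩
      rw [Matrix.toLin'_apply, Matrix.mulVec_mulVec, hY3, Matrix.one_mulVec])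
  rw [← spanR a1 hG At L] at hu
  obtain ⟨u', hu', rfl⟩ := hu
  have h1 := hP D _ _ _ _ _ _ hPS L u' hu' (fun h => hu0 (by rw [h, map_zero]))
  obtain ⟨r, hr, h2⟩ := h1
  refine ⟨r, hr, ?_⟩
  rw [← h2]
  exact a1.psiT_gT D Y u' u' hG

end Pool.Agent.Lib.MP_361a6f_ag.FL.E
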