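import Pool.Agent.Lib.MP_361a6f_ag.FL.E.RotM
import Pool.Agent.Lib.MP_361a6f_ag.FL.E.I.Cnj
import Pool.Agent.Lib.MP_361a6f_ag.FL.Main

/-!
# Numerical and homological equivalence in one codimension

Only the tensors of length `2j` matter in codimension `j`. If complex linear relations between
algebraic classes of codimension `j` on the powers with `2j` factors remain true for the conjugate
coefficients then numerical equivalence is homological equivalence in codimension `j` on all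
powers.
-/

open CategoryTheory AlgebraicGeometry MonoidalCategory CartesianMonoidalCategory

universe u v w

set_option autoImplicit false
set_option linter.unusedSectionVars false

namespace Pool.Agent.Lib.MP_361a6f_ag.FL

open Pool.Agent.Lib.MP_361a6f_ag.H3 Pool.Agent.Lib.MP_361a6f_ag.SQ
  Pool.Agent.Lib.MP_361a6f_ag.PP

namespace RotN

open EndE EndC EndM

section gen

variable {k : Type u} [Field k] {m : ℕ} {W : CohomologyData.{u, 0, w} k ℂ} {𝒱 : VarietyClass k}
  (H : Host W 𝒱 m)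

/-- the projector to the tensors of degree one is self-adjoint -/
theorem psi_Z1_left (Q : Prd m) (v t : W.coh (Q.obj H.X)) :
    H.psiP Q v (Z1 H Q t) = H.psiP Q (Z1 H Q v) t := by
  rw [← psi_Z1 H (ge H) Q (Z1_dd H Q v) t, ← (ge H).psi_tc, ← (ge H).psi_tc,
    tc_Z1 H (ge H), tc_Z1 H (ge H), psiT, psiT]
  refine Finset.sum_congr rfl fun w _ => ?_
  by_cases hw : D1 H w
  · rw [cut_on H (H.tc Q v) hw]
  · rw [cut_off H (H.tc Q v) hw]
    have h2 : ¬ D1 H (H.D.τ ∘ w) := fun h3 => hw (by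
      intro i
      have h4 := h3 i
      rwa [Function.comp_apply, H.D.typ_τ] at h4)
    rw [cut_off H _ h2, zero_mul, mul_zero, mul_zero]

/-- numerical equivalence in codimension `j`: it is enough to know it for the tensors of degree one
on the products of `2j` factors -/
theorem num_of_dd_j (hAb : ∀ a, AbelianType W (H.X a) (H.n a)) (j : ℕ)
    (hnd : ∀ (Q : Prd m), Q.size = 2 * j → ∀ t ∈ CT H Q, Dd H Q t →
      (∀ v ∈ tot W (Q.obj H.X), H.psiP Q v t = 0) → t = 0)
    (P : Prd m) {x : W.coh (P.obj H.X)} (hx : x ∈ CT H P)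
    (hg : x ∈ W.gr (P.obj H.X) (2 * j))
    (h : ∀ v ∈ tot W (P.obj H.X), W.tr (P.obj H.X) (x * v) = 0) : x = 0 := by
  have h' : ∀ v ∈ tot W (P.obj H.X), H.psiP P v x = 0 := by
    intro v hv
    change W.tr (P.obj H.X) (v * H.starP P x) = 0
    rw [← star_adj, ← ct_comm H P hx]
    exact h _ (star_tot H P hv)
  refine eq_zero H hAb P hx (h' 1 (one_tot H P)) fun Q F hF => ?_
  by_cases hQ : Q.size = 2 * j
  · refine hnd Q hQ _ (Z1_ct H Q (adj_ct H F hx)) (Z1_dd H Q _) fun v hv => ?_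
    rw [psi_Z1_left, psi_adj H F hx]
    exact h' _ (tot_pull H.hW (H.memP P) (H.memP Q) F (Z1_tot H Q hv))
  · refine nd_right H Q _ fun y => ?_
    rw [psi_Z1_left, psi_adj H F hx]
    exact psi_off H P hQ (H.hW.pull_gr (H.memP P) (H.memP Q) F (dd_gr H (Z1_dd H Q y))) hg

end gen

section one

variable {k : Type u} [Field k] {W : CohomologyData.{u, 0, w} k ℂ} {𝒱 : VarietyClass k}
  (H : Host W 𝒱 1)

/-- **One codimension.** -/
theorem num_of_nd_j (hAb : ∀ a, AbelianType W (H.X a) (H.n a)) (j : ℕ)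
    (nd : ∀ u ∈ Submodule.span ℂ {u | E.At1 H (2 * j) u}, u ≠ 0 →
      ∃ v ∈ Submodule.span ℂ {u | E.At1 H (2 * j) u}, psiT (E.subD H.D (0, 1)) u v ≠ 0)
    (P : Prd 1) {x : W.coh (P.obj H.X)} (hx : x ∈ CT H P)
    (hg : x ∈ W.gr (P.obj H.X) (2 * j))
    (h : ∀ v ∈ tot W (P.obj H.X), W.tr (P.obj H.X) (x * v) = 0) : x = 0 := by
  refine num_of_dd_j H hAb j (fun Q hQ t ht htd hv => ?_) P hx hg h
  rw [← hQ] at nd
  rw [← cls_of_dd H htd]
  by_contra h0
  have h1 : tc1 H Q t ≠ 0 := fun h2 => h0 (by rw [h2, map_zero])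
  obtain ⟨v, hvs, h2⟩ := nd _ (tc1_span H ht) h1
  apply h2
  rw [E.Rot.psi_flip (odd1 H)]
  have h3 : ∀ v ∈ Submodule.span ℂ {u | E.At1 H Q.size u},
      psiT (E.subD H.D (0, 1)) v (tc1 H Q t) = 0 := by
    intro v hv'
    rw [← psi_cls_right, ← psiB_apply]
    have h4 : Submodule.span ℂ {u | E.At1 H Q.size u}
        ≤ LinearMap.ker ((psiB H Q).flip t ∘ₗ cls H Q) := by
      refine Submodule.span_le.2 fun u hu => ?_
      exact hv _ (cls_tot H hu)
    exact h4 hv'
  rw [h3 v hvs, mul_zero]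

/-- the classes of algebraic tensors of length `2j` -/
theorem cls_alg {P : Prd 1} {j : ℕ} (hP : P.size = 2 * j) {u : Ten (E.Sub H.D (0, 1)) P.size}
    (hu : E.At1 H P.size u) : cls H P u ∈ W.alg (P.obj H.X) j := by
  refine tot_alg H.hW (H.memP P) (cls_tot H hu) ?_
  have h1 := dd_gr H (cls_dd H P u)
  rw [← hP]
  exact h1

end one

/-- pairs of conjugate combinations -/
theorem exists_cj {I : Type} [Fintype I] [DecidableEq I] {At : (L : ℕ) → Ten I L → Prop}
    {L : ℕ} {u v : Ten I L}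
    (h : (u, v) ∈ E.Inj.Cj At L) : ∃ (n : ℕ) (a : Fin n → ℂ) (z : Fin n → Ten I L),
      (∀ i, At L (z i)) ∧ u = ∑ i, a i • z i ∧ v = ∑ i, starRingEnd ℂ (a i) • z i := by
  refine E.Inj.cj_ind (C := fun u v => ∃ (n : ℕ) (a : Fin n → ℂ) (z : Fin n → Ten I L),
      (∀ i, At L (z i)) ∧ u = ∑ i, a i • z i ∧ v = ∑ i, starRingEnd ℂ (a i) • z i) ?_ ?_ ?_ h
  · intro a z hz
    exact ⟨1, fun _ => a, fun _ => z, fun _ => hz, by simp, by simp⟩
  · exact ⟨0, fun _ => 0, fun _ => 0, fun i => i.elim0, by simp, by simp⟩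
  · rintro u v u' v' ⟨n, a, z, hz, rfl, rfl⟩ ⟨n', a', z', hz', rfl, rfl⟩
    refine ⟨n + n', Fin.append a a', Fin.append z z', fun i => ?_, ?_, ?_⟩
    · refine Fin.addCases (fun i => ?_) (fun i => ?_) i
      · rw [Fin.append_left]
        exact hz i
      · rw [Fin.append_right]
        exact hz' i
    · rw [Fin.sum_univ_add]
      simp only [Fin.append_left, Fin.append_right]
    · rw [Fin.sum_univ_add]
      simp only [Fin.append_left, Fin.append_right]

section hyp

open E E.RotG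

variable {k : Type u} [Field k] {W : CohomologyData.{u, 0, w} k ℂ} {𝒱 : VarietyClass k}
  (hW : IsWeilCohomology W 𝒱) {X : Sch k} {g : ℕ} {ξ : W.coh X} (h : EQ.Hyp0 W 𝒱 X g ξ)

include hW h in
/-- **Conjugation of the relations in codimension `j` on the powers with `2j` factors implies that
numerical equivalence is homological equivalence in codimension `j` on all powers.** -/
theorem num_of_conj (hI : HodgeCodim W (X.prod X) (g + g)
      (W.pb (X.pr₁ X) ξ + W.pb (X.pr₂ X) ξ) 1) (j : ℕ)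
    (hC : ∀ P : Prd 1, P.size = 2 * j → ∀ (n : ℕ) (a : Fin n → ℂ) (z : Fin n → W.coh (EQ.pw X P)),
      (∀ i, W.IsAlg (EQ.pw X P) j (z i)) → ∑ i, W.scal (a i) (z i) = 0 →
      ∑ i, W.scal (starRingEnd ℂ (a i)) (z i) = 0)
    (P : Prd 1) : ∀ x ∈ Submodule.span ℂ {z | W.IsAlg (EQ.pw X P) j z},
      (∀ l y, W.IsAlg (EQ.pw X P) l y → W.Tr (W.cup x y) = 0) → x = 0 := by
  obtain ⟨c⟩ := exists_core0 hW h
  obtain ⟨Γ, grp, gfix, orbit⟩ := exists_gam hW h c
  intro x hx hv
  have hxg : ∀ x ∈ Submodule.span ℂ {z | z ∈ W.alg (P.obj (hst0 hW h c).X) j},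
      x ∈ W.gr (P.obj (hst0 hW h c).X) (2 * j) := by
    intro x hx
    have h1 : Submodule.span ℂ {z | z ∈ W.alg (P.obj (hst0 hW h c).X) j} ≤
        W.gr (P.obj (hst0 hW h c).X) (2 * j) :=
      Submodule.span_le.2 fun z hz => hW.alg_gr ((hst0 hW h c).memP P) hz
    exact h1 hx
  refine num_of_nd_j (hst0 hW h c) (fun _ => abT hW h) j ?_ P (span_ct (hst0 hW h c) P hx)
    (hxg x hx) (tr_tot (hst0 hW h c) P hv)
  rcases Nat.eq_zero_or_pos j with rfl | hj
  · intro u _ hu0
    exact nd_zero (hst0 hW h c) hu0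
  · refine E.Inj.nd_of_conj mainY alg1 (asys1 (hst0 hW h c)) (odd1 (hst0 hW h c))
      (typ1 (hst0 hW h c)) Γ grp gfix orbit (pos_two (hst0 hW h c) hI) fun v hv => ?_
    obtain ⟨n, a, z, hz, h1, h2⟩ := exists_cj hv
    obtain ⟨Q, hQ⟩ := exists_size (2 * j - 1)
    have hQ' : Q.size = 2 * j := by omega
    clear hv hQ
    revert z v
    rw [← hQ']
    intro v z hz h1 h2
    have h3 := hC Q hQ' n a (fun i => cls (hst0 hW h c) Q (z i))
      (fun i => cls_alg (hst0 hW h c) hQ' (hz i)) (by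
        change ∑ i, a i • cls (hst0 hW h c) Q (z i) = 0
        rw [← map_zero (cls (hst0 hW h c) Q), h1, map_sum]
        exact Finset.sum_congr rfl fun i _ => (map_smul _ _ _).symm)
    change ∑ i, starRingEnd ℂ (a i) • cls (hst0 hW h c) Q (z i) = 0 at h3
    have h4 : cls (hst0 hW h c) Q v = 0 := by
      rw [h2, map_sum, ← h3]
      exact Finset.sum_congr rfl fun i _ => map_smul _ _ _
    have h5 := congrArg (tc1 (hst0 hW h c) Q) h4
    rwa [tc1_cls, map_zero] at h5

end hyp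

end RotN

end Pool.Agent.Lib.MP_361a6f_ag.FL
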