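import Pool.Agent.Lib.MP_361a6f_ag.FL.E.StatU
import Pool.Agent.Lib.MP_361a6f_ag.FL.E.RotJ
import Pool.Agent.Lib.MP_361a6f_ag.FL.E.RatU

/-!
# Numerical and homological equivalence for abelian varieties: the clauses
-/

open CategoryTheory AlgebraicGeometry MonoidalCategory CartesianMonoidalCategory

universe u v w w'

set_option autoImplicit false

namespace Pool.Agent.Lib.MP_361a6f_ag.FL

open Pool.Agent.Lib.MP_361a6f_ag.H3 Pool.Agent.Lib.MP_361a6f_ag.SQ
  Pool.Agent.Lib.MP_361a6f_ag.PP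

namespace AsmU

section one

variable {k : Type u} [Field k] {W : CohomologyData.{u, 0, w} k ℂ} {𝒱 : VarietyClass k}

theorem numHom_iff {Y : Sch k} : EQ.NumHom W Y ↔ ∀ j, EQ.NumHomIn W Y j := Iff.rfl

theorem indep_iff {Y : Sch k} {j : ℕ} :
    EQ.Independent W Y j ↔ E.RatU.Indep {z : W.coh Y | W.IsAlg Y j z} := by
  constructor
  · intro h n z hz hq c hc
    exact congrFun (h n z hz (fun q hq0 => funext (hq q hq0)) c hc)
  · intro h n z hz hq c hc
    exact funext (h n z hz (fun q hq0 => congrFun (hq q hq0)) c hc)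

variable (hW : IsWeilCohomology W 𝒱) {X : Sch k} {g : ℕ} {ξ : W.coh X}
  (h : EQ.Hyp0 W 𝒱 X g ξ) (hI : EQ.Index W X g ξ)

include h in
theorem memP (P : Prd 1) : 𝒱.mem (EQ.pw X P) (P.dim fun _ => g) :=
  FL.memP (X := fun _ => X) (n := fun _ => g) (fun _ => h.mem) P

include hW h hI in
/-- independence implies that numerical equivalence is homological equivalence -/
theorem num_of_indep {j : ℕ} (hi : ∀ P : Prd 1, P.size = 2 * j →
    E.RatU.Indep {z : W.coh (EQ.pw X P) | W.IsAlg (EQ.pw X P) j z}) (P : Prd 1) :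
    EQ.NumHomIn W (EQ.pw X P) j :=
  RotN.num_of_conj hW h hI j (fun P hP n a z hz h0 =>
    E.RatU.conj_of_indep (hi P hP) n a z hz h0) P

include hW h hI in
/-- **The first clause.** -/
theorem clauseI (j : ℕ) : (∀ P, EQ.NumHomIn W (EQ.pw X P) j) ↔
    ∀ P : Prd 1, P.size = 2 * j → EQ.Independent W (EQ.pw X P) j := by
  constructor
  · intro hn P _
    exact indep_iff.2 (E.RatU.indep_of_num hW (memP h P) fun x hx h0 =>
      hn P x (Submodule.subset_span hx) h0)
  · intro hi
    exact num_of_indep hW h hI fun P hP => indep_iff.1 (hi P hP)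

variable {k' : Type v} [Field k'] {W' : CohomologyData.{v, 0, w'} k' ℂ} {𝒱' : VarietyClass k'}
  (hW' : IsWeilCohomology W' 𝒱') {X' : Sch k'} (hX' : 𝒱'.mem X' g)
  {s : ∀ P : Prd 1, W.coh (EQ.pw X P) → W'.coh (EQ.pw X' P)} (hs : EQ.IsSpec W X W' X' s)

include hW h hI hW' hX' hs in
/-- **The second clause.** -/
theorem clauseS (j : ℕ) : (∀ P, EQ.NumHomIn W (EQ.pw X P) j) ↔ ∀ P : Prd 1, P.size = 2 * j →
    ∀ z, W.IsAlg (EQ.pw X P) j z → EQ.NumTriv W' (s P z) → z = 0 := by
  constructor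
  · intro hn P _
    exact E.RatU.alive_of_num hW hW' h.mem hX' hs P fun x hx h0 =>
      hn P x (Submodule.subset_span hx) h0
  · intro ha
    exact num_of_indep hW h hI fun P hP => E.RatU.indep_of_alive hW hW' hX' hs P (ha P hP)

end one

end AsmU

end Pool.Agent.Lib.MP_361a6f_ag.FL
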