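import Pool.Agent.Lib.MP_361a6f_ag.FL.E.NSysH
import Pool.Agent.Lib.MP_361a6f_ag.FL.E.S.Slot
import Pool.Agent.Lib.MP_361a6f_ag.FL.Al1b

/-!
# The members killed by the central elements of the Lie algebra

`At0` is the subsystem of the members of `At` that are killed by all central elements `B` of the
span of the endomorphisms that belong to the Lie algebra: the classes fixed by the identity
component of the group of the central isometries.
-/

open Filter Topology

set_option autoImplicit false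
set_option linter.unusedSectionVars false

namespace Pool.Agent.Lib.MP_361a6f_ag.FL.E

variable {I Λ : Type} [Fintype I] [DecidableEq I] [DecidableEq Λ]

/-- `B` is a central element of the span of the endomorphisms and belongs to the Lie algebra -/
def CenL (D : Dat I Λ) (At : (L : ℕ) → Ten I L → Prop) (B : Matrix I I ℂ) : Prop :=
  B ∈ endS D At ∧ IsLie D B ∧ ∀ z, At 2 z → B * opM D z = opM D z * B

/-- the members of `At` killed by the central elements of the Lie algebra -/
def At0 (D : Dat I Λ) (At : (L : ℕ) → Ten I L → Prop) (L : ℕ) (u : Ten I L) : Prop :=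
  At L u ∧ ∀ B ∈ endS D At, IsLie D B → (∀ z, At 2 z → B * opM D z = opM D z * B) → aT B u = 0

namespace Z0

open QS

variable {D : Dat I Λ} {At : (L : ℕ) → Ten I L → Prop}

theorem aT_zero' (a1 : Alg1) (A : Matrix I I ℂ) {L : ℕ} : aT A (0 : Ten I L) = 0 := by
  have h := a1.aT_smul A (0 : ℂ) (0 : Ten I L)
  rwa [zero_smul, zero_smul] at h

/-- killed by `B` if and only if fixed by all `exp (t B)` -/
theorem kill_iff (a1 : Alg1) (B : Matrix I I ℂ) {L : ℕ} (u : Ten I L) :
    aT B u = 0 ↔ ∀ t : ℂ, gT (NormedSpace.exp (t • B)) u = u := by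
  constructor
  · intro h t
    have h0 : aT (t • B) u = 0 := by rw [a1.smul_aT, h, smul_zero]
    have h1 : ∀ n : ℕ, n ≠ 0 → (aT (t • B))^[n] u = 0 := by
      intro n hn
      obtain ⟨m, rfl⟩ := Nat.exists_eq_succ_of_ne_zero hn
      rw [Function.iterate_succ_apply, h0]
      clear hn
      induction m with
      | zero => rfl
      | succ m ih => rw [Function.iterate_succ_apply, aT_zero' a1, ih]
    have h2 := a1.gT_exp (t • B) u
    have h3 : HasSum (fun n : ℕ => ((n.factorial : ℂ)⁻¹) • (aT (t • B))^[n] u)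
        (((Nat.factorial 0 : ℂ)⁻¹) • (aT (t • B))^[0] u) :=
      hasSum_single 0 fun n hn => by rw [h1 n hn, smul_zero]
    have h4 := h2.unique h3
    rw [h4]
    simp
  · intro h
    have h1 := AL1B.hasDerivAt_gT_exp B u (0 : ℂ)
    have h2 : (fun t : ℂ => gT (NormedSpace.exp (t • B)) u) = fun _ => u := funext h
    rw [h2, h (0 : ℂ)] at h1
    exact h1.unique (hasDerivAt_const (0 : ℂ) u)

/-- elements of the group fix what the Lie algebra kills: the exponentials are in the group -/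
theorem grp_exp (a1 : Alg1) {B : Matrix I I ℂ} (hB : IsLie D B) (t : ℂ) :
    IsG D (NormedSpace.exp (t • B)) :=
  a1.G_exp D _ (a1.Lie_smul D t B hB)

theorem comm_exp {B M : Matrix I I ℂ} (h : B * M = M * B) (t : ℂ) :
    NormedSpace.exp (t • B) * M = M * NormedSpace.exp (t • B) := by
  have h1 : Commute M (t • B) := by
    show M * (t • B) = (t • B) * M
    rw [Matrix.mul_smul, Matrix.smul_mul, h]
  exact (h1.exp_right).eq.symm

/-- a group element that commutes with the matrix of a tensor of length `2` fixes it -/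
theorem fix_two (a1 : Alg1) (ho : ∀ i, D.odd (D.typ i)) {Y : Matrix I I ℂ} (hY : IsG D Y)
    {z : Ten I 2} (h : Y * opM D z = opM D z * Y) : gT Y z = z := by
  have h1 := opM_gT ho a1 hY z
  rw [h, Matrix.mul_assoc, (a1.G_inv D Y hY).2.1, Matrix.mul_one] at h1
  rw [← mten_opM (D := D) (gT Y z), h1, mten_opM]

/-- the members of length `2` are killed by the central elements -/
theorem at0_two (a1 : Alg1) (ho : ∀ i, D.odd (D.typ i)) {z : Ten I 2} (hz : At 2 z) :
    At0 D At 2 z := by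
  refine ⟨hz, fun B _ hB hc => ?_⟩
  rw [kill_iff a1]
  intro t
  exact fix_two a1 ho (grp_exp a1 hB t) (comm_exp (hc z hz) t)

theorem at0_iff (a1 : Alg1) (ho : ∀ i, D.odd (D.typ i)) (z : Ten I 2) :
    At0 D At 2 z ↔ At 2 z := ⟨fun h => h.1, at0_two a1 ho⟩

theorem endS_eq (a1 : Alg1) (ho : ∀ i, D.odd (D.typ i)) : endS D (At0 D At) = endS D At := by
  unfold endS
  congr 1
  ext M
  constructor
  · rintro ⟨z, hz, rfl⟩
    exact ⟨z, hz.1, rfl⟩
  · rintro ⟨z, hz, rfl⟩
    exact ⟨z, at0_two a1 ho hz, rfl⟩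

/-- the subsystem -/
theorem asys0 (a1 : Alg1) (a2 : Alg2) (S : ASys D At) : ASys D (At0 D At) where
  zero L := ⟨S.zero L, fun B _ _ _ => aT_zero' a1 B⟩
  add L u v hu hv := ⟨S.add L u v hu.1 hv.1, fun B h1 h2 h3 => by
    rw [a1.aT_add, hu.2 B h1 h2 h3, hv.2 B h1 h2 h3, add_zero]⟩
  qsmul L q u hu := ⟨S.qsmul L q u hu.1, fun B h1 h2 h3 => by
    rw [a1.aT_smul, hu.2 B h1 h2 h3, smul_zero]⟩
  one := ⟨S.one, fun B _ _ _ => by
    rw [kill_iff a1]
    intro t
    exact gT_const _ _⟩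
  rat u hu := S.rat u hu.1
  perm L σ u hu := ⟨S.perm L σ u hu.1, fun B h1 h2 h3 => by
    rw [kill_iff a1]
    intro t
    rw [gT_perm, (kill_iff a1 B u).1 (hu.2 B h1 h2 h3) t]⟩
  outer p q u v hu hv := ⟨S.outer p q u v hu.1 hv.1, fun B h1 h2 h3 => by
    rw [kill_iff a1]
    intro t
    rw [a2.outer_gT, (kill_iff a1 B u).1 (hu.2 B h1 h2 h3) t,
      (kill_iff a1 B v).1 (hv.2 B h1 h2 h3) t]⟩
  cont p c u m hu hm := ⟨S.cont p c u m hu.1 hm.1, fun B h1 h2 h3 => by
    rw [kill_iff a1]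
    intro t
    rw [a2.cont_gT D _ u m (grp_exp a1 h2 t), (kill_iff a1 B u).1 (hu.2 B h1 h2 h3) t,
      (kill_iff a1 B m).1 (hm.2 B h1 h2 h3) t]⟩
  om α := ⟨S.om α, fun B _ h2 _ => by
    rw [kill_iff a1]
    intro t
    exact a2.om_gT D _ α (grp_exp a1 h2 t)⟩
  even L u hu := S.even L u hu.1

/-- the data from geometry for the subsystem; `nd` is 30's theorem -/
theorem nsys0 (a1 : Alg1) (a2 : Alg2) {Ct : (L : ℕ) → Ten I L → Prop} {F : Matrix I I ℂ}
    {Γ : Set (Matrix I I ℂ)} (sys : ASys D At) (csys : ASys D Ct)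
    (typ_eq : ∀ i j, D.typ i = D.typ j) (odd : ∀ i, D.odd (D.typ i))
    (sub : ∀ L u, At L u → Ct L u) (frob : IsG D F)
    (mten : mten D F ∈ Submodule.span ℝ {u | Ct 2 u}) (fix : ∀ L u, At L u → gT F u = u)
    (pos : ∀ u, Ct 2 u → u ≠ 0 → ∃ q : ℚ, 0 < q ∧ psiT D u u = (q : ℂ))
    (ratio : ∀ μ ν : ℂ, Module.End.HasEigenvalue (Matrix.toLin' F) μ →
      Module.End.HasEigenvalue (Matrix.toLin' F) ν → μ ≠ ν → ∀ n : ℕ, 0 < n → μ ^ n ≠ ν ^ n)
    (comm : ∀ x : Matrix I I ℂ, (∀ u, Ct 2 u → x * opM D u = opM D u * x) →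
      x ∈ Algebra.adjoin ℂ {F})
    (grp : ∀ x ∈ Γ, IsG D x) (gfix : ∀ x ∈ Γ, ∀ L u, At L u → gT x u = u)
    (nd : ∀ L, ∀ u ∈ Submodule.span ℂ {u | At0 D At L u}, u ≠ 0 →
      ∃ v ∈ Submodule.span ℂ {u | At0 D At L u}, psiT D u v ≠ 0) :
    NSys D (At0 D At) Ct F Γ where
  sys := asys0 a1 a2 sys
  csys := csys
  typ_eq := typ_eq
  odd := odd
  sub := fun L u hu => sub L u hu.1
  frob := frob
  mten := mten
  fix := fun L u hu => fix L u hu.1
  pos := pos
  ratio := ratio
  comm := comm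
  grp := grp
  gfix := fun x hx L u hu => gfix x hx L u hu.1
  nd := nd

/-- a subsystem has the data from geometry; only `nd` is new -/
theorem nsys_sub {At' Ct : (L : ℕ) → Ten I L → Prop} {F : Matrix I I ℂ}
    {Γ : Set (Matrix I I ℂ)} (S : NSys D At Ct F Γ) (sys' : ASys D At')
    (hsub : ∀ L u, At' L u → At L u)
    (nd : ∀ L, ∀ u ∈ Submodule.span ℂ {u | At' L u}, u ≠ 0 →
      ∃ v ∈ Submodule.span ℂ {u | At' L u}, psiT D u v ≠ 0) : NSys D At' Ct F Γ where
  sys := sys'
  csys := S.csys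
  typ_eq := S.typ_eq
  odd := S.odd
  sub := fun L u hu => S.sub L u (hsub L u hu)
  frob := S.frob
  mten := S.mten
  fix := fun L u hu => S.fix L u (hsub L u hu)
  pos := S.pos
  ratio := S.ratio
  comm := S.comm
  grp := S.grp
  gfix := fun x hx L u hu => S.gfix x hx L u (hsub L u hu)
  nd := nd

/-- the field `orbit` of the general form for the subsystem -/
theorem orbit0 (a1 : Alg1) (ho : ∀ i, D.odd (D.typ i)) {Γ : Set (Matrix I I ℂ)}
    (orbit : ∀ U : Submodule ℂ (I → ℂ), (∀ z, At 2 z → ∀ v ∈ U, (opM D z).mulVec v ∈ U) →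
      {U' : Submodule ℂ (I → ℂ) | ∃ x ∈ Γ, U' = U.map (Matrix.toLin' x)}.Finite →
      ∃ e ∈ endS D At, e * e = e ∧ (∀ z, At 2 z → e * opM D z = opM D z * e) ∧
        U = LinearMap.range (Matrix.toLin' e)) (U : Submodule ℂ (I → ℂ))
    (hU : ∀ z, At0 D At 2 z → ∀ v ∈ U, (opM D z).mulVec v ∈ U)
    (hf : {U' : Submodule ℂ (I → ℂ) | ∃ x ∈ Γ, U' = U.map (Matrix.toLin' x)}.Finite) :
    ∃ e ∈ endS D (At0 D At), e * e = e ∧
      (∀ z, At0 D At 2 z → e * opM D z = opM D z * e) ∧
      U = LinearMap.range (Matrix.toLin' e) := by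
  obtain ⟨e, he, hee, hc, hUe⟩ := orbit U (fun z hz => hU z (at0_two a1 ho hz)) hf
  exact ⟨e, by rw [endS_eq a1 ho]; exact he, hee, fun z hz => hc z hz.1, hUe⟩

/-- the hypothesis `lie` of `nd_of_central` for the subsystem -/
theorem lie0 (a1 : Alg1) (ho : ∀ i, D.odd (D.typ i)) (B : Matrix I I ℂ)
    (hB : B ∈ endS D (At0 D At)) (hL : IsLie D B)
    (hc : ∀ z, At0 D At 2 z → B * opM D z = opM D z * B) (L : ℕ) (u : Ten I L)
    (hu : At0 D At L u) : aT B u = 0 :=
  hu.2 B (by rw [← endS_eq a1 ho]; exact hB) hL fun z hz => hc z (at0_two a1 ho hz)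

/-! ### The span of the endomorphisms is a closed algebra -/

theorem opM_sl (A : Matrix I I ℂ) (u : Ten I 2) : opM D (Slot.sl A 0 u) = A * opM D u := by
  ext i j
  rw [Matrix.mul_apply]
  show (∑ k, A i k * u (Function.update ![i, D.τ j] 0 k)) * D.s j = _
  rw [Finset.sum_mul]
  refine Finset.sum_congr rfl fun k _ => ?_
  have h0 : Function.update ![i, D.τ j] 0 k = ![k, D.τ j] := by
    funext r
    fin_cases r <;> rfl
  rw [h0, mul_assoc]
  rfl

theorem opM_om (he : ∀ i j, D.typ i = D.typ j) (i0 : I) : opM D (om D (D.typ i0)) = 1 := by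
  ext i j
  show (if D.typ i = D.typ i0 ∧ D.τ j = D.τ i then D.s i else 0) * D.s j = _
  by_cases h : i = j
  · subst h
    rw [if_pos ⟨he _ _, rfl⟩, Slot.s_sq, Matrix.one_apply_eq]
  · rw [if_neg, zero_mul, Matrix.one_apply_ne h]
    rintro ⟨-, h2⟩
    apply h
    rw [← D.τ_τ i, ← h2, D.τ_τ]

theorem one_mem (S : ASys D At) (he : ∀ i j, D.typ i = D.typ j) :
    (1 : Matrix I I ℂ) ∈ endS D At := by
  by_cases hI : Nonempty I
  · obtain ⟨i0⟩ := hI
    rw [← opM_om he i0]
    exact Submodule.subset_span ⟨_, S.om _, rfl⟩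
  · have : (1 : Matrix I I ℂ) = 0 := by
      ext i
      exact absurd ⟨i⟩ hI
    rw [this]
    exact zero_mem _

theorem mul_mem (S : ASys D At) (he : ∀ i j, D.typ i = D.typ j) (ho : ∀ i, D.odd (D.typ i))
    {M N : Matrix I I ℂ} (hM : M ∈ endS D At) (hN : N ∈ endS D At) : M * N ∈ endS D At := by
  induction hM using Submodule.span_induction with
  | mem M hM =>
    obtain ⟨z, hz, rfl⟩ := hM
    induction hN using Submodule.span_induction with
    | mem N hN =>
      obtain ⟨z', hz', rfl⟩ := hN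
      rw [← opM_sl]
      exact Submodule.subset_span ⟨_, Slot.sl_mem S he ho hz 0 hz', rfl⟩
    | zero => rw [Matrix.mul_zero]; exact zero_mem _
    | add a b _ _ ha hb => rw [Matrix.mul_add]; exact add_mem ha hb
    | smul c a _ ha => rw [Matrix.mul_smul]; exact Submodule.smul_mem _ _ ha
  | zero => rw [Matrix.zero_mul]; exact zero_mem _
  | add a b _ _ ha hb => rw [Matrix.add_mul]; exact add_mem ha hb
  | smul c a _ ha => rw [Matrix.smul_mul]; exact Submodule.smul_mem _ _ ha

/-- the span of the endomorphisms as an algebra -/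
def endA (S : ASys D At) (he : ∀ i j, D.typ i = D.typ j) (ho : ∀ i, D.odd (D.typ i)) :
    Subalgebra ℂ (Matrix I I ℂ) where
  carrier := endS D At
  mul_mem' := mul_mem S he ho
  add_mem' := add_mem
  algebraMap_mem' := by
    intro r
    rw [Algebra.algebraMap_eq_smul_one]
    exact Submodule.smul_mem _ _ (one_mem S he)

theorem exp_mem (S : ASys D At) (he : ∀ i j, D.typ i = D.typ j) (ho : ∀ i, D.odd (D.typ i))
    {B : Matrix I I ℂ} (hB : B ∈ endS D At) : NormedSpace.exp B ∈ endS D At := by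
  have h : IsClosed (endA S he ho : Set (Matrix I I ℂ)) :=
    Submodule.closed_of_finiteDimensional (endS D At)
  exact NormedSpace.exp_mem (s := endA S he ho) h (x := B) hB

/-- the exponentials of the central elements of the Lie algebra are central isometries -/
theorem cen_exp (a1 : Alg1) (S : ASys D At) (he : ∀ i j, D.typ i = D.typ j)
    (ho : ∀ i, D.odd (D.typ i)) {B : Matrix I I ℂ} (hB : B ∈ endS D At) (hL : IsLie D B)
    (hc : ∀ z, At 2 z → B * opM D z = opM D z * B) (t : ℂ) :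
    NormedSpace.exp (t • B) ∈ endS D At ∧ IsG D (NormedSpace.exp (t • B)) ∧
      ∀ z, At 2 z → NormedSpace.exp (t • B) * opM D z = opM D z * NormedSpace.exp (t • B) :=
  ⟨exp_mem S he ho (Submodule.smul_mem _ _ hB), grp_exp a1 hL t,
    fun z hz => comm_exp (hc z hz) t⟩

/-- a tensor fixed by the squares of the central isometries is killed by the central elements of
the Lie algebra -/
theorem kill_of_sq (a1 : Alg1) (S : ASys D At) (he : ∀ i j, D.typ i = D.typ j)
    (ho : ∀ i, D.odd (D.typ i)) {L : ℕ} {u : Ten I L}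
    (h : ∀ M ∈ endS D At, IsG D M → (∀ z, At 2 z → M * opM D z = opM D z * M) →
      gT M (gT M u) = u) {B : Matrix I I ℂ} (hB : B ∈ endS D At) (hL : IsLie D B)
    (hc : ∀ z, At 2 z → B * opM D z = opM D z * B) : aT B u = 0 := by
  rw [kill_iff a1]
  intro t
  obtain ⟨h1, h2, h3⟩ := cen_exp a1 S he ho hB hL hc (t / 2)
  have h4 : NormedSpace.exp (t • B) =
      NormedSpace.exp ((t / 2) • B) * NormedSpace.exp ((t / 2) • B) := by
    have h5 : t • B = (t / 2) • B + (t / 2) • B := by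
      rw [← add_smul, add_halves]
    rw [h5, Matrix.exp_add_of_commute _ _ (Commute.refl _)]
  rw [h4, a1.gT_mul]
  exact h _ h1 h2 h3

/-- the members fixed by the squares of the central isometries belong to the subsystem -/
theorem at0_of_sq (a1 : Alg1) (S : ASys D At) (he : ∀ i j, D.typ i = D.typ j)
    (ho : ∀ i, D.odd (D.typ i)) {L : ℕ} {u : Ten I L} (hu : At L u)
    (h : ∀ M ∈ endS D At, IsG D M → (∀ z, At 2 z → M * opM D z = opM D z * M) →
      gT M (gT M u) = u) : At0 D At L u :=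
  ⟨hu, fun _ hB hL hc => kill_of_sq a1 S he ho h hB hL hc⟩

/-- the same for single isometries: members fixed by all central isometries -/
theorem at0_of_fix (a1 : Alg1) (S : ASys D At) (he : ∀ i j, D.typ i = D.typ j)
    (ho : ∀ i, D.odd (D.typ i)) {L : ℕ} {u : Ten I L} (hu : At L u)
    (h : ∀ M ∈ endS D At, IsG D M → (∀ z, At 2 z → M * opM D z = opM D z * M) →
      gT M u = u) : At0 D At L u :=
  at0_of_sq a1 S he ho hu fun M h1 h2 h3 => by rw [h M h1 h2 h3, h M h1 h2 h3]

end Z0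

end Pool.Agent.Lib.MP_361a6f_ag.FL.E
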