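import Pool.Agent.Lib.MP_361a6f_ag.FL.E.Tmin
import Pool.Agent.Lib.MP_361a6f_ag.FL.Alg1

/-!
# Theorem E, general form: a tuple conjugate to its image under `J₀` by a block scalar is minimal

`g = diag l` is unitary and fixes `s`; `x` is unitary in the group and commutes with all elements
of the Lie algebra that commute with `g`; `x s = J₀ s`. Then `s` is minimal for the whole group.
-/

set_option autoImplicit false
set_option linter.unusedSectionVars false

open Filter Topology

namespace Pool.Agent.Lib.MP_361a6f_ag.FL.E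

namespace Blk

open TMIN

variable {I Λ ι : Type} [Fintype I] [DecidableEq I] [DecidableEq Λ] [Fintype ι] {len : ι → ℕ}
  {D : Dat I Λ}

theorem hS_conj (h : Alg1) (u v : Tup I len) : (starRingEnd ℂ) (hS u v) = hS v u := by
  unfold hS
  rw [map_sum]
  exact Finset.sum_congr rfl fun i _ => h.hT_conj _ _

/-- the moment of `J₀ s` -/
theorem mo_jS (h : Alg1) (s : Tup I len) {A : Matrix I I ℂ} (hA : IsLie D A) :
    mo h (jS D s) A = -mo h s A := by
  have e : ∀ i, hT (aT A (jT D (s i))) (jT D (s i)) = -hT (aT A (s i)) (s i) := by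
    intro i
    have hB := h.Lie_adj D A hA
    have h1 := h.jT_aT D A.conjTranspose (s i) hB
    rw [Matrix.conjTranspose_conjTranspose] at h1
    have h2 : aT A (jT D (s i)) = -jT D (aT A.conjTranspose (s i)) := by
      rw [h1]
      have h3 : aT (-A) (jT D (s i)) = (-1 : ℂ) • aT A (jT D (s i)) := by
        rw [← h.smul_aT, neg_one_smul]
      rw [h3, neg_one_smul, neg_neg]
    rw [h2]
    have h4 : ∀ u v : Ten I (len i), hT (-u) v = -hT u v := by
      intro u v
      simp [hT, Finset.sum_neg_distrib]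
    rw [h4, h.hT_jT_jT]
    have h5 : hT (s i) (aT A.conjTranspose (s i)) = hT (aT A (s i)) (s i) :=
      (h.hT_aT A (s i) (s i)).symm
    rw [h5]
  change hS (aS A (jS D s)) (jS D s) = -hS (aS A s) s
  unfold hS
  rw [← Finset.sum_neg_distrib]
  exact Finset.sum_congr rfl fun i _ => e i

/-- the moment of `x s` -/
theorem mo_gS (h : Alg1) {x : Matrix I I ℂ} (hx : x.conjTranspose * x = 1) (s : Tup I len)
    (A : Matrix I I ℂ) : mo h (gS x s) (x * A * x⁻¹) = mo h s A := by
  have hinv : x⁻¹ = x.conjTranspose := Matrix.inv_eq_left_inv hx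
  have hxx : x * x⁻¹ = 1 := by
    rw [hinv]
    exact mul_eq_one_comm.1 hx
  change hS (aS (x * A * x⁻¹) (gS x s)) (gS x s) = hS (aS A s) s
  unfold hS
  refine Finset.sum_congr rfl fun i _ => ?_
  change hT (aT (x * A * x⁻¹) (gT x (s i))) (gT x (s i)) = hT (aT A (s i)) (s i)
  rw [← h.gT_aT x A (s i) hxx, h.hT_gT, ← h.gT_mul, hx, h.gT_one]

/-- the block diagonal part of a matrix -/
noncomputable def bd (l : I → ℂ) (A : Matrix I I ℂ) : Matrix I I ℂ :=
  open Classical in Matrix.of fun i j => if l i = l j then A i j else 0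

theorem bd_apply (l : I → ℂ) (A : Matrix I I ℂ) (i j : I) :
    bd l A i j = open Classical in if l i = l j then A i j else 0 := rfl

/-- entries between different blocks do not contribute to the moment -/
theorem mo_single_blk (h : Alg1) {l : I → ℂ} (hl : ∀ i, ‖l i‖ = 1) {s : Tup I len}
    (hs : gS (Matrix.diagonal l) s = s) {i j : I} (hij : l i ≠ l j) (c : ℂ) :
    mo h s (Matrix.single i j c) = 0 := by
  have h1 := mo_conj h (unitary_diag l hl) hs (Matrix.single i j c)
  have hl0 : ∀ i, l i ≠ 0 := fun i h0 => by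
    have := hl i
    rw [h0, norm_zero] at this
    exact one_ne_zero this.symm
  have hinv : (Matrix.diagonal l)⁻¹ = Matrix.diagonal (fun i => (l i)⁻¹) := by
    refine Matrix.inv_eq_left_inv ?_
    rw [Matrix.diagonal_mul_diagonal]
    have : (fun i => (l i)⁻¹ * l i) = fun _ => (1 : ℂ) := by
      funext i
      exact inv_mul_cancel₀ (hl0 i)
    rw [this, Matrix.diagonal_one]
  have h2 : Matrix.diagonal l * Matrix.single i j c * (Matrix.diagonal l)⁻¹
      = (l i * (l j)⁻¹) • Matrix.single i j c := by
    rw [hinv]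
    ext a b
    rw [Matrix.mul_diagonal, Matrix.diagonal_mul, Matrix.smul_apply, smul_eq_mul]
    by_cases hab : i = a ∧ j = b
    · obtain ⟨rfl, rfl⟩ := hab
      ring
    · rw [Matrix.single_apply_of_ne _ _ _ _ _ hab]
      ring
  rw [h2, map_smul, smul_eq_mul] at h1
  have h3 : (l i * (l j)⁻¹ - 1) * mo h s (Matrix.single i j c) = 0 := by
    rw [sub_mul, h1, one_mul, sub_self]
  rcases mul_eq_zero.1 h3 with h4 | h4
  · exfalso
    apply hij
    have h5 : l i * (l j)⁻¹ = 1 := sub_eq_zero.1 h4
    calc l i = l i * (l j)⁻¹ * l j := by rw [mul_assoc, inv_mul_cancel₀ (hl0 j), mul_one]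
      _ = l j := by rw [h5, one_mul]
  · exact h4

theorem mo_bd (h : Alg1) {l : I → ℂ} (hl : ∀ i, ‖l i‖ = 1) {s : Tup I len}
    (hs : gS (Matrix.diagonal l) s = s) (A : Matrix I I ℂ) :
    mo h s A = mo h s (bd l A) := by
  classical
  have key : ∀ B : Matrix I I ℂ, mo h s B = ∑ i, ∑ j, mo h s (Matrix.single i j (B i j)) := by
    intro B
    conv_lhs => rw [Matrix.matrix_eq_sum_single B]
    rw [map_sum]
    exact Finset.sum_congr rfl fun i _ => map_sum _ _ _
  rw [key A, key (bd l A)]
  refine Finset.sum_congr rfl fun i _ => Finset.sum_congr rfl fun j _ => ?_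
  by_cases hij : l i = l j
  · rw [bd_apply, if_pos hij]
  · rw [bd_apply, if_neg hij, mo_single_blk h hl hs hij, Matrix.single_zero, map_zero]

/-- the block diagonal part of an element of the Lie algebra -/
theorem lie_bd {l : I → ℂ} (hτ : ∀ i, l (D.τ i) * l i = 1) {A : Matrix I I ℂ}
    (hA : IsLie D A) : IsLie D (bd l A) := by
  classical
  have hll : ∀ i j, l (D.τ i) = l (D.τ j) ↔ l i = l j := by
    intro i j
    have h1 := hτ i
    have h2 := hτ j
    constructor
    · intro h
      rw [h] at h1
      have h3 : l (D.τ j) * (l i - l j) = 0 := by linear_combination h1 - h2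
      rcases mul_eq_zero.1 h3 with h4 | h4
      · rw [h4, zero_mul] at h2; exact absurd h2 zero_ne_one
      · exact sub_eq_zero.1 h4
    · intro h
      rw [h] at h1
      have h3 : (l (D.τ i) - l (D.τ j)) * l j = 0 := by linear_combination h1 - h2
      rcases mul_eq_zero.1 h3 with h4 | h4
      · exact sub_eq_zero.1 h4
      · rw [h4, mul_zero] at h2; exact absurd h2 zero_ne_one
  have hτl : ∀ i j, l (D.τ i) = l j ↔ l (D.τ j) = l i := by
    intro i j
    have := hll i (D.τ j)
    rw [D.τ_τ] at this
    rw [this, eq_comm]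
  -- the condition for `A` in coordinates
  have hentry : ∀ (B : Matrix I I ℂ) (i j : I), (B.transpose * Psi D + Psi D * B) i j
      = B (D.τ j) i * D.s (D.τ j) + D.s i * B (D.τ i) j := by
    intro B i j
    rw [Matrix.add_apply, Matrix.mul_apply, Matrix.mul_apply, Finset.sum_eq_single (D.τ j),
      Finset.sum_eq_single (D.τ i)]
    · simp only [Matrix.transpose_apply, Psi, Matrix.of_apply, if_true, D.τ_τ]
    · intro k _ hk
      simp only [Psi, Matrix.of_apply, if_neg hk, zero_mul]
    · intro hk; exact absurd (Finset.mem_univ _) hk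
    · intro k _ hk
      have : ¬ (j = D.τ k) := fun h => hk (by rw [h, D.τ_τ])
      simp only [Psi, Matrix.of_apply, if_neg this, mul_zero]
    · intro hk; exact absurd (Finset.mem_univ _) hk
  refine ⟨fun i j hij => ?_, ?_⟩
  · rw [bd_apply, hA.1 i j hij, ite_self]
  · ext i j
    rw [hentry, Matrix.zero_apply, bd_apply, bd_apply]
    have h1 := congrFun (congrFun hA.2 i) j
    rw [hentry, Matrix.zero_apply] at h1
    by_cases h2 : l (D.τ j) = l i
    · rw [if_pos h2, if_pos ((hτl i j).2 h2)]
      exact h1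
    · rw [if_neg h2, if_neg (fun h3 => h2 ((hτl i j).1 h3))]
      ring

/-- **The general step (a).** -/
theorem blk_min (h : Alg1) {l : I → ℂ} (hl : ∀ i, ‖l i‖ = 1) (hτ : ∀ i, l (D.τ i) * l i = 1)
    {s : Tup I len} (hs : gS (Matrix.diagonal l) s = s) {k : I → ℂ}
    (hk : IsK D (Matrix.diagonal k)) (hkl : ∀ i j, l i = l j → k i = k j)
    (hks : gS (Matrix.diagonal k) s = jS D s) : Minimal D s := by
  intro A hA
  change mo h s A = 0
  rw [mo_bd h hl hs A]
  have hB : IsLie D (bd l A) := lie_bd hτ hA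
  have h1 := mo_jS h s hB
  have h2 := mo_gS h hk.2 s (bd l A)
  have hcomm : Matrix.diagonal k * bd l A * (Matrix.diagonal k)⁻¹ = bd l A := by
    have h3 : Matrix.diagonal k * bd l A = bd l A * Matrix.diagonal k := by
      ext i j
      rw [Matrix.diagonal_mul, Matrix.mul_diagonal, bd_apply]
      by_cases hij : l i = l j
      · rw [if_pos hij, hkl i j hij]; ring
      · rw [if_neg hij]; ring
    rw [h3, Matrix.mul_assoc, (h.G_inv D _ hk.1).2.1, Matrix.mul_one]
  rw [hcomm, hks] at h2
  rw [h2] at h1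
  have h4 : (2 : ℂ) * mo h s (bd l A) = 0 := by linear_combination h1
  rcases mul_eq_zero.1 h4 with h5 | h5
  · exact absurd h5 two_ne_zero
  · exact h5

end Blk

end Pool.Agent.Lib.MP_361a6f_ag.FL.E
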