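import Pool.Agent.Lib.MP_361a6f_ag.FL.E.E1
import Pool.Agent.Lib.MP_361a6f_ag.FL.E.Blk
import Pool.Agent.Lib.MP_361a6f_ag.FL.B.CpbH
import Pool.Agent.Lib.MP_361a6f_ag.FL.B.Ffb
import Pool.Agent.Lib.MP_361a6f_ag.FL.B.Avb
import Pool.Agent.Lib.MP_361a6f_ag.FL.B.Vob
import Pool.Agent.Lib.MP_361a6f_ag.FL.B.Phb
import Pool.Agent.Lib.MP_361a6f_ag.FL.B.Tab
import Pool.Agent.Lib.MP_361a6f_ag.FL.B.L12b

/-!
# Theorem E, general form, row E1: the situation at every level, relative to a base tuple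
-/

set_option autoImplicit false
set_option linter.unusedSectionVars false

open Filter Topology MeasureTheory

namespace Pool.Agent.Lib.MP_361a6f_ag.FL.E

namespace E1Q

open E1P

variable {I Λ β : Type} [Fintype I] [DecidableEq I] [DecidableEq Λ] [Fintype β] {lb : β → ℕ}
  {D : Dat I Λ} {At Bt : (L : ℕ) → Ten I L → Prop} {l : I → ℂ} {b : Tup I lb}

/-- **The general row E1.** -/
theorem e1q (S : ASys D At) (hn : ∀ i, ‖l i‖ = 1) (hτ : ∀ i, l (D.τ i) * l i = 1)
    (hfixAt : ∀ L u, At L u → gT (Matrix.diagonal l) u = u) (R : RSys D Bt)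
    (hsub : ∀ L u, At L u → Bt L u) (hb : IsBase D b) (hbB : ∀ i, Bt (lb i) (b i))
    (hblk : ∀ x, IsG D x → gS x b = b → ∀ i j,
      (i ≠ j → x i j = 0) ∧ (l i = l j → x i i = x j j))
    (nd : ∀ L, ∀ u ∈ Submodule.span ℂ {u | At L u}, u ≠ 0 →
      ∃ v ∈ Submodule.span ℂ {u | At L u}, psiT D u v ≠ 0) (m : ℕ) :
    ∃ (ι : Type) (_ : Fintype ι) (len : ι → ℕ) (t s : Tup I len) (x : Matrix I I ℂ) (k : I → ℂ),
      Lvl D At l m len t s x k ∧ (∀ i j, l i = l j → k i = k j) ∧
      ∀ i, (∀ g, IsGb D b g → gT g (t i) = t i) → s i = t i := by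
  classical
  have hvol : VolStatement := vol alg1
  have hpha : PhaStatement := pha alg1 tan
  have havg : AvgStatement := avg fft alg1 alg2
  have hl2 : L2Statement := l2 alg1 hvol hpha havg
  have hclo : CloStatement := clo alg1 alg2 hvol hpha havg
  have hl1 : L1bStatement := l1b alg1 (volb alg1) (phab alg1 (tanb alg1))
    (avgb (ffb alg1 cpt hl2) alg1 alg2)
  -- finite sets that span
  have hB : ∀ L : ℕ, ∃ B : Set (Ten I L), B.Finite ∧ (∀ x ∈ B, At L x) ∧
      ∀ u, At L u → u ∈ Submodule.span ℂ B := by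
    intro L
    obtain ⟨B, hB1, hB2, hB3⟩ := exists_linearIndependent ℂ {u : Ten I L | At L u}
    exact ⟨B, hB3.setFinite, fun x hx => hB1 hx, fun u hu => by
      rw [hB2]; exact Submodule.subset_span hu⟩
  choose B hBf hBA hBs using hB
  have : ∀ L, Fintype (B L) := fun L => (hBf L).fintype
  let ι : Type := Option (Σ L : Fin (m + 1), B L)
  let len : ι → ℕ := fun i => i.elim 0 (fun x => x.1)
  let t : Tup I len := fun i => match i with
    | none => fun _ => 1
    | some x => x.2.1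
  have htAt : ∀ i, At (len i) (t i) := by
    intro i
    match i with
    | none => exact S.one
    | some x => exact hBA _ _ x.2.2
  have hlen : ∀ i, len i ≤ m := by
    intro i
    match i with
    | none => exact Nat.zero_le _
    | some x => exact Nat.lt_succ_iff.1 x.1.2
  -- the minimal point for the stabiliser of `b`
  obtain ⟨s, g, hg, hlim, hmin⟩ := minb alg1 D b t
  have hgG : ∀ j, IsG D (g j) := fun j => (hg j).1
  have hdiag : ∀ x, IsG D x → gS x b = b → x = Matrix.diagonal fun i => x i i := by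
    intro x hx hxb
    ext i j
    by_cases hij : i = j
    · rw [hij, Matrix.diagonal_apply_eq]
    · rw [Matrix.diagonal_apply_ne _ hij]
      exact (hblk x hx hxb i j).1 hij
  have hcomm : ∀ j, g j * Matrix.diagonal l = Matrix.diagonal l * g j := by
    intro j
    rw [hdiag (g j) (hg j).1 (hg j).2, Matrix.diagonal_mul_diagonal, Matrix.diagonal_mul_diagonal]
    congr 1
    funext i
    ring
  have hfix : gS (Matrix.diagonal l) s = s := by
    funext i
    have h1 : Tendsto (fun j => gT (g j) (t i)) atTop (𝓝 (s i)) := (tendsto_pi_nhds.mp hlim) i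
    have h2 : Tendsto (fun j => gT (Matrix.diagonal l) (gT (g j) (t i))) atTop
        (𝓝 (gT (Matrix.diagonal l) (s i))) := by
      have h3 : Continuous fun u : Ten I (len i) => gT (Matrix.diagonal l) u :=
        alg1.gT_cont.comp (continuous_const.prodMk continuous_id)
      exact (h3.tendsto _).comp h1
    have h4 : (fun j => gT (Matrix.diagonal l) (gT (g j) (t i))) = fun j => gT (g j) (t i) := by
      funext j
      rw [← alg1.gT_mul, ← hcomm j, alg1.gT_mul, hfixAt _ _ (htAt i)]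
    rw [h4] at h2
    exact tendsto_nhds_unique h2 h1
  have hs : hS s s ≠ 0 := XY.hS_ne alg1 (none : ι) rfl (fun _ => rfl) g hlim
  -- the element of the compact group
  have hlim1 : Tendsto (fun j => gS (g j) (cmb b t)) atTop (𝓝 (cmb b s)) := by
    have h1 : (fun j => gS (g j) (cmb b t)) = fun j => cmb b (gS (g j) t) := by
      funext j
      rw [(algB alg1 alg2).gS_cmb, (hg j).2]
    rw [h1]
    exact (((algB alg1 alg2).cmb_cont (len := len) b).tendsto s).comp hlim
  have hcB : ∀ i, Bt (Sum.elim lb len i) (cmb b t i) := by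
    intro i
    match i with
    | .inl i => exact hbB i
    | .inr i => exact hsub _ _ (htAt i)
  have hinv : ∀ (l' : List (β ⊕ ι))
      (m' : Ten I ((l'.map (Sum.elim lb len)).sum + 0)), IsMatch D _ m' →
      dm D 0 l' m' (cmb b (jS D s)) = dm D 0 l' m' (cmb b s) := by
    intro l' m' hm'
    have h0 : cmb b (jS D s) = jS D (cmb b s) := by
      rw [(algB alg1 alg2).jS_cmb, hb.1]
    rw [h0, alg2.dm_jS D 0 l' m' _ hm']
    have h2 : dm D 0 l' m' (cmb b s) = dm D 0 l' m' (cmb b t) := by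
      have h3 := dm_lim hgG hlim1 0 l' m' hm'
      have h4 : (fun j => gT (g j) (dm D 0 l' m' (cmb b t))) =
          fun _ => dm D 0 l' m' (cmb b t) := by
        funext j
        exact XY.gT_zero_len rfl _ _
      rw [h4] at h3
      exact tendsto_nhds_unique h3 tendsto_const_nhds
    rw [h2]
    obtain ⟨q, hq⟩ := R.real _ (E1P.dm_mem R hcB 0 l' hm')
    funext w
    rw [jT, hq, hq, sg]
    simp
  obtain ⟨H'⟩ := cptbH D b
  obtain ⟨k, hk⟩ := hl1 hb H' s (jS D s) hmin hs (RealT.hS_jS alg1 D _) hinv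
  have hkK : IsKb D b (H'.mat k) := H'.mem k
  have hkd : H'.mat k = Matrix.diagonal fun i => H'.mat k i i := hdiag _ hkK.1.1 hkK.2
  have hkl : ∀ i j, l i = l j → H'.mat k i i = H'.mat k j j := fun i j hij =>
    (hblk _ hkK.1.1 hkK.2 i j).2 hij
  have hkk : IsK D (Matrix.diagonal fun i => H'.mat k i i) := by
    rw [← hkd]
    exact hkK.1
  have hks : gS (Matrix.diagonal fun i => H'.mat k i i) s = jS D s := by
    rw [← hkd]
    exact hk
  have hmin' : Minimal D s := Blk.blk_min alg1 hn hτ hfix hkk hkl hks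
  obtain ⟨H⟩ := cpt D
  have hsM : ∀ i, s i ∈ MT D s (len i) := fun i =>
    hl2 H s hmin' hs _ _ fun x hx => congrFun hx i
  -- the orbit is closed
  have hMA : ∀ {c : ℕ} {u : Ten I c}, u ∈ MT D t c → u ∈ Submodule.span ℂ {u | At c u} := by
    intro c u hu
    refine Submodule.span_mono ?_ hu
    rintro v ⟨l', m', hm', rfl⟩
    exact Qps.dm_mem S htAt c l' hm'
  have hnd : ∀ i, NdAt D t (len i) := by
    intro i u hu hu0
    obtain ⟨w, hw, hw0⟩ := nd _ u (hMA hu) hu0
    -- a member of the tuple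
    have h1 : ∃ x ∈ B (len i), psiT D u x ≠ 0 := by
      by_contra hcon
      push Not at hcon
      have h2 : w ∈ Submodule.span ℂ (B (len i)) :=
        (Submodule.span_le.2 fun x hx => hBs _ x hx) hw
      have h3 : Submodule.span ℂ (B (len i)) ≤ LinearMap.ker (Qps.psiL D (len i) u) :=
        Submodule.span_le.2 fun x hx => hcon x hx
      exact hw0 (h3 h2)
    obtain ⟨x, hxB, hx0⟩ := h1
    let i' : ι := some ⟨⟨len i, Nat.lt_succ_of_le (hlen i)⟩, ⟨x, hxB⟩⟩
    obtain ⟨u', hu'⟩ := MT_lim hgG hlim hu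
    obtain ⟨v, hvM, hv⟩ := MT_of_lim hgG hlim (hsM i')
    refine ⟨v, hvM, ?_⟩
    have h3 : Tendsto (fun j => gT (g j) x) atTop (𝓝 (s i')) := (tendsto_pi_nhds.mp hlim) i'
    have h4 := ZAbs.psi_lim alg1 hgG hu' h3
    have h5 := ZAbs.psi_lim alg1 hgG hu' hv
    rw [← h5, h4]
    exact hx0
  obtain ⟨x, hx, hxs⟩ := hclo H t s hnd hs hmin' g hgG hlim
  refine ⟨ι, inferInstance, len, t, s, x, fun i => H'.mat k i i,
    ⟨htAt, ?_, hx, hxs, hmin', hfix, hkk, hks⟩, hkl, ?_⟩
  · intro L hL u hu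
    refine Submodule.span_mono ?_ (hBs L u hu)
    intro y hy
    exact ⟨some ⟨⟨L, Nat.lt_succ_of_le hL⟩, ⟨y, hy⟩⟩, rfl, rfl⟩
  · intro i hi
    have h1 : Tendsto (fun j => gT (g j) (t i)) atTop (𝓝 (s i)) := (tendsto_pi_nhds.mp hlim) i
    have h2 : (fun j => gT (g j) (t i)) = fun _ => t i := by
      funext j
      exact hi _ (hg j)
    rw [h2] at h1
    exact tendsto_nhds_unique h1 tendsto_const_nhds

end E1Q

end Pool.Agent.Lib.MP_361a6f_ag.FL.E
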