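import Pool.Agent.Lib.MP_361a6f_ag.FL.E.DefsG
import Pool.Agent.Lib.MP_361a6f_ag.FL.E.E1Q

/-!
# The general form of Theorem E+, row G1
-/

set_option autoImplicit false
set_option linter.unusedSectionVars false

open Filter Topology MeasureTheory

namespace Pool.Agent.Lib.MP_361a6f_ag.FL.E

namespace G1

variable {I Λ β : Type} [Fintype I] [DecidableEq I] [DecidableEq Λ] [Fintype β] {lb : β → ℕ}
  {D : Dat I Λ}

/-- tensors of length two fixed by `diag l` are fixed by the block scalars -/
theorem two_fix {l z : I → ℂ} (hτ : ∀ i, l (D.τ i) * l i = 1) (hz : ∀ i j, l i = l j → z i = z j)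
    (hzG : IsG D (Matrix.diagonal z)) {L : ℕ} (hL : L = 2) {u : Ten I L}
    (hu : gT (Matrix.diagonal l) u = u) : gT (Matrix.diagonal z) u = u := by
  subst hL
  have hzt : ∀ i, z i * z (D.τ i) = 1 := by
    intro i
    have h1 := congrFun (congrFun hzG.2 i) (D.τ i)
    rw [Matrix.diagonal_transpose, Matrix.mul_diagonal, Matrix.diagonal_mul] at h1
    simp only [Psi, Matrix.of_apply, if_true] at h1
    have h2 : D.s i ≠ 0 := by
      rcases D.s_val i with h | h <;> rw [h]
      · exact one_ne_zero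
      · exact neg_ne_zero.2 one_ne_zero
    have h3 : (z i * z (D.τ i) - 1) * D.s i = 0 := by linear_combination h1
    rcases mul_eq_zero.1 h3 with h4 | h4
    · exact sub_eq_zero.1 h4
    · exact absurd h4 h2
  funext w
  have h1 := congrFun hu w
  rw [E1P.gT_diag, Fin.prod_univ_two] at h1
  rw [E1P.gT_diag, Fin.prod_univ_two]
  by_cases h0 : u w = 0
  · rw [h0, mul_zero]
  · have h2 : l (w 0) * l (w 1) = 1 := by
      have h3 : (l (w 0) * l (w 1) - 1) * u w = 0 := by linear_combination h1
      rcases mul_eq_zero.1 h3 with h4 | h4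
      · exact sub_eq_zero.1 h4
      · exact absurd h4 h0
    have h3 : l (w 1) = l (D.τ (w 0)) := by
      have h4 := hτ (w 0)
      have h5 : l (w 0) ≠ 0 := fun h6 => by
        rw [h6, zero_mul] at h2
        exact zero_ne_one h2
      have h6 : (l (w 1) - l (D.τ (w 0))) * l (w 0) = 0 := by linear_combination h2 - h4
      rcases mul_eq_zero.1 h6 with h7 | h7
      · exact sub_eq_zero.1 h7
      · exact absurd h7 h5
    rw [hz _ _ h3, hzt, one_mul]

end G1

open G1 in
/-- **Row G1.** -/
theorem g1 : G1Statement := by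
  intro I Λ _ _ _ D At Bt l Γ β _ lb b P m
  obtain ⟨ι, hι, len, t, s, x, k, hlvl, hkl, hst⟩ := E1Q.e1q (D := D) (At := At) (Bt := Bt) (l := l)
    (b := b) P.sys P.norm P.tau P.fix P.rsys P.sub P.base P.bmem
    (fun x hx hxb i j => by
      obtain ⟨z, hz, rfl⟩ := P.comm x hx hxb
      refine ⟨fun hij => Matrix.diagonal_apply_ne _ hij, fun hij => ?_⟩
      rw [Matrix.diagonal_apply_eq, Matrix.diagonal_apply_eq, hz i j hij])
    P.nd m
  refine ⟨ι, hι, len, t, s, x, k, hlvl, hkl, fun i hi => hst i fun g hg => ?_⟩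
  obtain ⟨z, hz, rfl⟩ := P.comm g hg.1 hg.2
  exact two_fix P.tau hz hg.1 hi (P.fix _ _ (hlvl.mem i))

end Pool.Agent.Lib.MP_361a6f_ag.FL.E
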