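import Pool.Agent.Lib.MP_361a6f_ag.FL.B.BasJ

/-!
# Adapted bases of eigenvectors

`V` is a finite dimensional complex vector space with an alternating form `B` and an antilinear
operator `J` as in `BasJ`, and `F` is an operator that preserves `B` and commutes with `J`. There
is a basis adapted to `B` and `J` of eigenvectors of `F`, and the eigenvalues have absolute value
`1`.
-/

set_option autoImplicit false
set_option linter.unusedSectionVars false

namespace Pool.Agent.Lib.MP_361a6f_ag.FL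

noncomputable section

universe w

namespace BasF

open BasJ

variable {V : Type w} [AddCommGroup V] [Module ℂ V] {B : V →ₗ[ℂ] V →ₗ[ℂ] ℂ}
  {J : V →ₛₗ[starRingEnd ℂ] V} {F : V →ₗ[ℂ] V}

/-- adapted families of eigenvectors -/
structure AdpF (B : V →ₗ[ℂ] V →ₗ[ℂ] ℂ) (J : V →ₛₗ[starRingEnd ℂ] V) (F : V →ₗ[ℂ] V) {ι : Type}
    [DecidableEq ι] (v : ι → V) (τ : ι → ι) (s l : ι → ℂ) : Prop extends
    AdpJ True B J v τ s where
  ev : ∀ i, F (v i) = l i • v i

variable {ι : Type} [DecidableEq ι] {v : ι → V} {τ : ι → ι} {s l : ι → ℂ}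

lemma AdpF.sum {κ : Type} [DecidableEq κ] {v' : κ → V} {τ' : κ → κ} {s' l' : κ → ℂ}
    (h : AdpF B J F v τ s l) (h' : AdpF B J F v' τ' s' l') (h12 : ∀ i j, B (v i) (v' j) = 0)
    (h21 : ∀ i j, B (v' j) (v i) = 0) :
    AdpF B J F (Sum.elim v v') (Sum.map τ τ') (Sum.elim s s') (Sum.elim l l') where
  toAdpJ := h.toAdpJ.sum h'.toAdpJ h12 h21
  ev i := by
    rcases i with i | i
    · exact h.ev i
    · exact h'.ev i

/-- eigenvalues -/
theorem eig_norm (hH : HJ True B J) (hB : ∀ x y, B (F x) (F y) = B x y)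
    (hFJ : ∀ x, F (J x) = J (F x)) {x : V} (hx : x ≠ 0) {μ : ℂ} (hμ : F x = μ • x) :
    ‖μ‖ = 1 := by
  obtain ⟨r, hr, hr2⟩ := hH.pos x hx
  have h1 : F (J x) = (starRingEnd ℂ) μ • J x := by rw [hFJ, hμ, J.map_smulₛₗ]
  have h2 := hB x (J x)
  rw [hμ, h1, map_smul, map_smul, LinearMap.smul_apply, hr2, smul_eq_mul, smul_eq_mul] at h2
  have h3 : (r : ℂ) ≠ 0 := by exact_mod_cast hr.ne'
  have h4 : (starRingEnd ℂ) μ * μ = 1 := by
    have h5 : ((starRingEnd ℂ) μ * μ - 1) * (r : ℂ) = 0 := by linear_combination h2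
    exact sub_eq_zero.1 ((mul_eq_zero.1 h5).resolve_right h3)
  rw [Complex.conj_mul'] at h4
  have h5 : ‖μ‖ ^ 2 = 1 := by exact_mod_cast h4
  have h6 : (0 : ℝ) ≤ ‖μ‖ := norm_nonneg μ
  nlinarith [h5, h6]

variable [FiniteDimensional ℂ V]

theorem AdpF.extend [Fintype ι] (h : AdpF B J F v τ s l) (hH : HJ True B J)
    (hB : ∀ x y, B (F x) (F y) = B x y) (hFJ : ∀ x, F (J x) = J (F x)) (z : V)
    (hz : prj B v τ s z ≠ 0) :
    ∃ (κ : Type) (_ : DecidableEq κ) (_ : Fintype κ) (v' : κ → V) (τ' : κ → κ) (s' l' : κ → ℂ),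
      AdpF B J F v' τ' s' l' ∧ Fintype.card ι < Fintype.card κ := by
  have hsw : ∀ x y, B x y = 0 → B y x = 0 := by
    intro x y hxy
    rw [hH.alt y x trivial, hxy, neg_zero]
  have hxo : ∀ j, B (prj B v τ s z) (v j) = 0 := h.prj_orth z
  -- the complement
  let U : Submodule ℂ V :=
    { carrier := {x | ∀ j, B x (v j) = 0}
      zero_mem' := fun j => by rw [map_zero, LinearMap.zero_apply]
      add_mem' := fun {a b} ha hb j => by rw [map_add, LinearMap.add_apply, ha j, hb j, add_zero]
      smul_mem' := fun c a ha j => by rw [map_smul, LinearMap.smul_apply, ha j, smul_zero] }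
  have hl0 : ∀ j, l j ≠ 0 := by
    intro j hj
    have h1 := h.ev j
    rw [hj, zero_smul] at h1
    have h2 := hB (v j) (v (τ j))
    rw [h1, map_zero, LinearMap.zero_apply, h.gram, if_pos rfl] at h2
    rcases h.s_val j with h3 | h3 <;> rw [h3] at h2
    · exact zero_ne_one h2
    · exact (neg_ne_zero.2 one_ne_zero) h2.symm
  have hFU : ∀ x ∈ U, F x ∈ U := by
    intro x hx j
    have h1 : B (F x) (F (v j)) = 0 := by rw [hB]; exact hx j
    rw [h.ev, map_smul, smul_eq_mul] at h1
    exact (mul_eq_zero.1 h1).resolve_left (hl0 j)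
  let FU : Module.End ℂ U := F.restrict hFU
  have hnt : Nontrivial U := by
    refine ⟨⟨⟨prj B v τ s z, hxo⟩, 0, fun h0 => hz ?_⟩⟩
    exact congrArg Subtype.val h0
  obtain ⟨μ, hμ⟩ := Module.End.exists_eigenvalue FU
  obtain ⟨u, hu⟩ := hμ.exists_hasEigenvector
  set x : V := (u : V) with hxdef
  have hx0 : x ≠ 0 := fun h0 => hu.2 (Subtype.ext h0)
  have hFx : F x = μ • x := by
    have h1 := hu.apply_eq_smul
    exact congrArg Subtype.val h1
  have hxo : ∀ j, B x (v j) = 0 := u.2
  have hJo : ∀ j, B (J x) (v j) = 0 := h.orthJ hH hxo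
  have ha : ∀ u, B u u = 0 := by
    intro u
    have := hH.alt u u trivial
    linear_combination (1 / 2 : ℂ) * this
  obtain ⟨r, hr, hr2⟩ := hH.pos x hx0
  obtain ⟨c, hc⟩ := rt hr
  have hc' : (c : ℂ) * c * r = 1 := by exact_mod_cast hc
  let x' : V := (c : ℂ) • x
  have hJx' : J x' = (c : ℂ) • J x := by
    show J ((c : ℂ) • x) = _
    rw [LinearMap.map_smulₛₗ, Complex.conj_ofReal]
  have e1 : B x' (J x') = 1 := by
    rw [hJx']
    show B ((c : ℂ) • x) ((c : ℂ) • J x) = 1
    rw [map_smul, map_smul, LinearMap.smul_apply, hr2, smul_eq_mul, smul_eq_mul]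
    linear_combination hc'
  have e2 : B (J x') x' = -1 := by rw [hH.alt _ _ trivial, e1]
  have hxo' : ∀ j, B x' (v j) = 0 := by
    intro j
    show B ((c : ℂ) • x) (v j) = 0
    rw [map_smul, LinearMap.smul_apply, hxo, smul_zero]
  have hJo' : ∀ j, B (J x') (v j) = 0 := by
    intro j
    rw [hJx', map_smul, LinearMap.smul_apply, hJo, smul_zero]
  have hFx' : F x' = μ • x' := by
    show F ((c : ℂ) • x) = μ • ((c : ℂ) • x)
    rw [map_smul, hFx, smul_comm]
  have hFJx' : F (J x') = (starRingEnd ℂ) μ • J x' := by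
    rw [hFJ, hFx', J.map_smulₛₗ]
  let v' : Bool → V := fun b => if b then J x' else x'
  have hv' : ∀ b j, B (v' b) (v j) = 0 := by
    intro b j
    cases b
    · exact hxo' j
    · exact hJo' j
  have hA : AdpF B J F v' (fun b => !b) (fun b => if b then -1 else 1)
      (fun b => if b then (starRingEnd ℂ) μ else μ) :=
    { τ_τ := fun b => by simp
      s_val := fun b => by cases b <;> simp
      even_τ := fun h1 => absurd trivial h1
      odd_τ := fun _ b => by cases b <;> simp
      gram := fun b b' => by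
        cases b <;> cases b'
        · simpa [v'] using ha x'
        · simpa [v'] using e1
        · simpa [v'] using e2
        · simpa [v'] using ha (J x')
      jv := fun b => by
        cases b
        · simp [v']
        · simp [v', hH.sq_odd trivial]
      ev := fun b => by
        cases b
        · simpa [v'] using hFx'
        · simpa [v'] using hFJx' }
  refine ⟨ι ⊕ Bool, inferInstance, inferInstance, _, _, _, _,
    h.sum hA (fun i j => hsw _ _ (hv' j i)) (fun i j => hv' j i), ?_⟩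
  rw [Fintype.card_sum, Fintype.card_bool]
  omega

/-- existence of an adapted basis of eigenvectors -/
theorem exists_adaptedF (hH : HJ True B J) (hB : ∀ x y, B (F x) (F y) = B x y)
    (hFJ : ∀ x, F (J x) = J (F x)) :
    ∃ (κ : Type) (_ : DecidableEq κ) (_ : Fintype κ) (b : Module.Basis κ ℂ V) (τ : κ → κ)
      (s l : κ → ℂ), AdpF B J F b τ s l := by
  have key : ∀ (d : ℕ) (ι : Type) [DecidableEq ι] [Fintype ι] (v : ι → V) (τ : ι → ι)
      (s l : ι → ℂ), AdpF B J F v τ s l → Module.finrank ℂ V - Fintype.card ι = d →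
      ∃ (κ : Type) (_ : DecidableEq κ) (_ : Fintype κ) (v' : κ → V) (τ' : κ → κ) (s' l' : κ → ℂ),
      AdpF B J F v' τ' s' l' ∧ ∀ z, prj B v' τ' s' z = 0 := by
    intro d
    induction d using Nat.strong_induction_on with
    | _ d ih =>
      intro ι _ _ v τ s l h hd
      by_cases h1 : ∀ z, prj B v τ s z = 0
      · exact ⟨ι, inferInstance, inferInstance, v, τ, s, l, h, h1⟩
      · obtain ⟨z, hz⟩ := not_forall.1 h1
        obtain ⟨κ, iκ, fκ, v', τ', s', l', h', hc⟩ := h.extend hH hB hFJ z hz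
        have h2 : Fintype.card κ ≤ Module.finrank ℂ V :=
          h'.linearIndependent.fintype_card_le_finrank
        exact ih (Module.finrank ℂ V - Fintype.card κ) (by omega) κ v' τ' s' l' h' rfl
  have h0 : AdpF B J F (fun i : Empty => (i.elim : V)) (fun i => i) (fun i => i.elim)
      (fun i => i.elim) :=
    { τ_τ := fun i => i.elim
      s_val := fun i => i.elim
      even_τ := fun _ i => i.elim
      odd_τ := fun _ i => i.elim
      gram := fun i => i.elim
      jv := fun i => i.elim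
      ev := fun i => i.elim }
  obtain ⟨κ, iκ, fκ, v, τ, s, l, h, hp⟩ := key _ Empty _ _ _ _ h0 rfl
  have hsp : ⊤ ≤ Submodule.span ℂ (Set.range v) := by
    intro z _
    have h1 := hp z
    unfold prj at h1
    rw [sub_eq_zero] at h1
    rw [h1]
    exact Submodule.sum_mem _ fun i _ => Submodule.smul_mem _ _ (Submodule.subset_span ⟨i, rfl⟩)
  refine ⟨κ, iκ, fκ, Module.Basis.mk h.linearIndependent hsp, τ, s, l, ?_⟩
  have hb : ((Module.Basis.mk h.linearIndependent hsp : Module.Basis κ ℂ V) : κ → V) = v :=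
    Module.Basis.coe_mk _ _
  rw [hb]
  exact h

end BasF

end

end Pool.Agent.Lib.MP_361a6f_ag.FL
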