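import Pool.Agent.Lib.MP_361a6f_ag.FL.E.CenT

/-!
# The general law: every central isometry of the powers of `X` comes from the coordinate space
-/

open CategoryTheory AlgebraicGeometry MonoidalCategory CartesianMonoidalCategory

universe u v w w'

set_option autoImplicit false
set_option linter.unusedSectionVars false

namespace Pool.Agent.Lib.MP_361a6f_ag.FL.E

open Pool.Agent.Lib.MP_361a6f_ag.H3 Pool.Agent.Lib.MP_361a6f_ag.SQ
  Pool.Agent.Lib.MP_361a6f_ag.PP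

namespace CenL

noncomputable section

variable {k : Type u} [Field k] {W : CohomologyData.{u, 0, w} k ℂ} {𝒱 : VarietyClass k}

/-- linear maps that agree on the exterior products are equal -/
theorem ext_prod (hW : IsWeilCohomology W 𝒱) {Y X : Sch k} {d e : ℕ}
    (hY : 𝒱.mem Y d) (hX : 𝒱.mem X e) (A B : W.coh (Y ⊗ X) →ₗ[ℂ] W.coh (Y ⊗ X))
    (h : ∀ y x, A (W.pull (fst Y X) y * W.pull (snd Y X) x)
      = B (W.pull (fst Y X) y * W.pull (snd Y X) x)) (z : W.coh (Y ⊗ X)) : A z = B z := by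
  have hz : z ∈ Submodule.span ℂ {z | ∃ (x : W.coh Y) (y : W.coh X),
      z = W.pull (fst Y X) x * W.pull (snd Y X) y} := by
    rw [hW.kunneth_span hY hX]; trivial
  induction hz using Submodule.span_induction with
  | mem z hz =>
    obtain ⟨y, x, rfl⟩ := hz
    exact h y x
  | zero => rw [map_zero, map_zero]
  | add a b _ _ ha hb => rw [map_add, map_add, ha, hb]
  | smul t a _ ha => rw [LinearMap.map_smul, LinearMap.map_smul, ha]

/-- linear multiplicative operators on a variety of abelian type agree if they agree on `H^1` -/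
theorem ext_leaf {X : Sch k} {g : ℕ} (hA : AbelianType W X g)
    (A B : W.coh X →ₗ[ℂ] W.coh X) (A1 : A 1 = 1) (B1 : B 1 = 1)
    (Am : ∀ x y, A (x * y) = A x * A y) (Bm : ∀ x y, B (x * y) = B x * B y)
    (h : ∀ v ∈ W.gr X 1, A v = B v) (x : W.coh X) : A x = B x := by
  have h1 : x ∈ Algebra.adjoin ℂ {y : W.coh X | W.Deg X 1 y} := hA.gen x
  induction h1 using Algebra.adjoin_induction with
  | mem y hy => exact h y hy
  | algebraMap r => rw [Algebra.algebraMap_eq_smul_one, LinearMap.map_smul,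
      LinearMap.map_smul, A1, B1]
  | add x y _ _ hx hy => rw [map_add, map_add, hx, hy]
  | mul x y _ _ hx hy => rw [Am, Bm, hx, hy]

/-- families of linear maps, tensor powers of an endomorphism of the ring, agree if they agree on
`H^1` -/
theorem ext_fam (hW : IsWeilCohomology W 𝒱) {X : Fin 1 → Sch k} {n : Fin 1 → ℕ}
    (hX : ∀ P : Prd 1, 𝒱.mem (P.obj X) (P.dim n)) {g : ℕ} (hA : AbelianType W (X 0) g)
    (A B : ∀ P : Prd 1, W.coh (P.obj X) →ₗ[ℂ] W.coh (P.obj X))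
    (Ae : ∀ (P Q : Prd 1) (y : W.coh (P.obj X)) (x : W.coh (Q.obj X)),
      A (.prod P Q) (W.ext y x) = W.ext (A P y) (A Q x))
    (Be : ∀ (P Q : Prd 1) (y : W.coh (P.obj X)) (x : W.coh (Q.obj X)),
      B (.prod P Q) (W.ext y x) = W.ext (B P y) (B Q x))
    (A1 : A (.leaf 0) (1 : W.coh (X 0)) = (1 : W.coh (X 0)))
    (B1 : B (.leaf 0) (1 : W.coh (X 0)) = (1 : W.coh (X 0)))
    (Am : ∀ x y : W.coh (X 0), A (.leaf 0) (x * y : W.coh (X 0))
      = ((A (.leaf 0) x : W.coh (X 0)) * (A (.leaf 0) y : W.coh (X 0)) : W.coh (X 0)))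
    (Bm : ∀ x y : W.coh (X 0), B (.leaf 0) (x * y : W.coh (X 0))
      = ((B (.leaf 0) x : W.coh (X 0)) * (B (.leaf 0) y : W.coh (X 0)) : W.coh (X 0)))
    (h : ∀ v ∈ W.gr (X 0) 1, (A (.leaf 0) v : W.coh (X 0)) = B (.leaf 0) v) :
    ∀ P z, A P z = B P z := by
  intro P
  induction P with
  | leaf a =>
    obtain rfl : a = 0 := Subsingleton.elim _ _
    exact ext_leaf hA (A (.leaf 0)) (B (.leaf 0)) A1 B1 Am Bm h
  | prod P Q hP hQ =>
    refine ext_prod hW (hX P) (hX Q) (A (.prod P Q)) (B (.prod P Q)) fun y x => ?_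
    refine (Ae P Q y x).trans (Eq.trans ?_ (Be P Q y x).symm)
    rw [hP, hQ]

/-- a matrix that preserves the form on `H^1` belongs to the group -/
theorem isG_of_form (H : Host W 𝒱 1) (hpd : PositiveDivisor W (H.X 0) (H.n 0) (H.ξ 0))
    {f : W.coh (H.X 0) →ₗ[ℂ] W.coh (H.X 0)} {M : Matrix (Sub H.D (0, 1)) (Sub H.D (0, 1)) ℂ}
    (hf : ∀ c, f (vec1 H c) = vec1 H (M.mulVec c))
    (hform : ∀ x ∈ W.gr (H.X 0) 1, ∀ y ∈ W.gr (H.X 0) 1,
      W.tr (H.X 0) (H.ξ 0 ^ (H.n 0 - 1) * (f x * f y))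
        = W.tr (H.X 0) (H.ξ 0 ^ (H.n 0 - 1) * (x * y))) : IsG (subD H.D (0, 1)) M := by
  refine ⟨fun i j hij => absurd (i.2.trans j.2.symm) hij, ?_⟩
  have key : ∀ v w : Sub H.D (0, 1) → ℂ,
      dotProduct (M.mulVec v) ((Psi (subD H.D (0, 1))).mulVec (M.mulVec w))
        = dotProduct v ((Psi (subD H.D (0, 1))).mulVec w) := by
    intro v w
    rw [← OrbF.psi_vec1, ← OrbF.psi_vec1, ← hf, ← hf]
    rcases Nat.eq_zero_or_pos (H.n 0) with hn | hn
    · have hx0 : ∀ c, vec1 H c = 0 := fun c => H.hW.top_gr (H.mem 0) (vec1_gr H c) (by omega)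
      rw [hx0, hx0, map_zero]
    · have hfw : f (vec1 H w) ∈ W.gr (H.X 0) 1 := by
        rw [hf]
        exact vec1_gr H _
      have h1 := psi_one H.hW (H.mem 0) hpd (H.lam 0) hn (f (vec1 H v)) hfw
      have h2 := psi_one H.hW (H.mem 0) hpd (H.lam 0) hn (vec1 H v) (vec1_gr H w)
      rw [h1, h2, hform _ (vec1_gr H v) _ (vec1_gr H w)]
  ext i j
  have h1 := key (Pi.single i 1) (Pi.single j 1)
  rw [Matrix.mulVec_mulVec, ← Matrix.vecMul_transpose M (Pi.single i 1),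
    ← Matrix.dotProduct_mulVec, Matrix.mulVec_mulVec] at h1
  rw [← Matrix.mul_assoc] at h1
  simpa [Matrix.mulVec_single, single_dotProduct] using h1

/-- the matrix of a central isometry of `H^1` -/
theorem exists_mat_host (H : Host W 𝒱 1) (hpd : PositiveDivisor W (H.X 0) (H.n 0) (H.ξ 0))
    (f : W.coh (H.X 0) →ₗ[ℂ] W.coh (H.X 0)) (hdeg : ∀ x ∈ W.gr (H.X 0) 1, f x ∈ W.gr (H.X 0) 1)
    (hcomm : ∀ z ∈ W.alg (H.X 0 ⊗ H.X 0) (H.n 0), ∀ x ∈ W.gr (H.X 0) 1,
      f (cor W z x) = cor W z (f x))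
    (halg : ∃ γ ∈ Submodule.span ℂ {z | z ∈ W.alg (H.X 0 ⊗ H.X 0) (H.n 0)},
      ∀ x ∈ W.gr (H.X 0) 1, f x = cor W γ x)
    (hform : ∀ x ∈ W.gr (H.X 0) 1, ∀ y ∈ W.gr (H.X 0) 1,
      W.tr (H.X 0) (H.ξ 0 ^ (H.n 0 - 1) * (f x * f y))
        = W.tr (H.X 0) (H.ξ 0 ^ (H.n 0 - 1) * (x * y))) :
    ∃ M ∈ endS (subD H.D (0, 1)) (At1 H), IsG (subD H.D (0, 1)) M ∧
      (∀ z, At1 H 2 z → M * opM (subD H.D (0, 1)) z = opM (subD H.D (0, 1)) z * M) ∧
      ∀ v, f (vec1 H v) = vec1 H (M.mulVec v) := by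
  obtain ⟨M, hM⟩ := OrbF.exists_mat H hdeg
  have hinj : ∀ A B : Matrix (Sub H.D (0, 1)) (Sub H.D (0, 1)) ℂ,
      (∀ c, vec1 H (A.mulVec c) = vec1 H (B.mulVec c)) → A = B := by
    intro A B h
    exact Matrix.mulVec_injective (funext fun c => vec1_inj H (h c))
  refine ⟨M, ?_, isG_of_form H hpd hM hform, ?_, hM⟩
  · obtain ⟨γ, hγ, h1⟩ := halg
    obtain ⟨M', hM'e, h2⟩ := cor_span H hγ
    have h3 : M = M' := hinj _ _ fun v => by
      rw [← h2, ← hM v]
      exact h1 _ (vec1_gr H v)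
    rw [h3]
    exact hM'e
  · intro z hz
    obtain ⟨z', hz', h1⟩ := cor_of_at H hz
    refine hinj _ _ fun v => ?_
    rw [← Matrix.mulVec_mulVec, ← Matrix.mulVec_mulVec, ← hM, ← h1, ← h1, ← hM]
    exact hcomm z' hz' _ (vec1_gr H v)

end

section hyp

variable {k : Type u} [Field k] {k' : Type v} [Field k'] {W : CohomologyData.{u, 0, w} k ℂ}
  {𝒱 : VarietyClass k} {W' : CohomologyData.{v, 0, w'} k' ℂ} {𝒱' : VarietyClass k'}
  (hW : IsWeilCohomology W 𝒱) {D : EQ.Data W W'}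
  (h : EQ.Hyp 𝒱 𝒱' D) (c : Hst.Core W D.X D.g D.ξ)

/-- the matrix of a central isometry -/
theorem exists_mat {T : ∀ P : Prd 1, W.coh (EQ.pw D.X P) → W.coh (EQ.pw D.X P)}
    (hT : EQ.IsCentral W D.X D.g D.ξ T) :
    ∃ M ∈ endS (subD c.D (0, 1)) (At1 (hst hW h c)), IsG (subD c.D (0, 1)) M ∧
      (∀ z, At1 (hst hW h c) 2 z →
        M * opM (subD c.D (0, 1)) z = opM (subD c.D (0, 1)) z * M) ∧
      ∀ v, (T (.leaf 0) (vec1 (hst hW h c) v) : W.coh D.X)
        = vec1 (hst hW h c) (M.mulVec v) :=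
  exists_mat_host (hst hW h c) h.div (symLin hT.tensor (.leaf 0)) (fun x hx => hT.deg 1 x hx)
    hT.comm hT.alg (fun x hx y hy => hT.form x y hx hy)

/-- **A central isometry of the powers of `X` comes from a central isometry of the coordinate
space.** -/
theorem cen_lsys {T : ∀ P : Prd 1, W.coh (EQ.pw D.X P) → W.coh (EQ.pw D.X P)}
    (hT : EQ.IsCentral W D.X D.g D.ξ T) :
    ∃ M ∈ endS (subD c.D (0, 1)) (At1 (hst hW h c)), IsG (subD c.D (0, 1)) M ∧
      (∀ z, At1 (hst hW h c) 2 z →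
        M * opM (subD c.D (0, 1)) z = opM (subD c.D (0, 1)) z * M) ∧
      (∀ v, (T (.leaf 0) (vec1 (hst hW h c) v) : W.coh D.X)
        = vec1 (hst hW h c) (M.mulVec v)) ∧
      EndM.LSys (hst hW h c) (EndC.mex c.D (0, 1) M) (symLin hT.tensor) := by
  obtain ⟨M, hM, hG, hc, hv⟩ := exists_mat hW h c hT
  refine ⟨M, hM, hG, hc, hv, ?_⟩
  obtain ⟨C, S⟩ := EndM.exists_lin (hst hW h c) (fun _ => Hst.abelianType hW h) (fun _ => h.div)
    (EndC.isG_mex M hG)
  have hTC : symLin hT.tensor = C := by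
    funext P
    apply LinearMap.ext
    refine ext_fam hW (hst hW h c).memP (Hst.abelianType hW h) (symLin hT.tensor) C hT.tensor.ext
      S.prod hT.one (S.one (.leaf 0)) hT.cup (S.mul (.leaf 0)) (fun x hx => ?_) P
    have h1 : vec1 (hst hW h c) (crd1 (hst hW h c) x) = x := vec1_crd1 (hst hW h c) hx
    rw [← h1]
    exact (hv _).trans (CenT.lsys_vec1 (hst hW h c) S _).symm
  rw [hTC]
  exact S

/-- a central isometry is an involution if it is one on `H^1` -/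
theorem sq_of {T : ∀ P : Prd 1, W.coh (EQ.pw D.X P) → W.coh (EQ.pw D.X P)}
    (hT : EQ.IsCentral W D.X D.g D.ξ T)
    {M : Matrix (Sub c.D (0, 1)) (Sub c.D (0, 1)) ℂ}
    (hv : ∀ v, (T (.leaf 0) (vec1 (hst hW h c) v) : W.coh D.X)
        = vec1 (hst hW h c) (M.mulVec v)) (hM : M * M = 1) (P : Prd 1)
    (z : W.coh (EQ.pw D.X P)) : T P (T P z) = z := by
  have h1 := ext_fam hW (X := fun _ => D.X) (n := fun _ => D.g) (hst hW h c).memP
    (Hst.abelianType hW h) (fun P => symLin hT.tensor P ∘ₗ symLin hT.tensor P)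
    (fun P => LinearMap.id) (fun P Q y x => ?_) (fun P Q y x => rfl) ?_ rfl ?_
    (fun x y => rfl) (fun x hx => ?_) P z
  · exact h1
  · have e1 := hT.tensor.ext P Q y x
    have e2 := hT.tensor.ext P Q (T P y) (T Q x)
    exact (congrArg (T (.prod P Q)) e1).trans e2
  · have e1 := congrArg (T (.leaf 0)) hT.one
    exact e1.trans hT.one
  · intro x y
    have e1 := congrArg (T (.leaf 0)) (hT.cup x y)
    exact e1.trans (hT.cup _ _)
  · have h2 : vec1 (hst hW h c) (crd1 (hst hW h c) x) = x := vec1_crd1 (hst hW h c) hx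
    have e1 : (T (.leaf 0) x : W.coh D.X) = vec1 (hst hW h c) (M.mulVec
        (crd1 (hst hW h c) x)) := by
      conv_lhs => rw [← h2]
      exact hv _
    have e2 : (T (.leaf 0) (T (.leaf 0) x) : W.coh D.X) = x := by
      rw [e1, hv, Matrix.mulVec_mulVec, hM, Matrix.one_mulVec, h2]
    exact e2

end hyp

end CenL

end Pool.Agent.Lib.MP_361a6f_ag.FL.E
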