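import Pool.Agent.Lib.MP_361a6f_ag.FL.E.NdH
import Pool.Agent.Lib.MP_361a6f_ag.FL.E.NSysH

/-!
# The general law: without isotropic stable subspaces the central isometries are involutions
-/

open Matrix Polynomial

set_option autoImplicit false
set_option linter.unusedSectionVars false

namespace Pool.Agent.Lib.MP_361a6f_ag.FL.E

namespace CenSq

variable {I Λ : Type} [Fintype I] [DecidableEq I] [DecidableEq Λ] {D : Dat I Λ}
  {At : (L : ℕ) → Ten I L → Prop} {Γ : Set (Matrix I I ℂ)}

/-- a matrix that commutes with the endomorphisms commutes with their span -/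
theorem comm_endS {x : Matrix I I ℂ} (h : ∀ z, At 2 z → x * opM D z = opM D z * x)
    {M : Matrix I I ℂ} (hM : M ∈ endS D At) : x * M = M * x := by
  induction hM using Submodule.span_induction with
  | mem M hM =>
    obtain ⟨z, hz, rfl⟩ := hM
    exact h z hz
  | zero => rw [Matrix.mul_zero, Matrix.zero_mul]
  | add a b _ _ ha hb => rw [Matrix.mul_add, Matrix.add_mul, ha, hb]
  | smul c a _ ha => rw [Matrix.mul_smul, Matrix.smul_mul, ha]

/-- the elements of `Γ` commute with the endomorphisms -/
theorem comm_gam (hodd : ∀ i, D.odd (D.typ i)) (a1 : Alg1) {x : Matrix I I ℂ} (hx : IsG D x)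
    (hfix : ∀ L u, At L u → gT x u = u) (z : Ten I 2) (hz : At 2 z) :
    x * opM D z = opM D z * x := by
  have h := QS.opM_gT hodd a1 hx z
  rw [hfix 2 z hz] at h
  obtain ⟨-, -, h2⟩ := a1.G_inv D x hx
  conv_rhs => rw [h, Matrix.mul_assoc, h2, Matrix.mul_one]

theorem aeval_comm {M x : Matrix I I ℂ} (h : x * M = M * x) (f : ℂ[X]) :
    x * aeval M f = aeval M f * x := by
  have h1 : Commute x M := h
  induction f using Polynomial.induction_on' with
  | add p q hp hq => rw [map_add, Matrix.mul_add, Matrix.add_mul, hp, hq]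
  | monomial n a =>
    rw [aeval_monomial, ← Matrix.mul_assoc, ← Algebra.commutes a x, Matrix.mul_assoc,
      (h1.pow_right n).eq, Matrix.mul_assoc]

theorem aeval_vec {M : Matrix I I ℂ} {a : ℂ} {G : Matrix I I ℂ} (h : M * G = a • G) (f : ℂ[X]) :
    aeval M f * G = f.eval a • G := by
  induction f using Polynomial.induction_on' with
  | add p q hp hq => rw [map_add, Matrix.add_mul, hp, hq, eval_add, add_smul]
  | monomial n c =>
    have hn : ∀ n : ℕ, M ^ n * G = a ^ n • G := by
      intro n
      induction n with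
      | zero => simp
      | succ n ih => rw [pow_succ, Matrix.mul_assoc, h, Matrix.mul_smul, ih, smul_smul, ← pow_succ']
    rw [aeval_monomial, eval_monomial, Matrix.mul_assoc, hn, Algebra.algebraMap_eq_smul_one,
      Matrix.smul_mul, Matrix.one_mul, smul_smul]

/-- the transpose of a polynomial in an isometry -/
theorem aeval_psi {M N : Matrix I I ℂ} (h : Mᵀ * Psi D = Psi D * N) (f : ℂ[X]) :
    (aeval M f)ᵀ * Psi D = Psi D * aeval N f := by
  induction f using Polynomial.induction_on' with
  | add p q hp hq =>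
    rw [map_add, map_add, Matrix.transpose_add, Matrix.add_mul, Matrix.mul_add, hp, hq]
  | monomial n c =>
    have hn : ∀ n : ℕ, (M ^ n)ᵀ * Psi D = Psi D * N ^ n := by
      intro n
      induction n with
      | zero => simp
      | succ n ih =>
        rw [pow_succ, Matrix.transpose_mul, Matrix.mul_assoc, ih, ← Matrix.mul_assoc, h,
          Matrix.mul_assoc, ← pow_succ']
    simp only [aeval_monomial, Algebra.algebraMap_eq_smul_one, Matrix.smul_mul, Matrix.one_mul,
      Matrix.transpose_smul, hn, Matrix.mul_smul]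

/-- **Central isometries are involutions** if no stable subspace except `0` is isotropic. -/
theorem sq_one (ho : ∀ i, D.odd (D.typ i)) (a1 : Alg1) (grp : ∀ x ∈ Γ, IsG D x)
    (gfix : ∀ x ∈ Γ, ∀ L u, At L u → gT x u = u)
    (h1 : ∀ U : Submodule ℂ (I → ℂ), StabU D At Γ U →
      (∀ v ∈ U, ∀ w ∈ U, dotProduct v ((Psi D).mulVec w) = 0) → U = ⊥)
    {M : Matrix I I ℂ} (hM : M ∈ endS D At) (hG : IsG D M)
    (hc : ∀ z, At 2 z → M * opM D z = opM D z * M) : M * M = 1 := by
  obtain ⟨-, hMi, hiM⟩ := a1.G_inv D M hG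
  have hpsi : Mᵀ * Psi D = Psi D * M⁻¹ := by
    have h := hG.2
    calc Mᵀ * Psi D = Mᵀ * Psi D * (M * M⁻¹) := by rw [hMi, Matrix.mul_one]
      _ = Mᵀ * Psi D * M * M⁻¹ := by simp only [Matrix.mul_assoc]
      _ = Psi D * M⁻¹ := by rw [h]
  -- the key
  have key : ∀ f : ℂ[X], aeval M⁻¹ f * aeval M f = 0 → aeval M f = 0 := by
    intro f hf
    have hU := h1 (LinearMap.range (Matrix.toLin' (aeval M f))) ⟨?_, ?_⟩ ?_
    · rw [LinearMap.range_eq_bot] at hU
      exact (Matrix.toLin'.map_eq_zero_iff).1 hU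
    · rintro z hz _ ⟨v, rfl⟩
      refine ⟨(opM D z).mulVec v, ?_⟩
      rw [Matrix.toLin'_apply, Matrix.toLin'_apply, Matrix.mulVec_mulVec, Matrix.mulVec_mulVec,
        aeval_comm (hc z hz).symm f]
    · refine (Set.finite_singleton (LinearMap.range (Matrix.toLin' (aeval M f)))).subset ?_
      rintro U' ⟨x, hx, rfl⟩
      refine Nd.map_eq_of_stable (grp x hx) ?_
      rintro _ ⟨v, rfl⟩
      refine ⟨x.mulVec v, ?_⟩
      rw [Matrix.toLin'_apply, Matrix.toLin'_apply, Matrix.mulVec_mulVec, Matrix.mulVec_mulVec,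
        aeval_comm (comm_endS (comm_gam ho a1 (grp x hx) (gfix x hx)) hM) f]
    · rintro _ ⟨v, rfl⟩ _ ⟨w, rfl⟩
      rw [Matrix.toLin'_apply, Matrix.toLin'_apply, ← Matrix.vecMul_transpose,
        ← Matrix.dotProduct_mulVec, Matrix.mulVec_mulVec, Matrix.mulVec_mulVec,
        aeval_psi hpsi, Matrix.mul_assoc, hf, Matrix.mul_zero, Matrix.zero_mulVec,
        dotProduct_zero]
  have hint : IsIntegral ℂ M := Matrix.isIntegral M
  set p := minpoly ℂ M with hp
  have hmonic : p.Monic := minpoly.monic hint
  have hp0 : p ≠ 0 := hmonic.ne_zero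
  -- every root is simple and equal to its inverse
  have root : ∀ (a : ℂ) (f : ℂ[X]), p = (X - C a) * f → a * a = 1 ∧ f.eval a ≠ 0 := by
    intro a f hf
    have hfM : aeval M f ≠ 0 := by
      intro h0
      have h2 : (minpoly ℂ M).natDegree ≤ f.natDegree :=
        Polynomial.natDegree_le_natDegree (minpoly.degree_le_of_ne_zero ℂ M ?_ h0)
      · have h3 : f ≠ 0 := by
          rintro rfl
          rw [mul_zero] at hf
          exact hp0 hf
        have h4 : p.natDegree = 1 + f.natDegree := by
          rw [hf, natDegree_mul (X_sub_C_ne_zero a) h3, natDegree_X_sub_C]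
        rw [← hp] at h2
        omega
      · rintro rfl
        rw [mul_zero] at hf
        exact hp0 hf
    have hMa : M * aeval M f = a • aeval M f := by
      have h2 : aeval M p = 0 := minpoly.aeval ℂ M
      rw [hf, map_mul, map_sub, aeval_X, aeval_C, Matrix.sub_mul, sub_eq_zero,
        Algebra.algebraMap_eq_smul_one, Matrix.smul_mul, Matrix.one_mul] at h2
      exact h2
    have ha : a ≠ 0 := by
      rintro rfl
      rw [zero_smul] at hMa
      apply hfM
      calc aeval M f = M⁻¹ * M * aeval M f := by rw [hiM, Matrix.one_mul]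
        _ = 0 := by rw [Matrix.mul_assoc, hMa, Matrix.mul_zero]
    have hMi' : M⁻¹ * aeval M f = a⁻¹ • aeval M f := by
      calc M⁻¹ * aeval M f = M⁻¹ * (a⁻¹ • (a • aeval M f)) := by
            rw [smul_smul, inv_mul_cancel₀ ha, one_smul]
        _ = a⁻¹ • (M⁻¹ * M * aeval M f) := by
            rw [← hMa, Matrix.mul_smul, Matrix.mul_assoc]
        _ = a⁻¹ • aeval M f := by rw [hiM, Matrix.one_mul]
    have h5 : f.eval a⁻¹ ≠ 0 := by
      intro h0
      apply hfM
      apply key
      rw [aeval_vec hMi', h0, zero_smul]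
    have h6 : p.eval a⁻¹ = 0 := by
      have h7 : aeval M⁻¹ p = 0 := by
        have h8 := aeval_psi hpsi p
        rw [minpoly.aeval, Matrix.transpose_zero, Matrix.zero_mul] at h8
        calc aeval M⁻¹ p = (Psi D)ᵀ * Psi D * aeval M⁻¹ p := by
              rw [Nd.PsiT_mul_Psi, Matrix.one_mul]
          _ = 0 := by rw [Matrix.mul_assoc, ← h8, Matrix.mul_zero]
      have h9 := aeval_vec hMi' p
      rw [h7, Matrix.zero_mul] at h9
      by_contra hne
      exact hfM ((smul_eq_zero.1 h9.symm).resolve_left hne)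
    rw [hf, eval_mul, eval_sub, eval_X, eval_C] at h6
    have h10 : a⁻¹ = a := sub_eq_zero.1 ((mul_eq_zero.1 h6).resolve_right h5)
    refine ⟨?_, by rwa [h10] at h5⟩
    calc a * a = a⁻¹ * a := by rw [h10]
      _ = 1 := inv_mul_cancel₀ ha
  have hdvd : p ∣ (X ^ 2 - 1 : ℂ[X]) := by
    have hsp : p.Splits := IsAlgClosed.splits p
    have hroots : p.roots ≤ ({1, -1} : Multiset ℂ) := by
      rw [Multiset.le_iff_subset]
      · intro a ha
        have h3 := dvd_iff_isRoot.2 (isRoot_of_mem_roots ha)
        obtain ⟨f, hf⟩ := h3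
        have h4 := (root a f hf).1
        have h5 : (a - 1) * (a + 1) = 0 := by linear_combination h4
        rcases mul_eq_zero.1 h5 with h6 | h6
        · simp [sub_eq_zero.1 h6]
        · simp [eq_neg_of_add_eq_zero_left h6]
      · rw [Multiset.nodup_iff_count_le_one]
        intro a
        rw [count_roots]
        by_contra hlt
        push Not at hlt
        have h3 : (X - C a) ^ 2 ∣ p := (pow_dvd_pow _ hlt).trans (pow_rootMultiplicity_dvd p a)
        obtain ⟨g, hg⟩ := h3
        have h4 := (root a ((X - C a) * g) (by rw [hg, pow_two, mul_assoc])).2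
        rw [eval_mul, eval_sub, eval_X, eval_C, sub_self, zero_mul] at h4
        exact h4 rfl
    have h3 : p = (p.roots.map (X - C ·)).prod := by
      have h4 := hsp.eq_prod_roots
      rwa [hmonic.leadingCoeff, C_1, one_mul] at h4
    rw [h3]
    refine (Multiset.prod_dvd_prod_of_le (Multiset.map_le_map hroots)).trans ?_
    refine dvd_of_eq ?_
    simp only [Multiset.insert_eq_cons, Multiset.map_cons, Multiset.map_singleton,
      Multiset.prod_cons, Multiset.prod_singleton, map_one, map_neg]
    ring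
  obtain ⟨r, hr⟩ := hdvd
  have h2 : aeval M (X ^ 2 - 1 : ℂ[X]) = 0 := by
    rw [hr, map_mul, hp, minpoly.aeval, Matrix.zero_mul]
  rw [map_sub, map_pow, aeval_X, map_one, sub_eq_zero, pow_two] at h2
  exact h2

end CenSq

end Pool.Agent.Lib.MP_361a6f_ag.FL.E
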