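import Pool.Agent.Lib.MP_361a6f_ag.FL.E.EndD
import Pool.Agent.Lib.MP_361a6f_ag.PP.PFX

/-!
# Automorphisms of the cohomology rings of all products, given by a matrix on `H^1`

A matrix `c` in the group of the host gives automorphisms `C` of the cohomology rings of all
products. If `c` fixes the algebraic tensors of length `2 j` whose letters all have degree one then
`C` fixes all algebraic classes of codimension `j`.
-/

open CategoryTheory AlgebraicGeometry MonoidalCategory CartesianMonoidalCategory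

universe u v w

set_option autoImplicit false
set_option linter.unusedSectionVars false

namespace Pool.Agent.Lib.MP_361a6f_ag.FL

open Pool.Agent.Lib.MP_361a6f_ag.H3 Pool.Agent.Lib.MP_361a6f_ag.SQ
  Pool.Agent.Lib.MP_361a6f_ag.PP

namespace EndM

open EndE EndC

variable {k : Type u} [Field k] {m : ℕ} {W : CohomologyData.{u, 0, w} k ℂ} {𝒱 : VarietyClass k}
  (H : Host W 𝒱 m)

/-! ### The form `ψ` -/

theorem nd_right (P : Prd m) (v : W.coh (P.obj H.X)) (hv : ∀ y, H.psiP P y v = 0) : v = 0 := by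
  obtain ⟨DP, hPalg⟩ := H.lamP P
  have h1 : H.starP P v = 0 := PFX.duality_right H.hW (H.memP P) _ fun x => hv x
  have h2 : H.starP P (H.starP P v) = v := BLK.star_star H.hW staB (H.memP P) hPalg DP v
  rw [← h2, h1]
  exact map_zero _

/-- `ψ` pairs classes of the same degree only -/
theorem psi_off (P : Prd m) {a b : ℕ} (hab : a ≠ b) {x y : W.coh (P.obj H.X)}
    (hx : x ∈ W.gr (P.obj H.X) a) (hy : y ∈ W.gr (P.obj H.X) b) : H.psiP P x y = 0 := by
  have hM := H.memP P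
  rw [Host.psiP, psi]
  by_cases hd : b ≤ 2 * P.dim H.n
  · have h5 := (staB (H.lamP P).1.slm).1 _ _ hd hy
    exact H.hW.tr_gr hM (H.hW.mul_gr hM hx h5) (by omega)
  · rw [H.hW.top_gr hM hy (by omega), map_zero, mul_zero, map_zero]

/-! ### Semilinear families -/

/-- a compatible family of semilinear operators -/
structure Fam (σ : ℂ →+* ℂ) (A : ∀ P : Prd m, W.coh (P.obj H.X) →ₛₗ[σ] W.coh (P.obj H.X)) :
    Prop where
  one : ∀ P, A P 1 = 1
  gr : ∀ (P : Prd m) (i : ℕ) (x : W.coh (P.obj H.X)), x ∈ W.gr (P.obj H.X) i →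
    A P x ∈ W.gr (P.obj H.X) i
  surj : ∀ P, Function.Surjective (A P)
  psi : ∀ P x y, H.psiP P (A P x) (A P y) = σ (H.psiP P x y)
  pull : ∀ (P Q : Prd m) (f : Sch.Mor (P.obj H.X) (Q.obj H.X)), CoordMor H.X 3 P Q f →
    ∀ z, A P (W.pull f z) = W.pull f (A Q z)
  e1 : ∀ (P : Prd m) (w : Fin P.size → H.I), D1 H w → ∀ w' : Fin P.size → H.I, ¬ D1 H w' →
    H.tc P (A P (H.E P w)) w' = 0

/-- If the parts of degree one of the algebraic classes on the products of `2 j` factors are fixed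
then all algebraic classes of codimension `j` are fixed. -/
theorem Fam.fix_codim {σ : ℂ →+* ℂ}
    {A : ∀ P : Prd m, W.coh (P.obj H.X) →ₛₗ[σ] W.coh (P.obj H.X)} (S : Fam H σ A)
    (hAb : ∀ a, AbelianType W (H.X a) (H.n a)) (j : ℕ)
    (hZ : ∀ (P : Prd m), P.size = 2 * j → ∀ z ∈ tot W (P.obj H.X), A P (Z1 H P z) = Z1 H P z)
    (P : Prd m) {z : W.coh (P.obj H.X)} (hz : z ∈ W.alg (P.obj H.X) j) : A P z = z := by
  have ge := ge H
  have hzt : z ∈ tot W (P.obj H.X) := alg_le_tot H.hW _ j hz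
  have hzg : z ∈ W.gr (P.obj H.X) (2 * j) := H.hW.alg_gr (H.memP P) hz
  have hlin : ∀ x y v : W.coh (P.obj H.X), H.psiP P (x + y) v = H.psiP P x v + H.psiP P y v :=
    fun x y v => psi_add_left _ x y v
  have hsm : ∀ (t : ℂ) (x v : W.coh (P.obj H.X)), H.psiP P (t • x) v = t * H.psiP P x v :=
    fun t x v => psi_smul_left _ t x v
  -- the classes orthogonal to `A z - z`
  let T : Submodule ℂ (W.coh (P.obj H.X)) :=
    { carrier := {y | H.psiP P (A P y) (A P z) = H.psiP P (A P y) z}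
      add_mem' := fun {x y} hx hy => by
        change H.psiP P (A P (x + y)) (A P z) = H.psiP P (A P (x + y)) z
        rw [map_add, hlin, hlin, hx, hy]
      zero_mem' := by
        change H.psiP P (A P 0) (A P z) = H.psiP P (A P 0) z
        have h0 : ∀ v : W.coh (P.obj H.X), H.psiP P (0 : W.coh (P.obj H.X)) v = 0 := fun v => by
          have := hsm 0 0 v
          rwa [zero_smul, zero_mul] at this
        rw [map_zero, h0, h0]
      smul_mem' := fun t x hx => by
        change H.psiP P (A P (t • x)) (A P z) = H.psiP P (A P (t • x)) z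
        rw [LinearMap.map_smulₛₗ, hsm, hsm, hx] }
  have hT : T = ⊤ := by
    refine span_top H ge staB hAb P T ?_ ?_
    · -- the class `1`
      change H.psiP P (A P 1) (A P z) = H.psiP P (A P 1) z
      rw [S.psi, S.one]
      have h1 : H.psiP P 1 z = W.tr (P.obj H.X) (H.starP P z) := by
        change W.tr (P.obj H.X) (1 * H.starP P z) = _
        rw [one_mul]
      obtain ⟨DP, hPalg⟩ := H.lamP P
      have hsz : H.starP P z ∈ tot W (P.obj H.X) :=
        AlgOp.apply H.hW (H.memP P) (algOp_star H.hW (H.memP P) hPalg DP) hzt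
      obtain ⟨q, hq⟩ := tot_tr H.hW (H.memP P) hsz
      rw [h1, hq]
      simp
    · rintro y ⟨n, b, f, w, hf, hw, rfl⟩
      obtain ⟨F, hF, hE⟩ := exists_map H P n b f hf
      rw [← hE]
      obtain ⟨x, hxd, hx⟩ : ∃ x : Fin (GP.N n b).size → H.I, D1 H x ∧
          GP.E' H n b w = H.E (GP.N n b) x := by
        refine ⟨w ∘ Fin.cast (GP.size_N n b), fun i => ?_, ?_⟩
        · rw [Function.comp_apply, hw]
        · rw [GP.E_eq]
          rfl
      rw [hx]
      change H.psiP P (A P (W.pull F (H.E (GP.N n b) x))) (A P z)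
        = H.psiP P (A P (W.pull F (H.E (GP.N n b) x))) z
      by_cases hn : n + 1 = 2 * j
      · obtain ⟨z'', hz'', key⟩ := push_star H P (GP.N n b) F z hzt
        have e1 : A P (W.pull F (H.E (GP.N n b) x))
            = W.pull F (A (GP.N n b) (H.E (GP.N n b) x)) := S.pull P (GP.N n b) F hF _
        have e2 := S.e1 (GP.N n b) x hxd
        have e3 := hZ (GP.N n b) ((GP.size_N n b).trans hn) z'' hz''
        rw [S.psi, ← key, ← psi_Z1 H ge (GP.N n b) (tc_E1 H ge (GP.N n b) hxd) z'',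
          ← S.psi, e3, psi_Z1 H ge (GP.N n b) e2 z'', key, e1]
      · have h1 : H.E (GP.N n b) x ∈ W.gr ((GP.N n b).obj H.X) (n + 1) := by
          have h2 := ge.E_gr (GP.N n b) x
          have h3 : ∑ l, (H.D.typ (x l)).2 = n + 1 := by
            rw [Finset.sum_congr rfl fun l _ => hxd l, Finset.sum_const, Finset.card_univ,
              Fintype.card_fin, smul_eq_mul, mul_one]
            exact GP.size_N n b
          rwa [h3] at h2
        have h2 : W.pull F (H.E (GP.N n b) x) ∈ W.gr (P.obj H.X) (n + 1) :=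
          H.hW.pull_gr (H.memP P) (H.memP (GP.N n b)) F h1
        have h3 := S.gr P (n + 1) _ h2
        rw [psi_off H P hn h3 (S.gr P _ _ hzg), psi_off H P hn h3 hzg]
  refine sub_eq_zero.1 (nd_right H P (A P z - z) fun y => ?_)
  obtain ⟨y₀, rfl⟩ := S.surj P y
  have hy : H.psiP P (A P y₀) (A P z) = H.psiP P (A P y₀) z := by
    have : y₀ ∈ T := by rw [hT]; trivial
    exact this
  have h3 := psi_add_right (W := W) (X := P.obj H.X) (ξ := P.pol W H.ξ) (Lam := H.LamP P)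
    (H.lamP P).1.slm.internal (A P y₀) (A P z - z) z
  rw [sub_add_cancel] at h3
  have h4 : H.psiP P (A P y₀) (A P z)
      = H.psiP P (A P y₀) (A P z - z) + H.psiP P (A P y₀) z := h3
  rw [hy] at h4
  exact add_right_cancel (h4.symm.trans (zero_add _).symm)

/-! ### Antilinear families -/

section anti

variable (a1 : Alg1) (a2 : Alg2) {g c : Matrix H.I H.I ℂ} (hg : IsG H.D g) (hc : IsG H.D c)
  {K : ∀ P : Prd m, W.coh (P.obj H.X) →ₛₗ[starRingEnd ℂ] W.coh (P.obj H.X)}
  (S : KSys H a1 g c K)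

include hg hc a2 S

theorem fam_of_ksys : Fam H (starRingEnd ℂ) K where
  one := S.js.one
  gr := S.js.gr
  surj := S.js.surj
  psi := S.psi
  pull P Q f hf := GM.pull_coord H.hW H.mem S.js (fun _ => S.mul) P Q f hf
  e1 P _ hw := K_E1 H a1 a2 hg hc (ge H) S P hw

theorem K_Z1' {L : ℕ} (hfix : ∀ u : Ten H.I L, u ∈ H.At L → (∀ w, ¬ D1 H w → u w = 0) →
      TT H.D g c u = u) (P : Prd m) (hP : P.size = L) {z : W.coh (P.obj H.X)}
    (hz : z ∈ tot W (P.obj H.X)) : K P (Z1 H P z) = Z1 H P z := by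
  subst hP
  have h1 : K P (Z1 H P z) = jc H a1 g c P (Z1 H P z) :=
    K_sum H a1 a2 hg hc (ge H) S P fun w hw => cut_off H _ hw
  rw [h1]
  refine (ge H).inj P ?_
  rw [tc_jc H a1 hg hc (ge H), tc_Z1 H (ge H)]
  exact hfix _ (cut_at H (GP.at_tc H P hz)) fun w hw => cut_off H _ hw

/-- the algebraic classes of codimension `j` are fixed if the tensors of length `2 j` are -/
theorem K_codim (hAb : ∀ a, AbelianType W (H.X a) (H.n a)) (j : ℕ)
    (hfix : ∀ u : Ten H.I (2 * j), u ∈ H.At (2 * j) → (∀ w, ¬ D1 H w → u w = 0) →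
      TT H.D g c u = u) (P : Prd m) {z : W.coh (P.obj H.X)} (hz : z ∈ W.alg (P.obj H.X) j) :
    K P z = z :=
  (fam_of_ksys H a1 a2 hg hc S).fix_codim H hAb j
    (fun P hP _ hz => K_Z1' H a1 a2 hg hc S hfix P hP hz) P hz

end anti

/-! ### Linear families -/

/-- the linear operator in coordinates -/
noncomputable def lc (a1 : Alg1) (c : Matrix H.I H.I ℂ) (P : Prd m) :
    W.coh (P.obj H.X) →ₗ[ℂ] W.coh (P.obj H.X) where
  toFun z := ∑ w, gT c (H.tc P z) w • H.E P w
  map_add' x y := by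
    rw [map_add, a1.gT_add, ← Finset.sum_add_distrib]
    refine Finset.sum_congr rfl fun w _ => ?_
    rw [Pi.add_apply, add_smul]
  map_smul' t x := by
    rw [map_smul, a1.gT_smul, Finset.smul_sum]
    refine Finset.sum_congr rfl fun w _ => ?_
    rw [Pi.smul_apply, smul_assoc]
    rfl

theorem lc_apply (a1 : Alg1) (c : Matrix H.I H.I ℂ) (P : Prd m) (z : W.coh (P.obj H.X)) :
    lc H a1 c P z = ∑ w, gT c (H.tc P z) w • H.E P w := rfl

theorem tc_lc (a1 : Alg1) {c : Matrix H.I H.I ℂ} (hc : IsG H.D c) (P : Prd m)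
    (z : W.coh (P.obj H.X)) : H.tc P (lc H a1 c P z) = gT c (H.tc P z) := by
  rw [lc_apply]
  refine (ge H).tc_sum P _ ?_
  refine GJ.gT_supp H.D hc (H.Off P) ?_ ((ge H).tc_off P z)
  rintro w w' h ⟨i, hi⟩
  exact ⟨i, by rw [← h i]; exact hi⟩

/-- a compatible family of automorphisms of the cohomology rings, given by a matrix on `H^1` -/
structure LSys (c : Matrix H.I H.I ℂ)
    (C : ∀ P : Prd m, W.coh (P.obj H.X) →ₗ[ℂ] W.coh (P.obj H.X)) : Prop where
  one : ∀ P, C P 1 = 1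
  mul : ∀ P (x y : W.coh (P.obj H.X)), C P (x * y) = C P x * C P y
  gr : ∀ P i (x : W.coh (P.obj H.X)), x ∈ W.gr (P.obj H.X) i → C P x ∈ W.gr (P.obj H.X) i
  tr : ∀ P (x : W.coh (P.obj H.X)), W.tr (P.obj H.X) (C P x) = W.tr (P.obj H.X) x
  surj : ∀ P, Function.Surjective (C P)
  psi : ∀ P x y, H.psiP P (C P x) (C P y) = H.psiP P x y
  pol : ∀ P : Prd m, C P (P.pol W H.ξ) = P.pol W H.ξ
  prod : ∀ (P Q : Prd m) (y : W.coh (P.obj H.X)) (x : W.coh (Q.obj H.X)),
    C (.prod P Q) (W.ext y x) = W.ext (C P y) (C Q x)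
  pull : ∀ (P Q : Prd m) (f : Sch.Mor (P.obj H.X) (Q.obj H.X)), CoordMor H.X 3 P Q f →
    ∀ z, C P (W.pull f z) = W.pull f (C Q z)
  on1 : ∀ (a : Fin m) (v : W.coh (H.X a)), v ∈ W.gr (H.X a) 1 →
    H.tc (.leaf a) (C (.leaf a) v) = gT c (H.tc (.leaf a) v)

theorem exists_lin (hAb : ∀ a, AbelianType W (H.X a) (H.n a))
    (hpd : ∀ a, PositiveDivisor W (H.X a) (H.n a) (H.ξ a)) {c : Matrix H.I H.I ℂ}
    (hc : IsG H.D c) : ∃ C, LSys H c C := by
  have ge := ge H
  have a1 := alg1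
  have a2 := alg2
  have hext : ∀ a, ExtFacts W (H.X a) := fun a => by
    obtain ⟨q, hq, hqt⟩ := (hpd a).2
    have hqt' : W.tr (H.X a) (H.ξ a ^ H.n a) = (q : ℂ) := hqt
    have hq0 : (q : ℂ) ≠ 0 := by exact_mod_cast hq.ne'
    exact Ext1.extFacts H.hW (H.mem a) (hAb a) ⟨_, by rw [hqt']; exact hq0⟩
  have h1G : IsG H.D (1 : Matrix H.I H.I ℂ) := by
    refine ⟨fun i j h => ?_, by rw [Matrix.transpose_one, Matrix.one_mul, Matrix.mul_one]⟩
    rw [Matrix.one_apply, if_neg fun e => h (congrArg H.D.typ e)]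
  obtain ⟨K₀, S₀⟩ := exists_K H a1 h1G h1G ge hAb hpd hext
  obtain ⟨K, S⟩ := exists_K H a1 h1G hc ge hAb hpd hext
  have hinj : ∀ P (x : W.coh (P.obj H.X)), K₀ P x = 0 → x = 0 := by
    intro P x hx
    refine H.hW.duality (H.memP P) _ fun y => ?_
    have h1 := S₀.js.tr P x y
    rw [hx, zero_mul, map_zero] at h1
    have h2 := congrArg (starRingEnd ℂ) h1
    rw [map_zero, Complex.conj_conj] at h2
    exact h2.symm
  have hinj' : ∀ P (x y : W.coh (P.obj H.X)), K₀ P x = K₀ P y → x = y := by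
    intro P x y hxy
    exact sub_eq_zero.1 (hinj P _ (by rw [map_sub, hxy, sub_self]))
  choose R hR using S₀.js.surj
  have hRJ : ∀ P x, R P (K₀ P x) = x := fun P x => hinj' P _ _ (hR P (K₀ P x))
  let C : ∀ P : Prd m, W.coh (P.obj H.X) →ₗ[ℂ] W.coh (P.obj H.X) := fun P =>
    { toFun := fun x => K P (R P x)
      map_add' := fun x y => by
        have e : R P (x + y) = R P x + R P y := hinj' P _ _ (by rw [map_add, hR, hR, hR])
        rw [e, map_add]
      map_smul' := fun t x => by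
        have e : R P (t • x) = starRingEnd ℂ t • R P x := hinj' P _ _ (by
          rw [LinearMap.map_smulₛₗ, hR, hR, Complex.conj_conj])
        rw [e, LinearMap.map_smulₛₗ, Complex.conj_conj, RingHom.id_apply] }
  have hC : ∀ P x, C P (K₀ P x) = K P x := fun P x => by
    change K P (R P (K₀ P x)) = K P x
    rw [hRJ]
  have hJgr : ∀ (P : Prd m) (i : ℕ), ∀ v ∈ W.gr (P.obj H.X) i, ∃ y ∈ W.gr (P.obj H.X) i,
      K₀ P y = v := fun P i =>
    surj_gr H.hW (H.memP P) i (K₀ P) (fun x hx => S₀.js.gr P i x hx)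
      (fun x _ hx0 => hinj P x hx0)
  refine ⟨C, ?_, ?_, ?_, ?_, ?_, ?_, ?_, ?_, ?_, ?_⟩
  · intro P
    have := hC P 1
    rwa [S₀.js.one, S.js.one] at this
  · intro P x y
    rw [← hR P x, ← hR P y, ← S₀.mul, hC, hC, hC, S.mul]
  · intro P i x hx
    obtain ⟨y, hy, rfl⟩ := hJgr P i x hx
    rw [hC]
    exact S.js.gr P i y hy
  · intro P x
    rw [← hR P x, hC]
    have h1 := S₀.js.tr P (R P x) 1
    have h2 := S.js.tr P (R P x) 1
    rw [S₀.js.one, mul_one, mul_one] at h1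
    rw [S.js.one, mul_one, mul_one] at h2
    rw [h1, h2]
  · intro P x
    obtain ⟨y, rfl⟩ := S.js.surj P x
    exact ⟨K₀ P y, hC P y⟩
  · intro P x y
    rw [← hR P x, ← hR P y, hC, hC, S.psi, S₀.psi]
  · intro P
    have := hC P (P.pol W H.ξ)
    rwa [S₀.pol, S.pol] at this
  · intro P Q y x
    have h1 := hC (.prod P Q) (W.pull (fst (P.obj H.X) (Q.obj H.X)) (R P y)
      * W.pull (snd (P.obj H.X) (Q.obj H.X)) (R Q x))
    rw [S₀.js.prod, S.js.prod, hR, hR] at h1
    exact h1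
  · intro P Q f hf z
    have h1 := GM.pull_coord H.hW H.mem S₀.js (fun _ => S₀.mul) P Q f hf (R Q z)
    have h2 := GM.pull_coord H.hW H.mem S.js (fun _ => S.mul) P Q f hf (R Q z)
    rw [hR] at h1
    rw [← h1, hC, h2]
    rfl
  · intro a v hv
    obtain ⟨y, hy, hyv⟩ := hJgr (.leaf a) 1 v hv
    have e1 : C (.leaf a) v = K (.leaf a) y := by rw [← hyv, hC]
    have e2 : K (.leaf a) y = jc H a1 1 c (.leaf a) y := S.on1 a y hy
    have e3 : K₀ (.leaf a) y = jc H a1 1 1 (.leaf a) y := S₀.on1 a y hy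
    rw [e1, e2, tc_jc H a1 h1G hc ge, ← hyv, e3, tc_jc H a1 h1G h1G ge, TT, TT, a1.gT_one]

namespace LSys

variable {H} {c : Matrix H.I H.I ℂ}
  {C : ∀ P : Prd m, W.coh (P.obj H.X) →ₗ[ℂ] W.coh (P.obj H.X)} (S : LSys H c C)

include S

/-- `C` commutes with `*` -/
theorem star (P : Prd m) (x : W.coh (P.obj H.X)) : C P (H.starP P x) = H.starP P (C P x) := by
  refine sub_eq_zero.1 (PFX.duality_right H.hW (H.memP P) _ fun y => ?_)
  obtain ⟨y, rfl⟩ := S.surj P y
  have h1 : W.tr (P.obj H.X) (C P y * H.starP P (C P x)) = W.tr (P.obj H.X) (y * H.starP P x) :=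
    S.psi P y x
  rw [mul_sub, map_sub, h1, ← S.mul, S.tr, sub_self]

/-- `C` commutes with `Λ` -/
theorem lam (P : Prd m) (x : W.coh (P.obj H.X)) : C P (H.LamP P x) = H.LamP P (C P x) := by
  obtain ⟨DP, hPalg⟩ := H.lamP P
  have h1 : ∀ y, H.starP P (H.starP P y) = y :=
    fun y => BLK.star_star H.hW staB (H.memP P) hPalg DP y
  have h2 : ∀ y, H.starP P (P.pol W H.ξ * y) = H.LamP P (H.starP P y) :=
    (staB DP.slm).2.2.1
  have h3 : ∀ y, H.LamP P y = H.starP P (P.pol W H.ξ * H.starP P y) := fun y => by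
    rw [h2, h1]
  rw [h3, h3, S.star, S.mul, S.pol, S.star]

theorem c_E (hc : IsG H.D c) : ∀ (P : Prd m) (w : Fin P.size → H.I), D1 H w →
    C P (H.E P w) = lc H alg1 c P (H.E P w)
  | .leaf a, w, h => by
    have hg : H.e a (w (0 : Fin 1)) ∈ W.gr (H.X a) 1 := by
      have h1 := H.e_gr a (w (0 : Fin 1))
      rwa [show (H.D.typ (w (0 : Fin 1))).2 = 1 from h (0 : Fin 1)] at h1
    refine (ge H).inj (.leaf a) ?_
    exact (S.on1 a _ hg).trans (tc_lc H alg1 hc (.leaf a) _).symm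
  | .prod P Q, w, h => by
    have h1 := c_E hc P (fun i => w (Fin.castAdd Q.size i)) fun i => h (Fin.castAdd Q.size i)
    have h2 := c_E hc Q (fun i => w (Fin.natAdd P.size i)) fun i => h (Fin.natAdd P.size i)
    have h3 := S.prod P Q (H.E P (fun i => w (Fin.castAdd Q.size i)))
      (H.E Q (fun i => w (Fin.natAdd P.size i)))
    rw [h1, h2] at h3
    refine (ge H).inj (.prod P Q) ?_
    refine (congrArg (H.tc (.prod P Q)) h3).trans ?_
    have h4 := (ge H).tc_outer P Q (lc H alg1 c P (H.E P (fun i => w (Fin.castAdd Q.size i))))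
      (lc H alg1 c Q (H.E Q (fun i => w (Fin.natAdd P.size i))))
    refine h4.trans ?_
    rw [tc_lc H alg1 hc, tc_lc H alg1 hc, tc_lc H alg1 hc, ← alg2.outer_gT]
    refine congrArg (gT c) ?_
    exact ((ge H).tc_outer P Q _ _).symm

theorem fam (hc : IsG H.D c) : Fam H (RingHom.id ℂ) C where
  one := S.one
  gr := S.gr
  surj := S.surj
  psi := S.psi
  pull := S.pull
  e1 P w hw w' hw' := by
    rw [S.c_E hc P w hw, tc_lc H alg1 hc]
    exact GJ.gT_supp H.D hc (fun w => ¬ D1 H w) (fun w w' hh => d1_typ H hh)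
      (tc_E1 H (ge H) P hw) w' hw'

/-- the algebraic classes of codimension `j` are fixed if the tensors of length `2 j` are -/
theorem fix_codim (hc : IsG H.D c) (hAb : ∀ a, AbelianType W (H.X a) (H.n a)) (j : ℕ)
    (hfix : ∀ u : Ten H.I (2 * j), u ∈ H.At (2 * j) → (∀ w, ¬ D1 H w → u w = 0) →
      gT c u = u) (P : Prd m) {z : W.coh (P.obj H.X)} (hz : z ∈ W.alg (P.obj H.X) j) :
    C P z = z := by
  refine (S.fam hc).fix_codim H hAb j (fun P hP z hz => ?_) P hz
  have h1 : C P (Z1 H P z) = lc H alg1 c P (Z1 H P z) := by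
    unfold Z1
    rw [map_sum, map_sum]
    refine Finset.sum_congr rfl fun w _ => ?_
    by_cases h : D1 H w
    · rw [map_smul, map_smul, S.c_E hc P w h]
    · rw [cut_off H _ h, zero_smul, map_zero, map_zero]
  rw [h1]
  refine (ge H).inj P ?_
  rw [tc_lc H alg1 hc, tc_Z1 H (ge H)]
  have key : ∀ (L : ℕ), L = 2 * j → ∀ u : Ten H.I L, u ∈ H.At L → (∀ w, ¬ D1 H w → u w = 0) →
      gT c u = u := by
    rintro L rfl u hu hu1
    exact hfix u hu hu1
  exact key P.size hP _ (cut_at H (GP.at_tc H P hz)) fun w hw => cut_off H _ hw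

/-- products of fixed classes are fixed -/
theorem fix_prod {P : Prd m} (l : List (W.coh (P.obj H.X))) (h : ∀ z ∈ l, C P z = z) :
    C P l.prod = l.prod := by
  induction l with
  | nil => exact S.one P
  | cons x l ih =>
    rw [List.prod_cons, S.mul, h x List.mem_cons_self, ih fun z hz => h z
      (List.mem_cons_of_mem _ hz)]

end LSys

/-! ### The part of degree one -/

namespace LSys

variable {H} {c : Matrix H.I H.I ℂ}
  {C : ∀ P : Prd m, W.coh (P.obj H.X) →ₗ[ℂ] W.coh (P.obj H.X)} (S : LSys H c C)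

include S

/-- the images of the basis vectors have the same degrees in all slots -/
theorem tc_slot : ∀ (P : Prd m) (w w' : Fin P.size → H.I),
    (∃ l, (H.D.typ (w l)).2 ≠ (H.D.typ (w' l)).2) → H.tc P (C P (H.E P w)) w' = 0
  | .leaf a, w, w', h => by
    have h1 : H.e a (w (0 : Fin 1)) ∈ W.gr (H.X a) (H.D.typ (w (0 : Fin 1))).2 :=
      H.e_gr a (w (0 : Fin 1))
    have h2 := S.gr (.leaf a) _ _ h1
    refine GJ.tc_gr H (ge H) staB (.leaf a) h2 w' fun h3 => ?_
    obtain ⟨l, hl⟩ := h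
    have h4 : (H.D.typ (w' (0 : Fin 1))).2 = (H.D.typ (w (0 : Fin 1))).2 :=
      (Fin.sum_univ_one fun i : Fin 1 => (H.D.typ (w' i)).2).symm.trans h3
    have h5 : l = (0 : Fin 1) := Subsingleton.elim (α := Fin 1) _ _
    rw [h5] at hl
    exact hl h4.symm
  | .prod P Q, w, w', h => by
    have h3 := S.prod P Q (H.E P (fun i => w (Fin.castAdd Q.size i)))
      (H.E Q (fun i => w (Fin.natAdd P.size i)))
    have h4 := (ge H).tc_outer P Q (C P (H.E P (fun i => w (Fin.castAdd Q.size i))))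
      (C Q (H.E Q (fun i => w (Fin.natAdd P.size i))))
    have h5 : H.tc (.prod P Q) (C (.prod P Q) (H.E (.prod P Q) w)) w'
        = H.tc P (C P (H.E P (fun i => w (Fin.castAdd Q.size i))))
            (fun i => w' (Fin.castAdd Q.size i))
          * H.tc Q (C Q (H.E Q (fun i => w (Fin.natAdd P.size i))))
            (fun i => w' (Fin.natAdd P.size i)) :=
      congrFun ((congrArg (H.tc (.prod P Q)) h3).trans h4) w'
    rw [h5]
    obtain ⟨l, hl⟩ := h
    obtain ⟨l', rfl⟩ | ⟨l', rfl⟩ : (∃ l' : Fin P.size, l = Fin.castAdd Q.size l') ∨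
        ∃ l' : Fin Q.size, l = Fin.natAdd P.size l' := by
      revert hl
      refine Fin.addCases (m := P.size) (n := Q.size) (fun i _ => Or.inl ⟨i, rfl⟩)
        (fun i _ => Or.inr ⟨i, rfl⟩) l
    · rw [tc_slot P _ _ ⟨l', hl⟩, zero_mul]
    · rw [tc_slot Q _ _ ⟨l', hl⟩, mul_zero]

/-- **`c` acts on the part of degree one as `C`.** -/
theorem gT_cut (hc : IsG H.D c) (P : Prd m) (y : W.coh (P.obj H.X)) :
    gT c (cut H (H.tc P y)) = cut H (H.tc P (C P y)) := by
  have ge := ge H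
  have e1 : C P y = C P (Z1 H P y) + C P (y - Z1 H P y) := by
    rw [← map_add, add_sub_cancel]
  have h1 : C P (Z1 H P y) = lc H alg1 c P (Z1 H P y) := by
    unfold Z1
    rw [map_sum, map_sum]
    refine Finset.sum_congr rfl fun w _ => ?_
    by_cases h : D1 H w
    · rw [map_smul, map_smul, S.c_E hc P w h]
    · rw [cut_off H _ h, zero_smul, map_zero, map_zero]
  have h2 : ∀ w', D1 H w' → H.tc P (C P (y - Z1 H P y)) w' = 0 := by
    intro w' hw'
    have e2 : y - Z1 H P y = ∑ w, (H.tc P y w - cut H (H.tc P y) w) • H.E P w := by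
      have e3 := ge.expand P y
      conv_lhs => rw [e3]
      unfold Z1
      rw [← Finset.sum_sub_distrib]
      refine Finset.sum_congr rfl fun w _ => ?_
      rw [← sub_smul, ← ge.expand P y]
    rw [e2, map_sum, map_sum, Finset.sum_apply]
    refine Finset.sum_eq_zero fun w _ => ?_
    rw [map_smul, map_smul, Pi.smul_apply, smul_eq_mul]
    by_cases h : D1 H w
    · rw [cut_on H _ h, sub_self, zero_mul]
    · have h3 : ∃ l, (H.D.typ (w l)).2 ≠ (H.D.typ (w' l)).2 := by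
        by_contra hcon
        push Not at hcon
        exact h fun l => (hcon l).trans (hw' l)
      rw [S.tc_slot P w w' h3, mul_zero]
  funext w'
  by_cases hw' : D1 H w'
  · rw [cut_on H _ hw', e1, map_add, Pi.add_apply, h2 w' hw', add_zero, h1, tc_lc H alg1 hc,
      tc_Z1 H ge]
  · rw [cut_off H _ hw']
    exact GJ.gT_supp H.D hc (fun w => ¬ D1 H w) (fun w w' hh => d1_typ H hh)
      (fun w hw => cut_off H _ hw) w' hw'

/-- the tensor of a fixed class is fixed -/
theorem cut_fixed (hc : IsG H.D c) (P : Prd m) {y : W.coh (P.obj H.X)} (hy : C P y = y) :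
    gT c (cut H (H.tc P y)) = cut H (H.tc P y) := by
  rw [S.gT_cut hc, hy]

end LSys

/-- intersection numbers as values of `ψ` on tensors of degree one -/
theorem psi_cut_star (P : Prd m) {x : W.coh (P.obj H.X)} (hx : ∀ w, ¬ D1 H w → H.tc P x w = 0)
    (y : W.coh (P.obj H.X)) :
    psiT H.D (H.tc P x) (cut H (H.tc P (H.starP P y))) = W.tr (P.obj H.X) (x * y) := by
  obtain ⟨DP, hPalg⟩ := H.lamP P
  have h1 := psi_Z1 H (ge H) P hx (H.starP P y)
  rw [← (ge H).psi_tc, tc_Z1 H (ge H)] at h1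
  rw [h1]
  have h2 : H.starP P (H.starP P y) = y := BLK.star_star H.hW staB (H.memP P) hPalg DP y
  change W.tr (P.obj H.X) (x * H.starP P (H.starP P y)) = _
  rw [h2]

/-- **The tensor of a product of divisor classes is fixed by every matrix that fixes the algebraic
tensors of length two.** -/
theorem fix_div (hAb : ∀ a, AbelianType W (H.X a) (H.n a))
    (hpd : ∀ a, PositiveDivisor W (H.X a) (H.n a) (H.ξ a)) {c : Matrix H.I H.I ℂ}
    (hc : IsG H.D c) (hfix : ∀ u : Ten H.I 2, u ∈ H.At 2 → (∀ w, ¬ D1 H w → u w = 0) →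
      gT c u = u) (P : Prd m) (l : List (W.coh (P.obj H.X)))
    (hl : ∀ z ∈ l, z ∈ W.alg (P.obj H.X) 1) :
    gT c (cut H (H.tc P (H.starP P l.prod))) = cut H (H.tc P (H.starP P l.prod)) := by
  obtain ⟨C, S⟩ := exists_lin H hAb hpd hc
  refine S.cut_fixed hc P ?_
  rw [S.star, S.fix_prod l fun z hz => S.fix_codim hc hAb 1 hfix P (hl z hz)]

/-! ### One factor -/

section one

variable (H₁ : Host W 𝒱 1)

/-- tensors of degree one over one factor -/
theorem key1 {L : ℕ} {u : Ten H₁.I L} (hu : u ∈ H₁.At L) (hu1 : ∀ w, ¬ D1 H₁ w → u w = 0) :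
    ∃ u' : Ten (E.Sub H₁.D (0, 1)) L, u = E.ext0 H₁.D (0, 1) u' ∧
      E.atS H₁.D (0, 1) (fun L u => u ∈ H₁.At L) L u' := by
  have e : u = E.ext0 H₁.D (0, 1) (fun w => u (E.up w)) :=
    E.eq_ext0 (fun _ => rfl) fun w hw => hu1 w fun hh => hw ((on_iff H₁ w).2 hh)
  refine ⟨_, e, ?_⟩
  change E.ext0 H₁.D (0, 1) (fun w => u (E.up w)) ∈ H₁.At L
  rw [← e]
  exact hu

/-- the part of degree one, over the letter `(0, 1)` -/
noncomputable def cut1 {L : ℕ} (u : Ten H₁.I L) : Ten (E.Sub H₁.D (0, 1)) L := fun w => u (E.up w)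

theorem ext_cut1 {L : ℕ} (u : Ten H₁.I L) : E.ext0 H₁.D (0, 1) (cut1 H₁ u) = cut H₁ u := by
  symm
  refine E.eq_ext0 (fun w => ?_) fun w hw => ?_
  · exact cut_on H₁ u ((on_iff H₁ _).1 (E.on_up w))
  · exact cut_off H₁ u fun h => hw ((on_iff H₁ w).2 h)

/-- the matrix form of `fix_div` over the letter `(0, 1)` -/
theorem fix_div1 (hAb : ∀ a, AbelianType W (H₁.X a) (H₁.n a))
    (hpd : ∀ a, PositiveDivisor W (H₁.X a) (H₁.n a) (H₁.ξ a))
    {M : Matrix (E.Sub H₁.D (0, 1)) (E.Sub H₁.D (0, 1)) ℂ} (hM : IsG (E.subD H₁.D (0, 1)) M)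
    (hfix : ∀ u : Ten (E.Sub H₁.D (0, 1)) 2,
      E.atS H₁.D (0, 1) (fun L u => u ∈ H₁.At L) 2 u → gT M u = u)
    (P : Prd 1) (l : List (W.coh (P.obj H₁.X))) (hl : ∀ z ∈ l, z ∈ W.alg (P.obj H₁.X) 1) :
    gT M (cut1 H₁ (H₁.tc P (H₁.starP P l.prod))) = cut1 H₁ (H₁.tc P (H₁.starP P l.prod)) := by
  apply E.ext0_inj (D := H₁.D) (α := ((0, 1) : Fin 1 × ℕ))
  rw [← gT_mex M, ext_cut1]
  refine fix_div H₁ hAb hpd (isG_mex M hM) (fun u hu hu1 => ?_) P l hl
  obtain ⟨u', rfl, h⟩ := key1 H₁ hu hu1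
  rw [gT_mex, hfix u' h]

/-- intersection numbers over the letter `(0, 1)` -/
theorem psi_cut1 (P : Prd 1) {x : W.coh (P.obj H₁.X)}
    {u : Ten (E.Sub H₁.D (0, 1)) P.size} (hx : H₁.tc P x = E.ext0 H₁.D (0, 1) u)
    (y : W.coh (P.obj H₁.X)) :
    psiT (E.subD H₁.D (0, 1)) u (cut1 H₁ (H₁.tc P (H₁.starP P y)))
      = W.tr (P.obj H₁.X) (x * y) := by
  rw [← E.psiT_ext, ext_cut1, ← hx]
  refine psi_cut_star H₁ P (fun w hw => ?_) y
  rw [hx]
  exact E.ext0_off u fun h => hw ((on_iff H₁ w).1 h)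

/-- the algebraic classes of codimension `j` are fixed by `C` if the tensors over the letter
`(0, 1)` of length `2 j` are fixed by the matrix -/
theorem fix_codim1 (hAb : ∀ a, AbelianType W (H₁.X a) (H₁.n a))
    {M : Matrix (E.Sub H₁.D (0, 1)) (E.Sub H₁.D (0, 1)) ℂ} (hM : IsG (E.subD H₁.D (0, 1)) M)
    {C : ∀ P : Prd 1, W.coh (P.obj H₁.X) →ₗ[ℂ] W.coh (P.obj H₁.X)}
    (S : LSys H₁ (mex H₁.D (0, 1) M) C) (j : ℕ)
    (hfix : ∀ u : Ten (E.Sub H₁.D (0, 1)) (2 * j),
      E.atS H₁.D (0, 1) (fun L u => u ∈ H₁.At L) (2 * j) u → gT M u = u)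
    (P : Prd 1) {z : W.coh (P.obj H₁.X)} (hz : z ∈ W.alg (P.obj H₁.X) j) : C P z = z := by
  refine S.fix_codim (isG_mex M hM) hAb j (fun u hu hu1 => ?_) P hz
  obtain ⟨u', rfl, h⟩ := key1 H₁ hu hu1
  rw [gT_mex, hfix u' h]

end one

end EndM

end Pool.Agent.Lib.MP_361a6f_ag.FL
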