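import Pool.Agent.Lib.MP_361a6f_ag.FL.E.AsmF
import Pool.Agent.Lib.MP_361a6f_ag.FL.E.OrbG
import Pool.Agent.Lib.MP_361a6f_ag.FL.E.OrbF
import Pool.Agent.Lib.MP_361a6f_ag.FL.E.EndM

/-!
# The general law: a central isometry of the coordinate space comes from a central isometry of the
powers of `X`
-/

open CategoryTheory AlgebraicGeometry MonoidalCategory CartesianMonoidalCategory

universe u v w w'

set_option autoImplicit false
set_option linter.unusedSectionVars false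

namespace Pool.Agent.Lib.MP_361a6f_ag.FL.E

open Pool.Agent.Lib.MP_361a6f_ag.H3 Pool.Agent.Lib.MP_361a6f_ag.SQ
  Pool.Agent.Lib.MP_361a6f_ag.PP

namespace CenT

noncomputable section

variable {k : Type u} [Field k] {W : CohomologyData.{u, 0, w} k ℂ} {𝒱 : VarietyClass k}
  (H : Host W 𝒱 1)

/-- the matrix of the family on `H^1` -/
theorem lsys_vec1 {M : Matrix (Sub H.D (0, 1)) (Sub H.D (0, 1)) ℂ}
    {C : ∀ P : Prd 1, W.coh (P.obj H.X) →ₗ[ℂ] W.coh (P.obj H.X)}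
    (S : EndM.LSys H (EndC.mex H.D (0, 1) M) C) (c : Sub H.D (0, 1) → ℂ) :
    (C (.leaf 0) (vec1 H c) : W.coh (H.X 0)) = vec1 H (M.mulVec c) := by
  refine op_vec1 H (f := C (.leaf 0)) (fun v hv => S.gr (.leaf 0) 1 v hv) (fun i j => ?_) c
  have h1 : H.e 0 (j : H.I) ∈ W.gr (H.X 0) 1 := by
    have h := H.e_gr 0 (j : H.I)
    rwa [j.2] at h
  have h2 := S.on1 0 (H.e 0 (j : H.I)) h1
  refine (congrFun h2 (fun _ => (i : H.I))).trans ?_
  have h3 : H.tc (.leaf 0) (H.e 0 (j : H.I)) = Pi.single (fun _ => (j : H.I)) 1 :=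
    JaT.tc_e H (ge H) 0 (j : H.I) (by rw [j.2])
  rw [h3]
  unfold gT
  rw [Finset.sum_eq_single (fun _ => (j : H.I))]
  · rw [Pi.single_eq_same, mul_one]
    refine (Fin.prod_univ_one _).trans ?_
    exact EndC.mex_on M i j
  · intro w _ hw
    rw [Pi.single_eq_of_ne hw, mul_zero]
  · intro h
    exact absurd (Finset.mem_univ _) h

/-- the family commutes on `H^1` with the algebraic correspondences -/
theorem lsys_comm {M : Matrix (Sub H.D (0, 1)) (Sub H.D (0, 1)) ℂ}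
    {C : ∀ P : Prd 1, W.coh (P.obj H.X) →ₗ[ℂ] W.coh (P.obj H.X)}
    (S : EndM.LSys H (EndC.mex H.D (0, 1) M) C)
    (hc : ∀ z, At1 H 2 z → M * opM (subD H.D (0, 1)) z = opM (subD H.D (0, 1)) z * M)
    {z : W.coh (H.X 0 ⊗ H.X 0)} (hz : z ∈ W.alg (H.X 0 ⊗ H.X 0) (H.n 0)) {x : W.coh (H.X 0)}
    (hx : x ∈ W.gr (H.X 0) 1) :
    (C (.leaf 0) (cor W z x) : W.coh (H.X 0)) = cor W z (C (.leaf 0) x) := by
  obtain ⟨v, hv, h⟩ := cor_vec1 H hz
  rw [← vec1_crd1 H hx, h, lsys_vec1 H S, lsys_vec1 H S, h, Matrix.mulVec_mulVec,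
    Matrix.mulVec_mulVec, hc v hv]

/-- on `H^1` the family is a complex combination of algebraic correspondences -/
theorem lsys_alg {M : Matrix (Sub H.D (0, 1)) (Sub H.D (0, 1)) ℂ}
    {C : ∀ P : Prd 1, W.coh (P.obj H.X) →ₗ[ℂ] W.coh (P.obj H.X)}
    (S : EndM.LSys H (EndC.mex H.D (0, 1) M) C) (hM : M ∈ endS (subD H.D (0, 1)) (At1 H)) :
    ∃ γ ∈ Submodule.span ℂ {z | z ∈ W.alg (H.X 0 ⊗ H.X 0) (H.n 0)}, ∀ x ∈ W.gr (H.X 0) 1,
      (C (.leaf 0) x : W.coh (H.X 0)) = cor W γ x := by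
  obtain ⟨γ, hγ, h⟩ := span_cor H hM
  refine ⟨γ, hγ, fun x hx => ?_⟩
  rw [← vec1_crd1 H hx, h, lsys_vec1 H S]

/-- the family preserves the form on `H^1` -/
theorem lsys_form (hpd : PositiveDivisor W (H.X 0) (H.n 0) (H.ξ 0))
    {c : Matrix H.I H.I ℂ} {C : ∀ P : Prd 1, W.coh (P.obj H.X) →ₗ[ℂ] W.coh (P.obj H.X)}
    (S : EndM.LSys H c C) {f : W.coh (H.X 0) →ₗ[ℂ] W.coh (H.X 0)} (hf : f = C (.leaf 0))
    {x y : W.coh (H.X 0)} (hx : x ∈ W.gr (H.X 0) 1) (hy : y ∈ W.gr (H.X 0) 1) :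
    W.tr (H.X 0) (H.ξ 0 ^ (H.n 0 - 1) * (f x * f y))
      = W.tr (H.X 0) (H.ξ 0 ^ (H.n 0 - 1) * (x * y)) := by
  rcases Nat.eq_zero_or_pos (H.n 0) with hn | hn
  · have hx0 : x = 0 := H.hW.top_gr (H.mem 0) hx (by omega)
    rw [hx0, map_zero, zero_mul, zero_mul]
  · have hfy : f y ∈ W.gr (H.X 0) 1 := by
      rw [hf]
      exact S.gr (.leaf 0) 1 y hy
    have h1 := psi_one H.hW (H.mem 0) hpd (H.lam 0) hn (f x) hfy
    have h2 := psi_one H.hW (H.mem 0) hpd (H.lam 0) hn x hy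
    have h3 : psi W (H.X 0) (H.ξ 0) (H.Lam 0) (H.lam 0).slm.internal (f x) (f y)
        = psi W (H.X 0) (H.ξ 0) (H.Lam 0) (H.lam 0).slm.internal x y := by
      rw [hf]
      exact S.psi (.leaf 0) x y
    have h4 : ((H.n 0 - 1).factorial : ℂ)⁻¹ ≠ 0 :=
      inv_ne_zero (Nat.cast_ne_zero.2 (Nat.factorial_ne_zero _))
    have h5 := h1.symm.trans (h3.trans h2)
    exact neg_injective (mul_left_cancel₀ h4 h5)

/-- the action on the tensors of degree one over the letter `(0, 1)` -/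
theorem lsys_cut1 {M : Matrix (Sub H.D (0, 1)) (Sub H.D (0, 1)) ℂ}
    {C : ∀ P : Prd 1, W.coh (P.obj H.X) →ₗ[ℂ] W.coh (P.obj H.X)}
    (S : EndM.LSys H (EndC.mex H.D (0, 1) M) C) (hM : IsG (subD H.D (0, 1)) M) (P : Prd 1)
    (z : W.coh (P.obj H.X)) :
    EndM.cut1 H (H.tc P (C P z)) = gT M (EndM.cut1 H (H.tc P z)) := by
  apply E.ext0_inj (D := H.D) (α := ((0, 1) : Fin 1 × ℕ))
  rw [← EndC.gT_mex M, EndM.ext_cut1, EndM.ext_cut1]
  exact (S.gT_cut (EndC.isG_mex M hM) P z).symm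

end

section hyp

variable {k : Type u} [Field k] {k' : Type v} [Field k'] {W : CohomologyData.{u, 0, w} k ℂ}
  {𝒱 : VarietyClass k} {W' : CohomologyData.{v, 0, w'} k' ℂ} {𝒱' : VarietyClass k'}
  (hW : IsWeilCohomology W 𝒱) {D : EQ.Data W W'}
  (h : EQ.Hyp 𝒱 𝒱' D) (c : Hst.Core W D.X D.g D.ξ)

/-- the family of a central isometry of the coordinate space -/
theorem isCentral_of {M : Matrix (Sub c.D (0, 1)) (Sub c.D (0, 1)) ℂ}
    {C : ∀ P : Prd 1, W.coh (P.obj (hst hW h c).X) →ₗ[ℂ] W.coh (P.obj (hst hW h c).X)}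
    (S : EndM.LSys (hst hW h c) (EndC.mex c.D (0, 1) M) C)
    (hM : M ∈ endS (subD c.D (0, 1)) (At1 (hst hW h c)))
    (hc : ∀ z, At1 (hst hW h c) 2 z →
      M * opM (subD c.D (0, 1)) z = opM (subD c.D (0, 1)) z * M) :
    EQ.IsCentral W D.X D.g D.ξ fun P => C P where
  tensor := ⟨fun P x y => map_add (C P) x y, fun P r x => map_smul (C P) r x, S.prod⟩
  one := S.one (.leaf 0)
  cup := S.mul (.leaf 0)
  deg := fun i x hx => S.gr (.leaf 0) i x hx
  comm := fun _ hz _ hx => lsys_comm (hst hW h c) S hc hz hx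
  alg := lsys_alg (hst hW h c) S hM
  form := fun _ _ hx hy => lsys_form (hst hW h c) h.div S (f := C (.leaf 0)) rfl hx hy

/-- **A central isometry of the coordinate space comes from a central isometry of the powers of
`X`.** -/
theorem exists_central {M : Matrix (Sub c.D (0, 1)) (Sub c.D (0, 1)) ℂ}
    (hM : M ∈ endS (subD c.D (0, 1)) (At1 (hst hW h c))) (hG : IsG (subD c.D (0, 1)) M)
    (hc : ∀ z, At1 (hst hW h c) 2 z →
      M * opM (subD c.D (0, 1)) z = opM (subD c.D (0, 1)) z * M) :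
    ∃ C : ∀ P : Prd 1, W.coh (P.obj (hst hW h c).X) →ₗ[ℂ] W.coh (P.obj (hst hW h c).X),
      EndM.LSys (hst hW h c) (EndC.mex c.D (0, 1) M) C ∧
      EQ.IsCentral W D.X D.g D.ξ (fun P => C P) ∧
      (∀ P z, EndE.cut (hst hW h c) ((hst hW h c).tc P (C P z)) =
        gT (EndC.mex c.D (0, 1) M) (EndE.cut (hst hW h c) ((hst hW h c).tc P z))) ∧
      (∀ P z, EndM.cut1 (hst hW h c) ((hst hW h c).tc P (C P z)) =
        gT M (EndM.cut1 (hst hW h c) ((hst hW h c).tc P z))) ∧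
      ∀ v, (C (.leaf 0) (vec1 (hst hW h c) v) : W.coh D.X)
        = vec1 (hst hW h c) (M.mulVec v) := by
  obtain ⟨C, S⟩ := EndM.exists_lin (hst hW h c) (fun _ => Hst.abelianType hW h) (fun _ => h.div)
    (EndC.isG_mex M hG)
  exact ⟨C, S, isCentral_of hW h c S hM hc,
    fun P z => (S.gT_cut (EndC.isG_mex M hG) P z).symm,
    fun P z => lsys_cut1 (hst hW h c) S hG P z, lsys_vec1 (hst hW h c) S⟩

end hyp

end CenT

end Pool.Agent.Lib.MP_361a6f_ag.FL.E
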