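import Pool.Agent.Lib.MP_361a6f_ag.FL.E.NdZ
import Pool.Agent.Lib.MP_361a6f_ag.FL.E.At0

/-!
# Theorem D4: the form is nondegenerate on the complex span of the system if and only if with each
character of the group of the central isometries that occurs the inverse character occurs
(helper9)
-/

open Matrix

set_option autoImplicit false
set_option linter.unusedSectionVars false

namespace Pool.Agent.Lib.MP_361a6f_ag.FL.E.D4

open Nd NdZ
open OL (CA)
open AL1A (gT_mul gT_add gT_smul)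

/-! ### Common eigenvectors of commuting operators -/

section eig

variable {V : Type*} [AddCommGroup V] [Module ℂ V] [FiniteDimensional ℂ V]

/-- A nonzero subspace that is stable under commuting operators contains a minimal one. -/
theorem exists_min (p : Submodule ℂ V → Prop) (h : ∃ W, p W) :
    ∃ W, p W ∧ ∀ W', p W' → W' ≤ W → W' = W := by
  obtain ⟨W0, h0⟩ := h
  have h1 : ∃ n, ∃ W, p W ∧ Module.finrank ℂ W = n := ⟨_, W0, h0, rfl⟩
  classical
  obtain ⟨W, hW, hn⟩ := Nat.find_spec h1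
  refine ⟨W, hW, fun W' hW' hle => ?_⟩
  refine Submodule.eq_of_le_of_finrank_le hle ?_
  rw [hn]
  exact Nat.find_min' h1 ⟨W', hW', rfl⟩

/-- Commuting operators on a nonzero finite dimensional space have a common eigenvector. -/
theorem exists_eig {ι : Type*} (T : ι → Module.End ℂ V) (hc : ∀ i j, T i * T j = T j * T i)
    {W : Submodule ℂ V} (hW : W ≠ ⊥) (hT : ∀ i, ∀ w ∈ W, T i w ∈ W) :
    ∃ v ∈ W, v ≠ 0 ∧ ∃ χ : ι → ℂ, ∀ i, T i v = χ i • v := by
  obtain ⟨U, ⟨hU0, hUT, hUW⟩, hmin⟩ := exists_min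
    (fun U : Submodule ℂ V => U ≠ ⊥ ∧ (∀ i, ∀ w ∈ U, T i w ∈ U) ∧ U ≤ W) ⟨W, hW, hT, le_rfl⟩
  have hsc : ∀ i, ∃ c : ℂ, ∀ w ∈ U, T i w = c • w := by
    intro i
    have : Nontrivial U := Submodule.nontrivial_iff_ne_bot.2 hU0
    obtain ⟨c, hc'⟩ := Module.End.exists_eigenvalue ((T i).restrict (hUT i))
    obtain ⟨⟨v, hv⟩, hv1⟩ := hc'.exists_hasEigenvector
    have hv2 : T i v = c • v := congrArg Subtype.val hv1.apply_eq_smul
    have hv0 : v ≠ 0 := fun h => hv1.2 (Subtype.ext h)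
    refine ⟨c, ?_⟩
    let U' : Submodule ℂ V := U ⊓ LinearMap.ker (T i - c • (1 : Module.End ℂ V))
    have hmem : ∀ w, w ∈ U' ↔ w ∈ U ∧ T i w = c • w := by
      intro w
      rw [Submodule.mem_inf, LinearMap.mem_ker, LinearMap.sub_apply, LinearMap.smul_apply,
        Module.End.one_apply, sub_eq_zero]
    have h1 : U' = U := by
      refine hmin U' ⟨?_, ?_, inf_le_left.trans hUW⟩ inf_le_left
      · intro h
        have : v ∈ U' := (hmem v).2 ⟨hv, hv2⟩
        rw [h, Submodule.mem_bot] at this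
        exact hv0 this
      · intro j w hw
        obtain ⟨hw1, hw2⟩ := (hmem w).1 hw
        refine (hmem _).2 ⟨hUT j w hw1, ?_⟩
        rw [← Module.End.mul_apply, hc, Module.End.mul_apply, hw2, map_smul]
    intro w hw
    rw [← h1] at hw
    exact ((hmem w).1 hw).2
  choose χ hχ using hsc
  obtain ⟨v, hv, hv0⟩ := Submodule.exists_mem_ne_zero_of_ne_bot hU0
  exact ⟨v, hUW hv, hv0, χ, fun i => hχ i v hv⟩

/-- If a functional is a common eigenvector of the transposed operators then there is a common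
eigenvector with the same eigenvalues. -/
theorem exists_eig_dual {ι : Type*} (T : ι → Module.End ℂ V) (hc : ∀ i j, T i * T j = T j * T i)
    {W : Submodule ℂ V} (hT : ∀ i, ∀ w ∈ W, T i w ∈ W) (f : V →ₗ[ℂ] ℂ)
    (hf : ∃ w ∈ W, f w ≠ 0) (χ : ι → ℂ) (hχ : ∀ i, ∀ w ∈ W, f (T i w) = χ i * f w) :
    ∃ v ∈ W, v ≠ 0 ∧ ∀ i, T i v = χ i • v := by
  obtain ⟨U, ⟨⟨u0, hu0, hfu0⟩, hUT, hUW⟩, hmin⟩ := exists_min
    (fun U : Submodule ℂ V => (∃ w ∈ U, f w ≠ 0) ∧ (∀ i, ∀ w ∈ U, T i w ∈ U) ∧ U ≤ W)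
    ⟨W, hf, hT, le_rfl⟩
  have hU0 : U ≠ ⊥ := by
    intro h
    rw [h, Submodule.mem_bot] at hu0
    exact hfu0 (by rw [hu0, map_zero])
  obtain ⟨v, hv, hv0, μ, hμ⟩ := exists_eig T hc hU0 hUT
  refine ⟨v, hUW hv, hv0, fun i => ?_⟩
  rw [hμ i]
  congr 1
  by_contra hne
  -- the operator `T i - χ i` maps `U` into a stable subspace of `U` where `f` vanishes
  let S : Module.End ℂ V := T i - χ i • (1 : Module.End ℂ V)
  have hS : ∀ w, S w = T i w - χ i • w := fun w => by
    change (T i - χ i • (1 : Module.End ℂ V)) w = _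
    rw [LinearMap.sub_apply, LinearMap.smul_apply, Module.End.one_apply]
  have hSU : ∀ w ∈ U, S w ∈ U := fun w hw => by
    rw [hS]
    exact sub_mem (hUT i w hw) (Submodule.smul_mem _ _ hw)
  have hfS : ∀ w ∈ U, f (S w) = 0 := fun w hw => by
    rw [hS, map_sub, map_smul, hχ i w (hUW hw), smul_eq_mul, sub_self]
  let SU : Module.End ℂ U := S.restrict hSU
  have hcS : ∀ j w, T j (S w) = S (T j w) := fun j w => by
    rw [hS, hS, map_sub, map_smul, ← Module.End.mul_apply, hc, Module.End.mul_apply]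
  -- Fitting decomposition
  have hfit := LinearMap.isCompl_iSup_ker_pow_iInf_range_pow SU
  let K : Submodule ℂ V := (⨆ n, LinearMap.ker (SU ^ n)).map U.subtype
  have hKU : K ≤ U := by
    rintro _ ⟨w, _, rfl⟩
    exact w.2
  have hpow : ∀ (n : ℕ) (j : ι) (w : U), (SU ^ n) ((T j).restrict (hUT j) w) =
      (T j).restrict (hUT j) ((SU ^ n) w) := by
    intro n
    induction n with
    | zero => intro j w; rfl
    | succ n ih =>
      intro j w
      rw [pow_succ, Module.End.mul_apply, Module.End.mul_apply]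
      have h2 : SU ((T j).restrict (hUT j) w) = (T j).restrict (hUT j) (SU w) :=
        Subtype.ext (hcS j w).symm
      rw [h2, ih]
  have hdir : Directed (· ≤ ·) fun n => LinearMap.ker (SU ^ n) := by
    refine (monotone_nat_of_le_succ fun n => ?_).directed_le
    intro w hw
    rw [LinearMap.mem_ker] at hw ⊢
    rw [pow_succ', Module.End.mul_apply, hw, map_zero]
  have hmemK : ∀ w : U, w ∈ (⨆ n, LinearMap.ker (SU ^ n)) ↔ ∃ n, (SU ^ n) w = 0 := by
    intro w
    rw [Submodule.mem_iSup_of_directed _ hdir]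
    simp only [LinearMap.mem_ker]
  have hKf : ∃ w ∈ K, f w ≠ 0 := by
    have hu1 : (⟨u0, hu0⟩ : U) ∈ (⨆ n, LinearMap.ker (SU ^ n)) ⊔ ⨅ n, LinearMap.range (SU ^ n) := by
      rw [hfit.sup_eq_top]; trivial
    obtain ⟨a, ha, b, hb, hab⟩ := Submodule.mem_sup.1 hu1
    refine ⟨a, ⟨a, ha, rfl⟩, ?_⟩
    have hb1 : b ∈ LinearMap.range (SU ^ 1) := (Submodule.mem_iInf _).1 hb 1
    obtain ⟨c, hc'⟩ := hb1
    rw [pow_one] at hc'
    have hfb : f b = 0 := by
      rw [← hc']
      exact hfS c c.2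
    have h3 : f u0 = f a + f b := by
      rw [← map_add]
      exact congrArg (fun z : U => f z) hab.symm
    rw [hfb, add_zero] at h3
    rw [← h3]
    exact hfu0
  have hKT : ∀ j, ∀ w ∈ K, T j w ∈ K := by
    rintro j _ ⟨w, hw, rfl⟩
    obtain ⟨n, hn⟩ := (hmemK w).1 hw
    refine ⟨(T j).restrict (hUT j) w, (hmemK _).2 ⟨n, ?_⟩, rfl⟩
    rw [hpow, hn, map_zero]
  have hKeq := hmin K ⟨hKf, hKT, hKU.trans hUW⟩ hKU
  -- so `S` is nilpotent on `v`
  rw [← hKeq] at hv
  obtain ⟨v', hv', hvv⟩ := hv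
  obtain ⟨n, hn⟩ := (hmemK v').1 hv'
  have hSv : ∀ n : ℕ, ((SU ^ n) v' : V) = (μ i - χ i) ^ n • (v' : V) := by
    intro n
    induction n with
    | zero => rw [pow_zero, pow_zero, one_smul]; rfl
    | succ n ih =>
      rw [pow_succ', Module.End.mul_apply]
      change S ((SU ^ n) v' : V) = _
      rw [ih, map_smul, hS]
      have h5 : (v' : V) = v := hvv
      rw [h5, hμ i, ← sub_smul, smul_smul, pow_succ]
  have h6 := hSv n
  rw [hn] at h6
  have h7 : (0 : V) = (μ i - χ i) ^ n • v := by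
    have h5 : (v' : V) = v := hvv
    rw [← h5]
    exact h6
  exact (smul_ne_zero (pow_ne_zero n (sub_ne_zero.2 hne)) hv0) h7.symm

end eig

/-! ### The numerically trivial tensors killed by the central elements -/

variable {I Λ : Type} [Fintype I] [DecidableEq I] [DecidableEq Λ] {D : Dat I Λ}
  {At : (L : ℕ) → Ten I L → Prop}

/-- The hypothesis `(H)`: every subspace that is stable under the operators of the system and has
finitely many images under `Γ` is the image of a central idempotent. -/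
def Orbit (D : Dat I Λ) (At : (L : ℕ) → Ten I L → Prop) (Γ : Set (Matrix I I ℂ)) : Prop :=
  ∀ U : Submodule ℂ (I → ℂ),
    (∀ z, At 2 z → ∀ v ∈ U, (opM D z).mulVec v ∈ U) →
    {U' : Submodule ℂ (I → ℂ) | ∃ x ∈ Γ, U' = U.map (Matrix.toLin' x)}.Finite →
    ∃ e ∈ endS D At, e * e = e ∧ (∀ z, At 2 z → e * opM D z = opM D z * e) ∧
      U = LinearMap.range (Matrix.toLin' e)

/-- A numerically trivial tensor that is killed by the central elements of the Lie algebra is
zero. (helper30's proof of `kr_eq_zero`, for one tensor.) -/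
theorem kr_lie (S : ASys D At) (ho : ∀ i, D.odd (D.typ i)) (he : ∀ i j, D.typ i = D.typ j)
    (Γ : Set (Matrix I I ℂ)) (grp : ∀ x ∈ Γ, IsG D x)
    (gfix : ∀ x ∈ Γ, ∀ L u, At L u → gT x u = u) (orbit : Orbit D At Γ)
    (n : ℕ) (t : Ten I n) (ht : t ∈ Kr D At n)
    (lie : ∀ B, CenL D At B → aT B t = 0) : t = 0 := by
  classical
  obtain ⟨p, q, wt, hF, hst⟩ := exists_opt S ho n
  obtain ⟨e, e', g, G⟩ := exists_grad S ho he Γ grp gfix orbit hF.pq hst
  have hpq := hF.pq
  -- a basis of joint eigenvectors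
  let b := Module.Basis.ofSpan (span_je S ho G)
  have hb : ∀ κ, ∃ α β, JE D g (Finset.univ.image wt) α β (b κ) := fun κ =>
    Module.Basis.ofSpan_subset (span_je S ho G) ⟨κ, rfl⟩
  choose α β hJ using hb
  have hfin : Finite ((linearIndepOn_empty ℂ (id : (I → ℂ) → I → ℂ)).extend
      (Set.empty_subset {v | ∃ α β, JE D g (Finset.univ.image wt) α β v})) :=
    Module.Finite.finite_basis b
  -- the map `Ψ`
  let ψe : (I → ℂ) ≃ₗ[ℂ] (I → ℂ) :=
    { toFun := fun v => Psi D *ᵥ v
      map_add' := fun a b => Matrix.mulVec_add _ _ _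
      map_smul' := fun c a => Matrix.mulVec_smul _ _ _
      invFun := fun v => -(Psi D *ᵥ v)
      left_inv := fun v => by
        change -(Psi D *ᵥ (Psi D *ᵥ v)) = v
        rw [Matrix.mulVec_mulVec, Psi_mul_Psi ho, Matrix.neg_mulVec, Matrix.one_mulVec, neg_neg]
      right_inv := fun v => by
        change Psi D *ᵥ -(Psi D *ᵥ v) = v
        rw [Matrix.mulVec_neg, Matrix.mulVec_mulVec, Psi_mul_Psi ho, Matrix.neg_mulVec,
          Matrix.one_mulVec, neg_neg] }
  refine Pool.Agent.Lib.MP_54168f_ag.eq_zero_of_ev (b.map ψe) t fun κ => ?_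
  by_contra hne
  have hne' : Pool.Agent.Lib.MP_54168f_ag.ev (Ω := ℂ)
      (t : Pool.Agent.Lib.MP_54168f_ag.Tens I ℂ n) (fun a => Psi D *ᵥ b (κ a)) ≠ 0 := by
    intro h
    apply hne
    rw [← h]
    congr 1
  -- (1) the weight of `t`
  have h1 : 1 ≤ ∑ a, α (κ a) := by
    rw [ev_expand t hpq] at hne'
    obtain ⟨J, _, hJ0⟩ := Finset.exists_ne_zero_of_sum_ne_zero hne'
    have h2 := hF.tens t ht J (right_ne_zero_of_mul hJ0)
    refine h2.trans (Finset.sum_le_sum fun a _ => ?_)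
    by_contra hlt
    rw [not_le] at hlt
    refine left_ne_zero_of_mul hJ0 (Finset.prod_eq_zero (Finset.mem_univ a) ?_)
    have h3 : b (κ a) ∈ Up D q wt (fun r => α (κ a) < r) := by
      refine (G.up _ _).2 ?_
      rw [← (hJ (κ a)).ga, Matrix.mulVec_mulVec, G.eg]
    exact h3 (J a) hlt
  -- (2) `t` is killed by the central element
  have h2 : ∑ a, (α (κ a) - β (κ a)) = 0 := by
    have hB : aT (BB D g (Finset.univ.image wt)) t = 0 :=
      lie _ ⟨(BB_cen S ho G _).mem, BB_lie ho he _,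
        fun z hz => (BB_cen S ho G _).comm _ (Submodule.subset_span ⟨z, hz, rfl⟩)⟩
    have h3 := alg1.psiT_aT D (BB D g (Finset.univ.image wt)) t
      (fun w : Fin n → I => ∏ a, b (κ a) (w a)) (BB_lie ho he _)
    rw [hB, aT_simple (fun a => BB_je ho G (hJ (κ a)))] at h3
    have h4 : psiT D (0 : Ten I n) (fun w : Fin n → I => ∏ a, b (κ a) (w a)) = 0 := by
      rw [← Qps.psiL_apply, map_zero, LinearMap.zero_apply]
    rw [h4, ← Qps.psiL_apply, map_smul, Qps.psiL_apply, psi_simple, smul_eq_mul] at h3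
    have h5 : (∑ a, ((α (κ a) - β (κ a) : ℝ) : ℂ)) = 0 := by
      rcases mul_eq_zero.1 (neg_eq_zero.1 h3.symm) with h | h
      · exact h
      · exact absurd h hne'
    exact_mod_cast h5
  -- (3) the weights of the bivector
  have h3 : ∀ a, α (κ a) + β (κ a) ≤ -1 := fun a =>
    je_weight S ho he hF G (hJ (κ a)) (b.ne_zero _)
  have h4 : ∑ a, (α (κ a) + β (κ a)) ≤ 0 :=
    Finset.sum_nonpos fun a _ => (h3 a).trans (by norm_num)
  rw [Finset.sum_sub_distrib] at h2
  rw [Finset.sum_add_distrib] at h4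
  linarith

/-! ### Characters of the group of the central isometries -/

/-- The central isometries: the group `U`. -/
structure Cis (D : Dat I Λ) (At : (L : ℕ) → Ten I L → Prop) (M : Matrix I I ℂ) : Prop where
  mem : M ∈ endS D At
  grp : IsG D M
  comm : ∀ z, At 2 z → M * opM D z = opM D z * M

theorem Cis.comm' {M N : Matrix I I ℂ} (hM : Cis D At M) (hN : Cis D At N) : M * N = N * M :=
  (cen_of hM.mem hM.comm).comm N hN.mem

/-- central isometries preserve the complex spans -/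
theorem Cis.pres (S : ASys D At) (ho : ∀ i, D.odd (D.typ i)) (he : ∀ i j, D.typ i = D.typ j)
    {M : Matrix I I ℂ} (hM : Cis D At M) : Pres D At M := by
  refine pres_of_mem S ho he ?_ (mem_endS.1 hM.mem)
  have h := dag_mul_self hM.grp
  exact Matrix.isUnit_det_of_left_inverse h

/-- the action of a central isometry -/
noncomputable def act (n : ℕ) (M : Matrix I I ℂ) : Module.End ℂ (Ten I n) where
  toFun := gT M
  map_add' := alg1.gT_add M
  map_smul' := alg1.gT_smul M

theorem act_apply {n : ℕ} (M : Matrix I I ℂ) (u : Ten I n) : act n M u = gT M u := rfl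

/-- a tensor fixed by the central isometries is killed by the central elements of the Lie
algebra -/
theorem kill_of_fix (S : ASys D At) (ho : ∀ i, D.odd (D.typ i)) (he : ∀ i j, D.typ i = D.typ j)
    {L : ℕ} {u : Ten I L} (h : ∀ M, Cis D At M → gT M u = u) (B : Matrix I I ℂ)
    (hB : CenL D At B) : aT B u = 0 :=
  Z0.kill_of_sq alg1 S he ho (fun M h1 h2 h3 => by rw [h M ⟨h1, h2, h3⟩, h M ⟨h1, h2, h3⟩])
    hB.1 hB.2.1 hB.2.2

theorem outer_smul {n m : ℕ} (a b : ℂ) (u : Ten I n) (v : Ten I m) :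
    outer (a • u) (b • v) = (a * b) • outer u v := by
  funext w
  simp only [outer, Pi.smul_apply, smul_eq_mul]
  ring

theorem outer_eq_zero {n m : ℕ} {u : Ten I n} {v : Ten I m} (h : outer u v = 0) (hv : v ≠ 0) :
    u = 0 := by
  obtain ⟨b, hb⟩ := Function.ne_iff.1 hv
  funext a
  have h1 := congrFun h (Fin.append a b)
  simp only [outer, Fin.append_left, Fin.append_right] at h1
  exact (mul_eq_zero.1 h1).resolve_right hb

/-- **The zero-one law.** A numerically trivial tensor of type `χ` is zero if the type `χ⁻¹`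
occurs. -/
theorem kr_char (S : ASys D At) (ho : ∀ i, D.odd (D.typ i)) (he : ∀ i j, D.typ i = D.typ j)
    (Γ : Set (Matrix I I ℂ)) (grp : ∀ x ∈ Γ, IsG D x)
    (gfix : ∀ x ∈ Γ, ∀ L u, At L u → gT x u = u) (orbit : Orbit D At Γ)
    {n m : ℕ} {t : Ten I n} (ht : t ∈ Kr D At n) {s : Ten I m} (hs : s ∈ CA At m) (hs0 : s ≠ 0)
    {χ χ' : Matrix I I ℂ → ℂ} (h1 : ∀ M, Cis D At M → gT M t = χ M • t)
    (h2 : ∀ M, Cis D At M → gT M s = χ' M • s) (h3 : ∀ M, Cis D At M → χ M * χ' M = 1) :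
    t = 0 := by
  refine outer_eq_zero ?_ hs0
  refine kr_lie S ho he Γ grp gfix orbit (n + m) (outer t s)
    ((cl_A S ho).mul t s ht hs) (kill_of_fix S ho he fun M hM => ?_)
  rw [alg2.outer_gT, h1 M hM, h2 M hM, outer_smul, h3 M hM, one_smul]

/-- **Theorem D4 in coordinates.** -/
theorem nd_iff (S : ASys D At) (ho : ∀ i, D.odd (D.typ i)) (he : ∀ i j, D.typ i = D.typ j)
    (Γ : Set (Matrix I I ℂ)) (grp : ∀ x ∈ Γ, IsG D x)
    (gfix : ∀ x ∈ Γ, ∀ L u, At L u → gT x u = u) (orbit : Orbit D At Γ) :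
    (∀ n, ∀ t ∈ Kr D At n, t = 0) ↔
      ∀ (n : ℕ) (t : Ten I n) (χ : Matrix I I ℂ → ℂ), t ∈ CA At n → t ≠ 0 →
        (∀ M, Cis D At M → gT M t = χ M • t) →
        ∃ (m : ℕ) (s : Ten I m) (χ' : Matrix I I ℂ → ℂ), s ∈ CA At m ∧ s ≠ 0 ∧
          (∀ M, Cis D At M → gT M s = χ' M • s) ∧ ∀ M, Cis D At M → χ M * χ' M = 1 := by
  constructor
  · intro hnd n t χ ht ht0 hχ
    have hex : ∃ v ∈ CA At n, psiT D t v ≠ 0 := by
      by_contra hcon
      push Not at hcon
      exact ht0 (hnd n t ⟨ht, hcon⟩)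
    have hψ : ∀ M, Cis D At M → ∀ u v : Ten I n, psiT D (gT M u) (gT M v) = psiT D u v :=
      fun M hM u v => alg1.psiT_gT D M u v hM.grp
    have hχ0 : ∀ M, Cis D At M → χ M ≠ 0 := by
      intro M hM h0
      have h1 := hχ M hM
      rw [h0, zero_smul] at h1
      apply ht0
      have h2 := congrArg (gT (dag D M)) h1
      rw [← gT_mul, dag_mul_self hM.grp, AL1B.gT_one] at h2
      rw [h2]
      exact map_zero (act n (dag D M))
    obtain ⟨s, hs, hs0, hsχ⟩ := exists_eig_dual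
      (T := fun M : {M // Cis D At M} => act n M.1)
      (fun M N => by
        refine LinearMap.ext fun u => ?_
        rw [Module.End.mul_apply, Module.End.mul_apply, act_apply, act_apply, act_apply,
          act_apply, ← gT_mul, ← gT_mul, M.2.comm' N.2])
      (W := CA At n) (fun M w hw => (M.2.pres S ho he).mem n w hw)
      (Qps.psiL D n t) (by
        obtain ⟨v, hv, hv0⟩ := hex
        exact ⟨v, hv, hv0⟩) (fun M => (χ M.1)⁻¹) (fun M w hw => by
        change psiT D t (gT M.1 w) = (χ M.1)⁻¹ * psiT D t w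
        rw [← hψ M.1 M.2 t w, hχ M.1 M.2]
        have h1 : psiT D (χ M.1 • t) (gT M.1 w) = χ M.1 * psiT D t (gT M.1 w) := by
          rw [← Qps.psiL_apply, map_smul, LinearMap.smul_apply, Qps.psiL_apply, smul_eq_mul]
        rw [h1, ← mul_assoc, inv_mul_cancel₀ (hχ0 M.1 M.2), one_mul])
    exact ⟨n, s, fun M => (χ M)⁻¹, hs, hs0, fun M hM => hsχ ⟨M, hM⟩,
      fun M hM => mul_inv_cancel₀ (hχ0 M hM)⟩
  · intro hocc n
    by_contra hcon
    push Not at hcon
    obtain ⟨t0, ht0, hne⟩ := hcon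
    have hK : Kr D At n ≠ ⊥ := by
      intro h
      rw [h, Submodule.mem_bot] at ht0
      exact hne ht0
    obtain ⟨t, ht, ht1, χ, hχ⟩ := exists_eig
      (T := fun M : {M // Cis D At M} => act n M.1)
      (fun M N => by
        refine LinearMap.ext fun u => ?_
        rw [Module.End.mul_apply, Module.End.mul_apply, act_apply, act_apply, act_apply,
          act_apply, ← gT_mul, ← gT_mul, M.2.comm' N.2])
      hK (fun M w hw => (M.2.pres S ho he).kr ho hw)
    classical
    let χ1 : Matrix I I ℂ → ℂ := fun M => if h : Cis D At M then χ ⟨M, h⟩ else 0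
    have hχ1 : ∀ M, Cis D At M → gT M t = χ1 M • t := fun M hM => by
      have h1 := hχ ⟨M, hM⟩
      rw [act_apply] at h1
      rw [h1]
      simp only [χ1]
      rw [dif_pos hM]
    obtain ⟨m, s, χ', hs, hs0, hs1, hs2⟩ := hocc n t χ1 ht.1 ht1 hχ1
    exact ht1 (kr_char S ho he Γ grp gfix orbit ht hs hs0 hχ1 hs1 hs2)

end Pool.Agent.Lib.MP_361a6f_ag.FL.E.D4
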