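import Pool.Agent.Lib.MP_361a6f_ag.FL.E.StatR
import Pool.Agent.Lib.MP_361a6f_ag.FL.E.D4

/-!
# Theorem D4 on cohomology: the argument for a commuting family of operators (helper9)
-/

open CategoryTheory AlgebraicGeometry MonoidalCategory CartesianMonoidalCategory

universe u v w w'

set_option autoImplicit false
set_option linter.unusedSectionVars false

namespace Pool.Agent.Lib.MP_361a6f_ag.FL.E.D4

open Pool.Agent.Lib.MP_361a6f_ag.H3 Pool.Agent.Lib.MP_361a6f_ag.SQ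

section span

variable {k : Type u} [Field k] {W : CohomologyData.{u, 0, w} k ℂ} {𝒱 : VarietyClass k}
  (hW : IsWeilCohomology W 𝒱)

/-- the complex span of all algebraic classes -/
def St (W : CohomologyData.{u, 0, w} k ℂ) (Y : Sch k) : Submodule ℂ (W.coh Y) :=
  Submodule.span ℂ {z | z ∈ tot W Y}

include hW

theorem sp_le (Y : Sch k) (j : ℕ) : EQ.CAlg W Y j ≤ St W Y :=
  Submodule.span_mono fun _ hz => alg_le_tot hW Y j hz

theorem st_ind {Y : Sch k} {p : W.coh Y → Prop} {x : W.coh Y} (hx : x ∈ St W Y)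
    (h : ∀ z ∈ tot W Y, p z) (h0 : p 0) (ha : ∀ x y, p x → p y → p (x + y))
    (hs : ∀ (c : ℂ) x, p x → p (c • x)) : p x := by
  unfold St at hx
  induction hx using Submodule.span_induction with
  | mem z hz => exact h z hz
  | zero => exact h0
  | add a b _ _ iha ihb => exact ha a b iha ihb
  | smul c a _ iha => exact hs c a iha

theorem st_comm {Y : Sch k} {d : ℕ} (hY : 𝒱.mem Y d) {x : W.coh Y} (hx : x ∈ St W Y)
    (y : W.coh Y) : x * y = y * x :=
  st_ind hW (p := fun x => x * y = y * x) hx (fun z hz => tot_comm hW hY hz y)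
    (by rw [zero_mul, mul_zero])
    (fun a b ha hb => by rw [add_mul, mul_add, ha, hb])
    (fun c a ha => by rw [smul_mul_assoc, mul_smul_comm, ha])

theorem st_pull {Y Z : Sch k} {d e : ℕ} (hY : 𝒱.mem Y d) (hZ : 𝒱.mem Z e) (f : Y ⟶ Z)
    {x : W.coh Z} (hx : x ∈ St W Z) : W.pull f x ∈ St W Y :=
  st_ind hW (p := fun x => W.pull f x ∈ St W Y) hx
    (fun z hz => Submodule.subset_span (tot_pull hW hY hZ f hz))
    (by rw [map_zero]; exact zero_mem _)
    (fun a b ha hb => by rw [map_add]; exact add_mem ha hb)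
    (fun c a ha => by rw [map_smul]; exact Submodule.smul_mem _ _ ha)

theorem st_push {Y Z : Sch k} {d e : ℕ} (hY : 𝒱.mem Y d) (hZ : 𝒱.mem Z e) (f : Y ⟶ Z)
    {x : W.coh Y} (hx : x ∈ St W Y) : W.push f x ∈ St W Z :=
  st_ind hW (p := fun x => W.push f x ∈ St W Z) hx
    (fun z hz => Submodule.subset_span (tot_push hW hY hZ f hz))
    (by rw [map_zero]; exact zero_mem _)
    (fun a b ha hb => by rw [map_add]; exact add_mem ha hb)
    (fun c a ha => by rw [map_smul]; exact Submodule.smul_mem _ _ ha)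

theorem st_mul {Y : Sch k} {d : ℕ} (hY : 𝒱.mem Y d) {x y : W.coh Y} (hx : x ∈ St W Y)
    (hy : y ∈ St W Y) : x * y ∈ St W Y :=
  st_ind hW (p := fun x => x * y ∈ St W Y) hx
    (fun z hz => st_ind hW (p := fun y => z * y ∈ St W Y) hy
      (fun z' hz' => Submodule.subset_span (tot_mul hW hY hz hz'))
      (by rw [mul_zero]; exact zero_mem _)
      (fun a b ha hb => by rw [mul_add]; exact add_mem ha hb)
      (fun c a ha => by rw [mul_smul_comm]; exact Submodule.smul_mem _ _ ha))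
    (by rw [zero_mul]; exact zero_mem _)
    (fun a b ha hb => by rw [add_mul]; exact add_mem ha hb)
    (fun c a ha => by rw [smul_mul_assoc]; exact Submodule.smul_mem _ _ ha)

/-- a numerically trivial class is orthogonal to the whole span -/
theorem num_st {Y : Sch k} {x : W.coh Y} (h : EQ.NumTriv W (Y := Y) x) {y : W.coh Y}
    (hy : y ∈ St W Y) : W.tr Y (x * y) = 0 := by
  refine st_ind hW (p := fun y => W.tr Y (x * y) = 0) hy (fun z hz => ?_)
    (by rw [mul_zero, map_zero])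
    (fun a b ha hb => by rw [mul_add, map_add, ha, hb, add_zero])
    (fun c a ha => by rw [mul_smul_comm, map_smul, ha, smul_zero])
  refine tot_induction (P := fun z => W.tr Y (x * z) = 0) hW hz (fun l z hz => h l z hz) ?_
  intro a b ha hb
  rw [mul_add, map_add, ha, hb, add_zero]

/-- exterior products of combinations of algebraic classes -/
theorem ext_sp {Y Z : Sch k} {d e : ℕ} (hY : 𝒱.mem Y d) (hZ : 𝒱.mem Z e) {i j : ℕ}
    {x : W.coh Y} (hx : x ∈ EQ.CAlg W Y i) {y : W.coh Z} (hy : y ∈ EQ.CAlg W Z j) :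
    W.ext x y ∈ EQ.CAlg W (Y.prod Z) (i + j) := by
  unfold EQ.CAlg at hx hy
  induction hx using Submodule.span_induction with
  | mem z hz =>
    induction hy using Submodule.span_induction with
    | mem z' hz' =>
      exact Submodule.subset_span (hW.cycles.mul (𝒱.prod hY hZ)
        (hW.cycles.pull (𝒱.prod hY hZ) hY (Y.pr₁ Z) hz)
        (hW.cycles.pull (𝒱.prod hY hZ) hZ (Y.pr₂ Z) hz'))
    | zero =>
      change W.pull (Y.pr₁ Z) z * W.pull (Y.pr₂ Z) 0 ∈ _
      rw [map_zero, mul_zero]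
      exact zero_mem _
    | add a b _ _ ha hb =>
      change W.pull (Y.pr₁ Z) z * W.pull (Y.pr₂ Z) (a + b) ∈ _
      rw [map_add, mul_add]
      exact add_mem ha hb
    | smul c a _ ha =>
      change W.pull (Y.pr₁ Z) z * W.pull (Y.pr₂ Z) (c • a) ∈ _
      rw [map_smul, mul_smul_comm]
      exact Submodule.smul_mem _ _ ha
  | zero =>
    change W.pull (Y.pr₁ Z) 0 * W.pull (Y.pr₂ Z) y ∈ _
    rw [map_zero, zero_mul]
    exact zero_mem _
  | add a b _ _ ha hb =>
    change W.pull (Y.pr₁ Z) (a + b) * W.pull (Y.pr₂ Z) y ∈ _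
    rw [map_add, add_mul]
    exact add_mem ha hb
  | smul c a _ ha =>
    change W.pull (Y.pr₁ Z) (c • a) * W.pull (Y.pr₂ Z) y ∈ _
    rw [map_smul, smul_mul_assoc]
    exact Submodule.smul_mem _ _ ha

/-- the exterior product with a numerically trivial class is numerically trivial -/
theorem num_ext {Y Z : Sch k} {d e : ℕ} (hY : 𝒱.mem Y d) (hZ : 𝒱.mem Z e)
    {x : W.coh Y} (hx : x ∈ St W Y) (h : EQ.NumTriv W (Y := Y) x) {y : W.coh Z} (hy : y ∈ St W Z) :
    EQ.NumTriv W (Y := Y.prod Z) (W.ext x y) := by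
  intro l v hv
  change W.tr _ (W.pull (Y.pr₁ Z) x * W.pull (Y.pr₂ Z) y * v) = 0
  have hYZ := 𝒱.prod hY hZ
  have hv' : v ∈ St W (Y.prod Z) := Submodule.subset_span (alg_le_tot hW _ l hv)
  have h1 : W.pull (Y.pr₁ Z) x ∈ St W (Y.prod Z) := st_pull hW hYZ hY _ hx
  have h2 : W.pull (Y.pr₂ Z) y * v ∈ St W (Y.prod Z) :=
    st_mul hW hYZ (st_pull hW hYZ hZ _ hy) hv'
  rw [mul_assoc, st_comm hW hYZ h1, ← hW.push_adj hYZ hY]
  have h3 := st_push hW hYZ hY (Y.pr₁ Z) h2
  rw [st_comm hW hY h3]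
  exact num_st hW h h3

omit hW in
theorem ext_smul (Y Z : Sch k) (a b : ℂ) (x : W.coh Y) (y : W.coh Z) :
    W.ext (a • x) (b • y) = (a * b) • W.ext x y := by
  change W.pull (Y.pr₁ Z) (a • x) * W.pull (Y.pr₂ Z) (b • y) =
    (a * b) • (W.pull (Y.pr₁ Z) x * W.pull (Y.pr₂ Z) y)
  rw [map_smul, map_smul, smul_mul_assoc, mul_smul_comm, smul_smul]

/-- the exterior product of nonzero classes is nonzero -/
theorem ext_ne {Y Z : Sch k} {d e : ℕ} (hY : 𝒱.mem Y d) (hZ : 𝒱.mem Z e)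
    {x : W.coh Y} {y : W.coh Z} (hy : y ∈ St W Z) (hy0 : y ≠ 0) (h : W.ext x y = 0) : x = 0 := by
  obtain ⟨b, hb⟩ : ∃ b, W.tr Z (y * b) ≠ 0 := by
    by_contra hcon
    push Not at hcon
    exact hy0 (hW.duality hZ y hcon)
  refine hW.duality hY x fun a => ?_
  have hYZ := 𝒱.prod hY hZ
  have h1 : W.pull (Y.pr₂ Z) y ∈ St W (Y.prod Z) := st_pull hW hYZ hZ _ hy
  have h2 : W.ext x y * W.ext a b = W.ext (x * a) (y * b) := by
    change W.pull (Y.pr₁ Z) x * W.pull (Y.pr₂ Z) y *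
        (W.pull (Y.pr₁ Z) a * W.pull (Y.pr₂ Z) b) =
      W.pull (Y.pr₁ Z) (x * a) * W.pull (Y.pr₂ Z) (y * b)
    rw [map_mul, map_mul, mul_assoc, mul_assoc, ← mul_assoc (W.pull (Y.pr₂ Z) y)
      (W.pull (Y.pr₁ Z) a), st_comm hW hYZ h1, mul_assoc]
  have h3 := hW.kunneth_tr hY hZ (x * a) (y * b)
  have h4 : W.tr (Y ⊗ Z) (W.ext (x * a) (y * b)) = 0 := by
    rw [← h2, h, zero_mul, map_zero]
  have h5 : W.tr Y (x * a) * W.tr Z (y * b) = 0 := h3.symm.trans h4
  exact (mul_eq_zero.1 h5).resolve_right hb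

end span

/-! ### A commuting family of operators -/

section fam

variable {k : Type u} [Field k] {W : CohomologyData.{u, 0, w} k ℂ} {𝒱 : VarietyClass k}
  {X : Fin 1 → Sch k} {d : Prd 1 → ℕ} {ι : Type*}

/-- The properties of the central isometries that are used. -/
structure Good (W : CohomologyData.{u, 0, w} k ℂ) (X : Fin 1 → Sch k)
    (T : ι → ∀ P : Prd 1, W.coh (P.obj X) →ₗ[ℂ] W.coh (P.obj X)) : Prop where
  comm : ∀ (i j : ι) (P : Prd 1) (z : W.coh (P.obj X)), T i P (T j P z) = T j P (T i P z)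
  pres : ∀ (i : ι) (P : Prd 1) (j : ℕ) (z : W.coh (P.obj X)), z ∈ EQ.CAlg W (P.obj X) j →
    T i P z ∈ EQ.CAlg W (P.obj X) j
  tr : ∀ (i : ι) (P : Prd 1) (x y : W.coh (P.obj X)),
    W.tr (P.obj X) (T i P x * T i P y) = W.tr (P.obj X) (x * y)
  ext : ∀ (i : ι) (P Q : Prd 1) (y : W.coh (P.obj X)) (x : W.coh (Q.obj X)),
    T i (.prod P Q) (W.ext y x) = W.ext (T i P y) (T i Q x)
  nd : ∀ (P : Prd 1) (j : ℕ) (z : W.coh (P.obj X)), z ∈ EQ.CAlg W (P.obj X) j →
    (∀ i, T i P z = z) → EQ.NumTriv W (Y := P.obj X) z → z = 0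

/-- the type `χ` occurs -/
def Occ (W : CohomologyData.{u, 0, w} k ℂ) (X : Fin 1 → Sch k)
    (T : ι → ∀ P : Prd 1, W.coh (P.obj X) →ₗ[ℂ] W.coh (P.obj X)) (χ : ι → ℂ) : Prop :=
  ∃ (P : Prd 1) (j : ℕ), ∃ z ∈ EQ.CAlg W (P.obj X) j, z ≠ 0 ∧ ∀ i, T i P z = χ i • z

variable (hW : IsWeilCohomology W 𝒱) (mem : ∀ P, 𝒱.mem (P.obj X) (d P))
  {T : ι → ∀ P : Prd 1, W.coh (P.obj X) →ₗ[ℂ] W.coh (P.obj X)} (G : Good W X T)

include hW mem G

theorem Good.inj (i : ι) (P : Prd 1) {z : W.coh (P.obj X)} (h : T i P z = 0) : z = 0 := by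
  refine hW.duality (mem P) z fun y => ?_
  rw [← G.tr i P z y, h, zero_mul, map_zero]

theorem Good.ne_zero {χ : ι → ℂ} {P : Prd 1} {z : W.coh (P.obj X)} (hz : z ≠ 0)
    (h : ∀ i, T i P z = χ i • z) (i : ι) : χ i ≠ 0 := by
  intro h0
  refine hz (G.inj hW mem i P ?_)
  rw [h, h0, zero_smul]

theorem Good.surj (i : ι) (P : Prd 1) (j : ℕ) {y : W.coh (P.obj X)}
    (hy : y ∈ EQ.CAlg W (P.obj X) j) : ∃ x ∈ EQ.CAlg W (P.obj X) j, T i P x = y := by
  have hfin : Module.Finite ℂ (W.coh (P.obj X)) := hW.finite (mem P)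
  have h1 : Function.Injective ((T i P).restrict (fun z hz => G.pres i P j z hz)) := by
    rw [injective_iff_map_eq_zero]
    intro z hz
    exact Subtype.ext (G.inj hW mem i P (congrArg Subtype.val hz))
  obtain ⟨x, hx⟩ := LinearMap.surjective_of_injective h1 ⟨y, hy⟩
  exact ⟨x, x.2, congrArg Subtype.val hx⟩

/-- the numerically trivial classes are stable -/
theorem Good.num (i : ι) (P : Prd 1) {z : W.coh (P.obj X)}
    (hz : EQ.NumTriv W (Y := P.obj X) z) : EQ.NumTriv W (Y := P.obj X) (T i P z) := by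
  intro l y hy
  obtain ⟨y', hy', rfl⟩ := G.surj hW mem i P l (Submodule.subset_span hy)
  change W.tr _ (T i P z * T i P y') = 0
  rw [G.tr]
  exact num_st hW hz (sp_le hW _ l hy')

/-- **The zero-one law.** -/
theorem Good.zero_one {χ : ι → ℂ} {P : Prd 1} {j : ℕ} {z : W.coh (P.obj X)}
    (hz : z ∈ EQ.CAlg W (P.obj X) j) (hz0 : z ≠ 0) (h : ∀ i, T i P z = χ i • z) :
    EQ.NumTriv W (Y := P.obj X) z ↔ ¬ Occ W X T fun i => (χ i)⁻¹ := by
  constructor
  · rintro hn ⟨Q, l, z', hz', hz'0, h'⟩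
    have h1 : W.ext z z' ∈ EQ.CAlg W ((Prd.prod P Q).obj X) (j + l) :=
      ext_sp hW (mem P) (mem Q) hz hz'
    have h2 : EQ.NumTriv W (Y := (Prd.prod P Q).obj X) (W.ext z z') :=
      num_ext hW (mem P) (mem Q) (sp_le hW _ j hz) hn (sp_le hW _ l hz')
    have h3 : W.ext z z' = 0 := by
      refine G.nd (.prod P Q) (j + l) _ h1 (fun i => ?_) h2
      rw [G.ext, h, h']
      refine (ext_smul (P.obj X) (Q.obj X) (χ i) (χ i)⁻¹ z z').trans ?_
      rw [mul_inv_cancel₀ (G.ne_zero hW mem hz0 h i), one_smul]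
    exact hz0 (ext_ne hW (mem P) (mem Q) (sp_le hW _ l hz') hz'0 h3)
  · intro hocc
    by_contra hn
    apply hocc
    unfold EQ.NumTriv at hn
    push Not at hn
    obtain ⟨l, y, hy, hne⟩ := hn
    have hfin : Module.Finite ℂ (W.coh (P.obj X)) := hW.finite (mem P)
    let f : W.coh (P.obj X) →ₗ[ℂ] ℂ :=
      W.tr (P.obj X) ∘ₗ LinearMap.mulLeft ℂ z
    have hf : ∀ w, f w = W.tr (P.obj X) (z * w) := fun w => rfl
    obtain ⟨v, hv, hv0, hvT⟩ := exists_eig_dual (T := fun i => T i P)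
      (fun i i' => LinearMap.ext fun w => G.comm i i' P w) (W := EQ.CAlg W (P.obj X) l)
      (fun i w hw => G.pres i P l w hw) f ⟨y, Submodule.subset_span hy, hne⟩
      (fun i => (χ i)⁻¹) (fun i w _ => by
        rw [hf, hf, ← G.tr i P z w, h, smul_mul_assoc, map_smul, smul_eq_mul, ← mul_assoc,
          inv_mul_cancel₀ (G.ne_zero hW mem hz0 h i), one_mul])
    exact ⟨P, l, v, hv, hv0, hvT⟩

/-- **The criterion.** -/
theorem Good.iff : (∀ P : Prd 1, EQ.NumHom W (P.obj X)) ↔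
    ∀ χ, Occ W X T χ → Occ W X T fun i => (χ i)⁻¹ := by
  constructor
  · rintro hn χ ⟨P, j, z, hz, hz0, h⟩
    by_contra hcon
    exact hz0 (hn P j z hz ((G.zero_one hW mem hz hz0 h).2 hcon))
  · intro hocc P j x hx hn
    by_contra hx0
    have hfin : Module.Finite ℂ (W.coh (P.obj X)) := hW.finite (mem P)
    let K : Submodule ℂ (W.coh (P.obj X)) :=
      { carrier := {z | z ∈ EQ.CAlg W (P.obj X) j ∧ EQ.NumTriv W (Y := P.obj X) z}
        add_mem' := fun {a b} ha hb => ⟨add_mem ha.1 hb.1, fun l y hy => by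
          change W.tr _ ((a + b) * y) = 0
          have h1 : W.tr _ (a * y) = 0 := ha.2 l y hy
          have h2 : W.tr _ (b * y) = 0 := hb.2 l y hy
          rw [add_mul, map_add, h1, h2, add_zero]⟩
        zero_mem' := ⟨zero_mem _, fun l y _ => by
          change W.tr _ (0 * y) = 0
          rw [zero_mul, map_zero]⟩
        smul_mem' := fun c a ha => ⟨Submodule.smul_mem _ c ha.1, fun l y hy => by
          change W.tr _ (c • a * y) = 0
          have h1 : W.tr _ (a * y) = 0 := ha.2 l y hy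
          rw [smul_mul_assoc, map_smul, h1, smul_zero]⟩ }
    have hK : K ≠ ⊥ := fun h => hx0 (by
      have : x ∈ K := ⟨hx, hn⟩
      rwa [h, Submodule.mem_bot] at this)
    obtain ⟨z, hz, hz0, χ, hχ⟩ := exists_eig (T := fun i => T i P)
      (fun i i' => LinearMap.ext fun w => G.comm i i' P w) hK
      (fun i w hw => ⟨G.pres i P j w hw.1, G.num hW mem i P hw.2⟩)
    exact (G.zero_one hW mem hz.1 hz0 hχ).1 hz.2 (hocc χ ⟨P, j, z, hz.1, hz0, hχ⟩)

end fam

end Pool.Agent.Lib.MP_361a6f_ag.FL.E.D4
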