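import Pool.Agent.Lib.MP_361a6f_ag.FL.E.StatG

/-!
# Numerical and homological equivalence and the central isometries: definitions
-/

open CategoryTheory AlgebraicGeometry MonoidalCategory CartesianMonoidalCategory

universe u w

namespace Pool.Agent.Lib.MP_361a6f_ag.FL.EQ

open Pool.Agent.Lib.MP_361a6f_ag.H3 Pool.Agent.Lib.MP_361a6f_ag.SQ

variable {k : Type u} [Field k]

/-- The hypotheses on `X`. It is an abelian variety (a unital law and `H^0(X) = ℂ` are enough), `ξ`
is a divisor class of positive degree, and every stable subspace of `H^1(X)` is the image of a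
central idempotent of the algebra of the endomorphisms (the theorems of Faltings and Zarhin). -/
structure Hyp0 (W : CohomologyData.{u, 0, w} k ℂ) (𝒱 : VarietyClass k) (X : Sch k) (g : ℕ)
    (ξ : W.coh X) : Prop where
  mem : 𝒱.mem X g
  conn : ∀ x, W.Deg X 0 x → ∃ c, x = W.scal c 1
  unital : Unital X
  div : PositiveDivisor W X g ξ
  isotypic : Isotypic W X g

/-- The complex combinations of algebraic classes of codimension `j` on `Y`. -/
def CAlg (W : CohomologyData.{u, 0, w} k ℂ) (Y : Sch k) (j : ℕ) : Submodule ℂ (W.coh Y) :=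
  Submodule.span ℂ {z | W.IsAlg Y j z}

/-- `x` is numerically trivial: all intersection numbers with algebraic classes vanish. -/
def NumTriv (W : CohomologyData.{u, 0, w} k ℂ) {Y : Sch k} (x : W.coh Y) : Prop :=
  ∀ l y, W.IsAlg Y l y → W.Tr (W.cup x y) = 0

/-- `T` fixes all algebraic classes on all powers of `X` up to numerical equivalence. -/
def FixesNum (W : CohomologyData.{u, 0, w} k ℂ) (X : Sch k)
    (T : ∀ P : Prd 1, W.coh (pw X P) → W.coh (pw X P)) : Prop :=
  ∀ P l z, W.IsAlg (pw X P) l z → NumTriv W (T P z - z)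

/-- Every algebraic class on every power of `X` is fixed by some power of `T`. -/
def Periodic (W : CohomologyData.{u, 0, w} k ℂ) (X : Sch k)
    (T : ∀ P : Prd 1, W.coh (pw X P) → W.coh (pw X P)) : Prop :=
  ∀ P l z, W.IsAlg (pw X P) l z → ∃ N : ℕ, 0 < N ∧ (T P)^[N] z = z

/-- `x` is an eigenvector, with the eigenvalues `χ T`, of all central isometries `T` of the powers
of `X`. -/
def HasChar (W : CohomologyData.{u, 0, w} k ℂ) (X : Sch k) (n : ℕ) (ξ : W.coh X)
    (χ : (∀ P : Prd 1, W.coh (pw X P) → W.coh (pw X P)) → ℂ) (P : Prd 1) (x : W.coh (pw X P)) :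
    Prop :=
  ∀ T, IsCentral W X n ξ T → T P x = W.scal (χ T) x

/-- The character `χ` occurs in the complex combinations of algebraic classes on some power of
`X`. -/
def Occurs (W : CohomologyData.{u, 0, w} k ℂ) (X : Sch k) (n : ℕ) (ξ : W.coh X)
    (χ : (∀ P : Prd 1, W.coh (pw X P) → W.coh (pw X P)) → ℂ) : Prop :=
  ∃ (P : Prd 1) (j : ℕ), ∃ x ∈ CAlg W (pw X P) j, x ≠ 0 ∧ HasChar W X n ξ χ P x

end Pool.Agent.Lib.MP_361a6f_ag.FL.EQ

namespace Pool.Agent.Lib.MP_361a6f_ag.FL

open Pool.Agent.Lib.MP_361a6f_ag.H3 Pool.Agent.Lib.MP_361a6f_ag.SQ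

/-- **The zero-one law for the characters of the central isometries.** Let `X` be an abelian
variety and `χ` a character of the group of the central isometries. If the inverse of `χ` occurs in
the complex span of the algebraic classes on the powers of `X` then no complex combination `x ≠ 0`
of algebraic classes on which the central isometries act by `χ` is numerically trivial, and
otherwise all of them are numerically trivial.

Therefore the following are equivalent:

* numerical equivalence is homological equivalence on all powers of `X`;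
* with each character that occurs the inverse character occurs;
* every central isometry that fixes all algebraic classes numerically has, for every algebraic
  class, a power that fixes it. -/
def ThmRGeoStatement : Prop :=
  ∀ {k : Type u} [Field k] (W : CohomologyData.{u, 0, w} k ℂ) (𝒱 : VarietyClass k)
    (_ : IsWeilCohomology W 𝒱) {X : Sch k} {g : ℕ} {ξ : W.coh X} (_ : EQ.Hyp0 W 𝒱 X g ξ),
    (∀ χ (P : Prd 1) (j : ℕ), ∀ x ∈ EQ.CAlg W (EQ.pw X P) j, x ≠ 0 →
      EQ.HasChar W X g ξ χ P x →
      (EQ.NumTriv W x ↔ ¬ EQ.Occurs W X g ξ fun T => (χ T)⁻¹)) ∧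
    ((∀ P, EQ.NumHom W (EQ.pw X P)) ↔
      ∀ χ, EQ.Occurs W X g ξ χ → EQ.Occurs W X g ξ fun T => (χ T)⁻¹) ∧
    ((∀ P, EQ.NumHom W (EQ.pw X P)) ↔
      ∀ T, EQ.IsCentral W X g ξ T → EQ.FixesNum W X T → EQ.Periodic W X T)

end Pool.Agent.Lib.MP_361a6f_ag.FL
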