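import Pool.Agent.Lib.MP_361a6f_ag.FL.E.CenL
import Pool.Agent.Lib.MP_361a6f_ag.FL.E.SymM
import Pool.Agent.Lib.MP_361a6f_ag.FL.E.StatR

/-!
# Central isometries and matrices, for one variety

The host of `X` alone, under the hypotheses `EQ.Hyp0`. A central isometry of the coordinate space
`H^1(X)` gives a central isometry of the powers of `X`, and each central isometry of the powers of
`X` comes from exactly such a matrix. The matrices of the symmetries and the stable subspaces.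
-/

open CategoryTheory AlgebraicGeometry MonoidalCategory CartesianMonoidalCategory

universe u w

set_option autoImplicit false
set_option linter.unusedSectionVars false

namespace Pool.Agent.Lib.MP_361a6f_ag.FL.E

open Pool.Agent.Lib.MP_361a6f_ag.H3 Pool.Agent.Lib.MP_361a6f_ag.SQ
  Pool.Agent.Lib.MP_361a6f_ag.PP

namespace RotG

noncomputable section

variable {k : Type u} [Field k] {W : CohomologyData.{u, 0, w} k ℂ} {𝒱 : VarietyClass k}
  (hW : IsWeilCohomology W 𝒱) {X : Sch k} {g : ℕ} {ξ : W.coh X}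

/-! ### The host -/

include hW in
/-- `H^*(X)` is generated by `H^1(X)`, of dimension `2 g` -/
theorem abT (h : EQ.Hyp0 W 𝒱 X g ξ) : AbelianType W X g :=
  abelianType_of_unital hW h.mem h.conn h.unital h.div

include hW in
/-- the adapted basis exists -/
theorem exists_core0 (h : EQ.Hyp0 W 𝒱 X g ξ) : Nonempty (Hst.Core W X g ξ) := by
  obtain ⟨h1, h2, -⟩ := unital hW h.mem h.conn h.unital h.div
  exact Hst.exists_core hW h.mem h.div.1 h1 h2

variable (h : EQ.Hyp0 W 𝒱 X g ξ) (c : Hst.Core W X g ξ)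

/-- the host of `X` -/
abbrev hst0 : Host W 𝒱 1 := c.host hW h.mem h.div.1

/-! ### From a matrix to the powers of `X` -/

/-- the family of a central isometry of the coordinate space -/
theorem isCentral_of {M : Matrix (Sub c.D (0, 1)) (Sub c.D (0, 1)) ℂ}
    {C : ∀ P : Prd 1, W.coh (P.obj (hst0 hW h c).X) →ₗ[ℂ] W.coh (P.obj (hst0 hW h c).X)}
    (S : EndM.LSys (hst0 hW h c) (EndC.mex c.D (0, 1) M) C)
    (hM : M ∈ endS (subD c.D (0, 1)) (At1 (hst0 hW h c)))
    (hc : ∀ z, At1 (hst0 hW h c) 2 z →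
      M * opM (subD c.D (0, 1)) z = opM (subD c.D (0, 1)) z * M) :
    EQ.IsCentral W X g ξ fun P => C P where
  tensor := ⟨fun P x y => map_add (C P) x y, fun P r x => map_smul (C P) r x, S.prod⟩
  one := S.one (.leaf 0)
  cup := S.mul (.leaf 0)
  deg := fun i x hx => S.gr (.leaf 0) i x hx
  comm := fun _ hz _ hx => CenT.lsys_comm (hst0 hW h c) S hc hz hx
  alg := CenT.lsys_alg (hst0 hW h c) S hM
  form := fun _ _ hx hy =>
    CenT.lsys_form (hst0 hW h c) h.div S (f := C (.leaf 0)) rfl hx hy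

/-- a matrix in the group gives a family -/
theorem exists_fam {M : Matrix (Sub c.D (0, 1)) (Sub c.D (0, 1)) ℂ}
    (hG : IsG (subD c.D (0, 1)) M) :
    ∃ C : ∀ P : Prd 1, W.coh (P.obj (hst0 hW h c).X) →ₗ[ℂ] W.coh (P.obj (hst0 hW h c).X),
      EndM.LSys (hst0 hW h c) (EndC.mex c.D (0, 1) M) C :=
  EndM.exists_lin (hst0 hW h c) (fun _ => abT hW h) (fun _ => h.div) (EndC.isG_mex M hG)

/-- **A central isometry of the coordinate space comes from a central isometry of the powers of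
`X`.** -/
theorem exists_central {M : Matrix (Sub c.D (0, 1)) (Sub c.D (0, 1)) ℂ}
    (hM : M ∈ endS (subD c.D (0, 1)) (At1 (hst0 hW h c))) (hG : IsG (subD c.D (0, 1)) M)
    (hc : ∀ z, At1 (hst0 hW h c) 2 z →
      M * opM (subD c.D (0, 1)) z = opM (subD c.D (0, 1)) z * M) :
    ∃ C : ∀ P : Prd 1, W.coh (P.obj (hst0 hW h c).X) →ₗ[ℂ] W.coh (P.obj (hst0 hW h c).X),
      EndM.LSys (hst0 hW h c) (EndC.mex c.D (0, 1) M) C ∧
      EQ.IsCentral W X g ξ (fun P => C P) ∧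
      (∀ P z, EndM.cut1 (hst0 hW h c) ((hst0 hW h c).tc P (C P z)) =
        gT M (EndM.cut1 (hst0 hW h c) ((hst0 hW h c).tc P z))) ∧
      ∀ v, (C (.leaf 0) (vec1 (hst0 hW h c) v) : W.coh X)
        = vec1 (hst0 hW h c) (M.mulVec v) := by
  obtain ⟨C, S⟩ := exists_fam hW h c hG
  exact ⟨C, S, isCentral_of hW h c S hM hc,
    fun P z => CenT.lsys_cut1 (hst0 hW h c) S hG P z, CenT.lsys_vec1 (hst0 hW h c) S⟩

/-! ### From the powers of `X` to a matrix -/

/-- the matrix of a central isometry -/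
theorem exists_mat {T : ∀ P : Prd 1, W.coh (EQ.pw X P) → W.coh (EQ.pw X P)}
    (hT : EQ.IsCentral W X g ξ T) :
    ∃ M ∈ endS (subD c.D (0, 1)) (At1 (hst0 hW h c)), IsG (subD c.D (0, 1)) M ∧
      (∀ z, At1 (hst0 hW h c) 2 z →
        M * opM (subD c.D (0, 1)) z = opM (subD c.D (0, 1)) z * M) ∧
      ∀ v, (T (.leaf 0) (vec1 (hst0 hW h c) v) : W.coh X)
        = vec1 (hst0 hW h c) (M.mulVec v) :=
  CenL.exists_mat_host (hst0 hW h c) h.div (symLin hT.tensor (.leaf 0))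
    (fun x hx => hT.deg 1 x hx) hT.comm hT.alg (fun x hx y hy => hT.form x y hx hy)

/-- a family with the values of `T` on `H^1` is `T` -/
theorem eq_of_vec1 {T : ∀ P : Prd 1, W.coh (EQ.pw X P) → W.coh (EQ.pw X P)}
    (hT : EQ.IsCentral W X g ξ T) {M : Matrix (Sub c.D (0, 1)) (Sub c.D (0, 1)) ℂ}
    (hv : ∀ v, (T (.leaf 0) (vec1 (hst0 hW h c) v) : W.coh X)
        = vec1 (hst0 hW h c) (M.mulVec v))
    {C : ∀ P : Prd 1, W.coh (P.obj (hst0 hW h c).X) →ₗ[ℂ] W.coh (P.obj (hst0 hW h c).X)}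
    (S : EndM.LSys (hst0 hW h c) (EndC.mex c.D (0, 1) M) C) (P : Prd 1)
    (z : W.coh (EQ.pw X P)) : T P z = C P z := by
  refine CenL.ext_fam hW (X := fun _ => X) (n := fun _ => g) (hst0 hW h c).memP (abT hW h)
    (symLin hT.tensor) C hT.tensor.ext
    S.prod hT.one (S.one (.leaf 0)) hT.cup (S.mul (.leaf 0)) (fun x hx => ?_) P z
  have h1 : vec1 (hst0 hW h c) (crd1 (hst0 hW h c) x) = x := vec1_crd1 (hst0 hW h c) hx
  rw [← h1]
  exact (hv _).trans (CenT.lsys_vec1 (hst0 hW h c) S _).symm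

/-- **A central isometry of the powers of `X` comes from a central isometry of the coordinate
space.** -/
theorem cen_lsys {T : ∀ P : Prd 1, W.coh (EQ.pw X P) → W.coh (EQ.pw X P)}
    (hT : EQ.IsCentral W X g ξ T) :
    ∃ M ∈ endS (subD c.D (0, 1)) (At1 (hst0 hW h c)), IsG (subD c.D (0, 1)) M ∧
      (∀ z, At1 (hst0 hW h c) 2 z →
        M * opM (subD c.D (0, 1)) z = opM (subD c.D (0, 1)) z * M) ∧
      (∀ v, (T (.leaf 0) (vec1 (hst0 hW h c) v) : W.coh X)
        = vec1 (hst0 hW h c) (M.mulVec v)) ∧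
      ∃ C : ∀ P : Prd 1, W.coh (P.obj (hst0 hW h c).X) →ₗ[ℂ] W.coh (P.obj (hst0 hW h c).X),
        EndM.LSys (hst0 hW h c) (EndC.mex c.D (0, 1) M) C ∧
        ∀ P (z : W.coh (EQ.pw X P)), T P z = C P z := by
  obtain ⟨M, hM, hG, hc, hv⟩ := exists_mat hW h c hT
  obtain ⟨C, S⟩ := exists_fam hW h c hG
  exact ⟨M, hM, hG, hc, hv, C, S, fun P z => eq_of_vec1 hW h c hT hv S P z⟩

/-- the same with the family `T` itself -/
theorem cen_lsys' {T : ∀ P : Prd 1, W.coh (EQ.pw X P) → W.coh (EQ.pw X P)}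
    (hT : EQ.IsCentral W X g ξ T) :
    ∃ M ∈ endS (subD c.D (0, 1)) (At1 (hst0 hW h c)), IsG (subD c.D (0, 1)) M ∧
      (∀ z, At1 (hst0 hW h c) 2 z →
        M * opM (subD c.D (0, 1)) z = opM (subD c.D (0, 1)) z * M) ∧
      EndM.LSys (hst0 hW h c) (EndC.mex c.D (0, 1) M) (symLin hT.tensor) := by
  obtain ⟨M, hM, hG, hc, -, C, S, hTC⟩ := cen_lsys hW h c hT
  refine ⟨M, hM, hG, hc, ?_⟩
  have e : symLin hT.tensor = C := by
    funext P
    exact LinearMap.ext fun z => hTC P z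
  rw [e]
  exact S

/-! ### The symmetries and the stable subspaces -/

/-- the matrices of the symmetries on `H^1(X)`: they belong to the group, fix the algebraic tensors,
and a subspace stable under the algebraic tensors of length two with finitely many images is the
image of a central idempotent -/
theorem exists_gam : ∃ Γ : Set (Matrix (Sub c.D (0, 1)) (Sub c.D (0, 1)) ℂ),
    (∀ x ∈ Γ, IsG (subD c.D (0, 1)) x) ∧
    (∀ x ∈ Γ, ∀ L u, At1 (hst0 hW h c) L u → gT x u = u) ∧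
    ∀ U : Submodule ℂ (Sub c.D (0, 1) → ℂ),
      (∀ z, At1 (hst0 hW h c) 2 z → ∀ v ∈ U, (opM (subD c.D (0, 1)) z).mulVec v ∈ U) →
      {U' : Submodule ℂ (Sub c.D (0, 1) → ℂ) | ∃ x ∈ Γ,
        U' = U.map (Matrix.toLin' x)}.Finite →
      ∃ e ∈ endS (subD c.D (0, 1)) (At1 (hst0 hW h c)), e * e = e ∧
        (∀ z, At1 (hst0 hW h c) 2 z →
          e * opM (subD c.D (0, 1)) z = opM (subD c.D (0, 1)) z * e) ∧
        U = LinearMap.range (Matrix.toLin' e) := by
  let G0 : Set (Matrix c.I c.I ℂ) :=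
    {M | ∃ T, SymF W (hst0 hW h c).X T ∧ M = SymM.mat (hst0 hW h c) (T (.leaf 0))}
  have hblk : ∀ M ∈ G0, ∀ i j, c.D.typ i ≠ c.D.typ j → M i j = 0 := by
    rintro _ ⟨T, hT, rfl⟩ i j hij
    exact SymM.mat_typ (hst0 hW h c) hT i j hij
  have hsym : ∀ T, EQ.IsSym W X T → ∃ M ∈ G0, ∀ z : W.coh X,
      (hst0 hW h c).tc (.leaf 0) (T (.leaf 0) z) = gT M ((hst0 hW h c).tc (.leaf 0) z) := by
    intro T hT
    exact ⟨_, ⟨symLin hT.tensor, symF_of hT, rfl⟩,
      fun z => SymM.tc_sym (hst0 hW h c) (symF_of hT) (.leaf 0) z⟩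
  have hgrp : ∀ M ∈ G0, IsG c.D M := by
    rintro _ ⟨T, hT, rfl⟩
    exact SymM.mat_isG (hst0 hW h c) (at_ (hst0 hW h c)) hT
  have hfix : ∀ M ∈ G0, ∀ L, ∀ u ∈ (hst0 hW h c).At L, gT M u = u := by
    rintro _ ⟨T, hT, rfl⟩ L u hu
    exact SymM.mat_fix (hst0 hW h c) hT L u hu
  refine ⟨E.blk '' G0, ?_, ?_, ?_⟩
  · rintro _ ⟨M, hM, rfl⟩
    exact isG_blk (hgrp M hM)
  · rintro _ ⟨M, hM, rfl⟩ L u hu
    exact fix_sub (hblk M hM) (At := fun L u => u ∈ (hst0 hW h c).At L)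
      (fun L u hu => hfix M hM L u hu) L u hu
  · intro U h1 h2
    exact orbit_of (hst0 hW h c) (isotypicF_of h.isotypic)
      (fun U hU => stab_of (Orb.stable_core c hW h.mem h.div.1 G0 hblk hsym hU)) U h1 h2

end

end RotG

end Pool.Agent.Lib.MP_361a6f_ag.FL.E
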