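import Pool.Agent.Lib.MP_361a6f_ag.FL.E.RotS
import Pool.Agent.Lib.MP_361a6f_ag.FL.E.RotG
import Pool.Agent.Lib.MP_361a6f_ag.FL.E.D4c

/-!
# Theorem D4 for the powers of an abelian variety: the characters of the central isometries
(helper9)
-/

open CategoryTheory AlgebraicGeometry MonoidalCategory CartesianMonoidalCategory

universe u v w w'

set_option autoImplicit false
set_option linter.unusedSectionVars false

namespace Pool.Agent.Lib.MP_361a6f_ag.FL.E.D4

open Pool.Agent.Lib.MP_361a6f_ag.H3 Pool.Agent.Lib.MP_361a6f_ag.SQ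
  Pool.Agent.Lib.MP_361a6f_ag.PP

noncomputable section

/-! ### Homogeneous combinations of algebraic classes -/

theorem st_gr {k : Type u} [Field k] {W : CohomologyData.{u, 0, w} k ℂ} {𝒱 : VarietyClass k}
    (hW : IsWeilCohomology W 𝒱) {Y : Sch k} {d : ℕ} (hY : 𝒱.mem Y d) {x : W.coh Y}
    (hx : x ∈ St W Y) {j : ℕ} (hg : x ∈ W.gr Y (2 * j)) : x ∈ EQ.CAlg W Y j := by
  classical
  let _ : DirectSum.Decomposition (W.gr Y) := (hW.internal hY).chooseDecomposition
  have key : (DirectSum.decompose (W.gr Y) x (2 * j) : W.coh Y) ∈ EQ.CAlg W Y j := by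
    refine st_ind hW (p := fun x =>
      (DirectSum.decompose (W.gr Y) x (2 * j) : W.coh Y) ∈ EQ.CAlg W Y j) hx ?_ ?_ ?_ ?_
    · intro z hz
      refine tot_induction hW (P := fun z =>
        (DirectSum.decompose (W.gr Y) z (2 * j) : W.coh Y) ∈ EQ.CAlg W Y j) hz ?_ ?_
      · intro l z hz
        have hz' := hW.alg_gr hY hz
        by_cases hjl : j = l
        · subst hjl
          rw [DirectSum.decompose_of_mem_same _ hz']
          exact Submodule.subset_span hz
        · rw [DirectSum.decompose_of_mem_ne _ hz' (by omega)]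
          exact zero_mem _
      · intro a b ha hb
        rw [DirectSum.decompose_add, DirectSum.add_apply, Submodule.coe_add]
        exact add_mem ha hb
    · rw [DirectSum.decompose_zero, DirectSum.zero_apply, Submodule.coe_zero]
      exact zero_mem _
    · intro a b ha hb
      rw [DirectSum.decompose_add, DirectSum.add_apply, Submodule.coe_add]
      exact add_mem ha hb
    · intro c a ha
      rw [DirectSum.decompose_smul, DirectSum.smul_apply, Submodule.coe_smul]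
      exact Submodule.smul_mem _ _ ha
  rwa [DirectSum.decompose_of_mem_same _ hg] at key

/-! ### Adjoints of pull-backs -/

section host

open EndE EndC EndM RotN

variable {k : Type u} [Field k] {W : CohomologyData.{u, 0, w} k ℂ} {𝒱 : VarietyClass k}
  (H : Host W 𝒱 1)

theorem lsys_push {c : Matrix H.I H.I ℂ}
    {C : ∀ P : Prd 1, W.coh (P.obj H.X) →ₗ[ℂ] W.coh (P.obj H.X)} (S : LSys H c C)
    {P Q : Prd 1} {F : Sch.Mor (P.obj H.X) (Q.obj H.X)} (hF : CoordMor H.X 3 P Q F)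
    (x : W.coh (P.obj H.X)) : W.push F (C P x) = C Q (W.push F x) := by
  refine sub_eq_zero.1 (H.hW.duality (H.memP Q) _ fun y => ?_)
  obtain ⟨y, rfl⟩ := S.surj Q y
  rw [sub_mul, map_sub, H.hW.push_adj (H.memP P) (H.memP Q), ← S.pull P Q F hF, ← S.mul, S.tr,
    ← H.hW.push_adj (H.memP P) (H.memP Q), ← S.mul, S.tr, sub_self]

theorem lsys_adj {c : Matrix H.I H.I ℂ}
    {C : ∀ P : Prd 1, W.coh (P.obj H.X) →ₗ[ℂ] W.coh (P.obj H.X)} (S : LSys H c C)
    {P Q : Prd 1} {F : P.obj H.X ⟶ Q.obj H.X} (hF : CoordMor H.X 3 P Q F)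
    (x : W.coh (P.obj H.X)) : adj H F (C P x) = C Q (adj H F x) := by
  change H.starP Q (W.push F (H.starP P (C P x))) = C Q (H.starP Q (W.push F (H.starP P x)))
  rw [← S.star, lsys_push H S hF, ← S.star]

/-- **A numerically trivial combination of algebraic classes that is fixed by the central isometries
is zero.** -/
theorem fixed_zero (hAb : ∀ a, AbelianType W (H.X a) (H.n a))
    (Γ : Set (Matrix (Sub H.D (0, 1)) (Sub H.D (0, 1)) ℂ))
    (grp : ∀ x ∈ Γ, IsG (subD H.D (0, 1)) x)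
    (gfix : ∀ x ∈ Γ, ∀ L u, At1 H L u → gT x u = u)
    (orbit : Orbit (subD H.D (0, 1)) (At1 H) Γ) (P : Prd 1) {x : W.coh (P.obj H.X)}
    (hx : x ∈ CT H P)
    (hfix : ∀ M, Cis (subD H.D (0, 1)) (At1 H) M →
      ∃ C : ∀ P : Prd 1, W.coh (P.obj H.X) →ₗ[ℂ] W.coh (P.obj H.X),
        LSys H (mex H.D (0, 1) M) C ∧ C P x = x)
    (h : ∀ v ∈ tot W (P.obj H.X), W.tr (P.obj H.X) (x * v) = 0) : x = 0 := by
  have h' : ∀ v ∈ tot W (P.obj H.X), H.psiP P v x = 0 := by
    intro v hv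
    change W.tr (P.obj H.X) (v * H.starP P x) = 0
    rw [← star_adj, ← ct_comm H P hx]
    exact h _ (star_tot H P hv)
  refine RotN.eq_zero H hAb P hx (h' 1 (RotN.one_tot H P)) fun Q F hF => ?_
  have h0 : tc1 H Q (adj H F x) = 0 := by
    refine kr_lie (RotN.asys1 H) (RotN.odd1 H) (RotN.typ1 H) Γ grp gfix orbit Q.size _
      ⟨tc1_span H (adj_ct H F hx), ?_⟩
      (fun B hB => kill_of_fix (RotN.asys1 H) (RotN.odd1 H) (RotN.typ1 H) (fun M hM => ?_) B hB)
    · intro v hv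
      rw [Rot.psi_flip (RotN.odd1 H)]
      have h3 : Submodule.span ℂ {u | At1 H Q.size u} ≤
          LinearMap.ker ((psiB H Q).flip (adj H F x) ∘ₗ RotN.cls H Q) := by
        refine Submodule.span_le.2 fun u hu => ?_
        rw [SetLike.mem_coe, LinearMap.mem_ker, LinearMap.comp_apply, LinearMap.flip_apply,
          psiB_apply, psi_adj H F hx]
        exact h' _ (tot_pull H.hW (H.memP P) (H.memP Q) F (cls_tot H hu))
      have h4 := h3 hv
      rw [LinearMap.mem_ker, LinearMap.comp_apply, LinearMap.flip_apply, psiB_apply,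
        psi_cls_right] at h4
      rw [h4, mul_zero]
    · obtain ⟨C, S, hC⟩ := hfix M hM
      have h1 := CenT.lsys_cut1 H S hM.grp Q (adj H F x)
      rw [← lsys_adj H S hF, hC] at h1
      exact h1.symm
  rw [← cls_tc1, h0, map_zero]

end host

/-! ### The powers of an abelian variety -/

section main

variable {k : Type u} [Field k] {W : CohomologyData.{u, 0, w} k ℂ} {𝒱 : VarietyClass k}
  (hW : IsWeilCohomology W 𝒱) {X : Sch k} {g : ℕ} {ξ : W.coh X} (h : EQ.Hyp0 W 𝒱 X g ξ)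

/-- the central isometries as linear maps -/
def fm (W : CohomologyData.{u, 0, w} k ℂ) (X : Sch k) (g : ℕ) (ξ : W.coh X)
    (i : {T // EQ.IsCentral W X g ξ T}) (P : Prd 1) :
    W.coh (P.obj fun _ => X) →ₗ[ℂ] W.coh (P.obj fun _ => X) := symLin i.2.tensor P

theorem fm_apply (i : {T // EQ.IsCentral W X g ξ T}) (P : Prd 1) (z : W.coh (EQ.pw X P)) :
    fm W X g ξ i P z = i.1 P z := rfl

include hW h in
/-- **The central isometries have the five properties.** -/
theorem good : Good W (fun _ : Fin 1 => X) (fm W X g ξ) := by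
  obtain ⟨c⟩ := RotG.exists_core0 hW h
  obtain ⟨Γ, grp, gfix, orbit⟩ := RotG.exists_gam hW h c
  have hAb : ∀ a, AbelianType W ((RotG.hst0 hW h c).X a) ((RotG.hst0 hW h c).n a) :=
    fun _ => RotG.abT hW h
  have hpd : ∀ a, PositiveDivisor W ((RotG.hst0 hW h c).X a) ((RotG.hst0 hW h c).n a)
    ((RotG.hst0 hW h c).ξ a) := fun _ => h.div
  have hA2 : ∀ i : {T // EQ.IsCentral W X g ξ T}, ∃ M,
      Cis (subD c.D (0, 1)) (At1 (RotG.hst0 hW h c)) M ∧
      (∀ v, (i.1 (.leaf 0) (vec1 (RotG.hst0 hW h c) v) : W.coh X)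
        = vec1 (RotG.hst0 hW h c) (M.mulVec v)) ∧
      EndM.LSys (RotG.hst0 hW h c) (EndC.mex c.D (0, 1) M) (fm W X g ξ i) := by
    intro i
    obtain ⟨M, hM, hG, hc, hv, C, S, hTC⟩ := RotG.cen_lsys hW h c i.2
    refine ⟨M, ⟨hM, hG, hc⟩, hv, ?_⟩
    have e : fm W X g ξ i = C := by
      funext P
      exact LinearMap.ext fun z => hTC P z
    rw [e]
    exact S
  refine ⟨?_, ?_, ?_, fun i => i.2.tensor.ext, ?_⟩
  · intro i j P z
    obtain ⟨M, hM, hMv, S⟩ := hA2 i
    obtain ⟨N, hN, hNv, S'⟩ := hA2 j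
    refine CenL.ext_fam hW (X := fun _ => X) (n := fun _ => g) (RotG.hst0 hW h c).memP
      (RotG.abT hW h) (fun P => fm W X g ξ i P ∘ₗ fm W X g ξ j P)
      (fun P => fm W X g ξ j P ∘ₗ fm W X g ξ i P) (fun P Q y x => ?_) (fun P Q y x => ?_)
      ?_ ?_ (fun x y => ?_) (fun x y => ?_) (fun x hx => ?_) P z
    · have e1 := j.2.tensor.ext P Q y x
      have e2 := i.2.tensor.ext P Q (j.1 P y) (j.1 Q x)
      exact (congrArg (i.1 (.prod P Q)) e1).trans e2
    · have e1 := i.2.tensor.ext P Q y x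
      have e2 := j.2.tensor.ext P Q (i.1 P y) (i.1 Q x)
      exact (congrArg (j.1 (.prod P Q)) e1).trans e2
    · exact (congrArg (i.1 (.leaf 0)) j.2.one).trans i.2.one
    · exact (congrArg (j.1 (.leaf 0)) i.2.one).trans j.2.one
    · exact (congrArg (i.1 (.leaf 0)) (j.2.cup x y)).trans (i.2.cup _ _)
    · exact (congrArg (j.1 (.leaf 0)) (i.2.cup x y)).trans (j.2.cup _ _)
    · have e0 : vec1 (RotG.hst0 hW h c) (crd1 (RotG.hst0 hW h c) x) = x :=
        vec1_crd1 (RotG.hst0 hW h c) hx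
      have e1 : (j.1 (.leaf 0) x : W.coh X)
          = vec1 (RotG.hst0 hW h c) (N.mulVec (crd1 (RotG.hst0 hW h c) x)) := by
        conv_lhs => rw [← e0]
        exact hNv _
      have e2 : (i.1 (.leaf 0) x : W.coh X)
          = vec1 (RotG.hst0 hW h c) (M.mulVec (crd1 (RotG.hst0 hW h c) x)) := by
        conv_lhs => rw [← e0]
        exact hMv _
      have e3 := (congrArg (i.1 (.leaf 0)) e1).trans (hMv _)
      have e4 := (congrArg (j.1 (.leaf 0)) e2).trans (hNv _)
      have e5 : ∀ v, M.mulVec (N.mulVec v) = N.mulVec (M.mulVec v) := fun v => by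
        rw [Matrix.mulVec_mulVec, Matrix.mulVec_mulVec, hM.comm' hN]
      exact e3.trans ((congrArg (vec1 (RotG.hst0 hW h c)) (e5 _)).trans e4.symm)
  · intro i P j z hz
    obtain ⟨M, hM, -, S⟩ := hA2 i
    have hm := (RotG.hst0 hW h c).memP P
    have h1 : z ∈ RotN.CT (RotG.hst0 hW h c) P := sp_le hW _ j hz
    have h2 := RotN.C_ct (RotG.hst0 hW h c) hM.grp S hAb hpd hM.mem P h1
    have h3 : z ∈ W.gr (P.obj fun _ : Fin 1 => X) (2 * j) := by
      have hle : EQ.CAlg W (P.obj fun _ : Fin 1 => X) j ≤ W.gr (P.obj fun _ : Fin 1 => X) (2 * j) :=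
        Submodule.span_le.2 fun y hy => hW.alg_gr hm hy
      exact hle hz
    exact st_gr hW hm h2 (S.gr P (2 * j) z h3)
  · intro i P x y
    obtain ⟨M, hM, -, S⟩ := hA2 i
    exact (congrArg (W.tr (P.obj fun _ : Fin 1 => X)) (S.mul P x y).symm).trans (S.tr P (x * y))
  · intro P j z hz hfix hn
    have h1 : z ∈ RotN.CT (RotG.hst0 hW h c) P := sp_le hW _ j hz
    refine fixed_zero (RotG.hst0 hW h c) hAb Γ grp gfix orbit P h1 (fun M hM => ?_)
      (fun v hv => num_st hW hn (Submodule.subset_span hv))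
    obtain ⟨C, S, hC, -, -⟩ := RotG.exists_central hW h c hM.mem hM.grp hM.comm
    exact ⟨C, S, hfix ⟨fun P => C P, hC⟩⟩

theorem mem_pw (hX : 𝒱.mem X g) : ∀ P : Prd 1,
    𝒱.mem (P.obj fun _ => X) (P.dim fun _ => g)
  | .leaf _ => hX
  | .prod P Q => 𝒱.prod (mem_pw hX P) (mem_pw hX Q)

/-- a function on the central isometries -/
theorem occ_iff (χ : (∀ P : Prd 1, W.coh (EQ.pw X P) → W.coh (EQ.pw X P)) → ℂ) :
    EQ.Occurs W X g ξ χ ↔ Occ W (fun _ : Fin 1 => X) (fm W X g ξ) fun i => χ i.1 := by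
  constructor
  · rintro ⟨P, j, z, hz, hz0, hT⟩
    exact ⟨P, j, z, hz, hz0, fun i => hT i.1 i.2⟩
  · rintro ⟨P, j, z, hz, hz0, hT⟩
    exact ⟨P, j, z, hz, hz0, fun T hT' => hT ⟨T, hT'⟩⟩

include hW h in
/-- **Theorem D4, the zero-one law.** -/
theorem zero_one (χ : (∀ P : Prd 1, W.coh (EQ.pw X P) → W.coh (EQ.pw X P)) → ℂ) (P : Prd 1)
    (j : ℕ) (x : W.coh (EQ.pw X P)) (hx : x ∈ EQ.CAlg W (EQ.pw X P) j) (hx0 : x ≠ 0)
    (hχ : EQ.HasChar W X g ξ χ P x) :
    EQ.NumTriv W x ↔ ¬ EQ.Occurs W X g ξ fun T => (χ T)⁻¹ := by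
  rw [occ_iff]
  exact (good hW h).zero_one hW (mem_pw h.mem) hx hx0 fun i => hχ i.1 i.2

include hW h in
/-- **Theorem D4.** -/
theorem num_iff_char : (∀ P, EQ.NumHom W (EQ.pw X P)) ↔
    ∀ χ, EQ.Occurs W X g ξ χ → EQ.Occurs W X g ξ fun T => (χ T)⁻¹ := by
  refine ((good hW h).iff hW (mem_pw h.mem)).trans ⟨fun hocc χ hχ => ?_,
    fun hocc χ hχ => ?_⟩
  · rw [occ_iff] at hχ ⊢
    exact hocc _ hχ
  · classical
    let χ' : (∀ P : Prd 1, W.coh (EQ.pw X P) → W.coh (EQ.pw X P)) → ℂ :=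
      fun T => if hT : EQ.IsCentral W X g ξ T then χ ⟨T, hT⟩ else 0
    have e : (fun i : {T // EQ.IsCentral W X g ξ T} => χ' i.1) = χ := by
      funext i
      exact dif_pos i.2
    have h1 := hocc χ' ((occ_iff χ').2 (by rw [e]; exact hχ))
    rw [occ_iff] at h1
    have e2 : (fun i : {T // EQ.IsCentral W X g ξ T} => (χ' i.1)⁻¹) = fun i => (χ i)⁻¹ := by
      funext i
      rw [← e]
    rw [e2] at h1
    exact h1

end main

end

end Pool.Agent.Lib.MP_361a6f_ag.FL.E.D4
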