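import Pool.Agent.Lib.MP_361a6f_ag.FL.E.DefsP

/-!
# The general form of Theorem E+ in coordinates (93, 44, 6): the data and the rows

No irreducibility: a subspace that is stable under the endomorphisms `opM D z`, `z` in `At 2`, and
has finitely many images under `Γ` is the image of a central idempotent of the algebra of the
endomorphisms. Conclusion: one central element `C` corrects all signs.
-/

open Filter Topology MeasureTheory

namespace Pool.Agent.Lib.MP_361a6f_ag.FL.E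

/-- the complex span of the matrices of the members of length `2` -/
def endS {I Λ : Type} [Fintype I] [DecidableEq I] (D : Dat I Λ)
    (At : (L : ℕ) → Ten I L → Prop) : Submodule ℂ (Matrix I I ℂ) :=
  Submodule.span ℂ {M | ∃ z, At 2 z ∧ M = opM D z}

/-- the common part of the data -/
structure CSys {I Λ : Type} [Fintype I] [DecidableEq I] [DecidableEq Λ] (D : Dat I Λ)
    (At Bt : (L : ℕ) → Ten I L → Prop) (l : I → ℂ) (Γ : Set (Matrix I I ℂ)) {β : Type} [Fintype β]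
    (lb : β → ℕ) (b : Tup I lb) : Prop where
  sys : ASys D At
  typ_eq : ∀ i j, D.typ i = D.typ j
  odd : ∀ i, D.odd (D.typ i)
  norm : ∀ i, ‖l i‖ = 1
  tau : ∀ i, l (D.τ i) * l i = 1
  ratio : ∀ i j, l i ≠ l j → ∀ n : ℕ, 0 < n → l i ^ n ≠ l j ^ n
  fix : ∀ L u, At L u → gT (Matrix.diagonal l) u = u
  rsys : RSys D Bt
  sub : ∀ L u, At L u → Bt L u
  bmem : ∀ i, Bt (lb i) (b i)
  base : IsBase D b
  comm : ∀ x, IsG D x → gS x b = b →
    ∃ z : I → ℂ, (∀ i j, l i = l j → z i = z j) ∧ x = Matrix.diagonal z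
  grp : ∀ x ∈ Γ, IsG D x
  gfix : ∀ x ∈ Γ, ∀ L u, At L u → gT x u = u
  nd : ∀ L, ∀ u ∈ Submodule.span ℂ {u | At L u}, u ≠ 0 →
    ∃ v ∈ Submodule.span ℂ {u | At L u}, psiT D u v ≠ 0

/-- the data of the general form -/
structure GSys {I Λ : Type} [Fintype I] [DecidableEq I] [DecidableEq Λ] (D : Dat I Λ)
    (At Bt : (L : ℕ) → Ten I L → Prop) (l : I → ℂ) (Γ : Set (Matrix I I ℂ)) {β : Type} [Fintype β]
    (lb : β → ℕ) (b : Tup I lb) : Prop extends CSys D At Bt l Γ lb b where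
  orbit : ∀ U : Submodule ℂ (I → ℂ),
    (∀ z, At 2 z → ∀ v ∈ U, (opM D z).mulVec v ∈ U) →
    {U' : Submodule ℂ (I → ℂ) | ∃ x ∈ Γ, U' = U.map (Matrix.toLin' x)}.Finite →
    ∃ e ∈ endS D At, e * e = e ∧ (∀ z, At 2 z → e * opM D z = opM D z * e) ∧
      U = LinearMap.range (Matrix.toLin' e)

/-- THE GENERAL FORM: there is a central element `C` of the algebra of the endomorphisms, in the
group, with `C² = 1` on the members of the system, such that `ψ(u, C u) > 0`. -/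
def ThmGStatement : Prop :=
  ∀ {I Λ : Type} [Fintype I] [DecidableEq I] [DecidableEq Λ] (D : Dat I Λ)
    (At Bt : (L : ℕ) → Ten I L → Prop) (l : I → ℂ) (Γ : Set (Matrix I I ℂ))
    {β : Type} [Fintype β] (lb : β → ℕ) (b : Tup I lb), GSys D At Bt l Γ lb b →
    ∃ C ∈ endS D At, IsG D C ∧ (∀ z, At 2 z → C * opM D z = opM D z * C) ∧
      (∀ L u, At L u → gT C (gT C u) = u) ∧
      ∀ (L : ℕ) (u : Ten I L), u ∈ Submodule.span ℝ {u | At L u} → u ≠ 0 →
        ∃ r : ℝ, 0 < r ∧ psiT D u (gT C u) = (r : ℂ)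

/-- Row G1 (72: E1Q.e1q). -/
def G1Statement : Prop :=
  ∀ {I Λ : Type} [Fintype I] [DecidableEq I] [DecidableEq Λ] (D : Dat I Λ)
    (At Bt : (L : ℕ) → Ten I L → Prop) (l : I → ℂ) (Γ : Set (Matrix I I ℂ))
    {β : Type} [Fintype β] (lb : β → ℕ) (b : Tup I lb),
    CSys D At Bt l Γ lb b → ∀ m : ℕ, ∃ (ι : Type) (_ : Fintype ι) (len : ι → ℕ) (t s : Tup I len)
      (x : Matrix I I ℂ) (k : I → ℂ), LvlP D At l m len t s x k

/-- Row G4 (93): a subspace stable under the Lie algebra of the stabiliser has finitely many images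
under elements of the group that fix `s`. -/
def G4Statement : Prop :=
  ∀ {I Λ ι : Type} [Fintype I] [DecidableEq I] [DecidableEq Λ] [Fintype ι] {len : ι → ℕ}
    (D : Dat I Λ) (s : Tup I len) (Δ : Set (Matrix I I ℂ)), Minimal D s →
    (∀ y ∈ Δ, IsG D y ∧ gS y s = s) →
    ∀ U : Submodule ℂ (I → ℂ), (∀ A ∈ stab D s, ∀ v ∈ U, A.mulVec v ∈ U) →
      {U' : Submodule ℂ (I → ℂ) | ∃ y ∈ Δ, U' = U.map (Matrix.toLin' y)}.Finite

/-- Row G4b (74): as P4b, for `CSys`. -/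
def G4bStatement : Prop :=
  ∀ {I Λ : Type} [Fintype I] [DecidableEq I] [DecidableEq Λ] (D : Dat I Λ)
    (At Bt : (L : ℕ) → Ten I L → Prop) (l : I → ℂ) (Γ : Set (Matrix I I ℂ))
    {β : Type} [Fintype β] (lb : β → ℕ) (b : Tup I lb),
    CSys D At Bt l Γ lb b → ∀ (m : ℕ), 2 ≤ m → ∀ {ι : Type} [Fintype ι] (len : ι → ℕ)
      (t s : Tup I len) (x : Matrix I I ℂ) (k : I → ℂ), LvlP D At l m len t s x k →
    ∀ z, At 2 z → (∀ A ∈ stab D s, opM D z * A = A * opM D z) ∧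
      opM D z * Matrix.diagonal k = Matrix.diagonal k * opM D z ∧
      opM D z * x = x * opM D z

/-- Row G5 (43, 42; 44's P5G): no irreducibility, no trace. -/
def G5Statement : Prop :=
  ∀ {I : Type} [Fintype I] [DecidableEq I] (S : Submodule ℂ (Matrix I I ℂ))
    (E : Set (Matrix I I ℂ)),
    (∀ x ∈ S, ∀ y ∈ S, x * y - y * x ∈ S) → (∀ x ∈ S, x.conjTranspose ∈ S) →
    (∀ e ∈ E, ∀ A ∈ S, e * A = A * e) →
    ∀ a : I → ℂ, (∀ i, (starRingEnd ℂ) (a i) = a i) → Matrix.diagonal a ∈ S →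
    ∀ k : I → ℂ, (∀ i, ‖k i‖ = 1) → (∀ i j, a i = a j → k i = k j) →
    (∀ e ∈ E, e * Matrix.diagonal k = Matrix.diagonal k * e) →
    (∀ A ∈ S, Matrix.diagonal k * A * Matrix.diagonal (fun i => (k i)⁻¹) ∈ S) →
    ∃ C : Matrix I I ℂ, C.conjTranspose * C = 1 ∧ (∀ A ∈ S, C * A = A * C) ∧
      (∀ e ∈ E, C * e = e * C) ∧ C * Matrix.diagonal k = Matrix.diagonal k * C ∧
      ∀ (L : ℕ) (u : Ten I L), (∀ A ∈ S, aT A u = 0) → gT (Matrix.diagonal k) u = gT C u

/-- Row G6: the assembly. -/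
def G6Statement : Prop :=
  G1Statement → P2Statement → E2Statement → P3Statement → G4Statement → G4bStatement →
    G5Statement → ThmGStatement

end Pool.Agent.Lib.MP_361a6f_ag.FL.E
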