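import Pool.Agent.Lib.MP_361a6f_ag.FL.E.NdZ
import Pool.Agent.Lib.MP_361a6f_ag.FL.E.S.Slot

/-!
# Rotations: matrices acting slot by slot, and the blocks of the centre

`slT N` is the action of the matrices `N i` on the slots `i`. The algebra of the endomorphisms has a
finite maximal family of orthogonal central idempotents with sum `1`; the adjoint permutes it.
-/

open Matrix

set_option autoImplicit false
set_option linter.unusedSectionVars false

namespace Pool.Agent.Lib.MP_361a6f_ag.FL.E.Rot

open Nd NdZ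
open OL (CA)
open AL1A (gT_mul gT_add gT_smul)
open AL1B (gT_one)

variable {I Λ : Type} [Fintype I] [DecidableEq I] [DecidableEq Λ] {D : Dat I Λ}
  {At : (L : ℕ) → Ten I L → Prop}

/-! ### Matrices acting slot by slot -/

/-- the matrices `N i` acting on the slots `i` -/
def slT {L : ℕ} (N : Fin L → Matrix I I ℂ) (u : Ten I L) : Ten I L :=
  fun w => ∑ w' : Fin L → I, (∏ i, N i (w i) (w' i)) * u w'

theorem slT_const (g : Matrix I I ℂ) {L : ℕ} (u : Ten I L) : slT (fun _ => g) u = gT g u := rfl

theorem slT_slT {L : ℕ} (M N : Fin L → Matrix I I ℂ) (u : Ten I L) :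
    slT M (slT N u) = slT (fun i => M i * N i) u := by
  funext w
  unfold slT
  have h : ∀ w'' : Fin L → I, (∏ i, (M i * N i) (w i) (w'' i)) =
      ∑ w' : Fin L → I, (∏ i, M i (w i) (w' i)) * ∏ i, N i (w' i) (w'' i) := by
    intro w''
    simp only [Matrix.mul_apply]
    rw [Finset.prod_univ_sum, Fintype.piFinset_univ]
    exact Finset.sum_congr rfl fun w' _ => Finset.prod_mul_distrib
  simp only [h, Finset.mul_sum, Finset.sum_mul]
  rw [Finset.sum_comm]
  exact Finset.sum_congr rfl fun w'' _ => Finset.sum_congr rfl fun w' _ => by ring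

theorem slT_one {L : ℕ} (u : Ten I L) : slT (fun _ => 1) u = u := gT_one u

theorem slT_add {L : ℕ} (N : Fin L → Matrix I I ℂ) (u v : Ten I L) :
    slT N (u + v) = slT N u + slT N v := by
  funext w
  simp only [slT, Pi.add_apply, mul_add, Finset.sum_add_distrib]

theorem slT_smul {L : ℕ} (N : Fin L → Matrix I I ℂ) (c : ℂ) (u : Ten I L) :
    slT N (c • u) = c • slT N u := by
  funext w
  simp only [slT, Pi.smul_apply, smul_eq_mul, Finset.mul_sum]
  exact Finset.sum_congr rfl fun j _ => by ring

theorem slT_zero {L : ℕ} (N : Fin L → Matrix I I ℂ) : slT N (0 : Ten I L) = 0 := by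
  have h := slT_smul N (0 : ℂ) (0 : Ten I L)
  rwa [zero_smul, zero_smul] at h

theorem slT_scal {L : ℕ} (c : Fin L → ℂ) (N : Fin L → Matrix I I ℂ) (u : Ten I L) :
    slT (fun i => c i • N i) u = (∏ i, c i) • slT N u := by
  funext w
  simp only [slT, Pi.smul_apply, smul_eq_mul, Finset.mul_sum, Matrix.smul_apply,
    Finset.prod_mul_distrib]
  exact Finset.sum_congr rfl fun j _ => by ring

theorem slT_outer {p q : ℕ} (M : Fin p → Matrix I I ℂ) (N : Fin q → Matrix I I ℂ) (u : Ten I p)
    (v : Ten I q) : slT (Fin.append M N) (outer u v) = outer (slT M u) (slT N v) := by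
  funext w
  unfold slT
  rw [AL2.sum_append]
  simp only [outer]
  rw [Finset.sum_mul_sum]
  refine Finset.sum_congr rfl fun a _ => Finset.sum_congr rfl fun b _ => ?_
  rw [Fin.prod_univ_add]
  simp only [Fin.append_left, Fin.append_right]
  ring

theorem dot_slT {L : ℕ} (N : Fin L → Matrix I I ℂ) (u v : Ten I L) :
    ∑ w, slT N u w * v w = ∑ w, u w * slT (fun i => (N i).transpose) v w := by
  unfold slT
  simp only [Finset.sum_mul, Finset.mul_sum]
  rw [Finset.sum_comm]
  refine Finset.sum_congr rfl fun w _ => Finset.sum_congr rfl fun w' _ => ?_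
  simp only [Matrix.transpose_apply]
  ring

theorem psi_slT (ho : ∀ i, D.odd (D.typ i)) {L : ℕ} (N : Fin L → Matrix I I ℂ) (u v : Ten I L) :
    psiT D (slT N u) v = psiT D u (slT (fun i => dag D (N i)) v) := by
  rw [psi_dot, psi_dot, dot_slT, ← slT_const, ← slT_const, slT_slT, slT_slT]
  refine Finset.sum_congr rfl fun w _ => ?_
  congr 2
  funext i
  have h := Psi_mul_eq ho (dag D (N i))
  rw [dag_dag ho] at h
  exact h.symm

/-- the form up to sign is symmetric -/
theorem psi_flip (ho : ∀ i, D.odd (D.typ i)) {L : ℕ} (u v : Ten I L) :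
    psiT D v u = (-1) ^ L * psiT D u v := by
  unfold psiT
  rw [← (Equiv.arrowCongr (Equiv.refl (Fin L)) (Function.Involutive.toPerm D.τ D.τ_τ)).sum_comp,
    Finset.mul_sum]
  refine Finset.sum_congr rfl fun w _ => ?_
  have e1 : (Equiv.arrowCongr (Equiv.refl (Fin L)) (Function.Involutive.toPerm D.τ D.τ_τ)) w =
    D.τ ∘ w := rfl
  have e2 : D.τ ∘ (D.τ ∘ w) = w := by funext i; simp [D.τ_τ]
  have e3 : sg D (D.τ ∘ w) = (-1) ^ L * sg D w := by
    simp only [sg, Function.comp_apply, s_tau ho]
    rw [Finset.prod_neg, Finset.card_univ, Fintype.card_fin]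
  rw [e1, e2, e3]
  ring

/-! ### Closure -/

theorem mul_mem_endS (S : ASys D At) (ho : ∀ i, D.odd (D.typ i)) (he : ∀ i j, D.typ i = D.typ j)
    {M N : Matrix I I ℂ} (hM : M ∈ endS D At) (hN : N ∈ endS D At) : M * N ∈ endS D At := by
  rw [mem_endS] at hN ⊢
  have h : op D (M * N) = Slot.sl M 0 (op D N) := by
    funext w
    unfold Slot.sl op
    rw [Matrix.mul_assoc, Matrix.mul_apply]
    refine Finset.sum_congr rfl fun j _ => ?_
    rw [Function.update_self, Function.update_of_ne (by decide)]
  rw [h]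
  exact Slot.sl_span S he ho hM 0 hN

theorem Cen.mul (S : ASys D At) (ho : ∀ i, D.odd (D.typ i)) (he : ∀ i j, D.typ i = D.typ j)
    {M N : Matrix I I ℂ} (hM : Cen D At M) (hN : Cen D At N) : Cen D At (M * N) :=
  ⟨mul_mem_endS S ho he hM.mem hN.mem, fun A hA => by
    rw [Matrix.mul_assoc, hN.comm A hA, ← Matrix.mul_assoc, hM.comm A hA, Matrix.mul_assoc]⟩

theorem cen_one (S : ASys D At) (he : ∀ i j, D.typ i = D.typ j) :
    Cen D At (1 : Matrix I I ℂ) :=
  ⟨mem_endS.2 (op_one_mem S he), fun A _ => by rw [Matrix.one_mul, Matrix.mul_one]⟩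

/-- the matrices acting on the slots in `T` -/
def gP {L : ℕ} (N : Fin L → Matrix I I ℂ) (T : Finset (Fin L)) (u : Ten I L) : Ten I L :=
  fun w => ∑ w' : Fin L → I,
    (∏ i, if i ∈ T then N i (w i) (w' i) else if w i = w' i then 1 else 0) * u w'

theorem gP_empty {L : ℕ} (N : Fin L → Matrix I I ℂ) (u : Ten I L) : gP N ∅ u = u := by
  funext w
  unfold gP
  rw [Finset.sum_eq_single w]
  · rw [Finset.prod_eq_one, one_mul]
    intro i _
    rw [if_neg (Finset.notMem_empty i), if_pos rfl]
  · intro w' _ hw'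
    obtain ⟨i, hi⟩ : ∃ i, w i ≠ w' i := by
      by_contra h
      push Not at h
      exact hw' (funext fun i => (h i).symm)
    rw [Finset.prod_eq_zero (Finset.mem_univ i), zero_mul]
    rw [if_neg (Finset.notMem_empty i), if_neg hi]
  · intro h
    exact absurd (Finset.mem_univ _) h

theorem gP_univ {L : ℕ} (N : Fin L → Matrix I I ℂ) (u : Ten I L) :
    gP N Finset.univ u = slT N u := by
  funext w
  unfold gP slT
  refine Finset.sum_congr rfl fun w' _ => ?_
  congr 1
  exact Finset.prod_congr rfl fun i _ => if_pos (Finset.mem_univ i)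

theorem gP_insert {L : ℕ} (N : Fin L → Matrix I I ℂ) (T : Finset (Fin L)) (r : Fin L)
    (hr : r ∉ T) (u : Ten I L) : gP N (insert r T) u = Slot.sl (N r) r (gP N T u) := by
  funext w
  unfold gP Slot.sl
  simp only [Finset.mul_sum]
  rw [Finset.sum_comm]
  refine Finset.sum_congr rfl fun w' _ => ?_
  rw [Finset.sum_eq_single (w' r)]
  · rw [← mul_assoc]
    congr 1
    rw [← Finset.mul_prod_erase _ _ (Finset.mem_univ r),
      ← Finset.mul_prod_erase _ (fun i => if i ∈ T then
        N i (Function.update w r (w' r) i) (w' i) else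
          if Function.update w r (w' r) i = w' i then (1 : ℂ) else 0) (Finset.mem_univ r)]
    rw [if_pos (Finset.mem_insert_self r T), if_neg hr, Function.update_self, if_pos rfl, one_mul]
    congr 1
    refine Finset.prod_congr rfl fun i hi => ?_
    have hir : i ≠ r := Finset.ne_of_mem_erase hi
    rw [Function.update_of_ne hir]
    simp only [Finset.mem_insert, hir, false_or]
  · intro j _ hj
    rw [Finset.prod_eq_zero (Finset.mem_univ r), zero_mul, mul_zero]
    rw [if_neg hr, Function.update_self, if_neg hj]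
  · intro h
    exact absurd (Finset.mem_univ _) h

theorem slT_mem (S : ASys D At) (ho : ∀ i, D.odd (D.typ i)) (he : ∀ i j, D.typ i = D.typ j)
    {L : ℕ} {N : Fin L → Matrix I I ℂ} (hN : ∀ i, N i ∈ endS D At) {u : Ten I L}
    (hu : u ∈ CA At L) : slT N u ∈ CA At L := by
  rw [← gP_univ]
  induction (Finset.univ : Finset (Fin L)) using Finset.induction_on with
  | empty => rwa [gP_empty]
  | insert r T hr ih =>
    rw [gP_insert N T r hr]
    exact Slot.sl_span S he ho (hN r) r ih

theorem slT_kr (S : ASys D At) (ho : ∀ i, D.odd (D.typ i)) (he : ∀ i j, D.typ i = D.typ j)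
    {L : ℕ} {N : Fin L → Matrix I I ℂ} (hN : ∀ i, N i ∈ endS D At) {u : Ten I L}
    (hu : u ∈ Kr D At L) : slT N u ∈ Kr D At L :=
  ⟨slT_mem S ho he hN hu.1, fun v hv => by
    rw [psi_slT ho]
    exact hu.2 _ (slT_mem S ho he (fun i => dag_mem S ho (hN i)) hv)⟩

/-! ### The blocks of the centre -/

/-- a maximal family of orthogonal central idempotents with sum `1` -/
structure Fam (D : Dat I Λ) (At : (L : ℕ) → Ten I L → Prop) {T : Type} [Fintype T]
    (f : T → Matrix I I ℂ) (bar : T → T) : Prop where
  cen : ∀ s, Cen D At (f s)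
  ne : ∀ s, f s ≠ 0
  idem : ∀ s, f s * f s = f s
  orth : ∀ s t, s ≠ t → f s * f t = 0
  sum : ∑ s, f s = 1
  atom : ∀ e, Cen D At e → e * e = e → ∀ s, e * f s = 0 ∨ e * f s = f s
  bar_bar : ∀ s, bar (bar s) = s
  dag : ∀ s, dag D (f s) = f (bar s)

/-- families of `n` orthogonal central idempotents with sum `1` -/
def Q (D : Dat I Λ) (At : (L : ℕ) → Ten I L → Prop) (n : ℕ) : Prop :=
  ∃ (T : Type) (_ : Fintype T) (_ : DecidableEq T) (f : T → Matrix I I ℂ), Fintype.card T = n ∧
    (∀ s, Cen D At (f s)) ∧ (∀ s, f s ≠ 0) ∧ (∀ s, f s * f s = f s) ∧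
    (∀ s t, s ≠ t → f s * f t = 0) ∧ ∑ s, f s = 1

theorem q_bound {n : ℕ} (h : Q D At n) : n ≤ Module.finrank ℂ (Matrix I I ℂ) := by
  obtain ⟨T, _, _, f, rfl, _, hne, hid, hor, _⟩ := h
  have hli : LinearIndependent ℂ f := by
    rw [Fintype.linearIndependent_iff]
    intro g hg s
    have h1 : (∑ t, g t • f t) * f s = g s • f s := by
      rw [Finset.sum_mul, Finset.sum_eq_single s]
      · rw [Matrix.smul_mul, hid]
      · intro t _ hts
        rw [Matrix.smul_mul, hor t s hts, smul_zero]
      · intro h; exact absurd (Finset.mem_univ _) h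
    rw [hg, Matrix.zero_mul] at h1
    exact (smul_eq_zero.1 h1.symm).resolve_right (hne s)
  exact hli.fintype_card_le_finrank

theorem q_exists (S : ASys D At) (he : ∀ i j, D.typ i = D.typ j) : ∃ n, Q D At n := by
  by_cases hI : IsEmpty I
  · exact ⟨0, Empty, inferInstance, inferInstance, Empty.elim, by simp, fun s => s.elim,
      fun s => s.elim, fun s => s.elim, fun s => s.elim, Subsingleton.elim _ _⟩
  · obtain ⟨a⟩ := not_isEmpty_iff.1 hI
    refine ⟨1, Unit, inferInstance, inferInstance, fun _ => 1, by simp, fun _ => cen_one S he,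
      fun _ h => ?_, fun _ => Matrix.one_mul _, fun s t h => absurd (Subsingleton.elim s t) h,
      by simp⟩
    have := congrFun (congrFun h a) a
    simp at this

theorem exists_fam (S : ASys D At) (ho : ∀ i, D.odd (D.typ i))
    (he : ∀ i j, D.typ i = D.typ j) :
    ∃ (T : Type) (_ : Fintype T) (_ : DecidableEq T) (f : T → Matrix I I ℂ) (bar : T → T),
      Fam D At f bar := by
  classical
  have hbd : BddAbove {n | Q D At n} := ⟨_, fun n hn => q_bound hn⟩
  obtain ⟨n, hn, hmax⟩ : ∃ n, Q D At n ∧ ∀ m, Q D At m → m ≤ n :=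
    ⟨_, Nat.sSup_mem (q_exists S he) hbd, fun m hm => le_csSup hbd hm⟩
  obtain ⟨T, iF, iD, f, hcard, hcen, hne, hid, hor, hsum⟩ := hn
  have atom : ∀ e, Cen D At e → e * e = e → ∀ s, e * f s = 0 ∨ e * f s = f s := by
    intro e hce hee s0
    by_contra hcon
    push Not at hcon
    obtain ⟨h0, h1⟩ := hcon
    obtain ⟨a, ha⟩ : ∃ a, a = e * f s0 := ⟨_, rfl⟩
    rw [← ha] at h0 h1
    have hca : Cen D At a := by rw [ha]; exact Cen.mul S ho he hce (hcen s0)
    have haa : a * a = a := by
      rw [ha]
      calc e * f s0 * (e * f s0) = e * (f s0 * e) * f s0 := by noncomm_ring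
        _ = (e * e) * (f s0 * f s0) := by
          rw [(hcen s0).comm e hce.mem]; noncomm_ring
        _ = e * f s0 := by rw [hee, hid]
    have ha0 : a * f s0 = a := by rw [ha, Matrix.mul_assoc, hid]
    have has : ∀ s, s ≠ s0 → a * f s = 0 := by
      intro s hs
      rw [ha, Matrix.mul_assoc, hor s0 s (Ne.symm hs), Matrix.mul_zero]
    have hcb : Cen D At (1 - a) := (cen_one S he).sub hca
    have hab : a * (1 - a) = 0 := by rw [Matrix.mul_sub, haa, Matrix.mul_one, sub_self]
    have hba : (1 - a) * a = 0 := by rw [Matrix.sub_mul, haa, Matrix.one_mul, sub_self]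
    have hbb : (1 - a) * (1 - a) = 1 - a := by
      rw [Matrix.mul_sub, hba, Matrix.mul_one, sub_zero]
    have hQ : Q D At (Fintype.card (Option T)) := by
      refine ⟨Option T, inferInstance, inferInstance,
        fun o => o.elim a fun s => (1 - a) * f s, rfl, ?_, ?_, ?_, ?_, ?_⟩
      · rintro (_ | s)
        · exact hca
        · exact Cen.mul S ho he hcb (hcen s)
      · rintro (_ | s)
        · exact h0
        · change (1 - a) * f s ≠ 0
          intro h
          rw [Matrix.sub_mul, Matrix.one_mul, sub_eq_zero] at h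
          by_cases hs : s = s0
          · subst hs
            rw [ha0] at h
            exact h1 h.symm
          · rw [has s hs] at h
            exact hne s h
      · rintro (_ | s)
        · exact haa
        · change (1 - a) * f s * ((1 - a) * f s) = (1 - a) * f s
          calc (1 - a) * f s * ((1 - a) * f s) = (1 - a) * (f s * (1 - a)) * f s := by
                noncomm_ring
            _ = ((1 - a) * (1 - a)) * (f s * f s) := by
                rw [(hcen s).comm _ hcb.mem]; noncomm_ring
            _ = _ := by rw [hbb, hid]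
      · rintro (_ | s) (_ | t) hst
        · exact absurd rfl hst
        · change a * ((1 - a) * f t) = 0
          rw [← Matrix.mul_assoc, hab, Matrix.zero_mul]
        · change (1 - a) * f s * a = 0
          rw [Matrix.mul_assoc, (hcen s).comm _ hca.mem, ← Matrix.mul_assoc, hba,
            Matrix.zero_mul]
        · change (1 - a) * f s * ((1 - a) * f t) = 0
          have hst' : s ≠ t := fun h => hst (by rw [h])
          calc (1 - a) * f s * ((1 - a) * f t) = (1 - a) * (f s * (1 - a)) * f t := by
                noncomm_ring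
            _ = ((1 - a) * (1 - a)) * (f s * f t) := by
                rw [(hcen s).comm _ hcb.mem]; noncomm_ring
            _ = _ := by rw [hor s t hst', Matrix.mul_zero]
      · rw [Fintype.sum_option]
        change a + ∑ s, (1 - a) * f s = 1
        rw [← Finset.mul_sum, hsum, Matrix.mul_one, add_sub_cancel]
    have h2 := hmax _ hQ
    rw [Fintype.card_option, hcard] at h2
    omega
  have hdagc : ∀ s, Cen D At (Nd.dag D (f s)) := fun s => (hcen s).dag S ho
  have hdagi : ∀ s, Nd.dag D (f s) * Nd.dag D (f s) = Nd.dag D (f s) := fun s => by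
    rw [← dag_mul ho, hid]
  have hdag0 : Nd.dag D (0 : Matrix I I ℂ) = 0 := by
    unfold Nd.dag
    simp
  have hdagn : ∀ s, Nd.dag D (f s) ≠ 0 := fun s h => hne s (by
    rw [← dag_dag ho (f s), h, hdag0])
  have hbar : ∀ s, ∃ t, f t = Nd.dag D (f s) := by
    intro s
    obtain ⟨t, ht⟩ : ∃ t, Nd.dag D (f s) * f t ≠ 0 := by
      by_contra h
      push Not at h
      apply hdagn s
      calc Nd.dag D (f s) = Nd.dag D (f s) * ∑ t, f t := by rw [hsum, Matrix.mul_one]
        _ = 0 := by rw [Finset.mul_sum]; exact Finset.sum_eq_zero fun t _ => h t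
    have h1 := (atom _ (hdagc s) (hdagi s) t).resolve_left ht
    refine ⟨t, ?_⟩
    have h2 : Nd.dag D (f t) * f s = Nd.dag D (f t) := by
      have h3 := congrArg (Nd.dag D) h1
      rw [dag_mul ho, dag_dag ho] at h3
      exact h3
    have h4 := (atom _ (hdagc t) (hdagi t) s).resolve_left (by rw [h2]; exact hdagn t)
    rw [h2] at h4
    rw [← h4, dag_dag ho]
  choose bar hbar using hbar
  have hinj : ∀ s t, f s = f t → s = t := by
    intro s t h
    by_contra hst
    have h1 := hor s t hst
    rw [← h, hid] at h1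
    exact hne s h1
  refine ⟨T, iF, iD, f, bar, hcen, hne, hid, hor, hsum, atom, fun s => ?_, fun s => (hbar s).symm⟩
  apply hinj
  rw [hbar, hbar, dag_dag ho]

end Pool.Agent.Lib.MP_361a6f_ag.FL.E.Rot
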