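import Pool.Agent.Lib.MP_361a6f_ag.FL.E.DefsH
import Pool.Agent.Lib.MP_361a6f_ag.FL.E.RotA

/-!
# Theorem K in coordinates (42, finding 5388): the data and the rows

As Theorem E3, but `at most three pieces` is replaced by a condition on the parities of the tensors
(`KCond`), which follows from the rationality of the system and a condition on the conjugates of the
eigenvalues of a central element (`Gal`).
-/

open Filter Topology

namespace Pool.Agent.Lib.MP_361a6f_ag.FL.E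

/-- the pieces with an odd number of letters in the word `c` -/
def odds {B : Type} [Fintype B] [DecidableEq B] {L : ℕ} (c : Fin L → B) : Finset B :=
  Finset.univ.filter fun b => Odd (Finset.univ.filter fun j => c j = b).card

/-- a decomposition of the space into stable subspaces, given by its projections -/
structure Dec {I Λ : Type} [Fintype I] [DecidableEq I] (D : Dat I Λ)
    (At : (L : ℕ) → Ten I L → Prop) (Γ : Set (Matrix I I ℂ)) {B : Type} [Fintype B]
    [DecidableEq B] (π : B → Matrix I I ℂ) : Prop where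
  sum : ∑ b, π b = 1
  mul : ∀ b b', π b * π b' = if b = b' then π b else 0
  stab : ∀ b, StabU D At Γ (LinearMap.range (Matrix.toLin' (π b)))

/-- the condition on the parities in length `L` -/
def KCond {I Λ : Type} [Fintype I] [DecidableEq I] (D : Dat I Λ)
    (At : (L : ℕ) → Ten I L → Prop) (Γ : Set (Matrix I I ℂ)) (L : ℕ) : Prop :=
  ∃ M : ℕ, ∀ (B : Type) [Fintype B] [DecidableEq B] (π : B → Matrix I I ℂ), Dec D At Γ π →
    (∀ L', L' ≤ M → ∀ (c : Fin L' → B) (u : Ten I L'), At L' u →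
      Rot.slT (fun j => π (c j)) u ≠ 0 → (odds c).card ≠ 2) →
    ∀ (c : Fin L → B) (u : Ten I L), At L u → Rot.slT (fun j => π (c j)) u ≠ 0 → odds c = ∅

/-- THEOREM K in coordinates: `ψ` is positive definite on the real span of the tensors of length
`L` of the system. -/
def ThmKStatement : Prop :=
  ∀ {I Λ : Type} [Fintype I] [DecidableEq I] [DecidableEq Λ] (D : Dat I Λ)
    (At Bt : (L : ℕ) → Ten I L → Prop) (l : I → ℂ) (Γ : Set (Matrix I I ℂ))
    {β : Type} [Fintype β] (lb : β → ℕ) (b : Tup I lb), CSys D At Bt l Γ lb b →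
    (∀ U : Submodule ℂ (I → ℂ), StabU D At Γ U →
      (∀ v ∈ U, ∀ w ∈ U, dotProduct v ((Psi D).mulVec w) = 0) → U = ⊥) →
    ∀ L : ℕ, KCond D At Γ L → ∀ u : Ten I L, u ∈ Submodule.span ℝ {u | At L u} → u ≠ 0 →
      ∃ r : ℝ, 0 < r ∧ psiT D u u = (r : ℂ)

/-- Row K1: as row H5, without the condition on four subspaces. The letters are divided into
classes; a tensor killed by `S` has no words with exactly two odd classes, and `diag k` fixes it if
all classes are even in all its words. -/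
def K1Statement : Prop :=
  ∀ {I : Type} [Fintype I] [DecidableEq I] (S : Submodule ℂ (Matrix I I ℂ))
    (E : Set (Matrix I I ℂ)) (P : Matrix I I ℂ),
    (∀ x ∈ S, ∀ y ∈ S, x * y - y * x ∈ S) → (∀ x ∈ S, x.conjTranspose ∈ S) →
    (∀ e ∈ E, ∀ A ∈ S, e * A = A * e) → (∀ A ∈ S, A.transpose * P + P * A = 0) → IsUnit P →
    ∀ a : I → ℂ, (∀ i, (starRingEnd ℂ) (a i) = a i) → Matrix.diagonal a ∈ S →
    ∀ k : I → ℂ, (∀ i, ‖k i‖ = 1) → (∀ i j, a i = a j → k i = k j) →
    (∀ e ∈ E, e * Matrix.diagonal k = Matrix.diagonal k * e) →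
    (Matrix.diagonal k).transpose * P * Matrix.diagonal k = P →
    (∀ A ∈ S, Matrix.diagonal k * A * Matrix.diagonal (fun i => (k i)⁻¹) ∈ S) →
    (∀ U : Submodule ℂ (I → ℂ), (∀ A ∈ S, ∀ v ∈ U, A.mulVec v ∈ U) →
      (∀ e ∈ E, ∀ v ∈ U, e.mulVec v ∈ U) →
      (∀ v ∈ U, ∀ w ∈ U, dotProduct v (P.mulVec w) = 0) → U = ⊥) →
    ∃ (B : Type) (_ : Fintype B) (_ : DecidableEq B) (π : B → Matrix I I ℂ), ∑ b, π b = 1 ∧
      (∀ b b', π b * π b' = if b = b' then π b else 0) ∧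
      (∀ b, (∀ A ∈ S, A * π b = π b * A) ∧ ∀ e ∈ E, e * π b = π b * e) ∧
      ∀ (L : ℕ) (u : Ten I L), (∀ A ∈ S, aT A u = 0) →
        (∀ c : Fin L → B, Rot.slT (fun j => π (c j)) u ≠ 0 → (odds c).card ≠ 2) ∧
        ((∀ c : Fin L → B, Rot.slT (fun j => π (c j)) u ≠ 0 → odds c = ∅) →
          gT (Matrix.diagonal k) u = u)

/-- Row K2: the assembly (as H6). -/
def K2Statement : Prop :=
  G1Statement → P2Statement → E2Statement → P3Statement → G4Statement → G4bStatement →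
    K1Statement → ThmKStatement

/-- Every family of subsets with an even number of elements of the set `R` that is closed under
symmetric differences and under the automorphisms of `ℂ` is generated by its members with two
elements. -/
def Gal (R : Set ℂ) : Prop :=
  ∀ 𝓛 : Set (Set ℂ), (∀ S ∈ 𝓛, S ⊆ R ∧ Even S.ncard) →
    (∀ S ∈ 𝓛, ∀ T ∈ 𝓛, symmDiff S T ∈ 𝓛) → (∀ S ∈ 𝓛, ∀ γ : ℂ ≃+* ℂ, γ '' S ∈ 𝓛) →
    ∀ 𝓜 : Set (Set ℂ), ∅ ∈ 𝓜 → (∀ S ∈ 𝓜, ∀ T ∈ 𝓜, symmDiff S T ∈ 𝓜) →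
      (∀ S ∈ 𝓛, S.ncard = 2 → S ∈ 𝓜) → 𝓛 ⊆ 𝓜

/-- Row K3: the condition on the parities from a central element whose eigenvalues form a set `R`
stable under the automorphisms of `ℂ` with `Gal R`, and whose eigenspaces are minimal stable
subspaces. -/
def K3Statement : Prop :=
  ∀ {I Λ : Type} [Fintype I] [DecidableEq I] [DecidableEq Λ] (D : Dat I Λ)
    (At : (L : ℕ) → Ten I L → Prop) (Γ : Set (Matrix I I ℂ)), ASys D At →
    (∀ i j, D.typ i = D.typ j) → (∀ i, D.odd (D.typ i)) → (∀ x ∈ Γ, IsG D x) →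
    (∀ x ∈ Γ, ∀ L u, At L u → gT x u = u) →
    (∀ L, ∀ u ∈ Submodule.span ℂ {u | At L u}, u ≠ 0 →
      ∃ v ∈ Submodule.span ℂ {u | At L u}, psiT D u v ≠ 0) →
    ∀ z : Ten I 2, At 2 z → (∀ z', At 2 z' → opM D z * opM D z' = opM D z' * opM D z) →
    ∀ R : Finset ℂ, (∀ γ : ℂ ≃+* ℂ, ∀ a ∈ R, γ a ∈ R) →
    (∀ v : I → ℂ, v ∈ Submodule.span ℂ {v | ∃ a ∈ R, (opM D z).mulVec v = a • v}) →
    (∀ a ∈ R, ∀ U : Submodule ℂ (I → ℂ), StabU D At Γ U →
      (∀ v ∈ U, (opM D z).mulVec v = a • v) → U ≠ ⊥ →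
      ∀ v, (opM D z).mulVec v = a • v → v ∈ U) →
    Gal (R : Set ℂ) → ∀ L, KCond D At Γ L

end Pool.Agent.Lib.MP_361a6f_ag.FL.E
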