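import Pool.Agent.Lib.MP_361a6f_ag.FL.E.Defs
import Pool.Agent.Lib.MP_361a6f_ag.FL.B.Defs

/-!
# Theorem E+ in coordinates (helper93, finding 5284): the data and the rows

As `FL/E/Defs.lean`, but Frobenius may have multiple eigenvalues: instead of distinct eigenvalues
there is a tuple `b` of rational tensors of the specialisation (the endomorphisms of the reduction)
that is fixed by `J₀` and whose stabiliser consists of matrices that are scalar on the eigenspaces
of Frobenius. The irreducibility is asked only for subspaces stable under the operators `opM D z`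
with `z` in `At 2` (the endomorphisms of the generic variety; helper44's form, centre `ℚ`).
-/

open Filter Topology MeasureTheory

namespace Pool.Agent.Lib.MP_361a6f_ag.FL.E

variable {I Λ : Type} [Fintype I] [DecidableEq I] [DecidableEq Λ]

/-- the matrix of a tensor of length `2`: `z = (opM z ⊗ 1) om` -/
def opM (D : Dat I Λ) (z : Ten I 2) : Matrix I I ℂ := fun i j => z ![i, D.τ j] * D.s j

/-- the data of Theorem E+ -/
structure PSys (D : Dat I Λ) (At Bt : (L : ℕ) → Ten I L → Prop) (l : I → ℂ)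
    (Γ : Set (Matrix I I ℂ)) {β : Type} [Fintype β] (lb : β → ℕ) (b : Tup I lb) : Prop where
  sys : ASys D At
  typ_eq : ∀ i j, D.typ i = D.typ j
  odd : ∀ i, D.odd (D.typ i)
  norm : ∀ i, ‖l i‖ = 1
  tau : ∀ i, l (D.τ i) * l i = 1
  ratio : ∀ i j, l i ≠ l j → ∀ n : ℕ, 0 < n → l i ^ n ≠ l j ^ n
  fix : ∀ L u, At L u → gT (Matrix.diagonal l) u = u
  rsys : RSys D Bt
  sub : ∀ L u, At L u → Bt L u
  bmem : ∀ i, Bt (lb i) (b i)
  base : IsBase D b
  comm : ∀ x, IsG D x → gS x b = b →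
    ∃ z : I → ℂ, (∀ i j, l i = l j → z i = z j) ∧ x = Matrix.diagonal z
  grp : ∀ x ∈ Γ, IsG D x
  gfix : ∀ x ∈ Γ, ∀ L u, At L u → gT x u = u
  orbit : ∀ U : Submodule ℂ (I → ℂ),
    (∀ z, At 2 z → ∀ v ∈ U, (opM D z).mulVec v ∈ U) →
    {U' : Submodule ℂ (I → ℂ) | ∃ x ∈ Γ, U' = U.map (Matrix.toLin' x)}.Finite → U = ⊥ ∨ U = ⊤
  nd : ∀ L, ∀ u ∈ Submodule.span ℂ {u | At L u}, u ≠ 0 →
    ∃ v ∈ Submodule.span ℂ {u | At L u}, psiT D u v ≠ 0

/-- THEOREM E+ in coordinates: `ψ` is positive definite on the real span of the system. -/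
def ThmPStatement : Prop :=
  ∀ {I Λ : Type} [Fintype I] [DecidableEq I] [DecidableEq Λ] (D : Dat I Λ)
    (At Bt : (L : ℕ) → Ten I L → Prop) (l : I → ℂ) (Γ : Set (Matrix I I ℂ))
    {β : Type} [Fintype β] (lb : β → ℕ) (b : Tup I lb),
    PSys D At Bt l Γ lb b → ∀ (L : ℕ) (u : Ten I L), u ∈ Submodule.span ℝ {u | At L u} → u ≠ 0 →
      ∃ r : ℝ, 0 < r ∧ psiT D u u = (r : ℂ)

/-- the situation at level `m` for E+: as `Lvl`, `k` is scalar on the eigenspaces of `diag l`, and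
the members of length `2` of `t` are not changed -/
structure LvlP (D : Dat I Λ) (At : (L : ℕ) → Ten I L → Prop) (l : I → ℂ) (m : ℕ)
    {ι : Type} [Fintype ι] (len : ι → ℕ) (t s : Tup I len) (x : Matrix I I ℂ) (k : I → ℂ) :
    Prop where
  lvl : Lvl D At l m len t s x k
  blk : ∀ i j, l i = l j → k i = k j
  two : ∀ i, len i = 2 → s i = t i

/-- Row P1 (95, 72, 84): the situation at every level exists. -/
def P1Statement : Prop :=
  ∀ {I Λ : Type} [Fintype I] [DecidableEq I] [DecidableEq Λ] (D : Dat I Λ)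
    (At Bt : (L : ℕ) → Ten I L → Prop) (l : I → ℂ) (Γ : Set (Matrix I I ℂ))
    {β : Type} [Fintype β] (lb : β → ℕ) (b : Tup I lb),
    PSys D At Bt l Γ lb b → ∀ m : ℕ, ∃ (ι : Type) (_ : Fintype ι) (len : ι → ℕ) (t s : Tup I len)
      (x : Matrix I I ℂ) (k : I → ℂ), LvlP D At l m len t s x k

/-- Row P2 (done by 72 for `E2`; here in addition: closed under `*`). -/
def P2Statement : Prop :=
  ∀ {I Λ ι : Type} [Fintype I] [DecidableEq I] [DecidableEq Λ] [Fintype ι] {len : ι → ℕ}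
    (D : Dat I Λ) (s : Tup I len), Minimal D s → ∀ A ∈ stab D s, A.conjTranspose ∈ stab D s

/-- Row P3 (98): the stabiliser contains a real diagonal matrix that separates the eigenvalues. -/
def P3Statement : Prop :=
  ∀ {I Λ ι : Type} [Fintype I] [DecidableEq I] [DecidableEq Λ] [Fintype ι] {len : ι → ℕ}
    (D : Dat I Λ) (s : Tup I len) (l : I → ℂ), (∀ i j, D.typ i = D.typ j) →
    (∀ i, D.odd (D.typ i)) → (∀ i, l (D.τ i) * l i = 1) →
    (∀ i j, l i ≠ l j → ∀ n : ℕ, 0 < n → l i ^ n ≠ l j ^ n) →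
    gS (Matrix.diagonal l) s = s →
    ∃ a : I → ℂ, (∀ i j, a i = a j ↔ l i = l j) ∧ (∀ i, (starRingEnd ℂ) (a i) = a i) ∧
      Matrix.diagonal a ∈ stab D s

/-- Row P4 (93): the Lie algebra of the stabiliser together with the endomorphisms is
irreducible. -/
def P4Statement : Prop :=
  ∀ {I Λ : Type} [Fintype I] [DecidableEq I] [DecidableEq Λ] (D : Dat I Λ)
    (At Bt : (L : ℕ) → Ten I L → Prop) (l : I → ℂ) (Γ : Set (Matrix I I ℂ))
    {β : Type} [Fintype β] (lb : β → ℕ) (b : Tup I lb),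
    PSys D At Bt l Γ lb b → ∀ (m : ℕ), 2 ≤ m → ∀ {ι : Type} [Fintype ι] (len : ι → ℕ)
      (t s : Tup I len) (x : Matrix I I ℂ) (k : I → ℂ), LvlP D At l m len t s x k →
    ∀ U : Submodule ℂ (I → ℂ), (∀ A ∈ stab D s, ∀ v ∈ U, A.mulVec v ∈ U) →
      (∀ z, At 2 z → ∀ v ∈ U, (opM D z).mulVec v ∈ U) → U = ⊥ ∨ U = ⊤

/-- Row P4b: the matrices `opM D z`, `z ∈ At 2`, commute with the stabiliser and with `diag k`. -/
def P4bStatement : Prop :=
  ∀ {I Λ : Type} [Fintype I] [DecidableEq I] [DecidableEq Λ] (D : Dat I Λ)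
    (At Bt : (L : ℕ) → Ten I L → Prop) (l : I → ℂ) (Γ : Set (Matrix I I ℂ))
    {β : Type} [Fintype β] (lb : β → ℕ) (b : Tup I lb),
    PSys D At Bt l Γ lb b → ∀ (m : ℕ), 2 ≤ m → ∀ {ι : Type} [Fintype ι] (len : ι → ℕ)
      (t s : Tup I len) (x : Matrix I I ℂ) (k : I → ℂ), LvlP D At l m len t s x k →
    ∀ z, At 2 z → (∀ A ∈ stab D s, opM D z * A = A * opM D z) ∧
      opM D z * Matrix.diagonal k = Matrix.diagonal k * opM D z

/-- Row P5 (LEMMA R' with endomorphisms): `h` a Lie algebra of matrices of trace zero, closed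
under `*`, `𝓔` a set of matrices commuting with `h` and `diag k`, `h` and `𝓔` together irreducible,
`diag a ∈ h`, `a` real, `diag k` constant where `a` is, `diag k` normalises `h`. Then
`diag k` acts by `c ^ L` on the tensors of length `L` killed by `h` (`diag k = c exp B`, `B` in
`h`). -/
def P5Statement : Prop :=
  ∀ {I : Type} [Fintype I] [DecidableEq I] (S : Submodule ℂ (Matrix I I ℂ))
    (E : Set (Matrix I I ℂ)),
    (∀ x ∈ S, ∀ y ∈ S, x * y - y * x ∈ S) → (∀ x ∈ S, x.trace = 0) →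
    (∀ x ∈ S, x.conjTranspose ∈ S) → (∀ e ∈ E, ∀ A ∈ S, e * A = A * e) →
    (∀ U : Submodule ℂ (I → ℂ), (∀ A ∈ S, ∀ v ∈ U, A.mulVec v ∈ U) →
      (∀ e ∈ E, ∀ v ∈ U, e.mulVec v ∈ U) → U = ⊥ ∨ U = ⊤) →
    ∀ a : I → ℂ, (∀ i, (starRingEnd ℂ) (a i) = a i) → Matrix.diagonal a ∈ S →
    ∀ k : I → ℂ, (∀ i, k i ≠ 0) → (∀ i j, a i = a j → k i = k j) →
    (∀ e ∈ E, e * Matrix.diagonal k = Matrix.diagonal k * e) →
    (∀ A ∈ S, Matrix.diagonal k * A * Matrix.diagonal (fun i => (k i)⁻¹) ∈ S) →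
    ∃ c : ℂ, ∀ (L : ℕ) (u : Ten I L), (∀ A ∈ S, aT A u = 0) →
      gT (Matrix.diagonal k) u = c ^ L • u

/-- Row P6: the assembly. -/
def P6Statement : Prop :=
  P1Statement → P2Statement → E2Statement → P3Statement → P4Statement → P4bStatement →
    P5Statement → ThmPStatement

/-- E is the case of distinct eigenvalues. -/
def PtoEStatement : Prop := ThmPStatement → ThmEStatement

end Pool.Agent.Lib.MP_361a6f_ag.FL.E
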