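import Pool.Agent.Lib.MP_361a6f_ag.FL.E.Defs
import Pool.Agent.Lib.MP_361a6f_ag.FL.Z.Abs
import Pool.Agent.Lib.MP_361a6f_ag.FL.Fft
import Pool.Agent.Lib.MP_361a6f_ag.FL.Alg1
import Pool.Agent.Lib.MP_361a6f_ag.FL.Al2
import Pool.Agent.Lib.MP_361a6f_ag.FL.Avg
import Pool.Agent.Lib.MP_361a6f_ag.FL.Vol
import Pool.Agent.Lib.MP_361a6f_ag.FL.Tan
import Pool.Agent.Lib.MP_361a6f_ag.FL.Pha
import Pool.Agent.Lib.MP_361a6f_ag.FL.L12
import Pool.Agent.Lib.MP_361a6f_ag.FL.Clo
import Pool.Agent.Lib.MP_361a6f_ag.FL.Cpt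
import Pool.Agent.Lib.MP_361a6f_ag.FL.B.Mib
import Pool.Agent.Lib.MP_361a6f_ag.FL.B.Alb

/-!
# Theorem E, row E1: the situation at every level

A minimal point for the centraliser of `diag l` is minimal for the whole group; the orbit is
closed; the element of the compact group that carries `(s, g₀)` to `J₀ (s, g₀)` is diagonal.
-/

open Filter Topology MeasureTheory

set_option autoImplicit false
set_option linter.unusedSectionVars false

namespace Pool.Agent.Lib.MP_361a6f_ag.FL.E

namespace E1P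

variable {I Λ ι : Type} [Fintype I] [DecidableEq I] [DecidableEq Λ] [Fintype ι] {len : ι → ℕ}
  {D : Dat I Λ}

/-! ### Tensors of length two -/

theorem sum_two {M : Type*} [AddCommMonoid M] (f : (Fin 2 → I) → M) :
    ∑ w, f w = ∑ i, ∑ j, f ![i, j] := by
  rw [← Fintype.sum_prod_type' (f := fun i j => f ![i, j])]
  exact (Fintype.sum_equiv (finTwoArrowEquiv I).symm (fun p : I × I => f ![p.1, p.2]) f
    (fun p => rfl)).symm

/-- the tensor of length two of a matrix -/
def tw (M : Matrix I I ℂ) : Ten I 2 := fun w => M (w 0) (w 1)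

theorem tw_inj {M N : Matrix I I ℂ} (h : tw M = tw N) : M = N := by
  ext i j
  exact congrFun h ![i, j]

theorem gT_tw (g M : Matrix I I ℂ) : gT g (tw M) = tw (g * M * g.transpose) := by
  funext w
  unfold gT tw
  rw [sum_two, Matrix.mul_apply]
  rw [Finset.sum_comm]
  refine Finset.sum_congr rfl fun j _ => ?_
  rw [Matrix.mul_apply, Finset.sum_mul]
  refine Finset.sum_congr rfl fun i _ => ?_
  rw [Fin.prod_univ_two, Matrix.transpose_apply]
  simp only [Matrix.cons_val_zero, Matrix.cons_val_one]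
  ring

theorem aT_tw (A M : Matrix I I ℂ) : aT A (tw M) = tw (A * M + M * A.transpose) := by
  funext w
  unfold aT tw
  rw [Fin.sum_univ_two, Matrix.add_apply, Matrix.mul_apply, Matrix.mul_apply]
  congr 1
  refine Finset.sum_congr rfl fun j _ => ?_
  rw [Matrix.transpose_apply]
  have h1 : Function.update w 1 j 0 = w 0 := Function.update_of_ne (by decide) _ _
  have h2 : Function.update w 1 j 1 = j := Function.update_self _ _ _
  rw [h1, h2, mul_comm]

theorem gten_eq (l : I → ℂ) : gten D l = tw (Matrix.diagonal l * Psi D) := by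
  funext w
  unfold gten tw
  rw [Matrix.diagonal_mul, Psi, Matrix.of_apply]
  split_ifs with h
  · rfl
  · rw [mul_zero]

variable (hodd : ∀ i, D.odd (D.typ i))

include hodd in
theorem psi_sq : Psi D * Psi D = -1 := by
  ext i j
  rw [Matrix.mul_apply, Finset.sum_eq_single (D.τ i)]
  · rw [Psi, Matrix.of_apply, Matrix.of_apply, if_pos rfl, D.τ_τ, Matrix.neg_apply,
      Matrix.one_apply]
    by_cases h : j = i
    · rw [if_pos h, if_pos h.symm]
      exact (XY.s_mul D i).2 (hodd i)
    · rw [if_neg h, if_neg (fun h' => h h'.symm), mul_zero, neg_zero]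
  · intro k _ hk
    rw [Psi, Matrix.of_apply, if_neg hk, zero_mul]
  · intro h
    exact absurd (Finset.mem_univ _) h

include hodd in
/-- an element of the group that fixes `gten` commutes with `diag l` -/
theorem comm_of_fix {g : Matrix I I ℂ} (hg : IsG D g) {l : I → ℂ}
    (h : gT g (gten D l) = gten D l) : g * Matrix.diagonal l = Matrix.diagonal l * g := by
  rw [gten_eq, gT_tw] at h
  have h1 := tw_inj h
  have h2 : g * (Matrix.diagonal l * Psi D) * g.transpose * (Psi D * g) =
      Matrix.diagonal l * Psi D * (Psi D * g) := by rw [h1]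
  have h3 : g * (Matrix.diagonal l * Psi D) * g.transpose * (Psi D * g) =
      g * Matrix.diagonal l * (Psi D * (g.transpose * Psi D * g)) := by
    simp only [Matrix.mul_assoc]
  have h4 : Matrix.diagonal l * Psi D * (Psi D * g) =
      Matrix.diagonal l * ((Psi D * Psi D) * g) := by
    simp only [Matrix.mul_assoc]
  rw [h3, h4, hg.2, psi_sq hodd] at h2
  rw [Matrix.mul_neg, Matrix.mul_one, Matrix.neg_mul, Matrix.one_mul, Matrix.mul_neg] at h2
  exact neg_injective h2

include hodd in
theorem psi_adj {A : Matrix I I ℂ} (hA : IsLie D A) : Psi D * A.transpose = -(A * Psi D) := by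
  have h1 : Psi D * (A.transpose * Psi D + Psi D * A) * Psi D = 0 := by
    rw [hA.2, Matrix.mul_zero, Matrix.zero_mul]
  have h2 : Psi D * (A.transpose * Psi D + Psi D * A) * Psi D =
      Psi D * A.transpose * (Psi D * Psi D) + (Psi D * Psi D) * A * Psi D := by
    rw [Matrix.mul_add, Matrix.add_mul]
    simp only [Matrix.mul_assoc]
  rw [h2, psi_sq hodd, Matrix.mul_neg, Matrix.mul_one, Matrix.neg_mul, Matrix.one_mul,
    Matrix.neg_mul] at h1
  have h3 : -(Psi D * A.transpose + A * Psi D) = 0 := by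
    rw [neg_add]
    exact h1
  exact eq_neg_of_add_eq_zero_left (neg_eq_zero.1 h3)

include hodd in
/-- the Frobenius tensor is a minimal point -/
theorem min_gten {A : Matrix I I ℂ} (hA : IsLie D A) (l : I → ℂ) :
    hT (aT A (gten D l)) (gten D l) = 0 := by
  have h1 : aT A (gten D l) =
      tw ((A * Matrix.diagonal l - Matrix.diagonal l * A) * Psi D) := by
    rw [gten_eq, aT_tw]
    congr 1
    rw [Matrix.mul_assoc, psi_adj hodd hA, Matrix.sub_mul]
    simp only [Matrix.mul_assoc, Matrix.mul_neg, sub_eq_add_neg]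
  rw [h1]
  unfold hT
  refine Finset.sum_eq_zero fun w _ => ?_
  by_cases h : w 1 = D.τ (w 0)
  · have h2 : tw ((A * Matrix.diagonal l - Matrix.diagonal l * A) * Psi D) w = 0 := by
      unfold tw
      rw [h, Matrix.mul_apply]
      refine Finset.sum_eq_zero fun k _ => ?_
      by_cases hk : k = w 0
      · have h3 : A (w 0) (w 0) * l (w 0) - l (w 0) * A (w 0) (w 0) = 0 := by ring
        rw [hk, Matrix.sub_apply, Matrix.mul_diagonal, Matrix.diagonal_mul, h3, zero_mul]
      · rw [Psi, Matrix.of_apply, if_neg, mul_zero]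
        intro h'
        apply hk
        have h3 := congrArg D.τ h'
        rw [D.τ_τ, D.τ_τ] at h3
        exact h3.symm
    rw [h2, zero_mul]
  · have h2 : gten D l w = 0 := if_neg h
    rw [h2, map_zero, mul_zero]

theorem s_sq (i : I) : D.s i * D.s i = 1 := by
  rcases D.s_val i with h | h <;> rw [h] <;> norm_num

theorem s_conj (i : I) : (starRingEnd ℂ) (D.s i) = D.s i := by
  rcases D.s_val i with h | h <;> rw [h] <;> simp

theorem conj_l {l : I → ℂ} (hn : ∀ i, ‖l i‖ = 1) (ht : ∀ i, l (D.τ i) * l i = 1) (i : I) :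
    (starRingEnd ℂ) (l (D.τ i)) = l i := by
  have h1 : l (D.τ i) ≠ 0 := by
    intro h
    have := ht i
    rw [h, zero_mul] at this
    exact zero_ne_one this
  have h2 : l (D.τ i) * (starRingEnd ℂ) (l (D.τ i)) = 1 := by
    rw [Complex.mul_conj, Complex.normSq_eq_norm_sq, hn]
    norm_num
  exact mul_left_cancel₀ h1 (h2.trans (ht i).symm)

theorem jT_gten {l : I → ℂ} (hn : ∀ i, ‖l i‖ = 1) (ht : ∀ i, l (D.τ i) * l i = 1) :
    jT D (gten D l) = gten D l := by
  funext w
  unfold jT gten sg
  rw [Fin.prod_univ_two]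
  simp only [Function.comp_apply, D.τ_τ]
  by_cases h : w 1 = D.τ (w 0)
  · have h1 : D.τ (w 1) = w 0 := by rw [h, D.τ_τ]
    rw [if_pos h, if_pos h1, map_mul, conj_l hn ht, s_conj, h1]
    have h2 := s_sq (D := D) (D.τ (w 0))
    calc D.s (D.τ (w 0)) * D.s (w 0) * (l (w 0) * D.s (D.τ (w 0)))
        = (D.s (D.τ (w 0)) * D.s (D.τ (w 0))) * (l (w 0) * D.s (w 0)) := by ring
      _ = _ := by rw [h2, one_mul]
  · have h1 : ¬ D.τ (w 1) = w 0 := by
      intro h'
      apply h
      rw [← h', D.τ_τ]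
    rw [if_neg h, if_neg h1, map_zero, mul_zero]

/-! ### Diagonal matrices -/

theorem gT_diag {L : ℕ} (k : I → ℂ) (u : Ten I L) (w : Fin L → I) :
    gT (Matrix.diagonal k) u w = (∏ i, k (w i)) * u w := by
  unfold gT
  rw [Finset.sum_eq_single w]
  · congr 1
    refine Finset.prod_congr rfl fun i _ => ?_
    rw [Matrix.diagonal_apply_eq]
  · intro w' _ h
    obtain ⟨i, hi⟩ := Function.ne_iff.1 h
    rw [Finset.prod_eq_zero (Finset.mem_univ i), zero_mul]
    exact Matrix.diagonal_apply_ne _ (fun h' => hi h'.symm)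
  · intro h
    exact absurd (Finset.mem_univ w) h

theorem isLie_diag {a : I → ℂ} (ha : ∀ i, a i + a (D.τ i) = 0) :
    IsLie D (Matrix.diagonal a) := by
  refine ⟨fun i j h => Matrix.diagonal_apply_ne _ (fun h' => h (by rw [h'])), ?_⟩
  ext i j
  rw [Matrix.diagonal_transpose, Matrix.add_apply, Matrix.diagonal_mul, Matrix.mul_diagonal,
    Matrix.zero_apply, Psi, Matrix.of_apply]
  by_cases h : j = D.τ i
  · rw [if_pos h, h]
    calc a i * D.s i + D.s i * a (D.τ i) = (a i + a (D.τ i)) * D.s i := by ring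
      _ = 0 := by rw [ha, zero_mul]
  · rw [if_neg h, mul_zero, zero_mul, add_zero]

theorem isLieb_diag {a : I → ℂ} (ha : ∀ i, a i + a (D.τ i) = 0) (l : I → ℂ) :
    aT (Matrix.diagonal a) (gten D l) = 0 := by
  rw [gten_eq, aT_tw]
  funext w
  unfold tw
  rw [Matrix.diagonal_transpose, Matrix.add_apply, Matrix.diagonal_mul, Matrix.mul_diagonal,
    Matrix.diagonal_mul, Psi, Matrix.of_apply]
  by_cases h : w 1 = D.τ (w 0)
  · rw [if_pos h, h]
    calc a (w 0) * (l (w 0) * D.s (w 0)) + l (w 0) * D.s (w 0) * a (D.τ (w 0))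
        = (a (w 0) + a (D.τ (w 0))) * (l (w 0) * D.s (w 0)) := by ring
      _ = 0 := by rw [ha, zero_mul]
  · rw [if_neg h]
    simp

/-- the diagonal of an element of the Lie algebra -/
theorem diag_lie {A : Matrix I I ℂ} (hA : IsLie D A) (i : I) : A i i + A (D.τ i) (D.τ i) = 0 := by
  have h1 := congrFun (congrFun hA.2 i) (D.τ i)
  rw [Matrix.add_apply, Matrix.mul_apply, Matrix.mul_apply, Matrix.zero_apply,
    Finset.sum_eq_single i, Finset.sum_eq_single (D.τ i)] at h1
  · rw [Matrix.transpose_apply, Psi, Matrix.of_apply, if_pos rfl] at h1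
    have h2 : (A i i + A (D.τ i) (D.τ i)) * D.s i = 0 := by
      rw [← h1]
      ring
    rcases mul_eq_zero.1 h2 with h3 | h3
    · exact h3
    · have := s_sq (D := D) i
      rw [h3, mul_zero] at this
      exact absurd this zero_ne_one
  · intro k _ hk
    rw [Psi, Matrix.of_apply, if_neg hk, zero_mul]
  · intro h
    exact absurd (Finset.mem_univ _) h
  · intro k _ hk
    rw [Psi, Matrix.of_apply, if_neg, mul_zero]
    intro h'
    apply hk
    have h3 := congrArg D.τ h'
    rw [D.τ_τ, D.τ_τ] at h3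
    exact h3.symm
  · intro h
    exact absurd (Finset.mem_univ _) h

theorem diag_unit {l : I → ℂ} (hn : ∀ i, ‖l i‖ = 1) :
    (Matrix.diagonal l).conjTranspose * Matrix.diagonal l = 1 := by
  rw [Matrix.diagonal_conjTranspose, Matrix.diagonal_mul_diagonal, ← Matrix.diagonal_one]
  congr 1
  funext i
  rw [Pi.star_apply, Complex.star_def, mul_comm, Complex.mul_conj, Complex.normSq_eq_norm_sq, hn]
  norm_num

/-! ### Minimality -/

/-- the form `A ↦ ⟨A s, s⟩` -/
noncomputable def mf (s : Tup I len) : Matrix I I ℂ →ₗ[ℂ] ℂ where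
  toFun A := hS (aS A s) s
  map_add' A B := by
    unfold hS
    rw [← Finset.sum_add_distrib]
    refine Finset.sum_congr rfl fun i _ => ?_
    unfold aS
    rw [alg1.add_aT]
    unfold hT
    rw [← Finset.sum_add_distrib]
    refine Finset.sum_congr rfl fun w _ => ?_
    rw [Pi.add_apply, add_mul]
  map_smul' c A := by
    rw [RingHom.id_apply, smul_eq_mul]
    unfold hS
    rw [Finset.mul_sum]
    refine Finset.sum_congr rfl fun i _ => ?_
    unfold aS
    rw [alg1.smul_aT]
    unfold hT
    rw [Finset.mul_sum]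
    refine Finset.sum_congr rfl fun w _ => ?_
    rw [Pi.smul_apply, smul_eq_mul, mul_assoc]

theorem mf_apply (s : Tup I len) (A : Matrix I I ℂ) : mf s A = hS (aS A s) s := rfl

theorem mf_conj {s : Tup I len} {g g' : Matrix I I ℂ} (hfix : gS g s = s)
    (hu : g.conjTranspose * g = 1) (hg : g * g' = 1) (A : Matrix I I ℂ) :
    mf s (g' * A * g) = mf s A := by
  have hinv : g⁻¹ = g' := Matrix.inv_eq_right_inv hg
  rw [mf_apply, mf_apply]
  unfold hS
  refine Finset.sum_congr rfl fun i _ => ?_
  have h1 : gT g (s i) = s i := congrFun hfix i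
  have h2 : gT g (aT (g' * A * g) (s i)) = aT A (s i) := by
    rw [alg1.gT_aT g _ _ (by rw [hinv, hg]), hinv, h1]
    congr 1
    calc g * (g' * A * g) * g' = (g * g') * A * (g * g') := by simp only [Matrix.mul_assoc]
      _ = A := by rw [hg, Matrix.one_mul, Matrix.mul_one]
  have h3 : gT g.conjTranspose (s i) = s i := by
    conv_lhs => rw [← h1]
    rw [← alg1.gT_mul, hu, alg1.gT_one]
  show hT (aT (g' * A * g) (s i)) (s i) = hT (aT A (s i)) (s i)
  rw [← h2, alg1.hT_gT, h3]

/-- the value at a matrix is the value at its diagonal part -/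
theorem mf_diag {s : Tup I len} {l : I → ℂ} (hfix : gS (Matrix.diagonal l) s = s)
    (hn : ∀ i, ‖l i‖ = 1) (hl : Function.Injective l) (A : Matrix I I ℂ) :
    mf s A = mf s (Matrix.diagonal fun i => A i i) := by
  have hl0 : ∀ i, l i ≠ 0 := fun i h => by
    have := hn i
    rw [h, norm_zero] at this
    exact zero_ne_one this
  have hoff : ∀ i j, i ≠ j → ∀ c, mf s (Matrix.single i j c) = 0 := by
    intro i j hij c
    have h1 := mf_conj hfix (diag_unit hn) (g' := Matrix.diagonal fun i => (l i)⁻¹) (by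
      rw [Matrix.diagonal_mul_diagonal, ← Matrix.diagonal_one]
      congr 1
      funext i
      exact mul_inv_cancel₀ (hl0 i)) (Matrix.single i j c)
    have h2 : Matrix.diagonal (fun i => (l i)⁻¹) * Matrix.single i j c * Matrix.diagonal l =
        ((l i)⁻¹ * l j) • Matrix.single i j c := by
      ext a b
      rw [Matrix.mul_diagonal, Matrix.diagonal_mul, Matrix.smul_apply, smul_eq_mul]
      by_cases hab : a = i ∧ b = j
      · rw [hab.1, hab.2]
        ring
      · have h3 : Matrix.single i j c a b = 0 := by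
          apply Matrix.single_apply_of_ne
          intro h
          exact hab ⟨h.1.symm, h.2.symm⟩
        rw [h3]
        ring
    rw [h2, map_smul, smul_eq_mul] at h1
    have h3 : ((l i)⁻¹ * l j - 1) * mf s (Matrix.single i j c) = 0 := by
      rw [sub_mul, one_mul, h1, sub_self]
    rcases mul_eq_zero.1 h3 with h4 | h4
    · exfalso
      apply hij
      apply hl
      have h5 : (l i)⁻¹ * l j = 1 := sub_eq_zero.1 h4
      field_simp [hl0 i] at h5
      exact h5.symm
    · exact h4
  have h1 : ∀ B : Matrix I I ℂ, mf s B = ∑ i, mf s (Matrix.single i i (B i i)) := by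
    intro B
    conv_lhs => rw [Matrix.matrix_eq_sum_single B]
    rw [map_sum]
    refine Finset.sum_congr rfl fun i _ => ?_
    rw [map_sum, Finset.sum_eq_single i]
    · intro j _ hj
      exact hoff i j (fun h => hj h.symm) _
    · intro h
      exact absurd (Finset.mem_univ _) h
  rw [h1 A, h1 (Matrix.diagonal fun i => A i i)]
  refine Finset.sum_congr rfl fun i _ => ?_
  rw [Matrix.diagonal_apply_eq]

/-! ### Real systems -/

variable {Bt : (L : ℕ) → Ten I L → Prop}

theorem match_mem (S : RSys D Bt) {L : ℕ} {m : Ten I L} (hm : IsMatch D L m) : Bt L m := by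
  induction hm with
  | nil => exact S.one
  | step L m α _ ih => exact S.outer L 2 m (FL.om D α) ih (S.om α)
  | perm L m σ _ ih => exact S.perm L σ m ih

theorem prodT_mem (S : RSys D Bt) {t : Tup I len} (ht : ∀ i, Bt (len i) (t i)) (l : List ι) :
    Bt (l.map len).sum (prodT t l) := by
  induction l with
  | nil => exact S.one
  | cons i l ih => exact S.outer (len i) (l.map len).sum (t i) (prodT t l) (ht i) ih

theorem dm_mem (S : RSys D Bt) {t : Tup I len} (ht : ∀ i, Bt (len i) (t i)) (c : ℕ)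
    (l : List ι) {m : Ten I ((l.map len).sum + c)} (hm : IsMatch D _ m) :
    Bt c (dm D c l m t) :=
  S.cont _ c _ m (prodT_mem S ht l) (match_mem S hm)

/-! ### Limits of diagrams -/

variable {s t : Tup I len} {g : ℕ → Matrix I I ℂ}

theorem dm_lim (hg : ∀ j, IsG D (g j)) (hlim : Tendsto (fun j => gS (g j) t) atTop (𝓝 s))
    (c : ℕ) (l : List ι) (m : Ten I ((l.map len).sum + c)) (hm : IsMatch D _ m) :
    Tendsto (fun j => gT (g j) (dm D c l m t)) atTop (𝓝 (dm D c l m s)) := by
  have h1 : (fun j => gT (g j) (dm D c l m t)) = fun j => dm D c l m (gS (g j) t) := by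
    funext j
    exact (alg2.dm_gS D c l m _ _ hm (hg j)).symm
  rw [h1]
  exact ((alg2.dm_cont D c l m).tendsto s).comp hlim

theorem lim_zero {L : ℕ} : Tendsto (fun j => gT (g j) (0 : Ten I L)) atTop (𝓝 0) := by
  have : (fun j => gT (g j) (0 : Ten I L)) = fun _ => 0 := by
    funext j
    have := alg1.gT_smul (g j) 0 (0 : Ten I L)
    rwa [zero_smul, zero_smul] at this
  rw [this]
  exact tendsto_const_nhds

theorem MT_lim (hg : ∀ j, IsG D (g j)) (hlim : Tendsto (fun j => gS (g j) t) atTop (𝓝 s))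
    {c : ℕ} {u : Ten I c} (hu : u ∈ MT D t c) :
    ∃ v, Tendsto (fun j => gT (g j) u) atTop (𝓝 v) := by
  unfold MT at hu
  induction hu using Submodule.span_induction with
  | mem u hu =>
    obtain ⟨l, m, hm, rfl⟩ := hu
    exact ⟨_, dm_lim hg hlim c l m hm⟩
  | zero => exact ⟨0, lim_zero⟩
  | add x y _ _ hx hy =>
    obtain ⟨x', h1⟩ := hx
    obtain ⟨y', h2⟩ := hy
    exact ⟨x' + y', ZAbs.lim_add alg1 h1 h2⟩
  | smul r x _ hx =>
    obtain ⟨x', h1⟩ := hx
    exact ⟨r • x', ZAbs.lim_smul alg1 r h1⟩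

theorem MT_of_lim (hg : ∀ j, IsG D (g j)) (hlim : Tendsto (fun j => gS (g j) t) atTop (𝓝 s))
    {c : ℕ} {v : Ten I c} (hv : v ∈ MT D s c) :
    ∃ u ∈ MT D t c, Tendsto (fun j => gT (g j) u) atTop (𝓝 v) := by
  unfold MT at hv
  induction hv using Submodule.span_induction with
  | mem v hv =>
    obtain ⟨l, m, hm, rfl⟩ := hv
    exact ⟨_, Submodule.subset_span ⟨l, m, hm, rfl⟩, dm_lim hg hlim c l m hm⟩
  | zero => exact ⟨0, zero_mem _, lim_zero⟩
  | add x y _ _ hx hy =>
    obtain ⟨x', h0, h1⟩ := hx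
    obtain ⟨y', h0', h2⟩ := hy
    exact ⟨x' + y', add_mem h0 h0', ZAbs.lim_add alg1 h1 h2⟩
  | smul r x _ hx =>
    obtain ⟨x', h0, h1⟩ := hx
    exact ⟨r • x', Submodule.smul_mem _ r h0, ZAbs.lim_smul alg1 r h1⟩

end E1P

open E1P in
/-- **Row E1.** -/
theorem e1 : E1Statement := by
  intro I Λ _ _ _ D At Bt l Γ E m
  classical
  have hvol : VolStatement := vol alg1
  have hpha : PhaStatement := pha alg1 tan
  have havg : AvgStatement := avg fft alg1 alg2
  have hl1 : L1Statement := l1 alg1 hvol hpha havg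
  have hl2 : L2Statement := l2 alg1 hvol hpha havg
  have hclo : CloStatement := clo alg1 alg2 hvol hpha havg
  have S := E.sys
  have hinj : Function.Injective l := by
    intro i j h
    by_contra hij
    exact E.ratio i j hij 1 one_pos (by rw [h])
  -- finite sets that span
  have hB : ∀ L : ℕ, ∃ B : Set (Ten I L), B.Finite ∧ (∀ x ∈ B, At L x) ∧
      ∀ u, At L u → u ∈ Submodule.span ℂ B := by
    intro L
    obtain ⟨B, hB1, hB2, hB3⟩ := exists_linearIndependent ℂ {u : Ten I L | At L u}
    exact ⟨B, hB3.setFinite, fun x hx => hB1 hx, fun u hu => by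
      rw [hB2]; exact Submodule.subset_span hu⟩
  choose B hBf hBA hBs using hB
  have : ∀ L, Fintype (B L) := fun L => (hBf L).fintype
  let ι : Type := Option (Σ L : Fin (m + 1), B L)
  let len : ι → ℕ := fun i => i.elim 0 (fun x => x.1)
  let t : Tup I len := fun i => match i with
    | none => fun _ => 1
    | some x => x.2.1
  have htAt : ∀ i, At (len i) (t i) := by
    intro i
    match i with
    | none => exact S.one
    | some x => exact hBA _ _ x.2.2
  have hlen : ∀ i, len i ≤ m := by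
    intro i
    match i with
    | none => exact Nat.zero_le _
    | some x => exact Nat.lt_succ_iff.1 x.1.2
  -- the minimal point for the centraliser of `diag l`
  let b : Tup I (fun _ : Unit => 2) := fun _ => gten D l
  obtain ⟨s, g, hg, hlim, hmin⟩ := minb alg1 D b t
  have hgG : ∀ j, IsG D (g j) := fun j => (hg j).1
  have hgb : ∀ j, gT (g j) (gten D l) = gten D l := fun j => congrFun (hg j).2 ()
  have hcomm : ∀ j, g j * Matrix.diagonal l = Matrix.diagonal l * g j := fun j =>
    comm_of_fix E.odd (hgG j) (hgb j)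
  have hfix : gS (Matrix.diagonal l) s = s := by
    funext i
    have h1 : Tendsto (fun j => gT (g j) (t i)) atTop (𝓝 (s i)) := (tendsto_pi_nhds.mp hlim) i
    have h2 : Tendsto (fun j => gT (Matrix.diagonal l) (gT (g j) (t i))) atTop
        (𝓝 (gT (Matrix.diagonal l) (s i))) := by
      have h3 : Continuous fun u : Ten I (len i) => gT (Matrix.diagonal l) u :=
        alg1.gT_cont.comp (continuous_const.prodMk continuous_id)
      exact (h3.tendsto _).comp h1
    have h4 : (fun j => gT (Matrix.diagonal l) (gT (g j) (t i))) = fun j => gT (g j) (t i) := by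
      funext j
      rw [← alg1.gT_mul, ← hcomm j, alg1.gT_mul, E.fix _ _ (htAt i)]
    rw [h4] at h2
    exact tendsto_nhds_unique h2 h1
  have hmin' : Minimal D s := by
    intro A hA
    have h1 := mf_diag hfix E.norm hinj A
    rw [mf_apply, mf_apply] at h1
    rw [h1]
    have ha : ∀ i, (fun i => A i i) i + (fun i => A i i) (D.τ i) = 0 := diag_lie hA
    exact hmin _ ⟨isLie_diag ha, funext fun _ => isLieb_diag ha l⟩
  have hs : hS s s ≠ 0 := XY.hS_ne alg1 (none : ι) rfl (fun _ => rfl) g hlim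
  obtain ⟨H⟩ := cpt D
  have hsM : ∀ i, s i ∈ MT D s (len i) := fun i =>
    hl2 H s hmin' hs _ _ fun x hx => congrFun hx i
  -- the orbit is closed
  have hMA : ∀ {c : ℕ} {u : Ten I c}, u ∈ MT D t c → u ∈ Submodule.span ℂ {u | At c u} := by
    intro c u hu
    refine Submodule.span_mono ?_ hu
    rintro v ⟨l', m', hm', rfl⟩
    exact Qps.dm_mem S htAt c l' hm'
  have hnd : ∀ i, NdAt D t (len i) := by
    intro i u hu hu0
    obtain ⟨w, hw, hw0⟩ := E.nd _ u (hMA hu) hu0
    -- a member of the tuple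
    have h1 : ∃ x ∈ B (len i), psiT D u x ≠ 0 := by
      by_contra hcon
      push Not at hcon
      have h2 : w ∈ Submodule.span ℂ (B (len i)) :=
        (Submodule.span_le.2 fun x hx => hBs _ x hx) hw
      have h3 : Submodule.span ℂ (B (len i)) ≤ LinearMap.ker (Qps.psiL D (len i) u) :=
        Submodule.span_le.2 fun x hx => hcon x hx
      exact hw0 (h3 h2)
    obtain ⟨x, hxB, hx0⟩ := h1
    let i' : ι := some ⟨⟨len i, Nat.lt_succ_of_le (hlen i)⟩, ⟨x, hxB⟩⟩
    obtain ⟨u', hu'⟩ := MT_lim hgG hlim hu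
    obtain ⟨v, hvM, hv⟩ := MT_of_lim hgG hlim (hsM i')
    refine ⟨v, hvM, ?_⟩
    have h3 : Tendsto (fun j => gT (g j) x) atTop (𝓝 (s i')) := (tendsto_pi_nhds.mp hlim) i'
    have h4 := ZAbs.psi_lim alg1 hgG hu' h3
    have h5 := ZAbs.psi_lim alg1 hgG hu' hv
    rw [← h5, h4]
    exact hx0
  obtain ⟨x, hx, hxs⟩ := hclo H t s hnd hs hmin' g hgG hlim
  -- the pair `(g₀, s)`
  have hlim1 : Tendsto (fun j => gS (g j) (cmb b t)) atTop (𝓝 (cmb b s)) := by
    have h1 : (fun j => gS (g j) (cmb b t)) = fun j => cmb b (gS (g j) t) := by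
      funext j
      rw [(algB alg1 alg2).gS_cmb, (hg j).2]
    rw [h1]
    exact (((algB alg1 alg2).cmb_cont (len := len) b).tendsto s).comp hlim
  have hs1 : hS (cmb b s) (cmb b s) ≠ 0 :=
    XY.hS_ne alg1 (.inr none : Unit ⊕ ι) rfl (fun _ => rfl) g hlim1
  have hmin1 : Minimal D (cmb b s) := by
    intro A hA
    have h1 : aS A (cmb b s) = cmb (aS A b) (aS A s) := by
      funext i
      match i with
      | .inl _ => rfl
      | .inr _ => rfl
    rw [h1, (algB alg1 alg2).hS_cmb, hmin' A hA, add_zero]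
    unfold hS
    rw [Fintype.sum_unique]
    exact min_gten E.odd hA l
  have hcB : ∀ i, Bt (Sum.elim (fun _ : Unit => 2) len i) (cmb b t i) := by
    intro i
    match i with
    | .inl _ => exact E.gten
    | .inr i => exact E.sub _ _ (htAt i)
  have hinv : ∀ (l' : List (Unit ⊕ ι))
      (m' : Ten I ((l'.map (Sum.elim (fun _ : Unit => 2) len)).sum + 0)), IsMatch D _ m' →
      dm D 0 l' m' (jS D (cmb b s)) = dm D 0 l' m' (cmb b s) := by
    intro l' m' hm'
    rw [alg2.dm_jS D 0 l' m' _ hm']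
    have h2 : dm D 0 l' m' (cmb b s) = dm D 0 l' m' (cmb b t) := by
      have h3 := dm_lim hgG hlim1 0 l' m' hm'
      have h4 : (fun j => gT (g j) (dm D 0 l' m' (cmb b t))) =
          fun _ => dm D 0 l' m' (cmb b t) := by
        funext j
        exact XY.gT_zero_len rfl _ _
      rw [h4] at h3
      exact tendsto_nhds_unique h3 tendsto_const_nhds
    rw [h2]
    obtain ⟨q, hq⟩ := E.rsys.real _ (E1P.dm_mem E.rsys hcB 0 l' hm')
    funext w
    rw [jT, hq, hq, sg]
    simp
  obtain ⟨k, hk⟩ := hl1 H (cmb b s) (jS D (cmb b s)) hmin1 hs1 (RealT.hS_jS alg1 D _) hinv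
  have hkK : IsK D (H.mat k) := H.mem k
  have hkb : gT (H.mat k) (gten D l) = gten D l := by
    have h1 : gT (H.mat k) (gten D l) = jT D (gten D l) := congrFun hk (.inl ())
    rw [h1, jT_gten E.norm E.tau]
  have hkc := comm_of_fix E.odd hkK.1 hkb
  have hkd : H.mat k = Matrix.diagonal fun i => H.mat k i i := by
    ext i j
    by_cases hij : i = j
    · rw [hij, Matrix.diagonal_apply_eq]
    · rw [Matrix.diagonal_apply_ne _ hij]
      have h1 := congrFun (congrFun hkc i) j
      rw [Matrix.mul_diagonal, Matrix.diagonal_mul] at h1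
      have h2 : H.mat k i j * (l j - l i) = 0 := by
        rw [mul_sub, h1]
        ring
      rcases mul_eq_zero.1 h2 with h3 | h3
      · exact h3
      · exact absurd (hinj (sub_eq_zero.1 h3).symm) hij
  refine ⟨ι, inferInstance, len, t, s, x, fun i => H.mat k i i, htAt, ?_, hx, hxs, hmin', hfix,
    ?_, ?_⟩
  · intro L hL u hu
    refine Submodule.span_mono ?_ (hBs L u hu)
    intro y hy
    exact ⟨some ⟨⟨L, Nat.lt_succ_of_le hL⟩, ⟨y, hy⟩⟩, rfl, rfl⟩
  · rw [← hkd]
    exact hkK
  · rw [← hkd]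
    funext i
    exact congrFun hk (.inr i)

end Pool.Agent.Lib.MP_361a6f_ag.FL.E
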