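import Pool.Agent.Lib.MP_361a6f_ag.FL.E.EndB
import Pool.Agent.Lib.MP_361a6f_ag.FL.B.MainL
import Pool.Agent.Lib.MP_361a6f_ag.FL.A.Ext1
import Pool.Agent.Lib.MP_361a6f_ag.AV48.Hr

/-!
# Theorem E, the end

Let the factors be of abelian type. If `ψ` is positive on the algebraic tensors whose letters all
have degree one, then there are real structures on all products that fix all algebraic classes; so
`Q1` holds for all products and numerical and homological equivalence agree.
-/

open CategoryTheory AlgebraicGeometry MonoidalCategory CartesianMonoidalCategory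

universe u v w

set_option autoImplicit false
set_option linter.unusedSectionVars false

namespace Pool.Agent.Lib.MP_361a6f_ag.FL

open Pool.Agent.Lib.MP_361a6f_ag.H3 Pool.Agent.Lib.MP_361a6f_ag.SQ
  Pool.Agent.Lib.MP_361a6f_ag.PP

namespace EndE

variable {k : Type u} [Field k] {m : ℕ} {W : CohomologyData.{u, 0, w} k ℂ} {𝒱 : VarietyClass k}
  (H : Host W 𝒱 m)

/-- positivity of `ψ` on the algebraic tensors whose letters all have degree one -/
def Pos1 : Prop :=
  ∀ (L : ℕ) (u : Ten H.I L), u ∈ H.At L → (∀ w, ¬ D1 H w → u w = 0) → u ≠ 0 →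
    RatPos (psiT H.D u u)

/-- a tensor on words of degree one is the sum of its parts on the label words -/
theorem sum_prW {L : ℕ} {u : Ten H.I L} (hu : ∀ w, ¬ D1 H w → u w = 0) :
    ∑ b : Fin L → Fin m, prW H.D (fun i => (b i, 1)) u = u := by
  funext w
  rw [Finset.sum_apply]
  by_cases h : D1 H w
  · rw [Finset.sum_eq_single fun i => (H.D.typ (w i)).1]
    · exact if_pos fun i => (Prod.ext rfl (h i) : H.D.typ (w i) = ((H.D.typ (w i)).1, 1))
    · intro b _ hb
      refine if_neg fun hh => hb ?_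
      funext i
      rw [hh i]
    · intro h
      exact absurd (Finset.mem_univ _) h
  · rw [hu w h]
    refine Finset.sum_eq_zero fun b _ => ?_
    exact if_neg fun hh => h fun i => by rw [hh i]

theorem JT_sum (a1 : Alg1) (g : Matrix H.I H.I ℂ) {L : ℕ} {ι : Type} (s : Finset ι)
    (f : ι → Ten H.I L) : GJ.JT H.D g (∑ i ∈ s, f i) = ∑ i ∈ s, GJ.JT H.D g (f i) := by
  classical
  induction s using Finset.induction_on with
  | empty =>
    rw [Finset.sum_empty, Finset.sum_empty]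
    have h := GJ.JT_smul H.D g a1 (0 : ℂ) (0 : Ten H.I L)
    rwa [zero_smul, map_zero, zero_smul] at h
  | insert i s hi ih => rw [Finset.sum_insert hi, Finset.sum_insert hi, GJ.JT_add H.D g a1, ih]

/-- an inner real structure that fixes the algebraic tensors of degree one -/
theorem exists_g (hpos : Pos1 H) : ∃ g : Matrix H.I H.I ℂ, IsG H.D g ∧
    ∀ (L : ℕ) (u : Ten H.I L), u ∈ H.At L → (∀ w, ¬ D1 H w → u w = 0) →
      GJ.JT H.D g u = u := by
  have hlet : ∀ (L : ℕ) (α : Fin L → Fin m × ℕ) (u : Ten H.I L), u ∈ H.At L →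
      prW H.D α u ∈ H.At L := fun L α u hu => LET.at_letters H α hu
  obtain ⟨g, hg, -, h⟩ := TalB.talAbs mainYb alg1 alg2 (aSys_at (at_ H)) hlet
    (fun L α => ∀ i, (α i).2 = 1)
    (fun L α hα u hu ho h0 => hpos L u hu (fun w hw => ho w fun hh => hw fun i => by
      rw [hh i]; exact hα i) h0)
  refine ⟨g, hg, fun L u hu hu1 => ?_⟩
  conv_lhs => rw [← sum_prW H hu1]
  conv_rhs => rw [← sum_prW H hu1]
  rw [JT_sum H alg1]
  refine Finset.sum_congr rfl fun b _ => ?_
  exact h L (fun i => (b i, 1)) _ (fun i => rfl) (hlet L _ u hu) fun w hw => if_neg hw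

/-- **The end of Theorem E**: real structures that fix all algebraic classes. -/
theorem endE (hAb : ∀ a, AbelianType W (H.X a) (H.n a))
    (hpd : ∀ a, PositiveDivisor W (H.X a) (H.n a) (H.ξ a)) (hpos : Pos1 H) :
    ∃ J : ∀ P : Prd m, W.coh (P.obj H.X) →ₛₗ[starRingEnd ℂ] W.coh (P.obj H.X),
      (∀ P, IsRS W (P.obj H.X) (P.dim H.n) (P.pol W H.ξ) (H.LamP P) (J P)) ∧
      (∀ (P Q : Prd m) (y : W.coh (P.obj H.X)) (x : W.coh (Q.obj H.X)),
        J (.prod P Q) (W.pull (fst (P.obj H.X) (Q.obj H.X)) y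
            * W.pull (snd (P.obj H.X) (Q.obj H.X)) x)
          = W.pull (fst (P.obj H.X) (Q.obj H.X)) (J P y)
            * W.pull (snd (P.obj H.X) (Q.obj H.X)) (J Q x)) ∧
      (∀ P (x y : W.coh (P.obj H.X)), J P (x * y) = J P x * J P y) ∧
      ∀ (P : Prd m), ∀ z ∈ tot W (P.obj H.X), J P z = z := by
  have ge := ge H
  obtain ⟨g, hg, hfix⟩ := exists_g H hpos
  have hext : ∀ a, ExtFacts W (H.X a) := fun a => by
    obtain ⟨q, hq, hqt⟩ := (hpd a).2
    have hqt' : W.tr (H.X a) (H.ξ a ^ H.n a) = (q : ℂ) := hqt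
    have hq0 : (q : ℂ) ≠ 0 := by exact_mod_cast hq.ne'
    exact Ext1.extFacts H.hW (H.mem a) (hAb a) ⟨_, by rw [hqt']; exact hq0⟩
  choose Jl hJl using fun a => JaT.exists_leaf H alg1 hg ge staB a (hext a)
  have hl : ∀ a, IsRS W (H.X a) (H.n a) (H.ξ a) (H.Lam a) (Jl a) := fun a =>
    JaT.leaf_rs H alg1 hg ge staB AV48.hr a (hAb a) (hext a) (hpd a) (hJl a)
  have rs := fun P => (JaT.JR H Jl hl mainRsp P).2
  have hprod := JaT.JR_prod H Jl hl mainRsp
  have hmul : ∀ (a : Fin m) (x y : W.coh (H.X a)), (JaT.JR H Jl hl mainRsp (.leaf a)).1 (x * y)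
      = (JaT.JR H Jl hl mainRsp (.leaf a)).1 x * (JaT.JR H Jl hl mainRsp (.leaf a)).1 y :=
    fun a => (hJl a).mul
  refine ⟨fun P => (JaT.JR H Jl hl mainRsp P).1, rs, hprod, mul_all H rs hprod hmul, ?_⟩
  intro P z hz
  exact fix_all H alg1 alg2 hg ge (J := fun P => (JaT.JR H Jl hl mainRsp P).1) rs hprod
    (fun a => (hJl a).on1) hfix hmul hAb P hz

/-- `Q1` for all products and all polarisations. -/
theorem endQ (hAb : ∀ a, AbelianType W (H.X a) (H.n a))
    (hpd : ∀ a, PositiveDivisor W (H.X a) (H.n a) (H.ξ a)) (hpos : Pos1 H) (P : Prd m)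
    (η : W.coh (P.obj H.X)) (hη : IsPol W H.ξ P η) : HodgeOn W (P.obj H.X) (P.dim H.n) η ⊤ := by
  obtain ⟨J, rs, hprod, hmul, hfix⟩ := endE H hAb hpd hpos
  have F : H.JFactsL (fun P => P.dim H.n) J J :=
    { rs := rs
      prod := hprod
      mul := fun a => hmul (.leaf a)
      alg := fun P l z _ hz => hfix P z (alg_le_tot H.hW _ l hz)
      fix := fun P l z hz _ => hfix P z (alg_le_tot H.hW _ l hz) }
  have h := gql mainRsp (rsc staB) (rsq sl2 staB) spn H _ J J F (genl H _ J J F) P η hη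
  intro j hj x hx _ hx1 hx0
  exact h j hj x hx (Submodule.subset_span (GenL.alg P j x (by omega) hx)) hx1 hx0

/-- Numerically trivial sums of algebraic classes are zero. -/
theorem endN (hAb : ∀ a, AbelianType W (H.X a) (H.n a))
    (hpd : ∀ a, PositiveDivisor W (H.X a) (H.n a) (H.ξ a)) (hpos : Pos1 H) (P : Prd m)
    {z : W.coh (P.obj H.X)} (hz : z ∈ tot W (P.obj H.X))
    (hnum : ∀ y ∈ tot W (P.obj H.X), W.tr (P.obj H.X) (z * y) = 0) : z = 0 := by
  obtain ⟨J, rs, -, -, hfix⟩ := endE H hAb hpd hpos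
  by_contra h0
  obtain ⟨r, hr, h⟩ := (rs P).pos z h0
  obtain ⟨DP, hPalg⟩ := H.lamP P
  have hsz : H.starP P z ∈ tot W (P.obj H.X) :=
    AlgOp.apply H.hW (H.memP P) (algOp_star H.hW (H.memP P) hPalg DP) hz
  rw [hfix P z hz] at h
  have h1 : W.tr (P.obj H.X) (z * H.starP P z) = (r : ℂ) := h
  rw [hnum _ hsz] at h1
  exact hr.ne' (by exact_mod_cast h1.symm)

end EndE

end Pool.Agent.Lib.MP_361a6f_ag.FL
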