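import Pool.Agent.Lib.MP_361a6f_ag.FL.A.JA
import Pool.Agent.Lib.MP_361a6f_ag.FL.A.GenA
import Pool.Agent.Lib.MP_361a6f_ag.FL.A.Mul
import Pool.Agent.Lib.MP_361a6f_ag.FL.B.Gbj

/-!
# Theorem E, the end, first part: products of classes of degree one

The cohomology of a product of varieties of abelian type is spanned by `1` and the products of
pull-backs of basis vectors of degree one; the adjoint (for `ψ`) of the pull-back along a morphism
preserves the algebraic classes.
-/

open CategoryTheory AlgebraicGeometry MonoidalCategory CartesianMonoidalCategory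

universe u v w

set_option autoImplicit false
set_option linter.unusedSectionVars false

namespace Pool.Agent.Lib.MP_361a6f_ag.FL

open Pool.Agent.Lib.MP_361a6f_ag.H3 Pool.Agent.Lib.MP_361a6f_ag.SQ
  Pool.Agent.Lib.MP_361a6f_ag.PP

namespace EndE

variable {k : Type u} [Field k] {m : ℕ}

/-! ### Coordinate projections -/

/-- the projections of a product to its factors -/
inductive Pj (X : Fin m → Sch k) : (P : Prd m) → (a : Fin m) → (P.obj X ⟶ X a) → Prop
  | leaf (a : Fin m) : Pj X (.leaf a) a (𝟙 (X a))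
  | fst (P Q : Prd m) (a : Fin m) (f : P.obj X ⟶ X a) : Pj X P a f →
      Pj X (.prod P Q) a (CartesianMonoidalCategory.fst (P.obj X) (Q.obj X) ≫ f)
  | snd (P Q : Prd m) (a : Fin m) (f : Q.obj X ⟶ X a) : Pj X Q a f →
      Pj X (.prod P Q) a (CartesianMonoidalCategory.snd (P.obj X) (Q.obj X) ≫ f)

theorem Pj.coord {X : Fin m → Sch k} {P : Prd m} {a : Fin m} {f : P.obj X ⟶ X a}
    (h : Pj X P a f) : CoordMor X 3 P (.leaf a) f := by
  induction h with
  | leaf a => exact CoordMor.id (.leaf a)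
  | fst P Q a f _ ih => exact CoordMor.comp (.prod P Q) P (.leaf a) _ f (CoordMor.pr₁ P Q) ih
  | snd P Q a f _ ih => exact CoordMor.comp (.prod P Q) Q (.leaf a) _ f (CoordMor.pr₂ P Q) ih

variable {W : CohomologyData.{u, 0, w} k ℂ} {𝒱 : VarietyClass k} (H : Host W 𝒱 m)

/-- the pull-backs of basis vectors of degree one -/
def Ltr (P : Prd m) : Set (W.coh (P.obj H.X)) :=
  {y | ∃ (a : Fin m) (f : P.obj H.X ⟶ H.X a) (x : H.I), Pj H.X P a f ∧ H.D.typ x = (a, 1) ∧
    y = W.pull f (H.e a x)}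

/-- a morphism to a left nested product with given components -/
theorem exists_map (P : Prd m) : ∀ (n : ℕ) (b : Fin (n + 1) → Fin m)
    (f : ∀ l, P.obj H.X ⟶ H.X (b l)), (∀ l, Pj H.X P (b l) (f l)) →
    ∃ F : P.obj H.X ⟶ (GP.N n b).obj H.X, CoordMor H.X 3 P (GP.N n b) F ∧
      ∀ w : Fin (n + 1) → H.I, W.pull F (GP.E' H n b w)
        = (List.ofFn fun l => W.pull (f l) (H.e (b l) (w l))).prod
  | 0, b, f, hf => by
    refine ⟨f 0, (hf 0).coord, fun w => ?_⟩
    rw [List.ofFn_succ, List.ofFn_zero, List.prod_singleton]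
    rfl
  | n + 1, b, f, hf => by
    obtain ⟨F, hF, h⟩ := exists_map P n (fun j => b j.castSucc) (fun j => f j.castSucc)
      fun j => hf j.castSucc
    refine ⟨lift (𝟙 (P.obj H.X)) (𝟙 (P.obj H.X)) ≫
      lift (CartesianMonoidalCategory.fst (P.obj H.X) (P.obj H.X) ≫ F)
        (CartesianMonoidalCategory.snd (P.obj H.X) (P.obj H.X) ≫ f (Fin.last (n + 1))),
      CoordMor.comp P (.prod P P) _ _ _ (CoordMor.diag P le_rfl)
        (CoordMor.prod P _ P _ F _ hF (hf (Fin.last (n + 1))).coord), fun w => ?_⟩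
    rw [List.ofFn_succ', List.concat_eq_append, List.prod_append, List.prod_singleton, ← h]
    have key : ∀ (Z Y : Sch k) (F : P.obj H.X ⟶ Z) (f : P.obj H.X ⟶ Y) (z : W.coh Z)
        (y : W.coh Y), W.pull (lift (𝟙 (P.obj H.X)) (𝟙 (P.obj H.X)) ≫
          lift (CartesianMonoidalCategory.fst (P.obj H.X) (P.obj H.X) ≫ F)
            (CartesianMonoidalCategory.snd (P.obj H.X) (P.obj H.X) ≫ f))
          (W.pull (CartesianMonoidalCategory.fst Z Y) z
            * W.pull (CartesianMonoidalCategory.snd Z Y) y)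
          = W.pull F z * W.pull f y := by
      intro Z Y F f z y
      rw [map_mul, ← W.pull_comp, ← W.pull_comp]
      congr 2
      · congr 1
        rw [Category.assoc, lift_fst, ← Category.assoc, lift_fst, Category.id_comp]
      · congr 1
        rw [Category.assoc, lift_snd, ← Category.assoc, lift_snd, Category.id_comp]
    exact key _ _ F (f (Fin.last (n + 1))) _ _

/-! ### Spanning -/

theorem ltr_fst (P Q : Prd m) : W.pull (CartesianMonoidalCategory.fst (P.obj H.X) (Q.obj H.X)) ''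
    Ltr H P ⊆ Ltr H (.prod P Q) := by
  rintro _ ⟨_, ⟨a, f, x, hf, hx, rfl⟩, rfl⟩
  refine ⟨a, _, x, Pj.fst P Q a f hf, hx, ?_⟩
  exact (W.pull_comp _ _ _).symm

theorem ltr_snd (P Q : Prd m) : W.pull (CartesianMonoidalCategory.snd (P.obj H.X) (Q.obj H.X)) ''
    Ltr H Q ⊆ Ltr H (.prod P Q) := by
  rintro _ ⟨_, ⟨a, f, x, hf, hx, rfl⟩, rfl⟩
  refine ⟨a, _, x, Pj.snd P Q a f hf, hx, ?_⟩
  exact (W.pull_comp _ _ _).symm

/-- classes of degree one on a factor -/
theorem mem_span_leaf (ge : H.GeFacts) (hsta : StaStatement.{w}) (a : Fin m)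
    {v : W.coh ((Prd.leaf a).obj H.X)} (hv : v ∈ W.gr ((Prd.leaf a).obj H.X) 1) :
    v ∈ Submodule.span ℂ (Ltr H (.leaf a)) := by
  rw [ge.expand (.leaf a) v]
  refine Submodule.sum_mem _ fun w _ => ?_
  by_cases h0 : H.tc (.leaf a) v w = 0
  · rw [h0, zero_smul]
    exact zero_mem _
  refine Submodule.smul_mem _ _ (Submodule.subset_span ?_)
  have h2 : (H.D.typ (w (0 : Fin 1))).1 = a := by
    by_contra hne
    exact h0 (ge.tc_off (.leaf a) v w ⟨(0 : Fin 1), hne⟩)
  have h3 : (H.D.typ (w (0 : Fin 1))).2 = 1 := by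
    by_contra hne
    refine h0 (GJ.tc_gr H ge hsta (.leaf a) hv w ?_)
    have : ∑ l : Fin 1, (H.D.typ (w l)).2 = (H.D.typ (w (0 : Fin 1))).2 := Fin.sum_univ_one _
    exact fun h => hne (this.symm.trans h)
  refine ⟨a, 𝟙 (H.X a), w (0 : Fin 1), Pj.leaf a, Prod.ext h2 h3, ?_⟩
  have h4 : W.pull (𝟙 (H.X a)) (H.e a (w (0 : Fin 1))) = H.e a (w (0 : Fin 1)) := by
    rw [W.pull_id]
  exact h4.symm

theorem adjoin_top (ge : H.GeFacts) (hsta : StaStatement.{w})
    (hAb : ∀ a, AbelianType W (H.X a) (H.n a)) (P : Prd m) :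
    Algebra.adjoin ℂ (Ltr H P) = ⊤ := by
  induction P with
  | leaf a =>
    rw [eq_top_iff]
    intro x _
    have h1 : x ∈ Algebra.adjoin ℂ
        {y : W.coh ((Prd.leaf a).obj H.X) | W.Deg ((Prd.leaf a).obj H.X) 1 y} := (hAb a).gen x
    refine Algebra.adjoin_le (S := Algebra.adjoin ℂ (Ltr H (.leaf a))) ?_ h1
    intro y hy
    exact Algebra.span_le_adjoin ℂ _ (mem_span_leaf H ge hsta a hy)
  | prod P Q hP hQ =>
    rw [eq_top_iff]
    intro z _
    have h1 : (Subalgebra.map (W.pull (CartesianMonoidalCategory.fst (P.obj H.X) (Q.obj H.X)))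
        (Algebra.adjoin ℂ (Ltr H P))) ≤ Algebra.adjoin ℂ (Ltr H (.prod P Q)) := by
      rw [AlgHom.map_adjoin]
      exact Algebra.adjoin_mono (ltr_fst H P Q)
    have h2 : (Subalgebra.map (W.pull (CartesianMonoidalCategory.snd (P.obj H.X) (Q.obj H.X)))
        (Algebra.adjoin ℂ (Ltr H Q))) ≤ Algebra.adjoin ℂ (Ltr H (.prod P Q)) := by
      rw [AlgHom.map_adjoin]
      exact Algebra.adjoin_mono (ltr_snd H P Q)
    rw [hP] at h1
    rw [hQ] at h2
    have hz : z ∈ Submodule.span ℂ {z | ∃ (x : W.coh (P.obj H.X)) (y : W.coh (Q.obj H.X)),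
        z = W.pull (CartesianMonoidalCategory.fst (P.obj H.X) (Q.obj H.X)) x
          * W.pull (CartesianMonoidalCategory.snd (P.obj H.X) (Q.obj H.X)) y} := by
      rw [H.hW.kunneth_span (H.memP P) (H.memP Q)]; trivial
    induction hz using Submodule.span_induction with
    | mem z hz =>
      obtain ⟨x, y, rfl⟩ := hz
      exact mul_mem (h1 ⟨x, trivial, rfl⟩) (h2 ⟨y, trivial, rfl⟩)
    | zero => exact zero_mem _
    | add a b _ _ ha hb => exact add_mem (ha trivial) (hb trivial)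
    | smul c a _ ha => exact Subalgebra.smul_mem _ (ha trivial) c

/-- the products of at least one pull-back of basis vectors of degree one -/
def Mon (P : Prd m) : Set (W.coh (P.obj H.X)) :=
  {y | ∃ (n : ℕ) (b : Fin (n + 1) → Fin m) (f : ∀ l, P.obj H.X ⟶ H.X (b l))
    (w : Fin (n + 1) → H.I), (∀ l, Pj H.X P (b l) (f l)) ∧ (∀ l, H.D.typ (w l) = (b l, 1)) ∧
    y = (List.ofFn fun l => W.pull (f l) (H.e (b l) (w l))).prod}

theorem closure_mon (P : Prd m) {y : W.coh (P.obj H.X)} (hy : y ∈ Submonoid.closure (Ltr H P)) :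
    y = 1 ∨ y ∈ Mon H P := by
  obtain ⟨l, hl, rfl⟩ := Submonoid.exists_list_of_mem_closure hy
  obtain ⟨L, g, rfl⟩ : ∃ (L : ℕ) (g : Fin L → W.coh (P.obj H.X)), l = List.ofFn g :=
    ⟨l.length, l.get, (List.ofFn_get l).symm⟩
  have hg : ∀ i, g i ∈ Ltr H P := fun i => hl _ (List.mem_ofFn.2 ⟨i, rfl⟩)
  cases L with
  | zero =>
    left
    rw [List.ofFn_zero, List.prod_nil]
  | succ n =>
    right
    choose b f w hf hw hy using hg
    refine ⟨n, b, f, w, hf, hw, ?_⟩
    congr 2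
    funext l
    exact hy l

/-- the cohomology of a product is spanned by `1` and the monomials -/
theorem span_top (ge : H.GeFacts) (hsta : StaStatement.{w})
    (hAb : ∀ a, AbelianType W (H.X a) (H.n a)) (P : Prd m)
    (S : Submodule ℂ (W.coh (P.obj H.X))) (h1 : 1 ∈ S) (hS : ∀ y ∈ Mon H P, y ∈ S) : S = ⊤ := by
  rw [eq_top_iff]
  intro x _
  have hx : x ∈ Subalgebra.toSubmodule (Algebra.adjoin ℂ (Ltr H P)) := by
    rw [adjoin_top H ge hsta hAb P]
    trivial
  rw [Algebra.adjoin_eq_span] at hx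
  refine Submodule.span_le.2 ?_ hx
  intro y hy
  rcases closure_mon H P hy with rfl | hy
  · exact h1
  · exact hS y hy

/-! ### The adjoint of a pull-back -/

/-- the adjoint of the pull-back along a morphism preserves the algebraic classes -/
theorem push_star (P Q : Prd m) (f : P.obj H.X ⟶ Q.obj H.X) (z : W.coh (P.obj H.X))
    (hz : z ∈ tot W (P.obj H.X)) : ∃ z'' ∈ tot W (Q.obj H.X), ∀ x : W.coh (Q.obj H.X),
      H.psiP Q x z'' = H.psiP P (W.pull f x) z := by
  obtain ⟨DP, hPalg⟩ := H.lamP P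
  obtain ⟨DQ, hQalg⟩ := H.lamP Q
  have hsz : H.starP P z ∈ tot W (P.obj H.X) :=
    AlgOp.apply H.hW (H.memP P) (algOp_star H.hW (H.memP P) hPalg DP) hz
  have hyt : W.push f (H.starP P z) ∈ tot W (Q.obj H.X) :=
    tot_push H.hW (H.memP P) (H.memP Q) f hsz
  refine ⟨H.starP Q (W.push f (H.starP P z)),
    AlgOp.apply H.hW (H.memP Q) (algOp_star H.hW (H.memP Q) hQalg DQ) hyt, fun x => ?_⟩
  change W.tr (Q.obj H.X) (x * H.starP Q (H.starP Q (W.push f (H.starP P z)))) =
    W.tr (P.obj H.X) (W.pull f x * H.starP P z)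
  have h1 : ∀ y, H.starP Q (H.starP Q y) = y :=
    fun y => BLK.star_star H.hW staB (H.memP Q) hQalg DQ y
  rw [h1, ← tot_comm H.hW (H.memP Q) hyt, H.hW.push_adj (H.memP P) (H.memP Q),
    tot_comm H.hW (H.memP P) hsz]

end EndE

end Pool.Agent.Lib.MP_361a6f_ag.FL
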