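import Pool.Agent.Lib.MP_361a6f_ag.FL.E.EndA
import Pool.Agent.Lib.MP_361a6f_ag.FL.B.Jl85

/-!
# Theorem E, the end, second part: the real structures fix all algebraic classes

`J` is the tensor product of multiplicative real structures on the factors which are `g J₀ g⁻¹` on
`H^1`. If `g J₀ g⁻¹` fixes the algebraic tensors whose letters all have degree one, then `J` fixes
all algebraic classes on all products.
-/

open CategoryTheory AlgebraicGeometry MonoidalCategory CartesianMonoidalCategory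

universe u v w

set_option autoImplicit false
set_option linter.unusedSectionVars false

namespace Pool.Agent.Lib.MP_361a6f_ag.FL

open Pool.Agent.Lib.MP_361a6f_ag.H3 Pool.Agent.Lib.MP_361a6f_ag.SQ
  Pool.Agent.Lib.MP_361a6f_ag.PP

namespace EndE

variable {k : Type u} [Field k] {m : ℕ} {W : CohomologyData.{u, 0, w} k ℂ} {𝒱 : VarietyClass k}
  (H : Host W 𝒱 m)

/-! ### The part of degree one -/

/-- all letters of the word have degree one -/
def D1 {L : ℕ} (w : Fin L → H.I) : Prop := ∀ i, (H.D.typ (w i)).2 = 1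

open Classical in
/-- the part of a tensor on the words with all letters of degree one -/
noncomputable def cut {L : ℕ} (u : Ten H.I L) : Ten H.I L := fun w => if D1 H w then u w else 0

theorem cut_on {L : ℕ} (u : Ten H.I L) {w : Fin L → H.I} (h : D1 H w) : cut H u w = u w :=
  if_pos h

theorem cut_off {L : ℕ} (u : Ten H.I L) {w : Fin L → H.I} (h : ¬ D1 H w) : cut H u w = 0 :=
  if_neg h

theorem d1_typ {L : ℕ} {w w' : Fin L → H.I} (h : ∀ i, H.D.typ (w i) = H.D.typ (w' i))
    (hw : ¬ D1 H w) : ¬ D1 H w' := by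
  intro h'
  exact hw fun i => by rw [h i]; exact h' i

theorem d1_tau {L : ℕ} {w : Fin L → H.I} (hw : D1 H w) : D1 H (H.D.τ ∘ w) := by
  intro i
  rw [Function.comp_apply, H.D.typ_τ]
  exact hw i

/-- one slot -/
theorem slot1 {L : ℕ} (i : Fin L) {u : Ten H.I L} (hu : u ∈ H.At L) :
    (fun w => (if (H.D.typ (w i)).2 = 1 then (1 : ℂ) else 0) * u w) ∈ H.At L := by
  refine GP.slot H (ge H) (fun x => if (H.D.typ x).2 = 1 then (1 : ℂ) else 0) (fun a => ?_) i hu
  have h1 := algOp_gop H.hW (H.mem a) (H.ξ_alg a) (H.lam a) (fun j => if j = 1 then 1 else 0)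
  refine ⟨_, h1, fun x => ?_⟩
  rw [gop_apply _ _ (H.e_gr a x)]
  congr 1
  split_ifs <;> norm_num

theorem cut_at {L : ℕ} {u : Ten H.I L} (hu : u ∈ H.At L) : cut H u ∈ H.At L := by
  classical
  have key : ∀ S : Finset (Fin L),
      (fun w : Fin L → H.I => (∏ i ∈ S, if (H.D.typ (w i)).2 = 1 then (1 : ℂ) else 0) * u w)
        ∈ H.At L := by
    intro S
    induction S using Finset.induction_on with
    | empty => simpa using hu
    | insert i S hi ih =>
      have h := slot1 H i ih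
      have e : (fun w : Fin L → H.I => (if (H.D.typ (w i)).2 = 1 then (1 : ℂ) else 0) *
          ((∏ i ∈ S, if (H.D.typ (w i)).2 = 1 then (1 : ℂ) else 0) * u w)) =
          fun w => (∏ i ∈ insert i S, if (H.D.typ (w i)).2 = 1 then (1 : ℂ) else 0) * u w := by
        funext w
        rw [Finset.prod_insert hi]
        ring
      rwa [e] at h
  have h := key Finset.univ
  have e : (fun w : Fin L → H.I => (∏ i, if (H.D.typ (w i)).2 = 1 then (1 : ℂ) else 0) * u w) =
      cut H u := by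
    funext w
    by_cases hw : D1 H w
    · rw [cut_on H u hw, Finset.prod_eq_one (fun i _ => if_pos (hw i)), one_mul]
    · rw [cut_off H u hw]
      have hw' : ∃ i, (H.D.typ (w i)).2 ≠ 1 := by
        by_contra hcon
        push Not at hcon
        exact hw hcon
      obtain ⟨i, hi⟩ := hw'
      rw [Finset.prod_eq_zero (Finset.mem_univ i) (if_neg hi), zero_mul]
  rwa [e] at h

/-- the part of degree one of a class -/
noncomputable def Z1 (P : Prd m) (z : W.coh (P.obj H.X)) : W.coh (P.obj H.X) :=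
  ∑ w, cut H (H.tc P z) w • H.E P w

theorem tc_Z1 (ge : H.GeFacts) (P : Prd m) (z : W.coh (P.obj H.X)) :
    H.tc P (Z1 H P z) = cut H (H.tc P z) := by
  refine ge.tc_sum P _ fun w hw => ?_
  by_cases h : D1 H w
  · rw [cut_on H _ h]
    exact ge.tc_off P z w hw
  · exact cut_off H _ h

/-- pairing with a class of degree one -/
theorem psi_Z1 (ge : H.GeFacts) (P : Prd m) {x : W.coh (P.obj H.X)}
    (hx : ∀ w, ¬ D1 H w → H.tc P x w = 0) (z : W.coh (P.obj H.X)) :
    H.psiP P x (Z1 H P z) = H.psiP P x z := by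
  rw [← ge.psi_tc, ← ge.psi_tc, tc_Z1 H ge, psiT, psiT]
  refine Finset.sum_congr rfl fun w _ => ?_
  by_cases h : D1 H w
  · rw [cut_on H _ (d1_tau H h)]
  · rw [hx w h, zero_mul, zero_mul]

theorem tc_E (ge : H.GeFacts) (P : Prd m) {w w' : Fin P.size → H.I} (h : w' ≠ w) :
    H.tc P (H.E P w) w' = 0 := by
  by_cases hO : H.Off P w
  · rw [ge.E_off P w hO, map_zero]
    rfl
  have h1 := ge.tc_sum P (Pi.single w 1) (fun v hv => Pi.single_eq_of_ne (by
    rintro rfl
    exact hO hv) _)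
  rw [Finset.sum_eq_single w] at h1
  · rw [Pi.single_eq_same, one_smul] at h1
    rw [h1, Pi.single_eq_of_ne h]
  · intro v _ hv
    rw [Pi.single_eq_of_ne hv, zero_smul]
  · intro h
    exact absurd (Finset.mem_univ _) h

theorem tc_E1 (ge : H.GeFacts) (P : Prd m) {w : Fin P.size → H.I} (h : D1 H w)
    (w' : Fin P.size → H.I) (hw' : ¬ D1 H w') : H.tc P (H.E P w) w' = 0 :=
  tc_E H ge P fun h0 => hw' (h0 ▸ h)

/-! ### The real structures -/

section real

variable (a1 : Alg1) (a2 : Alg2) {g : Matrix H.I H.I ℂ} (hg : IsG H.D g) (ge : H.GeFacts)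
  {J : ∀ P : Prd m, W.coh (P.obj H.X) →ₛₗ[starRingEnd ℂ] W.coh (P.obj H.X)}
  (rs : ∀ P, IsRS W (P.obj H.X) (P.dim H.n) (P.pol W H.ξ) (H.LamP P) (J P))
  (hprod : ∀ (P Q : Prd m) (y : W.coh (P.obj H.X)) (x : W.coh (Q.obj H.X)),
    J (.prod P Q) (W.pull (fst (P.obj H.X) (Q.obj H.X)) y
        * W.pull (snd (P.obj H.X) (Q.obj H.X)) x)
      = W.pull (fst (P.obj H.X) (Q.obj H.X)) (J P y)
        * W.pull (snd (P.obj H.X) (Q.obj H.X)) (J Q x))
  (on1 : ∀ (a : Fin m), ∀ v ∈ W.gr (H.X a) 1, J (.leaf a) v = GJ.J H a1 g (.leaf a) v)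

include hg ge a2 hprod on1 in
theorem J_E : ∀ (P : Prd m) (w : Fin P.size → H.I), D1 H w →
    J P (H.E P w) = GJ.J H a1 g P (H.E P w)
  | .leaf a, w, h => by
    refine on1 a (H.e a (w (0 : Fin 1))) ?_
    have h1 := H.e_gr a (w (0 : Fin 1))
    rwa [show (H.D.typ (w (0 : Fin 1))).2 = 1 from h (0 : Fin 1)] at h1
  | .prod P Q, w, h => by
    have h1 := J_E P (fun i => w (Fin.castAdd Q.size i)) fun i => h (Fin.castAdd Q.size i)
    have h2 := J_E Q (fun i => w (Fin.natAdd P.size i)) fun i => h (Fin.natAdd P.size i)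
    have h3 := hprod P Q (H.E P (fun i => w (Fin.castAdd Q.size i)))
      (H.E Q (fun i => w (Fin.natAdd P.size i)))
    have h4 := GJ.J_prod H a1 a2 hg ge P Q (H.E P (fun i => w (Fin.castAdd Q.size i)))
      (H.E Q (fun i => w (Fin.natAdd P.size i)))
    rw [h1, h2] at h3
    exact h3.trans h4.symm

include hg ge a2 hprod on1 in
theorem J_sum (P : Prd m) {u : Ten H.I P.size} (hu : ∀ w, ¬ D1 H w → u w = 0) :
    J P (∑ w, u w • H.E P w) = GJ.J H a1 g P (∑ w, u w • H.E P w) := by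
  rw [map_sum, map_sum]
  refine Finset.sum_congr rfl fun w _ => ?_
  by_cases h : D1 H w
  · rw [LinearMap.map_smulₛₗ, LinearMap.map_smulₛₗ, J_E H a1 a2 hg ge hprod on1 P w h]
  · rw [hu w h, zero_smul, map_zero, map_zero]

variable (hfix : ∀ (L : ℕ) (u : Ten H.I L), u ∈ H.At L → (∀ w, ¬ D1 H w → u w = 0) →
  GJ.JT H.D g u = u)

include hg ge a2 hprod on1 hfix in
/-- the part of degree one of an algebraic class is fixed -/
theorem J_Z1 (P : Prd m) {z : W.coh (P.obj H.X)} (hz : z ∈ tot W (P.obj H.X)) :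
    J P (Z1 H P z) = Z1 H P z := by
  have h1 : J P (Z1 H P z) = GJ.J H a1 g P (Z1 H P z) :=
    J_sum H a1 a2 hg ge hprod on1 P fun w hw => cut_off H _ hw
  rw [h1]
  refine ge.inj P ?_
  rw [GJ.tc_J H a1 hg ge, tc_Z1 H ge]
  exact hfix _ _ (cut_at H (GP.at_tc H P hz)) fun w hw => cut_off H _ hw

include hg ge a2 hprod on1 in
/-- the image of a basis vector of degree one has degree one -/
theorem J_E1 (P : Prd m) {w : Fin P.size → H.I} (h : D1 H w) (w' : Fin P.size → H.I)
    (hw' : ¬ D1 H w') : H.tc P (J P (H.E P w)) w' = 0 := by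
  rw [J_E H a1 a2 hg ge hprod on1 P w h, GJ.tc_J H a1 hg ge]
  exact GJ.JT_supp H.D a1 hg (fun w => ¬ D1 H w) (fun w w' hh => d1_typ H hh)
    (tc_E1 H ge P h) w' hw'

/-- the real structures form a compatible system -/
theorem jsys (rs : ∀ P, IsRS W (P.obj H.X) (P.dim H.n) (P.pol W H.ξ) (H.LamP P) (J P))
    (hprod : ∀ (P Q : Prd m) (y : W.coh (P.obj H.X)) (x : W.coh (Q.obj H.X)),
      J (.prod P Q) (W.pull (fst (P.obj H.X) (Q.obj H.X)) y
        * W.pull (snd (P.obj H.X) (Q.obj H.X)) x)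
      = W.pull (fst (P.obj H.X) (Q.obj H.X)) (J P y)
        * W.pull (snd (P.obj H.X) (Q.obj H.X)) (J Q x)) : GM.JSys W H.X J where
  gr P := (rs P).gr
  one P := (rs P).one
  tr P := (rs P).tr
  surj P := Jl85.surj_of_rs H (rs P)
  prod := hprod

theorem mul_all (rs : ∀ P, IsRS W (P.obj H.X) (P.dim H.n) (P.pol W H.ξ) (H.LamP P) (J P))
    (hprod : ∀ (P Q : Prd m) (y : W.coh (P.obj H.X)) (x : W.coh (Q.obj H.X)),
      J (.prod P Q) (W.pull (fst (P.obj H.X) (Q.obj H.X)) y
        * W.pull (snd (P.obj H.X) (Q.obj H.X)) x)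
      = W.pull (fst (P.obj H.X) (Q.obj H.X)) (J P y)
        * W.pull (snd (P.obj H.X) (Q.obj H.X)) (J Q x))
    (hmul : ∀ (a : Fin m) (x y : W.coh (H.X a)),
      J (.leaf a) (x * y) = J (.leaf a) x * J (.leaf a) y) (P : Prd m) :
    ∀ x y : W.coh (P.obj H.X), J P (x * y) = J P x * J P y := by
  induction P with
  | leaf a => exact hmul a
  | prod P Q hP hQ =>
    exact GMpre.mul_prod H.hW (H.memP P) (H.memP Q) (J P) (J Q) (J (.prod P Q))
      (hprod P Q) (rs P).gr (rs Q).gr hP hQ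

theorem psi_J (rs : ∀ P, IsRS W (P.obj H.X) (P.dim H.n) (P.pol W H.ξ) (H.LamP P) (J P))
    (P : Prd m) (x y : W.coh (P.obj H.X)) :
    H.psiP P (J P x) (J P y) = starRingEnd ℂ (H.psiP P x y) :=
  GBJ.psi_jj H.hW (H.memP P) (rs P) x y

include hg ge a2 rs hprod on1 hfix in
/-- the real structures fix all algebraic classes -/
theorem fix_all (hmul : ∀ (a : Fin m) (x y : W.coh (H.X a)),
      J (.leaf a) (x * y) = J (.leaf a) x * J (.leaf a) y)
    (hAb : ∀ a, AbelianType W (H.X a) (H.n a)) (P : Prd m) {z : W.coh (P.obj H.X)}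
    (hz : z ∈ tot W (P.obj H.X)) : J P z = z := by
  have hmulA := mul_all H rs hprod hmul
  have hpb := fun (P Q : Prd m) (f : Sch.Mor (P.obj H.X) (Q.obj H.X))
      (hf : CoordMor H.X 3 P Q f) =>
    GM.pull_coord H.hW H.mem (jsys H rs hprod) (fun _ => hmulA) P Q f hf
  have hlin : ∀ x y v : W.coh (P.obj H.X), H.psiP P (x + y) v = H.psiP P x v + H.psiP P y v :=
    fun x y v => psi_add_left _ x y v
  have hsm : ∀ (c : ℂ) (x v : W.coh (P.obj H.X)), H.psiP P (c • x) v = c * H.psiP P x v :=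
    fun c x v => psi_smul_left _ c x v
  -- the classes orthogonal to `J z - z`
  let S : Submodule ℂ (W.coh (P.obj H.X)) :=
    { carrier := {y | H.psiP P (J P y) (J P z) = H.psiP P (J P y) z}
      add_mem' := fun {x y} hx hy => by
        change H.psiP P (J P (x + y)) (J P z) = H.psiP P (J P (x + y)) z
        rw [map_add, hlin, hlin, hx, hy]
      zero_mem' := by
        change H.psiP P (J P 0) (J P z) = H.psiP P (J P 0) z
        have h0 : ∀ v : W.coh (P.obj H.X), H.psiP P (0 : W.coh (P.obj H.X)) v = 0 := fun v => by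
          have := hsm 0 0 v
          rwa [zero_smul, zero_mul] at this
        rw [map_zero, h0, h0]
      smul_mem' := fun c x hx => by
        change H.psiP P (J P (c • x)) (J P z) = H.psiP P (J P (c • x)) z
        rw [LinearMap.map_smulₛₗ, hsm, hsm, hx] }
  have hS : S = ⊤ := by
    refine span_top H ge staB hAb P S ?_ ?_
    · -- the class `1`
      change H.psiP P (J P 1) (J P z) = H.psiP P (J P 1) z
      rw [psi_J H rs, (rs P).one]
      have h1 : H.psiP P 1 z = W.tr (P.obj H.X) (H.starP P z) := by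
        change W.tr (P.obj H.X) (1 * H.starP P z) = _
        rw [one_mul]
      obtain ⟨DP, hPalg⟩ := H.lamP P
      have hsz : H.starP P z ∈ tot W (P.obj H.X) :=
        AlgOp.apply H.hW (H.memP P) (algOp_star H.hW (H.memP P) hPalg DP) hz
      obtain ⟨q, hq⟩ := tot_tr H.hW (H.memP P) hsz
      rw [h1, hq]
      simp
    · rintro y ⟨n, b, f, w, hf, hw, rfl⟩
      obtain ⟨F, hF, hE⟩ := exists_map H P n b f hf
      obtain ⟨z'', hz'', key⟩ := push_star H P (GP.N n b) F z hz
      rw [← hE]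
      obtain ⟨x, hxd, hx⟩ : ∃ x : Fin (GP.N n b).size → H.I, D1 H x ∧
          GP.E' H n b w = H.E (GP.N n b) x := by
        refine ⟨w ∘ Fin.cast (GP.size_N n b), fun i => ?_, ?_⟩
        · rw [Function.comp_apply, hw]
        · rw [GP.E_eq]
          rfl
      rw [hx]
      change H.psiP P (J P (W.pull F (H.E (GP.N n b) x))) (J P z)
        = H.psiP P (J P (W.pull F (H.E (GP.N n b) x))) z
      have e1 : J P (W.pull F (H.E (GP.N n b) x)) = W.pull F (J (GP.N n b) (H.E (GP.N n b) x)) :=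
        hpb P (GP.N n b) F hF _
      have e2 := J_E1 H a1 a2 hg ge hprod on1 (GP.N n b) hxd
      have e3 := J_Z1 H a1 a2 hg ge hprod on1 hfix (GP.N n b) hz''
      rw [psi_J H rs, ← key, ← psi_Z1 H ge (GP.N n b) (tc_E1 H ge (GP.N n b) hxd) z'',
        ← psi_J H rs, e3, psi_Z1 H ge (GP.N n b) e2 z'', key, e1]
  have hsurj := Jl85.surj_of_rs H (rs P)
  obtain ⟨v₀, hv₀⟩ := hsurj (J P z - z)
  obtain ⟨y₀, hy₀⟩ := hsurj v₀
  have hy : H.psiP P (J P y₀) (J P z) = H.psiP P (J P y₀) z := by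
    have : y₀ ∈ S := by rw [hS]; trivial
    exact this
  by_cases h0 : v₀ = 0
  · rw [h0, map_zero] at hv₀
    exact (sub_eq_zero.1 hv₀.symm)
  · exfalso
    obtain ⟨r, hr, h⟩ := (rs P).pos v₀ h0
    have h1 : H.psiP P v₀ (J P v₀) = (r : ℂ) := h
    have h2 : H.psiP P v₀ (J P z - z) = H.psiP P v₀ (J P z) - H.psiP P v₀ z := by
      have h3 := psi_add_right (W := W) (X := P.obj H.X) (ξ := P.pol W H.ξ) (Lam := H.LamP P)
        (H.lamP P).1.slm.internal v₀ (J P z - z) z
      rw [sub_add_cancel] at h3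
      rw [eq_sub_iff_add_eq]
      exact h3.symm
    rw [hv₀, h2, ← hy₀, hy, sub_self] at h1
    exact hr.ne' (by exact_mod_cast h1.symm)

end real

end EndE

end Pool.Agent.Lib.MP_361a6f_ag.FL
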