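import Pool.Agent.Lib.MP_361a6f_ag.AV48.Hr
import Pool.Agent.Lib.MP_361a6f_ag.H3.RealStr
import Pool.Agent.Lib.MP_361a6f_ag.FL.B.Gbj
import Pool.Agent.Lib.MP_361a6f_ag.PP.PC

/-!
# Theorem E, general form, the end: antilinear automorphisms of the cohomology ring

An antilinear automorphism of the cohomology ring of a variety of abelian type that preserves the
form `ψ` on `H^1` fixes the polarisation, preserves the trace and the form `ψ`.
-/

open CategoryTheory AlgebraicGeometry MonoidalCategory CartesianMonoidalCategory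

universe u v w

set_option autoImplicit false
set_option linter.unusedSectionVars false

namespace Pool.Agent.Lib.MP_361a6f_ag.FL

open Pool.Agent.Lib.MP_361a6f_ag.H3 Pool.Agent.Lib.MP_361a6f_ag.SQ
  Pool.Agent.Lib.MP_361a6f_ag.PP Pool.Agent.Lib.MP_361a6f_ag.AV48

namespace EndK

variable {k : Type u} [Field k] {W : CohomologyData.{u, 0, w} k ℂ} {𝒱 : VarietyClass k}

section leaf

variable (hW : IsWeilCohomology W 𝒱) {X : Sch k} {g : ℕ} (hX : 𝒱.mem X g)
  (hA : AbelianType W X g) {ξ : W.coh X} (hξ : PositiveDivisor W X g ξ)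
  {Lam : Module.End ℂ (W.coh X)} (D : LamData W X g ξ Lam)
  (J : W.coh X →ₛₗ[starRingEnd ℂ] W.coh X) (J1 : J 1 = 1)
  (Jm : ∀ x y, J (x * y) = J x * J y) (Jg : ∀ i x, x ∈ W.gr X i → J x ∈ W.gr X i)
  (Jc : ∀ v ∈ W.gr X 1, ∀ w ∈ W.gr X 1, psi W X ξ Lam D.slm.internal (J v) (J w)
    = starRingEnd ℂ (psi W X ξ Lam D.slm.internal v w))
  (Js : ∀ u ∈ W.gr X 1, ∃ u' ∈ W.gr X 1, J u' = u)

include hW hX hA hξ D J1 Jm Jg Jc Js

/-- `J ξ = ξ` -/
theorem J_ξ : J ξ = ξ := by
  have hE := extAlg hW hX hA hξ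
  have hξ2 := ξ_gr hW hX hA hξ
  obtain ⟨r, hr, h1⟩ := psi_one hW hX hA hξ D
  have hr0 : psi W X ξ Lam D.slm.internal 1 1 ≠ 0 := by
    rw [h1]; exact_mod_cast hr.ne'
  have hone : (1 : W.coh X) ≠ 0 := by
    intro h0
    apply hr0
    rw [psi, h0, zero_mul, map_zero]
  -- the functional of a vector
  have key : ∀ (d : Module.Dual ℂ (W.gr X 1)) (u : W.coh X) (hu : u ∈ W.gr X 1),
      hE.D d ξ = -u ↔ ∀ v : W.gr X 1, d v
        = -(psi W X ξ Lam D.slm.internal u v) / psi W X ξ Lam D.slm.internal 1 1 := by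
    intro d u hu
    have := hW.finite hX
    have h3 : ∀ d, hE.D d ξ = -u → ∀ v : W.gr X 1, d v
        = -(psi W X ξ Lam D.slm.internal u v) / psi W X ξ Lam D.slm.internal 1 1 := by
      intro d hd v
      have h4 := hE.io_eq_D hξ2 D.slm ⟨u, hu⟩ hd
      have h5 := io_v hW hX hA hξ D hu v.2
      have h6 : io Lam u (v : W.coh X) = hE.D d v := LinearMap.congr_fun h4 _
      rw [h6, hE.D_v] at h5
      exact smul_left_injective ℂ hone h5
    refine ⟨h3 d, fun h => ?_⟩
    obtain ⟨d', hd'⟩ := hE.exists_dual hξ2 D.slm (ξg_ne hW hX hA hξ) ⟨u, hu⟩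
    have h7 : d = d' := LinearMap.ext fun v => by rw [h v, h3 d' hd' v]
    rw [h7]
    exact hd'
  -- the conjugate functional
  have hJD : ∀ d : Module.Dual ℂ (W.gr X 1), ∃ d' : Module.Dual ℂ (W.gr X 1),
      (∀ v : W.gr X 1, d' v = starRingEnd ℂ (d ⟨J v, Jg 1 v v.2⟩)) ∧
      ∀ i x, x ∈ W.gr X i → hE.D d (J x) = J (hE.D d' x) := by
    intro d
    let d' : Module.Dual ℂ (W.gr X 1) :=
      { toFun := fun v => starRingEnd ℂ (d ⟨J v, Jg 1 v v.2⟩)
        map_add' := fun v v' => by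
          have : (⟨J ((v + v' : W.gr X 1) : W.coh X), Jg 1 _ (v + v').2⟩ : W.gr X 1)
              = ⟨J v, Jg 1 v v.2⟩ + ⟨J v', Jg 1 v' v'.2⟩ := Subtype.ext (map_add J _ _)
          rw [this, map_add, map_add]
        map_smul' := fun c v => by
          have : (⟨J ((c • v : W.gr X 1) : W.coh X), Jg 1 _ (c • v).2⟩ : W.gr X 1)
              = starRingEnd ℂ c • ⟨J v, Jg 1 v v.2⟩ :=
            Subtype.ext (LinearMap.map_smulₛₗ J _ _)
          rw [this, map_smul, smul_eq_mul, map_mul, Complex.conj_conj, RingHom.id_apply,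
            smul_eq_mul] }
    have hd' : ∀ v : W.gr X 1, d' v = starRingEnd ℂ (d ⟨J v, Jg 1 v v.2⟩) := fun v => rfl
    refine ⟨d', hd', ?_⟩
    refine hE.deg_ind (P := fun i x => hE.D d (J x) = J (hE.D d' x)) ?_ ?_ ?_ ?_
    · intro i
      simp
    · intro i x y _ _ hx hy
      rw [map_add, map_add, hx, hy, map_add, map_add]
    · intro c
      rw [LinearMap.map_smulₛₗ, J1, map_smul, map_smul, hE.D_one, hE.D_one, smul_zero,
        smul_zero, map_zero]
    · intro i v hv x hx h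
      have e1 := hE.D_mul d ⟨J v, Jg 1 v hv⟩ (J x)
      have e2 := hE.D_mul d' ⟨v, hv⟩ x
      have e1' : hE.D d (J v * J x) = d ⟨J v, Jg 1 v hv⟩ • J x - J v * hE.D d (J x) := e1
      have e2' : hE.D d' (v * x) = d' ⟨v, hv⟩ • x - v * hE.D d' x := e2
      rw [Jm, e1', e2', map_sub, LinearMap.map_smulₛₗ, Jm, hd', Complex.conj_conj, h]
  -- all contractions of `J ξ - ξ` vanish
  have hz : ∀ d : Module.Dual ℂ (W.gr X 1), hE.D d (J ξ - ξ) = 0 := by
    intro d
    obtain ⟨u, hu, hd⟩ : ∃ u ∈ W.gr X 1, hE.D d ξ = -u :=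
      ⟨-(hE.D d ξ), neg_mem ((hE.D_gr d 2 ξ hξ2).2 1 rfl), by rw [neg_neg]⟩
    obtain ⟨u', hu', rfl⟩ := Js u hu
    obtain ⟨d', hd', hJ⟩ := hJD d
    have hdv := (key d _ hu).1 hd
    have h8 : hE.D d' ξ = -u' := by
      refine (key d' u' hu').2 fun v => ?_
      have h5 : psi W X ξ Lam D.slm.internal (J u')
          ((⟨J v, Jg 1 v v.2⟩ : W.gr X 1) : W.coh X)
          = starRingEnd ℂ (psi W X ξ Lam D.slm.internal u' v) := Jc u' hu' v v.2
      rw [hd', hdv, map_div₀, map_neg, h5, Complex.conj_conj, h1, Complex.conj_ofReal]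
    rw [map_sub, hJ 2 ξ hξ2, h8, hd, map_neg, sub_self]
  -- so it is zero
  have hn : ∀ i x, x ∈ W.gr X i → (∀ d, hE.D d x = 0) → ((i : ℂ)) • x = 0 := by
    intro i x hx h0
    have := hE.fin
    let b : Module.Basis (Fin (2 * g)) ℂ (W.gr X 1) :=
      Module.finBasisOfFinrankEq ℂ (W.gr X 1) hE.dim
    have hN : ∀ i x, x ∈ W.gr X i → ∑ l, (b l : W.coh X) * hE.D (b.coord l) x = (i : ℂ) • x := by
      refine hE.deg_ind (P := fun i x => ∑ l, (b l : W.coh X) * hE.D (b.coord l) x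
        = (i : ℂ) • x) ?_ ?_ ?_ ?_
      · intro i
        simp
      · intro i x y _ _ hx hy
        simp only [map_add, mul_add, Finset.sum_add_distrib]
        rw [hx, hy, smul_add]
      · intro c
        simp [hE.D_one]
      · intro i v hv x hx h
        have e1 : ∀ l, (b l : W.coh X) * hE.D (b.coord l) (v * x)
            = ((b.coord l ⟨v, hv⟩ • b l : W.gr X 1) : W.coh X) * x
              + v * ((b l : W.coh X) * hE.D (b.coord l) x) := by
          intro l
          have e2 : hE.D (b.coord l) (v * x) = b.coord l ⟨v, hv⟩ • x - v * hE.D (b.coord l) x :=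
            hE.D_mul (b.coord l) ⟨v, hv⟩ x
          have e3 : (b l : W.coh X) * v = -(v * (b l : W.coh X)) := by
            rw [hW.comm_gr hX (b l).2 hv]
            norm_num
          rw [e2, mul_sub, mul_smul_comm, ← mul_assoc, e3, neg_mul, sub_neg_eq_add, mul_assoc,
            Submodule.coe_smul, smul_mul_assoc]
        rw [Finset.sum_congr rfl fun l _ => e1 l, Finset.sum_add_distrib, ← Finset.sum_mul,
          ← Finset.mul_sum, h]
        have e4 : ∑ l, ((b.coord l ⟨v, hv⟩ • b l : W.gr X 1) : W.coh X) = v := by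
          have := b.sum_repr ⟨v, hv⟩
          have h5 := congrArg (Subtype.val : W.gr X 1 → W.coh X) this
          rw [AddSubmonoidClass.coe_finsetSum] at h5
          exact h5
        rw [e4, mul_smul_comm]
        push_cast
        rw [add_smul, one_smul, add_comm]
    rw [← hN i x hx]
    exact Finset.sum_eq_zero fun l _ => by rw [h0, mul_zero]
  have h9 := hn 2 (J ξ - ξ) (sub_mem (Jg 2 ξ hξ2) hξ2) hz
  have h10 : J ξ - ξ = 0 := (smul_eq_zero.1 h9).resolve_left (by norm_num)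
  exact sub_eq_zero.1 h10

/-- `J` preserves the trace -/
theorem J_tr (z : W.coh X) : W.tr X (J z) = starRingEnd ℂ (W.tr X z) := by
  have hJξ := J_ξ hW hX hA hξ D J J1 Jm Jg Jc Js
  obtain ⟨q, hq, h⟩ := hξ.2
  have h1 : W.tr X (ξ ^ g) = (q : ℂ) := h
  have hq0 : ((q : ℚ) : ℂ) ≠ 0 := by exact_mod_cast hq.ne'
  have hξ2 := ξ_gr hW hX hA hξ
  have hpow : ∀ r, ξ ^ r ∈ W.gr X (2 * r) ∧ J (ξ ^ r) = ξ ^ r := by
    intro r
    induction r with
    | zero => rw [pow_zero]; exact ⟨hW.one_gr hX, J1⟩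
    | succ r ih =>
      rw [pow_succ]
      exact ⟨hW.mul_gr hX ih.1 hξ2, by rw [Jm, ih.2, hJξ]⟩
  refine hW.hom_induction hX (P := fun z => W.tr X (J z) = starRingEnd ℂ (W.tr X z)) z ?_ ?_ ?_
  · intro i z hz
    by_cases hi : i = 2 * g
    · subst hi
      have h2 : z - (W.tr X z / (q : ℂ)) • ξ ^ g = 0 := by
        refine hW.duality hX _ fun y => ?_
        have hz' : z - (W.tr X z / (q : ℂ)) • ξ ^ g ∈ W.gr X (2 * g) :=
          sub_mem hz (Submodule.smul_mem _ _ (hpow g).1)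
        refine hW.hom_induction hX (P := fun y =>
          W.tr X ((z - (W.tr X z / (q : ℂ)) • ξ ^ g) * y) = 0) y ?_ ?_ ?_
        · intro j y hy
          rcases Nat.eq_zero_or_pos j with hj | hj
          · subst hj
            obtain ⟨c, rfl⟩ := zero_gr hW hX hA hξ hy
            rw [mul_smul_comm, mul_one, map_smul, map_sub, map_smul, h1, smul_eq_mul,
              smul_eq_mul, div_mul_cancel₀ _ hq0, sub_self, mul_zero]
          · rw [hW.top_gr hX (hW.mul_gr hX hz' hy) (by omega), map_zero]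
        · rw [mul_zero, map_zero]
        · intro a b ha hb
          rw [mul_add, map_add, ha, hb, add_zero]
      rw [sub_eq_zero] at h2
      have h3 : J z = starRingEnd ℂ (W.tr X z / (q : ℂ)) • ξ ^ g := by
        conv_lhs => rw [h2]
        rw [LinearMap.map_smulₛₗ, (hpow g).2]
      rw [h3, map_smul, h1, smul_eq_mul, map_div₀]
      have h4 : starRingEnd ℂ ((q : ℚ) : ℂ) = ((q : ℚ) : ℂ) := by simp
      rw [h4, div_mul_cancel₀ _ hq0]
    · rw [hW.tr_gr hX (Jg i z hz) hi, hW.tr_gr hX hz hi, map_zero]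
  · rw [map_zero, map_zero, map_zero]
  · intro a b ha hb
    rw [map_add, map_add, ha, hb, map_add, map_add]

/-- the automorphism as a structure -/
theorem exists_rs : ∃ R : RS W X, (∀ x, R.j x = J x) ∧ R.j ξ = ξ :=
  ⟨⟨J, Jg, J1, Jm, J_tr hW hX hA hξ D J J1 Jm Jg Jc Js⟩, fun _ => rfl,
    J_ξ hW hX hA hξ D J J1 Jm Jg Jc Js⟩

end leaf

section any

variable (hW : IsWeilCohomology W 𝒱) {X : Sch k} {g : ℕ} (hX : 𝒱.mem X g) {ξ : W.coh X}
  {Lam : Module.End ℂ (W.coh X)} (S : Slm (W.gr X) g (Lop W X ξ) Lam) (R : RS W X)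
  (hξ : R.j ξ = ξ)

include hW hX

theorem surj : Function.Surjective R.j := by
  have _ := hW.finite hX
  refine PCA.surj_of_inj R.j ?_
  rw [injective_iff_map_eq_zero]
  intro x hx
  refine hW.duality hX _ fun y => ?_
  have h1 := R.tr (x * y)
  rw [R.mul, hx, zero_mul, map_zero] at h1
  have h2 := congrArg (starRingEnd ℂ) h1
  rw [map_zero, Complex.conj_conj] at h2
  exact h2.symm

include S hξ

/-- `J` commutes with `Λ` -/
theorem J_Lam (x : W.coh X) : R.j (Lam x) = Lam (R.j x) := by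
  have := hW.finite hX
  let J := R.j
  let A : Module.End ℂ (W.coh X) := J.comp (Lam.comp J)
  let B : Module.End ℂ (W.coh X) := Lam.comp (J.comp J)
  have hA' : ∀ x, A x = R.j (Lam (R.j x)) := fun x => rfl
  have hB' : ∀ x, B x = Lam (R.j (R.j x)) := fun x => rfl
  have hH : ∀ i x, x ∈ W.gr X i → PP.Slm.weyH S.internal g x = ((i : ℂ) - g) • x :=
    fun i x hx => gop_apply S.internal _ hx
  have hlow : ∀ i x, x ∈ W.gr X i → i < 2 → A x = 0 ∧ B x = 0 := by
    intro i x hx hi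
    exact ⟨by rw [hA', S.Λ_low i _ hi (R.gr i x hx), map_zero],
      by rw [hB', S.Λ_low i _ hi (R.gr i _ (R.gr i x hx))]⟩
  have hAB : ∀ i x, x ∈ W.gr X (i + 2) → A x ∈ W.gr X i ∧ B x ∈ W.gr X i := by
    intro i x hx
    exact ⟨R.gr _ _ (S.Λ_gr i _ (R.gr _ _ hx)), S.Λ_gr i _ (R.gr _ _ (R.gr _ _ hx))⟩
  have h1 : A - B = 0 := by
    refine eq_zero_of_neg S.wey_sl2 (m := 1) ?_ ?_
    · refine PP.Slm.wey_hom_ext S.internal fun i x hx => ?_
      have e1 := S.comm i (R.j x) (R.gr i x hx)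
      have e2 := S.comm i (R.j (R.j x)) (R.gr i _ (R.gr i x hx))
      show ξ * (R.j (Lam (R.j x)) - Lam (R.j (R.j x)))
        - (R.j (Lam (R.j (ξ * x))) - Lam (R.j (R.j (ξ * x)))) = 0
      have e1' : ξ * Lam (R.j x) - Lam (ξ * R.j x) = ((i : ℂ) - g) • R.j x := e1
      have e2' : ξ * Lam (R.j (R.j x)) - Lam (ξ * R.j (R.j x)) = ((i : ℂ) - g) • R.j (R.j x) := e2
      have e3 := congrArg R.j e1'
      rw [map_sub, R.mul, hξ, LinearMap.map_smulₛₗ] at e3
      have e4 : starRingEnd ℂ ((i : ℂ) - g) = (i : ℂ) - g := by simp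
      rw [e4] at e3
      rw [R.mul ξ x, hξ, R.mul ξ (R.j x), hξ]
      calc ξ * (R.j (Lam (R.j x)) - Lam (R.j (R.j x)))
            - (R.j (Lam (ξ * R.j x)) - Lam (ξ * R.j (R.j x)))
          = (ξ * R.j (Lam (R.j x)) - R.j (Lam (ξ * R.j x)))
            - (ξ * Lam (R.j (R.j x)) - Lam (ξ * R.j (R.j x))) := by
            rw [mul_sub]; abel
        _ = 0 := by rw [e3, e2', sub_self]
    · refine PP.Slm.wey_hom_ext S.internal fun i x hx => ?_
      rw [LinearMap.sub_apply, Module.End.mul_apply, Module.End.mul_apply, hH i x hx, map_smul,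
        LinearMap.neg_apply, LinearMap.smul_apply, LinearMap.sub_apply]
      by_cases hi : i < 2
      · obtain ⟨a0, b0⟩ := hlow i x hx hi
        rw [a0, b0]
        simp
      · obtain ⟨j, rfl⟩ : ∃ j, i = j + 2 := ⟨i - 2, by omega⟩
        obtain ⟨a1, b1⟩ := hAB j x hx
        rw [hH j _ (sub_mem a1 b1), ← sub_smul, ← neg_smul]
        congr 1
        push_cast
        ring
  obtain ⟨y, rfl⟩ := surj hW hX R x
  have := LinearMap.congr_fun h1 y
  exact sub_eq_zero.1 this

/-- `J` commutes with the Lefschetz star operator -/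
theorem star_J (x : W.coh X) : R.j (star S.internal (Lop W X ξ) Lam x)
    = star S.internal (Lop W X ξ) Lam (R.j x) := by
  refine hW.hom_induction hX (P := fun x => R.j (star S.internal (Lop W X ξ) Lam x)
    = star S.internal (Lop W X ξ) Lam (R.j x)) x ?_ ?_ ?_
  · intro i x hx
    have hL : ∀ x, R.j (Lop W X ξ x) = Lop W X ξ (R.j x) := fun x => by
      change R.j (ξ * x) = ξ * R.j x
      rw [R.mul, hξ]
    rw [PP.star, Module.End.mul_apply, Module.End.mul_apply, gop_apply _ _ hx,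
      gop_apply _ _ (R.gr i x hx), (wop (Lop W X ξ) Lam).map_smul,
      (wop (Lop W X ξ) Lam).map_smul, LinearMap.map_smulₛₗ,
      GBJ.wop_j hL (J_Lam hW hX S R hξ), sgn, map_pow, map_neg, map_one]
  · simp only [map_zero]
  · intro x y hx hy
    simp only [map_add, hx, hy]

/-- `J` preserves the form `ψ` -/
theorem psi_JJ (x y : W.coh X) : psi W X ξ Lam S.internal (R.j x) (R.j y)
    = starRingEnd ℂ (psi W X ξ Lam S.internal x y) := by
  rw [psi, psi, ← star_J hW hX S R hξ, ← R.mul, R.tr]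

end any

end EndK

end Pool.Agent.Lib.MP_361a6f_ag.FL
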