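import Pool.Agent.Lib.MP_361a6f_ag.FL.E.EndH
import Pool.Agent.Lib.MP_361a6f_ag.FL.E.EndK

/-!
# Theorem E, general form, the end: twisted real structures

Let `g` and `c` be elements of the group of the host such that `g J₀ g⁻¹ u = c u` for all algebraic
tensors whose letters all have degree one. Then the Hodge-Riemann structures `J` that extend
`g J₀ g⁻¹` and the automorphisms `C` of the cohomology rings that extend `c` agree on all algebraic
classes on all products.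
-/

open CategoryTheory AlgebraicGeometry MonoidalCategory CartesianMonoidalCategory

universe u v w

set_option autoImplicit false
set_option linter.unusedSectionVars false

namespace Pool.Agent.Lib.MP_361a6f_ag.FL

open Pool.Agent.Lib.MP_361a6f_ag.H3 Pool.Agent.Lib.MP_361a6f_ag.SQ
  Pool.Agent.Lib.MP_361a6f_ag.PP

namespace EndC

open EndE

/-! ### The operators on tensors -/

section ten

variable {I Λ : Type} [Fintype I] [DecidableEq I] [DecidableEq Λ] (D : Dat I Λ)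
  (g c : Matrix I I ℂ)

/-- the operator `c g J₀ g⁻¹` -/
noncomputable def TT {L : ℕ} (u : Ten I L) : Ten I L := gT c (GJ.JT D g u)

theorem TT_add (a1 : Alg1) {L : ℕ} (u v : Ten I L) : TT D g c (u + v) = TT D g c u + TT D g c v := by
  rw [TT, GJ.JT_add D g a1, a1.gT_add]; rfl

theorem TT_smul (a1 : Alg1) {L : ℕ} (t : ℂ) (u : Ten I L) :
    TT D g c (t • u) = (starRingEnd ℂ) t • TT D g c u := by
  rw [TT, GJ.JT_smul D g a1, a1.gT_smul]; rfl

theorem TT_outer (a1 : Alg1) (a2 : Alg2) {p q : ℕ} (u : Ten I p) (v : Ten I q) :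
    TT D g c (outer u v) = outer (TT D g c u) (TT D g c v) := by
  rw [TT, GJ.JT_outer D a1 a2, a2.outer_gT]; rfl

variable {g c} (hg : IsG D g) (hc : IsG D c)

include hg hc

theorem TT_supp (a1 : Alg1) {L : ℕ} (S : (Fin L → I) → Prop)
    (hS : ∀ w w', (∀ i, D.typ (w i) = D.typ (w' i)) → S w → S w') {u : Ten I L}
    (hu : ∀ w, S w → u w = 0) (w : Fin L → I) (hw : S w) : TT D g c u w = 0 :=
  GJ.gT_supp D hc S hS (fun w hw => GJ.JT_supp D a1 hg S hS hu w hw) w hw

theorem psi_TT (a1 : Alg1) {L : ℕ} (u v : Ten I L) :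
    psiT D (TT D g c u) (TT D g c v) = (starRingEnd ℂ) (psiT D u v) := by
  rw [TT, TT, a1.psiT_gT D c _ _ hc, GJ.psi_JT_JT D a1 hg]

end ten

variable {k : Type u} [Field k] {m : ℕ} {W : CohomologyData.{u, 0, w} k ℂ} {𝒱 : VarietyClass k}
  (H : Host W 𝒱 m)

/-! ### The operators on the cohomology, in coordinates -/

/-- the antilinear operator -/
noncomputable def jc (a1 : Alg1) (g c : Matrix H.I H.I ℂ) (P : Prd m) :
    W.coh (P.obj H.X) →ₛₗ[starRingEnd ℂ] W.coh (P.obj H.X) where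
  toFun z := ∑ w, TT H.D g c (H.tc P z) w • H.E P w
  map_add' x y := by
    rw [map_add, TT_add H.D g c a1, ← Finset.sum_add_distrib]
    refine Finset.sum_congr rfl fun w _ => ?_
    rw [Pi.add_apply, add_smul]
  map_smul' t x := by
    rw [map_smul, TT_smul H.D g c a1, Finset.smul_sum]
    refine Finset.sum_congr rfl fun w _ => ?_
    rw [Pi.smul_apply, smul_assoc]

theorem jc_apply (a1 : Alg1) (g c : Matrix H.I H.I ℂ) (P : Prd m) (z : W.coh (P.obj H.X)) :
    jc H a1 g c P z = ∑ w, TT H.D g c (H.tc P z) w • H.E P w := rfl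

section coord

variable (a1 : Alg1) (a2 : Alg2) {g c : Matrix H.I H.I ℂ} (hg : IsG H.D g) (hc : IsG H.D c)
  (ge : H.GeFacts)

include hg hc ge

theorem tc_jc (P : Prd m) (z : W.coh (P.obj H.X)) :
    H.tc P (jc H a1 g c P z) = TT H.D g c (H.tc P z) := by
  rw [jc_apply]
  refine ge.tc_sum P _ ?_
  refine TT_supp H.D hg hc a1 (H.Off P) ?_ (ge.tc_off P z)
  rintro w w' h ⟨i, hi⟩
  exact ⟨i, by rw [← h i]; exact hi⟩

include a2 in
theorem jc_prod (P Q : Prd m) (y : W.coh (P.obj H.X)) (x : W.coh (Q.obj H.X)) :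
    jc H a1 g c (.prod P Q) (W.pull (fst (P.obj H.X) (Q.obj H.X)) y
        * W.pull (snd (P.obj H.X) (Q.obj H.X)) x)
      = W.pull (fst (P.obj H.X) (Q.obj H.X)) (jc H a1 g c P y)
        * W.pull (snd (P.obj H.X) (Q.obj H.X)) (jc H a1 g c Q x) := by
  refine ge.inj (.prod P Q) ?_
  rw [tc_jc H a1 hg hc ge, ge.tc_outer, ge.tc_outer, tc_jc H a1 hg hc ge, tc_jc H a1 hg hc ge]
  exact TT_outer H.D g c a1 a2 _ _

theorem jc_conj (P : Prd m) (x y : W.coh (P.obj H.X)) :
    H.psiP P (jc H a1 g c P x) (jc H a1 g c P y) = starRingEnd ℂ (H.psiP P x y) := by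
  rw [← ge.psi_tc, ← ge.psi_tc, tc_jc H a1 hg hc ge, tc_jc H a1 hg hc ge, psi_TT H.D hg hc a1]

theorem jc_gr (hsta : StaStatement.{w}) (P : Prd m) (i : ℕ) (x : W.coh (P.obj H.X))
    (hx : x ∈ W.gr (P.obj H.X) i) : jc H a1 g c P x ∈ W.gr (P.obj H.X) i := by
  rw [jc_apply]
  refine Submodule.sum_mem _ fun w _ => ?_
  by_cases hw : ∑ l, (H.D.typ (w l)).2 = i
  · refine Submodule.smul_mem _ _ ?_
    rw [← hw]
    exact ge.E_gr P w
  · have h1 : TT H.D g c (H.tc P x) w = 0 := by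
      refine TT_supp H.D hg hc a1 (fun w => ∑ l, (H.D.typ (w l)).2 ≠ i) ?_
        (fun w hw => GJ.tc_gr H ge hsta P hx w hw) w hw
      intro w w' h hw
      have h2 : ∑ l, (H.D.typ (w' l)).2 = ∑ l, (H.D.typ (w l)).2 :=
        Finset.sum_congr rfl fun l _ => by rw [h l]
      exact fun h3 => hw (h2.symm.trans h3)
    rw [h1, zero_smul]
    exact zero_mem _

theorem jc_inj (P : Prd m) (x : W.coh (P.obj H.X)) (h : jc H a1 g c P x = 0) : x = 0 := by
  by_contra h0
  obtain ⟨r, hr, h1⟩ := GJ.J_pos H a1 hg ge P x h0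
  have h2 := jc_conj H a1 hg hc ge P x (GJ.J H a1 g P x)
  have h3 : H.psiP P (jc H a1 g c P x) (jc H a1 g c P (GJ.J H a1 g P x)) = 0 := by
    rw [h]
    have := psi_smul_left (W := W) (X := P.obj H.X) (ξ := P.pol W H.ξ) (Lam := H.LamP P)
      (H.lamP P).1.slm.internal 0 0 (jc H a1 g c P (GJ.J H a1 g P x))
    rwa [zero_smul, zero_mul] at this
  rw [h3, h1, Complex.conj_ofReal] at h2
  exact hr.ne' (by exact_mod_cast h2.symm)

end coord

/-! ### General facts -/

/-- an injective antilinear operator that preserves the degree is bijective in each degree -/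
theorem surj_gr (hW : IsWeilCohomology W 𝒱) {X : Sch k} {d : ℕ} (hX : 𝒱.mem X d) (i : ℕ)
    (J : W.coh X →ₛₗ[starRingEnd ℂ] W.coh X) (Jg : ∀ x ∈ W.gr X i, J x ∈ W.gr X i)
    (hinj : ∀ x ∈ W.gr X i, J x = 0 → x = 0) : ∀ v ∈ W.gr X i, ∃ y ∈ W.gr X i, J y = v := by
  have _ := hW.finite hX
  let j : W.gr X i →ₛₗ[starRingEnd ℂ] W.gr X i :=
    { toFun := fun x => ⟨J x, Jg x x.2⟩
      map_add' := fun x y => Subtype.ext (by
        show J ((x : W.coh X) + y) = J x + J y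
        rw [map_add])
      map_smul' := fun c x => Subtype.ext (by
        show J (c • (x : W.coh X)) = starRingEnd ℂ c • J x
        rw [LinearMap.map_smulₛₗ]) }
  have hs : Function.Surjective j := by
    refine PCA.surj_of_inj j ?_
    rw [injective_iff_map_eq_zero]
    intro x hx
    exact Subtype.ext (hinj x x.2 (congrArg Subtype.val hx))
  intro v hv
  obtain ⟨y, hy⟩ := hs ⟨v, hv⟩
  exact ⟨y, y.2, congrArg Subtype.val hy⟩

/-- antilinear operators on a product agree if they agree on exterior products -/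
theorem ext_semi (hW : IsWeilCohomology W 𝒱) {Y X : Sch k} {d e : ℕ}
    (hY : 𝒱.mem Y d) (hX : 𝒱.mem X e) (A B : W.coh (Y ⊗ X) →ₛₗ[starRingEnd ℂ] W.coh (Y ⊗ X))
    (h : ∀ y x, A (W.pull (fst Y X) y * W.pull (snd Y X) x)
      = B (W.pull (fst Y X) y * W.pull (snd Y X) x)) (z : W.coh (Y ⊗ X)) : A z = B z := by
  have hz : z ∈ Submodule.span ℂ {z | ∃ (x : W.coh Y) (y : W.coh X),
      z = W.pull (fst Y X) x * W.pull (snd Y X) y} := by
    rw [hW.kunneth_span hY hX]; trivial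
  induction hz using Submodule.span_induction with
  | mem z hz =>
    obtain ⟨y, x, rfl⟩ := hz
    exact h y x
  | zero => rw [map_zero, map_zero]
  | add a b _ _ ha hb => rw [map_add, map_add, ha, hb]
  | smul t a _ ha => rw [LinearMap.map_smulₛₗ, LinearMap.map_smulₛₗ, ha]

/-- antilinear multiplicative operators on a variety of abelian type agree if they agree on
`H^1` -/
theorem ext_leaf {X : Sch k} {g : ℕ} (hA : AbelianType W X g)
    (A B : W.coh X →ₛₗ[starRingEnd ℂ] W.coh X) (A1 : A 1 = 1) (B1 : B 1 = 1)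
    (Am : ∀ x y, A (x * y) = A x * A y) (Bm : ∀ x y, B (x * y) = B x * B y)
    (h : ∀ v ∈ W.gr X 1, A v = B v) (x : W.coh X) : A x = B x := by
  have h1 : x ∈ Algebra.adjoin ℂ {y : W.coh X | W.Deg X 1 y} := hA.gen x
  induction h1 using Algebra.adjoin_induction with
  | mem y hy => exact h y hy
  | algebraMap r => rw [Algebra.algebraMap_eq_smul_one, LinearMap.map_smulₛₗ,
      LinearMap.map_smulₛₗ, A1, B1]
  | add x y _ _ hx hy => rw [map_add, map_add, hx, hy]
  | mul x y _ _ hx hy => rw [Am, Bm, hx, hy]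

/-! ### Families of antilinear automorphisms -/

/-- a compatible family of antilinear automorphisms of the cohomology rings of all products -/
structure KSys (a1 : Alg1) (g c : Matrix H.I H.I ℂ)
    (K : ∀ P : Prd m, W.coh (P.obj H.X) →ₛₗ[starRingEnd ℂ] W.coh (P.obj H.X)) : Prop where
  js : GM.JSys W H.X K
  mul : ∀ P x y, K P (x * y) = K P x * K P y
  psi : ∀ P x y, H.psiP P (K P x) (K P y) = starRingEnd ℂ (H.psiP P x y)
  on1 : ∀ a, ∀ v ∈ W.gr (H.X a) 1, K (.leaf a) v = jc H a1 g c (.leaf a) v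
  pol : ∀ P : Prd m, K P (P.pol W H.ξ) = P.pol W H.ξ

/-- the products of the automorphisms -/
noncomputable def KR (Rl : ∀ a, RS W (H.X a)) : ∀ P : Prd m, RS W (P.obj H.X)
  | .leaf a => Rl a
  | .prod P Q => Classical.choose
      (RS.exists_prod H.hW (H.memP P) (H.memP Q) (KR Rl P) (KR Rl Q))

theorem KR_prod (Rl : ∀ a, RS W (H.X a)) (P Q : Prd m) (y : W.coh (P.obj H.X))
    (x : W.coh (Q.obj H.X)) :
    (KR H Rl (.prod P Q)).j (W.pull (fst (P.obj H.X) (Q.obj H.X)) y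
        * W.pull (snd (P.obj H.X) (Q.obj H.X)) x)
      = W.pull (fst (P.obj H.X) (Q.obj H.X)) ((KR H Rl P).j y)
        * W.pull (snd (P.obj H.X) (Q.obj H.X)) ((KR H Rl Q).j x) :=
  Classical.choose_spec (RS.exists_prod H.hW (H.memP P) (H.memP Q) (KR H Rl P) (KR H Rl Q)) y x

theorem KR_pol (Rl : ∀ a, RS W (H.X a)) (hl : ∀ a, (Rl a).j (H.ξ a) = H.ξ a) (P : Prd m) :
    (KR H Rl P).j (P.pol W H.ξ) = P.pol W H.ξ := by
  induction P with
  | leaf a => exact hl a
  | prod P Q hP hQ =>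
    have h1 := KR_prod H Rl P Q (P.pol W H.ξ) 1
    have h2 := KR_prod H Rl P Q 1 (Q.pol W H.ξ)
    rw [(KR H Rl Q).one, hP, map_one, mul_one] at h1
    rw [(KR H Rl P).one, hQ, map_one, one_mul] at h2
    have e : (Prd.prod P Q).pol W H.ξ = W.pull (fst (P.obj H.X) (Q.obj H.X)) (P.pol W H.ξ)
        + W.pull (snd (P.obj H.X) (Q.obj H.X)) (Q.pol W H.ξ) := rfl
    rw [e]
    exact (map_add _ _ _).trans (congrArg₂ (· + ·) h1 h2)

theorem exists_K (a1 : Alg1) {g c : Matrix H.I H.I ℂ} (hg : IsG H.D g) (hc : IsG H.D c)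
    (ge : H.GeFacts) (hAb : ∀ a, AbelianType W (H.X a) (H.n a))
    (hpd : ∀ a, PositiveDivisor W (H.X a) (H.n a) (H.ξ a)) (hext : ∀ a, ExtFacts W (H.X a)) :
    ∃ K, KSys H a1 g c K := by
  have hleaf : ∀ a, ∃ R : RS W (H.X a), (∀ v ∈ W.gr (H.X a) 1, R.j v = jc H a1 g c (.leaf a) v)
      ∧ R.j (H.ξ a) = H.ξ a := by
    intro a
    obtain ⟨K, h1, h2, h3, h4⟩ := (hext a).ext (jc H a1 g c (.leaf a))
      (fun v hv => jc_gr H a1 hg hc ge staB (.leaf a) 1 v hv)
    obtain ⟨R, hR, hRξ⟩ := EndK.exists_rs H.hW (H.mem a) (hAb a) (hpd a) (H.lam a) K h1 h2 h3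
      (fun v hv w hw => by
        rw [h4 v hv, h4 w hw]
        exact jc_conj H a1 hg hc ge (.leaf a) v w)
      (fun u hu => by
        obtain ⟨y, hy, hyu⟩ := surj_gr H.hW (H.mem a) 1 (jc H a1 g c (.leaf a))
          (fun x hx => jc_gr H a1 hg hc ge staB (.leaf a) 1 x hx)
          (fun x _ hx0 => jc_inj H a1 hg hc ge (.leaf a) x hx0) u hu
        exact ⟨y, hy, (h4 y hy).trans hyu⟩)
    exact ⟨R, fun v hv => (hR v).trans (h4 v hv), hRξ⟩
  choose Rl h1 h2 using hleaf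
  refine ⟨fun P => (KR H Rl P).j, ⟨⟨fun P => (KR H Rl P).gr, fun P => (KR H Rl P).one,
    fun P x y => ?_, fun P => EndK.surj H.hW (H.memP P) (KR H Rl P), KR_prod H Rl⟩,
    fun P => (KR H Rl P).mul, fun P x y => ?_, h1, KR_pol H Rl h2⟩⟩
  · rw [← (KR H Rl P).mul, (KR H Rl P).tr]
  · exact EndK.psi_JJ H.hW (H.memP P) (H.lamP P).1.slm (KR H Rl P) (KR_pol H Rl h2 P) x y

/-! ### The families fix the algebraic classes -/

section fix

variable (a1 : Alg1) (a2 : Alg2) {g c : Matrix H.I H.I ℂ} (hg : IsG H.D g) (hc : IsG H.D c)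
  (ge : H.GeFacts)
  {K : ∀ P : Prd m, W.coh (P.obj H.X) →ₛₗ[starRingEnd ℂ] W.coh (P.obj H.X)}
  (S : KSys H a1 g c K)

include hg hc ge a2 S

theorem K_E : ∀ (P : Prd m) (w : Fin P.size → H.I), D1 H w →
    K P (H.E P w) = jc H a1 g c P (H.E P w)
  | .leaf a, w, h => by
    refine S.on1 a (H.e a (w (0 : Fin 1))) ?_
    have h1 := H.e_gr a (w (0 : Fin 1))
    rwa [show (H.D.typ (w (0 : Fin 1))).2 = 1 from h (0 : Fin 1)] at h1
  | .prod P Q, w, h => by
    have h1 := K_E P (fun i => w (Fin.castAdd Q.size i)) fun i => h (Fin.castAdd Q.size i)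
    have h2 := K_E Q (fun i => w (Fin.natAdd P.size i)) fun i => h (Fin.natAdd P.size i)
    have h3 := S.js.prod P Q (H.E P (fun i => w (Fin.castAdd Q.size i)))
      (H.E Q (fun i => w (Fin.natAdd P.size i)))
    have h4 := jc_prod H a1 a2 hg hc ge P Q (H.E P (fun i => w (Fin.castAdd Q.size i)))
      (H.E Q (fun i => w (Fin.natAdd P.size i)))
    rw [h1, h2] at h3
    exact h3.trans h4.symm

theorem K_sum (P : Prd m) {u : Ten H.I P.size} (hu : ∀ w, ¬ D1 H w → u w = 0) :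
    K P (∑ w, u w • H.E P w) = jc H a1 g c P (∑ w, u w • H.E P w) := by
  rw [map_sum, map_sum]
  refine Finset.sum_congr rfl fun w _ => ?_
  by_cases h : D1 H w
  · rw [LinearMap.map_smulₛₗ, LinearMap.map_smulₛₗ, K_E H a1 a2 hg hc ge S P w h]
  · rw [hu w h, zero_smul, map_zero, map_zero]

theorem K_E1 (P : Prd m) {w : Fin P.size → H.I} (h : D1 H w) (w' : Fin P.size → H.I)
    (hw' : ¬ D1 H w') : H.tc P (K P (H.E P w)) w' = 0 := by
  rw [K_E H a1 a2 hg hc ge S P w h, tc_jc H a1 hg hc ge]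
  exact TT_supp H.D hg hc a1 (fun w => ¬ D1 H w) (fun w w' hh => d1_typ H hh)
    (tc_E1 H ge P h) w' hw'

variable (hfix : ∀ (L : ℕ) (u : Ten H.I L), u ∈ H.At L → (∀ w, ¬ D1 H w → u w = 0) →
  TT H.D g c u = u)

include hfix

theorem K_Z1 (P : Prd m) {z : W.coh (P.obj H.X)} (hz : z ∈ tot W (P.obj H.X)) :
    K P (Z1 H P z) = Z1 H P z := by
  have h1 : K P (Z1 H P z) = jc H a1 g c P (Z1 H P z) :=
    K_sum H a1 a2 hg hc ge S P fun w hw => cut_off H _ hw
  rw [h1]
  refine ge.inj P ?_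
  rw [tc_jc H a1 hg hc ge, tc_Z1 H ge]
  exact hfix _ _ (cut_at H (GP.at_tc H P hz)) fun w hw => cut_off H _ hw

/-- the automorphisms fix all algebraic classes -/
theorem fix_all (hAb : ∀ a, AbelianType W (H.X a) (H.n a))
    (hnd : ∀ (P : Prd m) (v : W.coh (P.obj H.X)), (∀ y, H.psiP P y v = 0) → v = 0)
    (P : Prd m) {z : W.coh (P.obj H.X)} (hz : z ∈ tot W (P.obj H.X)) : K P z = z := by
  have hpb := fun (P Q : Prd m) (f : Sch.Mor (P.obj H.X) (Q.obj H.X))
      (hf : CoordMor H.X 3 P Q f) =>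
    GM.pull_coord H.hW H.mem S.js (fun _ => S.mul) P Q f hf
  have hlin : ∀ x y v : W.coh (P.obj H.X), H.psiP P (x + y) v = H.psiP P x v + H.psiP P y v :=
    fun x y v => psi_add_left _ x y v
  have hsm : ∀ (t : ℂ) (x v : W.coh (P.obj H.X)), H.psiP P (t • x) v = t * H.psiP P x v :=
    fun t x v => psi_smul_left _ t x v
  -- the classes orthogonal to `K z - z`
  let T : Submodule ℂ (W.coh (P.obj H.X)) :=
    { carrier := {y | H.psiP P (K P y) (K P z) = H.psiP P (K P y) z}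
      add_mem' := fun {x y} hx hy => by
        change H.psiP P (K P (x + y)) (K P z) = H.psiP P (K P (x + y)) z
        rw [map_add, hlin, hlin, hx, hy]
      zero_mem' := by
        change H.psiP P (K P 0) (K P z) = H.psiP P (K P 0) z
        have h0 : ∀ v : W.coh (P.obj H.X), H.psiP P (0 : W.coh (P.obj H.X)) v = 0 := fun v => by
          have := hsm 0 0 v
          rwa [zero_smul, zero_mul] at this
        rw [map_zero, h0, h0]
      smul_mem' := fun t x hx => by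
        change H.psiP P (K P (t • x)) (K P z) = H.psiP P (K P (t • x)) z
        rw [LinearMap.map_smulₛₗ, hsm, hsm, hx] }
  have hT : T = ⊤ := by
    refine span_top H ge staB hAb P T ?_ ?_
    · -- the class `1`
      change H.psiP P (K P 1) (K P z) = H.psiP P (K P 1) z
      rw [S.psi, S.js.one]
      have h1 : H.psiP P 1 z = W.tr (P.obj H.X) (H.starP P z) := by
        change W.tr (P.obj H.X) (1 * H.starP P z) = _
        rw [one_mul]
      obtain ⟨DP, hPalg⟩ := H.lamP P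
      have hsz : H.starP P z ∈ tot W (P.obj H.X) :=
        AlgOp.apply H.hW (H.memP P) (algOp_star H.hW (H.memP P) hPalg DP) hz
      obtain ⟨q, hq⟩ := tot_tr H.hW (H.memP P) hsz
      rw [h1, hq]
      simp
    · rintro y ⟨n, b, f, w, hf, hw, rfl⟩
      obtain ⟨F, hF, hE⟩ := exists_map H P n b f hf
      obtain ⟨z'', hz'', key⟩ := push_star H P (GP.N n b) F z hz
      rw [← hE]
      obtain ⟨x, hxd, hx⟩ : ∃ x : Fin (GP.N n b).size → H.I, D1 H x ∧
          GP.E' H n b w = H.E (GP.N n b) x := by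
        refine ⟨w ∘ Fin.cast (GP.size_N n b), fun i => ?_, ?_⟩
        · rw [Function.comp_apply, hw]
        · rw [GP.E_eq]
          rfl
      rw [hx]
      change H.psiP P (K P (W.pull F (H.E (GP.N n b) x))) (K P z)
        = H.psiP P (K P (W.pull F (H.E (GP.N n b) x))) z
      have e1 : K P (W.pull F (H.E (GP.N n b) x)) = W.pull F (K (GP.N n b) (H.E (GP.N n b) x)) :=
        hpb P (GP.N n b) F hF _
      have e2 := K_E1 H a1 a2 hg hc ge S (GP.N n b) hxd
      have e3 := K_Z1 H a1 a2 hg hc ge S hfix (GP.N n b) hz''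
      rw [S.psi, ← key, ← psi_Z1 H ge (GP.N n b) (tc_E1 H ge (GP.N n b) hxd) z'',
        ← S.psi, e3, psi_Z1 H ge (GP.N n b) e2 z'', key, e1]
  refine sub_eq_zero.1 (hnd P (K P z - z) fun y => ?_)
  obtain ⟨y₀, rfl⟩ := S.js.surj P y
  have hy : H.psiP P (K P y₀) (K P z) = H.psiP P (K P y₀) z := by
    have : y₀ ∈ T := by rw [hT]; trivial
    exact this
  have h3 := psi_add_right (W := W) (X := P.obj H.X) (ξ := P.pol W H.ξ) (Lam := H.LamP P)
    (H.lamP P).1.slm.internal (K P y₀) (K P z - z) z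
  rw [sub_add_cancel] at h3
  have h4 : H.psiP P (K P y₀) (K P z)
      = H.psiP P (K P y₀) (K P z - z) + H.psiP P (K P y₀) z := h3
  rw [hy] at h4
  exact add_right_cancel (h4.symm.trans (zero_add _).symm)

end fix

/-! ### The twisted real structures -/

/-- `J` is a family of Hodge-Riemann structures and `C` a family of automorphisms of the cohomology
rings of all products, `C` is given by the matrix `c` on `H^1`, and `J = C`, `C² = 1` on all
algebraic classes. -/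
structure Tw (c : Matrix H.I H.I ℂ)
    (J : ∀ P : Prd m, W.coh (P.obj H.X) →ₛₗ[starRingEnd ℂ] W.coh (P.obj H.X))
    (C : ∀ P : Prd m, W.coh (P.obj H.X) →ₗ[ℂ] W.coh (P.obj H.X)) : Prop where
  rs : ∀ P, IsRS W (P.obj H.X) (P.dim H.n) (P.pol W H.ξ) (H.LamP P) (J P)
  hr : ∀ P, HRStr W (P.obj H.X) (P.dim H.n) (P.pol W H.ξ) (J P)
  jprod : ∀ (P Q : Prd m) (y : W.coh (P.obj H.X)) (x : W.coh (Q.obj H.X)),
    J (.prod P Q) (W.ext y x) = W.ext (J P y) (J Q x)
  jmul : ∀ P (x y : W.coh (P.obj H.X)), J P (x * y) = J P x * J P y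
  one : ∀ P, C P 1 = 1
  mul : ∀ P (x y : W.coh (P.obj H.X)), C P (x * y) = C P x * C P y
  gr : ∀ P i (x : W.coh (P.obj H.X)), x ∈ W.gr (P.obj H.X) i → C P x ∈ W.gr (P.obj H.X) i
  tr : ∀ P (x : W.coh (P.obj H.X)), W.tr (P.obj H.X) (C P x) = W.tr (P.obj H.X) x
  prod : ∀ (P Q : Prd m) (y : W.coh (P.obj H.X)) (x : W.coh (Q.obj H.X)),
    C (.prod P Q) (W.ext y x) = W.ext (C P y) (C Q x)
  on1 : ∀ (a : Fin m) (v : W.coh (H.X a)), v ∈ W.gr (H.X a) 1 →
    H.tc (.leaf a) (C (.leaf a) v) = gT c (H.tc (.leaf a) v)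
  alg : ∀ P : Prd m, ∀ z ∈ tot W (P.obj H.X), J P z = C P z
  sq : ∀ P : Prd m, ∀ z ∈ tot W (P.obj H.X), C P (C P z) = z

theorem exists_tw (hAb : ∀ a, AbelianType W (H.X a) (H.n a))
    (hpd : ∀ a, PositiveDivisor W (H.X a) (H.n a) (H.ξ a)) {g c : Matrix H.I H.I ℂ}
    (hg : IsG H.D g) (hc : IsG H.D c)
    (hfix : ∀ (L : ℕ) (u : Ten H.I L), u ∈ H.At L → (∀ w, ¬ D1 H w → u w = 0) →
      GJ.JT H.D g u = gT c u)
    (hsq : ∀ (L : ℕ) (u : Ten H.I L), u ∈ H.At L → (∀ w, ¬ D1 H w → u w = 0) →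
      gT c (gT c u) = u) : ∃ J C, Tw H c J C := by
  have ge := ge H
  have a1 := alg1
  have a2 := alg2
  have hext : ∀ a, ExtFacts W (H.X a) := fun a => by
    obtain ⟨q, hq, hqt⟩ := (hpd a).2
    have hqt' : W.tr (H.X a) (H.ξ a ^ H.n a) = (q : ℂ) := hqt
    have hq0 : (q : ℂ) ≠ 0 := by exact_mod_cast hq.ne'
    exact Ext1.extFacts H.hW (H.mem a) (hAb a) ⟨_, by rw [hqt']; exact hq0⟩
  -- the real structures
  choose Jl hJl using fun a => JaT.exists_leaf H alg1 hg ge staB a (hext a)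
  have hl : ∀ a, IsRS W (H.X a) (H.n a) (H.ξ a) (H.Lam a) (Jl a) := fun a =>
    JaT.leaf_rs H alg1 hg ge staB AV48.hr a (hAb a) (hext a) (hpd a) (hJl a)
  have rs := fun P => (JaT.JR H Jl hl mainRsp P).2
  have hprod := JaT.JR_prod H Jl hl mainRsp
  have hmul0 : ∀ (a : Fin m) (x y : W.coh (H.X a)), (JaT.JR H Jl hl mainRsp (.leaf a)).1 (x * y)
      = (JaT.JR H Jl hl mainRsp (.leaf a)).1 x * (JaT.JR H Jl hl mainRsp (.leaf a)).1 y :=
    fun a => (hJl a).mul
  have hon1 : ∀ (a : Fin m), ∀ v ∈ W.gr (H.X a) 1, (JaT.JR H Jl hl mainRsp (.leaf a)).1 v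
      = GJ.J H alg1 g (.leaf a) v := fun a => (hJl a).on1
  obtain ⟨J, hJ⟩ : ∃ J : ∀ P : Prd m, W.coh (P.obj H.X) →ₛₗ[starRingEnd ℂ] W.coh (P.obj H.X),
      ∀ P, (JaT.JR H Jl hl mainRsp P).1 = J P := ⟨fun P => (JaT.JR H Jl hl mainRsp P).1,
        fun _ => rfl⟩
  simp only [hJ] at rs hprod hmul0 hon1
  have hmul := mul_all H rs hprod hmul0
  have hs : ∀ P, Function.Surjective (J P) := fun P => Jl85.surj_of_rs H (rs P)
  have hinj : ∀ P (x : W.coh (P.obj H.X)), J P x = 0 → x = 0 := by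
    intro P x hx
    by_contra h0
    obtain ⟨r, hr, h⟩ := (rs P).pos x h0
    rw [hx] at h
    have h1 : psi W (P.obj H.X) (P.pol W H.ξ) (H.LamP P) (rs P).slm.internal x 0 = 0 := by
      rw [psi, map_zero, mul_zero, map_zero]
    rw [h1] at h
    exact hr.ne' (by exact_mod_cast h.symm)
  have hinj' : ∀ P (x y : W.coh (P.obj H.X)), J P x = J P y → x = y := by
    intro P x y hxy
    exact sub_eq_zero.1 (hinj P _ (by rw [map_sub, hxy, sub_self]))
  have hnd : ∀ (P : Prd m) (v : W.coh (P.obj H.X)), (∀ y, H.psiP P y v = 0) → v = 0 := by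
    intro P v hv
    obtain ⟨y, rfl⟩ := hs P v
    by_cases h0 : y = 0
    · rw [h0, map_zero]
    · obtain ⟨r, hr, h⟩ := (rs P).pos y h0
      have h1 : H.psiP P y (J P y) = (r : ℂ) := h
      rw [hv y] at h1
      exact absurd (by exact_mod_cast h1.symm) hr.ne'
  -- the families for `c` and its inverse
  have hci := (a1.G_inv H.D c hc)
  obtain ⟨K₁, S₁⟩ := exists_K H a1 hg hci.1 ge hAb hpd hext
  obtain ⟨K₂, S₂⟩ := exists_K H a1 hg hc ge hAb hpd hext
  have fix₁ : ∀ (P : Prd m) (z : W.coh (P.obj H.X)), z ∈ tot W (P.obj H.X) → K₁ P z = z :=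
    fun P z hz => fix_all H a1 a2 hg hci.1 ge S₁ (fun L u hu hu1 => by
      rw [TT, hfix L u hu hu1, ← a1.gT_mul, hci.2.2, a1.gT_one]) hAb hnd P hz
  have fix₂ : ∀ (P : Prd m) (z : W.coh (P.obj H.X)), z ∈ tot W (P.obj H.X) → K₂ P z = z :=
    fun P z hz => fix_all H a1 a2 hg hc ge S₂ (fun L u hu hu1 => by
      rw [TT, hfix L u hu hu1, hsq L u hu hu1]) hAb hnd P hz
  -- the inverse of `J`
  choose R hR using hs
  have hRJ : ∀ P x, R P (J P x) = x := fun P x => hinj' P _ _ (hR P (J P x))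
  let C : ∀ P : Prd m, W.coh (P.obj H.X) →ₗ[ℂ] W.coh (P.obj H.X) := fun P =>
    { toFun := fun x => K₂ P (R P x)
      map_add' := fun x y => by
        have e : R P (x + y) = R P x + R P y := hinj' P _ _ (by rw [map_add, hR, hR, hR])
        rw [e, map_add]
      map_smul' := fun t x => by
        have e : R P (t • x) = starRingEnd ℂ t • R P x := hinj' P _ _ (by
          rw [LinearMap.map_smulₛₗ, hR, hR, Complex.conj_conj])
        rw [e, LinearMap.map_smulₛₗ, Complex.conj_conj, RingHom.id_apply] }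
  have hC : ∀ P x, C P (J P x) = K₂ P x := fun P x => by
    change K₂ P (R P (J P x)) = K₂ P x
    rw [hRJ]
  have hJ1 : ∀ P, J P 1 = 1 := fun P => (rs P).one
  have hJgr : ∀ (P : Prd m) (i : ℕ), ∀ v ∈ W.gr (P.obj H.X) i, ∃ y ∈ W.gr (P.obj H.X) i, J P y = v := fun P i =>
    surj_gr H.hW (H.memP P) i (J P) (fun x hx => (rs P).gr i x hx) (fun x _ hx0 => hinj P x hx0)
  have hone : ∀ P, C P 1 = 1 := fun P => by
    have := hC P 1
    rwa [hJ1, S₂.js.one] at this
  have hCmul : ∀ P (x y : W.coh (P.obj H.X)), C P (x * y) = C P x * C P y := by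
    intro P x y
    rw [← hR P x, ← hR P y, ← hmul, hC, hC, hC, S₂.mul]
  have hCgr : ∀ P i (x : W.coh (P.obj H.X)), x ∈ W.gr (P.obj H.X) i →
      C P x ∈ W.gr (P.obj H.X) i := by
    intro P i x hx
    obtain ⟨y, hy, rfl⟩ := hJgr P i x hx
    rw [hC]
    exact S₂.js.gr P i y hy
  have hCprod : ∀ (P Q : Prd m) (y : W.coh (P.obj H.X)) (x : W.coh (Q.obj H.X)),
      C (.prod P Q) (W.pull (fst (P.obj H.X) (Q.obj H.X)) y
        * W.pull (snd (P.obj H.X) (Q.obj H.X)) x)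
      = W.pull (fst (P.obj H.X) (Q.obj H.X)) (C P y)
        * W.pull (snd (P.obj H.X) (Q.obj H.X)) (C Q x) := by
    intro P Q y x
    have h1 := hC (.prod P Q) (W.pull (fst (P.obj H.X) (Q.obj H.X)) (R P y)
      * W.pull (snd (P.obj H.X) (Q.obj H.X)) (R Q x))
    rw [hprod, S₂.js.prod, hR, hR] at h1
    exact h1
  have hCon : ∀ (a : Fin m) (v : W.coh (H.X a)), v ∈ W.gr (H.X a) 1 →
      H.tc (.leaf a) (C (.leaf a) v) = gT c (H.tc (.leaf a) v) := by
    intro a v hv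
    obtain ⟨y, hy, hyv⟩ := hJgr (.leaf a) 1 v hv
    have e1 : C (.leaf a) v = K₂ (.leaf a) y := by rw [← hyv, hC]
    have e2 : K₂ (.leaf a) y = jc H a1 g c (.leaf a) y := S₂.on1 a y hy
    have e3 : J (.leaf a) y = GJ.J H alg1 g (.leaf a) y := hon1 a y hy
    rw [e1, e2, tc_jc H a1 hg hc ge, ← hyv, e3, GJ.tc_J H alg1 hg ge]
    rfl
  -- `C ∘ K₁ = J`
  let B : ∀ P : Prd m, W.coh (P.obj H.X) →ₛₗ[starRingEnd ℂ] W.coh (P.obj H.X) := fun P =>
    { toFun := fun x => C P (K₁ P x)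
      map_add' := fun x y => by rw [map_add, map_add]
      map_smul' := fun t x => by rw [LinearMap.map_smulₛₗ, map_smul] }
  have hB : ∀ P x, B P x = J P x := by
    intro P
    induction P with
    | leaf a =>
      refine ext_leaf (hAb a) (B (.leaf a)) (J (.leaf a)) ?_ (hJ1 (.leaf a)) ?_
        (hmul (.leaf a)) ?_
      · have e := congrArg (C (.leaf a)) (S₁.js.one (.leaf a))
        exact e.trans (hone (.leaf a))
      · intro x y
        have e := congrArg (C (.leaf a)) (S₁.mul (.leaf a) x y)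
        exact e.trans (hCmul (.leaf a) (K₁ (.leaf a) x) (K₁ (.leaf a) y))
      · intro v hv
        refine ge.inj (.leaf a) ?_
        have e1 : K₁ (.leaf a) v = jc H a1 g c⁻¹ (.leaf a) v := S₁.on1 a v hv
        have e2 : K₁ (.leaf a) v ∈ W.gr (H.X a) 1 := S₁.js.gr (.leaf a) 1 v hv
        have e3 : J (.leaf a) v = GJ.J H alg1 g (.leaf a) v := hon1 a v hv
        have e4 := hCon a (K₁ (.leaf a) v) e2
        have e5 := tc_jc H a1 hg hci.1 ge (.leaf a) v
        have e6 : gT c (H.tc (.leaf a) (K₁ (.leaf a) v)) = GJ.JT H.D g (H.tc (.leaf a) v) := by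
          rw [e1]
          refine (congrArg (gT c) e5).trans ?_
          rw [TT, ← a1.gT_mul, hci.2.1, a1.gT_one]
        refine (e4.trans e6).trans ?_
        exact ((congrArg (H.tc (.leaf a)) e3).trans
          (GJ.tc_J H alg1 hg ge (.leaf a) v)).symm
    | prod P Q hP hQ =>
      intro x
      refine ext_semi H.hW (H.memP P) (H.memP Q) (B (.prod P Q)) (J (.prod P Q)) (fun y x => ?_) x
      have e1 := hprod P Q y x
      have e2 := congrArg (C (.prod P Q)) (S₁.js.prod P Q y x)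
      have e3 := hCprod P Q (K₁ P y) (K₁ Q x)
      have e4 : C P (K₁ P y) = J P y := hP y
      have e5 : C Q (K₁ Q x) = J Q x := hQ x
      rw [e4, e5] at e3
      exact (e2.trans e3).trans e1.symm
  have halg : ∀ P : Prd m, ∀ z ∈ tot W (P.obj H.X), J P z = C P z := by
    intro P z hz
    rw [← hB P z]
    change C P (K₁ P z) = C P z
    rw [fix₁ P z hz]
  refine ⟨J, C, rs, fun P => hrStr_of_rs H.hW (H.memP P) (H.lamP P).2 (H.lamP P).1 (rs P)
    (hmul P), hprod, hmul, hone, hCmul, hCgr, ?_, hCprod, hCon, halg, ?_⟩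
  · intro P x
    rw [← hR P x, hC]
    have h1 := (rs P).tr (R P x) 1
    have h2 := S₂.js.tr P (R P x) 1
    rw [hJ1, mul_one, mul_one] at h1
    rw [S₂.js.one, mul_one, mul_one] at h2
    rw [h1, h2]
  · intro P z hz
    rw [← halg P z hz, hC, fix₂ P z hz]

/-! ### Positivity -/

/-- the real structures for all polarisations -/
theorem pol_rs {J : ∀ P : Prd m, W.coh (P.obj H.X) →ₛₗ[starRingEnd ℂ] W.coh (P.obj H.X)}
    (rs : ∀ P, IsRS W (P.obj H.X) (P.dim H.n) (P.pol W H.ξ) (H.LamP P) (J P))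
    (hprod : ∀ (P Q : Prd m) (y : W.coh (P.obj H.X)) (x : W.coh (Q.obj H.X)),
      J (.prod P Q) (W.ext y x) = W.ext (J P y) (J Q x)) {P : Prd m} {η : W.coh (P.obj H.X)}
    (hη : IsPol W H.ξ P η) :
    ∃ L : Module.End ℂ (W.coh (P.obj H.X)), IsRS W (P.obj H.X) (P.dim H.n) η L (J P) := by
  induction hη with
  | leaf a c hc =>
    have h1 := rsc staB H.hW (H.memP (.leaf a)) ((c : ℚ) : ℝ) (by exact_mod_cast hc)
      (rs (.leaf a))
    have e1 : ((((c : ℚ) : ℝ)) : ℂ) = ((c : ℚ) : ℂ) := by push_cast; rfl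
    rw [e1] at h1
    exact ⟨_, h1⟩
  | prod P Q η θ hη hθ h h' =>
    obtain ⟨L, hL⟩ := h
    obtain ⟨L', hL'⟩ := h'
    obtain ⟨j, hj, hjp⟩ := mainRsp H.hW (H.memP P) (H.memP Q)
      (H.hW.alg_gr (H.memP P) (j := 1) (GQ.pol_alg H hη))
      (H.hW.alg_gr (H.memP Q) (j := 1) (GQ.pol_alg H hθ)) hL hL'
    have e : j = J (.prod P Q) := by
      refine GQ.ext_anti H.hW (H.memP P) (H.memP Q) _ _ fun y x => ?_
      rw [hjp]
      exact (hprod P Q y x).symm
    subst e
    exact ⟨_, hj⟩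

/-- positivity for one real structure -/
theorem pos_rs (hW : IsWeilCohomology W 𝒱) {X : Sch k} {n : ℕ} (hX : 𝒱.mem X n) {η : W.coh X}
    (hη : ∀ (r : ℕ) (x : W.coh X), η ^ r * x = x * η ^ r)
    {L : Module.End ℂ (W.coh X)} {J : W.coh X →ₛₗ[starRingEnd ℂ] W.coh X}
    (R : IsRS W X n η L J) {i : ℕ} (hi : i ≤ n) {x : W.coh X} (hx : x ∈ W.gr X i)
    (hpr : η ^ (n - i + 1) * x = 0) (hx0 : x ≠ 0) :
    ∃ r : ℝ, 0 < r ∧ PP.sgn i * W.tr X (η ^ (n - i) * (x * J x)) = (r : ℂ) := by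
  have hpr' : (Lop W X η ^ (n - i + 1)) x = 0 := by
    rw [PSI.Lop_pow hW hX]
    exact hpr
  have hΛx : L (J x) = 0 := by
    rw [← R.map_Lam, (sl2 R.slm).2.2.2.2.2.1 i x hi hx hpr', map_zero]
  obtain ⟨q, hq, hst⟩ := HrPsi.star_str R.slm hi (R.gr i x hx) hΛx 0 (Nat.zero_le _)
  obtain ⟨r, hr, hpos⟩ := R.pos x hx0
  have e1 : psi W X η L R.slm.internal x (J x)
      = (q : ℂ) * (PP.sgn i * W.tr X (η ^ (n - i) * (x * J x))) := by
    rw [pow_zero, Module.End.one_apply, Nat.sub_zero, PSI.Lop_pow hW hX] at hst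
    rw [psi, hst, mul_smul_comm, map_smul, smul_eq_mul, ← mul_assoc x, ← hη, mul_assoc (η ^ _)]
    ring
  have hq0 : (q : ℂ) ≠ 0 := by exact_mod_cast hq.ne'
  refine ⟨r / (q : ℝ), div_pos hr (by exact_mod_cast hq), ?_⟩
  have e2 : psi W X η L R.slm.internal x (J x) = (r : ℂ) := hpos
  rw [e1] at e2
  rw [eq_comm, Complex.ofReal_div, ← e2]
  push_cast
  field_simp

namespace Tw

variable {H} {c : Matrix H.I H.I ℂ}
  {J : ∀ P : Prd m, W.coh (P.obj H.X) →ₛₗ[starRingEnd ℂ] W.coh (P.obj H.X)}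
  {C : ∀ P : Prd m, W.coh (P.obj H.X) →ₗ[ℂ] W.coh (P.obj H.X)} (T : Tw H c J C)

include T

/-- `J = C` on the real span of the algebraic classes -/
theorem real_span (P : Prd m) {x : W.coh (P.obj H.X)}
    (hx : x ∈ Submodule.span ℝ {z : W.coh (P.obj H.X) | z ∈ tot W (P.obj H.X)}) :
    J P x = C P x := by
  induction hx using Submodule.span_induction with
  | mem z hz => exact T.alg P z hz
  | zero => rw [map_zero, map_zero]
  | add a b _ _ ha hb => rw [map_add, map_add, ha, hb]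
  | smul t a _ ha =>
    have e : t • a = (t : ℂ) • a := (Complex.coe_smul t a).symm
    rw [e, LinearMap.map_smulₛₗ, Complex.conj_ofReal, ha, map_smul]

/-- **Positivity**: the form twisted by `C` -/
theorem pos (P : Prd m) (η : W.coh (P.obj H.X)) (hη : IsPol W H.ξ P η) (j : ℕ)
    (hj : 2 * j ≤ P.dim H.n) (x : W.coh (P.obj H.X))
    (hx : x ∈ Submodule.span ℝ {z | W.IsAlg (P.obj H.X) j z})
    (hx1 : W.cup (η ^ (P.dim H.n - 2 * j + 1)) x = 0) (hx0 : x ≠ 0) :
    ∃ r : ℝ, 0 < r ∧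
      (-1) ^ j * W.Tr (W.cup (η ^ (P.dim H.n - 2 * j)) (W.cup x (C P x))) = (r : ℂ) := by
  obtain ⟨L, hL⟩ := pol_rs H T.rs T.jprod hη
  have hηa := GQ.pol_alg H hη
  have hcomm : ∀ (r : ℕ) (x : W.coh (P.obj H.X)), η ^ r * x = x * η ^ r := by
    intro r x
    induction r with
    | zero => simp
    | succ r ih =>
      rw [pow_succ, mul_assoc, H.hW.alg_comm (H.memP P) hηa x, ← mul_assoc, ih, mul_assoc]
  have hxg : x ∈ W.gr (P.obj H.X) (2 * j) := by
    clear hx0 hx1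
    induction hx using Submodule.span_induction with
    | mem z hz => exact H.hW.alg_gr (H.memP P) hz
    | zero => exact zero_mem _
    | add a b _ _ ha hb => exact add_mem ha hb
    | smul t a _ ha =>
      have e : t • a = (t : ℂ) • a := (Complex.coe_smul t a).symm
      rw [e]
      exact Submodule.smul_mem _ _ ha
  have hJx : J P x = C P x := T.real_span P
    (Submodule.span_mono (fun z hz => alg_le_tot H.hW _ j hz) hx)
  obtain ⟨r, hr, h⟩ := pos_rs H.hW (H.memP P) hcomm hL hj hxg hx1 hx0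
  refine ⟨r, hr, ?_⟩
  rw [hJx, StaB.sgn_even] at h
  exact h

end Tw

end EndC

end Pool.Agent.Lib.MP_361a6f_ag.FL
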