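import Pool.Agent.Lib.MP_361a6f_ag.FL.E.EndC
import Pool.Agent.Lib.MP_361a6f_ag.FL.E.Pos

/-!
# Theorem E, general form, the end: from the letter `(0, 1)` to the host
-/

open CategoryTheory AlgebraicGeometry MonoidalCategory CartesianMonoidalCategory

universe u v w

set_option autoImplicit false
set_option linter.unusedSectionVars false

namespace Pool.Agent.Lib.MP_361a6f_ag.FL

open Pool.Agent.Lib.MP_361a6f_ag.H3 Pool.Agent.Lib.MP_361a6f_ag.SQ
  Pool.Agent.Lib.MP_361a6f_ag.PP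

namespace EndC

open EndE

/-! ### Extension of matrices -/

section mex

variable {I Λ : Type} [Fintype I] [DecidableEq I] [DecidableEq Λ] (D : Dat I Λ) (α : Λ)

/-- extension of a matrix over the letter `α` by the identity -/
def mex (y : Matrix (E.Sub D α) (E.Sub D α) ℂ) : Matrix I I ℂ := fun i j =>
  if h : D.typ i = α ∧ D.typ j = α then y ⟨i, h.1⟩ ⟨j, h.2⟩ else if i = j then 1 else 0

variable {D α} (y : Matrix (E.Sub D α) (E.Sub D α) ℂ)

theorem mex_on (i j : E.Sub D α) : mex D α y i j = y i j := dif_pos ⟨i.2, j.2⟩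

theorem mex_right {i j : I} (hj : D.typ j ≠ α) : mex D α y i j = if i = j then 1 else 0 :=
  dif_neg fun h => hj h.2

theorem mex_block (i j : I) (h : D.typ i ≠ D.typ j) : mex D α y i j = 0 := by
  unfold mex
  rw [dif_neg fun hh => h (hh.1.trans hh.2.symm), if_neg fun e => h (congrArg D.typ e)]

theorem blk_mex : (E.blk (mex D α y) : Matrix (E.Sub D α) (E.Sub D α) ℂ) = y := by
  ext i j
  exact mex_on y i j

theorem isG_mex (hy : IsG (E.subD D α) y) : IsG D (mex D α y) := by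
  refine ⟨mex_block y, ?_⟩
  have hb := mex_block (D := D) (α := α) y
  have h1 : ∀ i j, D.typ i ≠ D.typ j → (Psi D * mex D α y) i j = 0 := by
    intro i j h
    rw [Matrix.mul_apply]
    refine Finset.sum_eq_zero fun k _ => ?_
    by_cases hk : D.typ i = D.typ k
    · rw [hb k j fun e => h (hk.trans e), mul_zero]
    · rw [E.psi_block i k hk, zero_mul]
  have h2 : ∀ i j, D.typ i ≠ D.typ j →
      ((mex D α y).transpose * (Psi D * mex D α y)) i j = 0 := by
    intro i j h
    rw [Matrix.mul_apply]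
    refine Finset.sum_eq_zero fun k _ => ?_
    by_cases hk : D.typ i = D.typ k
    · rw [h1 k j fun e => h (hk.trans e), mul_zero]
    · rw [Matrix.transpose_apply, hb k i fun e => hk e.symm, zero_mul]
  rw [Matrix.mul_assoc]
  ext i j
  by_cases hij : D.typ i = D.typ j
  · by_cases hi : D.typ i = α
    · have h3 : (E.blk ((mex D α y).transpose * (Psi D * mex D α y)) :
          Matrix (E.Sub D α) (E.Sub D α) ℂ) = E.blk (Psi D) := by
        rw [E.blk_mul h1, E.blk_mul hb, E.blk_psi, ← Matrix.mul_assoc]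
        have h4 : (E.blk (mex D α y).transpose : Matrix (E.Sub D α) (E.Sub D α) ℂ)
            = y.transpose := by
          ext a b
          exact mex_on y b a
        rw [h4, blk_mex]
        exact hy.2
      exact congrFun (congrFun h3 ⟨i, hi⟩) ⟨j, hij.symm.trans hi⟩
    · have hj : D.typ j ≠ α := fun h => hi (hij.trans h)
      rw [Matrix.mul_apply, Finset.sum_eq_single i]
      · rw [Matrix.transpose_apply, mex_right y hi, if_pos rfl, one_mul, Matrix.mul_apply,
          Finset.sum_eq_single j]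
        · rw [mex_right y hj, if_pos rfl, mul_one]
        · intro k _ hk
          rw [mex_right y hj, if_neg hk, mul_zero]
        · intro h
          exact absurd (Finset.mem_univ _) h
      · intro k _ hk
        rw [Matrix.transpose_apply, mex_right y hi, if_neg hk, zero_mul]
      · intro h
        exact absurd (Finset.mem_univ _) h
  · rw [h2 i j hij, E.psi_block i j hij]

theorem blk_inv (a1 : Alg1) (hy : IsG (E.subD D α) y) :
    (E.blk (mex D α y)⁻¹ : Matrix (E.Sub D α) (E.Sub D α) ℂ) = y⁻¹ := by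
  have h := a1.G_inv D _ (isG_mex y hy)
  symm
  refine Matrix.inv_eq_right_inv ?_
  have h1 := congrArg (fun M : Matrix I I ℂ => (E.blk M : Matrix (E.Sub D α) (E.Sub D α) ℂ)) h.2.1
  change (E.blk (mex D α y * (mex D α y)⁻¹) : Matrix (E.Sub D α) (E.Sub D α) ℂ) = E.blk 1 at h1
  rw [E.blk_mul h.1.1, blk_mex] at h1
  rw [h1]
  ext i j
  unfold E.blk
  rw [Matrix.submatrix_apply, Matrix.one_apply, Matrix.one_apply]
  by_cases hij : i = j
  · rw [if_pos hij, if_pos (congrArg Subtype.val hij)]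
  · rw [if_neg hij, if_neg fun e => hij (Subtype.ext e)]

theorem JT_ext (a1 : Alg1) (hy : IsG (E.subD D α) y) {L : ℕ} (u : Ten (E.Sub D α) L) :
    GJ.JT D (mex D α y) (E.ext0 D α u)
      = E.ext0 D α (gT y (jT (E.subD D α) (gT y⁻¹ u))) := by
  have h := a1.G_inv D _ (isG_mex y hy)
  rw [GJ.JT, E.gT_ext h.1.1, blk_inv y a1 hy, E.jT_ext, E.gT_ext (mex_block y), blk_mex]

theorem gT_mex {L : ℕ} (u : Ten (E.Sub D α) L) :
    gT (mex D α y) (E.ext0 D α u) = E.ext0 D α (gT y u) := by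
  rw [E.gT_ext (mex_block y), blk_mex]

end mex

/-! ### The host -/

variable {k : Type u} [Field k] {W : CohomologyData.{u, 0, w} k ℂ} {𝒱 : VarietyClass k}
  (H : Host W 𝒱 1)

/-- **The end of the general law for one factor**: `x` and `C` in the group of the letter
`(0, 1)` with `x J₀ x⁻¹ u = C u` and `C² u = u` for the algebraic tensors `u`. -/
theorem exists_tw1 (hAb : ∀ a, AbelianType W (H.X a) (H.n a))
    (hpd : ∀ a, PositiveDivisor W (H.X a) (H.n a) (H.ξ a))
    {x C : Matrix (E.Sub H.D (0, 1)) (E.Sub H.D (0, 1)) ℂ}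
    (hx : IsG (E.subD H.D (0, 1)) x) (hC : IsG (E.subD H.D (0, 1)) C)
    (heq : ∀ (L : ℕ) (u : Ten (E.Sub H.D (0, 1)) L),
      E.atS H.D (0, 1) (fun L u => u ∈ H.At L) L u →
      gT x (jT (E.subD H.D (0, 1)) (gT x⁻¹ u)) = gT C u)
    (hsq : ∀ (L : ℕ) (u : Ten (E.Sub H.D (0, 1)) L),
      E.atS H.D (0, 1) (fun L u => u ∈ H.At L) L u → gT C (gT C u) = u) :
    ∃ J Cf, Tw H (mex H.D (0, 1) C) J Cf := by
  have key : ∀ (L : ℕ) (u : Ten H.I L), u ∈ H.At L → (∀ w, ¬ D1 H w → u w = 0) →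
      ∃ u' : Ten (E.Sub H.D (0, 1)) L, u = E.ext0 H.D (0, 1) u' ∧
        E.atS H.D (0, 1) (fun L u => u ∈ H.At L) L u' := by
    intro L u hu hu1
    have e : u = E.ext0 H.D (0, 1) (fun w => u (E.up w)) :=
      E.eq_ext0 (fun _ => rfl) fun w hw => hu1 w fun hh => hw ((on_iff H w).2 hh)
    refine ⟨_, e, ?_⟩
    change E.ext0 H.D (0, 1) (fun w => u (E.up w)) ∈ H.At L
    rw [← e]
    exact hu
  refine exists_tw H hAb hpd (isG_mex x hx) (isG_mex C hC) (fun L u hu hu1 => ?_)
    fun L u hu hu1 => ?_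
  · obtain ⟨u', rfl, h⟩ := key L u hu hu1
    rw [JT_ext x alg1 hx, heq L u' h, gT_mex]
  · obtain ⟨u', rfl, h⟩ := key L u hu hu1
    rw [gT_mex, gT_mex, hsq L u' h]

/-- the matrix of `C` over the letter `(0, 1)` -/
theorem Tw.mat {C : Matrix (E.Sub H.D (0, 1)) (E.Sub H.D (0, 1)) ℂ}
    {J : ∀ P : Prd 1, W.coh (P.obj H.X) →ₛₗ[starRingEnd ℂ] W.coh (P.obj H.X)}
    {Cf : ∀ P : Prd 1, W.coh (P.obj H.X) →ₗ[ℂ] W.coh (P.obj H.X)}
    (T : Tw H (mex H.D (0, 1) C) J Cf) (i j : E.Sub H.D (0, 1)) :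
    H.tc (.leaf 0) (Cf (.leaf 0) (H.e 0 (j : H.I))) (fun _ => (i : H.I)) = C i j := by
  have h1 : H.e 0 (j : H.I) ∈ W.gr (H.X 0) 1 := by
    have h := H.e_gr 0 (j : H.I)
    rwa [j.2] at h
  have h2 := T.on1 0 (H.e 0 (j : H.I)) h1
  rw [h2]
  have h3 : H.tc (.leaf 0) (H.e 0 (j : H.I)) = Pi.single (fun _ => (j : H.I)) 1 :=
    JaT.tc_e H (ge H) 0 (j : H.I) (by rw [j.2])
  rw [h3]
  unfold gT
  rw [Finset.sum_eq_single (fun _ => (j : H.I))]
  · rw [Pi.single_eq_same, mul_one]
    refine (Fin.prod_univ_one _).trans ?_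
    exact mex_on C i j
  · intro w _ hw
    rw [Pi.single_eq_of_ne hw, mul_zero]
  · intro h
    exact absurd (Finset.mem_univ _) h

end EndC

end Pool.Agent.Lib.MP_361a6f_ag.FL
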