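import Pool.Agent.Lib.MP_361a6f_ag.FL.E.End
import Pool.Agent.Lib.MP_361a6f_ag.FL.B.HrPsi

/-!
# Theorem E, the end: Hodge-Riemann structures

A multiplicative real structure is a Hodge-Riemann structure; so, if `ψ` is positive on the
algebraic tensors whose letters all have degree one, there are Hodge-Riemann structures on the
factors whose tensor products fix all algebraic classes.
-/

open CategoryTheory AlgebraicGeometry MonoidalCategory CartesianMonoidalCategory

universe u v w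

set_option autoImplicit false
set_option linter.unusedSectionVars false

namespace Pool.Agent.Lib.MP_361a6f_ag.FL

open Pool.Agent.Lib.MP_361a6f_ag.H3 Pool.Agent.Lib.MP_361a6f_ag.SQ
  Pool.Agent.Lib.MP_361a6f_ag.PP

namespace EndE

variable {k : Type u} [Field k] {m : ℕ} {W : CohomologyData.{u, 0, w} k ℂ} {𝒱 : VarietyClass k}

/-- a multiplicative real structure is a Hodge-Riemann structure -/
theorem hrStr_of_rs (hW : IsWeilCohomology W 𝒱) {X : Sch k} {g : ℕ} (hX : 𝒱.mem X g)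
    {ξ : W.coh X} (hξ : ξ ∈ W.alg X 1) {Lam : Module.End ℂ (W.coh X)} (D : LamData W X g ξ Lam)
    {J : W.coh X →ₛₗ[starRingEnd ℂ] W.coh X} (R : IsRS W X g ξ Lam J)
    (Jm : ∀ x y, J (x * y) = J x * J y) : HRStr W X g ξ J := by
  have hcomm : ∀ (r : ℕ) (x : W.coh X), ξ ^ r * x = x * ξ ^ r := by
    intro r x
    induction r with
    | zero => simp
    | succ r ih => rw [pow_succ, mul_assoc, hW.alg_comm hX hξ x, ← mul_assoc, ih, mul_assoc]
  have jξ : J ξ = ξ := by
    have h := R.map_L 1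
    rwa [mul_one, R.one, mul_one] at h
  have jtr : ∀ x, W.tr X (J x) = starRingEnd ℂ (W.tr X x) := fun x => by
    have h := R.tr x 1
    rwa [R.one, mul_one, mul_one] at h
  refine ⟨Jm, fun i x hx => R.gr i x hx, jξ, jtr, ?_⟩
  intro i x hi hx hx0
  have hxg : x ∈ W.gr X i := hx.1
  have hpr : (Lop W X ξ ^ (g - i + 1)) x = 0 := by
    rw [PSI.Lop_pow hW hX]
    exact hx.2
  have hΛx : Lam (J x) = 0 := by
    rw [← R.map_Lam, (sl2 D.slm).2.2.2.2.2.1 i x hi hxg hpr, map_zero]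
  obtain ⟨q, hq, hst⟩ := HrPsi.star_str D.slm hi (R.gr i x hxg) hΛx 0 (Nat.zero_le _)
  obtain ⟨r, hr, hpos⟩ := R.pos x hx0
  have e1 : psi W X ξ Lam D.slm.internal x (J x)
      = (q : ℂ) * (PP.sgn i * W.tr X (ξ ^ (g - i) * (x * J x))) := by
    rw [pow_zero, Module.End.one_apply, Nat.sub_zero, PSI.Lop_pow hW hX] at hst
    rw [psi, hst, mul_smul_comm, map_smul, smul_eq_mul, ← mul_assoc x, ← hcomm, mul_assoc (ξ ^ _)]
    ring
  have hq0 : (q : ℂ) ≠ 0 := by exact_mod_cast hq.ne'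
  refine ⟨r / (q : ℝ), div_pos hr (by exact_mod_cast hq), ?_⟩
  show PP.sgn i * W.tr X (ξ ^ (g - i) * (x * J x)) = _
  have e2 : psi W X ξ Lam D.slm.internal x (J x) = (r : ℂ) := hpos
  rw [e1] at e2
  rw [eq_comm, Complex.ofReal_div, ← e2]
  push_cast
  field_simp

/-- **The end of Theorem E**: Hodge-Riemann structures whose tensor products fix all algebraic
classes. -/
theorem endH (H : Host W 𝒱 m) (hAb : ∀ a, AbelianType W (H.X a) (H.n a))
    (hpd : ∀ a, PositiveDivisor W (H.X a) (H.n a) (H.ξ a)) (hpos : Pos1 H) :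
    ∃ J : ∀ P : Prd m, W.coh (P.obj H.X) →ₛₗ[starRingEnd ℂ] W.coh (P.obj H.X),
      (∀ P, HRStr W (P.obj H.X) (P.dim H.n) (P.pol W H.ξ) (J P)) ∧
      (∀ (P Q : Prd m) (y : W.coh (P.obj H.X)) (x : W.coh (Q.obj H.X)),
        J (.prod P Q) (W.ext y x) = W.ext (J P y) (J Q x)) ∧
      ∀ (P : Prd m) (l : ℕ) (z : W.coh (P.obj H.X)), W.IsAlg (P.obj H.X) l z → J P z = z := by
  obtain ⟨J, rs, hprod, hmul, hfix⟩ := endE H hAb hpd hpos
  exact ⟨J, fun P => hrStr_of_rs H.hW (H.memP P) (H.lamP P).2 (H.lamP P).1 (rs P) (hmul P),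
    hprod, fun P l z hz => hfix P z (alg_le_tot H.hW _ l hz)⟩

end EndE

end Pool.Agent.Lib.MP_361a6f_ag.FL
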