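import Pool.Agent.Lib.MP_361a6f_ag.FL.E.EndM
import Pool.Agent.Lib.MP_361a6f_ag.FL.E.EndN
import Pool.Agent.Lib.MP_361a6f_ag.FL.E.StatJ
import Pool.Agent.Lib.MP_361a6f_ag.FL.E.Pos

/-!
# The end in one codimension

Let the factors be of abelian type. If `ψ` is positive on the algebraic tensors of length `2 j`
whose letters all have degree one, then `Q1` holds in codimension `j` for all products and all
polarisations, and numerical equivalence is homological equivalence in codimension `j`, with complex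
coefficients.
-/

open CategoryTheory AlgebraicGeometry MonoidalCategory CartesianMonoidalCategory

universe u v w

set_option autoImplicit false
set_option linter.unusedSectionVars false

namespace Pool.Agent.Lib.MP_361a6f_ag.FL

open Pool.Agent.Lib.MP_361a6f_ag.H3 Pool.Agent.Lib.MP_361a6f_ag.SQ
  Pool.Agent.Lib.MP_361a6f_ag.PP

namespace EndJ

open EndE EndC EndM

variable {k : Type u} [Field k] {m : ℕ} {W : CohomologyData.{u, 0, w} k ℂ} {𝒱 : VarietyClass k}
  (H : Host W 𝒱 m)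

/-- positivity of `ψ` on the algebraic tensors of length `L` whose letters all have degree one -/
def PosL (L : ℕ) : Prop :=
  ∀ u : Ten H.I L, u ∈ H.At L → (∀ w, ¬ D1 H w → u w = 0) → u ≠ 0 → RatPos (psiT H.D u u)

/-- an inner real structure that fixes the algebraic tensors of degree one and length `L` -/
theorem exists_g {L : ℕ} (hpos : PosL H L) : ∃ g : Matrix H.I H.I ℂ, IsG H.D g ∧
    ∀ u : Ten H.I L, u ∈ H.At L → (∀ w, ¬ D1 H w → u w = 0) → GJ.JT H.D g u = u := by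
  have hlet : ∀ (L : ℕ) (α : Fin L → Fin m × ℕ) (u : Ten H.I L), u ∈ H.At L →
      prW H.D α u ∈ H.At L := fun L α u hu => LET.at_letters H α hu
  obtain ⟨g, hg, -, h⟩ := TalB.talAbs mainYb alg1 alg2 (aSys_at (at_ H)) hlet
    (fun L' α => L' = L ∧ ∀ i, (α i).2 = 1)
    (fun L' α hα u hu ho h0 => by
      obtain ⟨rfl, hα⟩ := hα
      exact hpos u hu (fun w hw => ho w fun hh => hw fun i => by
        rw [hh i]; exact hα i) h0)
  refine ⟨g, hg, fun u hu hu1 => ?_⟩
  conv_lhs => rw [← sum_prW H hu1]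
  conv_rhs => rw [← sum_prW H hu1]
  rw [JT_sum H alg1]
  refine Finset.sum_congr rfl fun b _ => ?_
  exact h L (fun i => (b i, 1)) _ ⟨rfl, fun i => rfl⟩ (hlet L _ u hu) fun w hw => if_neg hw

/-- **Real structures that fix all algebraic classes of codimension `j`.** -/
theorem exists_fam (hAb : ∀ a, AbelianType W (H.X a) (H.n a))
    (hpd : ∀ a, PositiveDivisor W (H.X a) (H.n a) (H.ξ a)) (j : ℕ) (hpos : PosL H (2 * j)) :
    ∃ J : ∀ P : Prd m, W.coh (P.obj H.X) →ₛₗ[starRingEnd ℂ] W.coh (P.obj H.X),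
      (∀ P, IsRS W (P.obj H.X) (P.dim H.n) (P.pol W H.ξ) (H.LamP P) (J P)) ∧
      (∀ (P Q : Prd m) (y : W.coh (P.obj H.X)) (x : W.coh (Q.obj H.X)),
        J (.prod P Q) (W.pull (fst (P.obj H.X) (Q.obj H.X)) y
            * W.pull (snd (P.obj H.X) (Q.obj H.X)) x)
          = W.pull (fst (P.obj H.X) (Q.obj H.X)) (J P y)
            * W.pull (snd (P.obj H.X) (Q.obj H.X)) (J Q x)) ∧
      (∀ P (x y : W.coh (P.obj H.X)), J P (x * y) = J P x * J P y) ∧
      ∀ (P : Prd m), ∀ z ∈ W.alg (P.obj H.X) j, J P z = z := by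
  have ge := ge H
  obtain ⟨g, hg, hfix⟩ := exists_g H hpos
  have hext : ∀ a, ExtFacts W (H.X a) := fun a => by
    obtain ⟨q, hq, hqt⟩ := (hpd a).2
    have hqt' : W.tr (H.X a) (H.ξ a ^ H.n a) = (q : ℂ) := hqt
    have hq0 : (q : ℂ) ≠ 0 := by exact_mod_cast hq.ne'
    exact Ext1.extFacts H.hW (H.mem a) (hAb a) ⟨_, by rw [hqt']; exact hq0⟩
  choose Jl hJl using fun a => JaT.exists_leaf H alg1 hg ge staB a (hext a)
  have hl : ∀ a, IsRS W (H.X a) (H.n a) (H.ξ a) (H.Lam a) (Jl a) := fun a =>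
    JaT.leaf_rs H alg1 hg ge staB AV48.hr a (hAb a) (hext a) (hpd a) (hJl a)
  have rs := fun P => (JaT.JR H Jl hl mainRsp P).2
  have hprod := JaT.JR_prod H Jl hl mainRsp
  have hmul : ∀ (a : Fin m) (x y : W.coh (H.X a)), (JaT.JR H Jl hl mainRsp (.leaf a)).1 (x * y)
      = (JaT.JR H Jl hl mainRsp (.leaf a)).1 x * (JaT.JR H Jl hl mainRsp (.leaf a)).1 y :=
    fun a => (hJl a).mul
  have on1 : ∀ (a : Fin m), ∀ v ∈ W.gr (H.X a) 1,
      (JaT.JR H Jl hl mainRsp (.leaf a)).1 v = GJ.J H alg1 g (.leaf a) v := fun a => (hJl a).on1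
  have hmulA := mul_all H rs hprod hmul
  refine ⟨fun P => (JaT.JR H Jl hl mainRsp P).1, rs, hprod, hmulA, ?_⟩
  have hfam : Fam H (starRingEnd ℂ) (fun P => (JaT.JR H Jl hl mainRsp P).1) := by
    refine ⟨fun P => (rs P).one, fun P => (rs P).gr, fun P => Jl85.surj_of_rs H (rs P),
      psi_J H rs, fun P Q f hf => ?_, fun P w hw => ?_⟩
    · exact GM.pull_coord H.hW H.mem (jsys H rs hprod) (fun _ => hmulA) P Q f hf
    · exact J_E1 H alg1 alg2 hg ge (J := fun P => (JaT.JR H Jl hl mainRsp P).1) hprod on1 P hw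
  intro P z hz
  refine hfam.fix_codim H hAb j (fun P hP z hz => ?_) P hz
  have h1 : (JaT.JR H Jl hl mainRsp P).1 (Z1 H P z) = GJ.J H alg1 g P (Z1 H P z) :=
    J_sum H alg1 alg2 hg ge (J := fun P => (JaT.JR H Jl hl mainRsp P).1) hprod on1 P
      fun w hw => cut_off H _ hw
  rw [h1]
  refine ge.inj P ?_
  rw [GJ.tc_J H alg1 hg ge, tc_Z1 H ge]
  have hfix' : ∀ L, L = 2 * j → ∀ u : Ten H.I L, u ∈ H.At L → (∀ w, ¬ D1 H w → u w = 0) →
      GJ.JT H.D g u = u := by
    rintro L rfl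
    exact hfix
  exact hfix' _ hP _ (cut_at H (GP.at_tc H P hz)) fun w hw => cut_off H _ hw

/-- `Q1` in codimension `j`. -/
theorem q1 (hAb : ∀ a, AbelianType W (H.X a) (H.n a))
    (hpd : ∀ a, PositiveDivisor W (H.X a) (H.n a) (H.ξ a)) (j : ℕ) (hpos : PosL H (2 * j))
    (P : Prd m) (η : W.coh (P.obj H.X)) (hη : IsPol W H.ξ P η) :
    EQ.Q1At W (P.obj H.X) (P.dim H.n) η j := by
  intro x hj hx hx1 hx0
  obtain ⟨J, rs, hprod, -, hfix⟩ := exists_fam H hAb hpd j hpos
  have hM := H.memP P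
  have hηa : η ∈ W.alg (P.obj H.X) 1 := GQ.pol_alg H hη
  obtain ⟨L, hL⟩ := pol_rs H rs hprod hη
  obtain ⟨ρ, hρ, h⟩ := (rsq sl2 staB) H.hW hM (H.hW.alg_gr hM (j := 1) hηa) hL j x hj
    (H.hW.alg_gr hM hx) hx1 hx0 (hfix P x hx)
  have h2 : η ^ (P.dim H.n - 2 * j) * (x * x) ∈ W.alg (P.obj H.X) (P.dim H.n) := by
    have h3 := H.hW.mul_alg hM (H.hW.pow_alg hM hηa (P.dim H.n - 2 * j))
      (H.hW.mul_alg hM hx hx)
    rwa [show P.dim H.n - 2 * j + (j + j) = P.dim H.n by omega] at h3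
  obtain ⟨q, hq⟩ := H.hW.tr_alg hM h2
  refine ⟨(-1) ^ j * q, ?_, ?_⟩
  · rw [hq] at h
    have h4 : (((-1) ^ j * q : ℚ) : ℝ) = ρ := by
      have : (((((-1) ^ j * q : ℚ) : ℝ)) : ℂ) = (ρ : ℂ) := by
        rw [← h]
        push_cast
        ring
      exact_mod_cast this
    have h5 : (0 : ℝ) < (((-1) ^ j * q : ℚ) : ℝ) := by rw [h4]; exact hρ
    exact_mod_cast h5
  · show (-1) ^ j * W.tr (P.obj H.X) (η ^ (P.dim H.n - 2 * j) * (x * x)) = _
    rw [hq]
    push_cast
    ring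

/-- Numerical and homological equivalence in codimension `j`. -/
theorem numHom (hAb : ∀ a, AbelianType W (H.X a) (H.n a))
    (hpd : ∀ a, PositiveDivisor W (H.X a) (H.n a) (H.ξ a)) (j : ℕ) (hpos : PosL H (2 * j))
    (P : Prd m) : EQ.NumHomAt W (P.obj H.X) j := by
  intro x hx hnum0
  have hnum : ∀ y ∈ tot W (P.obj H.X), W.tr (P.obj H.X) (x * y) = 0 := by
    intro y hy
    refine tot_induction H.hW (P := fun y => W.tr (P.obj H.X) (x * y) = 0) hy ?_ ?_
    · intro l y hy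
      exact hnum0 l y hy
    · intro y y' h h'
      rw [mul_add, map_add, h, h', add_zero]
  obtain ⟨J, rs, -, -, hfix⟩ := exists_fam H hAb hpd j hpos
  by_contra h0
  obtain ⟨r, hr, h⟩ := (rs P).pos x h0
  obtain ⟨DP, hPalg⟩ := H.lamP P
  have key : ∀ y ∈ Submodule.span ℂ {z : W.coh (P.obj H.X) | W.IsAlg (P.obj H.X) j z},
      H.psiP P x (J P y) = 0 := by
    intro y hy
    induction hy using Submodule.span_induction with
    | mem z hz =>
      rw [hfix P z hz]
      exact hnum _ (AlgOp.apply H.hW (H.memP P) (algOp_star H.hW (H.memP P) hPalg DP)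
        (alg_le_tot H.hW _ j hz))
    | zero =>
      have h1 := psi_smul_right (W := W) (X := P.obj H.X) (ξ := P.pol W H.ξ) (Lam := H.LamP P)
        (H.lamP P).1.slm.internal 0 x 0
      rw [zero_smul, zero_mul] at h1
      rw [map_zero]
      exact h1
    | add a b _ _ ha hb =>
      have h1 := psi_add_right (W := W) (X := P.obj H.X) (ξ := P.pol W H.ξ) (Lam := H.LamP P)
        (H.lamP P).1.slm.internal x (J P a) (J P b)
      rw [map_add]
      refine h1.trans ?_
      change H.psiP P x (J P a) + H.psiP P x (J P b) = 0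
      rw [ha, hb, add_zero]
    | smul c a _ ha =>
      have h1 := psi_smul_right (W := W) (X := P.obj H.X) (ξ := P.pol W H.ξ) (Lam := H.LamP P)
        (H.lamP P).1.slm.internal (starRingEnd ℂ c) x (J P a)
      rw [LinearMap.map_smulₛₗ]
      refine h1.trans ?_
      change starRingEnd ℂ c * H.psiP P x (J P a) = 0
      rw [ha, mul_zero]
  have h2 : H.psiP P x (J P x) = (r : ℂ) := h
  rw [key x hx] at h2
  exact hr.ne' (by exact_mod_cast h2.symm)

/-- positivity over the letter `(0, 1)` in one length -/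
theorem posL_of (H : Host W 𝒱 1) {L : ℕ} (h : ∀ u : Ten (E.Sub H.D (0, 1)) L,
    E.atS H.D (0, 1) (fun L u => u ∈ H.At L) L u → u ≠ 0 →
      ∃ r : ℝ, 0 < r ∧ psiT (E.subD H.D (0, 1)) u u = (r : ℂ)) : PosL H L := by
  intro u hu hu1 hu0
  have e : u = E.ext0 H.D (0, 1) (fun w => u (E.up w)) :=
    E.eq_ext0 (fun _ => rfl) fun w hw => hu1 w fun hh => hw ((on_iff H w).2 hh)
  obtain ⟨r, hr, hp⟩ := h (fun w => u (E.up w)) (by
    change E.ext0 H.D (0, 1) (fun w => u (E.up w)) ∈ H.At L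
    rw [← e]
    exact hu) (by
    intro h0
    apply hu0
    rw [e, h0, map_zero])
  rw [← E.psiT_ext, ← e] at hp
  have S := aSys_at (at_ H)
  obtain ⟨q, hq⟩ := Qps.psi_rat S hu hu
  refine ⟨q, ?_, hq⟩
  rw [hq] at hp
  have h1 : ((q : ℚ) : ℝ) = r := by exact_mod_cast hp
  have h2 : (0 : ℝ) < ((q : ℚ) : ℝ) := by rw [h1]; exact hr
  exact_mod_cast h2

end EndJ

end Pool.Agent.Lib.MP_361a6f_ag.FL
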