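import Pool.Agent.Lib.MP_361a6f_ag.FL.E.StarTr
import Pool.Agent.Lib.MP_361a6f_ag.FL.GeoDefs
import Pool.Agent.Lib.MP_361a6f_ag.FL.GC

/-!
# The host of the reduction
-/

open CategoryTheory AlgebraicGeometry MonoidalCategory CartesianMonoidalCategory

universe u u' w w'

set_option autoImplicit false
set_option linter.unusedSectionVars false

namespace Pool.Agent.Lib.MP_361a6f_ag.FL.E

open Pool.Agent.Lib.MP_361a6f_ag.H3 Pool.Agent.Lib.MP_361a6f_ag.SQ
  Pool.Agent.Lib.MP_361a6f_ag.PP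

/-- The specialisation maps from the powers of `X` to the powers of `X'`. -/
structure Spc {k : Type u} [Field k] (W : CohomologyData.{u, 0, w} k ℂ) {k' : Type u'} [Field k']
    (W' : CohomologyData.{u', 0, w'} k' ℂ) (X : Fin 1 → Sch k) (X' : Sch k')
    (ξ : ∀ a, W.coh (X a)) (ξ' : W'.coh X') where
  s : ∀ P : Prd 1, W.coh (P.obj X) →ₗ[ℂ] W'.coh (P.obj fun _ => X')
  s0 : W.coh (X 0) ≃ₗ[ℂ] W'.coh X'
  leaf : ∀ x : W.coh (X 0), (s (.leaf 0) x : W'.coh X') = s0 x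
  gr : ∀ i, ∀ x ∈ W.gr (X 0) i, s0 x ∈ W'.gr X' i
  mul : ∀ x y, s0 (x * y) = s0 x * s0 y
  tr : ∀ x, W'.tr X' (s0 x) = W.tr (X 0) x
  xi : s0 (ξ 0) = ξ'
  ext : ∀ (P Q : Prd 1) (y : W.coh (P.obj X)) (x : W.coh (Q.obj X)),
    s (.prod P Q) (W.pull (fst (P.obj X) (Q.obj X)) y * W.pull (snd (P.obj X) (Q.obj X)) x) =
      W'.pull (fst (P.obj fun _ => X') (Q.obj fun _ => X')) (s P y) *
        W'.pull (snd (P.obj fun _ => X') (Q.obj fun _ => X')) (s Q x)
  alg : ∀ (P : Prd 1) (l : ℕ), ∀ z ∈ W.alg (P.obj X) l, s P z ∈ W'.alg (P.obj fun _ => X') l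

namespace Spc

variable {k : Type u} [Field k] {W : CohomologyData.{u, 0, w} k ℂ} {k' : Type u'} [Field k']
  {W' : CohomologyData.{u', 0, w'} k' ℂ} {𝒱 : VarietyClass k} {𝒱' : VarietyClass k'}
  {X : Fin 1 → Sch k} {X' : Sch k'} {ξ : ∀ a, W.coh (X a)} {ξ' : W'.coh X'} {n : ℕ}
  (S : Spc W W' X X' ξ ξ') (hW : IsWeilCohomology W 𝒱) (hW' : IsWeilCohomology W' 𝒱')
  (hX : 𝒱.mem (X 0) n) (hX' : 𝒱'.mem X' n)

include hW hW' in
theorem tot' (P : Prd 1) {z : W.coh (P.obj X)} (hz : z ∈ tot W (P.obj X)) :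
    S.s P z ∈ tot W' (P.obj fun _ => X') := by
  refine tot_induction hW (P := fun z => S.s P z ∈ tot W' (P.obj fun _ => X')) hz ?_ ?_
  · intro i z hz
    exact alg_le_tot hW' _ i (S.alg P i z hz)
  · intro a b ha hb
    rw [map_add]
    exact add_mem ha hb

/-- the map on `X × X` -/
def s2 : W.coh (X 0 ⊗ X 0) →ₗ[ℂ] W'.coh (X' ⊗ X') := S.s (.prod (.leaf 0) (.leaf 0))

theorem s2_ext (a b : W.coh (X 0)) :
    S.s2 (W.pull (fst (X 0) (X 0)) a * W.pull (snd (X 0) (X 0)) b) =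
      W'.pull (fst X' X') (S.s0 a) * W'.pull (snd X' X') (S.s0 b) := by
  rw [← S.leaf a, ← S.leaf b]
  exact S.ext (.leaf 0) (.leaf 0) a b

include hW hW' hX hX' in
/-- the operators of algebraic classes -/
theorem cor_s (γ : W.coh (X 0 ⊗ X 0)) (x : W.coh (X 0)) :
    cor W' (S.s2 γ) (S.s0 x) = S.s0 (cor W γ x) := by
  refine prod_induction hW hX hX (P := fun γ =>
    cor W' (S.s2 γ) (S.s0 x) = S.s0 (cor W γ x)) γ ?_ ?_ ?_ ?_
  · intro a b
    rw [S.s2_ext, cor_ext hW hX hX, cor_ext hW' hX' hX', ← S.mul, S.tr, map_smul]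
  · rw [map_zero, cor_zero, cor_zero, LinearMap.zero_apply, LinearMap.zero_apply, map_zero]
  · intro a b ha hb
    rw [map_add, cor_add, cor_add, LinearMap.add_apply, LinearMap.add_apply, map_add, ha, hb]
  · intro c a ha
    rw [map_smul, cor_smul, cor_smul, LinearMap.smul_apply, LinearMap.smul_apply, map_smul, ha]

/-! ### The host -/

theorem lop : Lop W' X' ξ' = StarTr.cj S.s0 (Lop W (X 0) (ξ 0)) := by
  refine LinearMap.ext fun y => ?_
  show ξ' * y = S.s0 (ξ 0 * S.s0.symm y)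
  rw [S.mul, S.xi, LinearEquiv.apply_symm_apply]

include hW hW' hX hX' in
theorem lamData {Lam : Module.End ℂ (W.coh (X 0))} (L : LamData W (X 0) n (ξ 0) Lam) :
    LamData W' X' n ξ' (StarTr.cj S.s0 Lam) where
  slm := by
    rw [S.lop]
    exact StarTr.slm_cj S.s0 L.slm (hW'.internal hX') S.gr
  adj x y := by
    have h := L.adj (S.s0.symm x) (S.s0.symm y)
    show W'.tr X' (S.s0 (Lam (S.s0.symm x)) * y) = W'.tr X' (x * S.s0 (Lam (S.s0.symm y)))
    have hx : S.s0 (S.s0.symm x) = x := LinearEquiv.apply_symm_apply _ _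
    have hy : S.s0 (S.s0.symm y) = y := LinearEquiv.apply_symm_apply _ _
    rw [← S.tr, ← S.tr, S.mul, S.mul, hx, hy] at h
    exact h
  alg := by
    obtain ⟨γ, hγ, h⟩ := L.alg
    refine ⟨S.s2 γ, S.tot' hW hW' (.prod (.leaf 0) (.leaf 0)) hγ, fun y => ?_⟩
    have h1 := S.cor_s hW hW' hX hX' γ (S.s0.symm y)
    rw [LinearEquiv.apply_symm_apply] at h1
    refine Eq.trans ?_ h1.symm
    show S.s0 (Lam (S.s0.symm y)) = S.s0 (cor W γ (S.s0.symm y))
    rw [h]
    rfl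

end Spc

variable {k : Type u} [Field k] {W : CohomologyData.{u, 0, w} k ℂ} {k' : Type u'} [Field k']
  {W' : CohomologyData.{u', 0, w'} k' ℂ} {𝒱 : VarietyClass k} {𝒱' : VarietyClass k'}
  (H : Host W 𝒱 1) {X' : Sch k'} {ξ' : W'.coh X'} (S : Spc W W' H.X X' H.ξ ξ')
  (hW' : IsWeilCohomology W' 𝒱') (hX' : 𝒱'.mem X' (H.n 0))

/-- the form `ψ` on the reduction -/
theorem psi_s {Lam : Module.End ℂ (W.coh (H.X 0))} (L : LamData W (H.X 0) (H.n 0) (H.ξ 0) Lam)
    (h' : DirectSum.IsInternal (W'.gr X')) (x y : W.coh (H.X 0)) :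
    psi W' X' ξ' (StarTr.cj S.s0 Lam) h' (S.s0 x) (S.s0 y) =
      psi W (H.X 0) (H.ξ 0) Lam L.slm.internal x y := by
  rw [psi, psi, S.lop, StarTr.star_cj S.s0 L.slm.internal h' S.gr, ← S.mul, S.tr]

/-- **The host of the reduction.** -/
noncomputable def host2 : Host W' 𝒱' 1 where
  hW := hW'
  X := fun _ => X'
  n := H.n
  mem := fun a => by
    obtain rfl : a = 0 := Subsingleton.elim _ _
    exact hX'
  ξ := fun _ => ξ'
  ξ_alg := fun _ => by
    have h := S.alg (.leaf 0) 1 (H.ξ 0) (H.ξ_alg 0)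
    have h1 : S.s (.leaf 0) (H.ξ 0) = ξ' := (S.leaf _).trans S.xi
    rw [h1] at h
    exact h
  Lam := fun _ => StarTr.cj S.s0 (H.Lam 0)
  lam := fun a => by
    obtain rfl : a = 0 := Subsingleton.elim _ _
    exact S.lamData H.hW hW' (H.mem 0) hX' (H.lam 0)
  I := H.I
  D := H.D
  odd_iff := H.odd_iff
  e := fun _ x => S.s0 (H.e 0 x)
  e_ne := fun a x hx => by
    obtain rfl : a = 0 := Subsingleton.elim _ _
    rw [H.e_ne 0 x hx, map_zero]
  e_gr := fun _ x => S.gr _ _ (H.e_gr 0 x)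
  e_psi := fun a x y hx hy => by
    obtain rfl : a = 0 := Subsingleton.elim _ _
    rw [psi_s H S (H.lam 0)]
    exact H.e_psi 0 x y hx hy
  e_span := fun _ => by
    have h1 : Set.range (fun x => S.s0 (H.e 0 x)) = S.s0 '' Set.range (H.e 0) :=
      Set.range_comp S.s0 (H.e 0)
    have h2 : Submodule.span ℂ (S.s0 '' Set.range (H.e 0)) =
        (Submodule.span ℂ (Set.range (H.e 0))).map S.s0.toLinearMap :=
      Submodule.span_image S.s0.toLinearMap
    rw [h1, h2, H.e_span 0, Submodule.map_top]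
    exact LinearEquiv.range S.s0

/-- the exterior products of the basis vectors -/
theorem E_s : ∀ (P : Prd 1) (w : Fin P.size → H.I),
    S.s P (H.E P w) = (host2 H S hW' hX').E P w
  | .leaf a, w => by
    obtain rfl : a = 0 := Subsingleton.elim _ _
    exact S.leaf _
  | .prod P Q, w => by
    have h := S.ext P Q (H.E P fun i => w (Fin.castAdd Q.size i))
      (H.E Q fun i => w (Fin.natAdd P.size i))
    rw [E_s P, E_s Q] at h
    exact h

/-- **The coordinates on the reduction.** -/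
theorem tc_s (ge : H.GeFacts) (ge' : (host2 H S hW' hX').GeFacts) (P : Prd 1)
    (z : W.coh (P.obj H.X)) : (host2 H S hW' hX').tc P (S.s P z) = H.tc P z := by
  have h1 : S.s P z = ∑ w, H.tc P z w • (host2 H S hW' hX').E P w := by
    conv_lhs => rw [ge.expand P z]
    rw [map_sum]
    refine Finset.sum_congr rfl fun w _ => ?_
    rw [map_smul, E_s H S hW' hX']
    rfl
  rw [h1]
  exact ge'.tc_sum P (H.tc P z) fun w hw => ge.tc_off P z w hw

/-- **The algebraic tensors of `X` are algebraic tensors of the reduction.** -/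
theorem at_le (ge : H.GeFacts) (ge' : (host2 H S hW' hX').GeFacts) (L : ℕ) :
    H.At L ≤ (host2 H S hW' hX').At L := by
  refine (AddSubgroup.closure_le _).2 ?_
  rintro u (⟨h, q, rfl⟩ | ⟨P, h, z, hz, rfl⟩)
  · exact AddSubgroup.subset_closure (Or.inl ⟨h, q, rfl⟩)
  · refine AddSubgroup.subset_closure (Or.inr ⟨P, h, S.s P z, S.tot' H.hW hW' P hz, ?_⟩)
    exact funext fun w => (congrFun (tc_s H S hW' hX' ge ge' P z) (w ∘ Fin.cast h)).symm

end Pool.Agent.Lib.MP_361a6f_ag.FL.E
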