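import Pool.Agent.Lib.MP_361a6f_ag.FL.E.StatE
import Pool.Agent.Lib.MP_361a6f_ag.FL.GeoDefs
import Pool.Agent.Lib.MP_361a6f_ag.FL.E.Host2
import Pool.Agent.Lib.MP_361a6f_ag.PP.Ops

/-!
# Theorem E: the hypotheses for a family with one member

The definitions of `FL.EQ` for a family `X : Fin 1 → Sch k`, as needed for a host `H`
(`X = H.X`), and the passage from `FL.EQ`.
-/

open CategoryTheory AlgebraicGeometry MonoidalCategory CartesianMonoidalCategory

universe u v w u' w'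

set_option autoImplicit false

namespace Pool.Agent.Lib.MP_361a6f_ag.FL.E

open Pool.Agent.Lib.MP_361a6f_ag.H3 Pool.Agent.Lib.MP_361a6f_ag.SQ
  Pool.Agent.Lib.MP_361a6f_ag.PP

variable {k : Type u} [Field k] {k' : Type u'} [Field k']

/-- a symmetry of the cohomology of the products of the members of `X`, which fixes the algebraic
classes -/
structure SymF (W : CohomologyData.{u, 0, w} k ℂ) (X : Fin 1 → Sch k)
    (T : ∀ P : Prd 1, W.coh (P.obj X) →ₗ[ℂ] W.coh (P.obj X)) : Prop where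
  ext : ∀ (P Q : Prd 1) (y : W.coh (P.obj X)) (x : W.coh (Q.obj X)),
    T (.prod P Q) (W.pull (fst (P.obj X) (Q.obj X)) y * W.pull (snd (P.obj X) (Q.obj X)) x)
      = W.pull (fst (P.obj X) (Q.obj X)) (T P y) * W.pull (snd (P.obj X) (Q.obj X)) (T Q x)
  deg : ∀ i (x : W.coh (X 0)), x ∈ W.gr (X 0) i → (T (.leaf 0) x : W.coh (X 0)) ∈ W.gr (X 0) i
  alg : ∀ (P : Prd 1) (l : ℕ) (z : W.coh (P.obj X)), z ∈ W.alg (P.obj X) l → T P z = z

/-- a stable subspace of `H^1` -/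
structure StabF (W : CohomologyData.{u, 0, w} k ℂ) (X : Fin 1 → Sch k) (n : ℕ)
    (U : Submodule ℂ (W.coh (X 0))) : Prop where
  le : U ≤ W.gr (X 0) 1
  act : ∀ z ∈ W.alg (X 0 ⊗ X 0) n, ∀ x ∈ U, cor W z x ∈ U
  fin : {S : Set (W.coh (X 0)) | ∃ T, SymF W X T ∧
    ∀ y, y ∈ S ↔ ∃ x ∈ U, (T (.leaf 0) x : W.coh (X 0)) = y}.Finite

/-- from `FL.EQ.IsSym` and back -/
noncomputable def symLin {W : CohomologyData.{u, 0, w} k ℂ} {X : Sch k}
    {W' : CohomologyData.{u', 0, w'} k' ℂ} {X' : Sch k'}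
    {T : ∀ P : Prd 1, W.coh (EQ.pw X P) → W'.coh (EQ.pw X' P)} (h : EQ.Tensor W X W' X' T)
    (P : Prd 1) : W.coh (P.obj fun _ => X) →ₗ[ℂ] W'.coh (P.obj fun _ => X') where
  toFun := T P
  map_add' := h.add P
  map_smul' := h.scal P

theorem symF_of {W : CohomologyData.{u, 0, w} k ℂ} {X : Sch k}
    {T : ∀ P : Prd 1, W.coh (EQ.pw X P) → W.coh (EQ.pw X P)} (h : EQ.IsSym W X T) :
    SymF W (fun _ => X) (symLin h.tensor) where
  ext := h.tensor.ext
  deg := h.deg
  alg := h.alg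

theorem isSym_of {W : CohomologyData.{u, 0, w} k ℂ} {X : Sch k}
    {T : ∀ P : Prd 1, W.coh (P.obj fun _ => X) →ₗ[ℂ] W.coh (P.obj fun _ => X)}
    (h : SymF W (fun _ => X) T) : EQ.IsSym W X fun P => T P where
  tensor := ⟨fun P x y => map_add (T P) x y, fun P c x => map_smul (T P) c x, h.ext⟩
  deg := h.deg
  alg := h.alg

theorem stable_of {W : CohomologyData.{u, 0, w} k ℂ} {X : Sch k} {n : ℕ}
    {U : Submodule ℂ (W.coh X)} (h : StabF W (fun _ => X) n U) : EQ.Stable W X n U where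
  le := h.le
  act := fun z hz x hx => h.act z hz x hx
  fin := by
    refine h.fin.subset ?_
    rintro S ⟨T, hT, hS⟩
    exact ⟨symLin hT.tensor, symF_of hT, hS⟩

theorem stab_of {W : CohomologyData.{u, 0, w} k ℂ} {X : Sch k} {n : ℕ}
    {U : Submodule ℂ (W.coh X)} (h : EQ.Stable W X n U) : StabF W (fun _ => X) n U where
  le := h.le
  act := fun z hz x hx => h.act z hz x hx
  fin := by
    refine h.fin.subset ?_
    rintro S ⟨T, hT, hS⟩
    exact ⟨fun P => T P, isSym_of hT, hS⟩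

/-- the specialisation as in the row of the second host -/
noncomputable def spcOf {W : CohomologyData.{u, 0, w} k ℂ} {X : Sch k}
    {W' : CohomologyData.{u', 0, w'} k' ℂ} {X' : Sch k'}
    {s : ∀ P : Prd 1, W.coh (EQ.pw X P) → W'.coh (EQ.pw X' P)} (h : EQ.IsSpec W X W' X' s)
    (ξ : W.coh X) : Spc W W' (fun _ => X) X' (fun _ => ξ) (s (.leaf 0) ξ) where
  s := symLin h.tensor
  s0 := LinearEquiv.ofBijective (symLin h.tensor (.leaf 0)) h.bij
  leaf _ := rfl
  gr := h.deg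
  mul := h.cup
  tr := h.tr
  xi := rfl
  ext := h.tensor.ext
  alg := h.alg

end Pool.Agent.Lib.MP_361a6f_ag.FL.E
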