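import Pool.Agent.Lib.MP_361a6f_ag.FL.E.AsmF
import Pool.Agent.Lib.MP_361a6f_ag.FL.E.SymM

/-!
# Theorem E3
-/

open CategoryTheory AlgebraicGeometry MonoidalCategory CartesianMonoidalCategory

universe u v w w'

set_option autoImplicit false

namespace Pool.Agent.Lib.MP_361a6f_ag.FL

open Pool.Agent.Lib.MP_361a6f_ag.H3 Pool.Agent.Lib.MP_361a6f_ag.SQ
  Pool.Agent.Lib.MP_361a6f_ag.PP

namespace E

/-- The matrices of the symmetries. -/
theorem symMats : SymMatsStatement.{u, v, w, w'} := by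
  intro k _ k' _ W 𝒱 W' 𝒱' hW D h c
  refine ⟨{M | ∃ T, SymF W (hst hW h c).X T ∧ M = SymM.mat (hst hW h c) (T (.leaf 0))},
    ?_, ?_, ?_, ?_⟩
  · rintro _ ⟨T, hT, rfl⟩ i j hij
    exact SymM.mat_typ (hst hW h c) hT i j hij
  · intro T hT
    exact ⟨_, ⟨symLin hT.tensor, symF_of hT, rfl⟩,
      fun z => SymM.tc_sym (hst hW h c) (symF_of hT) (.leaf 0) z⟩
  · rintro _ ⟨T, hT, rfl⟩
    exact SymM.mat_isG (hst hW h c) (at_ (hst hW h c)) hT
  · rintro _ ⟨T, hT, rfl⟩ L u hu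
    exact SymM.mat_fix (hst hW h c) hT L u hu

end E

/-- **Theorem E3.** -/
theorem thmE3Geo : ThmE3GeoStatement.{u, v, w, w'} := E.thmE3Geo_of E.symMats

end Pool.Agent.Lib.MP_361a6f_ag.FL
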