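import Pool.Agent.Lib.MP_361a6f_ag.FL.E.StatE

/-!
# Theorem K: abelian varieties whose endomorphism algebra has a totally real centre with few codes
-/

open CategoryTheory AlgebraicGeometry MonoidalCategory CartesianMonoidalCategory

universe u v w w'

namespace Pool.Agent.Lib.MP_361a6f_ag.FL.EQ

open Pool.Agent.Lib.MP_361a6f_ag.H3 Pool.Agent.Lib.MP_361a6f_ag.SQ

variable {k : Type u} [Field k]

/-- Every family of subsets with an even number of elements of the set of the complex roots of `f`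
that is closed under symmetric differences and under the automorphisms of `ℂ` is generated (for the
symmetric difference) by its members with two elements. -/
def PairGenerated (f : Polynomial ℚ) : Prop :=
  ∀ 𝓛 : Set (Set ℂ), (∀ S ∈ 𝓛, (∀ a ∈ S, Polynomial.aeval a f = 0) ∧ Even S.ncard) →
    (∀ S ∈ 𝓛, ∀ T ∈ 𝓛, symmDiff S T ∈ 𝓛) → (∀ S ∈ 𝓛, ∀ γ : ℂ ≃+* ℂ, γ '' S ∈ 𝓛) →
    ∀ 𝓜 : Set (Set ℂ), ∅ ∈ 𝓜 → (∀ S ∈ 𝓜, ∀ T ∈ 𝓜, symmDiff S T ∈ 𝓜) →
      (∀ S ∈ 𝓛, S.ncard = 2 → S ∈ 𝓜) → 𝓛 ⊆ 𝓜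

/-- The class `θ` of codimension `n = dim X` on `X × X` is algebraic, its action on `H^1(X)`
commutes with all algebraic correspondences, `H^1(X)` is spanned by eigenvectors of `θ` whose
eigenvalues are roots of the polynomial `f ≠ 0`, and the eigenspaces contain no stable subspaces
except `0` and themselves. (For abelian varieties: `θ` generates the centre of the endomorphism
algebra.) -/
structure IsGenerator (W : CohomologyData.{u, 0, w} k ℂ) (X : Sch k) (n : ℕ)
    (f : Polynomial ℚ) (θ : W.coh (X.prod X)) : Prop where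
  ne : f ≠ 0
  alg : W.IsAlg (X.prod X) n θ
  comm : ∀ z, W.IsAlg (X.prod X) n z → ∀ x, W.Deg X 1 x →
    act W θ (act W z x) = act W z (act W θ x)
  span : ∀ x, W.Deg X 1 x → x ∈ Submodule.span ℂ
    {y | W.Deg X 1 y ∧ ∃ a : ℂ, Polynomial.aeval a f = 0 ∧ act W θ y = W.scal a y}
  min : ∀ (a : ℂ) (U : Submodule ℂ (W.coh X)), Stable W X n U →
    (∀ x ∈ U, act W θ x = W.scal a x) → U ≠ ⊥ → ∀ x, W.Deg X 1 x → act W θ x = W.scal a x → x ∈ U

/-- The hypothesis on the endomorphisms: no stable subspace of `H^1(X)` except `0` is isotropic for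
the form `Tr(ξ^(n-1) x y)` (for abelian varieties: no factor of type IV), and the centre is
generated by a correspondence `θ` whose eigenvalues are roots of a polynomial `f` with
`PairGenerated f`. -/
structure GoodCentre (W : CohomologyData.{u, 0, w} k ℂ) (X : Sch k) (n : ℕ) (ξ : W.coh X) :
    Prop where
  iso : ∀ U, Stable W X n U →
    (∀ x ∈ U, ∀ y ∈ U, W.Tr (W.cup (ξ ^ (n - 1)) (W.cup x y)) = 0) → U = ⊥
  gen : ∃ (f : Polynomial ℚ) (θ : W.coh (X.prod X)), IsGenerator W X n f θ ∧ PairGenerated f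

end Pool.Agent.Lib.MP_361a6f_ag.FL.EQ

namespace Pool.Agent.Lib.MP_361a6f_ag.FL

open Pool.Agent.Lib.MP_361a6f_ag.H3 Pool.Agent.Lib.MP_361a6f_ag.SQ

/-- **Theorem K.** `Q1` for all algebraic classes on all powers of `X`, and numerical equivalence is
homological equivalence. -/
def ThmKGeoStatement : Prop :=
  ∀ {k : Type u} [Field k] (W : CohomologyData.{u, 0, w} k ℂ) (𝒱 : VarietyClass k)
    (_ : IsWeilCohomology W 𝒱) {k' : Type v} [Field k'] (W' : CohomologyData.{v, 0, w'} k' ℂ)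
    (𝒱' : VarietyClass k') (_ : IsWeilCohomology W' 𝒱') (D : EQ.Data W W') (_ : EQ.Hyp 𝒱 𝒱' D)
    (_ : EQ.GoodCentre W D.X D.g D.ξ)
    (P : Prd 1) (η : W.coh (EQ.pw D.X P)) (_ : IsPol W (fun _ => D.ξ) P η),
    EQ.Q1 W (EQ.pw D.X P) (P.dim fun _ => D.g) η ∧ EQ.NumHom W (EQ.pw D.X P)

/-- `PairGenerated f` holds if `f` has at most three complex roots, or if the number of complex
roots is odd and every transposition of two roots is induced by an automorphism of `ℂ`. -/
def PairStatement : Prop :=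
  ∀ f : Polynomial ℚ, f ≠ 0 →
    ({a : ℂ | Polynomial.aeval a f = 0}.ncard ≤ 3 ∨
      (Odd {a : ℂ | Polynomial.aeval a f = 0}.ncard ∧
        ∀ a b : ℂ, Polynomial.aeval a f = 0 → Polynomial.aeval b f = 0 → a ≠ b →
          ∃ γ : ℂ ≃+* ℂ, γ a = b ∧ γ b = a ∧
            ∀ c : ℂ, Polynomial.aeval c f = 0 → c ≠ a → c ≠ b → γ c = c)) →
    EQ.PairGenerated f

end Pool.Agent.Lib.MP_361a6f_ag.FL
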