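import Pool.Agent.Lib.MP_361a6f_ag.FL.E.Fin
import Pool.Agent.Lib.MP_361a6f_ag.FL.E.NSysK
import Pool.Agent.Lib.MP_361a6f_ag.FL.E.StatK

/-!
# Theorem K from the rows K1, K2, K3 and K5
-/

open CategoryTheory AlgebraicGeometry MonoidalCategory CartesianMonoidalCategory

universe u v w w'

set_option autoImplicit false

namespace Pool.Agent.Lib.MP_361a6f_ag.FL.E

open Pool.Agent.Lib.MP_361a6f_ag.H3 Pool.Agent.Lib.MP_361a6f_ag.SQ
  Pool.Agent.Lib.MP_361a6f_ag.PP Pool.Agent.Lib.MP_361a6f_ag.FL.E.Orb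

namespace K6

section orb

variable {k : Type u} [Field k] {W : CohomologyData.{u, 0, w} k ℂ} {𝒱 : VarietyClass k}
  {X : Sch k} {g : ℕ} {ξ : W.coh X} (c : Hst.Core W X g ξ) (hW : IsWeilCohomology W 𝒱)
  (hX : 𝒱.mem X g) (hξ : ξ ∈ W.alg X 1)
  (Γ : Set (Matrix c.I c.I ℂ)) (hΓ : ∀ M ∈ Γ, ∀ i j, c.D.typ i ≠ c.D.typ j → M i j = 0)
  (hsym : ∀ T, EQ.IsSym W X T → ∃ M ∈ Γ, ∀ z : W.coh X,
    (c.host hW hX hξ).tc (.leaf 0) (T (.leaf 0) z) = gT M ((c.host hW hX hξ).tc (.leaf 0) z))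

include hΓ hsym in
/-- the condition (h1) -/
theorem h1_iso (hpos : PositiveDivisor W X g ξ) (iso : ∀ U, EQ.Stable W X g U →
      (∀ x ∈ U, ∀ y ∈ U, W.Tr (W.cup (ξ ^ (g - 1)) (W.cup x y)) = 0) → U = ⊥)
    (U : Submodule ℂ (Sub c.D (lt 1) → ℂ))
    (hU : StabU (subD c.D (lt 1)) (atS c.D (lt 1) fun L u => u ∈ (c.host hW hX hξ).At L)
      (blk '' Γ) U)
    (h0 : ∀ v ∈ U, ∀ w ∈ U, dotProduct v ((Psi (subD c.D (lt 1))).mulVec w) = 0) : U = ⊥ := by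
  have hS := stable_core c hW hX hξ Γ hΓ hsym hU
  have hb : U.map (cl1 c hW hX hξ) = ⊥ := by
    rcases Nat.eq_zero_or_pos g with hg | hg
    · rw [eq_bot_iff]
      intro x hx
      exact hW.top_gr hX (hS.le hx) (by omega)
    · refine iso _ hS ?_
      rintro _ ⟨v, hv, rfl⟩ _ ⟨w, hw, rfl⟩
      have h1 := psi_one hW hX hpos c.lam hg (cl1 c hW hX hξ v) (w := cl1 c hW hX hξ w)
        (cls_gr (H := c.host hW hX hξ) w)
      rw [psi_cl1, h0 v hv w hw] at h1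
      have h2 : ((g - 1).factorial : ℂ)⁻¹ ≠ 0 :=
        inv_ne_zero (Nat.cast_ne_zero.2 (Nat.factorial_ne_zero _))
      have h3 := (mul_eq_zero.1 h1.symm).resolve_left h2
      exact neg_eq_zero.1 h3
  rw [eq_bot_iff]
  intro v hv
  have h1 : cl1 c hW hX hξ v ∈ U.map (cl1 c hW hX hξ) := ⟨v, hv, rfl⟩
  rw [hb, Submodule.mem_bot] at h1
  exact cls_inj (H := c.host hW hX hξ) (ge _) (h1.trans (map_zero _).symm)

end orb

/-- automorphisms of `ℂ` permute the roots -/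
theorem root_aut {f : Polynomial ℚ} (γ : ℂ ≃+* ℂ) {a : ℂ} (ha : Polynomial.aeval a f = 0) :
    Polynomial.aeval (γ a) f = 0 := by
  have h := Polynomial.aeval_algHom_apply (γ.toRingHom.toRatAlgHom) a f
  rw [ha, map_zero] at h
  exact h

/-- the set of the roots -/
noncomputable def rts (f : Polynomial ℚ) : Finset ℂ := (f.aroots ℂ).toFinset

theorem mem_rts {f : Polynomial ℚ} (hf : f ≠ 0) {a : ℂ} :
    a ∈ rts f ↔ Polynomial.aeval a f = 0 := by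
  rw [rts, Multiset.mem_toFinset, Polynomial.mem_aroots]
  exact ⟨fun h => h.2, fun h => ⟨hf, h⟩⟩

theorem gal_of {f : Polynomial ℚ} (hf : f ≠ 0) (h : EQ.PairGenerated f) :
    Gal (rts f : Set ℂ) := by
  intro 𝓛 h1 h2 h3 𝓜 h4 h5 h6
  exact h 𝓛 (fun S hS => ⟨fun a ha => (mem_rts hf).1 ((h1 S hS).1 ha), (h1 S hS).2⟩) h2 h3 𝓜 h4
    h5 h6

end K6

section hyp

variable {k : Type u} [Field k] {k' : Type v} [Field k'] {W : CohomologyData.{u, 0, w} k ℂ}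
  {𝒱 : VarietyClass k} {W' : CohomologyData.{v, 0, w'} k' ℂ} {𝒱' : VarietyClass k'}
  (hW : IsWeilCohomology W 𝒱) (hW' : IsWeilCohomology W' 𝒱') {D : EQ.Data W W'}
  (h : EQ.Hyp 𝒱 𝒱' D) (c : Hst.Core W D.X D.g D.ξ)

/-- the matrix of the central correspondence in the coordinates of `H^1(X)` (row K5) -/
structure CenZ (Γ : Set (Matrix c.I c.I ℂ)) (f : Polynomial ℚ)
    (z : Ten (Sub c.D (0, 1)) 2) : Prop where
  mem : At1 (hst hW h c) 2 z
  comm : ∀ z', At1 (hst hW h c) 2 z' →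
    opM (subD c.D (0, 1)) z * opM (subD c.D (0, 1)) z' =
      opM (subD c.D (0, 1)) z' * opM (subD c.D (0, 1)) z
  span : ∀ v : Sub c.D (0, 1) → ℂ, v ∈ Submodule.span ℂ {v | ∃ a : ℂ,
    Polynomial.aeval a f = 0 ∧ (opM (subD c.D (0, 1)) z).mulVec v = a • v}
  min : ∀ (a : ℂ) (U : Submodule ℂ (Sub c.D (0, 1) → ℂ)),
    StabU (subD c.D (0, 1)) (At1 (hst hW h c)) (E.blk '' Γ) U →
    (∀ v ∈ U, (opM (subD c.D (0, 1)) z).mulVec v = a • v) → U ≠ ⊥ →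
    ∀ v, (opM (subD c.D (0, 1)) z).mulVec v = a • v → v ∈ U

include hW' in
/-- positivity -/
theorem pos1_K (thmK : ThmKStatement) (k3 : K3Statement) {Γ : Set (Matrix c.I c.I ℂ)}
    (hΓ : IsMats hW h c Γ) (good : EQ.GoodCentre W D.X D.g D.ξ) {f : Polynomial ℚ} (hf : f ≠ 0)
    (pg : EQ.PairGenerated f) {z : Ten (Sub c.D (0, 1)) 2} (hz : CenZ hW h c Γ f z) :
    EndE.Pos1 (hst hW h c) := by
  have grp : ∀ x ∈ (E.blk '' Γ : Set (Matrix (Sub c.D (0, 1)) (Sub c.D (0, 1)) ℂ)),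
      IsG (subD c.D (0, 1)) x := by
    rintro _ ⟨M, hM, rfl⟩
    exact isG_blk (hΓ.grp M hM)
  have gfix : ∀ x ∈ (E.blk '' Γ : Set (Matrix (Sub c.D (0, 1)) (Sub c.D (0, 1)) ℂ)),
      ∀ L u, At1 (hst hW h c) L u → gT x u = u := by
    rintro _ ⟨M, hM, rfl⟩ L u hu
    exact fix_sub (hΓ.blk M hM) (At := fun L u => u ∈ (hst hW h c).At L)
      (fun L u hu => hΓ.fix M hM L u hu) L u hu
  have h1 := K6.h1_iso c hW h.mem h.div.1 Γ hΓ.blk hΓ.sym h.div good.iso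
  have odd : ∀ i : Sub c.D (0, 1), (subD c.D (0, 1)).odd ((subD c.D (0, 1)).typ i) := by
    intro i
    show c.D.odd (c.D.typ i.1)
    rw [i.2]
    exact Hst.odd_one (hst hW h c) 0
  have sys := aSys_sub (α := ((0, 1) : Fin 1 × ℕ)) (aSys_at (at_ (hst hW h c)))
  have typ : ∀ i j : Sub c.D (0, 1), (subD c.D (0, 1)).typ i = (subD c.D (0, 1)).typ j :=
    fun i j => i.2.trans j.2.symm
  have nd := Nd.nd_of_h1 sys odd typ _ grp gfix h1
  have N := nsys_hyp hW hW' h c _ grp gfix nd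
  have hK := k3 (subD c.D (0, 1)) (At1 (hst hW h c)) (E.blk '' Γ) sys typ odd grp gfix nd z
    hz.mem hz.comm (K6.rts f)
    (fun γ a ha => (K6.mem_rts hf).2 (K6.root_aut γ ((K6.mem_rts hf).1 ha)))
    (fun v => by
      refine Submodule.span_mono ?_ (hz.span v)
      rintro v ⟨a, ha, hv⟩
      exact ⟨a, (K6.mem_rts hf).2 ha, hv⟩)
    (fun a _ U hU hUa hU0 v hv => hz.min a U hU hUa hU0 v hv) (K6.gal_of hf pg)
  exact EndE.pos1_of _ fun L u hu h0 =>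
    ofK mainY alg1 alg2 thmK N h1 L (hK L) u (Submodule.subset_span hu) h0

end hyp

/-- Row K5. -/
def K5Statement : Prop :=
  ∀ {k : Type u} [Field k] {k' : Type v} [Field k'] {W : CohomologyData.{u, 0, w} k ℂ}
    {𝒱 : VarietyClass k} {W' : CohomologyData.{v, 0, w'} k' ℂ} {𝒱' : VarietyClass k'}
    (hW : IsWeilCohomology W 𝒱) {D : EQ.Data W W'} (h : EQ.Hyp 𝒱 𝒱' D)
    (c : Hst.Core W D.X D.g D.ξ) (Γ : Set (Matrix c.I c.I ℂ)), IsMats hW h c Γ →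
    ∀ (f : Polynomial ℚ) (θ : W.coh (D.X.prod D.X)), EQ.IsGenerator W D.X D.g f θ →
      ∃ z, CenZ hW h c Γ f z

/-- **Theorem K** from Theorem K in coordinates and the rows K3, K5. -/
theorem thmKGeo_of (thmK : ThmKStatement) (k3 : K3Statement)
    (k5 : K5Statement.{u, v, w, w'}) : ThmKGeoStatement.{u, v, w, w'} := by
  intro k _ W 𝒱 hW k' _ W' 𝒱' hW' D h good P η hη
  obtain ⟨c⟩ := Hst.exists_core_hyp hW h
  obtain ⟨Γ, hΓ⟩ := symMats hW h c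
  obtain ⟨f, θ, hθ, pg⟩ := good.gen
  obtain ⟨z, hz⟩ := k5 hW h c Γ hΓ f θ hθ
  exact of_pos1 hW h c (pos1_K hW hW' h c thmK k3 hΓ good hθ.ne pg hz) P η hη

end Pool.Agent.Lib.MP_361a6f_ag.FL.E
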