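import Pool.Agent.Lib.MP_361a6f_ag.FL.E.Share
import Pool.Agent.Lib.MP_361a6f_ag.FL.E.Frame43

/-!
# Theorem K, row K1: the proof

The classes are the classes of the relation `Conn` of `FL/E/LemR.lean` in the unitary coordinates
of `FL/E/Frame43.lean`.
-/

set_option autoImplicit false
set_option linter.unusedSectionVars false

open Matrix Module

namespace Pool.Agent.Lib.MP_361a6f_ag.FL.E.K1

open LemR P5e

/-- the pieces with an odd number of letters in the word `c` -/
def odd' {B : Type} [Fintype B] [DecidableEq B] {L : ℕ} (c : Fin L → B) : Finset B :=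
  Finset.univ.filter fun b => Odd (Finset.univ.filter fun j => c j = b).card

theorem prod_odd {B : Type} [Fintype B] [DecidableEq B] {L : ℕ} {M : Type} [CommMonoid M]
    (c : Fin L → B) (f : B → M) : ∏ j, f (c j) = (∏ b ∈ odd' c, f b) *
      ∏ b, (f b * f b) ^ ((Finset.univ.filter fun j => c j = b).card / 2) := by
  have h1 : ∏ j, f (c j) = ∏ b, f b ^ (Finset.univ.filter fun j => c j = b).card := by
    rw [← Finset.prod_fiberwise Finset.univ c]
    refine Finset.prod_congr rfl fun b _ => ?_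
    rw [← Finset.prod_const]
    refine Finset.prod_congr rfl fun j hj => ?_
    rw [(Finset.mem_filter.1 hj).2]
  rw [h1, odd', Finset.prod_filter, ← Finset.prod_mul_distrib]
  refine Finset.prod_congr rfl fun b _ => ?_
  rcases Nat.even_or_odd' (Finset.univ.filter fun j => c j = b).card with ⟨m, hm | hm⟩
  · rw [hm, if_neg (by simp), one_mul, Nat.mul_div_cancel_left m two_pos, pow_mul, pow_two]
  · rw [hm, if_pos (by simp), show (2 * m + 1) / 2 = m by omega, pow_succ', pow_mul, pow_two]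

theorem sum_odd {B : Type} [Fintype B] [DecidableEq B] {L : ℕ} {M : Type} [AddCommMonoid M]
    (c : Fin L → B) (f : B → M) : ∑ j, f (c j) = (∑ b ∈ odd' c, f b) +
      ∑ b, ((Finset.univ.filter fun j => c j = b).card / 2) • (f b + f b) := by
  have h1 : ∑ j, f (c j) = ∑ b, (Finset.univ.filter fun j => c j = b).card • f b := by
    rw [← Finset.sum_fiberwise Finset.univ c]
    refine Finset.sum_congr rfl fun b _ => ?_
    rw [← Finset.sum_const]
    refine Finset.sum_congr rfl fun j hj => ?_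
    rw [(Finset.mem_filter.1 hj).2]
  rw [h1, odd', Finset.sum_filter, ← Finset.sum_add_distrib]
  refine Finset.sum_congr rfl fun b _ => ?_
  rcases Nat.even_or_odd' (Finset.univ.filter fun j => c j = b).card with ⟨m, hm | hm⟩
  · rw [hm, if_neg (by simp), zero_add, Nat.mul_div_cancel_left m two_pos, mul_comm, mul_nsmul',
      two_nsmul]
  · rw [hm, if_pos (by simp), show (2 * m + 1) / 2 = m by omega, succ_nsmul', mul_comm,
      mul_nsmul', two_nsmul]

section coord

variable {I : Type} [Fintype I] [DecidableEq I] {h : Submodule ℂ (Matrix I I ℂ)} {κ : I → ℂ}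

/-- `κ i` as a unit -/
noncomputable def ku (hS : Sit h κ) (i : I) : ℂˣ := Units.mk0 (κ i) (hS.ne i)

theorem conn_iff (hS : Sit h κ) {i j : I} :
    Conn h κ i j ↔ QQ h κ (fun T => T i - T j) (ku hS i * (ku hS j)⁻¹) := by
  have hj := hS.ne j
  constructor
  · rintro ⟨s, h1, h2, h3⟩
    refine ⟨s, h1, fun T hT => ?_, ?_⟩
    · show T i - T j = _
      rw [h2 T hT, add_sub_cancel_left]
    · rw [Units.val_mul, Units.val_inv_eq_inv_val, ku, ku, Units.val_mk0, Units.val_mk0, h3,
        mul_assoc, mul_inv_cancel₀ hj, mul_one]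
  · rintro ⟨s, h1, h2, h3⟩
    refine ⟨s, h1, fun T hT => ?_, ?_⟩
    · rw [← h2 T hT, add_sub_cancel]
    · rw [← h3, Units.val_mul, Units.val_inv_eq_inv_val, ku, ku, Units.val_mk0, Units.val_mk0,
        mul_assoc, inv_mul_cancel₀ hj, mul_one]

theorem conn_symm (hS : Sit h κ) {i j : I} (hij : Conn h κ i j) : Conn h κ j i := by
  rw [conn_iff hS] at hij ⊢
  refine (hij.neg hS).congr (fun T _ => ?_) ?_
  · ring
  · rw [_root_.mul_inv_rev, inv_inv]

theorem conn_trans (hS : Sit h κ) {i j l : I} (hij : Conn h κ i j) (hjl : Conn h κ j l) :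
    Conn h κ i l := by
  rw [conn_iff hS] at hij hjl ⊢
  refine (hij.add hjl).congr (fun T _ => ?_) ?_
  · ring
  · rw [mul_assoc, inv_mul_cancel_left]

variable {B : Type} [Fintype B] [DecidableEq B]

/-- modulo the group of types a word is the sum of representatives of its odd classes -/
theorem parity (hS : Sit h κ) (hp : ∀ i, QQ h κ (fun T => T i + T i) (ku hS i * ku hS i))
    (q : I → B) (ρ : B → I) (hρ : ∀ i, Conn h κ i (ρ (q i))) {L : ℕ} (w : Fin L → I) :
    QQ h κ (fun T => ∑ j, T (w j) - ∑ b ∈ odd' (fun j => q (w j)), T (ρ b))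
      ((∏ j, ku hS (w j)) * (∏ b ∈ odd' (fun j => q (w j)), ku hS (ρ b))⁻¹) := by
  have h1 := QQ.sum Finset.univ (β := fun (j : Fin L) T => T (w j) - T (ρ (q (w j))))
    (z := fun j => ku hS (w j) * (ku hS (ρ (q (w j))))⁻¹)
    (fun j => (conn_iff hS).1 (hρ (w j)))
  have h2 := QQ.sum Finset.univ
    (β := fun (b : B) T => (((Finset.univ.filter fun j => q (w j) = b).card / 2 : ℕ) : ℂ) *
      (T (ρ b) + T (ρ b)))
    (z := fun b => (ku hS (ρ b) * ku hS (ρ b)) ^
      ((Finset.univ.filter fun j => q (w j) = b).card / 2))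
    (fun b => (hp (ρ b)).nsmul _)
  refine (h1.add h2).congr (fun T _ => ?_) ?_
  · have h3 := sum_odd (fun j => q (w j)) (fun b => T (ρ b))
    simp only [nsmul_eq_mul] at h3
    rw [Finset.sum_sub_distrib, h3]
    ring
  · have h3 := prod_odd (fun j => q (w j)) (fun b => ku hS (ρ b))
    rw [Finset.prod_mul_distrib, Finset.prod_inv_distrib, h3]
    generalize (∏ j, ku hS (w j)) = X
    generalize (∏ b ∈ odd' (fun j => q (w j)), ku hS (ρ b)) = O
    generalize (∏ b, (ku hS (ρ b) * ku hS (ρ b)) ^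
      ((Finset.univ.filter fun j => q (w j) = b).card / 2)) = R
    rw [_root_.mul_inv_rev, mul_assoc, mul_comm R⁻¹ O⁻¹, inv_mul_cancel_right]

theorem conn_of_QQ (hS : Sit h κ) (hEQ : ∀ i j, (∀ T, diagonal T ∈ h → T i = T j) → κ i = κ j)
    {i j : I} {β : (I → ℂ) → ℂ} {z : ℂˣ} (hq : QQ h κ β z)
    (hβ : ∀ T, diagonal T ∈ h → β T = T i - T j) : Conn h κ i j := by
  have h1 : QQ h κ (fun T => T i - T j) z := hq.congr (fun T hT => (hβ T hT).symm) rfl
  have h2 := QQ.share hS hEQ h1
  obtain ⟨s, h3, h4, h5⟩ := h1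
  refine ⟨s, h3, fun T hT => ?_, ?_⟩
  · have h6 : T i - T j = _ := h4 T hT
    rw [← h6, add_sub_cancel]
  · rw [← h5]
    exact h2

theorem sq_of_pairs (hS : Sit h κ)
    (pairs : ∀ i, ∃ a b, Conn h κ i a ∧ Conn h κ i b ∧
      (∀ T, diagonal T ∈ h → T a + T b = 0) ∧ κ a * κ b = 1) (i : I) :
    QQ h κ (fun T => T i + T i) (ku hS i * ku hS i) := by
  obtain ⟨a, b, ha, hb, hab, hk⟩ := pairs i
  refine (((conn_iff hS).1 ha).add ((conn_iff hS).1 hb)).congr (fun T hT => ?_) ?_
  · linear_combination hab T hT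
  · have h1 : ku hS a * ku hS b = 1 := by
      apply Units.ext
      rw [Units.val_mul, Units.val_one, ku, ku, Units.val_mk0, Units.val_mk0, hk]
    have e : ∀ x y z : ℂˣ, y * z = 1 → x * x = x * y⁻¹ * (x * z⁻¹) := by
      intro x y z hyz
      rw [mul_mul_mul_comm, ← _root_.mul_inv_rev, mul_comm z y, hyz, inv_one, mul_one]
    exact e _ _ _ h1

/-- a word of weight zero has no two odd classes -/
theorem not_two (hS : Sit h κ) (hEQ : ∀ i j, (∀ T, diagonal T ∈ h → T i = T j) → κ i = κ j)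
    (pairs : ∀ i, ∃ a b, Conn h κ i a ∧ Conn h κ i b ∧
      (∀ T, diagonal T ∈ h → T a + T b = 0) ∧ κ a * κ b = 1)
    (q : I → B) (hq : ∀ i j, Conn h κ i j → q i = q j) (ρ : B → I)
    (hρ : ∀ i, Conn h κ i (ρ (q i))) {L : ℕ} (w : Fin L → I)
    (hw : ∀ T, diagonal T ∈ h → ∑ j, T (w j) = 0) :
    (odd' (fun j => q (w j))).card ≠ 2 := by
  intro h2
  have hpar := parity hS (sq_of_pairs hS pairs) q ρ hρ w
  obtain ⟨b1, b2, hb12, hodd⟩ := Finset.card_eq_two.1 h2
  have hmem : ∀ b, b ∈ odd' (fun j => q (w j)) → q (ρ b) = b := by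
    intro b hb
    rw [odd', Finset.mem_filter] at hb
    have h3 : (Finset.univ.filter fun j => q (w j) = b).Nonempty := by
      rw [← Finset.card_pos]
      exact hb.2.pos
    obtain ⟨j, hj⟩ := h3
    have h4 := (Finset.mem_filter.1 hj).2
    rw [← h4]
    exact (hq _ _ (hρ (w j))).symm
  have hq1 : q (ρ b1) = b1 := hmem b1 (by rw [hodd]; simp)
  have hq2 : q (ρ b2) = b2 := hmem b2 (by rw [hodd]; simp)
  obtain ⟨a, b, ha, hb, hT', -⟩ := pairs (ρ b2)
  have h3 := (hpar.neg hS).add ((conn_iff hS).1 (conn_symm hS ha))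
  have h4 : Conn h κ (ρ b1) b := by
    refine conn_of_QQ hS hEQ h3 fun T hT => ?_
    rw [hw T hT, hodd, Finset.sum_pair hb12]
    linear_combination hT' T hT
  have h5 := hq _ _ (conn_trans hS h4 (conn_symm hS hb))
  rw [hq1, hq2] at h5
  exact hb12 h5

/-- a word of weight zero with even classes -/
theorem even_one (hS : Sit h κ) (pairs : ∀ i, ∃ a b, Conn h κ i a ∧ Conn h κ i b ∧
      (∀ T, diagonal T ∈ h → T a + T b = 0) ∧ κ a * κ b = 1)
    (q : I → B) (ρ : B → I) (hρ : ∀ i, Conn h κ i (ρ (q i))) {L : ℕ} (w : Fin L → I)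
    (hw : ∀ T, diagonal T ∈ h → ∑ j, T (w j) = 0)
    (he : odd' (fun j => q (w j)) = ∅) : ∏ j, κ (w j) = 1 := by
  have hpar := parity hS (sq_of_pairs hS pairs) q ρ hρ w
  rw [he] at hpar
  have h1 := hpar.uniq hS (fun T hT => by
    show ∑ j, T (w j) - ∑ b ∈ (∅ : Finset B), T (ρ b) = 0
    rw [hw T hT, Finset.sum_empty, sub_zero])
  rw [Finset.prod_empty, inv_one, mul_one] at h1
  have h3 := congrArg (fun z : ℂˣ => (z : ℂ)) h1
  simp only [Units.coe_prod, Units.val_one] at h3
  exact h3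

end coord

section slots

variable {I : Type} [Fintype I] [DecidableEq I]

/-- matrices acting slot by slot -/
def sl {L : ℕ} (N : Fin L → Matrix I I ℂ) (u : Ten I L) : Ten I L :=
  fun w => ∑ w' : Fin L → I, (∏ i, N i (w i) (w' i)) * u w'

theorem sl_sl {L : ℕ} (M N : Fin L → Matrix I I ℂ) (u : Ten I L) :
    sl M (sl N u) = sl (fun i => M i * N i) u := by
  funext w
  unfold sl
  have h : ∀ w'' : Fin L → I, (∏ i, (M i * N i) (w i) (w'' i)) =
      ∑ w' : Fin L → I, (∏ i, M i (w i) (w' i)) * ∏ i, N i (w' i) (w'' i) := by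
    intro w''
    simp only [Matrix.mul_apply]
    rw [Finset.prod_univ_sum, Fintype.piFinset_univ]
    exact Finset.sum_congr rfl fun w' _ => Finset.prod_mul_distrib
  simp only [h, Finset.sum_mul, Finset.mul_sum]
  rw [Finset.sum_comm]
  exact Finset.sum_congr rfl fun _ _ => Finset.sum_congr rfl fun _ _ => by ring

theorem sl_diag {L : ℕ} (d : Fin L → I → ℂ) (u : Ten I L) (w : Fin L → I) :
    sl (fun i => diagonal (d i)) u w = (∏ i, d i (w i)) * u w := by
  unfold sl
  rw [Finset.sum_eq_single w]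
  · simp
  · intro w' _ hw
    obtain ⟨i, hi⟩ := Function.ne_iff.1 hw
    refine mul_eq_zero_of_left (Finset.prod_eq_zero (Finset.mem_univ i) ?_) _
    exact diagonal_apply_ne _ (Ne.symm hi)
  · intro h
    exact absurd (Finset.mem_univ w) h

end slots

/-- Row K1 with the local definitions. -/
theorem core {I : Type} [Fintype I] [DecidableEq I] (S : Submodule ℂ (Matrix I I ℂ))
    (E : Set (Matrix I I ℂ)) (P : Matrix I I ℂ)
    (hlie : ∀ x ∈ S, ∀ y ∈ S, x * y - y * x ∈ S) (hstar : ∀ x ∈ S, x.conjTranspose ∈ S)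
    (hE : ∀ e ∈ E, ∀ A ∈ S, e * A = A * e) (hP : ∀ A ∈ S, A.transpose * P + P * A = 0)
    (hu : IsUnit P) (a : I → ℂ) (hreal : ∀ i, (starRingEnd ℂ) (a i) = a i)
    (ha : Matrix.diagonal a ∈ S) (k : I → ℂ) (hkn : ∀ i, ‖k i‖ = 1)
    (hak : ∀ i j, a i = a j → k i = k j)
    (hEk : ∀ e ∈ E, e * Matrix.diagonal k = Matrix.diagonal k * e)
    (hkP : (Matrix.diagonal k).transpose * P * Matrix.diagonal k = P)
    (had : ∀ A ∈ S, Matrix.diagonal k * A * Matrix.diagonal (fun i => (k i)⁻¹) ∈ S)
    (h1 : ∀ U : Submodule ℂ (I → ℂ), (∀ A ∈ S, ∀ v ∈ U, A.mulVec v ∈ U) →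
      (∀ e ∈ E, ∀ v ∈ U, e.mulVec v ∈ U) →
      (∀ v ∈ U, ∀ w ∈ U, dotProduct v (P.mulVec w) = 0) → U = ⊥) :
    ∃ (B : Type) (_ : Fintype B) (_ : DecidableEq B) (π : B → Matrix I I ℂ), ∑ b, π b = 1 ∧
      (∀ b b', π b * π b' = if b = b' then π b else 0) ∧
      (∀ b, (∀ A ∈ S, A * π b = π b * A) ∧ ∀ e ∈ E, e * π b = π b * e) ∧
      ∀ (L : ℕ) (u : Ten I L), (∀ A ∈ S, aT A u = 0) →
        (∀ c : Fin L → B, sl (fun j => π (c j)) u ≠ 0 → (odd' c).card ≠ 2) ∧
        ((∀ c : Fin L → B, sl (fun j => π (c j)) u ≠ 0 → odd' c = ∅) →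
          gT (Matrix.diagonal k) u = u) := by
  classical
  have a1 : Alg1 := alg1
  have hk0 : ∀ i, k i ≠ 0 := by
    intro i h0
    have h3 := hkn i
    rw [h0, norm_zero] at h3
    exact zero_ne_one h3
  obtain ⟨U, κ, F⟩ := exists_frame S E hlie hstar hE a hreal ha k hk0 hak hEk had
  have hS := F.sit
  have hU1 := F.u1
  have hU2 := F.u2
  -- the form in the new coordinates
  have hUT : Uᵀ * Uᴴᵀ = 1 := by
    rw [← Matrix.transpose_mul, hU1, Matrix.transpose_one]
  have hQlie : ∀ X ∈ conjS U S, Xᵀ * (Uᵀ * P * U) + Uᵀ * P * U * X = 0 := by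
    intro X hX
    have h2 := hP _ (mem_conjS.1 hX)
    rw [Matrix.transpose_mul, Matrix.transpose_mul] at h2
    calc Xᵀ * (Uᵀ * P * U) + Uᵀ * P * U * X
        = (Uᵀ * Uᴴᵀ) * (Xᵀ * Uᵀ) * P * U + Uᵀ * P * (U * X) * (Uᴴ * U) := by
          rw [hUT, hU1, Matrix.one_mul, Matrix.mul_one]
          simp only [Matrix.mul_assoc]
      _ = Uᵀ * (Uᴴᵀ * (Xᵀ * Uᵀ) * P + P * (U * X * Uᴴ)) * U := by
          rw [Matrix.mul_add, Matrix.add_mul]
          simp only [Matrix.mul_assoc]
      _ = 0 := by rw [h2, Matrix.mul_zero, Matrix.zero_mul]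
  have hQpair : ∀ i j, (Uᵀ * P * U) i j ≠ 0 →
      (∀ T, diagonal T ∈ conjS U S → T i + T j = 0) ∧ κ i * κ j = 1 := by
    intro i j hij
    refine ⟨fun T hT => ?_, ?_⟩
    · have h2 := congrFun (congrFun (hQlie _ hT) i) j
      rw [Matrix.diagonal_transpose, Matrix.add_apply, Matrix.diagonal_mul, Matrix.mul_diagonal,
        Matrix.zero_apply, mul_comm, ← mul_add] at h2
      exact (mul_eq_zero.1 h2).resolve_left hij
    · have h2 : diagonal κ * (Uᵀ * P * U) * diagonal κ = Uᵀ * P * U := by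
        calc diagonal κ * (Uᵀ * P * U) * diagonal κ
            = (U * diagonal κ)ᵀ * P * (U * diagonal κ) := by
              rw [Matrix.transpose_mul, Matrix.diagonal_transpose]
              simp only [Matrix.mul_assoc]
          _ = Uᵀ * ((Matrix.diagonal k).transpose * P * Matrix.diagonal k) * U := by
              rw [← F.kU, Matrix.transpose_mul]
              simp only [Matrix.mul_assoc]
          _ = Uᵀ * P * U := by rw [hkP]
      have h3 := congrFun (congrFun h2 i) j
      rw [Matrix.mul_diagonal, Matrix.diagonal_mul] at h3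
      have h4 : (κ i * κ j - 1) * (Uᵀ * P * U) i j = 0 := by
        linear_combination h3
      exact sub_eq_zero.1 ((mul_eq_zero.1 h4).resolve_right hij)
  -- the classes
  let r : Setoid I := ⟨Conn (conjS U S) κ, fun i => Conn.refl i, fun h2 => conn_symm hS h2,
    fun h2 h3 => conn_trans hS h2 h3⟩
  let B : Type := Quotient r
  let q : I → B := fun i => Quotient.mk r i
  let ρ : B → I := fun b => Quotient.out b
  have hq : ∀ i j, Conn (conjS U S) κ i j → q i = q j := fun i j hij => Quotient.sound hij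
  have hρ : ∀ i, Conn (conjS U S) κ i (ρ (q i)) := fun i =>
    conn_symm hS (Quotient.exact (Quotient.out_eq (q i)))
  have hqc : ∀ i j, q i = q j → Conn (conjS U S) κ i j := fun i j hij => Quotient.exact hij
  have : Fintype B := Fintype.ofFinite B
  let ind : B → I → ℂ := fun b i => if q i = b then 1 else 0
  let π : B → Matrix I I ℂ := fun b => U * diagonal (ind b) * Uᴴ
  -- the pairs
  have pairs : ∀ i, ∃ a b, Conn (conjS U S) κ i a ∧ Conn (conjS U S) κ i b ∧
      (∀ T, diagonal T ∈ conjS U S → T a + T b = 0) ∧ κ a * κ b = 1 := by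
    intro i
    by_contra hc
    -- the coordinate subspace of the class of `i`
    let W : Submodule ℂ (I → ℂ) :=
      { carrier := {v | ∀ j, ¬ Conn (conjS U S) κ i j → (Uᴴ *ᵥ v) j = 0}
        add_mem' := by
          intro v v' hv hv' j hj
          rw [Matrix.mulVec_add, Pi.add_apply, hv j hj, hv' j hj, add_zero]
        zero_mem' := by
          intro j _
          rw [Matrix.mulVec_zero, Pi.zero_apply]
        smul_mem' := by
          intro c v hv j hj
          rw [Matrix.mulVec_smul, Pi.smul_apply, hv j hj, smul_zero] }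
    have hst : ∀ M : Matrix I I ℂ, (∀ x y, (Uᴴ * M * U) x y ≠ 0 → Conn (conjS U S) κ x y) →
        ∀ v ∈ W, M.mulVec v ∈ W := by
      intro M hM v hv x hx
      have e : Uᴴ *ᵥ (M *ᵥ v) = (Uᴴ * M * U) *ᵥ (Uᴴ *ᵥ v) := by
        rw [Matrix.mulVec_mulVec, Matrix.mulVec_mulVec]
        congr 1
        calc Uᴴ * M = Uᴴ * M * (U * Uᴴ) := by rw [hU2, Matrix.mul_one]
          _ = Uᴴ * M * U * Uᴴ := by simp only [Matrix.mul_assoc]
      rw [e, Matrix.mulVec, dotProduct]
      refine Finset.sum_eq_zero fun y _ => ?_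
      by_cases hy : Conn (conjS U S) κ i y
      · by_cases h0 : (Uᴴ * M * U) x y = 0
        · rw [h0, zero_mul]
        · exact absurd (conn_trans hS hy (conn_symm hS (hM x y h0))) hx
      · rw [hv y hy, mul_zero]
    have hW := h1 W
      (fun A hA => hst A fun x y h0 => Conn.step hS (F.mem A hA) h0 (Conn.refl y))
      (fun e he => hst e fun x y h0 =>
        Conn.same (F.same e he x y h0).1 (F.same e he x y h0).2 (Conn.refl y)) (by
        intro v hv w hw
        have hUv : ∀ x : I → ℂ, U *ᵥ (Uᴴ *ᵥ x) = x := by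
          intro x
          rw [Matrix.mulVec_mulVec, hU2, Matrix.one_mulVec]
        have e : dotProduct v (P *ᵥ w)
            = dotProduct (Uᴴ *ᵥ v) ((Uᵀ * P * U) *ᵥ (Uᴴ *ᵥ w)) := by
          calc dotProduct v (P *ᵥ w)
              = dotProduct (U *ᵥ (Uᴴ *ᵥ v)) (P *ᵥ (U *ᵥ (Uᴴ *ᵥ w))) := by rw [hUv, hUv]
            _ = dotProduct (Uᴴ *ᵥ v) (Uᵀ *ᵥ (P *ᵥ (U *ᵥ (Uᴴ *ᵥ w)))) := by
                rw [Matrix.dotProduct_mulVec (Uᴴ *ᵥ v), Matrix.vecMul_transpose]
            _ = _ := by simp only [Matrix.mulVec_mulVec, Matrix.mul_assoc]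
        rw [e, dotProduct]
        refine Finset.sum_eq_zero fun x _ => ?_
        by_cases hx : Conn (conjS U S) κ i x
        · have h2 : ((Uᵀ * P * U) *ᵥ (Uᴴ *ᵥ w)) x = 0 := by
            rw [Matrix.mulVec, dotProduct]
            refine Finset.sum_eq_zero fun y _ => ?_
            by_cases hy : Conn (conjS U S) κ i y
            · by_cases h0 : (Uᵀ * P * U) x y = 0
              · rw [h0, zero_mul]
              · exact absurd ⟨x, y, hx, hy, hQpair x y h0⟩ hc
            · rw [hw y hy, mul_zero]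
          rw [h2, mul_zero]
        · rw [hv x hx, zero_mul])
    have h2 : U *ᵥ Pi.single i 1 ∈ W := by
      intro j hj
      rw [Matrix.mulVec_mulVec, hU1, Matrix.one_mulVec]
      refine Pi.single_eq_of_ne ?_ _
      rintro rfl
      exact hj (Conn.refl _)
    rw [hW, Submodule.mem_bot] at h2
    have h3 := congrArg (fun v => (Uᴴ *ᵥ v) i) h2
    simp only [Matrix.mulVec_mulVec, hU1, Matrix.one_mulVec, Pi.single_eq_same,
      Matrix.mulVec_zero, Pi.zero_apply] at h3
    exact one_ne_zero h3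
  -- the projections
  have hπc : ∀ (M : Matrix I I ℂ) (b : B), (∀ x y, (Uᴴ * M * U) x y ≠ 0 → q x = q y) →
      M * π b = π b * M := by
    intro M b hM
    have h2 : (Uᴴ * M * U) * diagonal (ind b) = diagonal (ind b) * (Uᴴ * M * U) := by
      ext x y
      rw [Matrix.mul_diagonal, Matrix.diagonal_mul]
      by_cases h0 : (Uᴴ * M * U) x y = 0
      · rw [h0, zero_mul, mul_zero]
      · show _ * (if q y = b then (1 : ℂ) else 0) = (if q x = b then (1 : ℂ) else 0) * _
        rw [hM x y h0, mul_comm]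
    calc M * π b = (U * Uᴴ) * M * (U * diagonal (ind b) * Uᴴ) := by rw [hU2, Matrix.one_mul]
      _ = U * ((Uᴴ * M * U) * diagonal (ind b)) * Uᴴ := by simp only [Matrix.mul_assoc]
      _ = U * (diagonal (ind b) * (Uᴴ * M * U)) * Uᴴ := by rw [h2]
      _ = (U * diagonal (ind b) * Uᴴ) * M * (U * Uᴴ) := by simp only [Matrix.mul_assoc]
      _ = π b * M := by rw [hU2, Matrix.mul_one]
  have hsl : ∀ {L : ℕ} (c : Fin L → B) (u : Ten I L), sl (fun j => π (c j)) u
      = gT U (sl (fun j => diagonal (ind (c j))) (gT Uᴴ u)) := by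
    intro L c u
    show _ = sl (fun _ => U) (sl (fun j => diagonal (ind (c j))) (sl (fun _ => Uᴴ) u))
    rw [sl_sl, sl_sl]
  have hg0 : ∀ (M : Matrix I I ℂ) (L : ℕ), gT M (0 : Ten I L) = 0 := by
    intro M L
    funext w
    simp [gT]
  have hUHU : ∀ {L : ℕ} (u : Ten I L), gT Uᴴ (gT U u) = u := by
    intro L u
    rw [← a1.gT_mul, hU1, a1.gT_one]
  have hUUH : ∀ {L : ℕ} (u : Ten I L), gT U (gT Uᴴ u) = u := by
    intro L u
    rw [← a1.gT_mul, hU2, a1.gT_one]
  have hnull : ∀ {L : ℕ} (u : Ten I L), (∀ A ∈ S, aT A u = 0) → ∀ w, gT Uᴴ u w ≠ 0 →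
      ∀ T, diagonal T ∈ conjS U S → ∑ j, T (w j) = 0 := by
    intro L u hku w hw T hT
    have h4 := congrFun (F.kill L u hku _ hT) w
    rw [P5e.aT_diag, Pi.zero_apply] at h4
    exact (mul_eq_zero.1 h4).resolve_right hw
  refine ⟨B, inferInstance, inferInstance, π, ?_, ?_, ?_, ?_⟩
  · have h2 : ∑ b, π b = U * (∑ b, diagonal (ind b)) * Uᴴ := by
      rw [Matrix.mul_sum, Matrix.sum_mul]
    have h3 : ∑ b, diagonal (ind b) = (1 : Matrix I I ℂ) := by
      ext x y
      rw [Matrix.sum_apply, Matrix.one_apply]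
      by_cases hxy : x = y
      · subst hxy
        simp only [Matrix.diagonal_apply_eq, ind]
        rw [Finset.sum_eq_single (q x) (fun b _ hb => if_neg (Ne.symm hb))
          (fun h0 => absurd (Finset.mem_univ _) h0), if_pos rfl]
        simp
      · simp only [Matrix.diagonal_apply_ne _ hxy]
        simp [hxy]
    rw [h2, h3, Matrix.mul_one, hU2]
  · intro b b'
    have h2 : π b * π b' = U * (diagonal (ind b) * diagonal (ind b')) * Uᴴ := by
      calc π b * π b' = U * diagonal (ind b) * (Uᴴ * U) * diagonal (ind b') * Uᴴ := by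
            simp only [π, Matrix.mul_assoc]
        _ = _ := by
            rw [hU1, Matrix.mul_one]
            simp only [Matrix.mul_assoc]
    rw [h2, Matrix.diagonal_mul_diagonal]
    by_cases hb : b = b'
    · subst hb
      rw [if_pos rfl]
      show U * diagonal (fun i => ind b i * ind b i) * Uᴴ = U * diagonal (ind b) * Uᴴ
      congr 3
      funext i
      show (if q i = b then (1 : ℂ) else 0) * (if q i = b then (1 : ℂ) else 0)
        = if q i = b then (1 : ℂ) else 0
      by_cases hi : q i = b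
      · rw [if_pos hi, mul_one]
      · rw [if_neg hi, mul_zero]
    · rw [if_neg hb]
      have h3 : (fun i => ind b i * ind b' i) = fun _ => (0 : ℂ) := by
        funext i
        show (if q i = b then (1 : ℂ) else 0) * (if q i = b' then (1 : ℂ) else 0) = 0
        by_cases hi : q i = b
        · rw [if_neg fun h4 => hb (hi.symm.trans h4), mul_zero]
        · rw [if_neg hi, zero_mul]
      rw [h3, Matrix.diagonal_zero, Matrix.mul_zero, Matrix.zero_mul]
  · intro b
    refine ⟨fun A hA => hπc A b fun x y h0 => hq x y ?_, fun e he => hπc e b fun x y h0 =>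
      hq x y ?_⟩
    · exact Conn.step hS (F.mem A hA) h0 (Conn.refl y)
    · exact Conn.same (F.same e he x y h0).1 (F.same e he x y h0).2 (Conn.refl y)
  · intro L u hku
    refine ⟨fun c hc => ?_, fun hall => ?_⟩
    · rw [hsl] at hc
      have h2 : sl (fun j => diagonal (ind (c j))) (gT Uᴴ u) ≠ 0 := by
        intro h0
        rw [h0, hg0] at hc
        exact hc rfl
      obtain ⟨w, hw⟩ := Function.ne_iff.1 h2
      rw [sl_diag, Pi.zero_apply] at hw
      have h3 := right_ne_zero_of_mul hw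
      have h4 : (fun j => q (w j)) = c := by
        funext j
        have h5 := Finset.prod_ne_zero_iff.1 (left_ne_zero_of_mul hw) j (Finset.mem_univ j)
        by_contra h6
        exact h5 (if_neg h6)
      have h5 := not_two hS F.eqv pairs q hq ρ hρ w (hnull u hku w h3)
      rw [h4] at h5
      exact h5
    · have hfix : gT (diagonal κ) (gT Uᴴ u) = gT Uᴴ u := by
        funext w
        rw [P5e.gT_diag]
        by_cases h0 : gT Uᴴ u w = 0
        · rw [h0, mul_zero]
        · have h2 : sl (fun j => π (q (w j))) u ≠ 0 := by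
            intro h3
            have h4 := congrArg (fun t => gT Uᴴ t w) (hsl (fun j => q (w j)) u)
            simp only [h3, hg0, hUHU, sl_diag, Pi.zero_apply] at h4
            have h5 : ∏ j, ind (q (w j)) (w j) = 1 :=
              Finset.prod_eq_one fun j _ => if_pos rfl
            rw [h5, one_mul] at h4
            exact h0 h4.symm
          rw [even_one hS pairs q ρ hρ w (hnull u hku w h0) (hall _ h2), one_mul]
      calc gT (diagonal k) u = gT (diagonal k) (gT U (gT Uᴴ u)) := by rw [hUUH]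
        _ = gT U (gT (diagonal κ) (gT Uᴴ u)) := by
            rw [← a1.gT_mul, F.kU, a1.gT_mul]
        _ = u := by rw [hfix, hUUH]

end Pool.Agent.Lib.MP_361a6f_ag.FL.E.K1
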