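import Pool.Agent.Lib.MP_361a6f_ag.FL.E.DefsK
import Pool.Agent.Lib.MP_361a6f_ag.FL.E.H6

/-!
# Theorem K: the assembly (row K2)
-/

set_option autoImplicit false
set_option linter.unusedSectionVars false

open Filter Topology

namespace Pool.Agent.Lib.MP_361a6f_ag.FL.E

namespace Ktwo

variable {I Λ : Type} [Fintype I] [DecidableEq I] [DecidableEq Λ] {D : Dat I Λ}
  {At : (L : ℕ) → Ten I L → Prop} {Γ : Set (Matrix I I ℂ)}

/-- the words of a tensor in the moved frame -/
theorem word_conj {B : Type} {x y : Matrix I I ℂ} (hyx : y * x = 1) (π : B → Matrix I I ℂ) {L : ℕ}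
    (c : Fin L → B) (u : Ten I L) :
    Rot.slT (fun j => x * π (c j) * y) (gT x u) = gT x (Rot.slT (fun j => π (c j)) u) := by
  rw [← Rot.slT_const, ← Rot.slT_const, Rot.slT_slT, Rot.slT_slT]
  have h : (fun i => x * π (c i) * y * x) = fun i => x * π (c i) := by
    funext i
    rw [mul_assoc, hyx, mul_one]
  rw [h]

/-- the words of a tensor of the system in the moved frame -/
theorem word_iff {B : Type} {x : Matrix I I ℂ} (hx1 : x * x⁻¹ = 1) (hx2 : x⁻¹ * x = 1)
    (π : B → Matrix I I ℂ) {L : ℕ} (c : Fin L → B) (u : Ten I L) :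
    Rot.slT (fun j => x * π (c j) * x⁻¹) u ≠ 0 ↔ Rot.slT (fun j => π (c j)) (gT x⁻¹ u) ≠ 0 := by
  have h1 : gT x (gT x⁻¹ u) = u := by rw [← alg1.gT_mul, hx1, alg1.gT_one]
  have h2 : Rot.slT (fun j => x * π (c j) * x⁻¹) u =
      gT x (Rot.slT (fun j => π (c j)) (gT x⁻¹ u)) := by
    conv_lhs => rw [← h1]
    exact word_conj hx2 π c _
  rw [h2]
  refine not_congr ⟨fun h => ?_, fun h => by rw [h, Six.gT_zero]⟩
  have h3 := congrArg (gT x⁻¹) h
  rwa [← alg1.gT_mul, hx2, alg1.gT_one, Six.gT_zero] at h3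

/-- the members of the system of length at most the level are killed by the stabiliser -/
theorem killed {ι : Type} [Fintype ι] {len : ι → ℕ} {t s : Tup I len} {x : Matrix I I ℂ}
    (hx2 : x⁻¹ * x = 1) (hxs : gS x s = t) {L : ℕ} {u : Ten I L}
    (hu : u ∈ Submodule.span ℂ {v : Ten I L | ∃ i, ∃ h : len i = L, v = h ▸ t i})
    {A : Matrix I I ℂ} (hA : A ∈ stab D s) : aT A (gT x⁻¹ u) = 0 := by
  induction hu using Submodule.span_induction with
  | mem u hu =>
    obtain ⟨i, rfl, rfl⟩ := hu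
    have h1 : gT x (s i) = t i := congrFun hxs i
    change aT A (gT x⁻¹ (t i)) = 0
    rw [← h1, ← alg1.gT_mul, hx2, alg1.gT_one]
    exact congrFun hA.2 i
  | zero =>
    have h := alg1.aT_smul A 0 (0 : Ten I L)
    rw [Six.gT_zero]
    rwa [zero_smul, zero_smul] at h
  | add a b _ _ ha hb => rw [alg1.gT_add, alg1.aT_add, ha, hb, add_zero]
  | smul c a _ ha => rw [alg1.gT_smul, alg1.aT_smul, ha, smul_zero]

end Ktwo

/-- Row K2. -/
theorem k2 : K2Statement := by
  intro g1 p2 e2 p3 g4 g4b k1 I Λ _ _ _ D At Bt l Γ β _ lb b hE hiso L hK u hu hu0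
  obtain ⟨M, hM⟩ := hK
  obtain ⟨ι, _, len, t, s, x, k, h⟩ := g1 D At Bt l Γ lb b hE (max (max L M) 2)
  have hL := h.lvl
  have hk := hL.cpt.1
  obtain ⟨a, ha, har, haS⟩ := p3 D s l hE.typ_eq hE.odd hE.tau hE.ratio hL.fix
  have com := g4b D At Bt l Γ lb b hE _ (le_max_right (max L M) 2) len t s x k h
  obtain ⟨hxi, hx1, hx2⟩ := alg1.G_inv D x hL.grp
  have hkn : ∀ i, ‖k i‖ = 1 := by
    intro i
    have h1 := congrFun (congrFun hL.cpt.2 i) i
    rw [Matrix.mul_diagonal, Matrix.conjTranspose_apply, Matrix.diagonal_apply_eq,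
      Matrix.one_apply_eq] at h1
    have h2 : ((‖k i‖ ^ 2 : ℝ) : ℂ) = 1 := by
      rw [← h1, mul_comm, Complex.ofReal_pow]
      exact (Complex.mul_conj' (k i)).symm
    have h3 : ‖k i‖ ^ 2 = 1 := by exact_mod_cast h2
    have h4 : (0 : ℝ) ≤ ‖k i‖ := norm_nonneg _
    nlinarith
  -- stable subspaces
  have hst : ∀ U : Submodule ℂ (I → ℂ), (∀ A ∈ stab D s, ∀ v ∈ U, A.mulVec v ∈ U) →
      (∀ e ∈ {e | ∃ z, At 2 z ∧ e = opM D z}, ∀ v ∈ U, e.mulVec v ∈ U) →
      StabU D At Γ (U.map (Matrix.toLin' x)) := by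
    intro U h1 h2
    exact Hsix.stabU_map hx1 (fun z hz => (com z hz).2.2) (fun z hz => h2 _ ⟨z, hz, rfl⟩)
      (g4 D s (Hsix.conjS Γ x) hL.min
        (Hsix.conjS_fix hL.grp hL.eq hE.grp hE.gfix hL.mem) U h1)
  have hinj : Function.Injective (Matrix.toLin' x) := by
    intro v w hvw
    have h1 := congrArg (Matrix.toLin' x⁻¹) hvw
    rwa [← LinearMap.comp_apply, ← LinearMap.comp_apply, ← Matrix.toLin'_mul, hx2,
      Matrix.toLin'_one, LinearMap.id_apply, LinearMap.id_apply] at h1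
  have hbot : ∀ U : Submodule ℂ (I → ℂ), U.map (Matrix.toLin' x) = ⊥ → U = ⊥ := by
    intro U h1
    rw [eq_bot_iff]
    intro v hv
    have h2 : Matrix.toLin' x v ∈ U.map (Matrix.toLin' x) := ⟨v, hv, rfl⟩
    rw [h1, Submodule.mem_bot] at h2
    rw [Submodule.mem_bot]
    exact hinj (by rw [h2, map_zero])
  obtain ⟨B, _, _, π, hsum, hmul, hcom, hw⟩ :=
    k1 (Six.stabS alg1 D s) {e | ∃ z, At 2 z ∧ e = opM D z} (Psi D)
    (fun A hA B hB => Six.stab_br alg1 hA hB) (p2 D s hL.min)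
    (by
      rintro _ ⟨z, hz, rfl⟩ A hA
      exact (com z hz).1 A hA)
    (fun A hA => hA.1.2) Hsix.psi_unit a har haS k hkn
    (fun i j hij => h.blk i j ((ha i j).1 hij))
    (by
      rintro _ ⟨z, hz, rfl⟩
      exact (com z hz).2.1)
    hk.2 (e2 D s k hL.min hL.cpt hL.key)
    (by
      intro U h1 h2 h3
      have h4 := hiso (U.map (Matrix.toLin' x)) (hst U h1 h2) (by
        rintro _ ⟨v, hv, rfl⟩ _ ⟨w, hw, rfl⟩
        rw [Matrix.toLin'_apply, Matrix.toLin'_apply, Hsix.psi_map hL.grp]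
        exact h3 v hv w hw)
      exact hbot U h4)
  have hkill : ∀ L', L' ≤ max (max L M) 2 → ∀ u' : Ten I L', At L' u' →
      ∀ A ∈ Six.stabS alg1 D s, aT A (gT x⁻¹ u') = 0 := fun L' hL' u' hu' A hA =>
    Ktwo.killed hx2 hL.eq (hL.span L' hL' u' hu') hA
  -- the decomposition in the original frame
  have hdec : Dec D At Γ (fun b => x * π b * x⁻¹) := by
    refine ⟨?_, ?_, ?_⟩
    · rw [← Finset.sum_mul, ← Finset.mul_sum, hsum, mul_one, hx1]
    · intro b b'
      have h1 : x * π b * x⁻¹ * (x * π b' * x⁻¹) = x * (π b * π b') * x⁻¹ := by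
        calc x * π b * x⁻¹ * (x * π b' * x⁻¹) = x * π b * (x⁻¹ * x) * π b' * x⁻¹ := by
              simp only [mul_assoc]
          _ = x * (π b * π b') * x⁻¹ := by rw [hx2, mul_one, mul_assoc x]
      rw [h1, hmul b b']
      split_ifs
      · rfl
      · rw [mul_zero, zero_mul]
    · intro b
      have h1 : LinearMap.range (Matrix.toLin' (x * π b * x⁻¹)) =
          (LinearMap.range (Matrix.toLin' (π b))).map (Matrix.toLin' x) := by
        have h2 : LinearMap.range (Matrix.toLin' x⁻¹) = ⊤ := by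
          rw [LinearMap.range_eq_top]
          intro v
          refine ⟨Matrix.toLin' x v, ?_⟩
          rw [← LinearMap.comp_apply, ← Matrix.toLin'_mul, hx2, Matrix.toLin'_one,
            LinearMap.id_apply]
        rw [Matrix.toLin'_mul, Matrix.toLin'_mul, LinearMap.range_comp, h2, Submodule.map_top,
          LinearMap.range_comp]
      rw [h1]
      refine hst _ ?_ ?_
      · rintro A hA _ ⟨v, rfl⟩
        refine ⟨A.mulVec v, ?_⟩
        rw [Matrix.toLin'_apply, Matrix.toLin'_apply, Matrix.mulVec_mulVec, Matrix.mulVec_mulVec,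
          (hcom b).1 A hA]
      · rintro e he _ ⟨v, rfl⟩
        refine ⟨e.mulVec v, ?_⟩
        rw [Matrix.toLin'_apply, Matrix.toLin'_apply, Matrix.mulVec_mulVec, Matrix.mulVec_mulVec,
          (hcom b).2 e he]
  have hodd := hM B (fun b => x * π b * x⁻¹) hdec
    (by
      intro L' hL' c u' hu' hne
      exact (hw L' (gT x⁻¹ u') (hkill L' (hL'.trans ((le_max_right L M).trans (le_max_left _ 2)))
        u' hu')).1 c ((Ktwo.word_iff hx1 hx2 π c u').1 hne))
  have hLm : L ≤ max (max L M) 2 := (le_max_left L M).trans (le_max_left _ 2)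
  refine Six.pos_of alg1 hE.sys (hE.nd L) hL.grp
    (T := {v : Ten I L | ∃ i, ∃ h : len i = L, v = h ▸ t i}) ?_ (hL.span L hLm) ?_ u hu hu0
  · rintro _ ⟨i, rfl, rfl⟩
    exact hL.mem i
  · rintro _ ⟨i, rfl, rfl⟩
    have h1 : gT x (s i) = t i := congrFun hL.eq i
    have h0 : gT x⁻¹ (t i) = s i := by rw [← h1, ← alg1.gT_mul, hx2, alg1.gT_one]
    have h3 : gT (Matrix.diagonal k) (s i) = s i := by
      have h4 := (hw (len i) (gT x⁻¹ (t i)) (hkill _ hLm (t i) (hL.mem i))).2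
        (fun c hc => hodd c (t i) (hL.mem i) ((Ktwo.word_iff hx1 hx2 π c (t i)).2 hc))
      rwa [h0] at h4
    have h2 : jT D (s i) = s i := (congrFun hL.key i).symm.trans h3
    change gT x (jT D (gT x⁻¹ (t i))) = t i
    rw [h0, h2, h1]

end Pool.Agent.Lib.MP_361a6f_ag.FL.E
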