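import Pool.Agent.Lib.MP_361a6f_ag.FL.E.DefsP
import Pool.Agent.Lib.MP_361a6f_ag.FL.E.LemR

/-!
# Theorem E+, row P5 in coordinates

In the situation of `FL/E/LemR.lean` the matrix `diag κ` acts by `c ^ L` on the tensors of length
`L` that are killed by `h`.
-/

set_option maxHeartbeats 400000

open Matrix

namespace Pool.Agent.Lib.MP_361a6f_ag.FL.E.LemR

/-- a partial character of the natural numbers is a power -/
theorem exists_pow (P : ℕ → ℂ → Prop) (h0 : P 0 1)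
    (huniq : ∀ L z z', P L z → P L z' → z = z')
    (hmul : ∀ L M z z', P L z → P M z' → P (L + M) (z * z'))
    (hne : ∀ L z, P L z → z ≠ 0) : ∃ c : ℂ, c ≠ 0 ∧ ∀ L z, P L z → z = c ^ L := by
  classical
  have hpow : ∀ (q L : ℕ) (z : ℂ), P L z → P (q * L) (z ^ q) := by
    intro q L z h
    induction q with
    | zero => simpa using h0
    | succ q ih =>
      have h1 := hmul _ _ _ _ ih h
      rw [← pow_succ, ← Nat.succ_mul] at h1
      exact h1
  by_cases hall : ∀ L z, P L z → L = 0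
  · refine ⟨1, one_ne_zero, fun L z h => ?_⟩
    have h1 := hall L z h
    subst h1
    rw [huniq 0 z 1 h h0, pow_zero]
  · push Not at hall
    obtain ⟨L0, z0, hP0, hL0⟩ := hall
    have hex : ∃ g : ℕ, 0 < g ∧ ∃ (L1 L2 : ℕ) (z1 z2 : ℂ), P L1 z1 ∧ P L2 z2 ∧ L1 = L2 + g :=
      ⟨L0, Nat.pos_of_ne_zero hL0, L0, 0, z0, 1, hP0, h0, (Nat.zero_add _).symm⟩
    obtain ⟨hg, L1, L2, z1, z2, h1, h2, h12⟩ := Nat.find_spec hex
    have hmin : ∀ r, r < Nat.find hex →
        ¬ (0 < r ∧ ∃ (L1 L2 : ℕ) (z1 z2 : ℂ), P L1 z1 ∧ P L2 z2 ∧ L1 = L2 + r) :=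
      fun r hr => Nat.find_min hex hr
    generalize Nat.find hex = g at hg h12 hmin
    have hz1 := hne _ _ h1
    have hz2 := hne _ _ h2
    obtain ⟨c, hc⟩ := IsAlgClosed.exists_pow_nat_eq (z1 / z2) hg
    have hc0 : c ≠ 0 := by
      rintro rfl
      rw [zero_pow hg.ne'] at hc
      exact div_ne_zero hz1 hz2 hc.symm
    refine ⟨c, hc0, fun L z h => ?_⟩
    obtain ⟨q, r, hr, hL⟩ : ∃ q r, r < g ∧ L = q * g + r :=
      ⟨L / g, L % g, Nat.mod_lt _ hg, by rw [mul_comm]; exact (Nat.div_add_mod L g).symm⟩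
    have h3 := hmul _ _ _ _ h (hpow q _ _ h2)
    have h4 := hpow q _ _ h1
    have h5 : L + q * L2 = q * L1 + r := by
      rw [h12, hL]
      ring
    rcases Nat.eq_zero_or_pos r with hr0 | hr0
    · subst hr0
      rw [h5, Nat.add_zero] at h3
      have h6 := huniq _ _ _ h3 h4
      have h7 : z = (z1 / z2) ^ q := by
        rw [div_pow, eq_div_iff (pow_ne_zero _ hz2)]
        exact h6
      rw [h7, ← hc, ← pow_mul, hL, Nat.add_zero, mul_comm]
    · exact absurd ⟨hr0, _, _, _, _, h3, h4, h5⟩ (hmin r hr)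

variable {I : Type} [Fintype I] [DecidableEq I]

/-- all letters are connected -/
theorem conn_all {S : Submodule ℂ (Matrix I I ℂ)} {k : I → ℂ} (hS : Sit S k)
    (hirr : ∀ J : Set I, J.Nonempty → J ≠ Set.univ → ∃ i, i ∉ J ∧ ∃ j ∈ J,
      (∃ X ∈ S, X i j ≠ 0) ∨ ((∀ T, diagonal T ∈ S → T i = T j) ∧ k i = k j)) (i j : I) :
    Conn S k i j := by
  have h1 : {i | Conn S k i j} = Set.univ := by
    by_contra hne
    obtain ⟨i, hi, l, hl, hX | ⟨hX1, hX2⟩⟩ := hirr {i | Conn S k i j} ⟨j, Conn.refl j⟩ hne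
    · obtain ⟨X, hXh, hXik⟩ := hX
      exact hi (Conn.step hS hXh hXik hl)
    · exact hi (Conn.same hX1 hX2 hl)
  have h2 : i ∈ {i | Conn S k i j} := by
    rw [h1]
    exact Set.mem_univ i
  exact h2

theorem gT_dg (l : I → ℂ) {L : ℕ} (u : Ten I L) (w : Fin L → I) :
    gT (diagonal l) u w = (∏ i, l (w i)) * u w := by
  simp only [gT]
  rw [Finset.sum_eq_single w]
  · simp [Matrix.diagonal_apply_eq]
  · intro w' _ hw'
    have : ∃ i, w i ≠ w' i := by
      by_contra hcon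
      push Not at hcon
      exact hw' (funext fun i => (hcon i).symm)
    obtain ⟨i, hi⟩ := this
    rw [Finset.prod_eq_zero (Finset.mem_univ i) (Matrix.diagonal_apply_ne l hi), zero_mul]
  · intro hw
    exact absurd (Finset.mem_univ w) hw

theorem aT_dg (a : I → ℂ) {L : ℕ} (u : Ten I L) (w : Fin L → I) :
    aT (diagonal a) u w = (∑ i, a (w i)) * u w := by
  simp only [aT]
  rw [Finset.sum_mul]
  refine Finset.sum_congr rfl fun i _ => ?_
  rw [Finset.sum_eq_single (w i)]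
  · rw [Matrix.diagonal_apply_eq, Function.update_eq_self]
  · intro j _ hj
    rw [Matrix.diagonal_apply_ne a (Ne.symm hj), zero_mul]
  · intro hw
    exact absurd (Finset.mem_univ _) hw

/-- P5 in coordinates -/
theorem coord (S : Submodule ℂ (Matrix I I ℂ)) (k : I → ℂ) (hS : Sit S k)
    (hirr : ∀ J : Set I, J.Nonempty → J ≠ Set.univ → ∃ i, i ∉ J ∧ ∃ j ∈ J,
      (∃ X ∈ S, X i j ≠ 0) ∨ ((∀ T, diagonal T ∈ S → T i = T j) ∧ k i = k j)) :
    ∃ c : ℂ, c ≠ 0 ∧ ∀ (L : ℕ) (u : Ten I L), (∀ A ∈ S, aT A u = 0) →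
      gT (diagonal k) u = c ^ L • u := by
  obtain ⟨c, hc0, hc⟩ := exists_pow
    (fun L z => ∃ w : Fin L → I, (∀ T, diagonal T ∈ S → ∑ j, T (w j) = 0) ∧ z = ∏ j, k (w j))
    ⟨Fin.elim0, by simp, by simp⟩
    (by
      rintro L z z' ⟨w, hw, rfl⟩ ⟨w', hw', rfl⟩
      exact prod_eq hS w w' (fun j => conn_all hS hirr _ _) fun T hT => by
        rw [hw T hT, hw' T hT])
    (by
      rintro L M z z' ⟨w, hw, rfl⟩ ⟨w', hw', rfl⟩
      refine ⟨Fin.append w w', fun T hT => ?_, ?_⟩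
      · rw [Fin.sum_univ_add]
        simp only [Fin.append_left, Fin.append_right]
        rw [hw T hT, hw' T hT, add_zero]
      · rw [Fin.prod_univ_add]
        simp only [Fin.append_left, Fin.append_right])
    (by
      rintro L z ⟨w, hw, rfl⟩
      exact Finset.prod_ne_zero_iff.2 fun j _ => hS.ne _)
  refine ⟨c, hc0, fun L u hu => ?_⟩
  funext w
  rw [gT_dg, Pi.smul_apply, smul_eq_mul]
  by_cases h0 : u w = 0
  · rw [h0, mul_zero, mul_zero]
  · congr 1
    refine hc L _ ⟨w, fun T hT => ?_, rfl⟩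
    have h1 := congrFun (hu _ hT) w
    rw [aT_dg] at h1
    exact (mul_eq_zero.1 h1).resolve_right h0

end Pool.Agent.Lib.MP_361a6f_ag.FL.E.LemR
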