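import Pool.Agent.Lib.MP_361a6f_ag.FL.E.LemC

/-!
# Theorem E, general form: Lemma R without irreducibility

In the situation of `FL/E/LemR.lean` there is a diagonal matrix `diag c`, constant on the connected
components of a relation `R` between the letters whose edges come from entries of elements of `h`
(or from letters that neither `h` nor `κ` separates), which acts as `diag κ` on all tensors killed
by `h`.
-/

set_option maxHeartbeats 400000
set_option linter.unusedSectionVars false

open Matrix

namespace Pool.Agent.Lib.MP_361a6f_ag.FL.E.LemR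

theorem exists_root (a : ℂˣ) {n : ℤ} (hn : n ≠ 0) : ∃ b : ℂˣ, b ^ n = a := by
  obtain ⟨b, hb⟩ := IsAlgClosed.exists_pow_nat_eq (a : ℂ) (Int.natAbs_pos.2 hn)
  have hb0 : b ≠ 0 := by
    rintro rfl
    rw [zero_pow (Int.natAbs_pos.2 hn).ne'] at hb
    exact a.ne_zero hb.symm
  have h1 : Units.mk0 b hb0 ^ n.natAbs = a := by
    apply Units.ext
    rw [Units.val_pow_eq_pow_val, Units.val_mk0]
    exact hb
  rcases Int.natAbs_eq n with h2 | h2
  · exact ⟨Units.mk0 b hb0, by rw [h2, zpow_natCast]; exact h1⟩
  · exact ⟨(Units.mk0 b hb0)⁻¹, by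
      rw [h2, _root_.zpow_neg, _root_.inv_zpow, inv_inv, zpow_natCast]
      exact h1⟩

/-- the multiplicative group of the complex numbers is divisible -/
noncomputable instance divC : DivisibleBy (Additive ℂˣ) ℤ where
  div a n := if h : n = 0 then 0 else
    Additive.ofMul (Classical.choose (exists_root (Additive.toMul a) h))
  div_zero a := by simp
  div_cancel := by
    intro n a hn
    rw [dif_neg hn, ← ofMul_zpow, Classical.choose_spec (exists_root (Additive.toMul a) hn),
      ofMul_toMul]

/-- extension of homomorphisms to the multiplicative group -/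
theorem exists_ext {A B : Type} [AddCommGroup A] [AddCommGroup B] (d : A →+ B)
    (g : A →+ Additive ℂˣ) (h : ∀ x, d x = 0 → g x = 0) :
    ∃ F : B →+ Additive ℂˣ, ∀ x, F (d x) = g x := by
  obtain ⟨F, hF⟩ := (Module.Baer.of_divisible (Additive ℂˣ)).extension_property_addMonoidHom
    (QuotientAddGroup.kerLift d) (QuotientAddGroup.kerLift_injective d)
    (QuotientAddGroup.lift d.ker g fun x hx => h x (AddMonoidHom.mem_ker.1 hx))
  refine ⟨F, fun x => ?_⟩
  have h1 := DFunLike.congr_fun hF (QuotientAddGroup.mk x)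
  exact h1

variable {I : Type} [Fintype I] [DecidableEq I]

variable {S : Submodule ℂ (Matrix I I ℂ)} {k : I → ℂ}

/-- sums of types with the products of their ratios -/
def QQ (S : Submodule ℂ (Matrix I I ℂ)) (k : I → ℂ) (β : (I → ℂ) → ℂ) (z : ℂˣ) : Prop :=
  ∃ s : Multiset (Tri I), (∀ p ∈ s, Hom S k p.1 p.2.1 p.2.2) ∧
    (∀ T, diagonal T ∈ S → β T = (s.map fun p => p.2.1 T).sum) ∧
    (z : ℂ) = (s.map fun p => p.2.2).prod

theorem QQ.zero {β : (I → ℂ) → ℂ} (h : ∀ T, diagonal T ∈ S → β T = 0) : QQ S k β 1 :=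
  ⟨0, by simp, fun T hT => by simpa using h T hT, by simp⟩

theorem QQ.congr {β β' : (I → ℂ) → ℂ} {z z' : ℂˣ} (h : QQ S k β z)
    (h1 : ∀ T, diagonal T ∈ S → β' T = β T) (h2 : z' = z) : QQ S k β' z' := by
  subst h2
  obtain ⟨s, hs1, hs2, hs3⟩ := h
  exact ⟨s, hs1, fun T hT => (h1 T hT).trans (hs2 T hT), hs3⟩

theorem QQ.add {β β' : (I → ℂ) → ℂ} {z z' : ℂˣ} (h : QQ S k β z) (h' : QQ S k β' z') :
    QQ S k (fun T => β T + β' T) (z * z') := by
  obtain ⟨s, hs1, hs2, hs3⟩ := h
  obtain ⟨s', hs1', hs2', hs3'⟩ := h'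
  refine ⟨s + s', ?_, ?_, ?_⟩
  · intro p hp
    rcases Multiset.mem_add.1 hp with hp | hp
    · exact hs1 p hp
    · exact hs1' p hp
  · intro T hT
    rw [Multiset.map_add, Multiset.sum_add, ← hs2 T hT, ← hs2' T hT]
  · rw [Multiset.map_add, Multiset.prod_add, ← hs3, ← hs3', Units.val_mul]

theorem Hom.star (hS : Sit S k) {x : Matrix I I ℂ} {α : (I → ℂ) → ℂ} {c : ℂ}
    (hx : Hom S k x α c) : Hom S k xᴴ (fun T => - α T) c⁻¹ := by
  have key : ∀ i j, xᴴ i j ≠ 0 → x j i ≠ 0 := by
    intro i j hij h0
    apply hij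
    rw [Matrix.conjTranspose_apply, h0, star_zero]
  refine ⟨hS.star _ hx.mem, ?_, ?_, ?_⟩
  · intro h0
    apply hx.ne
    rw [← Matrix.conjTranspose_conjTranspose x, h0, Matrix.conjTranspose_zero]
  · intro i j hij T hT
    linear_combination -(hx.wt j i (key i j hij) T hT)
  · intro i j hij
    have h1 := hx.kk j i (key i j hij)
    have h2 : c ≠ 0 := by
      rintro rfl
      rw [zero_mul] at h1
      exact hS.ne j h1
    rw [h1, ← mul_assoc, inv_mul_cancel₀ h2, one_mul]

theorem QQ.neg (hS : Sit S k) {β : (I → ℂ) → ℂ} {z : ℂˣ} (h : QQ S k β z) :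
    QQ S k (fun T => - β T) z⁻¹ := by
  obtain ⟨s, hs1, hs2, hs3⟩ := h
  refine ⟨s.map fun p : Tri I => (p.1ᴴ, (fun T => - p.2.1 T), p.2.2⁻¹), ?_, ?_, ?_⟩
  · intro q hq
    obtain ⟨p, hp, rfl⟩ := Multiset.mem_map.1 hq
    exact (hs1 p hp).star hS
  · intro T hT
    show - β T = _
    rw [Multiset.map_map, hs2 T hT, ← Multiset.sum_map_neg]
    rfl
  · rw [Multiset.map_map, Units.val_inv_eq_inv_val, hs3]
    have h1 := Multiset.prod_map_inv (m := s) (f := fun p : Tri I => p.2.2)
    rw [← h1]
    rfl

theorem QQ.uniq (hS : Sit S k) {β : (I → ℂ) → ℂ} {z : ℂˣ} (h : QQ S k β z)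
    (h0 : ∀ T, diagonal T ∈ S → β T = 0) : z = 1 := by
  obtain ⟨s, hs1, hs2, hs3⟩ := h
  apply Units.ext
  rw [hs3, Units.val_one]
  exact prod_one hS _ s rfl hs1 fun T hT => (hs2 T hT).symm.trans (h0 T hT)

theorem QQ.nsmul {β : (I → ℂ) → ℂ} {z : ℂˣ} (h : QQ S k β z) (n : ℕ) :
    QQ S k (fun T => (n : ℂ) * β T) (z ^ n) := by
  induction n with
  | zero => exact (QQ.zero (by simp)).congr (fun _ _ => rfl) (pow_zero z)
  | succ n ih =>
    refine (ih.add h).congr (fun T _ => ?_) (pow_succ z n)
    push_cast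
    ring

theorem QQ.zsmul (hS : Sit S k) {β : (I → ℂ) → ℂ} {z : ℂˣ} (h : QQ S k β z) (n : ℤ) :
    QQ S k (fun T => (n : ℂ) * β T) (z ^ n) := by
  rcases Int.eq_nat_or_neg n with ⟨m, rfl | rfl⟩
  · exact (h.nsmul m).congr (fun T _ => by push_cast; rfl) (zpow_natCast z m)
  · refine ((h.nsmul m).neg hS).congr (fun T _ => ?_) ?_
    · push_cast
      ring
    · rw [_root_.zpow_neg, zpow_natCast]

theorem QQ.sum {ι : Type} (F : Finset ι) {β : ι → (I → ℂ) → ℂ} {z : ι → ℂˣ}
    (h : ∀ i, QQ S k (β i) (z i)) : QQ S k (fun T => ∑ i ∈ F, β i T) (∏ i ∈ F, z i) := by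
  classical
  induction F using Finset.induction_on with
  | empty => exact (QQ.zero (by simp)).congr (fun _ _ => rfl) (by simp)
  | insert a F ha ih =>
    refine ((h a).add ih).congr (fun T _ => ?_) (Finset.prod_insert ha)
    rw [Finset.sum_insert ha]

/-- letters in the same component -/
theorem QQ.of_gen (hS : Sit S k) (R : I → I → Prop)
    (hR : ∀ i j, R i j → (∃ X ∈ S, X i j ≠ 0) ∨
      ((∀ T, diagonal T ∈ S → T i = T j) ∧ k i = k j)) {i j : I} (h : Relation.EqvGen R i j) :
    QQ S k (fun T => T i - T j) (Units.mk0 (k i) (hS.ne i) * (Units.mk0 (k j) (hS.ne j))⁻¹) := by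
  induction h with
  | rel i j hij =>
    rcases hR i j hij with ⟨X, hX, hXij⟩ | ⟨h1, h2⟩
    · obtain ⟨y, hy, -⟩ := exists_hom hS hX hXij
      refine ⟨{(y, (fun T => T i - T j), k i * (k j)⁻¹)}, ?_, ?_, ?_⟩
      · intro p hp
        rw [Multiset.mem_singleton] at hp
        subst hp
        exact hy
      · intro T _
        rw [Multiset.map_singleton, Multiset.sum_singleton]
      · rw [Multiset.map_singleton, Multiset.prod_singleton, Units.val_mul,
          Units.val_inv_eq_inv_val]
        rfl
    · refine (QQ.zero fun T hT => ?_).congr (fun _ _ => rfl) ?_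
      · rw [h1 T hT, sub_self]
      · rw [mul_inv_eq_one]
        exact Units.ext h2
  | refl i =>
    refine (QQ.zero fun T hT => ?_).congr (fun _ _ => rfl) ?_
    · rw [sub_self]
    · rw [mul_inv_cancel]
  | symm i j _ ih =>
    refine (ih.neg hS).congr (fun T _ => ?_) ?_
    · ring
    · rw [_root_.mul_inv_rev, inv_inv]
  | trans i j l _ _ ih1 ih2 =>
    refine (ih1.add ih2).congr (fun T _ => ?_) ?_
    · ring
    · rw [← mul_assoc, inv_mul_cancel_right]

/-- the words of weight zero in the free group on the letters -/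
def X0 (S : Submodule ℂ (Matrix I I ℂ)) : AddSubgroup (I → ℤ) where
  carrier := {x | ∀ T, diagonal T ∈ S → ∑ i, (x i : ℂ) * T i = 0}
  add_mem' := by
    intro x y hx hy T hT
    have h1 := hx T hT
    have h2 := hy T hT
    have h3 : ∑ i, ((x + y) i : ℂ) * T i = ∑ i, (x i : ℂ) * T i + ∑ i, (y i : ℂ) * T i := by
      rw [← Finset.sum_add_distrib]
      refine Finset.sum_congr rfl fun i _ => ?_
      rw [Pi.add_apply]
      push_cast
      ring
    rw [h3, h1, h2, add_zero]
  zero_mem' := by
    intro T _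
    simp
  neg_mem' := by
    intro x hx T hT
    have h1 := hx T hT
    have h3 : ∑ i, ((-x) i : ℂ) * T i = -∑ i, (x i : ℂ) * T i := by
      rw [← Finset.sum_neg_distrib]
      refine Finset.sum_congr rfl fun i _ => ?_
      rw [Pi.neg_apply]
      push_cast
      ring
    rw [h3, h1, neg_zero]

/-- the value of `k` on the free group on the letters -/
noncomputable def gk (k : I → ℂ) (hk : ∀ i, k i ≠ 0) : (I → ℤ) →+ Additive ℂˣ where
  toFun x := Additive.ofMul (∏ i, Units.mk0 (k i) (hk i) ^ x i)
  map_zero' := by simp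
  map_add' := by
    intro x y
    rw [← ofMul_mul, ← Finset.prod_mul_distrib]
    simp only [Pi.add_apply, _root_.zpow_add]

open Classical in
/-- the block degree -/
noncomputable def dg {B : Type} (q : I → B) : (I → ℤ) →+ (B → ℤ) where
  toFun x b := ∑ i, if q i = b then x i else 0
  map_zero' := by
    funext b
    simp
  map_add' := by
    intro x y
    funext b
    rw [Pi.add_apply, ← Finset.sum_add_distrib]
    refine Finset.sum_congr rfl fun i _ => ?_
    rw [Pi.add_apply]
    split_ifs
    · rfl
    · simp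

theorem prod_zpow_sum {G ι : Type} [CommGroup G] (F : Finset ι) (a : G) (f : ι → ℤ) :
    ∏ i ∈ F, a ^ f i = a ^ ∑ i ∈ F, f i := by
  classical
  induction F using Finset.induction_on with
  | empty => simp
  | insert i F hi ih => rw [Finset.prod_insert hi, Finset.sum_insert hi, _root_.zpow_add, ih]

/-- LEMMA R without irreducibility -/
theorem coordG (hS : Sit S k) (R : I → I → Prop)
    (hR : ∀ i j, R i j → (∃ X ∈ S, X i j ≠ 0) ∨
      ((∀ T, diagonal T ∈ S → T i = T j) ∧ k i = k j)) :
    ∃ c : I → ℂ, (∀ i, c i ≠ 0) ∧ (∀ i j, R i j → c i = c j) ∧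
      ∀ (L : ℕ) (u : Ten I L), (∀ A ∈ S, aT A u = 0) →
        gT (diagonal k) u = gT (diagonal c) u := by
  classical
  let B := Quot R
  let q : I → B := Quot.mk R
  let _ : Fintype B := Fintype.ofFinite _
  have hq : ∀ i, Relation.EqvGen R i (q i).out := by
    intro i
    exact Quot.eqvGen_exact (Quot.out_eq (q i)).symm
  obtain ⟨F, hF⟩ := exists_ext ((dg q).comp (X0 S).subtype) ((gk k hS.ne).comp (X0 S).subtype) (by
    rintro ⟨x, hx⟩ h0
    have h0' : ∀ b, ∑ i, (if q i = b then x i else 0) = 0 := fun b => congrFun h0 b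
    have h1 := QQ.sum (S := S) (k := k) Finset.univ
      fun i : I => (QQ.of_gen hS R hR (hq i)).zsmul hS (x i)
    have h2 : ∀ (G : Type) [CommGroup G] (f : B → G), ∏ i, f (q i) ^ x i = 1 := by
      intro G _ f
      have h3 : ∀ b, ∏ i, f b ^ (if q i = b then x i else 0) = 1 := by
        intro b
        rw [prod_zpow_sum, h0' b, zpow_zero]
      calc ∏ i, f (q i) ^ x i = ∏ i, ∏ b, f b ^ (if q i = b then x i else 0) := by
            refine Finset.prod_congr rfl fun i _ => ?_
            rw [Finset.prod_eq_single (q i)]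
            · rw [if_pos rfl]
            · intro b _ hb
              rw [if_neg (Ne.symm hb), zpow_zero]
            · intro h
              exact absurd (Finset.mem_univ _) h
        _ = ∏ b, ∏ i, f b ^ (if q i = b then x i else 0) := Finset.prod_comm
        _ = 1 := Finset.prod_eq_one fun b _ => h3 b
    have h3 : ∀ T : I → ℂ, ∑ i, (x i : ℂ) * T (q i).out = 0 := by
      intro T
      calc ∑ i, (x i : ℂ) * T (q i).out
          = ∑ i, ∑ b, ((if q i = b then x i else 0 : ℤ) : ℂ) * T b.out := by
            refine Finset.sum_congr rfl fun i _ => ?_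
            rw [Finset.sum_eq_single (q i)]
            · rw [if_pos rfl]
            · intro b _ hb
              rw [if_neg (Ne.symm hb), Int.cast_zero, zero_mul]
            · intro h
              exact absurd (Finset.mem_univ _) h
        _ = ∑ b, ∑ i, ((if q i = b then x i else 0 : ℤ) : ℂ) * T b.out := Finset.sum_comm
        _ = 0 := by
            refine Finset.sum_eq_zero fun b _ => ?_
            rw [← Finset.sum_mul, ← Int.cast_sum, h0' b, Int.cast_zero, zero_mul]
    have h4 := h1.uniq hS (by
      intro T hT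
      have h5 : ∑ i, (x i : ℂ) * (T i - T (q i).out) = 0 := by
        have h6 : ∑ i, (x i : ℂ) * (T i - T (q i).out)
            = ∑ i, (x i : ℂ) * T i - ∑ i, (x i : ℂ) * T (q i).out := by
          rw [← Finset.sum_sub_distrib]
          refine Finset.sum_congr rfl fun i _ => ?_
          ring
        rw [h6, hx T hT, h3 T, sub_zero]
      exact h5)
    have h5 : ∏ i, Units.mk0 (k i) (hS.ne i) ^ x i = 1 := by
      have h6 := h2 ℂˣ fun b => Units.mk0 (k b.out) (hS.ne b.out)
      have h7 : ∏ i, (Units.mk0 (k i) (hS.ne i) * (Units.mk0 (k (q i).out)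
          (hS.ne (q i).out))⁻¹) ^ x i = (∏ i, Units.mk0 (k i) (hS.ne i) ^ x i)
          * (∏ i, Units.mk0 (k (q i).out) (hS.ne (q i).out) ^ x i)⁻¹ := by
        rw [← Finset.prod_inv_distrib, ← Finset.prod_mul_distrib]
        refine Finset.prod_congr rfl fun i _ => ?_
        rw [_root_.mul_zpow, _root_.inv_zpow]
      rw [h7, h6, inv_one, mul_one] at h4
      exact h4
    show Additive.ofMul (∏ i, Units.mk0 (k i) (hS.ne i) ^ x i) = 0
    rw [h5, ofMul_one])
  let cu : I → ℂˣ := fun i => Additive.toMul (F (Pi.single (q i) 1))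
  refine ⟨fun i => (cu i : ℂ), fun i => (cu i).ne_zero, fun i j hij => ?_, fun L u hu => ?_⟩
  · have h1 : q i = q j := Quot.sound hij
    show (cu i : ℂ) = (cu j : ℂ)
    simp only [cu, h1]
  · funext w
    rw [gT_dg, gT_dg]
    by_cases h0 : u w = 0
    · rw [h0, mul_zero, mul_zero]
    · congr 1
      have hw : ∀ T, diagonal T ∈ S → ∑ j, T (w j) = 0 := by
        intro T hT
        have h1 := congrFun (hu _ hT) w
        rw [aT_dg] at h1
        exact (mul_eq_zero.1 h1).resolve_right h0
      let x : I → ℤ := ∑ j, Pi.single (w j) 1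
      have hx : x ∈ X0 S := by
        intro T hT
        have h1 : ∑ i, (x i : ℂ) * T i = ∑ j, T (w j) := by
          have h2 : ∀ i, (x i : ℂ) = ∑ j, (if i = w j then (1 : ℂ) else 0) := by
            intro i
            simp only [x, Finset.sum_apply, Pi.single_apply]
            push_cast
            rfl
          simp only [h2, Finset.sum_mul]
          rw [Finset.sum_comm]
          refine Finset.sum_congr rfl fun j _ => ?_
          rw [Finset.sum_eq_single (w j)]
          · rw [if_pos rfl, one_mul]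
          · intro i _ hi
            rw [if_neg hi, zero_mul]
          · intro h
            exact absurd (Finset.mem_univ _) h
        rw [h1, hw T hT]
      have h1 : F (dg q x) = gk k hS.ne x := hF ⟨x, hx⟩
      have h2 : gk k hS.ne x = Additive.ofMul (∏ j, Units.mk0 (k (w j)) (hS.ne (w j))) := by
        rw [map_sum, ofMul_prod]
        refine Finset.sum_congr rfl fun j _ => ?_
        show Additive.ofMul (∏ i, Units.mk0 (k i) (hS.ne i) ^ (Pi.single (w j) (1 : ℤ) : I → ℤ) i)
          = _
        congr 1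
        rw [Finset.prod_eq_single (w j)]
        · rw [Pi.single_eq_same, zpow_one]
        · intro i _ hi
          rw [Pi.single_eq_of_ne hi, zpow_zero]
        · intro h
          exact absurd (Finset.mem_univ _) h
      have h3 : F (dg q x) = Additive.ofMul (∏ j, cu (w j)) := by
        rw [map_sum, map_sum, ofMul_prod]
        refine Finset.sum_congr rfl fun j _ => ?_
        have h4 : dg q (Pi.single (w j) 1) = Pi.single (q (w j)) 1 := by
          funext b
          show ∑ i, (if q i = b then (Pi.single (w j) (1 : ℤ) : I → ℤ) i else 0) = _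
          rw [Finset.sum_eq_single (w j)]
          · rw [Pi.single_eq_same, Pi.single_apply]
            by_cases hb : q (w j) = b
            · rw [if_pos hb, if_pos hb.symm]
            · rw [if_neg hb, if_neg (Ne.symm hb)]
          · intro i _ hi
            rw [Pi.single_eq_of_ne hi, ite_self]
          · intro h
            exact absurd (Finset.mem_univ _) h
        rw [h4]
        rfl
      have h4 : (∏ j, Units.mk0 (k (w j)) (hS.ne (w j))) = ∏ j, cu (w j) :=
        Additive.ofMul.injective (h2.symm.trans (h1.symm.trans h3))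
      have h5 := congrArg (fun z : ℂˣ => (z : ℂ)) h4
      simp only [Units.coe_prod] at h5
      exact h5

end Pool.Agent.Lib.MP_361a6f_ag.FL.E.LemR
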