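import Pool.Agent.Lib.MP_361a6f_ag.FL.E.Defs
import Pool.Agent.Lib.MP_361a6f_ag.FL.A.Prj
import Pool.Agent.Lib.MP_361a6f_ag.FL.Al1a
import Pool.Agent.Lib.MP_361a6f_ag.FL.Al1b
import Pool.Agent.Lib.MP_361a6f_ag.FL.O.T2
import Pool.Agent.Lib.MP_54168f_ag.IsoBlock
import Pool.Agent.Lib.MP_54168f_ag.Optimal
import Pool.Agent.Lib.MP_54168f_ag.Val
import Pool.Agent.Lib.MP_54168f_ag.Closed

/-!
# Nondegeneracy of a system of tensors on one odd letter

If no proper subspace stable under a set of matrices preserving the system contains its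
orthogonal, then the form is nondegenerate on the complex span of the system, in every length.
-/

open Matrix

set_option linter.unusedSectionVars false

namespace Pool.Agent.Lib.MP_361a6f_ag.FL.E.Nd

open Pool.Agent.Lib.MP_54168f_ag (Tens ev tmul tcontr Cl Feas NonPos Bdd full_zero
  exists_feasible exists_optimal slots_act eq_zero_of_ev nonPos_eq_top mem_nonPos)
open OL (CA)
open AL1A (gT_mul gT_add gT_smul)
open AL1B (gT_one)

variable {I Λ : Type} [Fintype I] [DecidableEq I] [DecidableEq Λ] {D : Dat I Λ}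
  {At : (L : ℕ) → Ten I L → Prop}

/-! ### Matrices -/

section mat

variable (D)

theorem Psi_mul (M : Matrix I I ℂ) (i j : I) : (Psi D * M) i j = D.s i * M (D.τ i) j := by
  rw [Matrix.mul_apply, Finset.sum_eq_single (D.τ i)]
  · simp [Psi]
  · intro b _ hb
    simp [Psi, hb]
  · intro h; exact absurd (Finset.mem_univ _) h

theorem PsiT_mul (M : Matrix I I ℂ) (i j : I) :
    ((Psi D).transpose * M) i j = D.s (D.τ i) * M (D.τ i) j := by
  rw [Matrix.mul_apply, Finset.sum_eq_single (D.τ i)]
  · simp [Psi, D.τ_τ]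
  · intro b _ hb
    have : ¬ i = D.τ b := fun h => hb (by rw [h, D.τ_τ])
    simp [Psi, this]
  · intro h; exact absurd (Finset.mem_univ _) h

theorem mul_Psi (M : Matrix I I ℂ) (i j : I) :
    (M * Psi D) i j = M i (D.τ j) * D.s (D.τ j) := by
  rw [Matrix.mul_apply, Finset.sum_eq_single (D.τ j)]
  · simp [Psi, D.τ_τ]
  · intro b _ hb
    have : ¬ j = D.τ b := fun h => hb (by rw [h, D.τ_τ])
    simp [Psi, this]
  · intro h; exact absurd (Finset.mem_univ _) h

theorem PsiT_mul_Psi : (Psi D).transpose * Psi D = 1 := by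
  ext i j
  rw [PsiT_mul, Matrix.one_apply]
  by_cases h : i = j
  · subst h
    simp [Psi, D.τ_τ, AL2.s_mul_s]
  · have : ¬ j = D.τ (D.τ i) := fun h1 => h (by rw [h1, D.τ_τ])
    simp [Psi, this, h]

variable {D}

/-- the adjoint for `ψ` -/
noncomputable def dag (D : Dat I Λ) (g : Matrix I I ℂ) : Matrix I I ℂ :=
  (Psi D).transpose * g.transpose * Psi D

variable (ho : ∀ i, D.odd (D.typ i))

include ho

theorem s_tau (i : I) : D.s (D.τ i) = -D.s i := (D.odd_τ i (ho i)).2

theorem PsiT_eq : (Psi D).transpose = -Psi D := by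
  ext i j
  rw [Matrix.transpose_apply, Matrix.neg_apply]
  by_cases h : j = D.τ i
  · subst h
    simp [Psi, D.τ_τ, s_tau ho]
  · have : ¬ i = D.τ j := fun h1 => h (by rw [h1, D.τ_τ])
    simp [Psi, this, h]

theorem Psi_mul_Psi : Psi D * Psi D = -1 := by
  have h := PsiT_mul_Psi D
  rw [PsiT_eq ho, Matrix.neg_mul] at h
  rw [← h, neg_neg]

theorem dag_dag (g : Matrix I I ℂ) : dag D (dag D g) = g := by
  unfold dag
  rw [Matrix.transpose_mul, Matrix.transpose_mul, Matrix.transpose_transpose,
    Matrix.transpose_transpose, PsiT_eq ho]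
  have h := Psi_mul_Psi ho
  calc -Psi D * (-Psi D * (g * Psi D)) * Psi D
      = (Psi D * Psi D) * g * (Psi D * Psi D) := by noncomm_ring
    _ = g := by rw [h]; simp

theorem dag_mul (g h : Matrix I I ℂ) : dag D (g * h) = dag D h * dag D g := by
  unfold dag
  rw [Matrix.transpose_mul, PsiT_eq ho]
  have h0 := Psi_mul_Psi ho
  calc -Psi D * (h.transpose * g.transpose) * Psi D
      = -Psi D * h.transpose * 1 * (g.transpose * Psi D) := by noncomm_ring
    _ = -Psi D * h.transpose * (-(Psi D * Psi D)) * (g.transpose * Psi D) := by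
        rw [h0, neg_neg]
    _ = _ := by noncomm_ring

theorem dag_one : dag D (1 : Matrix I I ℂ) = 1 := by
  unfold dag
  rw [Matrix.transpose_one, Matrix.mul_one, PsiT_mul_Psi]

theorem Psi_mul_eq (g : Matrix I I ℂ) : Psi D * g = (dag D g).transpose * Psi D := by
  unfold dag
  rw [Matrix.transpose_mul, Matrix.transpose_mul, Matrix.transpose_transpose,
    Matrix.transpose_transpose, PsiT_eq ho, Matrix.neg_mul, Matrix.neg_mul, Matrix.mul_assoc,
    Matrix.mul_assoc, Psi_mul_Psi ho]
  noncomm_ring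

end mat

/-! ### Closure of the spans -/

theorem sub_CA {L : ℕ} {u : Ten I L} (h : At L u) : u ∈ CA At L := Submodule.subset_span h

theorem reix (S : ASys D At) {a b : ℕ} (e : Fin a ≃ Fin b) {u : Ten I a} (hu : u ∈ CA At a) :
    (fun z : Fin b → I => u (z ∘ e)) ∈ CA At b := by
  obtain rfl : a = b := by simpa using Fintype.card_congr e
  unfold CA at hu ⊢
  induction hu using Submodule.span_induction with
  | mem u hu => exact Submodule.subset_span (S.perm _ e _ hu)
  | zero => exact zero_mem _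
  | add x y _ _ hx hy => exact add_mem hx hy
  | smul c x _ hx => exact Submodule.smul_mem _ c hx

/-- contraction of the last slots -/
noncomputable def contR (D : Dat I Λ) {p c : ℕ} (v : Ten I c) (m : Ten I (p + c)) : Ten I p :=
  fun w => ∑ b : Fin c → I, sg D b * (v b * m (Fin.append w (D.τ ∘ b)))

theorem append_flip {p c : ℕ} (a : Fin p → I) (b : Fin c → I) :
    Fin.append b a ∘ (finAddFlip : Fin (p + c) ≃ Fin (c + p)) = Fin.append a b := by
  funext i
  refine Fin.addCases (fun k => ?_) (fun k => ?_) i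
  · rw [Function.comp_apply, finAddFlip_apply_castAdd, Fin.append_right, Fin.append_left]
  · rw [Function.comp_apply, finAddFlip_apply_natAdd, Fin.append_left, Fin.append_right]

theorem contR_eq {p c : ℕ} (v : Ten I c) (m : Ten I (p + c)) :
    contR D v m = cont D v (fun z : Fin (c + p) → I => m (z ∘ finAddFlip)) := by
  funext w
  simp only [contR, cont, append_flip]

theorem contR_mem (S : ASys D At) {p c : ℕ} {v : Ten I c} (hv : v ∈ CA At c)
    {m : Ten I (p + c)} (hm : m ∈ CA At (p + c)) : contR D v m ∈ CA At p := by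
  rw [contR_eq]
  exact T2A.cont_mem S _ _ _ hv _ (reix S finAddFlip hm)

theorem psi_outer {p c : ℕ} (u : Ten I p) (v : Ten I c) (m : Ten I (p + c)) :
    psiT D (outer u v) m = psiT D u (contR D v m) := by
  unfold psiT contR
  rw [AL2.sum_append]
  refine Finset.sum_congr rfl fun a _ => ?_
  rw [Finset.mul_sum, Finset.mul_sum]
  refine Finset.sum_congr rfl fun b _ => ?_
  rw [AL2.sg_append, AL2.tau_append]
  simp only [outer, Fin.append_left, Fin.append_right]
  ring

theorem psi_contR (ho : ∀ i, D.odd (D.typ i)) {p : ℕ} (v : Ten I 2) (m : Ten I (p + 2))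
    (u : Ten I p) : psiT D (contR D v m) u = psiT D m (outer u v) := by
  unfold psiT contR
  rw [AL2.sum_append]
  refine Finset.sum_congr rfl fun a _ => ?_
  rw [Finset.sum_mul, Finset.mul_sum]
  rw [← (Equiv.arrowCongr (Equiv.refl (Fin 2)) (Function.Involutive.toPerm D.τ D.τ_τ)).sum_comp]
  refine Finset.sum_congr rfl fun b _ => ?_
  have e1 : (Equiv.arrowCongr (Equiv.refl (Fin 2)) (Function.Involutive.toPerm D.τ D.τ_τ)) b =
    D.τ ∘ b := rfl
  have e2 : D.τ ∘ (D.τ ∘ b) = b := by funext i; simp [D.τ_τ]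
  have e3 : sg D (D.τ ∘ b) = sg D b := by
    simp [sg, Fin.prod_univ_two, s_tau ho]
  rw [e1, e2, e3, AL2.sg_append, AL2.tau_append]
  simp only [outer, Fin.append_left, Fin.append_right]
  ring

/-! ### The kernels -/

/-- the kernel of the form on the complex span -/
def Kr (D : Dat I Λ) (At : (L : ℕ) → Ten I L → Prop) (n : ℕ) : Submodule ℂ (Ten I n) where
  carrier := {u | u ∈ CA At n ∧ ∀ v ∈ CA At n, psiT D u v = 0}
  add_mem' := by
    intro a b ha hb
    refine ⟨add_mem ha.1 hb.1, fun v hv => ?_⟩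
    have := ha.2 v hv
    have := hb.2 v hv
    change Qps.psiL D n (a + b) v = 0
    rw [map_add, LinearMap.add_apply]
    change psiT D a v + psiT D b v = 0
    rw [ha.2 v hv, hb.2 v hv, add_zero]
  zero_mem' := by
    refine ⟨zero_mem _, fun v _ => ?_⟩
    change Qps.psiL D n 0 v = 0
    rw [map_zero]; rfl
  smul_mem' := by
    intro c a ha
    refine ⟨Submodule.smul_mem _ c ha.1, fun v hv => ?_⟩
    change Qps.psiL D n (c • a) v = 0
    rw [map_smul, LinearMap.smul_apply]
    change c • psiT D a v = 0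
    rw [ha.2 v hv, smul_zero]

/-- the matrix of a tensor of length two -/
def tm (t : Ten I 2) : Matrix I I ℂ := Matrix.of fun i j => t ![i, j]

/-- the bivectors -/
def CC (D : Dat I Λ) (At : (L : ℕ) → Ten I L → Prop) : Set (I → I → ℂ) :=
  {c | ∃ t ∈ CA At 2, c = (Psi D).transpose * tm t * Psi D}

theorem tcontr_eq {n : ℕ} (u : Ten I (n + 2)) (t : Ten I 2) :
    tcontr u ((Psi D).transpose * tm t * Psi D : Matrix I I ℂ) = contR D t u := by
  funext w
  unfold tcontr contR
  rw [← (Equiv.arrowCongr (Equiv.refl (Fin 2)) (Function.Involutive.toPerm D.τ D.τ_τ)).sum_comp,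
    ← (finTwoArrowEquiv I).symm.sum_comp, Fintype.sum_prod_type]
  refine Finset.sum_congr rfl fun i _ => Finset.sum_congr rfl fun j _ => ?_
  have e1 : (Equiv.arrowCongr (Equiv.refl (Fin 2)) (Function.Involutive.toPerm D.τ D.τ_τ))
    ((finTwoArrowEquiv I).symm (i, j)) = ![D.τ i, D.τ j] := by
    funext k
    fin_cases k <;> rfl
  have e2 : D.τ ∘ ![D.τ i, D.τ j] = ![i, j] := by
    funext k
    fin_cases k <;> simp [D.τ_τ]
  rw [e1, e2, mul_Psi, PsiT_mul]
  simp only [tm, Matrix.of_apply, sg, Fin.prod_univ_two, Matrix.cons_val_zero,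
    Matrix.cons_val_one]
  ring

theorem cl_B (S : ASys D At) :
    Cl (fun n => ((CA At n : Submodule ℂ (Ten I n)) : Set (Ten I n)))
      (fun n => ((CA At n : Submodule ℂ (Ten I n)) : Set (Ten I n))) (CC D At) where
  mul := fun u v hu hv => T2A.outer_mem S _ _ u hu v hv
  perm := fun u hu e => ⟨1, one_ne_zero, by
    simp only [one_mul]
    exact reix S e hu⟩
  contr := by
    rintro n u hu c ⟨t, ht, rfl⟩
    rw [tcontr_eq]
    exact contR_mem S ht hu

theorem cl_A (S : ASys D At) (ho : ∀ i, D.odd (D.typ i)) :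
    Cl (fun n => ((Kr D At n : Submodule ℂ (Ten I n)) : Set (Ten I n)))
      (fun n => ((CA At n : Submodule ℂ (Ten I n)) : Set (Ten I n))) (CC D At) where
  mul := by
    intro n m u v hu hv
    refine ⟨T2A.outer_mem S _ _ u hu.1 v hv, fun w hw => ?_⟩
    change psiT D (outer u v) w = 0
    rw [psi_outer]
    exact hu.2 _ (contR_mem S hv hw)
  perm := by
    intro n u hu e
    refine ⟨1, one_ne_zero, ?_⟩
    simp only [one_mul]
    refine ⟨reix S e hu.1, fun w hw => ?_⟩
    change psiT D (permT e u) w = 0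
    rw [psiT_permT]
    exact hu.2 _ (reix S e⁻¹ hw)
  contr := by
    rintro n u hu c ⟨t, ht, rfl⟩
    rw [tcontr_eq]
    refine ⟨contR_mem S ht hu.1, fun w hw => ?_⟩
    rw [psi_contR ho]
    exact hu.2 _ (T2A.outer_mem S _ _ w hw t ht)

theorem kr_zero (S : ASys D At) (u : Ten I 0) (hu : u ∈ Kr D At 0) : u = 0 := by
  have h := hu.2 _ (sub_CA S.one)
  unfold psiT at h
  funext w
  rw [Fintype.sum_eq_single w (fun w' hw => absurd (Subsingleton.elim _ _) hw)] at h
  simpa [sg] using h

/-! ### Matrices preserving the spans -/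

/-- `g` is invertible and preserves the spans together with its adjoint -/
structure Pres (D : Dat I Λ) (At : (L : ℕ) → Ten I L → Prop) (g : Matrix I I ℂ) : Prop where
  unit : IsUnit g.det
  mem : ∀ n, ∀ u ∈ CA At n, gT g u ∈ CA At n
  mem' : ∀ n, ∀ u ∈ CA At n, gT (dag D g) u ∈ CA At n

theorem psi_dot {n : ℕ} (u v : Ten I n) : psiT D u v = ∑ w, u w * gT (Psi D) v w := by
  unfold psiT
  refine Finset.sum_congr rfl fun w _ => ?_
  have : gT (Psi D) v w = sg D w * v (D.τ ∘ w) := by
    unfold gT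
    rw [Finset.sum_eq_single (D.τ ∘ w)]
    · congr 1
      unfold sg
      exact Finset.prod_congr rfl fun i _ => by simp [Psi]
    · intro b _ hb
      have : ∃ i, b i ≠ D.τ (w i) := by
        by_contra hcon
        push Not at hcon
        exact hb (funext hcon)
      obtain ⟨i, hi⟩ := this
      rw [Finset.prod_eq_zero (Finset.mem_univ i) (by simp [Psi, hi]), zero_mul]
    · intro h; exact absurd (Finset.mem_univ _) h
  rw [this]
  ring

theorem dot_gT {n : ℕ} (g : Matrix I I ℂ) (u v : Ten I n) :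
    ∑ w, gT g u w * v w = ∑ w, u w * gT g.transpose v w := by
  unfold gT
  simp only [Finset.sum_mul, Finset.mul_sum]
  rw [Finset.sum_comm]
  refine Finset.sum_congr rfl fun w _ => Finset.sum_congr rfl fun w' _ => ?_
  simp only [Matrix.transpose_apply]
  ring

theorem psi_gT (ho : ∀ i, D.odd (D.typ i)) {n : ℕ} (g : Matrix I I ℂ) (u v : Ten I n) :
    psiT D (gT g u) v = psiT D u (gT (dag D g) v) := by
  have h := Psi_mul_eq ho (dag D g)
  rw [dag_dag ho] at h
  rw [psi_dot, psi_dot, dot_gT, ← gT_mul, ← gT_mul, h]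

theorem Pres.dag (ho : ∀ i, D.odd (D.typ i)) {g : Matrix I I ℂ} (h : Pres D At g) :
    Pres D At (dag D g) where
  unit := by
    unfold Nd.dag
    rw [Matrix.det_mul, Matrix.det_mul, Matrix.det_transpose, Matrix.det_transpose]
    have h1 := congrArg Matrix.det (PsiT_mul_Psi D)
    rw [Matrix.det_mul, Matrix.det_transpose, Matrix.det_one] at h1
    have h2 : (Psi D).det * g.det * (Psi D).det = g.det * ((Psi D).det * (Psi D).det) := by ring
    rw [h2, h1, mul_one]
    exact h.unit
  mem := h.mem'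
  mem' := by rw [dag_dag ho]; exact h.mem

theorem Pres.kr (ho : ∀ i, D.odd (D.typ i)) {g : Matrix I I ℂ} (h : Pres D At g) {n : ℕ}
    {u : Ten I n} (hu : u ∈ Kr D At n) : gT g u ∈ Kr D At n :=
  ⟨h.mem n u hu.1, fun v hv => by rw [psi_gT ho]; exact hu.2 _ (h.mem' n v hv)⟩

/-- the inverse of the adjoint preserves the span of length two -/
theorem Pres.inv {g : Matrix I I ℂ} (h : Pres D At g) {N : Matrix I I ℂ} (hN : N * g = 1)
    {n : ℕ} {u : Ten I n} (hu : u ∈ CA At n) : gT N u ∈ CA At n := by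
  let f : CA At n →ₗ[ℂ] CA At n :=
    { toFun := fun u => ⟨gT g u.1, h.mem n _ u.2⟩
      map_add' := fun a b => Subtype.ext (gT_add g a.1 b.1)
      map_smul' := fun c a => Subtype.ext (gT_smul g c a.1) }
  have hf : Function.Injective f := by
    intro a b hab
    have h1 : gT g a.1 = gT g b.1 := congrArg Subtype.val hab
    have h2 := congrArg (gT N) h1
    rw [← gT_mul, ← gT_mul, hN, gT_one, gT_one] at h2
    exact Subtype.ext h2
  obtain ⟨v, hv⟩ := (LinearMap.injective_iff_surjective.1 hf) ⟨u, hu⟩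
  have h1 : gT g v.1 = u := congrArg Subtype.val hv
  rw [← h1, ← gT_mul, hN, gT_one]
  exact v.2

/-! ### The form is nondegenerate -/

theorem tm_gT (g : Matrix I I ℂ) (t : Ten I 2) : tm (gT g t) = g * tm t * g.transpose := by
  ext i j
  rw [Matrix.mul_apply]
  simp only [tm, Matrix.of_apply, gT, Matrix.mul_apply, Matrix.transpose_apply, Finset.sum_mul]
  rw [← (finTwoArrowEquiv I).symm.sum_comp, Fintype.sum_prod_type, Finset.sum_comm]
  refine Finset.sum_congr rfl fun b _ => Finset.sum_congr rfl fun a _ => ?_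
  have e : (finTwoArrowEquiv I).symm (a, b) = ![a, b] := by
    funext k
    fin_cases k <;> rfl
  rw [e]
  simp only [Fin.prod_univ_two, Matrix.cons_val_zero, Matrix.cons_val_one]
  ring

theorem tm_om (he : ∀ i j, D.typ i = D.typ j) (a : I) : tm (om D (D.typ a)) = Psi D := by
  ext i j
  simp [tm, om, Psi, he i a]

/-- **Main theorem.**  If no proper subspace which is stable under matrices preserving the system
contains its orthogonal, then the form is nondegenerate on the complex span. -/
theorem kr_eq_zero (S : ASys D At) (ho : ∀ i, D.odd (D.typ i)) (he : ∀ i j, D.typ i = D.typ j)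
    (G : Set (Matrix I I ℂ)) (hG : ∀ g ∈ G, Pres D At g)
    (H : ∀ U : Submodule ℂ (I → ℂ), (∀ g ∈ G, ∀ v ∈ U, g *ᵥ v ∈ U) →
      (∀ u, (∀ v ∈ U, v ⬝ᵥ (Psi D *ᵥ u) = 0) → u ∈ U) → U = ⊤)
    (n : ℕ) (t : Ten I n) (ht : t ∈ Kr D At n) : t = 0 := by
  classical
  obtain ⟨L0, _, _, p0, q0, w0, hF0⟩ := exists_feasible
    ((Kr D At n : Submodule ℂ (Ten I n)) : Set (Ten I n)) (CC D At)
    fun m l hm τ hτ cc hcc e => full_zero (cl_A S ho)
      (fun n u hu => hu.1) (fun u hu => kr_zero S u hu) n m l hm τ hτ cc hcc e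
  obtain ⟨p1, q1, hF1⟩ := hF0.descend (Ω := ℂ)
  obtain ⟨p, q, wt, hF, hopt⟩ := exists_optimal (L := ℂ) ⟨p1, q1, w0, hF1⟩
  have hpq := hF.pq
  have hid : ∀ M : Matrix I I ℂ, M.map (algebraMap ℂ ℂ) = M := fun M => by
    ext i j; rfl
  -- stability
  have hst : ∀ g, Pres D At g → ∀ v ∈ NonPos wt q, g.transpose *ᵥ v ∈ NonPos wt q := by
    intro g hg v hv
    refine NonPos.stable hpq ?_ hv
    have hu : IsUnit g.transpose.det := by rw [Matrix.det_transpose]; exact hg.unit
    have h1 := hopt g.transpose g.transpose⁻¹ (Matrix.mul_nonsing_inv _ hu) ?_ ?_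
    · intro x y hxy
      refine h1 x y ?_
      rw [hid]
      exact hxy
    · intro t ht
      refine Submodule.subset_span ?_
      change gT g t ∈ Kr D At n
      exact hg.kr ho ht
    · rintro c ⟨t, ht, rfl⟩
      refine Submodule.subset_span ?_
      set N : Matrix I I ℂ := g⁻¹ with hN
      have hNg : g.transpose⁻¹ = N.transpose := by rw [hN, Matrix.transpose_nonsing_inv]
      have h2 : dag D N * dag D g = 1 := by
        rw [← dag_mul ho, hN, Matrix.mul_nonsing_inv _ hg.unit, dag_one ho]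
      refine ⟨gT (dag D N) t, (hg.dag ho).inv h2 ht, ?_⟩
      rw [tm_gT]
      have h3 : (Psi D).transpose * (dag D N * tm t * (dag D N).transpose) * Psi D =
          N.transpose * ((Psi D).transpose * tm t * Psi D) * N := by
        have h4 : (Psi D).transpose * dag D N = N.transpose * (Psi D).transpose := by
          have h5 := congrArg Matrix.transpose (Psi_mul_eq ho N)
          rw [Matrix.transpose_mul, Matrix.transpose_mul, Matrix.transpose_transpose] at h5
          exact h5.symm
        calc (Psi D).transpose * (dag D N * tm t * (dag D N).transpose) * Psi D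
            = ((Psi D).transpose * dag D N) * tm t * ((dag D N).transpose * Psi D) := by
              noncomm_ring
          _ = _ := by rw [h4, ← Psi_mul_eq ho]; noncomm_ring
      rw [h3]
      funext x y
      rw [hNg, Matrix.mul_apply]
      rw [Finset.sum_comm]
      refine Finset.sum_congr rfl fun y' _ => ?_
      rw [Matrix.mul_apply, Finset.sum_mul]
      refine Finset.sum_congr rfl fun x' _ => ?_
      rw [Matrix.transpose_apply, Matrix.transpose_apply]
      ring
  -- the subspace
  let U : Submodule ℂ (I → ℂ) := (NonPos wt q).comap (Psi D).mulVecLin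
  have hU : ∀ v, v ∈ U ↔ Psi D *ᵥ v ∈ NonPos wt q := fun v => Iff.rfl
  have hUtop : U = ⊤ := by
    refine H U ?_ ?_
    · intro g hg v hv
      rw [hU] at hv ⊢
      rw [Matrix.mulVec_mulVec, Psi_mul_eq ho, ← Matrix.mulVec_mulVec]
      exact hst _ ((hG g hg).dag ho) _ hv
    · intro u hu
      by_cases hI : IsEmpty I
      · have : u = 0 := Subsingleton.elim _ _
        rw [this]; exact zero_mem _
      · obtain ⟨a⟩ := not_isEmpty_iff.1 hI
        rw [hU]
        refine NonPos.biv hpq (C := Psi D) (fun x y hxy => ?_) (fun v hv => ?_)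
        · have hmem : (Psi D : I → I → ℂ) ∈ CC D At := by
            refine ⟨om D (D.typ a), sub_CA (S.om _), ?_⟩
            rw [tm_om he, PsiT_mul_Psi, Matrix.one_mul]
          refine hF.biv (Psi D) hmem x y fun h0 => hxy ?_
          rw [← h0, Matrix.mul_apply, Finset.sum_comm]
          refine Finset.sum_congr rfl fun y' _ => ?_
          rw [Matrix.mul_apply, Finset.sum_mul]
          refine Finset.sum_congr rfl fun x' _ => ?_
          rw [Matrix.transpose_apply]
          change q x x' * Psi D x' y' * q y y' = q x x' * q y y' * Psi D x' y'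
          ring
        · have h1 : -(Psi D *ᵥ v) ∈ U := by
            rw [hU, Matrix.mulVec_neg, Matrix.mulVec_mulVec, Psi_mul_Psi ho, Matrix.neg_mulVec,
              Matrix.one_mulVec, neg_neg]
            exact hv
          have h2 := hu _ h1
          rw [neg_dotProduct, neg_eq_zero, Matrix.dotProduct_mulVec, ← Matrix.mulVec_transpose,
            Matrix.mulVec_mulVec, PsiT_mul_Psi, Matrix.one_mulVec] at h2
          rw [dotProduct_comm]
          exact h2
  have hFtop : NonPos wt q = ⊤ := by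
    rw [eq_top_iff]
    intro v _
    have h1 : -(Psi D *ᵥ v) ∈ U := by rw [hUtop]; exact Submodule.mem_top
    rw [hU, Matrix.mulVec_neg, Matrix.mulVec_mulVec, Psi_mul_Psi ho, Matrix.neg_mulVec,
      Matrix.one_mulVec, neg_neg] at h1
    exact h1
  have hw : ∀ x, wt x ≤ 0 := nonPos_eq_top hpq hFtop
  -- conclusion
  have hUn : IsUnit p.det := by
    rw [← Matrix.isUnit_iff_isUnit_det]
    exact IsUnit.of_mul_eq_one _ hpq
  let bas : Module.Basis I ℂ (I → ℂ) :=
    (Pi.basisFun ℂ I).map (Matrix.toLinearEquiv' p ((Matrix.invertibleOfIsUnitDet p hUn)))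
  have hbas : ∀ y, bas y = fun x => p x y := by
    intro y
    rw [Module.Basis.map_apply, Pi.basisFun_apply]
    change p *ᵥ (Pi.single y 1) = _
    rw [Matrix.mulVec_single_one]
    rfl
  refine eq_zero_of_ev bas t fun κ => ?_
  by_contra hne
  have h1 := hF.tens t ht κ (by simpa only [hbas] using hne)
  have h2 : ∑ a, wt (κ a) ≤ 0 := Finset.sum_nonpos fun a _ => hw _
  linarith

/-- **Nondegeneracy.** -/
theorem nd (S : ASys D At) (ho : ∀ i, D.odd (D.typ i)) (he : ∀ i j, D.typ i = D.typ j)
    (G : Set (Matrix I I ℂ)) (hG : ∀ g ∈ G, Pres D At g)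
    (H : ∀ U : Submodule ℂ (I → ℂ), (∀ g ∈ G, ∀ v ∈ U, g *ᵥ v ∈ U) →
      (∀ u, (∀ v ∈ U, v ⬝ᵥ (Psi D *ᵥ u) = 0) → u ∈ U) → U = ⊤)
    (L : ℕ) (u : Ten I L) (hu : u ∈ Submodule.span ℂ {u | At L u}) (h0 : u ≠ 0) :
    ∃ v ∈ Submodule.span ℂ {u | At L u}, psiT D u v ≠ 0 := by
  by_contra hcon
  push Not at hcon
  exact h0 (kr_eq_zero S ho he G hG H L u ⟨hu, hcon⟩)

/-! ### Elements of the group fixing the system -/

theorem dag_mul_self {x : Matrix I I ℂ} (hx : IsG D x) : dag D x * x = 1 := by
  unfold dag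
  rw [Matrix.mul_assoc, Matrix.mul_assoc, ← Matrix.mul_assoc x.transpose, hx.2, PsiT_mul_Psi]

theorem gT_fix {x : Matrix I I ℂ} (hf : ∀ L u, At L u → gT x u = u) {n : ℕ} {u : Ten I n}
    (hu : u ∈ CA At n) : gT x u = u := by
  unfold CA at hu
  induction hu using Submodule.span_induction with
  | mem u hu => exact hf _ _ hu
  | zero => funext w; simp [gT]
  | add a b _ _ ha hb => rw [gT_add, ha, hb]
  | smul c a _ ha => rw [gT_smul, ha]

theorem pres_of_fix {x : Matrix I I ℂ} (hx : IsG D x)
    (hf : ∀ L u, At L u → gT x u = u) : Pres D At x where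
  unit := by
    have h := congrArg Matrix.det (dag_mul_self hx)
    rw [Matrix.det_mul, Matrix.det_one] at h
    exact IsUnit.of_mul_eq_one _ (by rw [mul_comm]; exact h)
  mem n u hu := by rw [gT_fix hf hu]; exact hu
  mem' n u hu := by
    have h1 : gT (dag D x) u = u := by
      conv_lhs => rw [← gT_fix hf hu]
      rw [← gT_mul, dag_mul_self hx, gT_one]
    rw [h1]; exact hu

/-- the form is nondegenerate if the group fixing the system has no subspaces of finite orbit -/
theorem nd_of_orbit (S : ASys D At) (ho : ∀ i, D.odd (D.typ i))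
    (he : ∀ i j, D.typ i = D.typ j) (Γ : Set (Matrix I I ℂ)) (grp : ∀ x ∈ Γ, IsG D x)
    (gfix : ∀ x ∈ Γ, ∀ L u, At L u → gT x u = u)
    (orbit : ∀ U : Submodule ℂ (I → ℂ),
      {U' : Submodule ℂ (I → ℂ) | ∃ x ∈ Γ, U' = U.map (Matrix.toLin' x)}.Finite → U = ⊥ ∨ U = ⊤) :
    ∀ L, ∀ u ∈ Submodule.span ℂ {u | At L u}, u ≠ 0 →
      ∃ v ∈ Submodule.span ℂ {u | At L u}, psiT D u v ≠ 0 := by
  intro L u hu h0
  refine nd S ho he Γ (fun g hg => pres_of_fix (grp g hg) (gfix g hg)) ?_ L u hu h0
  intro U hst hco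
  have hfin : {U' : Submodule ℂ (I → ℂ) | ∃ x ∈ Γ, U' = U.map (Matrix.toLin' x)}.Finite := by
    refine (Set.finite_singleton U).subset ?_
    rintro U' ⟨x, hx, rfl⟩
    have hle : U.map (Matrix.toLin' x) ≤ U := by
      rintro _ ⟨v, hv, rfl⟩
      exact hst x hx v hv
    have hinj : Function.Injective (Matrix.toLin' x) := by
      intro a b hab
      have h1 : x *ᵥ a = x *ᵥ b := hab
      have h2 := congrArg (fun z => dag D x *ᵥ z) h1
      simp only [Matrix.mulVec_mulVec, dag_mul_self (grp x hx), Matrix.one_mulVec] at h2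
      exact h2
    exact Submodule.eq_of_le_of_finrank_eq hle
      (LinearEquiv.finrank_eq (Submodule.equivMapOfInjective _ hinj U)).symm
  rcases orbit U hfin with h | h
  · rw [eq_top_iff]
    intro u _
    refine hco u fun v hv => ?_
    rw [h, Submodule.mem_bot] at hv
    rw [hv, zero_dotProduct]
  · exact h

end Pool.Agent.Lib.MP_361a6f_ag.FL.E.Nd
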