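import Pool.Agent.Lib.MP_361a6f_ag.FL.E.Nd

/-!
# Nondegeneracy: subspaces stable under the operators of the system

The operators of the members of length two of a system preserve the system, so that only
subspaces stable under them matter for the nondegeneracy of the form.
-/

open Matrix

set_option linter.unusedSectionVars false

namespace Pool.Agent.Lib.MP_361a6f_ag.FL.E.Nd

open Pool.Agent.Lib.MP_54168f_ag (Tens Cl slots_act)
open OL (CA)
open AL1A (gT_mul gT_add gT_smul)
open AL1B (gT_one)

variable {I Λ : Type} [Fintype I] [DecidableEq I] [DecidableEq Λ] {D : Dat I Λ}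
  {At : (L : ℕ) → Ten I L → Prop}

/-- the tensor of length two of a matrix -/
noncomputable def op (D : Dat I Λ) (M : Matrix I I ℂ) : Ten I 2 :=
  fun w => (M * Psi D) (w 0) (w 1)

theorem op_add (M N : Matrix I I ℂ) : op D (M + N) = op D M + op D N := by
  funext w
  simp [op, Matrix.add_mul]

theorem op_smul (c : ℂ) (M : Matrix I I ℂ) : op D (c • M) = c • op D M := by
  funext w
  simp [op]

/-- the interchange of the two slots -/
theorem op_swap (ho : ∀ i, D.odd (D.typ i)) (M : Matrix I I ℂ) (w : Fin 2 → I) :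
    op D M (w ∘ Equiv.swap 0 1) = -op D (dag D M) w := by
  have h : dag D M * Psi D = -(M * Psi D).transpose := by
    unfold dag
    rw [Matrix.mul_assoc, Psi_mul_Psi ho, Matrix.transpose_mul]
    noncomm_ring
  unfold op
  rw [h, Matrix.neg_apply, Matrix.transpose_apply, neg_neg]
  rfl

theorem op_dag_mem (S : ASys D At) (ho : ∀ i, D.odd (D.typ i)) {M : Matrix I I ℂ}
    (hM : op D M ∈ CA At 2) : op D (dag D M) ∈ CA At 2 := by
  have h1 : op D (dag D M) = -(fun w : Fin 2 → I => op D M (w ∘ Equiv.swap 0 1)) := by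
    funext w
    rw [Pi.neg_apply, op_swap ho, neg_neg]
  rw [h1]
  exact neg_mem (reix S (Equiv.swap 0 1) hM)

theorem op_one_mem (S : ASys D At) (he : ∀ i j, D.typ i = D.typ j) :
    op D (1 : Matrix I I ℂ) ∈ CA At 2 := by
  by_cases hI : IsEmpty I
  · have : op D (1 : Matrix I I ℂ) = 0 := by
      funext w
      exact hI.elim (w 0)
    rw [this]; exact zero_mem _
  · obtain ⟨a⟩ := not_isEmpty_iff.1 hI
    have : op D (1 : Matrix I I ℂ) = om D (D.typ a) := by
      funext w
      simp [op, om, Psi, he (w 0) a]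
    rw [this]; exact sub_CA (S.om _)

theorem op_gT_mem (S : ASys D At) (he : ∀ i j, D.typ i = D.typ j)
    {M : Matrix I I ℂ} (hM : op D M ∈ CA At 2) {n : ℕ} {u : Ten I n} (hu : u ∈ CA At n) :
    gT M u ∈ CA At n := by
  by_cases hI : IsEmpty I
  · rcases Nat.eq_zero_or_pos n with rfl | hn
    · have : gT M u = u := by
        funext w
        unfold gT
        rw [Fintype.sum_eq_single w (fun w' hw => absurd (Subsingleton.elim _ _) hw)]
        simp
      rw [this]; exact hu
    · have : gT M u = 0 := by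
        funext w
        exact hI.elim (w ⟨0, hn⟩)
      rw [this]; exact zero_mem _
  · obtain ⟨a⟩ := not_isEmpty_iff.1 hI
    have hmem : (Psi D : I → I → ℂ) ∈ CC D At := by
      refine ⟨om D (D.typ a), sub_CA (S.om _), ?_⟩
      rw [tm_om he, PsiT_mul_Psi, Matrix.one_mul]
    obtain ⟨ε, hε, h⟩ := slots_act (cl_B S) (fun w => op D M (w ∘ Equiv.swap 0 1))
      (reix S (Equiv.swap 0 1) hM) (Psi D) hmem u hu Finset.univ
    have h2 : (fun J : Fin n → I => ε * ∑ J' : Fin n → I, (∏ a, if a ∈ Finset.univ then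
        (∑ z, Psi D (J' a) z * (fun w => op D M (w ∘ Equiv.swap 0 1)) ![z, J a]) else
        (if J' a = J a then 1 else 0)) * u J') = ε • gT M u := by
      funext J
      rw [Pi.smul_apply, smul_eq_mul]
      congr 1
      unfold gT
      refine Finset.sum_congr rfl fun J' _ => ?_
      congr 1
      refine Finset.prod_congr rfl fun b _ => ?_
      rw [if_pos (Finset.mem_univ b)]
      have h3 : ∀ z, (fun w => op D M (w ∘ Equiv.swap 0 1)) ![z, J b] =
          (M * Psi D) (J b) z := by
        intro z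
        rfl
      simp only [h3]
      have h4 : ∑ z, Psi D (J' b) z * (M * Psi D) (J b) z =
          ((M * Psi D) * (Psi D).transpose) (J b) (J' b) := by
        rw [Matrix.mul_apply]
        exact Finset.sum_congr rfl fun z _ => by rw [Matrix.transpose_apply]; ring
      rw [h4, Matrix.mul_assoc, mul_eq_one_comm.1 (PsiT_mul_Psi D), Matrix.mul_one]
    have h5 : ε • gT M u ∈ CA At n := by
      rw [← h2]
      exact h
    have h6 := Submodule.smul_mem _ ε⁻¹ h5
    rwa [smul_smul, inv_mul_cancel₀ hε, one_smul] at h6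

theorem pres_of_mem (S : ASys D At) (ho : ∀ i, D.odd (D.typ i)) (he : ∀ i j, D.typ i = D.typ j)
    {M : Matrix I I ℂ} (hu : IsUnit M.det) (hM : op D M ∈ CA At 2) : Pres D At M where
  unit := hu
  mem _ _ h := op_gT_mem S he hM h
  mem' _ _ h := op_gT_mem S he (op_dag_mem S ho hM) h

/-- a subspace stable under the invertible operators of the system is stable under all -/
theorem stable_of_units (S : ASys D At) (he : ∀ i j, D.typ i = D.typ j)
    {U : Submodule ℂ (I → ℂ)}
    (h : ∀ M : Matrix I I ℂ, IsUnit M.det → op D M ∈ CA At 2 → ∀ v ∈ U, M *ᵥ v ∈ U)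
    (M : Matrix I I ℂ) (hM : op D M ∈ CA At 2) (v : I → ℂ) (hv : v ∈ U) : M *ᵥ v ∈ U := by
  obtain ⟨c, hc⟩ : ∃ c : ℂ, c ∉ M.charpoly.roots.toFinset :=
    Infinite.exists_notMem_finset _
  rw [Multiset.mem_toFinset, Polynomial.mem_roots (Matrix.charpoly_monic M).ne_zero] at hc
  have hdet : (M - c • 1).det ≠ 0 := by
    intro h0
    apply hc
    rw [Polynomial.IsRoot.def, Matrix.eval_charpoly]
    have h1 : Matrix.scalar I c - M = -(M - c • 1) := by
      rw [neg_sub, Matrix.smul_one_eq_diagonal]
      rfl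
    rw [h1, Matrix.det_neg, h0, mul_zero]
  have h1 : op D (M - c • 1) ∈ CA At 2 := by
    have h2 : op D (M - c • 1) = op D M + (-c) • op D (1 : Matrix I I ℂ) := by
      rw [← op_smul, ← op_add]
      congr 1
      rw [neg_smul]
      rfl
    rw [h2]
    exact add_mem hM (Submodule.smul_mem _ _ (op_one_mem S he))
  have h3 := h _ (isUnit_iff_ne_zero.2 hdet) h1 v hv
  rw [Matrix.sub_mulVec, Matrix.smul_mulVec, Matrix.one_mulVec] at h3
  have h4 := add_mem h3 (Submodule.smul_mem U c hv)
  rwa [sub_add_cancel] at h4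

/-- **Nondegeneracy**, with the operators of the system: the form is nondegenerate on the complex
span if the set `Γ` of elements of the group fixing the system has no proper subspace of finite
orbit among those stable under the operators of the members of length two. -/
theorem nd_of_orbit_op (S : ASys D At) (ho : ∀ i, D.odd (D.typ i))
    (he : ∀ i j, D.typ i = D.typ j) (Γ : Set (Matrix I I ℂ)) (grp : ∀ x ∈ Γ, IsG D x)
    (gfix : ∀ x ∈ Γ, ∀ L u, At L u → gT x u = u)
    (orbit : ∀ U : Submodule ℂ (I → ℂ),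
      (∀ M : Matrix I I ℂ, op D M ∈ Submodule.span ℂ {u | At 2 u} → ∀ v ∈ U, M *ᵥ v ∈ U) →
      {U' : Submodule ℂ (I → ℂ) | ∃ x ∈ Γ, U' = U.map (Matrix.toLin' x)}.Finite → U = ⊥ ∨ U = ⊤) :
    ∀ L, ∀ u ∈ Submodule.span ℂ {u | At L u}, u ≠ 0 →
      ∃ v ∈ Submodule.span ℂ {u | At L u}, psiT D u v ≠ 0 := by
  intro L u hu h0
  refine nd S ho he (Γ ∪ {M | IsUnit M.det ∧ op D M ∈ CA At 2}) ?_ ?_ L u hu h0
  · rintro g (hg | ⟨hg1, hg2⟩)
    · exact pres_of_fix (grp g hg) (gfix g hg)
    · exact pres_of_mem S ho he hg1 hg2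
  intro U hst hco
  have hop : ∀ M : Matrix I I ℂ, op D M ∈ CA At 2 → ∀ v ∈ U, M *ᵥ v ∈ U :=
    fun M hM v hv => stable_of_units S he
      (fun M h1 h2 v hv => hst M (Or.inr ⟨h1, h2⟩) v hv) M hM v hv
  have hfin : {U' : Submodule ℂ (I → ℂ) | ∃ x ∈ Γ, U' = U.map (Matrix.toLin' x)}.Finite := by
    refine (Set.finite_singleton U).subset ?_
    rintro U' ⟨x, hx, rfl⟩
    have hle : U.map (Matrix.toLin' x) ≤ U := by
      rintro _ ⟨v, hv, rfl⟩
      exact hst x (Or.inl hx) v hv
    have hinj : Function.Injective (Matrix.toLin' x) := by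
      intro a b hab
      have h1 : x *ᵥ a = x *ᵥ b := hab
      have h2 := congrArg (fun z => dag D x *ᵥ z) h1
      simp only [Matrix.mulVec_mulVec, dag_mul_self (grp x hx), Matrix.one_mulVec] at h2
      exact h2
    exact Submodule.eq_of_le_of_finrank_eq hle
      (LinearEquiv.finrank_eq (Submodule.equivMapOfInjective _ hinj U)).symm
  rcases orbit U hop hfin with h | h
  · rw [eq_top_iff]
    intro u _
    refine hco u fun v hv => ?_
    rw [h, Submodule.mem_bot] at hv
    rw [hv, zero_dotProduct]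
  · exact h

end Pool.Agent.Lib.MP_361a6f_ag.FL.E.Nd
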