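import Pool.Agent.Lib.MP_361a6f_ag.FL.E.NdO
import Pool.Agent.Lib.MP_361a6f_ag.FL.E.DefsP

/-!
# Nondegeneracy, in the form of the field `nd` of `PSys`
-/

open Matrix

set_option linter.unusedSectionVars false

namespace Pool.Agent.Lib.MP_361a6f_ag.FL.E.Nd

open OL (CA)

variable {I Λ : Type} [Fintype I] [DecidableEq I] [DecidableEq Λ] {D : Dat I Λ}
  {At : (L : ℕ) → Ten I L → Prop}

theorem op_opM (z : Ten I 2) : op D (opM D z) = z := by
  funext w
  have e : ![w 0, w 1] = w := by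
    funext k
    fin_cases k <;> rfl
  change (opM D z * Psi D) (w 0) (w 1) = z w
  rw [mul_Psi]
  simp only [opM, D.τ_τ]
  rw [mul_assoc, AL2.s_mul_s, mul_one, e]

/-- the field `nd` of `PSys` follows from its other fields -/
theorem nd_of_orbitP (S : ASys D At) (ho : ∀ i, D.odd (D.typ i))
    (he : ∀ i j, D.typ i = D.typ j) (Γ : Set (Matrix I I ℂ)) (grp : ∀ x ∈ Γ, IsG D x)
    (gfix : ∀ x ∈ Γ, ∀ L u, At L u → gT x u = u)
    (orbit : ∀ U : Submodule ℂ (I → ℂ),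
      (∀ z, At 2 z → ∀ v ∈ U, (opM D z).mulVec v ∈ U) →
      {U' : Submodule ℂ (I → ℂ) | ∃ x ∈ Γ, U' = U.map (Matrix.toLin' x)}.Finite → U = ⊥ ∨ U = ⊤) :
    ∀ L, ∀ u ∈ Submodule.span ℂ {u | At L u}, u ≠ 0 →
      ∃ v ∈ Submodule.span ℂ {u | At L u}, psiT D u v ≠ 0 :=
  nd_of_orbit_op S ho he Γ grp gfix fun U hU hfin =>
    orbit U (fun z hz v hv => hU _ (by rw [op_opM]; exact Submodule.subset_span hz) v hv) hfin

end Pool.Agent.Lib.MP_361a6f_ag.FL.E.Nd
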