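import Pool.Agent.Lib.MP_361a6f_ag.FL.E.NdH
import Pool.Agent.Lib.MP_361a6f_ag.FL.Alg1

/-!
# Nondegeneracy for systems killed by the central elements of the Lie algebra

If every subspace that is stable under the operators of the system and has finitely many images
under `Γ` is the image of a central idempotent, and if the members of the system are killed by the
central elements of the Lie algebra (they are fixed by the identity component of the unitary group
of the centre), then the form is nondegenerate on the complex span of the system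
(helper2, finding 5330).
-/

open Matrix

set_option autoImplicit false
set_option linter.unusedSectionVars false

namespace Pool.Agent.Lib.MP_361a6f_ag.FL.E.NdZ

open Pool.Agent.Lib.MP_54168f_ag (Tens ev Feas full_zero exists_feasible exists_optimal
  eq_zero_of_ev)
open Nd
open OL (CA)
open AL1A (gT_mul gT_add gT_smul)

variable {I Λ : Type} [Fintype I] [DecidableEq I] [DecidableEq Λ] {D : Dat I Λ}
  {At : (L : ℕ) → Ten I L → Prop}

/-! ### The optimal filtration -/

theorem exists_opt (S : ASys D At) (ho : ∀ i, D.odd (D.typ i)) (n : ℕ) :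
    ∃ (p q : Matrix I I ℂ) (wt : I → ℝ),
      Feas ((Kr D At n : Submodule ℂ (Ten I n)) : Set (Ten I n)) (CC D At) p q wt ∧
      ∀ g, Pres D At g → ∀ x y, (q * g.transpose * p) x y ≠ 0 → wt x ≤ wt y := by
  classical
  obtain ⟨L0, _, _, p0, q0, w0, hF0⟩ := exists_feasible
    ((Kr D At n : Submodule ℂ (Ten I n)) : Set (Ten I n)) (CC D At)
    fun m l hm τ hτ cc hcc e => full_zero (cl_A S ho)
      (fun n u hu => hu.1) (fun u hu => kr_zero S u hu) n m l hm τ hτ cc hcc e
  obtain ⟨p1, q1, hF1⟩ := hF0.descend (Ω := ℂ)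
  obtain ⟨p, q, wt, hF, hopt⟩ := exists_optimal (L := ℂ) ⟨p1, q1, w0, hF1⟩
  have hid : ∀ M : Matrix I I ℂ, M.map (algebraMap ℂ ℂ) = M := fun M => by
    ext i j; rfl
  refine ⟨p, q, wt, hF, fun g hg => ?_⟩
  have hu : IsUnit g.transpose.det := by rw [Matrix.det_transpose]; exact hg.unit
  have h1 := hopt g.transpose g.transpose⁻¹ (Matrix.mul_nonsing_inv _ hu) ?_ ?_
  · intro x y hxy
    refine h1 x y ?_
    rw [hid]
    exact hxy
  · intro t ht
    refine Submodule.subset_span ?_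
    change gT g t ∈ Kr D At n
    exact hg.kr ho ht
  · rintro c ⟨t, ht, rfl⟩
    refine Submodule.subset_span ?_
    set N : Matrix I I ℂ := g⁻¹ with hN
    have hNg : g.transpose⁻¹ = N.transpose := by rw [hN, Matrix.transpose_nonsing_inv]
    have h2 : dag D N * dag D g = 1 := by
      rw [← dag_mul ho, hN, Matrix.mul_nonsing_inv _ hg.unit, dag_one ho]
    refine ⟨gT (dag D N) t, (hg.dag ho).inv h2 ht, ?_⟩
    rw [tm_gT]
    have h3 : (Psi D).transpose * (dag D N * tm t * (dag D N).transpose) * Psi D =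
        N.transpose * ((Psi D).transpose * tm t * Psi D) * N := by
      have h4 : (Psi D).transpose * dag D N = N.transpose * (Psi D).transpose := by
        have h5 := congrArg Matrix.transpose (Psi_mul_eq ho N)
        rw [Matrix.transpose_mul, Matrix.transpose_mul, Matrix.transpose_transpose] at h5
        exact h5.symm
      calc (Psi D).transpose * (dag D N * tm t * (dag D N).transpose) * Psi D
          = ((Psi D).transpose * dag D N) * tm t * ((dag D N).transpose * Psi D) := by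
            noncomm_ring
        _ = _ := by rw [h4, ← Psi_mul_eq ho]; noncomm_ring
    rw [h3]
    funext x y
    rw [hNg, Matrix.mul_apply]
    rw [Finset.sum_comm]
    refine Finset.sum_congr rfl fun y' _ => ?_
    rw [Matrix.mul_apply, Finset.sum_mul]
    refine Finset.sum_congr rfl fun x' _ => ?_
    rw [Matrix.transpose_apply, Matrix.transpose_apply]
    ring

/-- a step of the filtration -/
def Up (D : Dat I Λ) (q : Matrix I I ℂ) (wt : I → ℝ) (P : ℝ → Prop) :
    Submodule ℂ (I → ℂ) where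
  carrier := {v | ∀ x, P (wt x) → (q *ᵥ (Psi D *ᵥ v)) x = 0}
  add_mem' := by
    intro a b ha hb x hx
    rw [Matrix.mulVec_add, Matrix.mulVec_add, Pi.add_apply, ha x hx, hb x hx, add_zero]
  zero_mem' := by
    intro x _
    rw [Matrix.mulVec_zero, Matrix.mulVec_zero]
    rfl
  smul_mem' := by
    intro c a ha x hx
    rw [Matrix.mulVec_smul, Matrix.mulVec_smul, Pi.smul_apply, ha x hx, smul_zero]

variable {p q : Matrix I I ℂ} {wt : I → ℝ}

theorem mem_Up {P : ℝ → Prop} {v : I → ℂ} :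
    v ∈ Up D q wt P ↔ ∀ x, P (wt x) → (q *ᵥ (Psi D *ᵥ v)) x = 0 := Iff.rfl

theorem Up_stable (ho : ∀ i, D.odd (D.typ i)) (hpq : p * q = 1) {g : Matrix I I ℂ}
    (hst : ∀ x y, (q * (dag D g).transpose * p) x y ≠ 0 → wt x ≤ wt y) {P : ℝ → Prop}
    (hP : ∀ a b, a ≤ b → P a → P b) {v : I → ℂ} (hv : v ∈ Up D q wt P) :
    g *ᵥ v ∈ Up D q wt P := by
  intro x hx
  have h1 : q *ᵥ (Psi D *ᵥ (g *ᵥ v)) = (q * (dag D g).transpose * p) *ᵥ (q *ᵥ (Psi D *ᵥ v)) := by
    simp only [Matrix.mulVec_mulVec]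
    congr 1
    rw [Matrix.mul_assoc (q * (dag D g).transpose) p, ← Matrix.mul_assoc p, hpq, Matrix.one_mul,
      Matrix.mul_assoc q, Psi_mul_eq ho]
  rw [h1, Matrix.mulVec, dotProduct]
  refine Finset.sum_eq_zero fun y _ => ?_
  by_cases h0 : (q * (dag D g).transpose * p) x y = 0
  · rw [h0, zero_mul]
  · rw [hv y (hP _ _ (hst x y h0) hx), mul_zero]

/-! ### The algebra of the endomorphisms -/

theorem mem_endS {M : Matrix I I ℂ} : M ∈ endS D At ↔ op D M ∈ CA At 2 := by
  constructor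
  · intro h
    unfold endS at h
    induction h using Submodule.span_induction with
    | mem M h =>
      obtain ⟨z, hz, rfl⟩ := h
      rw [op_opM]
      exact sub_CA hz
    | zero =>
      have : op D (0 : Matrix I I ℂ) = 0 := by funext w; simp [op]
      rw [this]; exact zero_mem _
    | add a b _ _ ha hb => rw [op_add]; exact add_mem ha hb
    | smul c a _ ha => rw [op_smul]; exact Submodule.smul_mem _ _ ha
  · intro h
    rw [← opM_op (D := D) M]
    generalize op D M = z at h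
    unfold CA at h
    induction h using Submodule.span_induction with
    | mem z h => exact Submodule.subset_span ⟨z, h, rfl⟩
    | zero =>
      have : opM D (0 : Ten I 2) = 0 := by ext i j; simp [opM]
      rw [this]; exact zero_mem _
    | add a b _ _ ha hb =>
      have : opM D (a + b) = opM D a + opM D b := by ext i j; simp [opM, add_mul]
      rw [this]; exact add_mem ha hb
    | smul c a _ ha =>
      have : opM D (c • a) = c • opM D a := by ext i j; simp [opM, mul_assoc]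
      rw [this]; exact Submodule.smul_mem _ _ ha

/-- central elements of the algebra of the endomorphisms -/
structure Cen (D : Dat I Λ) (At : (L : ℕ) → Ten I L → Prop) (M : Matrix I I ℂ) : Prop where
  mem : M ∈ endS D At
  comm : ∀ N ∈ endS D At, M * N = N * M

theorem cen_of {M : Matrix I I ℂ} (h : M ∈ endS D At)
    (h' : ∀ z, At 2 z → M * opM D z = opM D z * M) : Cen D At M := by
  refine ⟨h, fun N hN => ?_⟩
  unfold endS at hN
  induction hN using Submodule.span_induction with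
  | mem N hN =>
    obtain ⟨z, hz, rfl⟩ := hN
    exact h' z hz
  | zero => rw [Matrix.mul_zero, Matrix.zero_mul]
  | add a b _ _ ha hb => rw [Matrix.mul_add, Matrix.add_mul, ha, hb]
  | smul c a _ ha => rw [Matrix.mul_smul, Matrix.smul_mul, ha]

theorem Cen.sub {M N : Matrix I I ℂ} (hM : Cen D At M) (hN : Cen D At N) :
    Cen D At (M - N) :=
  ⟨sub_mem hM.mem hN.mem, fun A hA => by
    rw [Matrix.sub_mul, Matrix.mul_sub, hM.comm A hA, hN.comm A hA]⟩

theorem Cen.smul {M : Matrix I I ℂ} (c : ℂ) (hM : Cen D At M) : Cen D At (c • M) :=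
  ⟨Submodule.smul_mem _ _ hM.mem, fun A hA => by
    rw [Matrix.smul_mul, Matrix.mul_smul, hM.comm A hA]⟩

theorem Cen.sum {ι : Type*} (s : Finset ι) {M : ι → Matrix I I ℂ}
    (h : ∀ i ∈ s, Cen D At (M i)) : Cen D At (∑ i ∈ s, M i) :=
  ⟨sum_mem fun i hi => (h i hi).mem, fun A hA => by
    rw [Finset.sum_mul, Finset.mul_sum]
    exact Finset.sum_congr rfl fun i hi => (h i hi).comm A hA⟩

theorem dag_mem (S : ASys D At) (ho : ∀ i, D.odd (D.typ i)) {M : Matrix I I ℂ}
    (h : M ∈ endS D At) : dag D M ∈ endS D At :=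
  mem_endS.2 (op_dag_mem S ho (mem_endS.1 h))

theorem Cen.dag (S : ASys D At) (ho : ∀ i, D.odd (D.typ i)) {M : Matrix I I ℂ}
    (h : Cen D At M) : Cen D At (dag D M) := by
  refine ⟨dag_mem S ho h.mem, fun N hN => ?_⟩
  have h1 := h.comm _ (dag_mem S ho hN)
  calc Nd.dag D M * N = Nd.dag D M * Nd.dag D (Nd.dag D N) := by rw [dag_dag ho]
    _ = Nd.dag D (Nd.dag D N * M) := (dag_mul ho _ _).symm
    _ = Nd.dag D (M * Nd.dag D N) := by rw [h1]
    _ = N * Nd.dag D M := by rw [dag_mul ho, dag_dag ho]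

theorem dag_sub (M N : Matrix I I ℂ) : Nd.dag D (M - N) = Nd.dag D M - Nd.dag D N := by
  unfold Nd.dag
  rw [Matrix.transpose_sub, Matrix.mul_sub, Matrix.sub_mul]

theorem dag_smul (c : ℂ) (M : Matrix I I ℂ) : Nd.dag D (c • M) = c • Nd.dag D M := by
  unfold Nd.dag
  rw [Matrix.transpose_smul, Matrix.mul_smul, Matrix.smul_mul]

theorem dag_sum {ι : Type*} (s : Finset ι) (M : ι → Matrix I I ℂ) :
    Nd.dag D (∑ i ∈ s, M i) = ∑ i ∈ s, Nd.dag D (M i) := by
  unfold Nd.dag
  rw [Matrix.transpose_sum, Finset.mul_sum, Finset.sum_mul]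

theorem mat_ext {A B : Matrix I I ℂ} (h : ∀ v, A *ᵥ v = B *ᵥ v) : A = B :=
  Matrix.toLin'.injective (LinearMap.ext fun v => by
    rw [Matrix.toLin'_apply, Matrix.toLin'_apply, h v])

/-- a step is the fixed space of a central idempotent -/
theorem exists_idm (S : ASys D At) (ho : ∀ i, D.odd (D.typ i)) (he : ∀ i j, D.typ i = D.typ j)
    (Γ : Set (Matrix I I ℂ)) (grp : ∀ x ∈ Γ, IsG D x)
    (gfix : ∀ x ∈ Γ, ∀ L u, At L u → gT x u = u)
    (orbit : ∀ U : Submodule ℂ (I → ℂ),
      (∀ z, At 2 z → ∀ v ∈ U, (opM D z).mulVec v ∈ U) →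
      {U' : Submodule ℂ (I → ℂ) | ∃ x ∈ Γ, U' = U.map (Matrix.toLin' x)}.Finite →
      ∃ e ∈ endS D At, e * e = e ∧ (∀ z, At 2 z → e * opM D z = opM D z * e) ∧
        U = LinearMap.range (Matrix.toLin' e))
    (hpq : p * q = 1)
    (hst : ∀ g, Pres D At g → ∀ x y, (q * g.transpose * p) x y ≠ 0 → wt x ≤ wt y)
    (P : ℝ → Prop) (hP : ∀ a b, a ≤ b → P a → P b) :
    ∃ e : Matrix I I ℂ, Cen D At e ∧ e * e = e ∧ ∀ v, v ∈ Up D q wt P ↔ e *ᵥ v = v := by
  have hpres : ∀ g, Pres D At g → ∀ v ∈ Up D q wt P, g *ᵥ v ∈ Up D q wt P :=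
    fun g hg v hv => Up_stable ho hpq (hst _ (hg.dag ho)) hP hv
  obtain ⟨e, h1, h2, h3, h4⟩ := orbit (Up D q wt P)
    (fun z hz v hv => stable_of_units S he
      (fun M hM hM' v hv => hpres M (pres_of_mem S ho he hM hM') v hv) _
      (by rw [op_opM]; exact sub_CA hz) v hv)
    ((Set.finite_singleton (Up D q wt P)).subset (by
      rintro U' ⟨x, hx, rfl⟩
      exact map_eq_of_stable (grp x hx) fun v hv =>
        hpres x (pres_of_fix (grp x hx) (gfix x hx)) v hv))
  refine ⟨e, cen_of h1 h3, h2, fun v => ?_⟩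
  rw [h4]
  constructor
  · rintro ⟨w, rfl⟩
    rw [Matrix.toLin'_apply, Matrix.mulVec_mulVec, h2]
  · intro h
    exact ⟨v, by rw [Matrix.toLin'_apply, h]⟩

/-! ### Decomposable tensors -/

theorem aT_simple {n : ℕ} {B : Matrix I I ℂ} {v : Fin n → I → ℂ} {r : Fin n → ℂ}
    (h : ∀ a, B *ᵥ v a = r a • v a) :
    aT B (fun w : Fin n → I => ∏ a, v a (w a)) = (∑ a, r a) • fun w => ∏ a, v a (w a) := by
  funext w
  rw [Pi.smul_apply, smul_eq_mul, Finset.sum_mul]
  unfold aT
  refine Finset.sum_congr rfl fun i _ => ?_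
  have h1 : ∀ j, (∏ a, v a (Function.update w i j a)) =
      v i j * ∏ a ∈ Finset.univ.erase i, v a (w a) := by
    intro j
    rw [← Finset.mul_prod_erase Finset.univ _ (Finset.mem_univ i), Function.update_self]
    congr 1
    refine Finset.prod_congr rfl fun a ha => ?_
    rw [Function.update_of_ne (Finset.ne_of_mem_erase ha)]
  simp only [h1]
  have h2 : ∑ j, B (w i) j * (v i j * ∏ a ∈ Finset.univ.erase i, v a (w a)) =
      (B *ᵥ v i) (w i) * ∏ a ∈ Finset.univ.erase i, v a (w a) := by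
    rw [Matrix.mulVec, dotProduct, Finset.sum_mul]
    exact Finset.sum_congr rfl fun j _ => by ring
  rw [h2, h i, Pi.smul_apply, smul_eq_mul, mul_assoc,
    Finset.mul_prod_erase Finset.univ (fun a => v a (w a)) (Finset.mem_univ i)]

theorem psi_simple {n : ℕ} (t : Ten I n) (v : Fin n → I → ℂ) :
    psiT D t (fun w : Fin n → I => ∏ a, v a (w a)) =
      ev (Ω := ℂ) (t : Tens I ℂ n) (fun a => Psi D *ᵥ v a) := by
  rw [psi_dot]
  unfold ev
  refine Finset.sum_congr rfl fun w _ => ?_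
  have : gT (Psi D) (fun w : Fin n → I => ∏ a, v a (w a)) w = ∏ a, (Psi D *ᵥ v a) (w a) := by
    unfold gT
    simp only [← Finset.prod_mul_distrib]
    simp only [Matrix.mulVec, dotProduct]
    rw [Finset.prod_univ_sum, Fintype.piFinset_univ]
  rw [this, mul_comm]
  rfl

theorem ev_expand {n : ℕ} (t : Tens I ℂ n) (hpq : p * q = 1) (x : Fin n → I → ℂ) :
    ev (Ω := ℂ) t x = ∑ J : Fin n → I, (∏ a, (q *ᵥ x a) (J a)) *
      ev (Ω := ℂ) t (fun a z => p z (J a)) := by
  unfold ev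
  have h : ∀ w : Fin n → I, (∏ a, x a (w a)) =
      ∑ J : Fin n → I, (∏ a, (q *ᵥ x a) (J a)) * ∏ a, p (w a) (J a) := by
    intro w
    have h1 : ∀ a, x a (w a) = ∑ y, (q *ᵥ x a) y * p (w a) y := by
      intro a
      have h2 : x a = p *ᵥ (q *ᵥ x a) := by rw [Matrix.mulVec_mulVec, hpq, Matrix.one_mulVec]
      conv_lhs => rw [h2]
      rw [Matrix.mulVec, dotProduct]
      exact Finset.sum_congr rfl fun y _ => mul_comm _ _
    simp only [h1]
    rw [Finset.prod_univ_sum, Fintype.piFinset_univ]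
    exact Finset.sum_congr rfl fun J _ => by rw [← Finset.prod_mul_distrib]
  simp only [h, Finset.sum_mul, Finset.mul_sum]
  rw [Finset.sum_comm]
  refine Finset.sum_congr rfl fun J _ => Finset.sum_congr rfl fun w _ => ?_
  ring

/-! ### The joint eigenvectors -/

/-- the graded pieces of the filtration: orthogonal central idempotents with sum `1` -/
structure Grad (D : Dat I Λ) (At : (L : ℕ) → Ten I L → Prop) (q : Matrix I I ℂ) (wt : I → ℝ)
    (e e' g : ℝ → Matrix I I ℂ) : Prop where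
  up : ∀ c v, v ∈ Up D q wt (fun r => c < r) ↔ e c *ᵥ v = v
  up' : ∀ c v, v ∈ Up D q wt (fun r => c ≤ r) ↔ e' c *ᵥ v = v
  eg : ∀ c, e c * g c = g c
  e'g : ∀ c, e' c * g c = 0
  cen' : ∀ c, Cen D At (e' c)
  cen : ∀ c, Cen D At (g c)
  idem : ∀ c, g c * g c = g c
  orth : ∀ c d, c ≠ d → g c * g d = 0
  sum : ∑ c ∈ Finset.univ.image wt, g c = 1

theorem exists_grad (S : ASys D At) (ho : ∀ i, D.odd (D.typ i)) (he : ∀ i j, D.typ i = D.typ j)
    (Γ : Set (Matrix I I ℂ)) (grp : ∀ x ∈ Γ, IsG D x)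
    (gfix : ∀ x ∈ Γ, ∀ L u, At L u → gT x u = u)
    (orbit : ∀ U : Submodule ℂ (I → ℂ),
      (∀ z, At 2 z → ∀ v ∈ U, (opM D z).mulVec v ∈ U) →
      {U' : Submodule ℂ (I → ℂ) | ∃ x ∈ Γ, U' = U.map (Matrix.toLin' x)}.Finite →
      ∃ e ∈ endS D At, e * e = e ∧ (∀ z, At 2 z → e * opM D z = opM D z * e) ∧
        U = LinearMap.range (Matrix.toLin' e))
    (hpq : p * q = 1)
    (hst : ∀ g, Pres D At g → ∀ x y, (q * g.transpose * p) x y ≠ 0 → wt x ≤ wt y) :
    ∃ e e' g : ℝ → Matrix I I ℂ, Grad D At q wt e e' g := by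
  classical
  choose e hC hI hR using fun c : ℝ => exists_idm S ho he Γ grp gfix orbit hpq hst
    (fun r => c < r) fun a b hab h => lt_of_lt_of_le h hab
  choose e' hC' hI' hR' using fun c : ℝ => exists_idm S ho he Γ grp gfix orbit hpq hst
    (fun r => c ≤ r) fun a b hab h => le_trans h hab
  have r1 : ∀ c, e c * e' c = e' c := fun c => mat_ext fun v => by
    rw [← Matrix.mulVec_mulVec]
    refine (hR c _).1 fun x hx => ?_
    have h : e' c *ᵥ v ∈ Up D q wt (fun r => c ≤ r) :=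
      (hR' c _).2 (by rw [Matrix.mulVec_mulVec, hI'])
    exact h x (le_of_lt hx)
  have r1' : ∀ c, e' c * e c = e' c := fun c => by
    rw [(hC' c).comm _ (hC c).mem, r1]
  have r2 : ∀ c d, c < d → e' d * e c = e c := fun c d hcd => mat_ext fun v => by
    rw [← Matrix.mulVec_mulVec]
    refine (hR' d _).1 fun x hx => ?_
    have h : e c *ᵥ v ∈ Up D q wt (fun r => c < r) :=
      (hR c _).2 (by rw [Matrix.mulVec_mulVec, hI])
    exact h x (lt_of_lt_of_le hcd hx)
  have r3 : ∀ c d, c < d → e d * e c = e c := fun c d hcd => by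
    calc e d * e c = e d * (e' d * e c) := by rw [r2 c d hcd]
      _ = (e d * e' d) * e c := (Matrix.mul_assoc _ _ _).symm
      _ = e c := by rw [r1, r2 c d hcd]
  have r4 : ∀ c d, c < d → e' d * e' c = e' c := fun c d hcd => by
    calc e' d * e' c = e' d * (e c * e' c) := by rw [r1]
      _ = (e' d * e c) * e' c := (Matrix.mul_assoc _ _ _).symm
      _ = e' c := by rw [r2 c d hcd, r1]
  have r5 : ∀ c d, c < d → e d * e' c = e' c := fun c d hcd => by
    calc e d * e' c = e d * (e c * e' c) := by rw [r1]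
      _ = (e d * e c) * e' c := (Matrix.mul_assoc _ _ _).symm
      _ = e' c := by rw [r3 c d hcd, r1]
  have hcen : ∀ c, Cen D At (e c - e' c) := fun c => (hC c).sub (hC' c)
  have hid : ∀ c, (e c - e' c) * (e c - e' c) = e c - e' c := fun c => by
    rw [Matrix.mul_sub, Matrix.sub_mul, Matrix.sub_mul, hI, r1', r1, hI', sub_self, sub_zero]
  have horth1 : ∀ c d, c < d → (e d - e' d) * (e c - e' c) = 0 := fun c d hcd => by
    rw [Matrix.mul_sub, Matrix.sub_mul, Matrix.sub_mul, r3 c d hcd, r2 c d hcd, r5 c d hcd,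
      r4 c d hcd, sub_self, sub_self, sub_zero]
  have horth : ∀ c d, c ≠ d → (e c - e' c) * (e d - e' d) = 0 := fun c d hcd => by
    rcases lt_or_gt_of_ne hcd with h | h
    · rw [(hcen c).comm _ (hcen d).mem, horth1 c d h]
    · exact horth1 d c h
  refine ⟨e, e', fun c => e c - e' c, hR, hR', fun c => ?_, fun c => ?_, hC', hcen, hid, horth, ?_⟩
  · rw [Matrix.mul_sub, hI, r1]
  · rw [Matrix.mul_sub, hI', r1', sub_self]
  -- the sum
  refine mat_ext fun v => ?_
  rw [Matrix.one_mulVec]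
  obtain ⟨G, hG⟩ : ∃ G, G = ∑ c ∈ Finset.univ.image wt, (e c - e' c) := ⟨_, rfl⟩
  rw [← hG]
  have hgG : ∀ c ∈ Finset.univ.image wt, (e c - e' c) * G = e c - e' c := by
    intro c hc
    rw [hG, Finset.mul_sum, Finset.sum_eq_single c]
    · exact hid c
    · intro d _ hd
      exact horth c d (Ne.symm hd)
    · intro h
      exact absurd hc h
  by_contra hne
  have hr0 : v - G *ᵥ v ≠ 0 := fun h => hne (sub_eq_zero.1 h).symm
  obtain ⟨r, hr⟩ : ∃ r, r = v - G *ᵥ v := ⟨_, rfl⟩
  rw [← hr] at hr0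
  have hgr : ∀ c ∈ Finset.univ.image wt, (e c - e' c) *ᵥ r = 0 := by
    intro c hc
    rw [hr, Matrix.mulVec_sub, Matrix.mulVec_mulVec, hgG c hc, sub_self]
  have hq0 : ∃ x, (q *ᵥ (Psi D *ᵥ r)) x ≠ 0 := by
    by_contra h
    push Not at h
    have h1 : q *ᵥ (Psi D *ᵥ r) = 0 := funext h
    have h2 : Psi D *ᵥ r = 0 := by
      have h3 : p *ᵥ (q *ᵥ (Psi D *ᵥ r)) = 0 := by rw [h1, Matrix.mulVec_zero]
      rwa [Matrix.mulVec_mulVec, hpq, Matrix.one_mulVec] at h3
    have h4 : Psi D *ᵥ (Psi D *ᵥ r) = 0 := by rw [h2, Matrix.mulVec_zero]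
    rw [Matrix.mulVec_mulVec, Psi_mul_Psi ho, Matrix.neg_mulVec, Matrix.one_mulVec,
      neg_eq_zero] at h4
    exact hr0 h4
  obtain ⟨x0, hx0, hmax⟩ := Finset.exists_max_image
    (Finset.univ.filter fun x => (q *ᵥ (Psi D *ᵥ r)) x ≠ 0) wt (by
      obtain ⟨x, hx⟩ := hq0
      exact ⟨x, Finset.mem_filter.2 ⟨Finset.mem_univ _, hx⟩⟩)
  have hx0' := (Finset.mem_filter.1 hx0).2
  have hup : r ∈ Up D q wt (fun c => wt x0 < c) := by
    intro x hx
    by_contra h
    exact absurd (hmax x (Finset.mem_filter.2 ⟨Finset.mem_univ _, h⟩)) (not_le.2 hx)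
  have h1 := (hR _ _).1 hup
  have h2 := hgr (wt x0) (Finset.mem_image_of_mem _ (Finset.mem_univ _))
  rw [Matrix.sub_mulVec, h1, sub_eq_zero] at h2
  exact hx0' ((hR' _ _).2 h2.symm x0 le_rfl)

variable {e e' g : ℝ → Matrix I I ℂ}

/-- `v` is a joint eigenvector with the labels `α`, `β` -/
structure JE (D : Dat I Λ) (g : ℝ → Matrix I I ℂ) (S : Finset ℝ) (α β : ℝ) (v : I → ℂ) :
    Prop where
  a : α ∈ S
  b : β ∈ S
  ga : g α *ᵥ v = v
  gb : Nd.dag D (g β) *ᵥ v = v

theorem span_je (S : ASys D At) (ho : ∀ i, D.odd (D.typ i)) (G : Grad D At q wt e e' g) :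
    (⊤ : Submodule ℂ (I → ℂ)) ≤
      Submodule.span ℂ {v | ∃ α β, JE D g (Finset.univ.image wt) α β v} := by
  intro v _
  have hd : ∑ d ∈ Finset.univ.image wt, Nd.dag D (g d) = 1 := by
    rw [← dag_sum, G.sum, dag_one ho]
  have hv : v = ∑ c ∈ Finset.univ.image wt, ∑ d ∈ Finset.univ.image wt,
      (g c * Nd.dag D (g d)) *ᵥ v := by
    have h1 : ∀ c, ∑ d ∈ Finset.univ.image wt, (g c * Nd.dag D (g d)) *ᵥ v = g c *ᵥ v := by
      intro c
      rw [← Matrix.sum_mulVec, ← Finset.mul_sum, hd, Matrix.mul_one]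
    rw [Finset.sum_congr rfl fun c _ => h1 c, ← Matrix.sum_mulVec, G.sum, Matrix.one_mulVec]
  rw [hv]
  refine sum_mem fun c hc => sum_mem fun d hd' => Submodule.subset_span
    ⟨c, d, hc, hd', ?_, ?_⟩
  · rw [Matrix.mulVec_mulVec, ← Matrix.mul_assoc, G.idem]
  · have h2 : Nd.dag D (g d) * Nd.dag D (g d) = Nd.dag D (g d) := by
      rw [← dag_mul ho, G.idem]
    rw [Matrix.mulVec_mulVec, (G.cen c).comm _ (dag_mem S ho (G.cen d).mem), ← Matrix.mul_assoc,
      h2]

/-- the central element of the Lie algebra given by the weights -/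
noncomputable def BB (D : Dat I Λ) (g : ℝ → Matrix I I ℂ) (S : Finset ℝ) : Matrix I I ℂ :=
  ∑ c ∈ S, (c : ℂ) • (g c - Nd.dag D (g c))

theorem BB_cen (S : ASys D At) (ho : ∀ i, D.odd (D.typ i)) (G : Grad D At q wt e e' g)
    (T : Finset ℝ) : Cen D At (BB D g T) :=
  Cen.sum T fun c _ => ((G.cen c).sub ((G.cen c).dag S ho)).smul _

theorem BB_lie (ho : ∀ i, D.odd (D.typ i)) (he : ∀ i j, D.typ i = D.typ j) (T : Finset ℝ) :
    IsLie D (BB D g T) := by
  refine ⟨fun i j hij => absurd (he i j) hij, ?_⟩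
  have h1 : Nd.dag D (BB D g T) = -BB D g T := by
    rw [BB, dag_sum, ← Finset.sum_neg_distrib]
    refine Finset.sum_congr rfl fun c _ => ?_
    rw [dag_smul, dag_sub, dag_dag ho, ← smul_neg, neg_sub]
  rw [Psi_mul_eq ho, h1, Matrix.transpose_neg, Matrix.neg_mul, add_neg_cancel]

theorem BB_je (ho : ∀ i, D.odd (D.typ i)) (G : Grad D At q wt e e' g) {T : Finset ℝ} {α β : ℝ}
    {v : I → ℂ} (h : JE D g T α β v) : BB D g T *ᵥ v = ((α - β : ℝ) : ℂ) • v := by
  have h1 : ∀ c, g c *ᵥ v = if c = α then v else 0 := by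
    intro c
    by_cases hc : c = α
    · rw [if_pos hc, hc, h.ga]
    · rw [if_neg hc, ← h.ga, Matrix.mulVec_mulVec, G.orth c α hc, Matrix.zero_mulVec]
  have h2 : ∀ c, Nd.dag D (g c) *ᵥ v = if c = β then v else 0 := by
    intro c
    by_cases hc : c = β
    · rw [if_pos hc, hc, h.gb]
    · rw [if_neg hc, ← h.gb, Matrix.mulVec_mulVec, ← dag_mul ho, G.orth β c (Ne.symm hc)]
      have : Nd.dag D (0 : Matrix I I ℂ) = 0 := by
        unfold Nd.dag
        simp
      rw [this, Matrix.zero_mulVec]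
  rw [BB, Matrix.sum_mulVec]
  simp only [Matrix.smul_mulVec, Matrix.sub_mulVec, h1, h2, smul_sub, smul_ite, smul_zero]
  rw [Finset.sum_sub_distrib, Finset.sum_ite_eq' , Finset.sum_ite_eq', if_pos h.a, if_pos h.b,
    ← sub_smul]
  norm_num

/-- the weights of the two labels of a joint eigenvector -/
theorem je_weight (S : ASys D At) (ho : ∀ i, D.odd (D.typ i)) (he : ∀ i j, D.typ i = D.typ j)
    {n : ℕ} (hF : Feas ((Kr D At n : Submodule ℂ (Ten I n)) : Set (Ten I n)) (CC D At) p q wt)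
    (G : Grad D At q wt e e' g) {T : Finset ℝ} {α β : ℝ} {v : I → ℂ} (h : JE D g T α β v)
    (hv : v ≠ 0) : α + β ≤ -1 := by
  have hpq := hF.pq
  have hqp := mul_eq_one_comm.1 hpq
  -- some coordinate of weight at least `α`
  obtain ⟨x, hx, hx0⟩ : ∃ x, α ≤ wt x ∧ (q *ᵥ (Psi D *ᵥ v)) x ≠ 0 := by
    by_contra hcon
    push Not at hcon
    have h1 := (G.up' α v).1 hcon
    rw [← h.ga, Matrix.mulVec_mulVec, G.e'g, Matrix.zero_mulVec, h.ga] at h1
    exact hv h1.symm
  have h1 : q *ᵥ (Psi D *ᵥ v) = (q * Psi D * q.transpose) *ᵥ (p.transpose *ᵥ v) := by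
    rw [Matrix.mulVec_mulVec, Matrix.mulVec_mulVec]
    congr 1
    rw [Matrix.mul_assoc (q * Psi D), ← Matrix.transpose_mul, hpq, Matrix.transpose_one,
      Matrix.mul_one]
  rw [h1, Matrix.mulVec, dotProduct] at hx0
  obtain ⟨y, _, hy⟩ := Finset.exists_ne_zero_of_sum_ne_zero hx0
  have hy1 := left_ne_zero_of_mul hy
  have hy2 := right_ne_zero_of_mul hy
  have hxy : wt x + wt y ≤ -1 := by
    have hne : Nonempty I := ⟨x⟩
    obtain ⟨a⟩ := hne
    have hmem : (Psi D : I → I → ℂ) ∈ CC D At := by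
      refine ⟨om D (D.typ a), sub_CA (S.om _), ?_⟩
      rw [tm_om he, PsiT_mul_Psi, Matrix.one_mul]
    refine hF.biv (Psi D) hmem x y fun h0 => hy1 ?_
    rw [← h0, Matrix.mul_apply, Finset.sum_comm]
    refine Finset.sum_congr rfl fun y' _ => ?_
    rw [Matrix.mul_apply, Finset.sum_mul]
    refine Finset.sum_congr rfl fun x' _ => ?_
    rw [Matrix.transpose_apply]
    change q x x' * Psi D x' y' * q y y' = q x x' * q y y' * Psi D x' y'
    ring
  -- the weight of `y` is at least `β`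
  have hyβ : β ≤ wt y := by
    by_contra hlt
    rw [not_le] at hlt
    obtain ⟨u, hu⟩ : ∃ u : I → ℂ, u = -(Psi D *ᵥ fun z => p z y) := ⟨_, rfl⟩
    have hΨu : Psi D *ᵥ u = fun z => p z y := by
      rw [hu, Matrix.mulVec_neg, Matrix.mulVec_mulVec, Psi_mul_Psi ho, Matrix.neg_mulVec,
        Matrix.one_mulVec, neg_neg]
    have huU : u ∈ Up D q wt (fun r => β ≤ r) := by
      intro z hz
      rw [hΨu]
      have h3 : (q *ᵥ fun z => p z y) z = (q * p) z y := rfl
      rw [h3, hqp, Matrix.one_apply_ne]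
      rintro rfl
      exact absurd hz (not_le.2 hlt)
    have h4 := (G.up' β u).1 huU
    apply hy2
    have h5 : (p.transpose *ᵥ v) y = (fun z => p z y) ⬝ᵥ v := rfl
    rw [h5, ← hΨu, ← h4, dotProduct_comm, Matrix.mulVec_mulVec, Psi_mul_eq ho,
      ← Matrix.mulVec_mulVec, Matrix.dotProduct_mulVec, ← Matrix.mulVec_transpose,
      Matrix.transpose_transpose]
    have h6 : Nd.dag D (e' β) *ᵥ v = 0 := by
      rw [← h.gb, Matrix.mulVec_mulVec, ← dag_mul ho, (G.cen β).comm _ (G.cen' β).mem, G.e'g]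
      have : Nd.dag D (0 : Matrix I I ℂ) = 0 := by
        unfold Nd.dag
        simp
      rw [this, Matrix.zero_mulVec]
    rw [h6, zero_dotProduct]
  linarith

/-- **Nondegeneracy** for systems killed by the central elements of the Lie algebra. -/
theorem kr_eq_zero (S : ASys D At) (ho : ∀ i, D.odd (D.typ i)) (he : ∀ i j, D.typ i = D.typ j)
    (Γ : Set (Matrix I I ℂ)) (grp : ∀ x ∈ Γ, IsG D x)
    (gfix : ∀ x ∈ Γ, ∀ L u, At L u → gT x u = u)
    (orbit : ∀ U : Submodule ℂ (I → ℂ),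
      (∀ z, At 2 z → ∀ v ∈ U, (opM D z).mulVec v ∈ U) →
      {U' : Submodule ℂ (I → ℂ) | ∃ x ∈ Γ, U' = U.map (Matrix.toLin' x)}.Finite →
      ∃ e ∈ endS D At, e * e = e ∧ (∀ z, At 2 z → e * opM D z = opM D z * e) ∧
        U = LinearMap.range (Matrix.toLin' e))
    (lie : ∀ B ∈ endS D At, IsLie D B → (∀ z, At 2 z → B * opM D z = opM D z * B) →
      ∀ L u, At L u → aT B u = 0)
    (n : ℕ) (t : Ten I n) (ht : t ∈ Kr D At n) : t = 0 := by
  classical
  obtain ⟨p, q, wt, hF, hst⟩ := exists_opt S ho n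
  obtain ⟨e, e', g, G⟩ := exists_grad S ho he Γ grp gfix orbit hF.pq hst
  have hpq := hF.pq
  -- a basis of joint eigenvectors
  let b := Module.Basis.ofSpan (span_je S ho G)
  have hb : ∀ κ, ∃ α β, JE D g (Finset.univ.image wt) α β (b κ) := fun κ =>
    Module.Basis.ofSpan_subset (span_je S ho G) ⟨κ, rfl⟩
  choose α β hJ using hb
  have hfin : Finite ((linearIndepOn_empty ℂ (id : (I → ℂ) → I → ℂ)).extend
      (Set.empty_subset {v | ∃ α β, JE D g (Finset.univ.image wt) α β v})) :=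
    Module.Finite.finite_basis b
  -- the map `Ψ`
  let ψe : (I → ℂ) ≃ₗ[ℂ] (I → ℂ) :=
    { toFun := fun v => Psi D *ᵥ v
      map_add' := fun a b => Matrix.mulVec_add _ _ _
      map_smul' := fun c a => Matrix.mulVec_smul _ _ _
      invFun := fun v => -(Psi D *ᵥ v)
      left_inv := fun v => by
        change -(Psi D *ᵥ (Psi D *ᵥ v)) = v
        rw [Matrix.mulVec_mulVec, Psi_mul_Psi ho, Matrix.neg_mulVec, Matrix.one_mulVec, neg_neg]
      right_inv := fun v => by
        change Psi D *ᵥ -(Psi D *ᵥ v) = v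
        rw [Matrix.mulVec_neg, Matrix.mulVec_mulVec, Psi_mul_Psi ho, Matrix.neg_mulVec,
          Matrix.one_mulVec, neg_neg] }
  refine eq_zero_of_ev (b.map ψe) t fun κ => ?_
  by_contra hne
  have hne' : ev (Ω := ℂ) (t : Tens I ℂ n) (fun a => Psi D *ᵥ b (κ a)) ≠ 0 := by
    intro h
    apply hne
    rw [← h]
    congr 1
  -- (1) the weight of `t`
  have h1 : 1 ≤ ∑ a, α (κ a) := by
    rw [ev_expand t hpq] at hne'
    obtain ⟨J, _, hJ0⟩ := Finset.exists_ne_zero_of_sum_ne_zero hne'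
    have h2 := hF.tens t ht J (right_ne_zero_of_mul hJ0)
    refine h2.trans (Finset.sum_le_sum fun a _ => ?_)
    by_contra hlt
    rw [not_le] at hlt
    refine left_ne_zero_of_mul hJ0 (Finset.prod_eq_zero (Finset.mem_univ a) ?_)
    have h3 : b (κ a) ∈ Up D q wt (fun r => α (κ a) < r) := by
      refine (G.up _ _).2 ?_
      rw [← (hJ (κ a)).ga, Matrix.mulVec_mulVec, G.eg]
    exact h3 (J a) hlt
  -- (2) `t` is killed by the central element
  have h2 : ∑ a, (α (κ a) - β (κ a)) = 0 := by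
    have hB : aT (BB D g (Finset.univ.image wt)) t = 0 := by
      have h3 : ∀ u ∈ CA At n, aT (BB D g (Finset.univ.image wt)) u = 0 := by
        intro u hu
        unfold CA at hu
        induction hu using Submodule.span_induction with
        | mem u hu =>
          exact lie _ (BB_cen S ho G _).mem (BB_lie ho he _)
            (fun z hz => (BB_cen S ho G _).comm _ (Submodule.subset_span ⟨z, hz, rfl⟩)) n u hu
        | zero =>
          have h := alg1.aT_smul (BB D g (Finset.univ.image wt)) (0 : ℂ) (0 : Ten I n)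
          rwa [zero_smul, zero_smul] at h
        | add a b _ _ ha hb => rw [alg1.aT_add, ha, hb, add_zero]
        | smul c a _ ha => rw [alg1.aT_smul, ha, smul_zero]
      exact h3 t ht.1
    have h3 := alg1.psiT_aT D (BB D g (Finset.univ.image wt)) t
      (fun w : Fin n → I => ∏ a, b (κ a) (w a)) (BB_lie ho he _)
    rw [hB, aT_simple (fun a => BB_je ho G (hJ (κ a)))] at h3
    have h4 : psiT D (0 : Ten I n) (fun w : Fin n → I => ∏ a, b (κ a) (w a)) = 0 := by
      rw [← Qps.psiL_apply, map_zero, LinearMap.zero_apply]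
    rw [h4, ← Qps.psiL_apply, map_smul, Qps.psiL_apply, psi_simple, smul_eq_mul] at h3
    have h5 : (∑ a, ((α (κ a) - β (κ a) : ℝ) : ℂ)) = 0 := by
      rcases mul_eq_zero.1 (neg_eq_zero.1 h3.symm) with h | h
      · exact h
      · exact absurd h hne'
    exact_mod_cast h5
  -- (3) the weights of the bivector
  have h3 : ∀ a, α (κ a) + β (κ a) ≤ -1 := fun a =>
    je_weight S ho he hF G (hJ (κ a)) (b.ne_zero _)
  have h4 : ∑ a, (α (κ a) + β (κ a)) ≤ 0 :=
    Finset.sum_nonpos fun a _ => (h3 a).trans (by norm_num)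
  rw [Finset.sum_sub_distrib] at h2
  rw [Finset.sum_add_distrib] at h4
  linarith

/-- **Nondegeneracy**, in the form of the field `nd` of `GSys`. -/
theorem nd_of_central (S : ASys D At) (ho : ∀ i, D.odd (D.typ i))
    (he : ∀ i j, D.typ i = D.typ j) (Γ : Set (Matrix I I ℂ)) (grp : ∀ x ∈ Γ, IsG D x)
    (gfix : ∀ x ∈ Γ, ∀ L u, At L u → gT x u = u)
    (orbit : ∀ U : Submodule ℂ (I → ℂ),
      (∀ z, At 2 z → ∀ v ∈ U, (opM D z).mulVec v ∈ U) →
      {U' : Submodule ℂ (I → ℂ) | ∃ x ∈ Γ, U' = U.map (Matrix.toLin' x)}.Finite →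
      ∃ e ∈ endS D At, e * e = e ∧ (∀ z, At 2 z → e * opM D z = opM D z * e) ∧
        U = LinearMap.range (Matrix.toLin' e))
    (lie : ∀ B ∈ endS D At, IsLie D B → (∀ z, At 2 z → B * opM D z = opM D z * B) →
      ∀ L u, At L u → aT B u = 0) :
    ∀ L, ∀ u ∈ Submodule.span ℂ {u | At L u}, u ≠ 0 →
      ∃ v ∈ Submodule.span ℂ {u | At L u}, psiT D u v ≠ 0 := by
  intro L u hu h0
  by_contra hcon
  push Not at hcon
  exact h0 (kr_eq_zero S ho he Γ grp gfix orbit lie L u ⟨hu, hcon⟩)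

end Pool.Agent.Lib.MP_361a6f_ag.FL.E.NdZ
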