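import Pool.Agent.Lib.MP_361a6f_ag.FL.E.StatE
import Pool.Agent.Lib.MP_361a6f_ag.FL.E.Sub
import Pool.Agent.Lib.MP_361a6f_ag.FL.Ge
import Pool.Agent.Lib.MP_361a6f_ag.FL.GB

/-!
# Theorem E, row G8: subspaces of `H^d(X)` and subspaces of the coordinate space of a letter
-/

open CategoryTheory AlgebraicGeometry MonoidalCategory CartesianMonoidalCategory

universe u v w u' w'

set_option autoImplicit false
set_option linter.unusedSectionVars false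

namespace Pool.Agent.Lib.MP_361a6f_ag.FL.E

open Pool.Agent.Lib.MP_361a6f_ag.H3 Pool.Agent.Lib.MP_361a6f_ag.SQ
  Pool.Agent.Lib.MP_361a6f_ag.PP

noncomputable section

namespace Orb

variable {k : Type u} [Field k] {W : CohomologyData.{u, 0, w} k ℂ} {𝒱 : VarietyClass k}
  (H : Host W 𝒱 1) (d : ℕ)

/-- the letter of degree `d` -/
abbrev lt (d : ℕ) : Fin 1 × ℕ := ((0 : Fin 1), d)

/-- the class of degree `d` with given coordinates -/
def cls : (Sub H.D (lt d) → ℂ) →ₗ[ℂ] W.coh (H.X 0) where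
  toFun v := ∑ i, v i • H.e 0 i.1
  map_add' u v := by simp only [Pi.add_apply, add_smul, Finset.sum_add_distrib]
  map_smul' c v := by
    simp only [Pi.smul_apply, smul_eq_mul, mul_smul, RingHom.id_apply, Finset.smul_sum]

/-- a vector as a tensor of length `1` -/
def t1 {J : Type} (v : J → ℂ) : Ten J 1 := fun w => v (w 0)

theorem t1_inj {J : Type} {u v : J → ℂ} (h : t1 u = t1 v) : u = v :=
  funext fun j => congrFun h fun _ => j

variable {H d}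

theorem not_off (P : Prd 1) (w : Fin P.size → H.I) : ¬ H.Off P w := by
  rintro ⟨i, hi⟩
  exact hi (Subsingleton.elim _ _)

theorem typ_fst (i : H.I) : H.D.typ i = lt (H.D.typ i).2 :=
  Prod.ext (Subsingleton.elim _ _) rfl

theorem tc_cls (ge : H.GeFacts) (v : Sub H.D (lt d) → ℂ) :
    H.tc (.leaf 0) (cls H d v) = (ext0 H.D (lt d) (t1 v) : Ten H.I 1) := by
  have h := ge.tc_sum (.leaf 0) (ext0 H.D (lt d) (t1 v) : Ten H.I 1)
    fun w hw => absurd hw (not_off _ w)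
  rw [← h]
  congr 1
  have h1 : ∑ w : Fin 1 → H.I, (ext0 H.D (lt d) (t1 v) : Ten H.I 1) w • H.e 0 (w 0) =
      ∑ w : Fin 1 → Sub H.D (lt d), (ext0 H.D (lt d) (t1 v) : Ten H.I 1) (up w) •
        H.e 0 (up w 0) := by
    refine sum_on (D := H.D) (α := lt d)
      (f := fun w => (ext0 H.D (lt d) (t1 v) : Ten H.I 1) w • H.e 0 (w 0)) fun w hw => ?_
    change (ext0 H.D (lt d) (t1 v) : Ten H.I 1) w • H.e 0 (w 0) = 0
    rw [ext0_off _ hw, zero_smul]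
  refine Eq.trans ?_ h1.symm
  change ∑ i, v i • H.e 0 i.1 = _
  refine (Fintype.sum_equiv (Equiv.funUnique (Fin 1) (Sub H.D (lt d))) _ _ fun w => ?_).symm
  rw [ext0_up]
  rfl

theorem cls_inj (ge : H.GeFacts) : Function.Injective (cls H d) := by
  intro u v h
  have h1 := congrArg (H.tc (.leaf 0)) h
  rw [tc_cls ge, tc_cls ge] at h1
  exact t1_inj (ext0_inj h1)

theorem cls_gr (v : Sub H.D (lt d) → ℂ) : cls H d v ∈ W.gr (H.X 0) d := by
  refine Submodule.sum_mem _ fun i _ => Submodule.smul_mem _ _ ?_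
  have h := H.e_gr 0 i.1
  rwa [i.2] at h

theorem tc_gr (hSta : StaStatement.{w}) {z : W.coh (H.X 0)} (hz : z ∈ W.gr (H.X 0) d)
    {w : Fin 1 → H.I} (hw : ¬ On H.D (lt d) w) : H.tc (.leaf 0) z w = 0 := by
  rw [H.tc_apply]
  have h1 : H.psiP (.leaf 0) z (H.E (.leaf 0) (H.D.τ ∘ w)) = 0 := by
    have he : H.e 0 (H.D.τ (w (0 : Fin 1))) ∈ W.gr (H.X 0) (H.D.typ (H.D.τ (w (0 : Fin 1)))).2 :=
      H.e_gr 0 _
    refine GB.psi_gr_ne H.hW hSta (H.mem 0) (H.ξ_alg 0) (H.lam 0) hz he fun h => hw fun i => ?_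
    rw [H.D.typ_τ] at h
    rw [Subsingleton.elim i (0 : Fin 1), typ_fst, ← h]
  rw [h1, mul_zero]

theorem cls_surj (hSta : StaStatement.{w}) (ge : H.GeFacts) {z : W.coh (H.X 0)}
    (hz : z ∈ W.gr (H.X 0) d) : ∃ v, cls H d v = z := by
  refine ⟨fun i => H.tc (.leaf 0) z (fun _ => i.1), ?_⟩
  apply ge.inj (.leaf 0)
  rw [tc_cls ge]
  symm
  refine eq_ext0 (fun w => ?_) fun w hw => tc_gr hSta hz hw
  change H.tc (.leaf 0) z (up w) = H.tc (.leaf 0) z (fun _ => (w (0 : Fin 1)).1)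
  congr 1

theorem range_cls (hSta : StaStatement.{w}) (ge : H.GeFacts) :
    LinearMap.range (cls H d) = W.gr (H.X 0) d := by
  refine le_antisymm ?_ fun z hz => ?_
  · rintro _ ⟨v, rfl⟩
    exact cls_gr v
  · obtain ⟨v, rfl⟩ := cls_surj hSta ge hz
    exact ⟨v, rfl⟩

theorem gT_t1 {J : Type} [Fintype J] [DecidableEq J] (M : Matrix J J ℂ) (v : J → ℂ) :
    gT M (t1 v) = t1 (M.mulVec v) := by
  funext w
  unfold gT t1 Matrix.mulVec dotProduct
  refine Fintype.sum_equiv (Equiv.funUnique (Fin 1) J) _ _ fun w' => ?_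
  rw [Fin.prod_univ_one]
  rfl

/-- an operator with the matrix `M` acts on the letter by the block of `M` -/
theorem map_cls (ge : H.GeFacts) {M : Matrix H.I H.I ℂ}
    (hM : ∀ i j, H.D.typ i ≠ H.D.typ j → M i j = 0) {T : W.coh (H.X 0) → W.coh (H.X 0)}
    (hT : ∀ z, H.tc (.leaf 0) (T z) = gT M (H.tc (.leaf 0) z)) (v : Sub H.D (lt d) → ℂ) :
    T (cls H d v) = cls H d ((blk M).mulVec v) := by
  apply ge.inj (.leaf 0)
  rw [hT, tc_cls ge, tc_cls ge]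
  change gT M (ext0 H.D (lt d) (t1 v) : Ten H.I 1) = _
  rw [gT_ext hM, gT_t1]

/-- the matrices of the symmetries -/
def SymMat (H : Host W 𝒱 1) (M : Matrix H.I H.I ℂ) : Prop :=
  IsG H.D M ∧ ∃ T : ∀ P : Prd 1, W.coh (P.obj H.X) → W.coh (P.obj H.X),
    (∀ P z, H.tc P (T P z) = gT M (H.tc P z)) ∧
      ∀ P l z, W.IsAlg (P.obj H.X) l z → T P z = z

/-- the image of a subspace under `cls`, as a set -/
theorem finite_of (ge : H.GeFacts) (U : Submodule ℂ (Sub H.D (lt d) → ℂ))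
    (Γ : Set (Matrix H.I H.I ℂ)) (hΓ : ∀ M ∈ Γ, ∀ i j, H.D.typ i ≠ H.D.typ j → M i j = 0)
    (𝒯 : (W.coh (H.X 0) → W.coh (H.X 0)) → Prop)
    (h𝒯 : ∀ T, 𝒯 T → ∃ M ∈ Γ, ∀ z, H.tc (.leaf 0) (T z) = gT M (H.tc (.leaf 0) z))
    (hf : {U' : Submodule ℂ (Sub H.D (lt d) → ℂ) |
      ∃ x ∈ (blk '' Γ : Set (Matrix (Sub H.D (lt d)) (Sub H.D (lt d)) ℂ)),
        U' = U.map (Matrix.toLin' x)}.Finite) :
    {S : Set (W.coh (H.X 0)) | ∃ T, 𝒯 T ∧ ∀ y, y ∈ S ↔ ∃ x ∈ U.map (cls H d), T x = y}.Finite := by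
  refine (hf.image fun U' => ((U'.map (cls H d) : Submodule ℂ (W.coh (H.X 0))) :
    Set (W.coh (H.X 0)))).subset ?_
  rintro S ⟨T, hT, hS⟩
  obtain ⟨M, hM, hTM⟩ := h𝒯 T hT
  refine ⟨U.map (Matrix.toLin' (blk M)), ⟨blk M, ⟨M, hM, rfl⟩, rfl⟩, ?_⟩
  ext y
  rw [hS y]
  constructor
  · rintro ⟨_, ⟨v, hv, rfl⟩, rfl⟩
    refine ⟨cls H d v, ⟨v, hv, rfl⟩, ?_⟩
    rw [map_cls ge (hΓ M hM) hTM, Matrix.toLin'_apply]
  · rintro ⟨_, ⟨v, hv, rfl⟩, rfl⟩
    refine ⟨Matrix.toLin' (blk M) v, ⟨v, hv, rfl⟩, ?_⟩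
    rw [map_cls ge (hΓ M hM) hTM, Matrix.toLin'_apply]

theorem eq_of_map (ge : H.GeFacts) (U : Submodule ℂ (Sub H.D (lt d) → ℂ))
    (h : U.map (cls H d) = ⊥ ∨ U.map (cls H d) = W.gr (H.X 0) d) : U = ⊥ ∨ U = ⊤ := by
  rcases h with h | h
  · left
    rw [eq_bot_iff]
    intro v hv
    have h1 : cls H d v ∈ U.map (cls H d) := ⟨v, hv, rfl⟩
    rw [h, Submodule.mem_bot] at h1
    exact cls_inj ge (h1.trans (map_zero _).symm)
  · right
    rw [eq_top_iff]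
    intro v _
    have h1 : cls H d v ∈ U.map (cls H d) := by
      rw [h]
      exact cls_gr v
    obtain ⟨u, hu, h2⟩ := h1
    rwa [← cls_inj ge h2]

end Orb

end

end Pool.Agent.Lib.MP_361a6f_ag.FL.E
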