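import Pool.Agent.Lib.MP_361a6f_ag.FL.E.Orb
import Pool.Agent.Lib.MP_361a6f_ag.FL.E.DefsP
import Pool.Agent.Lib.MP_361a6f_ag.FL.GC
import Pool.Agent.Lib.MP_361a6f_ag.SQ.OpTen
import Pool.Agent.Lib.MP_361a6f_ag.H3.Corr

/-!
# Theorem E+, row G8: subspaces that are stable under the endomorphisms

If a subspace of the coordinate space of the letter `(0, d)` is stable under the matrices `opM z`
of the members `z` of length `2`, then the corresponding subspace of `H^d(X)` is stable under the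
pull-backs along all endomorphisms of `X` (and under all operators given by correspondences).
-/

open CategoryTheory AlgebraicGeometry MonoidalCategory CartesianMonoidalCategory

universe u v w u' w'

set_option autoImplicit false
set_option linter.unusedSectionVars false

namespace Pool.Agent.Lib.MP_361a6f_ag.FL.E

open Pool.Agent.Lib.MP_361a6f_ag.H3 Pool.Agent.Lib.MP_361a6f_ag.SQ
  Pool.Agent.Lib.MP_361a6f_ag.PP

noncomputable section

namespace Orb

section abs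

variable {I Λ : Type} [Fintype I] [DecidableEq I] [DecidableEq Λ] {D : Dat I Λ}

/-- a matrix in the first slot of a tensor of length `2` -/
def sl0 (M : Matrix I I ℂ) : Ten I 2 →ₗ[ℂ] Ten I 2 where
  toFun u := fun w => ∑ j, M (w 0) j * u ![j, w 1]
  map_add' u v := by
    funext w
    simp only [Pi.add_apply, mul_add, Finset.sum_add_distrib]
  map_smul' c u := by
    funext w
    simp only [Pi.smul_apply, smul_eq_mul, RingHom.id_apply, Finset.mul_sum]
    exact Finset.sum_congr rfl fun j _ => by ring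

theorem sl0_apply (M : Matrix I I ℂ) (u : Ten I 2) (w : Fin 2 → I) :
    sl0 M u w = ∑ j, M (w 0) j * u ![j, w 1] := rfl

/-- the tensor over one letter of a block matrix -/
def mt (D : Dat I Λ) (α : Λ) (M : Matrix I I ℂ) : Ten (Sub D α) 2 :=
  fun w => M (w 0) (D.τ (w 1)) * D.s (D.τ (w 1))

theorem sl0_om {M : Matrix I I ℂ} (hM : ∀ i j, D.typ i ≠ D.typ j → M i j = 0) (α : Λ) :
    sl0 M (om D α) = ext0 D α (mt D α M) := by
  refine eq_ext0 (fun w => ?_) fun w hw => ?_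
  · rw [sl0_apply, Finset.sum_eq_single (D.τ (up w 1))]
    · rw [om, if_pos]
      · rfl
      · refine ⟨?_, ?_⟩
        · rw [Matrix.cons_val_zero, D.typ_τ]
          exact (w 1).2
        · rw [Matrix.cons_val_zero, D.τ_τ]
          rfl
    · intro j _ hj
      rw [om, if_neg, mul_zero]
      rintro ⟨-, h⟩
      apply hj
      have h1 : up w 1 = D.τ j := h
      rw [h1, D.τ_τ]
    · intro h
      exact absurd (Finset.mem_univ _) h
  · rw [sl0_apply]
    refine Finset.sum_eq_zero fun j _ => ?_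
    by_cases h : D.typ (w 0) = D.typ j
    · rw [om, if_neg, mul_zero]
      rintro ⟨h1, h2⟩
      have h1' : D.typ j = α := h1
      have h2' : w 1 = D.τ j := h2
      refine hw fun i => ?_
      fin_cases i
      · exact h.trans h1'
      · change D.typ (w 1) = α
        rw [h2', D.typ_τ, h1']
    · rw [hM _ _ h, zero_mul]

theorem opM_mt (α : Λ) (M : Matrix I I ℂ) :
    opM (subD D α) (mt D α M) = (blk M : Matrix (Sub D α) (Sub D α) ℂ) := by
  ext i j
  unfold opM mt blk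
  rw [Matrix.submatrix_apply]
  change M i (D.τ (D.τ j)) * D.s (D.τ (D.τ j)) * D.s j = M i j
  rw [D.τ_τ, mul_assoc]
  rcases D.s_val j with h | h <;> rw [h] <;> norm_num

end abs

variable {k : Type u} [Field k] {W : CohomologyData.{u, 0, w} k ℂ} {𝒱 : VarietyClass k}
  {H : Host W 𝒱 1} {d : ℕ}

theorem size_two {P : Prd 1} (hP : P.size = 2) : P = .prod (.leaf 0) (.leaf 0) := by
  rcases P with a | ⟨P, Q⟩
  · have h1 : (1 : ℕ) = 2 := hP
    omega
  · have h1 : P.size + Q.size = 2 := hP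
    have h2 := P.size_posC
    have h3 := Q.size_posC
    have hl : ∀ R : Prd 1, R.size = 1 → R = .leaf 0 := by
      intro R hR
      rcases R with a | ⟨R, S⟩
      · rw [Subsingleton.elim a 0]
      · have h4 : R.size + S.size = 1 := hR
        have h5 := R.size_posC
        have h6 := S.size_posC
        omega
    rw [hl P (by omega), hl Q (by omega)]

/-- an operator on the first factor acts on the first slot -/
theorem tc_first (ge : H.GeFacts) {M : Matrix H.I H.I ℂ}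
    {φ : W.coh (H.X 0) →ₗ[ℂ] W.coh (H.X 0)} (hφ : ∀ j, φ (H.e 0 j) = ∑ i, M i j • H.e 0 i)
    {Φ : W.coh (H.X 0 ⊗ H.X 0) →ₗ[ℂ] W.coh (H.X 0 ⊗ H.X 0)}
    (hΦ : ∀ x y, Φ (W.pull (fst (H.X 0) (H.X 0)) x * W.pull (snd (H.X 0) (H.X 0)) y) =
      W.pull (fst (H.X 0) (H.X 0)) (φ x) * W.pull (snd (H.X 0) (H.X 0)) y)
    (T : W.coh (H.X 0 ⊗ H.X 0) →ₗ[ℂ] Ten H.I 2) (hT : T = H.tc (.prod (.leaf 0) (.leaf 0)))
    (z : W.coh (H.X 0 ⊗ H.X 0)) : T (Φ z) = sl0 M (T z) := by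
  let T1 : W.coh (H.X 0) →ₗ[ℂ] Ten H.I 1 := H.tc (.leaf 0)
  have hTo : ∀ x y : W.coh (H.X 0), T (W.pull (fst (H.X 0) (H.X 0)) x *
      W.pull (snd (H.X 0) (H.X 0)) y) = (outer (T1 x) (T1 y) : Ten H.I (1 + 1)) := by
    rw [hT]
    exact ge.tc_outer (.leaf 0) (.leaf 0)
  have ha : ∀ a : Fin 1, a = 0 := fun a => Subsingleton.elim _ _
  have h2 : ∀ (x : H.I) (v : Fin 1 → H.I), T1 (H.e 0 x) v = if v 0 = x then 1 else 0 := by
    intro x v
    have h : T1 (H.e 0 x) v = if (H.D.typ x).1 = 0 ∧ v 0 = x then 1 else 0 :=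
      GC.tc_e H 0 x v
    rw [h]
    by_cases hv : v 0 = x
    · rw [if_pos ⟨ha _, hv⟩, if_pos hv]
    · rw [if_neg fun h => hv h.2, if_neg hv]
  have h1 : ∀ (x : H.I) (v : Fin 1 → H.I), T1 (φ (H.e 0 x)) v = M (v 0) x := by
    intro x v
    rw [hφ, map_sum, Finset.sum_apply, Finset.sum_eq_single (v 0)]
    · rw [map_smul, Pi.smul_apply, h2, if_pos rfl, smul_eq_mul, mul_one]
    · intro i _ hi
      rw [map_smul, Pi.smul_apply, h2, if_neg fun h => hi h.symm, smul_zero]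
    · intro h
      exact absurd (Finset.mem_univ _) h
  have hex : z = ∑ w : Fin 2 → H.I, T z w • (W.pull (fst (H.X 0) (H.X 0)) (H.e 0 (w 0)) *
      W.pull (snd (H.X 0) (H.X 0)) (H.e 0 (w 1))) := by
    rw [hT]
    exact ge.expand (.prod (.leaf 0) (.leaf 0)) z
  have hkey : ∀ x y : H.I, T (Φ (W.pull (fst (H.X 0) (H.X 0)) (H.e 0 x) *
        W.pull (snd (H.X 0) (H.X 0)) (H.e 0 y)))
      = sl0 M (T (W.pull (fst (H.X 0) (H.X 0)) (H.e 0 x) *
          W.pull (snd (H.X 0) (H.X 0)) (H.e 0 y))) := by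
    intro x y
    rw [hΦ, hTo, hTo]
    funext w
    rw [sl0_apply, Finset.sum_eq_single x]
    · change T1 (φ (H.e 0 x)) (fun i => w (Fin.castAdd 1 i)) *
          T1 (H.e 0 y) (fun i => w (Fin.natAdd 1 i))
        = M (w 0) x *
          (T1 (H.e 0 x) (fun i => (![x, w 1] : Fin 2 → H.I) (Fin.castAdd 1 i)) *
          T1 (H.e 0 y) (fun i => (![x, w 1] : Fin 2 → H.I) (Fin.natAdd 1 i)))
      rw [h1, h2, h2, h2, if_pos (show (![x, w 1] : Fin 2 → H.I)
        (Fin.castAdd 1 0) = x from rfl), one_mul]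
      rfl
    · intro j _ hj
      change M (w 0) j *
          (T1 (H.e 0 x) (fun i => (![j, w 1] : Fin 2 → H.I) (Fin.castAdd 1 i)) *
          T1 (H.e 0 y) (fun i => (![j, w 1] : Fin 2 → H.I) (Fin.natAdd 1 i))) = 0
      rw [h2, if_neg (show ¬ (![j, w 1] : Fin 2 → H.I) (Fin.castAdd 1 0) = x from hj), zero_mul,
        mul_zero]
    · intro h
      exact absurd (Finset.mem_univ _) h
  conv_lhs => rw [hex]
  conv_rhs => rw [hex]
  rw [map_sum, map_sum, map_sum, map_sum]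
  refine Finset.sum_congr rfl fun w _ => ?_
  rw [map_smul, map_smul, map_smul, map_smul, hkey]

/-- an operator on the first factor that preserves algebraic classes preserves the system -/
theorem sl0_mem (ge : H.GeFacts) {M : Matrix H.I H.I ℂ}
    {φ : W.coh (H.X 0) →ₗ[ℂ] W.coh (H.X 0)} (hφ : ∀ j, φ (H.e 0 j) = ∑ i, M i j • H.e 0 i)
    {Φ : W.coh (H.X 0 ⊗ H.X 0) →ₗ[ℂ] W.coh (H.X 0 ⊗ H.X 0)}
    (hΦ : ∀ x y, Φ (W.pull (fst (H.X 0) (H.X 0)) x * W.pull (snd (H.X 0) (H.X 0)) y) =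
      W.pull (fst (H.X 0) (H.X 0)) (φ x) * W.pull (snd (H.X 0) (H.X 0)) y)
    (htot : ∀ z ∈ tot W (H.X 0 ⊗ H.X 0), Φ z ∈ tot W (H.X 0 ⊗ H.X 0)) :
    ∀ u ∈ H.At 2, sl0 M u ∈ H.At 2 := by
  intro u hu
  refine AddSubgroup.closure_induction (p := fun u _ => sl0 M u ∈ H.At 2) ?_ ?_ ?_ ?_ hu
  · rintro _ (⟨h, -⟩ | ⟨P, hP, z, hz, rfl⟩)
    · exact absurd h (by norm_num)
    · obtain rfl := size_two hP
      have h1 := tc_first ge hφ hΦ (H.tc (.prod (.leaf 0) (.leaf 0))) rfl z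
      have h3 := GC.tc_mem H (P := .prod (.leaf 0) (.leaf 0)) (htot z hz)
      have h4 : (H.tc (.prod (.leaf 0) (.leaf 0))) (Φ z) ∈ H.At 2 := h3
      exact (congrArg (fun u : Ten H.I 2 => u ∈ H.At 2) h1).mp h4
  · rw [map_zero]
    exact zero_mem _
  · intro a b _ _ ha hb
    rw [map_add]
    exact add_mem ha hb
  · intro a _ ha
    rw [map_neg]
    exact neg_mem ha

/-- `U` is stable under the matrices of the members of length `2` -/
def Stable (H : Host W 𝒱 1) (d : ℕ) (U : Submodule ℂ (Sub H.D (lt d) → ℂ)) : Prop :=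
  ∀ z, atS H.D (lt d) (fun L u => u ∈ H.At L) 2 z → ∀ v ∈ U,
    (opM (subD H.D (lt d)) z).mulVec v ∈ U

/-- a stable subspace is stable under the operators of degree `0` on `H^*(X)` which preserve the
algebraic classes on `X × X` if they act on the first factor -/
theorem stable_op (ge : H.GeFacts) (at_ : H.AtFacts) {M : Matrix H.I H.I ℂ}
    (hM : ∀ i j, H.D.typ i ≠ H.D.typ j → M i j = 0)
    {φ : W.coh (H.X 0) →ₗ[ℂ] W.coh (H.X 0)} (hφ : ∀ j, φ (H.e 0 j) = ∑ i, M i j • H.e 0 i)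
    {Φ : W.coh (H.X 0 ⊗ H.X 0) →ₗ[ℂ] W.coh (H.X 0 ⊗ H.X 0)}
    (hΦ : ∀ x y, Φ (W.pull (fst (H.X 0) (H.X 0)) x * W.pull (snd (H.X 0) (H.X 0)) y) =
      W.pull (fst (H.X 0) (H.X 0)) (φ x) * W.pull (snd (H.X 0) (H.X 0)) y)
    (htot : ∀ z ∈ tot W (H.X 0 ⊗ H.X 0), Φ z ∈ tot W (H.X 0 ⊗ H.X 0))
    {U : Submodule ℂ (Sub H.D (lt d) → ℂ)} (hU : Stable H d U) :
    ∀ x ∈ U.map (cls H d), φ x ∈ U.map (cls H d) := by
  rintro _ ⟨v, hv, rfl⟩
  have h1 : atS H.D (lt d) (fun L u => u ∈ H.At L) 2 (mt H.D (lt d) M) := by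
    change ext0 H.D (lt d) (mt H.D (lt d) M) ∈ H.At 2
    rw [← sl0_om hM]
    exact sl0_mem ge hφ hΦ htot _ (at_.om (lt d))
  refine ⟨(blk M).mulVec v, ?_, ?_⟩
  · rw [← opM_mt]
    exact hU _ h1 v hv
  · change ∑ i, (blk M).mulVec v i • H.e 0 i.1 = φ (∑ j, v j • H.e 0 j.1)
    rw [map_sum]
    have h2 : ∀ j : Sub H.D (lt d), φ (v j • H.e 0 j.1) =
        ∑ i : Sub H.D (lt d), (M i.1 j.1 * v j) • H.e 0 i.1 := by
      intro j
      rw [map_smul, hφ, Finset.smul_sum,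
        ← Finset.sum_filter_add_sum_filter_not Finset.univ (fun i => H.D.typ i = lt d),
        Finset.sum_eq_zero (s := Finset.univ.filter fun i => ¬ H.D.typ i = lt d), add_zero]
      · refine (Finset.sum_bij (fun (i : Sub H.D (lt d)) _ => (i : H.I)) ?_ ?_ ?_ ?_).symm
        · intro i _
          exact Finset.mem_filter.2 ⟨Finset.mem_univ _, i.2⟩
        · intro i _ i' _ h
          exact Subtype.ext h
        · intro i hi
          exact ⟨⟨i, (Finset.mem_filter.1 hi).2⟩, Finset.mem_univ _, rfl⟩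
        · intro i _
          rw [smul_smul, mul_comm]
      · intro i hi
        rw [hM i j.1 fun h => (Finset.mem_filter.1 hi).2 (h.trans j.2), zero_smul, smul_zero]
    rw [Finset.sum_congr rfl fun j _ => h2 j, Finset.sum_comm]
    refine Finset.sum_congr rfl fun i _ => ?_
    rw [← Finset.sum_smul]
    rfl

/-- a stable subspace is stable under the pull-backs along all endomorphisms -/
theorem stable_pull (hSta : StaStatement.{w}) (ge : H.GeFacts) (at_ : H.AtFacts)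
    (f : H.X 0 ⟶ H.X 0) {U : Submodule ℂ (Sub H.D (lt d) → ℂ)} (hU : Stable H d U) :
    ∀ x ∈ U.map (cls H d), W.pull f x ∈ U.map (cls H d) := by
  let M : Matrix H.I H.I ℂ := Matrix.of fun i j =>
    H.tc (.leaf 0) (W.pull f (H.e 0 j)) (fun _ => i)
  have hφ : ∀ j, (W.pull f).toLinearMap (H.e 0 j) = ∑ i, M i j • H.e 0 i := by
    intro j
    have h := ge.expand (.leaf 0) (W.pull f (H.e 0 j))
    refine h.trans ?_
    change ∑ w : Fin 1 → H.I, (H.tc (.leaf 0) (W.pull f (H.e 0 j)) w) • H.e 0 (w 0) = _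
    refine Fintype.sum_equiv (Equiv.funUnique (Fin 1) H.I) _ _ fun w => ?_
    have hw : w = fun _ => w 0 := funext fun i => congrArg w (Subsingleton.elim (α := Fin 1) i 0)
    conv_lhs => rw [hw]
    rfl
  have hM : ∀ i j, H.D.typ i ≠ H.D.typ j → M i j = 0 := by
    intro i j hij
    have h1 : W.pull f (H.e 0 j) ∈ W.gr (H.X 0) (H.D.typ j).2 :=
      H.hW.graded.pull (H.mem 0) (H.mem 0) f (H.e_gr 0 j)
    refine tc_gr (d := (H.D.typ j).2) hSta h1 (w := fun _ => i) fun h => hij ?_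
    rw [typ_fst j]
    exact h 0
  have hX := 𝒱.prod (H.mem 0) (H.mem 0)
  refine stable_op ge at_ hM (φ := (W.pull f).toLinearMap) hφ
    (Φ := (W.pull (lift (fst (H.X 0) (H.X 0) ≫ f) (snd (H.X 0) (H.X 0)))).toLinearMap)
    (fun x y => ?_) (fun z hz => tot_pull H.hW hX hX _ hz) hU
  change W.pull _ _ = _
  rw [map_mul (W.pull _), ← W.pull_comp, ← W.pull_comp, lift_fst, lift_snd, W.pull_comp]
  rfl

theorem act_lin (W : CohomologyData.{u, 0, w} k ℂ) {X : Sch k} (γ : W.coh (X ⊗ X)) :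
    ∃ φ : W.coh X →ₗ[ℂ] W.coh X, ∀ x, φ x = H3.act W γ x :=
  ⟨(W.push (snd X X)) ∘ₗ (LinearMap.mulRight ℂ γ) ∘ₗ (W.pull (fst X X)).toLinearMap,
    fun _ => rfl⟩

/-- a correspondence of codimension `dim X` preserves the degree -/
theorem tc_act (hSta : StaStatement.{w}) {γ : W.coh (H.X 0 ⊗ H.X 0)}
    (hγ : γ ∈ W.alg (H.X 0 ⊗ H.X 0) (H.n 0)) {i j : H.I} (hij : H.D.typ i ≠ H.D.typ j) :
    H.tc (.leaf 0) (H3.act W γ (H.e 0 j)) (fun _ => i) = 0 := by
  rw [H.tc_apply]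
  have h0 : H.psiP (.leaf 0) (H3.act W γ (H.e 0 j)) (H.E (.leaf 0) (H.D.τ ∘ fun _ => i)) =
      W.tr (H.X 0) (H3.act W γ (H.e 0 j) * PP.star (H.lam 0).slm.internal
        (Lop W (H.X 0) (H.ξ 0)) (H.Lam 0) (H.e 0 (H.D.τ i))) := rfl
  rw [h0, H3.act_tr H.hW (H.mem 0) hγ, H3.bil]
  have hXX := 𝒱.prod (H.mem 0) (H.mem 0)
  have he : H.e 0 (H.D.τ i) ∈ W.gr (H.X 0) (H.D.typ (H.D.τ i)).2 := H.e_gr 0 _
  rw [H.D.typ_τ] at he
  have h4 : W.tr (H.X 0 ⊗ H.X 0) (W.pull (fst (H.X 0) (H.X 0)) (H.e 0 j) *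
      W.pull (snd (H.X 0) (H.X 0)) (PP.star (H.lam 0).slm.internal
        (Lop W (H.X 0) (H.ξ 0)) (H.Lam 0) (H.e 0 (H.D.τ i))) * γ) = 0 := by
    by_cases hi : (H.D.typ i).2 ≤ 2 * H.n 0
    · have h1 := (hSta (H.lam 0).slm).1 _ _ hi he
      have h2 := H.hW.mul_gr hXX (H.hW.mul_gr hXX
        (H.hW.pull_gr hXX (H.mem 0) (fst (H.X 0) (H.X 0)) (H.e_gr 0 j))
        (H.hW.pull_gr hXX (H.mem 0) (snd (H.X 0) (H.X 0)) h1)) (H.hW.alg_gr hXX hγ)
      refine H.hW.tr_gr hXX h2 fun h3 => hij ?_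
      rw [typ_fst i, typ_fst j]
      congr 1
      omega
    · rw [(H.lam 0).slm.top _ _ he (by omega), map_zero, map_zero, mul_zero, zero_mul, map_zero]
  rw [h4, mul_zero]

/-- a stable subspace is stable under the algebraic correspondences of codimension `dim X` -/
theorem stable_alg (hSta : StaStatement.{w}) (ge : H.GeFacts) (at_ : H.AtFacts)
    {γ : W.coh (H.X 0 ⊗ H.X 0)} (hγ : γ ∈ W.alg (H.X 0 ⊗ H.X 0) (H.n 0))
    {U : Submodule ℂ (Sub H.D (lt d) → ℂ)} (hU : Stable H d U) :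
    ∀ x ∈ U.map (cls H d), H3.act W γ x ∈ U.map (cls H d) := by
  obtain ⟨φ, hφ'⟩ := act_lin W γ
  let M : Matrix H.I H.I ℂ := Matrix.of fun i j =>
    H.tc (.leaf 0) (H3.act W γ (H.e 0 j)) (fun _ => i)
  have hφ : ∀ j, φ (H.e 0 j) = ∑ i, M i j • H.e 0 i := by
    intro j
    rw [hφ']
    have h := ge.expand (.leaf 0) (H3.act W γ (H.e 0 j))
    refine h.trans ?_
    change ∑ w : Fin 1 → H.I, (H.tc (.leaf 0) (H3.act W γ (H.e 0 j)) w) • H.e 0 (w 0) = _
    refine Fintype.sum_equiv (Equiv.funUnique (Fin 1) H.I) _ _ fun w => ?_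
    have hw : w = fun _ => w 0 := funext fun i => congrArg w (Subsingleton.elim (α := Fin 1) i 0)
    conv_lhs => rw [hw]
    rfl
  have hM : ∀ i j, H.D.typ i ≠ H.D.typ j → M i j = 0 := fun i j hij => tc_act hSta hγ hij
  have hop : AlgOp W (H.X 0) φ := ⟨γ, alg_le_tot H.hW _ _ hγ, hφ'⟩
  intro x hx
  rw [← hφ']
  refine stable_op ge at_ hM hφ (Φ := ten H.hW (H.mem 0) (H.mem 0) φ LinearMap.id)
    (fun x y => ?_) (fun z hz => ten_left_tot H.hW (H.mem 0) (H.mem 0) hop hz) hU x hx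
  rw [ten_gen, LinearMap.id_apply]

end Orb

end

end Pool.Agent.Lib.MP_361a6f_ag.FL.E
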