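import Pool.Agent.Lib.MP_361a6f_ag.FL.E.RotA

/-!
# Nondegeneracy and central rotations

A rotation is a central element `C` of the algebra of the endomorphisms in the group. If every
rotation that fixes the members numerically has, for every member, a power that fixes it, then the
form is nondegenerate on the complex span of the system (helper76, finding 5353).
-/

open Matrix

set_option autoImplicit false
set_option linter.unusedSectionVars false

namespace Pool.Agent.Lib.MP_361a6f_ag.FL.E.Rot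

open Pool.Agent.Lib.MP_54168f_ag (Tens ev Feas)
open Nd NdZ
open OL (CA)
open AL1A (gT_mul gT_add gT_smul)
open AL1B (gT_one)

variable {I Λ : Type} [Fintype I] [DecidableEq I] [DecidableEq Λ] {D : Dat I Λ}
  {At : (L : ℕ) → Ten I L → Prop}

section key

variable {T : Type} [Fintype T] {f : T → Matrix I I ℂ} {bar : T → T} {p q : Matrix I I ℂ}
  {wt : I → ℝ}

/-- the blocks are adapted to the optimal filtration -/
theorem low (S : ASys D At) (ho : ∀ i, D.odd (D.typ i)) (he : ∀ i j, D.typ i = D.typ j)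
    (Γ : Set (Matrix I I ℂ)) (grp : ∀ x ∈ Γ, IsG D x)
    (gfix : ∀ x ∈ Γ, ∀ L u, At L u → gT x u = u)
    (orbit : ∀ U : Submodule ℂ (I → ℂ),
      (∀ z, At 2 z → ∀ v ∈ U, (opM D z).mulVec v ∈ U) →
      {U' : Submodule ℂ (I → ℂ) | ∃ x ∈ Γ, U' = U.map (Matrix.toLin' x)}.Finite →
      ∃ e ∈ endS D At, e * e = e ∧ (∀ z, At 2 z → e * opM D z = opM D z * e) ∧
        U = LinearMap.range (Matrix.toLin' e))
    (F : Fam D At f bar) (hpq : p * q = 1)
    (hst : ∀ g, Pres D At g → ∀ x y, (q * g.transpose * p) x y ≠ 0 → wt x ≤ wt y)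
    (s : T) (x y x1 y1 : I) (h1 : (q * (f s).transpose) x1 y1 ≠ 0)
    (h2 : (p.transpose * f s) y x ≠ 0) : wt x1 ≤ wt y := by
  by_contra hlt
  rw [not_le] at hlt
  have hqp := mul_eq_one_comm.1 hpq
  obtain ⟨e, hce, hee, hU⟩ := exists_idm S ho he Γ grp gfix orbit hpq hst
    (fun r => wt y < r) fun a b hab h => lt_of_lt_of_le h hab
  have hpsi : Psi D * f (bar s) = (f s).transpose * Psi D := by
    rw [Psi_mul_eq ho, F.dag, F.bar_bar]
  rcases F.atom e hce hee (bar s) with h0 | h0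
  · apply h2
    obtain ⟨u, hu⟩ : ∃ u : I → ℂ, u = -(Psi D *ᵥ fun z => p z y) := ⟨_, rfl⟩
    have hΨu : Psi D *ᵥ u = fun z => p z y := by
      rw [hu, Matrix.mulVec_neg, Matrix.mulVec_mulVec, Psi_mul_Psi ho, Matrix.neg_mulVec,
        Matrix.one_mulVec, neg_neg]
    have huU : u ∈ Up D q wt (fun r => wt y < r) := by
      intro z hz
      rw [hΨu]
      have h3 : (q *ᵥ fun z => p z y) z = (q * p) z y := rfl
      rw [h3, hqp, Matrix.one_apply_ne]
      rintro rfl
      exact absurd hz (lt_irrefl _)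
    have h4 := (hU u).1 huU
    have h5 : f (bar s) *ᵥ u = 0 := by
      rw [← h4, Matrix.mulVec_mulVec, ← hce.comm _ (F.cen _).mem, h0, Matrix.zero_mulVec]
    have h6 : (f s).transpose *ᵥ (fun z => p z y) = 0 := by
      rw [← hΨu, Matrix.mulVec_mulVec, ← hpsi, ← Matrix.mulVec_mulVec, h5, Matrix.mulVec_zero]
    have h7 := congrFun h6 x
    rw [Matrix.mul_apply]
    rw [Matrix.mulVec, dotProduct, Pi.zero_apply] at h7
    rw [← h7]
    refine Finset.sum_congr rfl fun z _ => ?_
    rw [Matrix.transpose_apply, Matrix.transpose_apply, mul_comm]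
  · apply h1
    obtain ⟨v, hv⟩ : ∃ v : I → ℂ, v = -(Psi D *ᵥ Pi.single y1 1) := ⟨_, rfl⟩
    have hΨv : Psi D *ᵥ v = Pi.single y1 1 := by
      rw [hv, Matrix.mulVec_neg, Matrix.mulVec_mulVec, Psi_mul_Psi ho, Matrix.neg_mulVec,
        Matrix.one_mulVec, neg_neg]
    have hin : f (bar s) *ᵥ v ∈ Up D q wt (fun r => wt y < r) := by
      rw [hU, Matrix.mulVec_mulVec, h0]
    have h4 := hin x1 hlt
    have h5 : Psi D *ᵥ (f (bar s) *ᵥ v) = (f s).transpose *ᵥ Pi.single y1 1 := by
      rw [Matrix.mulVec_mulVec, hpsi, ← Matrix.mulVec_mulVec, hΨv]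
    rw [h5, Matrix.mulVec_mulVec, Matrix.mulVec_single_one] at h4
    exact h4

/-- the weights of the blocks -/
theorem exists_om (S : ASys D At) (ho : ∀ i, D.odd (D.typ i)) (he : ∀ i j, D.typ i = D.typ j)
    (Γ : Set (Matrix I I ℂ)) (grp : ∀ x ∈ Γ, IsG D x)
    (gfix : ∀ x ∈ Γ, ∀ L u, At L u → gT x u = u)
    (orbit : ∀ U : Submodule ℂ (I → ℂ),
      (∀ z, At 2 z → ∀ v ∈ U, (opM D z).mulVec v ∈ U) →
      {U' : Submodule ℂ (I → ℂ) | ∃ x ∈ Γ, U' = U.map (Matrix.toLin' x)}.Finite →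
      ∃ e ∈ endS D At, e * e = e ∧ (∀ z, At 2 z → e * opM D z = opM D z * e) ∧
        U = LinearMap.range (Matrix.toLin' e))
    (F : Fam D At f bar) (n : ℕ) :
    ∃ ω : T → ℝ, (∀ s, ω s + ω (bar s) ≤ -1) ∧
      ∀ (κ : Fin n → T) (t : Ten I n), t ∈ Kr D At n → slT (fun i => f (κ i)) t = t → t ≠ 0 →
        1 ≤ ∑ a, ω (κ a) := by
  classical
  obtain ⟨p, q, wt, hF, hst⟩ := exists_opt S ho n
  have hpq := hF.pq
  have hqp := mul_eq_one_comm.1 hpq
  have hsup : ∀ s, ∃ x1, (∃ y1, (q * (f s).transpose) x1 y1 ≠ 0) ∧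
      ∀ x, (∃ y, (q * (f s).transpose) x y ≠ 0) → wt x ≤ wt x1 := by
    intro s
    obtain ⟨x1, hx1, hmax⟩ := Finset.exists_max_image
      (Finset.univ.filter fun x => ∃ y, (q * (f s).transpose) x y ≠ 0) wt (by
        by_contra h
        rw [Finset.not_nonempty_iff_eq_empty] at h
        apply F.ne s
        have h1 : q * (f s).transpose = 0 := by
          ext x y
          by_contra hne
          have h2 : x ∈ Finset.univ.filter fun x => ∃ y, (q * (f s).transpose) x y ≠ 0 :=
            Finset.mem_filter.2 ⟨Finset.mem_univ _, y, hne⟩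
          rw [h] at h2
          exact absurd h2 (Finset.notMem_empty _)
        have h2 : p * (q * (f s).transpose) = 0 := by rw [h1, Matrix.mul_zero]
        rw [← Matrix.mul_assoc, hpq, Matrix.one_mul] at h2
        rw [← Matrix.transpose_transpose (f s), h2, Matrix.transpose_zero])
    exact ⟨x1, (Finset.mem_filter.1 hx1).2, fun x hx =>
      hmax x (Finset.mem_filter.2 ⟨Finset.mem_univ _, hx⟩)⟩
  choose x1 hx1 hmax using hsup
  refine ⟨fun s => wt (x1 s), fun s => ?_, fun κ t ht hκ h0 => ?_⟩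
  · -- the bivector
    obtain ⟨y0, hy0⟩ := hx1 (bar s)
    have hE : q * (f (bar s)).transpose = -((q * Psi D * q.transpose) *
        (p.transpose * f s * Psi D)) := by
      have h1 : Psi D * f s = (f (bar s)).transpose * Psi D := by rw [Psi_mul_eq ho, F.dag]
      have h2 : q.transpose * p.transpose = 1 := by
        rw [← Matrix.transpose_mul, hpq, Matrix.transpose_one]
      calc q * (f (bar s)).transpose = -(q * ((f (bar s)).transpose * (Psi D * Psi D))) := by
            rw [Psi_mul_Psi ho]; noncomm_ring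
        _ = -(q * (((f (bar s)).transpose * Psi D) * Psi D)) := by noncomm_ring
        _ = -(q * ((Psi D * (1 * f s)) * Psi D)) := by rw [← h1, Matrix.one_mul]
        _ = -(q * ((Psi D * ((q.transpose * p.transpose) * f s)) * Psi D)) := by rw [h2]
        _ = _ := by noncomm_ring
    rw [hE, Matrix.neg_apply, neg_ne_zero, Matrix.mul_apply] at hy0
    obtain ⟨y, _, hy⟩ := Finset.exists_ne_zero_of_sum_ne_zero hy0
    have hy1 := left_ne_zero_of_mul hy
    have hy2 := right_ne_zero_of_mul hy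
    rw [Matrix.mul_apply] at hy2
    obtain ⟨z, _, hz⟩ := Finset.exists_ne_zero_of_sum_ne_zero hy2
    have hz1 := left_ne_zero_of_mul hz
    obtain ⟨y1, hy1'⟩ := hx1 s
    have hle := low S ho he Γ grp gfix orbit F hpq hst s z y (x1 s) y1 hy1' hz1
    have hxy : wt (x1 (bar s)) + wt y ≤ -1 := by
      have hmem : (Psi D : I → I → ℂ) ∈ CC D At := by
        refine ⟨om D (D.typ y), sub_CA (S.om _), ?_⟩
        rw [tm_om he, PsiT_mul_Psi, Matrix.one_mul]
      refine hF.biv (Psi D) hmem _ _ fun h0 => hy1 ?_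
      rw [← h0, Matrix.mul_apply, Finset.sum_comm]
      refine Finset.sum_congr rfl fun y' _ => ?_
      rw [Matrix.mul_apply, Finset.sum_mul]
      refine Finset.sum_congr rfl fun x' _ => ?_
      rw [Matrix.transpose_apply]
      change q (x1 (bar s)) x' * Psi D x' y' * q y y' = q (x1 (bar s)) x' * q y y' * Psi D x' y'
      ring
    change wt (x1 s) + wt (x1 (bar s)) ≤ -1
    linarith
  · -- the tensor
    obtain ⟨J, hJ⟩ : ∃ J, t J ≠ 0 := by
      by_contra h
      push Not at h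
      exact h0 (funext h)
    rw [← hκ] at hJ
    have hev : slT (fun i => f (κ i)) t J =
        ev (Ω := ℂ) (t : Tens I ℂ n) (fun a z => f (κ a) (J a) z) := rfl
    rw [hev, ev_expand t hpq] at hJ
    obtain ⟨K, _, hK⟩ := Finset.exists_ne_zero_of_sum_ne_zero hJ
    refine (hF.tens t ht K (right_ne_zero_of_mul hK)).trans ?_
    refine Finset.sum_le_sum fun a _ => ?_
    refine hmax (κ a) (K a) ⟨J a, ?_⟩
    exact Finset.prod_ne_zero_iff.1 (left_ne_zero_of_mul hK) a (Finset.mem_univ a)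

end key

/-! ### Words -/

section words

variable {T : Type} [Fintype T] [DecidableEq T] {f : T → Matrix I I ℂ} {bar : T → T}

/-- the component of a word -/
def wd (f : T → Matrix I I ℂ) {L : ℕ} (κ : Fin L → T) (u : Ten I L) : Ten I L :=
  slT (fun i => f (κ i)) u

theorem wd_wd (F : Fam D At f bar) {L : ℕ} (κ : Fin L → T) (u : Ten I L) :
    wd f κ (wd f κ u) = wd f κ u := by
  unfold wd
  rw [slT_slT]
  congr 1
  funext i
  exact F.idem _

theorem sum_wd (F : Fam D At f bar) {L : ℕ} (u : Ten I L) : ∑ κ : Fin L → T, wd f κ u = u := by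
  have h : ∀ w w' : Fin L → I, ∑ κ : Fin L → T, ∏ i, f (κ i) (w i) (w' i) =
      ∏ i, (1 : Matrix I I ℂ) (w i) (w' i) := by
    intro w w'
    rw [← F.sum]
    simp only [Matrix.sum_apply]
    rw [Finset.prod_univ_sum, Fintype.piFinset_univ]
  conv_rhs => rw [← slT_one u]
  funext w
  rw [Finset.sum_apply]
  unfold wd slT
  rw [Finset.sum_comm]
  refine Finset.sum_congr rfl fun w' _ => ?_
  rw [← Finset.sum_mul, h]

theorem wd_mem (S : ASys D At) (ho : ∀ i, D.odd (D.typ i)) (he : ∀ i j, D.typ i = D.typ j)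
    (F : Fam D At f bar) {L : ℕ} (κ : Fin L → T) {u : Ten I L} (hu : u ∈ CA At L) :
    wd f κ u ∈ CA At L := slT_mem S ho he (fun i => (F.cen (κ i)).mem) hu

theorem wd_kr (S : ASys D At) (ho : ∀ i, D.odd (D.typ i)) (he : ∀ i j, D.typ i = D.typ j)
    (F : Fam D At f bar) {L : ℕ} (κ : Fin L → T) {u : Ten I L} (hu : u ∈ Kr D At L) :
    wd f κ u ∈ Kr D At L := slT_kr S ho he (fun i => (F.cen (κ i)).mem) hu

/-- the charge of a word -/
def chg (bar : T → T) {L : ℕ} (κ : Fin L → T) : T → ℤ :=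
  fun s => ∑ a, ((if κ a = s then 1 else 0) - (if bar (κ a) = s then 1 else 0))

theorem chg_append (bar : T → T) {L M : ℕ} (κ : Fin L → T) (κ' : Fin M → T) :
    chg bar (Fin.append κ κ') = chg bar κ + chg bar κ' := by
  funext s
  unfold chg
  rw [Fin.sum_univ_add]
  simp only [Fin.append_left, Fin.append_right, Pi.add_apply]

theorem chg_bar (F : Fam D At f bar) {L : ℕ} (κ : Fin L → T) :
    chg bar (fun i => bar (κ i)) = -chg bar κ := by
  funext s
  unfold chg
  rw [Pi.neg_apply, ← Finset.sum_neg_distrib]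
  refine Finset.sum_congr rfl fun a _ => ?_
  rw [F.bar_bar, neg_sub]

theorem sum_chg (bar : T → T) {L : ℕ} (κ : Fin L → T) (y : T → ℝ) :
    ∑ s, (chg bar κ s : ℝ) * y s = ∑ a, (y (κ a) - y (bar (κ a))) := by
  unfold chg
  push_cast
  simp only [Finset.sum_mul]
  rw [Finset.sum_comm]
  refine Finset.sum_congr rfl fun a _ => ?_
  simp only [sub_mul, ite_mul, one_mul, zero_mul]
  rw [Finset.sum_sub_distrib, Finset.sum_ite_eq, Finset.sum_ite_eq, if_pos (Finset.mem_univ _),
    if_pos (Finset.mem_univ _)]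

theorem psi_outer_outer {p q : ℕ} (u u' : Ten I p) (v v' : Ten I q) :
    psiT D (outer u v) (outer u' v') = psiT D u u' * psiT D v v' := by
  unfold psiT
  rw [AL2.sum_append, Finset.sum_mul_sum]
  refine Finset.sum_congr rfl fun a _ => Finset.sum_congr rfl fun b _ => ?_
  rw [AL2.sg_append, AL2.tau_append]
  simp only [outer, Fin.append_left, Fin.append_right]
  ring

/-- the charges of the members which are not numerically trivial -/
def numC (S : ASys D At) (ho : ∀ i, D.odd (D.typ i)) (he : ∀ i j, D.typ i = D.typ j)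
    (F : Fam D At f bar) : AddSubgroup (T → ℤ) where
  carrier := {v | ∃ (L : ℕ) (κ : Fin L → T), ∃ u ∈ CA At L, wd f κ u = u ∧ u ∉ Kr D At L ∧
    chg bar κ = v}
  zero_mem' := by
    refine ⟨0, Fin.elim0, fun _ => 1, sub_CA S.one, ?_, fun h => ?_, ?_⟩
    · funext w
      unfold wd slT
      rw [Fintype.sum_eq_single w (fun w' hw => absurd (Subsingleton.elim _ _) hw)]
      simp
    · have h1 := congrFun (kr_zero S _ h) Fin.elim0
      exact one_ne_zero h1
    · funext s
      simp [chg]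
  add_mem' := by
    rintro _ _ ⟨L, κ, u, hu, hw, hk, rfl⟩ ⟨M, κ', u', hu', hw', hk', rfl⟩
    refine ⟨L + M, Fin.append κ κ', outer u u', T2A.outer_mem S _ _ u hu u' hu', ?_, fun h => ?_,
      chg_append _ _ _⟩
    · have h1 : (fun i => f (Fin.append κ κ' i)) =
          Fin.append (fun i => f (κ i)) (fun i => f (κ' i)) := by
        funext i
        refine Fin.addCases (fun j => ?_) (fun j => ?_) i
        · simp only [Fin.append_left]
        · simp only [Fin.append_right]
      unfold wd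
      rw [h1, slT_outer]
      change outer (wd f κ u) (wd f κ' u') = _
      rw [hw, hw']
    · have h2 : ∃ v ∈ CA At L, psiT D u v ≠ 0 := by
        by_contra hcon
        push Not at hcon
        exact hk ⟨hu, hcon⟩
      have h3 : ∃ v ∈ CA At M, psiT D u' v ≠ 0 := by
        by_contra hcon
        push Not at hcon
        exact hk' ⟨hu', hcon⟩
      obtain ⟨v, hv, hv1⟩ := h2
      obtain ⟨v', hv', hv1'⟩ := h3
      have h4 := h.2 _ (T2A.outer_mem S _ _ v hv v' hv')
      rw [psi_outer_outer] at h4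
      exact mul_ne_zero hv1 hv1' h4
  neg_mem' := by
    rintro _ ⟨L, κ, u, hu, hw, hk, rfl⟩
    have h2 : ∃ v ∈ CA At L, psiT D u v ≠ 0 := by
      by_contra hcon
      push Not at hcon
      exact hk ⟨hu, hcon⟩
    obtain ⟨v, hv, hv1⟩ := h2
    have h3 : psiT D u (wd f (fun i => bar (κ i)) v) = psiT D u v := by
      have h4 : (fun i => dag D (f (κ i))) = fun i => f (bar (κ i)) := by
        funext i
        exact F.dag _
      unfold wd
      rw [← h4, ← psi_slT ho]
      change psiT D (wd f κ u) v = _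
      rw [hw]
    refine ⟨L, fun i => bar (κ i), wd f (fun i => bar (κ i)) v, wd_mem S ho he F _ hv,
      wd_wd F _ _, fun h => ?_, chg_bar F κ⟩
    have h5 := h.2 u hu
    rw [psi_flip ho, h3] at h5
    exact mul_ne_zero (pow_ne_zero _ (by norm_num)) hv1 h5

/-- the charges of the kernel -/
def radC (D : Dat I Λ) (At : (L : ℕ) → Ten I L → Prop) (f : T → Matrix I I ℂ) (bar : T → T) :
    Set (T → ℤ) :=
  {v | ∃ (L : ℕ) (κ : Fin L → T), ∃ t ∈ Kr D At L, t ≠ 0 ∧ wd f κ t = t ∧ chg bar κ = v}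

theorem outer_ne {p q : ℕ} {u : Ten I p} {v : Ten I q} (hu : u ≠ 0) (hv : v ≠ 0) :
    outer u v ≠ 0 := by
  obtain ⟨w, hw⟩ := Function.ne_iff.1 hu
  obtain ⟨w', hw'⟩ := Function.ne_iff.1 hv
  intro h
  have h1 := congrFun h (Fin.append w w')
  simp only [outer, Fin.append_left, Fin.append_right, Pi.zero_apply] at h1
  exact mul_ne_zero hw hw' h1

theorem radC_mul (S : ASys D At) (ho : ∀ i, D.odd (D.typ i))
    {L M : ℕ} {κ : Fin L → T} {κ' : Fin M → T} {t : Ten I L} {u : Ten I M}
    (ht : t ∈ Kr D At L) (h0 : t ≠ 0) (hw : wd f κ t = t) (hu : u ∈ CA At M) (h0' : u ≠ 0)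
    (hw' : wd f κ' u = u) : chg bar κ + chg bar κ' ∈ radC D At f bar := by
  refine ⟨L + M, Fin.append κ κ', outer t u, (cl_A S ho).mul t u ht hu, outer_ne h0 h0', ?_,
    chg_append _ _ _⟩
  have h1 : (fun i => f (Fin.append κ κ' i)) =
      Fin.append (fun i => f (κ i)) (fun i => f (κ' i)) := by
    funext i
    refine Fin.addCases (fun j => ?_) (fun j => ?_) i
    · simp only [Fin.append_left]
    · simp only [Fin.append_right]
  unfold wd
  rw [h1, slT_outer]
  change outer (wd f κ t) (wd f κ' u) = _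
  rw [hw, hw']

theorem radC_nsmul (S : ASys D At) (ho : ∀ i, D.odd (D.typ i)) {v : T → ℤ}
    (hv : v ∈ radC D At f bar) (N : ℕ) : (N + 1) • v ∈ radC D At f bar := by
  induction N with
  | zero => rwa [zero_add, one_smul]
  | succ N ih =>
    obtain ⟨L, κ, t, ht, h0, hw, h1⟩ := ih
    obtain ⟨L', κ', t', ht', h0', hw', h1'⟩ := hv
    have h2 := radC_mul (bar := bar) S ho ht h0 hw ht'.1 h0' hw'
    rw [h1, h1'] at h2
    rw [add_smul (N + 1) 1 v, one_smul]
    exact h2

/-- **The key.** No charge of the kernel is zero. -/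
theorem radC_ne (S : ASys D At) (ho : ∀ i, D.odd (D.typ i)) (he : ∀ i j, D.typ i = D.typ j)
    (Γ : Set (Matrix I I ℂ)) (grp : ∀ x ∈ Γ, IsG D x)
    (gfix : ∀ x ∈ Γ, ∀ L u, At L u → gT x u = u)
    (orbit : ∀ U : Submodule ℂ (I → ℂ),
      (∀ z, At 2 z → ∀ v ∈ U, (opM D z).mulVec v ∈ U) →
      {U' : Submodule ℂ (I → ℂ) | ∃ x ∈ Γ, U' = U.map (Matrix.toLin' x)}.Finite →
      ∃ e ∈ endS D At, e * e = e ∧ (∀ z, At 2 z → e * opM D z = opM D z * e) ∧
        U = LinearMap.range (Matrix.toLin' e))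
    (F : Fam D At f bar) : (0 : T → ℤ) ∉ radC D At f bar := by
  rintro ⟨n, κ, t, ht, h0, hw, h1⟩
  obtain ⟨ω, hω, hω'⟩ := exists_om S ho he Γ grp gfix orbit F n
  have h2 := hω' κ t ht hw h0
  have h3 : ∑ a, (ω (κ a) - ω (bar (κ a))) = 0 := by
    rw [← sum_chg, h1]
    simp
  have h4 : ∑ a, (ω (κ a) + ω (bar (κ a))) ≤ 0 :=
    Finset.sum_nonpos fun a _ => (hω (κ a)).trans (by norm_num)
  rw [Finset.sum_sub_distrib] at h3
  rw [Finset.sum_add_distrib] at h4
  linarith

/-! ### Rotations -/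

/-- a functional that vanishes on a group of charges but not on the multiples of `v` -/
theorem exists_phi (P : AddSubgroup (T → ℤ)) (v : T → ℤ)
    (h : ∀ N : ℕ, (N + 1) • v ∉ P) :
    ∃ y : T → ℝ, (∀ w ∈ P, ∑ s, (w s : ℝ) * y s = 0) ∧ ∑ s, (v s : ℝ) * y s ≠ 0 := by
  let W : Submodule ℚ (T → ℚ) :=
    { carrier := {x | ∃ (N : ℕ), ∃ w ∈ P, ∀ s, ((N + 1 : ℕ) : ℚ) * x s = w s}
      add_mem' := by
        rintro a b ⟨N, w, hw, hN⟩ ⟨M, w', hw', hM⟩
        refine ⟨(N + 1) * (M + 1) - 1, (M + 1) • w + (N + 1) • w',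
          add_mem (nsmul_mem hw _) (nsmul_mem hw' _), fun s => ?_⟩
        have h1 : (N + 1) * (M + 1) - 1 + 1 = (N + 1) * (M + 1) :=
          Nat.succ_pred_eq_of_pos (Nat.mul_pos (Nat.succ_pos _) (Nat.succ_pos _))
        have h2 := hN s
        have h3 := hM s
        rw [h1, Pi.add_apply, Pi.add_apply, Pi.smul_apply, Pi.smul_apply, nsmul_eq_mul,
          nsmul_eq_mul]
        push_cast at h2 h3 ⊢
        rw [← h2, ← h3]
        ring
      zero_mem' := ⟨0, 0, zero_mem _, fun s => by simp⟩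
      smul_mem' := by
        rintro c a ⟨N, w, hw, hN⟩
        refine ⟨(N + 1) * c.den - 1, c.num • w, zsmul_mem hw _, fun s => ?_⟩
        have h1 : (N + 1) * c.den - 1 + 1 = (N + 1) * c.den :=
          Nat.succ_pred_eq_of_pos (Nat.mul_pos (Nat.succ_pos _) c.den_pos)
        have h2 := hN s
        have h3 : (c.den : ℚ) * c = c.num := by
          rw [mul_comm]
          exact Rat.mul_den_eq_num c
        rw [h1]
        simp only [Pi.smul_apply, smul_eq_mul]
        push_cast at h2 ⊢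
        rw [← h2]
        calc ((N : ℚ) + 1) * c.den * (c * a s) = (c.den * c) * ((N + 1) * a s) := by ring
          _ = _ := by rw [h3] }
  have hv : (fun s => (v s : ℚ)) ∉ W := by
    rintro ⟨N, w, hw, hN⟩
    apply h N
    have h1 : (N + 1) • v = w := by
      funext s
      have h2 : ((N + 1 : ℕ) : ℚ) * (v s : ℚ) = (w s : ℚ) := hN s
      rw [Pi.smul_apply, nsmul_eq_mul]
      exact_mod_cast h2
    rw [h1]
    exact hw
  obtain ⟨φ, hφ, hφ'⟩ := Submodule.exists_le_ker_of_notMem hv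
  have hexp : ∀ x : T → ℚ, φ x = ∑ s, x s * φ (Pi.single s 1) := by
    intro x
    conv_lhs => rw [← Finset.univ_sum_single x]
    rw [map_sum]
    refine Finset.sum_congr rfl fun s _ => ?_
    have : (Pi.single s (x s) : T → ℚ) = x s • (Pi.single s 1 : T → ℚ) := by
      rw [← Pi.single_smul, smul_eq_mul, mul_one]
    rw [this, map_smul, smul_eq_mul]
  refine ⟨fun s => ((φ (Pi.single s 1) : ℚ) : ℝ), fun w hw => ?_, fun h0 => hφ ?_⟩
  · have h1 : φ (fun s => (w s : ℚ)) = 0 :=
      LinearMap.mem_ker.1 (hφ' ⟨0, w, hw, fun s => by simp⟩)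
    rw [hexp] at h1
    have h2 := congrArg (fun r : ℚ => (r : ℝ)) h1
    push_cast at h2
    exact h2
  · rw [hexp]
    have h2 : ((∑ s, (v s : ℚ) * φ (Pi.single s 1) : ℚ) : ℝ) = ((0 : ℚ) : ℝ) := by
      push_cast
      exact h0
    exact Rat.cast_injective h2

/-- the rotation given by a family of real numbers -/
noncomputable def rot (f : T → Matrix I I ℂ) (bar : T → T) (y : T → ℝ) : Matrix I I ℂ :=
  ∑ s, ((Real.exp (y s - y (bar s)) : ℝ) : ℂ) • f s

theorem rot_cen (F : Fam D At f bar) (y : T → ℝ) : Cen D At (rot f bar y) :=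
  Cen.sum _ fun s _ => (F.cen s).smul _

theorem rot_mul (F : Fam D At f bar) (y : T → ℝ) (s : T) :
    rot f bar y * f s = ((Real.exp (y s - y (bar s)) : ℝ) : ℂ) • f s := by
  unfold rot
  rw [Finset.sum_mul, Finset.sum_eq_single s]
  · rw [Matrix.smul_mul, F.idem]
  · intro t _ hts
    rw [Matrix.smul_mul, F.orth t s hts, smul_zero]
  · intro h; exact absurd (Finset.mem_univ _) h

theorem rot_dag (F : Fam D At f bar) (y : T → ℝ) :
    dag D (rot f bar y) * rot f bar y = 1 := by
  have h1 : dag D (rot f bar y) = ∑ s, ((Real.exp (y (bar s) - y s) : ℝ) : ℂ) • f s := by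
    unfold rot
    rw [dag_sum, ← Equiv.sum_comp (Function.Involutive.toPerm bar F.bar_bar)]
    refine Finset.sum_congr rfl fun s _ => ?_
    change dag D (((Real.exp (y (bar s) - y (bar (bar s))) : ℝ) : ℂ) • f (bar s)) = _
    rw [dag_smul, F.dag, F.bar_bar]
  rw [h1, Finset.sum_mul]
  have h2 : ∀ s, ((Real.exp (y (bar s) - y s) : ℝ) : ℂ) • f s * rot f bar y = f s := by
    intro s
    rw [Matrix.smul_mul, (F.cen s).comm _ (rot_cen F y).mem, rot_mul F, smul_smul,
      ← Complex.ofReal_mul, ← Real.exp_add]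
    have : y (bar s) - y s + (y s - y (bar s)) = 0 := by ring
    rw [this, Real.exp_zero, Complex.ofReal_one, one_smul]
  rw [Finset.sum_congr rfl fun s _ => h2 s, F.sum]

theorem isG_of_dag (he : ∀ i j, D.typ i = D.typ j) {C : Matrix I I ℂ}
    (h : dag D C * C = 1) : IsG D C := by
  refine ⟨fun i j hij => absurd (he i j) hij, ?_⟩
  have h1 : Psi D * (Psi D).transpose = 1 := mul_eq_one_comm.1 (PsiT_mul_Psi D)
  calc C.transpose * Psi D * C = (Psi D * (Psi D).transpose) * (C.transpose * Psi D * C) := by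
        rw [h1, Matrix.one_mul]
    _ = Psi D * (dag D C * C) := by unfold dag; noncomm_ring
    _ = Psi D := by rw [h, Matrix.mul_one]

/-- a rotation multiplies the component of a word by a scalar -/
theorem gT_rot (F : Fam D At f bar) (y : T → ℝ) {L : ℕ} (κ : Fin L → T) (u : Ten I L) :
    gT (rot f bar y) (wd f κ u) =
      ((Real.exp (∑ s, (chg bar κ s : ℝ) * y s) : ℝ) : ℂ) • wd f κ u := by
  unfold wd
  rw [← slT_const, slT_slT]
  have h1 : (fun i => rot f bar y * f (κ i)) =
      fun i => ((Real.exp (y (κ i) - y (bar (κ i))) : ℝ) : ℂ) • f (κ i) := by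
    funext i
    exact rot_mul F y _
  rw [h1, slT_scal, ← Complex.ofReal_prod, ← Real.exp_sum, sum_chg]

end words

theorem gT_pow (C : Matrix I I ℂ) {L : ℕ} {t : Ten I L} {c : ℂ} (h : gT C t = c • t) (N : ℕ) :
    gT (C ^ N) t = c ^ N • t := by
  induction N with
  | zero => rw [pow_zero, pow_zero, gT_one, one_smul]
  | succ N ih => rw [pow_succ, gT_mul, h, gT_smul, ih, smul_smul, pow_succ, mul_comm]

theorem exists_pow_span {C : Matrix I I ℂ} (h : ∀ L u, At L u → ∃ N, 0 < N ∧ gT (C ^ N) u = u)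
    {L : ℕ} {u : Ten I L} (hu : u ∈ CA At L) : ∃ N, 0 < N ∧ gT (C ^ N) u = u := by
  have hmul : ∀ (N M : ℕ) (v : Ten I L), gT (C ^ N) v = v → gT (C ^ (N * M)) v = v := by
    intro N M v hv
    have h1 : gT (C ^ N) v = (1 : ℂ) • v := by rw [hv, one_smul]
    rw [pow_mul, gT_pow _ h1 M, one_pow, one_smul]
  unfold CA at hu
  induction hu using Submodule.span_induction with
  | mem u hu => exact h L u hu
  | zero =>
    refine ⟨1, Nat.one_pos, ?_⟩
    have := gT_smul (C ^ 1) (0 : ℂ) (0 : Ten I L)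
    rwa [zero_smul, zero_smul] at this
  | add a b _ _ ha hb =>
    obtain ⟨N, hN, h1⟩ := ha
    obtain ⟨M, hM, h2⟩ := hb
    refine ⟨N * M, Nat.mul_pos hN hM, ?_⟩
    rw [gT_add, hmul N M a h1, mul_comm N M, hmul M N b h2]
  | smul c a _ ha =>
    obtain ⟨N, hN, h1⟩ := ha
    exact ⟨N, hN, by rw [gT_smul, h1]⟩

/-- **Nondegeneracy and rotations.** Suppose that every subspace that is stable under the operators
of the system and has finitely many images under `Γ` is the image of a central idempotent. If every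
rotation that fixes the members numerically has, for every member, a power that fixes it, then the
form is nondegenerate on the complex span of the system, in every length. -/
theorem nd_of_rot (S : ASys D At) (ho : ∀ i, D.odd (D.typ i))
    (he : ∀ i j, D.typ i = D.typ j) (Γ : Set (Matrix I I ℂ)) (grp : ∀ x ∈ Γ, IsG D x)
    (gfix : ∀ x ∈ Γ, ∀ L u, At L u → gT x u = u)
    (orbit : ∀ U : Submodule ℂ (I → ℂ),
      (∀ z, At 2 z → ∀ v ∈ U, (opM D z).mulVec v ∈ U) →
      {U' : Submodule ℂ (I → ℂ) | ∃ x ∈ Γ, U' = U.map (Matrix.toLin' x)}.Finite →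
      ∃ e ∈ endS D At, e * e = e ∧ (∀ z, At 2 z → e * opM D z = opM D z * e) ∧
        U = LinearMap.range (Matrix.toLin' e))
    (hrot : ∀ C ∈ endS D At, IsG D C → (∀ z, At 2 z → C * opM D z = opM D z * C) →
      (∀ L u v, At L u → At L v → psiT D (gT C u) v = psiT D u v) →
      ∀ L u, At L u → ∃ N, 0 < N ∧ gT (C ^ N) u = u) :
    ∀ L, ∀ u ∈ Submodule.span ℂ {u | At L u}, u ≠ 0 →
      ∃ v ∈ Submodule.span ℂ {u | At L u}, psiT D u v ≠ 0 := by
  intro n t0 ht0 h0
  by_contra hcon
  push Not at hcon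
  obtain ⟨T, iF, iD, f, bar, F⟩ := exists_fam S ho he
  -- a component in the kernel
  have hk0 : t0 ∈ Kr D At n := ⟨ht0, hcon⟩
  obtain ⟨κ, hκ⟩ : ∃ κ : Fin n → T, wd f κ t0 ≠ 0 := by
    by_contra h
    push Not at h
    apply h0
    rw [← sum_wd F t0]
    exact Finset.sum_eq_zero fun κ _ => h κ
  obtain ⟨t, ht⟩ : ∃ t, t = wd f κ t0 := ⟨_, rfl⟩
  have htk : t ∈ Kr D At n := by rw [ht]; exact wd_kr S ho he F κ hk0
  have htw : wd f κ t = t := by rw [ht]; exact wd_wd F κ t0
  have ht1 : t ≠ 0 := by rw [ht]; exact hκ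
  have hrad : chg bar κ ∈ radC D At f bar := ⟨n, κ, t, htk, ht1, htw, rfl⟩
  have hzero := radC_ne S ho he Γ grp gfix orbit F
  -- its charge is not rationally numerical
  have hnot : ∀ N : ℕ, (N + 1) • chg bar κ ∉ numC S ho he F := by
    intro N hN
    obtain ⟨L', κ', u, hu, hw', hk', h1'⟩ := neg_mem hN
    obtain ⟨L, κ1, t1, ht1k, ht10, ht1w, h1⟩ := radC_nsmul S ho hrad N
    have h2 := radC_mul (bar := bar) S ho ht1k ht10 ht1w hu
      (fun h => hk' (by rw [h]; exact zero_mem _)) hw'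
    rw [h1, h1', add_neg_cancel] at h2
    exact hzero h2
  obtain ⟨y, hy, hy'⟩ := exists_phi (numC S ho he F) (chg bar κ) hnot
  -- the rotation
  have hC := rot_cen F y
  obtain ⟨N, hN, h1⟩ := exists_pow_span (C := rot f bar y) (hrot _ hC.mem
    (isG_of_dag he (rot_dag F y))
    (fun z hz => hC.comm _ (Submodule.subset_span ⟨z, hz, rfl⟩)) (by
      intro L u v hu hv
      have h2 : gT (rot f bar y) u = ∑ κ : Fin L → T, gT (rot f bar y) (wd f κ u) := by
        conv_lhs => rw [← sum_wd F u]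
        rw [← slT_const]
        funext w
        simp only [slT, Finset.sum_apply, Finset.mul_sum]
        rw [Finset.sum_comm]
        refine Finset.sum_congr rfl fun κ _ => ?_
        rfl
      have h3 : ∀ κ : Fin L → T, psiT D (gT (rot f bar y) (wd f κ u)) v =
          psiT D (wd f κ u) v := by
        intro κ
        by_cases hk : wd f κ u ∈ Kr D At L
        · rw [gT_rot F, ← Qps.psiL_apply, map_smul, LinearMap.smul_apply, Qps.psiL_apply,
            hk.2 v (sub_CA hv), smul_zero]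
        · have h4 : chg bar κ ∈ numC S ho he F :=
            ⟨L, κ, wd f κ u, wd_mem S ho he F κ (sub_CA hu), wd_wd F κ u, hk, rfl⟩
          rw [gT_rot F, hy _ h4, Real.exp_zero, Complex.ofReal_one, one_smul]
      have h5 : ∀ (g : (Fin L → T) → Ten I L),
          psiT D (∑ κ, g κ) v = ∑ κ, psiT D (g κ) v := by
        intro g
        rw [← Qps.psiL_apply, map_sum, LinearMap.sum_apply]
        rfl
      rw [h2, h5, Finset.sum_congr rfl fun κ _ => h3 κ, ← h5, sum_wd F])) htk.1
  have h2 := gT_rot F y κ t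
  rw [htw] at h2
  have h3 := gT_pow _ h2 N
  rw [h1] at h3
  have h4 : ((Real.exp (∑ s, (chg bar κ s : ℝ) * y s) : ℝ) : ℂ) ^ N = 1 := by
    obtain ⟨w, hw⟩ := Function.ne_iff.1 ht1
    have h5 := congrFun h3 w
    rw [Pi.smul_apply, smul_eq_mul] at h5
    exact mul_right_cancel₀ hw (by rw [one_mul]; exact h5.symm)
  apply hy'
  have h6 : Real.exp (∑ s, (chg bar κ s : ℝ) * y s) ^ N = 1 := by exact_mod_cast h4
  rw [← Real.exp_nat_mul, Real.exp_eq_one_iff] at h6
  exact (mul_eq_zero.1 h6).resolve_left (by exact_mod_cast hN.ne')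

/-- The converse. -/
theorem rot_of_nd (S : ASys D At) (ho : ∀ i, D.odd (D.typ i)) (he : ∀ i j, D.typ i = D.typ j)
    (nd : ∀ L, ∀ u ∈ Submodule.span ℂ {u | At L u}, u ≠ 0 →
      ∃ v ∈ Submodule.span ℂ {u | At L u}, psiT D u v ≠ 0)
    {C : Matrix I I ℂ} (hC : C ∈ endS D At)
    (h : ∀ L u v, At L u → At L v → psiT D (gT C u) v = psiT D u v) {L : ℕ} {u : Ten I L}
    (hu : At L u) : gT C u = u := by
  by_contra hne
  have h1 : gT C u - u ∈ CA At L :=
    sub_mem (op_gT_mem S he (mem_endS.1 hC) (sub_CA hu)) (sub_CA hu)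
  obtain ⟨v, hv, h2⟩ := nd L _ h1 (sub_ne_zero.2 hne)
  apply h2
  clear h2 hne h1
  rw [← Qps.psiL_apply, map_sub, LinearMap.sub_apply]
  have h3 : ∀ v ∈ CA At L, Qps.psiL D L (gT C u) v = Qps.psiL D L u v := by
    intro v hv
    unfold CA at hv
    induction hv using Submodule.span_induction with
    | mem v hv => exact h L u v hu hv
    | zero => rw [map_zero, map_zero]
    | add a b _ _ ha hb => rw [map_add, map_add, ha, hb]
    | smul c a _ ha => rw [map_smul, map_smul, ha]
  rw [h3 v hv, sub_self]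

end Pool.Agent.Lib.MP_361a6f_ag.FL.E.Rot
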