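import Pool.Agent.Lib.MP_361a6f_ag.FL.E.RotS
import Pool.Agent.Lib.MP_361a6f_ag.FL.E.RotG

/-!
# Numerical and homological equivalence and periodic central isometries
-/

open CategoryTheory AlgebraicGeometry MonoidalCategory CartesianMonoidalCategory

universe u v w

set_option autoImplicit false
set_option linter.unusedSectionVars false

namespace Pool.Agent.Lib.MP_361a6f_ag.FL

open Pool.Agent.Lib.MP_361a6f_ag.H3 Pool.Agent.Lib.MP_361a6f_ag.SQ
  Pool.Agent.Lib.MP_361a6f_ag.PP

namespace RotN

section gen

variable {k : Type u} [Field k] {m : ℕ} {W : CohomologyData.{u, 0, w} k ℂ} {𝒱 : VarietyClass k}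
  (H : Host W 𝒱 m)

/-- a homogeneous complex combination of algebraic classes is a combination of algebraic classes of
this codimension -/
theorem ct_codim (P : Prd m) {l : ℕ} {x : W.coh (P.obj H.X)} (hx : x ∈ CT H P)
    (hg : x ∈ W.gr (P.obj H.X) (2 * l)) :
    x ∈ Submodule.span ℂ {z | z ∈ W.alg (P.obj H.X) l} := by
  have hi := (H.lamP P).1.slm.internal
  let π : Module.End ℂ (W.coh (P.obj H.X)) :=
    gop hi (fun i => if i = 2 * l then 1 else 0)
  have h1 : π x = x := by
    change gop _ _ x = x
    rw [gop_apply _ _ hg, if_pos rfl, one_smul]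
  rw [← h1]
  have h2 : CT H P ≤ (Submodule.span ℂ {z | z ∈ W.alg (P.obj H.X) l}).comap π := by
    refine Submodule.span_le.2 fun z hz => ?_
    refine tot_induction H.hW (P := fun z =>
      π z ∈ Submodule.span ℂ {z | z ∈ W.alg (P.obj H.X) l}) hz ?_ ?_
    · intro j z hz
      change gop _ _ z ∈ _
      rw [gop_apply _ _ (H.hW.alg_gr (H.memP P) hz)]
      split_ifs with hj
      · rw [one_smul]
        have : j = l := by omega
        subst this
        exact Submodule.subset_span hz
      · rw [zero_smul]
        exact zero_mem _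
    · intro a b ha hb
      rw [map_add]
      exact add_mem ha hb
  exact h2 hx

theorem span_ct (P : Prd m) {l : ℕ} {x : W.coh (P.obj H.X)}
    (hx : x ∈ Submodule.span ℂ {z | z ∈ W.alg (P.obj H.X) l}) : x ∈ CT H P :=
  Submodule.span_mono (fun _ hz => alg_le_tot H.hW _ l hz) hx

/-- intersection numbers with all sums of algebraic classes -/
theorem tr_tot (P : Prd m) {x : W.coh (P.obj H.X)}
    (h : ∀ l, ∀ y ∈ W.alg (P.obj H.X) l, W.tr (P.obj H.X) (x * y) = 0) :
    ∀ y ∈ tot W (P.obj H.X), W.tr (P.obj H.X) (x * y) = 0 := by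
  intro y hy
  refine tot_induction H.hW (P := fun y => W.tr (P.obj H.X) (x * y) = 0) hy h ?_
  intro a b ha hb
  rw [mul_add, map_add, ha, hb, add_zero]

/-- a power of an additive map fixes a sum if powers fix the summands -/
theorem tot_pow (P : Prd m) {C : W.coh (P.obj H.X) →ₗ[ℂ] W.coh (P.obj H.X)}
    (h : ∀ l, ∀ z ∈ W.alg (P.obj H.X) l, ∃ N, 0 < N ∧ C^[N] z = z) :
    ∀ z ∈ tot W (P.obj H.X), ∃ N, 0 < N ∧ C^[N] z = z := by
  intro z hz
  refine tot_induction H.hW (P := fun z => ∃ N, 0 < N ∧ C^[N] z = z) hz h ?_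
  rintro a b ⟨N, hN, h1⟩ ⟨N', hN', h2⟩
  refine ⟨N * N', Nat.mul_pos hN hN', ?_⟩
  have e1 : C^[N * N'] a = a := by
    rw [Function.iterate_mul]
    exact Function.iterate_fixed h1 N'
  have e2 : C^[N * N'] b = b := by
    rw [mul_comm, Function.iterate_mul]
    exact Function.iterate_fixed h2 N
  have e3 : ∀ n (x y : W.coh (P.obj H.X)), C^[n] (x + y) = C^[n] x + C^[n] y := by
    intro n
    induction n with
    | zero => exact fun x y => rfl
    | succ n ih =>
      intro x y
      rw [Function.iterate_succ_apply, Function.iterate_succ_apply, Function.iterate_succ_apply,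
        map_add, ih]
  rw [e3, e1, e2]

end gen

section hyp

open E E.RotG

variable {k : Type u} [Field k] {W : CohomologyData.{u, 0, w} k ℂ} {𝒱 : VarietyClass k}
  (hW : IsWeilCohomology W 𝒱) {X : Sch k} {g : ℕ} {ξ : W.coh X} (h : EQ.Hyp0 W 𝒱 X g ξ)
  (c : Hst.Core W X g ξ)

/-- `ψ` is nondegenerate on the tensors if and only if numerical equivalence is homological
equivalence on all powers -/
theorem numHom_iff_nd : (∀ P, EQ.NumHom W (EQ.pw X P)) ↔
    ∀ L, ∀ u ∈ Submodule.span ℂ {u | At1 (hst0 hW h c) L u}, u ≠ 0 →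
      ∃ v ∈ Submodule.span ℂ {u | At1 (hst0 hW h c) L u},
        psiT (subD c.D (0, 1)) u v ≠ 0 := by
  constructor
  · intro hn L
    rcases L with _ | n
    · exact fun u _ hu0 => nd_zero (hst0 hW h c) hu0
    · obtain ⟨P, hP⟩ := exists_size n
      rw [← hP]
      intro u hu hu0
      by_contra hcon
      push Not at hcon
      apply hu0
      have hx := cls_ct (hst0 hW h c) hu
      have hg := dd_gr (hst0 hW h c) (cls_dd (hst0 hW h c) P u)
      have h1 : cls (hst0 hW h c) P u = 0 := by
        by_cases hev : 2 ∣ P.size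
        · obtain ⟨l, hl⟩ := hev
          by_cases hle : l ≤ P.dim fun _ => g
          · have h2 : (hst0 hW h c).starP P (cls (hst0 hW h c) P u) = 0 := by
              have hg1 : cls (hst0 hW h c) P u ∈ W.gr (P.obj (hst0 hW h c).X) (2 * l) := hl ▸ hg
              have hg' := (staB ((hst0 hW h c).lamP P).1.slm).1 _ _ (by
                change 2 * l ≤ 2 * P.dim fun _ => g
                omega) hg1
              have key : ∀ (l' : ℕ) (y : W.coh (P.obj (hst0 hW h c).X)),
                  y ∈ W.alg (P.obj (hst0 hW h c).X) l' → W.tr (P.obj (hst0 hW h c).X)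
                    ((hst0 hW h c).starP P (cls (hst0 hW h c) P u) * y) = 0 := by
                intro l' y hy
                rw [star_adj]
                change (hst0 hW h c).psiP P (cls (hst0 hW h c) P u) y = 0
                rw [psi_cls_right]
                exact hcon _ (Submodule.subset_span
                  (tc1_at (hst0 hW h c) (alg_le_tot hW _ l' hy)))
              refine hn P ((P.dim fun _ => g) - l) _
                (ct_codim (hst0 hW h c) P (star_ct (hst0 hW h c) P hx) ?_) fun l' y hy =>
                  key l' y hy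
              have e : 2 * ((P.dim fun _ => g) - l) = 2 * (P.dim fun _ => g) - 2 * l := by omega
              rw [e]
              exact hg'
            rw [← star2 (hst0 hW h c) P (cls (hst0 hW h c) P u), h2, map_zero]
          · exact hW.top_gr ((hst0 hW h c).memP P) hg (by
              change 2 * (P.dim fun _ => g) < P.size
              omega)
        · have h3 : Submodule.span ℂ {u | At1 (hst0 hW h c) P.size u} ≤
              LinearMap.ker (cls (hst0 hW h c) P) := by
            refine Submodule.span_le.2 fun v hv => ?_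
            exact tot_odd hW ((hst0 hW h c).memP P) (cls_tot (hst0 hW h c) hv) hev
              (dd_gr (hst0 hW h c) (cls_dd (hst0 hW h c) P v))
          exact h3 hu
      have h3 := congrArg (tc1 (hst0 hW h c) P) h1
      rwa [tc1_cls, map_zero] at h3
  · intro nd P j x hx hv
    exact num_of_nd (hst0 hW h c) (fun _ => abT hW h) nd P (span_ct (hst0 hW h c) P hx)
      (tr_tot (hst0 hW h c) P hv)

include hW h in
/-- **The first clause.** -/
theorem clause1 : (∀ P, EQ.NumHom W (EQ.pw X P)) ↔
    ∀ T, EQ.IsCentral W X g ξ T → EQ.FixesNum W X T → EQ.Periodic W X T := by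
  obtain ⟨c⟩ := exists_core0 hW h
  constructor
  · intro hn T hT hf P l z hz
    refine ⟨1, one_pos, ?_⟩
    obtain ⟨M, hM, hG, hc, hv, C, S, hTC⟩ := cen_lsys hW h c hT
    have key : ∀ z : W.coh (P.obj (hst0 hW h c).X), z ∈ W.alg (P.obj (hst0 hW h c).X) l →
        (∀ l', ∀ y ∈ W.alg (P.obj (hst0 hW h c).X) l',
          W.tr (P.obj (hst0 hW h c).X) ((C P z - z) * y) = 0) → C P z - z = 0 := by
      intro z hz hnum
      have hz' : z ∈ CT (hst0 hW h c) P := tot_ct _ (alg_le_tot hW _ l hz)
      have h1 : C P z ∈ CT (hst0 hW h c) P :=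
        C_ct (hst0 hW h c) hG S (fun _ => abT hW h) (fun _ => h.div) hM P hz'
      have h2 : C P z ∈ W.gr (P.obj (hst0 hW h c).X) (2 * l) :=
        S.gr P _ z (hW.alg_gr ((hst0 hW h c).memP P) hz)
      exact hn P l (C P z - z)
        (ct_codim (hst0 hW h c) P (sub_mem h1 hz')
          (sub_mem h2 (hW.alg_gr ((hst0 hW h c).memP P) hz)))
        fun l' y hy => hnum l' y hy
    have h3 := key z hz fun l' y hy => by
      have h4 := hf P l z hz l' y hy
      rw [hTC] at h4
      exact h4
    rw [Function.iterate_one, hTC]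
    exact sub_eq_zero.1 h3
  · intro hr
    rw [numHom_iff_nd hW h c]
    obtain ⟨Γ, grp, gfix, orbit⟩ := exists_gam hW h c
    refine Rot.nd_of_rot (asys1 (hst0 hW h c)) (odd1 (hst0 hW h c)) (typ1 (hst0 hW h c)) Γ grp
      gfix orbit fun M hM hG hc hnum => ?_
    obtain ⟨C, S, hC, -, -⟩ := exists_central hW h c hM hG hc
    refine pow_fix (hst0 hW h c) hG S fun P => ?_
    refine tot_pow (hst0 hW h c) P fun l z hz => ?_
    have key : ∀ (P : Prd 1) (l l' : ℕ) (z y : W.coh (P.obj (hst0 hW h c).X)),
        z ∈ W.alg (P.obj (hst0 hW h c).X) l → y ∈ W.alg (P.obj (hst0 hW h c).X) l' →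
        W.tr (P.obj (hst0 hW h c).X) ((C P z - z) * y) = 0 := by
      intro P l l' z y hz hy
      have h1 := tr_C (hst0 hW h c) hG S (fun _ => abT hW h) (fun _ => h.div) hnum P
        (tot_ct _ (alg_le_tot hW _ l hz)) (tot_ct _ (alg_le_tot hW _ l' hy))
      rw [sub_mul, map_sub, h1, sub_self]
    exact hr (fun P => C P) hC (fun P l z hz l' y hy => key P l l' z y hz hy) P l z hz

end hyp

end RotN

end Pool.Agent.Lib.MP_361a6f_ag.FL
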