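import Pool.Agent.Lib.MP_361a6f_ag.FL.E.EndM
import Pool.Agent.Lib.MP_361a6f_ag.FL.E.OrbG
import Pool.Agent.Lib.MP_361a6f_ag.FL.E.Hst

/-!
# The complex span of the algebraic classes and the tensors of degree one

Numerical and homological equivalence agree on all products if `ψ` is nondegenerate on the complex
span of the algebraic tensors whose letters all have degree one, and conversely. The complex span
of the algebraic classes of a product is spanned by `1` and the pull-backs of classes with such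
tensors. An automorphism given by a matrix on `H^1` therefore preserves intersection numbers with
algebraic classes if the matrix preserves `ψ` on the algebraic tensors.
-/

open CategoryTheory AlgebraicGeometry MonoidalCategory CartesianMonoidalCategory

universe u v w

set_option autoImplicit false
set_option linter.unusedSectionVars false

namespace Pool.Agent.Lib.MP_361a6f_ag.FL

open Pool.Agent.Lib.MP_361a6f_ag.H3 Pool.Agent.Lib.MP_361a6f_ag.SQ
  Pool.Agent.Lib.MP_361a6f_ag.PP

namespace RotN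

open EndE EndC EndM

variable {k : Type u} [Field k] {m : ℕ} {W : CohomologyData.{u, 0, w} k ℂ} {𝒱 : VarietyClass k}
  (H : Host W 𝒱 m)

/-- the complex span of the algebraic classes -/
noncomputable def CT (P : Prd m) : Submodule ℂ (W.coh (P.obj H.X)) :=
  Submodule.span ℂ {z | z ∈ tot W (P.obj H.X)}

/-- the tensor has degree one in all slots -/
def Dd (P : Prd m) (t : W.coh (P.obj H.X)) : Prop := ∀ w, ¬ D1 H w → H.tc P t w = 0

theorem tot_ct {P : Prd m} {z : W.coh (P.obj H.X)} (hz : z ∈ tot W (P.obj H.X)) : z ∈ CT H P :=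
  Submodule.subset_span hz

theorem one_tot (P : Prd m) : (1 : W.coh (P.obj H.X)) ∈ tot W (P.obj H.X) :=
  alg_le_tot H.hW _ 0 (H.hW.one_alg (H.memP P))

theorem ct_map {P Q : Prd m} (f : W.coh (P.obj H.X) →ₗ[ℂ] W.coh (Q.obj H.X))
    (hf : ∀ z ∈ tot W (P.obj H.X), f z ∈ CT H Q) {x : W.coh (P.obj H.X)} (hx : x ∈ CT H P) :
    f x ∈ CT H Q := by
  have h : CT H P ≤ (CT H Q).comap f := Submodule.span_le.2 fun z hz => hf z hz
  exact h hx

/-! ### Linearity of `ψ` -/

/-- `ψ` as a bilinear form -/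
noncomputable def psiB (P : Prd m) : W.coh (P.obj H.X) →ₗ[ℂ] W.coh (P.obj H.X) →ₗ[ℂ] ℂ :=
  LinearMap.mk₂ ℂ (fun x y => H.psiP P x y)
    (fun x y v => psi_add_left _ x y v)
    (fun c x v => psi_smul_left _ c x v)
    (fun x y z => psi_add_right (W := W) (X := P.obj H.X) (ξ := P.pol W H.ξ) (Lam := H.LamP P)
      (H.lamP P).1.slm.internal x y z)
    (fun c x y => by
      change W.tr (P.obj H.X) (x * H.starP P (c • y)) = c • W.tr (P.obj H.X) (x * H.starP P y)
      rw [map_smul, mul_smul_comm, map_smul])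

theorem psiB_apply (P : Prd m) (x y : W.coh (P.obj H.X)) : psiB H P x y = H.psiP P x y := rfl

/-! ### Operators on the algebraic classes -/

theorem star_tot (P : Prd m) {z : W.coh (P.obj H.X)} (hz : z ∈ tot W (P.obj H.X)) :
    H.starP P z ∈ tot W (P.obj H.X) := by
  obtain ⟨DP, hPalg⟩ := H.lamP P
  exact AlgOp.apply H.hW (H.memP P) (algOp_star H.hW (H.memP P) hPalg DP) hz

theorem star2 (P : Prd m) (y : W.coh (P.obj H.X)) : H.starP P (H.starP P y) = y := by
  obtain ⟨DP, hPalg⟩ := H.lamP P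
  exact BLK.star_star H.hW staB (H.memP P) hPalg DP y

theorem star_adj (P : Prd m) (x y : W.coh (P.obj H.X)) :
    W.tr (P.obj H.X) (H.starP P x * y) = W.tr (P.obj H.X) (x * H.starP P y) := by
  obtain ⟨DP, hPalg⟩ := H.lamP P
  exact BLK.star_adj H.hW staB (H.memP P) hPalg DP x y

theorem ct_comm (P : Prd m) {x : W.coh (P.obj H.X)} (hx : x ∈ CT H P) (y : W.coh (P.obj H.X)) :
    W.tr (P.obj H.X) (x * y) = W.tr (P.obj H.X) (y * x) := by
  unfold CT at hx
  induction hx using Submodule.span_induction with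
  | mem z hz => rw [tot_comm H.hW (H.memP P) hz]
  | zero => rw [zero_mul, mul_zero]
  | add a b _ _ ha hb => rw [add_mul, mul_add, map_add, map_add, ha, hb]
  | smul c a _ ha => rw [smul_mul_assoc, mul_smul_comm, map_smul, map_smul, ha]

theorem star_ct (P : Prd m) {x : W.coh (P.obj H.X)} (hx : x ∈ CT H P) :
    H.starP P x ∈ CT H P :=
  ct_map H (H.starP P) (fun _ hz => tot_ct H (star_tot H P hz)) hx

theorem pull_ct {P Q : Prd m} (f : P.obj H.X ⟶ Q.obj H.X) {x : W.coh (Q.obj H.X)}
    (hx : x ∈ CT H Q) : W.pull f x ∈ CT H P :=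
  ct_map H (W.pull f).toLinearMap (fun _ hz => tot_ct H (tot_pull H.hW (H.memP P) (H.memP Q) f hz))
    hx

/-- the adjoint of the pull-back for `ψ` -/
noncomputable def adj {P Q : Prd m} (f : P.obj H.X ⟶ Q.obj H.X) :
    W.coh (P.obj H.X) →ₗ[ℂ] W.coh (Q.obj H.X) :=
  H.starP Q ∘ₗ W.push f ∘ₗ H.starP P

theorem adj_tot {P Q : Prd m} (f : P.obj H.X ⟶ Q.obj H.X) {z : W.coh (P.obj H.X)}
    (hz : z ∈ tot W (P.obj H.X)) : adj H f z ∈ tot W (Q.obj H.X) :=
  star_tot H Q (tot_push H.hW (H.memP P) (H.memP Q) f (star_tot H P hz))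

theorem adj_ct {P Q : Prd m} (f : P.obj H.X ⟶ Q.obj H.X) {x : W.coh (P.obj H.X)}
    (hx : x ∈ CT H P) : adj H f x ∈ CT H Q :=
  ct_map H (adj H f) (fun _ hz => tot_ct H (adj_tot H f hz)) hx

theorem psi_adj {P Q : Prd m} (f : P.obj H.X ⟶ Q.obj H.X) {x : W.coh (P.obj H.X)}
    (hx : x ∈ CT H P) (y : W.coh (Q.obj H.X)) :
    H.psiP Q y (adj H f x) = H.psiP P (W.pull f y) x := by
  change W.tr (Q.obj H.X) (y * H.starP Q (H.starP Q (W.push f (H.starP P x)))) =
    W.tr (P.obj H.X) (W.pull f y * H.starP P x)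
  have h2 : W.push f (H.starP P x) ∈ CT H Q :=
    ct_map H (W.push f ∘ₗ H.starP P) (fun _ hz =>
      tot_ct H (tot_push H.hW (H.memP P) (H.memP Q) f (star_tot H P hz))) hx
  rw [star2, ← ct_comm H Q h2, H.hW.push_adj (H.memP P) (H.memP Q),
    ct_comm H P (star_ct H P hx)]

/-! ### The part of degree one -/

/-- the part of degree one as a linear map -/
noncomputable def Z1l (P : Prd m) : W.coh (P.obj H.X) →ₗ[ℂ] W.coh (P.obj H.X) where
  toFun := Z1 H P
  map_add' x y := by
    unfold Z1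
    rw [← Finset.sum_add_distrib]
    refine Finset.sum_congr rfl fun w _ => ?_
    rw [← add_smul]
    congr 1
    by_cases h : D1 H w
    · rw [cut_on H _ h, cut_on H _ h, cut_on H _ h, map_add, Pi.add_apply]
    · rw [cut_off H _ h, cut_off H _ h, cut_off H _ h, add_zero]
  map_smul' c x := by
    unfold Z1
    rw [Finset.smul_sum]
    refine Finset.sum_congr rfl fun w _ => ?_
    rw [← mul_smul]
    congr 1
    by_cases h : D1 H w
    · rw [cut_on H _ h, cut_on H _ h, map_smul, Pi.smul_apply, smul_eq_mul]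
      rfl
    · rw [cut_off H _ h, cut_off H _ h, mul_zero]

theorem Z1_tot (P : Prd m) {z : W.coh (P.obj H.X)} (hz : z ∈ tot W (P.obj H.X)) :
    Z1 H P z ∈ tot W (P.obj H.X) := by
  obtain ⟨z', hz', h⟩ := PosL.at_fit H (gr ge H) (ge H) P (cut_at H (GP.at_tc H P hz))
  have e : Z1 H P z = z' := by
    refine (ge H).inj P ?_
    rw [tc_Z1 H (ge H)]
    funext w
    rw [h]
    split_ifs with ho
    · by_cases hw : D1 H w
      · rw [cut_on H _ hw]
        exact (ge H).tc_off P z w ho
      · exact cut_off H _ hw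
    · rfl
  rw [e]
  exact hz'

theorem Z1_ct (P : Prd m) {x : W.coh (P.obj H.X)} (hx : x ∈ CT H P) : Z1 H P x ∈ CT H P :=
  ct_map H (Z1l H P) (fun _ hz => tot_ct H (Z1_tot H P hz)) hx

theorem Z1_dd (P : Prd m) (x : W.coh (P.obj H.X)) : Dd H P (Z1 H P x) := fun w hw => by
  rw [tc_Z1 H (ge H), cut_off H _ hw]

theorem dd_gr {P : Prd m} {t : W.coh (P.obj H.X)} (ht : Dd H P t) :
    t ∈ W.gr (P.obj H.X) P.size := by
  rw [(ge H).expand P t]
  refine Submodule.sum_mem _ fun w _ => ?_
  by_cases h : D1 H w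
  · refine Submodule.smul_mem _ _ ?_
    have h2 := (ge H).E_gr P w
    have h3 : ∑ l, (H.D.typ (w l)).2 = P.size := by
      rw [Finset.sum_congr rfl fun l _ => h l, Finset.sum_const, Finset.card_univ,
        Fintype.card_fin, smul_eq_mul, mul_one]
    rwa [h3] at h2
  · rw [ht w h, zero_smul]
    exact zero_mem _

/-! ### A class orthogonal to the pull-backs of the tensors of degree one vanishes -/

/-- `x` vanishes if it is orthogonal to `1` and if the parts of degree one of all its adjoint images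
vanish -/
theorem eq_zero (hAb : ∀ a, AbelianType W (H.X a) (H.n a)) (P : Prd m)
    {x : W.coh (P.obj H.X)} (hx : x ∈ CT H P) (h1 : H.psiP P 1 x = 0)
    (hF : ∀ (Q : Prd m) (F : P.obj H.X ⟶ Q.obj H.X), CoordMor H.X 3 P Q F →
      Z1 H Q (adj H F x) = 0) : x = 0 := by
  refine nd_right H P x fun y => ?_
  have hS : LinearMap.ker ((psiB H P).flip x) = ⊤ := by
    refine span_top H (ge H) staB hAb P _ ?_ ?_
    · rw [LinearMap.mem_ker]
      exact h1
    · rintro y ⟨n, b, f, w, hf, hw, rfl⟩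
      obtain ⟨F, hF', hE⟩ := exists_map H P n b f hf
      rw [← hE, LinearMap.mem_ker, LinearMap.flip_apply, psiB_apply]
      obtain ⟨v, hvd, hv⟩ : ∃ v : Fin (GP.N n b).size → H.I, D1 H v ∧
          GP.E' H n b w = H.E (GP.N n b) v := by
        refine ⟨w ∘ Fin.cast (GP.size_N n b), fun i => ?_, ?_⟩
        · rw [Function.comp_apply, hw]
        · rw [GP.E_eq]
          rfl
      rw [hv]
      have e1 := psi_adj H F hx (H.E (GP.N n b) v)
      have e2 := psi_Z1 H (ge H) (GP.N n b) (tc_E1 H (ge H) (GP.N n b) hvd) (adj H F x)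
      rw [← e1, ← e2, hF _ F hF', ← psiB_apply, map_zero]
  have hy : y ∈ LinearMap.ker ((psiB H P).flip x) := by rw [hS]; trivial
  exact hy

/-- **Numerical equivalence**: it is enough to know it for the tensors of degree one. -/
theorem num_of_dd (hAb : ∀ a, AbelianType W (H.X a) (H.n a))
    (hnd : ∀ (Q : Prd m), ∀ t ∈ CT H Q, Dd H Q t →
      (∀ v ∈ tot W (Q.obj H.X), H.psiP Q v t = 0) → t = 0)
    (P : Prd m) {x : W.coh (P.obj H.X)} (hx : x ∈ CT H P)
    (h : ∀ v ∈ tot W (P.obj H.X), W.tr (P.obj H.X) (x * v) = 0) : x = 0 := by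
  have h' : ∀ v ∈ tot W (P.obj H.X), H.psiP P v x = 0 := by
    intro v hv
    change W.tr (P.obj H.X) (v * H.starP P x) = 0
    rw [← star_adj, ← ct_comm H P hx]
    exact h _ (star_tot H P hv)
  refine eq_zero H hAb P hx (h' 1 (one_tot H P)) fun Q F hF => ?_
  refine hnd Q _ (Z1_ct H Q (adj_ct H F hx)) (Z1_dd H Q _) fun v hv => ?_
  -- move the projector to the other side
  have e1 : H.psiP Q v (Z1 H Q (adj H F x)) = H.psiP Q (Z1 H Q v) (adj H F x) := by
    rw [← psi_Z1 H (ge H) Q (Z1_dd H Q v) (adj H F x), ← (ge H).psi_tc, ← (ge H).psi_tc,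
      tc_Z1 H (ge H), tc_Z1 H (ge H), psiT, psiT]
    refine Finset.sum_congr rfl fun w _ => ?_
    by_cases hw : D1 H w
    · rw [cut_on H (H.tc Q v) hw]
    · rw [cut_off H (H.tc Q v) hw]
      have h2 : ¬ D1 H (H.D.τ ∘ w) := fun h3 => hw (by
        intro i
        have h4 := h3 i
        rwa [Function.comp_apply, H.D.typ_τ] at h4)
      rw [cut_off H _ h2, zero_mul, mul_zero, mul_zero]
  rw [e1, psi_adj H F hx]
  exact h' _ (tot_pull H.hW (H.memP P) (H.memP Q) F (Z1_tot H Q hv))

end RotN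

end Pool.Agent.Lib.MP_361a6f_ag.FL
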