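import Pool.Agent.Lib.MP_361a6f_ag.FL.E.RotV
import Pool.Agent.Lib.MP_361a6f_ag.FL.E.Rot

/-!
# Numerical equivalence and automorphisms given by matrices, for the powers of one variety
-/

open CategoryTheory AlgebraicGeometry MonoidalCategory CartesianMonoidalCategory

universe u v w

set_option autoImplicit false
set_option linter.unusedSectionVars false

namespace Pool.Agent.Lib.MP_361a6f_ag.FL

open Pool.Agent.Lib.MP_361a6f_ag.H3 Pool.Agent.Lib.MP_361a6f_ag.SQ
  Pool.Agent.Lib.MP_361a6f_ag.PP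

namespace RotN

open EndE EndC EndM

variable {k : Type u} [Field k] {W : CohomologyData.{u, 0, w} k ℂ} {𝒱 : VarietyClass k}
  (H : Host W 𝒱 1)

/-! ### Algebraic tensors of degree one and classes -/

theorem not_off (P : Prd 1) (w : Fin P.size → H.I) : ¬ H.Off P w := by
  rintro ⟨i, hi⟩
  exact hi (Subsingleton.elim _ _)

/-- the class of a tensor over the letter `(0, 1)` -/
noncomputable def cls (P : Prd 1) : Ten (E.Sub H.D (0, 1)) P.size →ₗ[ℂ] W.coh (P.obj H.X) where
  toFun u := ∑ w, E.ext0 H.D (0, 1) u w • H.E P w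
  map_add' u v := by
    rw [← Finset.sum_add_distrib]
    refine Finset.sum_congr rfl fun w _ => ?_
    rw [map_add, Pi.add_apply, add_smul]
  map_smul' c u := by
    rw [Finset.smul_sum]
    refine Finset.sum_congr rfl fun w _ => ?_
    rw [map_smul, Pi.smul_apply, smul_eq_mul, mul_smul]
    rfl

theorem tc_cls (P : Prd 1) (u : Ten (E.Sub H.D (0, 1)) P.size) :
    H.tc P (cls H P u) = E.ext0 H.D (0, 1) u :=
  (ge H).tc_sum P _ fun w hw => absurd hw (not_off H P w)

theorem cls_dd (P : Prd 1) (u : Ten (E.Sub H.D (0, 1)) P.size) : Dd H P (cls H P u) := by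
  intro w hw
  rw [tc_cls]
  exact E.ext0_off u fun h => hw ((on_iff H w).1 h)

theorem cls_tot {P : Prd 1} {u : Ten (E.Sub H.D (0, 1)) P.size} (hu : E.At1 H P.size u) :
    cls H P u ∈ tot W (P.obj H.X) := by
  obtain ⟨z, hz, h⟩ := PosL.at_fit H (gr ge H) (ge H) P
    (u := E.ext0 H.D (0, 1) u) hu
  have e : cls H P u = z := by
    refine (ge H).inj P ?_
    rw [tc_cls]
    funext w
    rw [h, if_neg (not_off H P w)]
  rw [e]
  exact hz

theorem cls_ct {P : Prd 1} {u : Ten (E.Sub H.D (0, 1)) P.size}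
    (hu : u ∈ Submodule.span ℂ {u | E.At1 H P.size u}) : cls H P u ∈ CT H P := by
  have h : Submodule.span ℂ {u | E.At1 H P.size u} ≤ (CT H P).comap (cls H P) :=
    Submodule.span_le.2 fun u hu => tot_ct H (cls_tot H hu)
  exact h hu

/-- the tensor of a class over the letter `(0, 1)` -/
noncomputable def tc1 (P : Prd 1) : W.coh (P.obj H.X) →ₗ[ℂ] Ten (E.Sub H.D (0, 1)) P.size where
  toFun z := cut1 H (H.tc P z)
  map_add' x y := by
    funext w
    rw [map_add]
    rfl
  map_smul' c x := by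
    funext w
    rw [map_smul]
    rfl

theorem tc1_apply (P : Prd 1) (z : W.coh (P.obj H.X)) : tc1 H P z = cut1 H (H.tc P z) := rfl

theorem cls_tc1 (P : Prd 1) (z : W.coh (P.obj H.X)) : cls H P (tc1 H P z) = Z1 H P z := by
  refine (ge H).inj P ?_
  rw [tc_cls, tc1_apply, ext_cut1, tc_Z1 H (ge H)]

theorem cls_of_dd {P : Prd 1} {t : W.coh (P.obj H.X)} (ht : Dd H P t) :
    cls H P (tc1 H P t) = t := by
  refine (ge H).inj P ?_
  rw [tc_cls, tc1_apply, ext_cut1]
  funext w
  by_cases h : D1 H w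
  · exact cut_on H _ h
  · rw [cut_off H _ h, ht w h]

theorem tc1_cls (P : Prd 1) (u : Ten (E.Sub H.D (0, 1)) P.size) : tc1 H P (cls H P u) = u := by
  rw [tc1_apply, tc_cls]
  funext w
  exact E.ext0_up u w

theorem tc1_at {P : Prd 1} {z : W.coh (P.obj H.X)} (hz : z ∈ tot W (P.obj H.X)) :
    E.At1 H P.size (tc1 H P z) := by
  change E.ext0 H.D (0, 1) (tc1 H P z) ∈ H.At P.size
  rw [tc1_apply, ext_cut1]
  exact cut_at H (GP.at_tc H P hz)

theorem tc1_span {P : Prd 1} {z : W.coh (P.obj H.X)} (hz : z ∈ CT H P) :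
    tc1 H P z ∈ Submodule.span ℂ {u | E.At1 H P.size u} := by
  have h : CT H P ≤ (Submodule.span ℂ {u | E.At1 H P.size u}).comap (tc1 H P) :=
    Submodule.span_le.2 fun z hz => Submodule.subset_span (tc1_at H hz)
  exact h hz

/-- `ψ` of the classes of tensors -/
theorem psi_cls (P : Prd 1) (u v : Ten (E.Sub H.D (0, 1)) P.size) :
    H.psiP P (cls H P u) (cls H P v) = psiT (E.subD H.D (0, 1)) u v := by
  rw [← (ge H).psi_tc, tc_cls, tc_cls, E.psiT_ext]

theorem psi_cls_right (P : Prd 1) (u : Ten (E.Sub H.D (0, 1)) P.size) (z : W.coh (P.obj H.X)) :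
    H.psiP P (cls H P u) z = psiT (E.subD H.D (0, 1)) u (tc1 H P z) := by
  rw [← psi_Z1 H (ge H) P (cls_dd H P u) z, ← cls_tc1, psi_cls]

theorem odd1 (i : E.Sub H.D (0, 1)) : (E.subD H.D (0, 1)).odd ((E.subD H.D (0, 1)).typ i) := by
  show H.D.odd (H.D.typ i.1)
  rw [i.2]
  exact E.Hst.odd_one H 0

theorem asys1 : ASys (E.subD H.D (0, 1)) (E.At1 H) :=
  E.aSys_sub (α := ((0, 1) : Fin 1 × ℕ)) (aSys_at (at_ H))

theorem typ1 (i j : E.Sub H.D (0, 1)) :
    (E.subD H.D (0, 1)).typ i = (E.subD H.D (0, 1)).typ j := i.2.trans j.2.symm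

/-! ### Numerical equivalence -/

/-- **`ψ` nondegenerate on the tensors implies that numerical equivalence is homological
equivalence.** -/
theorem num_of_nd (hAb : ∀ a, AbelianType W (H.X a) (H.n a))
    (nd : ∀ L, ∀ u ∈ Submodule.span ℂ {u | E.At1 H L u}, u ≠ 0 →
      ∃ v ∈ Submodule.span ℂ {u | E.At1 H L u}, psiT (E.subD H.D (0, 1)) u v ≠ 0)
    (P : Prd 1) {x : W.coh (P.obj H.X)} (hx : x ∈ CT H P)
    (h : ∀ v ∈ tot W (P.obj H.X), W.tr (P.obj H.X) (x * v) = 0) : x = 0 := by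
  refine num_of_dd H hAb (fun Q t ht htd hv => ?_) P hx h
  rw [← cls_of_dd H htd]
  by_contra h0
  have h1 : tc1 H Q t ≠ 0 := fun h2 => h0 (by rw [h2, map_zero])
  obtain ⟨v, hvs, h2⟩ := nd Q.size _ (tc1_span H ht) h1
  apply h2
  rw [E.Rot.psi_flip (odd1 H)]
  have h3 : ∀ v ∈ Submodule.span ℂ {u | E.At1 H Q.size u},
      psiT (E.subD H.D (0, 1)) v (tc1 H Q t) = 0 := by
    intro v hv'
    rw [← psi_cls_right, ← psiB_apply]
    have h4 : Submodule.span ℂ {u | E.At1 H Q.size u}
        ≤ LinearMap.ker ((psiB H Q).flip t ∘ₗ cls H Q) := by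
      refine Submodule.span_le.2 fun u hu => ?_
      exact hv _ (cls_tot H hu)
    exact h4 hv'
  rw [h3 v hvs, mul_zero]

/-- every length `≥ 1` is the size of a product -/
theorem exists_size (n : ℕ) : ∃ P : Prd 1, P.size = n + 1 := ⟨GP.N n fun _ => 0, GP.size_N _ _⟩

theorem nd_zero {u : Ten (E.Sub H.D (0, 1)) 0} (hu0 : u ≠ 0) :
    ∃ v ∈ Submodule.span ℂ {u | E.At1 H 0 u}, psiT (E.subD H.D (0, 1)) u v ≠ 0 := by
  refine ⟨fun _ => 1, Submodule.subset_span ?_, ?_⟩
  · exact (asys1 H).one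
  · rw [psiT, Fintype.sum_unique]
    intro h0
    apply hu0
    funext w
    rw [Subsingleton.elim w default]
    simpa [sg] using h0

/-- the converse -/
theorem nd_of_num
    (hnum : ∀ (P : Prd 1), ∀ x ∈ CT H P, (∀ v ∈ tot W (P.obj H.X),
      W.tr (P.obj H.X) (x * v) = 0) → x = 0) :
    ∀ L, ∀ u ∈ Submodule.span ℂ {u | E.At1 H L u}, u ≠ 0 →
      ∃ v ∈ Submodule.span ℂ {u | E.At1 H L u}, psiT (E.subD H.D (0, 1)) u v ≠ 0 := by
  intro L
  rcases L with _ | n
  · exact fun u _ hu0 => nd_zero H hu0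
  · obtain ⟨P, hP⟩ := exists_size n
    rw [← hP]
    intro u hu hu0
    by_contra hcon
    push Not at hcon
    apply hu0
    have h1 : cls H P u = 0 := by
      have h2 : H.starP P (cls H P u) = 0 := by
        refine hnum P _ (star_ct H P (cls_ct H hu)) fun v hv => ?_
        rw [star_adj]
        change H.psiP P (cls H P u) v = 0
        rw [psi_cls_right]
        exact hcon _ (Submodule.subset_span (tc1_at H hv))
      rw [← star2 H P (cls H P u), h2, map_zero]
    have h3 := congrArg (tc1 H P) h1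
    rwa [tc1_cls, map_zero] at h3

/-! ### Automorphisms given by a matrix -/

section lsys

variable {M : Matrix (E.Sub H.D (0, 1)) (E.Sub H.D (0, 1)) ℂ}
  (hM : IsG (E.subD H.D (0, 1)) M)
  {C : ∀ P : Prd 1, W.coh (P.obj H.X) →ₗ[ℂ] W.coh (P.obj H.X)}
  (S : LSys H (mex H.D (0, 1) M) C)

include hM S

theorem c_cls (P : Prd 1) (u : Ten (E.Sub H.D (0, 1)) P.size) :
    C P (cls H P u) = cls H P (gT M u) := by
  refine (ge H).inj P ?_
  have h1 : C P (cls H P u) = lc H alg1 (mex H.D (0, 1) M) P (cls H P u) := by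
    have e : cls H P u = ∑ w, E.ext0 H.D (0, 1) u w • H.E P w := rfl
    rw [e, map_sum, map_sum]
    refine Finset.sum_congr rfl fun w _ => ?_
    by_cases h : D1 H w
    · rw [map_smul, map_smul, S.c_E (isG_mex M hM) P w h]
    · rw [E.ext0_off u fun h' => h ((on_iff H w).1 h'), zero_smul, map_zero, map_zero]
  rw [h1, tc_lc H alg1 (isG_mex M hM), tc_cls, tc_cls, gT_mex]

/-- **`C` preserves intersection numbers with algebraic classes** -/
theorem psi_C (hAb : ∀ a, AbelianType W (H.X a) (H.n a))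
    (hpd : ∀ a, PositiveDivisor W (H.X a) (H.n a) (H.ξ a))
    (h : ∀ L (u v : Ten (E.Sub H.D (0, 1)) L), E.At1 H L u → E.At1 H L v →
      psiT (E.subD H.D (0, 1)) (gT M u) v = psiT (E.subD H.D (0, 1)) u v)
    (P : Prd 1) {z w : W.coh (P.obj H.X)} (hz : z ∈ CT H P) (hw : w ∈ CT H P) :
    H.psiP P (C P z) w = H.psiP P z w := by
  rw [← ct_eq H hAb hpd P] at hz
  -- the tensors
  have hT : ∀ (Q : Prd 1) (u v : Ten (E.Sub H.D (0, 1)) Q.size),
      u ∈ Submodule.span ℂ {u | E.At1 H Q.size u} → v ∈ Submodule.span ℂ {u | E.At1 H Q.size u} →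
      H.psiP Q (cls H Q (gT M u)) (cls H Q v) = H.psiP Q (cls H Q u) (cls H Q v) := by
    intro Q u v hu hv
    rw [← c_cls H hM S Q u]
    have h1 : Submodule.span ℂ {u | E.At1 H Q.size u} ≤
        LinearMap.ker ((psiB H Q).flip (cls H Q v) ∘ₗ (C Q - LinearMap.id) ∘ₗ cls H Q) := by
      refine Submodule.span_le.2 fun u hu => ?_
      have h2 : Submodule.span ℂ {u | E.At1 H Q.size u} ≤
          LinearMap.ker (psiB H Q (C Q (cls H Q u) - cls H Q u) ∘ₗ cls H Q) := by
        refine Submodule.span_le.2 fun v hv => ?_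
        rw [SetLike.mem_coe, LinearMap.mem_ker, LinearMap.comp_apply, map_sub,
          LinearMap.sub_apply, psiB_apply, psiB_apply, c_cls H hM S Q u, psi_cls, psi_cls,
          h Q.size u v hu hv, sub_self]
      exact h2 hv
    have h3 := h1 hu
    rw [LinearMap.mem_ker, LinearMap.comp_apply, LinearMap.comp_apply, LinearMap.flip_apply,
      LinearMap.sub_apply, LinearMap.id_apply, map_sub, LinearMap.sub_apply, sub_eq_zero] at h3
    exact h3
  have hle : Submodule.span ℂ (VG H P) ≤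
      LinearMap.ker ((psiB H P).flip w ∘ₗ (C P - LinearMap.id)) := by
    refine Submodule.span_le.2 ?_
    rintro y (rfl | ⟨Q, F, t, hF, ht, htd, rfl⟩)
    · rw [SetLike.mem_coe, LinearMap.mem_ker, LinearMap.comp_apply, LinearMap.sub_apply, S.one,
        LinearMap.id_apply, sub_self, map_zero]
    · rw [SetLike.mem_coe, LinearMap.mem_ker, LinearMap.comp_apply, LinearMap.sub_apply,
        S.pull P Q F hF, LinearMap.id_apply, map_sub, LinearMap.flip_apply,
        LinearMap.flip_apply, psiB_apply, psiB_apply, ← psi_adj H F hw, ← psi_adj H F hw,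
        ← cls_of_dd H htd, c_cls H hM S, psi_cls_right, psi_cls_right, ← psi_cls, ← psi_cls,
        hT Q _ _ (tc1_span H ht) (tc1_span H (adj_ct H F hw)), sub_self]
  have h4 := hle hz
  rw [LinearMap.mem_ker, LinearMap.comp_apply, LinearMap.sub_apply, LinearMap.id_apply, map_sub,
    LinearMap.flip_apply, LinearMap.flip_apply, sub_eq_zero] at h4
  exact h4

/-- the same with the trace -/
theorem tr_C (hAb : ∀ a, AbelianType W (H.X a) (H.n a))
    (hpd : ∀ a, PositiveDivisor W (H.X a) (H.n a) (H.ξ a))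
    (h : ∀ L (u v : Ten (E.Sub H.D (0, 1)) L), E.At1 H L u → E.At1 H L v →
      psiT (E.subD H.D (0, 1)) (gT M u) v = psiT (E.subD H.D (0, 1)) u v)
    (P : Prd 1) {z w : W.coh (P.obj H.X)} (hz : z ∈ CT H P) (hw : w ∈ CT H P) :
    W.tr (P.obj H.X) (C P z * w) = W.tr (P.obj H.X) (z * w) := by
  have h1 := psi_C H hM S hAb hpd h P hz (star_ct H P hw)
  change W.tr (P.obj H.X) (C P z * H.starP P (H.starP P w)) =
    W.tr (P.obj H.X) (z * H.starP P (H.starP P w)) at h1
  rwa [star2] at h1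

/-- `C` preserves the complex span of the algebraic classes if `M` is a combination of operators of
algebraic correspondences -/
theorem C_ct (hAb : ∀ a, AbelianType W (H.X a) (H.n a))
    (hpd : ∀ a, PositiveDivisor W (H.X a) (H.n a) (H.ξ a))
    (hend : M ∈ E.endS (E.subD H.D (0, 1)) (E.At1 H))
    (P : Prd 1) {z : W.coh (P.obj H.X)} (hz : z ∈ CT H P) : C P z ∈ CT H P := by
  rw [← ct_eq H hAb hpd P] at hz
  have hle : Submodule.span ℂ (VG H P) ≤ (CT H P).comap (C P) := by
    refine Submodule.span_le.2 ?_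
    rintro y (rfl | ⟨Q, F, t, hF, ht, htd, rfl⟩)
    · rw [SetLike.mem_coe, Submodule.mem_comap, S.one]
      exact tot_ct H (one_tot H P)
    · rw [SetLike.mem_coe, Submodule.mem_comap, S.pull P Q F hF, ← cls_of_dd H htd,
        c_cls H hM S]
      refine pull_ct H F (cls_ct H ?_)
      exact E.Nd.op_gT_mem (asys1 H) (typ1 H) (E.NdZ.mem_endS.1 hend) (tc1_span H ht)
  exact hle hz

/-- the powers of `C` -/
theorem c_pow (P : Prd 1) (N : ℕ) (u : Ten (E.Sub H.D (0, 1)) P.size) :
    (C P)^[N] (cls H P u) = cls H P (gT (M ^ N) u) := by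
  induction N with
  | zero =>
    rw [pow_zero, alg1.gT_one]
    rfl
  | succ N ih =>
    rw [Function.iterate_succ_apply', ih, c_cls H hM S, ← alg1.gT_mul, pow_succ']

/-- if every algebraic class is fixed by a power of `C` then every algebraic tensor of degree one
is fixed by a power of `M` -/
theorem pow_fix (h : ∀ (P : Prd 1), ∀ z ∈ tot W (P.obj H.X), ∃ N, 0 < N ∧ (C P)^[N] z = z)
    (L : ℕ) (u : Ten (E.Sub H.D (0, 1)) L) (hu : E.At1 H L u) :
    ∃ N, 0 < N ∧ gT (M ^ N) u = u := by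
  revert u
  rcases L with _ | n
  · intro u _
    refine ⟨1, one_pos, ?_⟩
    funext w
    unfold gT
    rw [Fintype.sum_eq_single w (fun w' hw => absurd (Subsingleton.elim _ _) hw)]
    simp
  · obtain ⟨P, hP⟩ := exists_size n
    rw [← hP]
    intro u hu
    obtain ⟨N, hN, h1⟩ := h P _ (cls_tot H hu)
    refine ⟨N, hN, ?_⟩
    rw [c_pow H hM S] at h1
    have h2 := congrArg (tc1 H P) h1
    rwa [tc1_cls, tc1_cls] at h2

end lsys

end RotN

end Pool.Agent.Lib.MP_361a6f_ag.FL
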