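import Pool.Agent.Lib.MP_361a6f_ag.FL.E.RotN

/-!
# The complex span of the algebraic classes is generated by tensors of degree one

The complex span of the algebraic classes of a product is spanned by `1` and the pull-backs of the
classes in the complex span of the algebraic classes of the other products whose tensors have
degree one in all slots.
-/

open CategoryTheory AlgebraicGeometry MonoidalCategory CartesianMonoidalCategory

universe u v w

set_option autoImplicit false
set_option linter.unusedSectionVars false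

namespace Pool.Agent.Lib.MP_361a6f_ag.FL

open Pool.Agent.Lib.MP_361a6f_ag.H3 Pool.Agent.Lib.MP_361a6f_ag.SQ
  Pool.Agent.Lib.MP_361a6f_ag.PP

namespace RotN

open EndE EndC EndM

variable {k : Type u} [Field k] {m : ℕ} {W : CohomologyData.{u, 0, w} k ℂ} {𝒱 : VarietyClass k}
  (H : Host W 𝒱 m)

/-- `1` and the pull-backs of classes with tensors of degree one -/
def VG (P : Prd m) : Set (W.coh (P.obj H.X)) :=
  {y | y = 1 ∨ ∃ (Q : Prd m) (F : P.obj H.X ⟶ Q.obj H.X) (t : W.coh (Q.obj H.X)),
    CoordMor H.X 3 P Q F ∧ t ∈ CT H Q ∧ Dd H Q t ∧ y = W.pull F t}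

theorem vg_ct {P : Prd m} {y : W.coh (P.obj H.X)} (hy : y ∈ VG H P) : y ∈ CT H P := by
  rcases hy with rfl | ⟨Q, F, t, _, ht, _, rfl⟩
  · exact tot_ct H (one_tot H P)
  · exact pull_ct H F ht

/-- a real pairing of two finite-dimensional complex spaces without left kernel -/
theorem finrank_le_of_pairing {M : Type*} [AddCommGroup M] [Module ℂ M]
    (V C : Submodule ℂ M) [Module.Finite ℂ M]
    (B : C →ₗ[ℝ] Module.Dual ℝ V) (hB : Function.Injective B) :
    Module.finrank ℂ C ≤ Module.finrank ℂ V := by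
  have h1 : Module.finrank ℝ C ≤ Module.finrank ℝ (Module.Dual ℝ V) := by
    have : Module.Finite ℝ V := Module.Finite.trans ℂ V
    exact LinearMap.finrank_le_finrank_of_injective hB
  rw [Subspace.dual_finrank_eq, finrank_real_of_complex, finrank_real_of_complex] at h1
  omega

theorem isG_one : IsG H.D (1 : Matrix H.I H.I ℂ) := by
  refine ⟨fun i j h => ?_, by rw [Matrix.transpose_one, Matrix.one_mul, Matrix.mul_one]⟩
  rw [Matrix.one_apply, if_neg fun e => h (congrArg H.D.typ e)]

theorem psi_sym (P : Prd m) {i : ℕ} {x : W.coh (P.obj H.X)} (y : W.coh (P.obj H.X))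
    (hx : x ∈ W.gr (P.obj H.X) i) : H.psiP P y x = (-1 : ℂ) ^ i * H.psiP P x y := by
  obtain ⟨DP, hPalg⟩ := H.lamP P
  exact GB.psi_symm_gr H.hW staB (H.memP P) hPalg DP y hx

/-- **The complex span of the algebraic classes.** -/
theorem ct_eq (hAb : ∀ a, AbelianType W (H.X a) (H.n a))
    (hpd : ∀ a, PositiveDivisor W (H.X a) (H.n a) (H.ξ a)) (P : Prd m) :
    Submodule.span ℂ (VG H P) = CT H P := by
  have hext : ∀ a, ExtFacts W (H.X a) := fun a => by
    obtain ⟨q, hq, hqt⟩ := (hpd a).2
    have hqt' : W.tr (H.X a) (H.ξ a ^ H.n a) = (q : ℂ) := hqt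
    have hq0 : (q : ℂ) ≠ 0 := by exact_mod_cast hq.ne'
    exact Ext1.extFacts H.hW (H.mem a) (hAb a) ⟨_, by rw [hqt']; exact hq0⟩
  have a1 := alg1
  have a2 := alg2
  have ge := ge H
  have h1G := isG_one H
  obtain ⟨K, S⟩ := exists_K H a1 h1G h1G ge hAb hpd hext
  have hfam := fam_of_ksys H a1 a2 h1G h1G S
  have _ := H.hW.finite (H.memP P)
  have hle : Submodule.span ℂ (VG H P) ≤ CT H P := Submodule.span_le.2 fun y hy => vg_ct H hy
  -- `K` on classes with tensors of degree one
  have hKd : ∀ (Q : Prd m) (t : W.coh (Q.obj H.X)), Dd H Q t → K Q t = GJ.J H a1 1 Q t := by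
    intro Q t ht
    have e1 : t = ∑ w, H.tc Q t w • H.E Q w := ge.expand Q t
    have e2 : K Q t = jc H a1 1 1 Q t := by
      conv_lhs => rw [e1]
      conv_rhs => rw [e1]
      exact K_sum H a1 a2 h1G h1G ge S Q ht
    rw [e2]
    refine ge.inj Q ?_
    rw [tc_jc H a1 h1G h1G ge, GJ.tc_J H a1 h1G ge, TT, a1.gT_one]
  have hJd : ∀ (Q : Prd m) (t : W.coh (Q.obj H.X)), Dd H Q t → Dd H Q (GJ.J H a1 1 Q t) := by
    intro Q t ht w hw
    rw [GJ.tc_J H a1 h1G ge]
    exact GJ.JT_supp H.D a1 h1G (fun w => ¬ D1 H w) (fun w w' hh => d1_typ H hh) ht w hw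
  -- the pairing
  let B : (CT H P) →ₗ[ℝ] Module.Dual ℝ (Submodule.span ℂ (VG H P)) :=
    LinearMap.mk₂ ℝ (fun (y : CT H P) (v : Submodule.span ℂ (VG H P)) =>
        (psiB H P (K P (v : W.coh (P.obj H.X))) (y : W.coh (P.obj H.X))).re)
      (fun y y' v => by
        rw [Submodule.coe_add, map_add, Complex.add_re])
      (fun c y v => by
        have e : ((c • y : CT H P) : W.coh (P.obj H.X)) = (c : ℂ) • (y : W.coh (P.obj H.X)) := rfl
        rw [e, map_smul, smul_eq_mul, Complex.re_ofReal_mul, smul_eq_mul])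
      (fun y v v' => by
        rw [Submodule.coe_add, map_add, map_add, LinearMap.add_apply, Complex.add_re])
      (fun c y v => by
        have e : ((c • v : Submodule.span ℂ (VG H P)) : W.coh (P.obj H.X))
          = (c : ℂ) • (v : W.coh (P.obj H.X)) := rfl
        rw [e, LinearMap.map_smulₛₗ, Complex.conj_ofReal, map_smul, LinearMap.smul_apply,
          smul_eq_mul, Complex.re_ofReal_mul, smul_eq_mul])
  have hBa : ∀ (y : CT H P) (v : Submodule.span ℂ (VG H P)),
      B y v = (H.psiP P (K P (v : W.coh (P.obj H.X))) (y : W.coh (P.obj H.X))).re :=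
    fun y v => rfl
  have hinj : Function.Injective B := by
    rw [injective_iff_map_eq_zero]
    intro y hy
    have h0 : ∀ v ∈ Submodule.span ℂ (VG H P), H.psiP P (K P v) (y : W.coh (P.obj H.X)) = 0 := by
      intro v hv
      have h1 := hBa y ⟨v, hv⟩
      have h2 := hBa y ⟨Complex.I • v, Submodule.smul_mem _ _ hv⟩
      rw [hy, LinearMap.zero_apply] at h1 h2
      have h3 : H.psiP P (K P (Complex.I • v)) (y : W.coh (P.obj H.X))
          = -Complex.I * H.psiP P (K P v) (y : W.coh (P.obj H.X)) := by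
        rw [LinearMap.map_smulₛₗ, Complex.conj_I]
        exact psi_smul_left _ _ _ _
      rw [show ((⟨Complex.I • v, Submodule.smul_mem _ _ hv⟩ : Submodule.span ℂ (VG H P)) :
        W.coh (P.obj H.X)) = Complex.I • v from rfl, h3] at h2
      refine Complex.ext h1.symm ?_
      have h4 : (-Complex.I * H.psiP P (K P v) (y : W.coh (P.obj H.X))).re
          = (H.psiP P (K P v) (y : W.coh (P.obj H.X))).im := by
        simp
      rw [h4] at h2
      exact h2.symm
    refine Subtype.ext (eq_zero H hAb P y.2 ?_ fun Q F hF => ?_)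
    · have h1 := h0 1 (Submodule.subset_span (Or.inl rfl))
      rwa [S.js.one] at h1
    · by_contra ht
      have htc := Z1_ct H Q (adj_ct H F y.2)
      have htd := Z1_dd H Q (adj H F (y : W.coh (P.obj H.X)))
      obtain ⟨r, hr, h2⟩ := GJ.J_pos H a1 h1G ge Q _ ht
      have h1 := h0 (W.pull F (Z1 H Q (adj H F (y : W.coh (P.obj H.X)))))
        (Submodule.subset_span (Or.inr ⟨Q, F, _, hF, htc, htd, rfl⟩))
      have e1 := hfam.pull P Q F hF (Z1 H Q (adj H F (y : W.coh (P.obj H.X))))
      have e2 := psi_adj H F y.2 (K Q (Z1 H Q (adj H F (y : W.coh (P.obj H.X)))))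
      rw [e1, ← e2, hKd Q _ htd, ← psi_Z1 H ge Q (hJd Q _ htd), psi_sym H Q _ (dd_gr H htd),
        h2] at h1
      rcases mul_eq_zero.1 h1 with h3 | h3
      · exact absurd h3 (pow_ne_zero _ (by norm_num))
      · exact hr.ne' (by exact_mod_cast h3)
  exact Submodule.eq_of_le_of_finrank_le hle (finrank_le_of_pairing _ _ B hinj)

end RotN

end Pool.Agent.Lib.MP_361a6f_ag.FL
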