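import Pool.Agent.Lib.MP_361a6f_ag.PP.Defs

/-!
# Transport of the star operator along an isomorphism
-/

open CategoryTheory AlgebraicGeometry MonoidalCategory CartesianMonoidalCategory

universe u u' w w'

set_option autoImplicit false
set_option linter.unusedSectionVars false

namespace Pool.Agent.Lib.MP_361a6f_ag.FL.E

open Pool.Agent.Lib.MP_361a6f_ag.PP

namespace StarTr

variable {M : Type w} [AddCommGroup M] [Module ℂ M] {M' : Type w'} [AddCommGroup M'] [Module ℂ M']
  (s : M ≃ₗ[ℂ] M')

/-- transport of an operator -/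
noncomputable abbrev cj : Module.End ℂ M ≃ₐ[ℂ] Module.End ℂ M' := s.conjAlgEquiv ℂ

theorem cj_apply (a : Module.End ℂ M) (x : M) : cj s a (s x) = s (a x) := by
  show s (a (s.symm (s x))) = s (a x)
  rw [LinearEquiv.symm_apply_apply]

theorem nilp (a : Module.End ℂ M) : nilpotencyClass (cj s a) = nilpotencyClass a := by
  unfold nilpotencyClass
  congr 1
  ext j
  show (cj s a) ^ j = 0 ↔ a ^ j = 0
  rw [← map_pow]
  exact map_eq_zero_iff _ (cj s).injective

theorem ex_cj (a : Module.End ℂ M) : ex (cj s a) = cj s (ex a) := by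
  unfold ex
  rw [nilp, map_sum]
  refine Finset.sum_congr rfl fun i _ => ?_
  rw [map_smul, map_pow]

theorem wop_cj (L Λ : Module.End ℂ M) : wop (cj s L) (cj s Λ) = cj s (wop L Λ) := by
  unfold wop
  rw [ex_cj, ← map_neg, ex_cj, map_mul, map_mul]

variable {gr : ℕ → Submodule ℂ M} {gr' : ℕ → Submodule ℂ M'}

/-- induction over the homogeneous elements -/
theorem ind (h : DirectSum.IsInternal gr) {P : M → Prop} (x : M)
    (hg : ∀ i, ∀ x ∈ gr i, P x) (h0 : P 0) (ha : ∀ x y, P x → P y → P (x + y)) : P x := by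
  have hx : x ∈ ⨆ i, gr i := by
    rw [h.submodule_iSup_eq_top]
    trivial
  exact Submodule.iSup_induction (motive := P) gr hx hg h0 ha

theorem gop_cj (h : DirectSum.IsInternal gr) (h' : DirectSum.IsInternal gr')
    (hs : ∀ i, ∀ x ∈ gr i, s x ∈ gr' i) (c : ℕ → ℂ) (x : M) :
    gop h' c (s x) = s (gop h c x) := by
  refine ind h (P := fun x => gop h' c (s x) = s (gop h c x)) x ?_ ?_ ?_
  · intro i x hx
    rw [gop_apply h c hx, gop_apply h' c (hs i x hx), map_smul]
  · rw [map_zero, map_zero, map_zero, map_zero]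
  · intro x y hx hy
    rw [map_add, map_add, map_add, map_add, hx, hy]

/-- the isomorphism is an isomorphism in every degree -/
theorem symm_gr (h : DirectSum.IsInternal gr) (h' : DirectSum.IsInternal gr')
    (hs : ∀ i, ∀ x ∈ gr i, s x ∈ gr' i) {i : ℕ} {y : M'} (hy : y ∈ gr' i) : s.symm y ∈ gr i := by
  classical
  have h1 := gop_cj s h h' hs (Pi.single i 1) (s.symm y)
  rw [LinearEquiv.apply_symm_apply, gop_apply h' _ hy, Pi.single_eq_same, one_smul] at h1
  have h2 : s.symm y = gop h (Pi.single i 1) (s.symm y) := by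
    refine s.injective ?_
    rw [LinearEquiv.apply_symm_apply]
    exact h1
  rw [h2]
  refine ind h (P := fun x => gop h (Pi.single i 1) x ∈ gr i) _ ?_ ?_ ?_
  · intro j x hx
    rw [gop_apply h _ hx]
    by_cases hj : j = i
    · subst hj
      exact Submodule.smul_mem _ _ hx
    · rw [Pi.single_eq_of_ne hj, zero_smul]
      exact zero_mem _
  · rw [map_zero]
    exact zero_mem _
  · intro x y hx hy
    rw [map_add]
    exact add_mem hx hy

/-- **Transport of the star operator.** -/
theorem star_cj (h : DirectSum.IsInternal gr) (h' : DirectSum.IsInternal gr')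
    (hs : ∀ i, ∀ x ∈ gr i, s x ∈ gr' i) (L Λ : Module.End ℂ M) (x : M) :
    star h' (cj s L) (cj s Λ) (s x) = s (star h L Λ x) := by
  unfold PP.star
  rw [wop_cj]
  show cj s (wop L Λ) (gop h' sgn (s x)) = s (wop L Λ (gop h sgn x))
  rw [gop_cj s h h' hs, cj_apply]

/-- transport of the graded module over `sl_2` -/
theorem slm_cj {n : ℕ} {L Λ : Module.End ℂ M} (S : Slm gr n L Λ) (h' : DirectSum.IsInternal gr')
    (hs : ∀ i, ∀ x ∈ gr i, s x ∈ gr' i) : Slm gr' n (cj s L) (cj s Λ) := by
  have hy : ∀ i, ∀ y ∈ gr' i, s.symm y ∈ gr i := fun i y hy => symm_gr s S.internal h' hs hy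
  refine ⟨h', ?_, ?_, ?_, ?_, ?_⟩
  · intro i y hy' hi
    have := S.top i _ (hy i y hy') hi
    exact (LinearEquiv.map_eq_zero_iff s.symm).1 this
  · intro i y hy'
    exact hs _ _ (S.L_gr i _ (hy i y hy'))
  · intro i y hy'
    exact hs _ _ (S.Λ_gr i _ (hy (i + 2) y hy'))
  · intro i y hi hy'
    show s (Λ (s.symm y)) = 0
    rw [S.Λ_low i _ hi (hy i y hy'), map_zero]
  · intro i y hy'
    have := S.comm i _ (hy i y hy')
    show s (L (s.symm (s (Λ (s.symm y))))) - s (Λ (s.symm (s (L (s.symm y))))) = _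
    rw [LinearEquiv.symm_apply_apply, LinearEquiv.symm_apply_apply, ← map_sub, this, map_smul,
      LinearEquiv.apply_symm_apply]

end StarTr

end Pool.Agent.Lib.MP_361a6f_ag.FL.E
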