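import Pool.Agent.Lib.MP_361a6f_ag.FL.MinT
import Pool.Agent.Lib.MP_361a6f_ag.FL.XY
import Pool.Agent.Lib.MP_361a6f_ag.FL.Real

/-!
# Theorem E, steps (a) and (c): the minimal point in the closure of the orbit of the centraliser
of a regular unitary diagonal element, and a diagonal element that maps it to its conjugate
-/

set_option autoImplicit false
set_option linter.unusedSectionVars false

open Filter Topology

namespace Pool.Agent.Lib.MP_361a6f_ag.FL

namespace TMIN

open MinT

variable {I Λ ι : Type} [Fintype I] [DecidableEq I] [DecidableEq Λ] [Fintype ι] {len : ι → ℕ}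

/-! ### Bilinearity -/

theorem hS_add_left (u u' v : Tup I len) : hS (u + u') v = hS u v + hS u' v := by
  simp only [hS, hT, Pi.add_apply, add_mul, Finset.sum_add_distrib]

theorem hS_zero_left (v : Tup I len) : hS (0 : Tup I len) v = 0 := by
  simp [hS, hT]

theorem aS_add (h : Alg1) (A B : Matrix I I ℂ) (s : Tup I len) :
    aS (A + B) s = aS A s + aS B s := by
  funext i
  exact h.add_aT A B (s i)

theorem aS_zero (h : Alg1) (s : Tup I len) : aS (0 : Matrix I I ℂ) s = 0 := by
  have h1 := aS_smul h (0 : ℂ) (0 : Matrix I I ℂ) s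
  rwa [smul_zero, zero_smul] at h1

/-- the moment map as a linear function -/
noncomputable def mo (h : Alg1) (s : Tup I len) : Matrix I I ℂ →ₗ[ℂ] ℂ where
  toFun A := hS (aS A s) s
  map_add' A B := by rw [aS_add h, hS_add_left]
  map_smul' c A := by rw [aS_smul h, hS_smul_left, RingHom.id_apply, smul_eq_mul]

/-! ### A minimal point for a subgroup -/

/-- the minimal point in the closure of the orbit of a subgroup `P` -/
theorem exists_min (h : Alg1) (P : Matrix I I ℂ → Prop) (h1 : P 1)
    (hmul : ∀ g x, P g → P x → P (g * x)) (t : Tup I len) :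
    ∃ (s : Tup I len) (g : ℕ → Matrix I I ℂ), (∀ j, P (g j)) ∧
      Tendsto (fun j => gS (g j) t) atTop (𝓝 s) ∧ ∀ x, P x → nS s ≤ nS (gS x s) := by
  let S : Set ℝ := {r | ∃ g, P g ∧ nS (gS g t) = r}
  have hSne : S.Nonempty := ⟨_, 1, h1, rfl⟩
  have hSbd : BddBelow S := ⟨0, by rintro _ ⟨g, -, rfl⟩; exact nS_nonneg _⟩
  obtain ⟨u, -, hu, huS⟩ := exists_seq_tendsto_sInf hSne hSbd
  choose g hgG hgu using huS
  obtain ⟨R, hR⟩ := hu.bddAbove_range
  have hb : ∀ j, gS (g j) t ∈ Metric.closedBall (0 : Tup I len) (|R| + 1) := by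
    intro j
    rw [mem_closedBall_zero_iff]
    refine norm_le_of_nS _ (by positivity) ?_
    have h1 : u j ≤ R := hR ⟨j, rfl⟩
    rw [hgu j]
    have h2 := le_abs_self R
    have h3 := abs_nonneg R
    nlinarith
  obtain ⟨s, -, ψ, hψ, hlim⟩ := (isCompact_closedBall (0 : Tup I len) (|R| + 1)).tendsto_subseq hb
  have hs : nS s = sInf S := by
    have h1 : Tendsto (fun j => nS (gS (g (ψ j)) t)) atTop (𝓝 (nS s)) :=
      (continuous_nS.tendsto s).comp hlim
    have h2 : Tendsto (fun j => nS (gS (g (ψ j)) t)) atTop (𝓝 (sInf S)) := by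
      have h3 : (fun j => nS (gS (g (ψ j)) t)) = u ∘ ψ := by
        funext j; exact hgu (ψ j)
      rw [h3]
      exact hu.comp hψ.tendsto_atTop
    exact tendsto_nhds_unique h1 h2
  refine ⟨s, fun j => g (ψ j), fun j => hgG _, hlim, ?_⟩
  intro x hx
  have h1 : Tendsto (fun j => nS (gS (x * g (ψ j)) t)) atTop (𝓝 (nS (gS x s))) := by
    have h2 : Tendsto (fun j => gS x (gS (g (ψ j)) t)) atTop (𝓝 (gS x s)) :=
      ((continuous_gS h x).tendsto s).comp hlim
    have h3 : (fun j => nS (gS (x * g (ψ j)) t)) = fun j => nS (gS x (gS (g (ψ j)) t)) := by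
      funext j; rw [gS_mul h]
    rw [h3]
    exact (continuous_nS.tendsto _).comp h2
  rw [hs]
  exact ge_of_tendsto' h1 fun j => csInf_le hSbd ⟨_, hmul _ _ hx (hgG _), rfl⟩

/-! ### The centraliser of a regular diagonal element -/

section diag

variable (D : Dat I Λ) (l : I → ℂ)

theorem unitary_diag (hl : ∀ i, ‖l i‖ = 1) :
    (Matrix.diagonal l).conjTranspose * Matrix.diagonal l = 1 := by
  rw [Matrix.diagonal_conjTranspose, Matrix.diagonal_mul_diagonal]
  have h1 : (fun i => star l i * l i) = fun _ => (1 : ℂ) := by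
    funext i
    rw [Pi.star_apply, Complex.star_def, Complex.conj_mul', hl i]
    simp
  rw [h1, Matrix.diagonal_one]

theorem commute_of_diag (A : Matrix I I ℂ) (hA : ∀ i j, i ≠ j → A i j = 0) :
    A * Matrix.diagonal l = Matrix.diagonal l * A := by
  ext i j
  rw [Matrix.mul_diagonal, Matrix.diagonal_mul]
  by_cases h : i = j
  · rw [h]; ring
  · rw [hA i j h]; ring

theorem diag_of_commute (hne : ∀ i j, i ≠ j → l i ≠ l j) (A : Matrix I I ℂ)
    (hA : A * Matrix.diagonal l = Matrix.diagonal l * A) : ∀ i j, i ≠ j → A i j = 0 := by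
  intro i j h
  have h1 := congrFun (congrFun hA i) j
  rw [Matrix.mul_diagonal, Matrix.diagonal_mul] at h1
  have h2 : A i j * (l j - l i) = 0 := by rw [mul_sub, h1]; ring
  rcases mul_eq_zero.1 h2 with h3 | h3
  · exact h3
  · exact absurd (sub_eq_zero.1 h3).symm (hne i j h)

/-- the moment of an operator is invariant under unitary symmetries of the tuple -/
theorem mo_conj (h : Alg1) {g : Matrix I I ℂ} (hu : g.conjTranspose * g = 1) {s : Tup I len}
    (hs : gS g s = s) (A : Matrix I I ℂ) : mo h s (g * A * g⁻¹) = mo h s A := by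
  have hinv : g⁻¹ = g.conjTranspose := Matrix.inv_eq_left_inv hu
  have hgg : g * g⁻¹ = 1 := by
    rw [hinv]
    exact mul_eq_one_comm.1 hu
  have e : ∀ i, hT (aT (g * A * g⁻¹) (s i)) (s i) = hT (aT A (s i)) (s i) := by
    intro i
    have hsi : gT g (s i) = s i := congrFun hs i
    have h1 := h.gT_aT g A (s i) hgg
    rw [hsi] at h1
    rw [← h1, h.hT_gT]
    have h2 : gT g.conjTranspose (s i) = s i := by
      conv_lhs => rw [← hsi]
      rw [← h.gT_mul, hu, h.gT_one]
    rw [h2]
  change hS (aS (g * A * g⁻¹) s) s = hS (aS A s) s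
  unfold hS
  exact Finset.sum_congr rfl fun i _ => e i

theorem mo_single (h : Alg1) (hl : ∀ i, ‖l i‖ = 1) (hne : ∀ i j, i ≠ j → l i ≠ l j)
    {s : Tup I len} (hs : gS (Matrix.diagonal l) s = s) {i j : I} (hij : i ≠ j) (c : ℂ) :
    mo h s (Matrix.single i j c) = 0 := by
  have h1 := mo_conj h (unitary_diag l hl) hs (Matrix.single i j c)
  have hl0 : ∀ i, l i ≠ 0 := fun i h0 => by
    have := hl i
    rw [h0, norm_zero] at this
    exact one_ne_zero this.symm
  have hinv : (Matrix.diagonal l)⁻¹ = Matrix.diagonal (fun i => (l i)⁻¹) := by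
    refine Matrix.inv_eq_left_inv ?_
    rw [Matrix.diagonal_mul_diagonal]
    have : (fun i => (l i)⁻¹ * l i) = fun _ => (1 : ℂ) := by
      funext i
      exact inv_mul_cancel₀ (hl0 i)
    rw [this, Matrix.diagonal_one]
  have h2 : Matrix.diagonal l * Matrix.single i j c * (Matrix.diagonal l)⁻¹
      = (l i * (l j)⁻¹) • Matrix.single i j c := by
    rw [hinv]
    ext a b
    rw [Matrix.mul_diagonal, Matrix.diagonal_mul, Matrix.smul_apply, smul_eq_mul]
    by_cases hab : i = a ∧ j = b
    · obtain ⟨rfl, rfl⟩ := hab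
      ring
    · rw [Matrix.single_apply_of_ne _ _ _ _ _ hab]
      ring
  rw [h2, map_smul, smul_eq_mul] at h1
  have h3 : (l i * (l j)⁻¹ - 1) * mo h s (Matrix.single i j c) = 0 := by
    rw [sub_mul, h1, one_mul, sub_self]
  rcases mul_eq_zero.1 h3 with h4 | h4
  · exfalso
    apply hne i j hij
    have h5 : l i * (l j)⁻¹ = 1 := sub_eq_zero.1 h4
    calc l i = l i * (l j)⁻¹ * l j := by rw [mul_assoc, inv_mul_cancel₀ (hl0 j), mul_one]
      _ = l j := by rw [h5, one_mul]
  · exact h4

theorem mo_off (h : Alg1) (hl : ∀ i, ‖l i‖ = 1) (hne : ∀ i j, i ≠ j → l i ≠ l j)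
    {s : Tup I len} (hs : gS (Matrix.diagonal l) s = s) (A : Matrix I I ℂ) :
    mo h s A = mo h s (Matrix.diagonal fun i => A i i) := by
  have h1 : A = (Matrix.diagonal fun i => A i i)
      + ∑ i, ∑ j, (if i = j then 0 else Matrix.single i j (A i j)) := by
    ext a b
    rw [Matrix.add_apply, Matrix.sum_apply]
    simp only [Matrix.sum_apply]
    by_cases hab : a = b
    · subst hab
      rw [Matrix.diagonal_apply_eq, Finset.sum_eq_zero, add_zero]
      intro i _
      refine Finset.sum_eq_zero fun j _ => ?_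
      by_cases hij : i = j
      · rw [if_pos hij]; rfl
      · rw [if_neg hij]
        refine Matrix.single_apply_of_ne _ _ _ _ _ ?_
        rintro ⟨rfl, rfl⟩
        exact hij rfl
    · rw [Matrix.diagonal_apply_ne _ hab, zero_add, Finset.sum_eq_single a,
        Finset.sum_eq_single b]
      · rw [if_neg hab, Matrix.single_apply_same]
      · intro j _ hj
        by_cases hij : a = j
        · rw [if_pos hij]; rfl
        · rw [if_neg hij]
          exact Matrix.single_apply_of_ne _ _ _ _ _ fun h => hj h.2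
      · intro hb; exact absurd (Finset.mem_univ b) hb
      · intro i _ hi
        refine Finset.sum_eq_zero fun j _ => ?_
        by_cases hij : i = j
        · rw [if_pos hij]; rfl
        · rw [if_neg hij]
          exact Matrix.single_apply_of_ne _ _ _ _ _ fun h => hi h.1
      · intro ha; exact absurd (Finset.mem_univ a) ha
  conv_lhs => rw [h1]
  rw [map_add, map_sum]
  have h2 : ∀ i ∈ (Finset.univ : Finset I),
      mo h s (∑ j, (if i = j then 0 else Matrix.single i j (A i j))) = 0 := by
    intro i _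
    rw [map_sum]
    refine Finset.sum_eq_zero fun j _ => ?_
    by_cases hij : i = j
    · rw [if_pos hij, map_zero]
    · rw [if_neg hij]
      exact mo_single l h hl hne hs hij _
  rw [Finset.sum_eq_zero h2, add_zero]

/-- the diagonal part of an element of the Lie algebra -/
theorem lie_diag {A : Matrix I I ℂ} (hA : IsLie D A) :
    IsLie D (Matrix.diagonal fun i => A i i) := by
  have h2 : ∀ i, A (D.τ i) (D.τ i) + A i i = 0 := by
    intro i
    have h1 := congrFun (congrFun hA.2 i) (D.τ i)
    rw [Matrix.add_apply, Matrix.mul_apply, Matrix.mul_apply, Finset.sum_eq_single i,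
      Finset.sum_eq_single (D.τ i)] at h1
    · simp only [Matrix.transpose_apply, Psi, Matrix.of_apply, if_true, Matrix.zero_apply] at h1
      have h3 : (A i i + A (D.τ i) (D.τ i)) * D.s i = 0 := by linear_combination h1
      rcases mul_eq_zero.1 h3 with h4 | h4
      · linear_combination h4
      · rcases D.s_val i with h5 | h5 <;> rw [h5] at h4
        · exact absurd h4 one_ne_zero
        · exact absurd h4 (neg_ne_zero.2 one_ne_zero)
    · intro j _ hj
      simp only [Psi, Matrix.of_apply, if_neg hj, zero_mul]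
    · intro hj; exact absurd (Finset.mem_univ _) hj
    · intro j _ hj
      have : ¬ (D.τ i = D.τ j) := fun h => hj (by rw [← D.τ_τ j, ← h, D.τ_τ])
      simp only [Psi, Matrix.of_apply, if_neg this, mul_zero]
    · intro hj; exact absurd (Finset.mem_univ _) hj
  refine ⟨fun i j hij => Matrix.diagonal_apply_ne _ fun h => hij (by rw [h]), ?_⟩
  rw [Matrix.diagonal_transpose]
  ext i j
  rw [Matrix.add_apply, Matrix.diagonal_mul, Matrix.mul_diagonal, Matrix.zero_apply]
  simp only [Psi, Matrix.of_apply]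
  by_cases hj : j = D.τ i
  · rw [if_pos hj, hj]
    linear_combination (D.s i) * h2 i
  · rw [if_neg hj]
    ring

/-- **Step (a).** -/
theorem tmin (h : Alg1) (hl : ∀ i, ‖l i‖ = 1) (hne : ∀ i j, i ≠ j → l i ≠ l j)
    (t : Tup I len) (ht : gS (Matrix.diagonal l) t = t) :
    ∃ (s : Tup I len) (g : ℕ → Matrix I I ℂ), (∀ j, IsG D (g j)) ∧
      (∀ j, g j * Matrix.diagonal l = Matrix.diagonal l * g j) ∧
      Tendsto (fun j => gS (g j) t) atTop (𝓝 s) ∧ gS (Matrix.diagonal l) s = s ∧
      Minimal D s := by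
  obtain ⟨s, g, hg, hlim, hs⟩ := exists_min h
    (fun g => IsG D g ∧ g * Matrix.diagonal l = Matrix.diagonal l * g)
    ⟨h.G_one D, by rw [one_mul, mul_one]⟩
    (fun g x hg hx => ⟨h.G_mul D _ _ hg.1 hx.1, by
      rw [mul_assoc, hx.2, ← mul_assoc, hg.2, mul_assoc]⟩) t
  have hsl : gS (Matrix.diagonal l) s = s := by
    have h1 : Tendsto (fun j => gS (Matrix.diagonal l) (gS (g j) t)) atTop
        (𝓝 (gS (Matrix.diagonal l) s)) :=
      ((continuous_gS h (Matrix.diagonal l)).tendsto s).comp hlim
    have h2 : (fun j => gS (Matrix.diagonal l) (gS (g j) t)) = fun j => gS (g j) t := by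
      funext j
      rw [← gS_mul h, ← (hg j).2, gS_mul h, ht]
    rw [h2] at h1
    exact tendsto_nhds_unique h1 hlim
  refine ⟨s, g, fun j => (hg j).1, fun j => (hg j).2, hlim, hsl, fun A hA => ?_⟩
  change mo h s A = 0
  rw [mo_off l h hl hne hsl A]
  have hdl : IsLie D (Matrix.diagonal fun i => A i i) := lie_diag D hA
  have hcomm : ∀ c : ℂ, (NormedSpace.exp (c • Matrix.diagonal fun i => A i i)) * Matrix.diagonal l
      = Matrix.diagonal l * NormedSpace.exp (c • Matrix.diagonal fun i => A i i) := by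
    intro c
    have h1 : c • (Matrix.diagonal fun i => A i i) = Matrix.diagonal fun i => c * A i i := by
      rw [← Matrix.diagonal_smul]
      rfl
    rw [h1, Matrix.exp_diagonal, Matrix.diagonal_mul_diagonal, Matrix.diagonal_mul_diagonal]
    congr 1
    funext i
    ring
  have hP : ∀ c : ℂ, IsG D (NormedSpace.exp (c • Matrix.diagonal fun i => A i i)) := fun c =>
    h.G_exp D _ (h.Lie_smul D _ _ hdl)
  have h1 : (mo h s (Matrix.diagonal fun i => A i i)).re = 0 :=
    re_crit h _ s fun τ => hs _ ⟨hP _, hcomm _⟩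
  have h2 : (mo h s (Complex.I • Matrix.diagonal fun i => A i i)).re = 0 := by
    refine re_crit h _ s fun τ => hs _ ?_
    rw [smul_smul]
    exact ⟨hP _, hcomm _⟩
  rw [map_smul, smul_eq_mul] at h2
  refine Complex.ext h1 ?_
  simpa using h2

end diag

end TMIN

end Pool.Agent.Lib.MP_361a6f_ag.FL
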